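import Pool.Agent.W_42fc02_h90.GalC

/-!
Kum: Kummer extensions F(pi_s : s in S), pi_s^N in F*, zeta in F a primitive N-th root of 1.
-/

namespace W42

section
variable (F : Type) {Ω : Type} [Field F] [Field Ω] [Algebra F Ω]

/-- F(pi_s : s in S) -/
noncomputable def KumL (pi : ℕ → Ω) (S : Set ℕ) : IntermediateField F Ω :=
  IntermediateField.adjoin F (pi '' S)

variable [IsGalois F Ω]

theorem kumL_mono (pi : ℕ → Ω) {S T : Set ℕ} (h : S ⊆ T) : KumL F pi S ≤ KumL F pi T := by
  exact IntermediateField.adjoin.mono F _ _ (Set.image_mono h)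

theorem kumL_finite (pi : ℕ → Ω) (S : Finset ℕ) : FiniteDimensional F (KumL F pi S) := by
  have : Finite (pi '' (S : Set ℕ)) := (S.finite_toSet.image pi).to_subtype
  exact IntermediateField.finiteDimensional_adjoin fun x _ => Algebra.IsIntegral.isIntegral x

/-- a finite subextension of F(pi_s : all s) lies in F(pi_s : s in S), S finite -/
theorem exists_finset_kumL (pi : ℕ → Ω) (E : IntermediateField F Ω) [FiniteDimensional F E]
    (h : E ≤ KumL F pi Set.univ) : ∃ S : Finset ℕ, E ≤ KumL F pi S := by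
  classical
  obtain ⟨T, hT⟩ : E.FG := IntermediateField.essFiniteType_iff.1 inferInstance
  have h1 : ∀ x ∈ T, ∃ S : Finset ℕ, x ∈ KumL F pi S := by
    intro x hx
    have hxE : x ∈ E := by
      rw [← hT]
      exact IntermediateField.subset_adjoin F _ hx
    obtain ⟨U, hU, hxU⟩ := IntermediateField.exists_finset_of_mem_adjoin (h hxE)
    obtain ⟨S, _, hS⟩ := Finset.subset_set_image_iff.1 hU
    refine ⟨S, ?_⟩
    rw [← hS, Finset.coe_image] at hxU
    exact hxU
  choose! S hS using h1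
  refine ⟨T.biUnion S, ?_⟩
  rw [← hT, IntermediateField.adjoin_le_iff]
  intro x hx
  exact kumL_mono F pi (fun n hn => Finset.mem_coe.2 (Finset.mem_biUnion.2 ⟨x, hx, hn⟩)) (hS x hx)

theorem fix_kumL (pi : ℕ → Ω) (S : Set ℕ) (g : Gal(Ω/F)) (h : ∀ s ∈ S, g (pi s) = pi s) :
    g ∈ (KumL F pi S).fixingSubgroup := by
  have h1 : KumL F pi S ≤ IntermediateField.fixedField (Subgroup.zpowers g) := by
    unfold KumL
    rw [IntermediateField.adjoin_le_iff]
    rintro _ ⟨s, hs, rfl⟩
    show pi s ∈ IntermediateField.fixedField (Subgroup.zpowers g)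
    rw [IntermediateField.mem_fixedField_iff]
    intro f hf
    have h2 : Subgroup.zpowers g ≤ MulAction.stabilizer Gal(Ω/F) (pi s) :=
      Subgroup.zpowers_le.2 (MulAction.mem_stabilizer_iff.2 (h s hs))
    exact MulAction.mem_stabilizer_iff.1 (h2 hf)
  exact (IntermediateField.le_iff_le _ _).1 h1 (Subgroup.mem_zpowers g)

variable (N : ℕ) (hN : 0 < N) (ζ : F) (hζ : IsPrimitiveRoot ζ N) (pi : ℕ → Ω)
  (hpi : ∀ s, ∃ a : F, a ≠ 0 ∧ pi s ^ N = algebraMap F Ω a)

include hN hζ hpi in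
/-- each automorphism multiplies pi_s by a power of zeta -/
theorem kum_act (g : Gal(Ω/F)) (s : ℕ) : ∃ n : ℕ, n < N ∧ g (pi s) = (algebraMap F Ω ζ) ^ n * pi s := by
  obtain ⟨a, ha, hs⟩ := hpi s
  have hne : pi s ≠ 0 := by
    intro h0
    rw [h0, zero_pow hN.ne'] at hs
    exact ha ((map_eq_zero (algebraMap F Ω)).1 hs.symm)
  have : NeZero N := ⟨hN.ne'⟩
  have hζ' : IsPrimitiveRoot (algebraMap F Ω ζ) N :=
    hζ.map_of_injective (algebraMap F Ω).injective
  have h1 : (g (pi s) / pi s) ^ N = 1 := by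
    rw [div_pow, ← map_pow, hs, AlgEquiv.commutes]
    apply div_self
    rw [← hs]
    exact pow_ne_zero N hne
  obtain ⟨i, hi, h2⟩ := hζ'.eq_pow_of_pow_eq_one h1
  refine ⟨i, hi, ?_⟩
  rw [h2, div_mul_cancel₀ _ hne]

include hN hζ hpi in
theorem kumL_normal (S : Set ℕ) : Normal F (KumL F pi S) := by
  rw [IntermediateField.normal_iff_forall_map_le']
  intro σ
  unfold KumL
  rw [IntermediateField.adjoin_map, IntermediateField.adjoin_le_iff]
  rintro _ ⟨_, ⟨s, hs, rfl⟩, rfl⟩
  obtain ⟨n, _, h1⟩ := kum_act F N hN ζ hζ pi hpi σ s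
  show σ (pi s) ∈ IntermediateField.adjoin F (pi '' S)
  rw [h1]
  exact mul_mem (pow_mem (IntermediateField.algebraMap_mem _ ζ) n)
    (IntermediateField.subset_adjoin F _ ⟨s, hs, rfl⟩)

include hN hζ hpi in
/-- the Galois group is commutative of exponent N -/
theorem kumL_exponent (S : Set ℕ) (g : Gal(Ω/F)) : ∀ z ∈ KumL F pi S, (g ^ N) z = z := by
  apply (IntermediateField.mem_fixingSubgroup_iff _ _).1
  apply fix_kumL
  intro s _
  obtain ⟨n, _, h1⟩ := kum_act F N hN ζ hζ pi hpi g s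
  have h2 : ∀ k : ℕ, (g ^ k) (pi s) = (algebraMap F Ω ζ) ^ (n * k) * pi s := by
    intro k
    induction k with
    | zero => simp
    | succ k ih =>
      rw [pow_succ']
      show g ((g ^ k) (pi s)) = _
      rw [ih, map_mul, map_pow, AlgEquiv.commutes, h1, Nat.mul_succ, pow_add]
      ring
  rw [h2 N, mul_comm n N, pow_mul, ← map_pow, hζ.pow_eq_one, map_one, one_pow, one_mul]

include hN hζ hpi in
theorem kumL_comm (S : Set ℕ) (g g' : Gal(Ω/F)) : ∀ z ∈ KumL F pi S, g (g' z) = g' (g z) := by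
  have h0 : (g' * g)⁻¹ * (g * g') ∈ (KumL F pi S).fixingSubgroup := by
    apply fix_kumL
    intro s _
    obtain ⟨n, _, h1⟩ := kum_act F N hN ζ hζ pi hpi g s
    obtain ⟨m, _, h2⟩ := kum_act F N hN ζ hζ pi hpi g' s
    have h3 : (g * g') (pi s) = (g' * g) (pi s) := by
      show g (g' (pi s)) = g' (g (pi s))
      rw [h1, h2, map_mul, map_mul, map_pow, map_pow, AlgEquiv.commutes, AlgEquiv.commutes, h1, h2]
      ring
    show (g' * g)⁻¹ ((g * g') (pi s)) = pi s
    rw [h3]
    exact (g' * g).symm_apply_apply (pi s)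
  intro z hz
  have h1 := (IntermediateField.mem_fixingSubgroup_iff _ _).1 h0 z hz
  have h2 : (g' * g)⁻¹ ((g * g') z) = z := h1
  have h3 : (g * g') z = (g' * g) z := by
    conv_rhs => rw [← h2]
    exact ((g' * g).apply_symm_apply _).symm
  exact h3

include hN hζ hpi in
/-- the Kummer character of `pi j` -/
theorem Kum_hom (j : ℕ) : ∃ φ : Gal(Ω/F) →* Ωˣ, (∀ g, φ g = 1 ↔ g (pi j) = pi j) ∧
    ∀ g, φ g ∈ rootsOfUnity N Ω := by
  obtain ⟨a, ha, hs⟩ := hpi j
  have hne : pi j ≠ 0 := by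
    intro h0
    rw [h0, zero_pow hN.ne'] at hs
    exact ha ((map_eq_zero (algebraMap F Ω)).1 hs.symm)
  have hne' : ∀ g : Gal(Ω/F), g (pi j) / pi j ≠ 0 := fun g =>
    div_ne_zero ((map_ne_zero g).2 hne) hne
  refine ⟨⟨⟨fun g => Units.mk0 (g (pi j) / pi j) (hne' g), ?_⟩, ?_⟩, ?_, ?_⟩
  · apply Units.ext
    exact div_self hne
  · intro g g'
    apply Units.ext
    show (g * g') (pi j) / pi j = g (pi j) / pi j * (g' (pi j) / pi j)
    obtain ⟨n, _, h1⟩ := kum_act F N hN ζ hζ pi hpi g j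
    obtain ⟨m, _, h2⟩ := kum_act F N hN ζ hζ pi hpi g' j
    have h3 : (g * g') (pi j) = (algebraMap F Ω ζ) ^ m * ((algebraMap F Ω ζ) ^ n * pi j) := by
      show g (g' (pi j)) = _
      rw [h2, map_mul, map_pow, AlgEquiv.commutes, h1]
    rw [h3, h1, h2]
    field_simp
  · intro g
    constructor
    · intro h
      have h1 := congrArg (fun u : Ωˣ => (u : Ω)) h
      have h2 : g (pi j) / pi j = 1 := h1
      exact (div_eq_one_iff_eq hne).1 h2
    · intro h
      apply Units.ext
      exact (div_eq_one_iff_eq hne).2 h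
  · intro g
    rw [mem_rootsOfUnity]
    apply Units.ext
    obtain ⟨n, _, h1⟩ := kum_act F N hN ζ hζ pi hpi g j
    show (g (pi j) / pi j) ^ N = 1
    rw [h1, mul_div_cancel_right₀ _ hne, ← pow_mul, mul_comm, pow_mul, ← map_pow,
      hζ.pow_eq_one, map_one, one_pow]

include hN hζ hpi in
/-- adjoining one more root: index of the fixing subgroups divides N (it embeds into the cyclic
group of N-th roots of 1), so c^N is split by F(pi_s : s in S) if c is split by
F(pi_s : s in S and j) (spl_pow_of_spl, Spl.pow). -/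
theorem spl_kumL_insert (S : Finset ℕ) (j : ℕ) {c : Gal(Ω/F) → Gal(Ω/F) → Ωˣ} (hc : BC c)
    (h : Spl (KumL F pi (insert j S : Finset ℕ)) c) :
    Spl (KumL F pi S) (fun σ τ => c σ τ ^ N) := by
  classical
  have hle : KumL F pi (S : Set ℕ) ≤ KumL F pi (insert j S : Finset ℕ) :=
    kumL_mono F pi (by simp)
  have hfin := kumL_finite F pi (insert j S)
  obtain ⟨n, hn⟩ : ∃ n, (KumL F pi (insert j S : Finset ℕ)).fixingSubgroup.relIndex
    (KumL F pi (S : Set ℕ)).fixingSubgroup = n := ⟨_, rfl⟩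
  have h1 := spl_pow_of_spl hle hc h n hn
  have hdvd : n ∣ N := by
    obtain ⟨φ, hφ, hr⟩ := Kum_hom F N hN ζ hζ pi hpi j
    have h2 : (KumL F pi (insert j S : Finset ℕ)).fixingSubgroup =
        (KumL F pi (S : Set ℕ)).fixingSubgroup ⊓ φ.ker := by
      apply le_antisymm
      · apply le_inf (IntermediateField.fixingSubgroup_antitone hle)
        intro g hg
        rw [MonoidHom.mem_ker, hφ]
        refine (IntermediateField.mem_fixingSubgroup_iff _ _).1 hg _ ?_
        exact IntermediateField.subset_adjoin F _ ⟨j, by simp, rfl⟩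
      · rintro g ⟨hg1, hg2⟩
        have hg2' : φ g = 1 := hg2
        rw [hφ] at hg2'
        apply fix_kumL
        intro s hs
        have hs' : s ∈ insert j S := hs
        rcases Finset.mem_insert.1 hs' with rfl | hs'
        · exact hg2'
        · refine (IntermediateField.mem_fixingSubgroup_iff _ _).1 hg1 _ ?_
          exact IntermediateField.subset_adjoin F _ ⟨s, hs', rfl⟩
    have h3 : n = Nat.card ((KumL F pi (S : Set ℕ)).fixingSubgroup.map φ) := by
      rw [← hn, h2, Subgroup.inf_relIndex_left, Subgroup.relIndex_ker]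
    have : NeZero N := ⟨hN.ne'⟩
    have hζ' : IsPrimitiveRoot (algebraMap F Ω ζ) N :=
      hζ.map_of_injective (algebraMap F Ω).injective
    rw [h3, ← hζ'.card_rootsOfUnity]
    apply Subgroup.card_dvd_of_le
    rintro _ ⟨g, _, rfl⟩
    exact hr g
  obtain ⟨m, hm⟩ := hdvd
  have h2 := h1.pow m
  have h3 : (fun σ τ => c σ τ ^ N) = fun σ τ => (c σ τ ^ n) ^ m := by
    funext σ τ
    rw [hm, pow_mul]
  rw [h3]
  exact h2

include hN hζ hpi in
/-- a class split by F(pi_s : s in S) is killed by a power of N (induction on S). -/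
theorem pow_beq_of_spl_kumL (S : Finset ℕ) {c : Gal(Ω/F) → Gal(Ω/F) → Ωˣ} (hc : BC c)
    (h : Spl (KumL F pi S) c) : ∃ s : ℕ, BEq (fun σ τ => c σ τ ^ N ^ s) c1 := by
  classical
  induction S using Finset.induction_on generalizing c with
  | empty =>
    refine ⟨0, ?_⟩
    have h1 : KumL F pi ((∅ : Finset ℕ) : Set ℕ) = ⊥ := by
      unfold KumL
      rw [Finset.coe_empty, Set.image_empty, IntermediateField.adjoin_empty]
    rw [h1, spl_bot_iff] at h
    simpa using h
  | insert j S _ ih =>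
    obtain ⟨s, hs⟩ := ih (hc.pow N) (spl_kumL_insert F N hN ζ hζ pi hpi S j hc h)
    refine ⟨s + 1, ?_⟩
    have h3 : (fun σ τ => c σ τ ^ N ^ (s + 1)) = fun σ τ => (c σ τ ^ N) ^ N ^ s := by
      funext σ τ
      rw [← pow_mul, pow_succ']
    rw [h3]
    exact hs

end

end W42
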