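import Pool.Agent.W_42fc02_h90.Sym
import Pool.Agent.W_42fc02_h90.Kum

/-!
BAll (hand-in B, positive part): Kall = F(all N-th roots of elements of F*). Normal, commutative,
exponent N; a finite subextension lies in F(N-th roots of finitely many constants and monic
irreducible polynomials of kappa[X]), F = kappa(y).
-/

namespace W42

open Polynomial

section
variable (F Ω : Type) [Field F] [Field Ω] [Algebra F Ω]

/-- F(all N-th roots of elements of F*) -/
noncomputable def Kall (N : ℕ) : IntermediateField F Ω :=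
  IntermediateField.adjoin F {z | IsRt N F z}

variable {F Ω}

theorem kall_act {N : ℕ} (hN : 0 < N) {ζ : F} (hζ : IsPrimitiveRoot ζ N) {z : Ω}
    (hz : IsRt N F z) (g : Gal(Ω/F)) : ∃ n : ℕ, g z = (algebraMap F Ω ζ) ^ n * z :=
  Sym_exists hN hζ hz g

theorem fix_kall {N : ℕ} (g : Gal(Ω/F)) (h : ∀ z : Ω, IsRt N F z → g z = z) :
    ∀ z ∈ Kall F Ω N, g z = z := by
  have h1 : Kall F Ω N ≤ IntermediateField.fixedField (Subgroup.zpowers g) := by
    unfold Kall
    rw [IntermediateField.adjoin_le_iff]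
    intro z hz
    show z ∈ IntermediateField.fixedField (Subgroup.zpowers g)
    rw [IntermediateField.mem_fixedField_iff]
    intro f hf
    have h2 : Subgroup.zpowers g ≤ MulAction.stabilizer Gal(Ω/F) z :=
      Subgroup.zpowers_le.2 (MulAction.mem_stabilizer_iff.2 (h z hz))
    exact MulAction.mem_stabilizer_iff.1 (h2 hf)
  intro z hz
  exact (IntermediateField.mem_fixedField_iff _ _).1 (h1 hz) g (Subgroup.mem_zpowers g)

theorem kall_normal [IsGalois F Ω] {N : ℕ} (hN : 0 < N) {ζ : F} (hζ : IsPrimitiveRoot ζ N) :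
    Normal F (Kall F Ω N) := by
  rw [IntermediateField.normal_iff_forall_map_le']
  intro σ
  unfold Kall
  rw [IntermediateField.adjoin_map, IntermediateField.adjoin_le_iff]
  rintro _ ⟨z, hz, rfl⟩
  obtain ⟨n, h1⟩ := kall_act hN hζ hz σ
  show σ z ∈ IntermediateField.adjoin F {z | IsRt N F z}
  rw [h1]
  exact mul_mem (pow_mem (IntermediateField.algebraMap_mem _ ζ) n)
    (IntermediateField.subset_adjoin F _ hz)

theorem kall_exponent {N : ℕ} (hN : 0 < N) {ζ : F} (hζ : IsPrimitiveRoot ζ N) (g : Gal(Ω/F)) :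
    ∀ z ∈ Kall F Ω N, (g ^ N) z = z := by
  apply fix_kall
  intro z hz
  obtain ⟨n, h1⟩ := kall_act hN hζ hz g
  have h2 : ∀ k : ℕ, (g ^ k) z = (algebraMap F Ω ζ) ^ (n * k) * z := by
    intro k
    induction k with
    | zero => simp
    | succ k ih =>
      rw [pow_succ']
      show g ((g ^ k) z) = _
      rw [ih, map_mul, map_pow, AlgEquiv.commutes, h1, Nat.mul_succ, pow_add]
      ring
  rw [h2 N, mul_comm n N, pow_mul, ← map_pow, hζ.pow_eq_one, map_one, one_pow, one_mul]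

theorem kall_comm {N : ℕ} (hN : 0 < N) {ζ : F} (hζ : IsPrimitiveRoot ζ N) (g g' : Gal(Ω/F)) :
    ∀ z ∈ Kall F Ω N, g (g' z) = g' (g z) := by
  have h0 : ∀ z ∈ Kall F Ω N, ((g' * g)⁻¹ * (g * g')) z = z := by
    apply fix_kall
    intro z hz
    obtain ⟨n, h1⟩ := kall_act hN hζ hz g
    obtain ⟨m, h2⟩ := kall_act hN hζ hz g'
    have h3 : (g * g') z = (g' * g) z := by
      show g (g' z) = g' (g z)
      rw [h1, h2, map_mul, map_mul, map_pow, map_pow, AlgEquiv.commutes, AlgEquiv.commutes, h1, h2]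
      ring
    show (g' * g)⁻¹ ((g * g') z) = z
    rw [h3]
    exact (g' * g).symm_apply_apply z
  intro z hz
  have h1 := h0 z hz
  have h2 : (g' * g)⁻¹ ((g * g') z) = z := h1
  have h3 : (g * g') z = (g' * g) z := by
    conv_rhs => rw [← h2]
    exact ((g' * g).apply_symm_apply _).symm
  exact h3

end

section
variable (κ F : Type) {Ω : Type} [Field κ] [Field F] [Field Ω] [Algebra κ[X] F]
  [IsFractionRing κ[X] F] [Algebra F Ω]

/-- constants and monic irreducible polynomials -/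
def PP (p : κ[X]) : Prop := p ≠ 0 ∧ (p.natDegree = 0 ∨ (p.Monic ∧ Irreducible p))

/-- F(N-th roots of the elements of T) -/
noncomputable def FT (N : ℕ) (T : Set κ[X]) : IntermediateField F Ω :=
  IntermediateField.adjoin F {w | ∃ p ∈ T, w ^ N = algebraMap F Ω (algebraMap κ[X] F p)}

omit [IsFractionRing κ[X] F] in
theorem FT_mono (N : ℕ) {T T' : Set κ[X]} (h : T ⊆ T') :
    (FT κ F N T : IntermediateField F Ω) ≤ FT κ F N T' := by
  apply IntermediateField.adjoin.mono
  rintro w ⟨p, hp, hw⟩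
  exact ⟨p, h hp, hw⟩

theorem BAll_ne {p : κ[X]} (hp : p ≠ 0) : algebraMap F Ω (algebraMap κ[X] F p) ≠ 0 := by
  rw [Ne, map_eq_zero, map_eq_zero_iff _ (IsFractionRing.injective κ[X] F)]
  exact hp

theorem BAll_poly [IsSepClosed Ω] (N : ℕ) (hN0 : 0 < N) (hN : (N : F) ≠ 0) (f : κ[X])
    (hf : f ≠ 0) : ∃ T : Finset κ[X], (∀ p ∈ T, PP κ p) ∧ ∀ z : Ω,
      z ^ N = algebraMap F Ω (algebraMap κ[X] F f) → z ∈ FT κ F N (T : Set κ[X]) := by
  classical
  revert hf
  induction f using WfDvdMonoid.induction_on_irreducible with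
  | zero => exact fun h => absurd rfl h
  | unit u hu =>
    intro hu0
    refine ⟨{u}, ?_, ?_⟩
    · intro p hp
      rw [Finset.mem_singleton] at hp
      subst hp
      exact ⟨hu0, Or.inl (natDegree_eq_zero_of_isUnit hu)⟩
    · intro z hz
      exact IntermediateField.subset_adjoin F _ ⟨u, by simp, hz⟩
  | mul a i ha hi ih =>
    intro _
    obtain ⟨T, hT, hz⟩ := ih ha
    have hi0 : i ≠ 0 := hi.ne_zero
    have hlc : i.leadingCoeff ≠ 0 := leadingCoeff_ne_zero.2 hi0
    obtain ⟨i₀, hi₀⟩ : ∃ i₀ : κ[X], i₀ = C i.leadingCoeff⁻¹ * i := ⟨_, rfl⟩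
    have hu : IsUnit (C i.leadingCoeff⁻¹ : κ[X]) :=
      isUnit_C.2 (isUnit_iff_ne_zero.2 (inv_ne_zero hlc))
    have hmon : i₀.Monic := by
      rw [hi₀, mul_comm]
      exact monic_mul_leadingCoeff_inv hi0
    have hirr : Irreducible i₀ := by
      rw [hi₀, irreducible_isUnit_mul hu]
      exact hi
    have hprod : i = C i.leadingCoeff * i₀ := by
      rw [hi₀, ← mul_assoc, ← C_mul, mul_inv_cancel₀ hlc, C_1, one_mul]
    have hC0 : (C i.leadingCoeff : κ[X]) ≠ 0 := C_ne_zero.2 hlc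
    refine ⟨insert (C i.leadingCoeff) (insert i₀ T), ?_, ?_⟩
    · intro p hp
      rw [Finset.mem_insert, Finset.mem_insert] at hp
      rcases hp with rfl | rfl | hp
      · exact ⟨hC0, Or.inl (natDegree_C _)⟩
      · exact ⟨hmon.ne_zero, Or.inr ⟨hmon, hirr⟩⟩
      · exact hT p hp
    · intro z hzz
      obtain ⟨w₁, hw₁⟩ := exists_rt (F := F) (Ω := Ω) N hN (algebraMap κ[X] F (C i.leadingCoeff))
      obtain ⟨w₂, hw₂⟩ := exists_rt (F := F) (Ω := Ω) N hN (algebraMap κ[X] F i₀)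
      have hw₁0 : w₁ ≠ 0 := by
        rintro rfl
        rw [zero_pow hN0.ne'] at hw₁
        exact BAll_ne κ F hC0 hw₁.symm
      have hw₂0 : w₂ ≠ 0 := by
        rintro rfl
        rw [zero_pow hN0.ne'] at hw₂
        exact BAll_ne κ F hmon.ne_zero hw₂.symm
      have h1 : (z / (w₁ * w₂)) ^ N = algebraMap F Ω (algebraMap κ[X] F a) := by
        rw [div_pow, mul_pow, hzz, hw₁, hw₂, ← map_mul, ← map_mul, ← hprod, map_mul, map_mul,
          mul_comm, mul_div_assoc, div_self (BAll_ne κ F hi0), mul_one]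
      have h2 : z = z / (w₁ * w₂) * (w₁ * w₂) := by
        rw [div_mul_cancel₀ _ (mul_ne_zero hw₁0 hw₂0)]
      rw [h2]
      refine mul_mem (FT_mono κ F N ?_ (hz _ h1)) (mul_mem ?_ ?_)
      · intro p hp
        simp only [Finset.coe_insert, Set.mem_insert_iff]
        exact Or.inr (Or.inr hp)
      · exact IntermediateField.subset_adjoin F _ ⟨_, by simp, hw₁⟩
      · exact IntermediateField.subset_adjoin F _ ⟨_, by simp, hw₂⟩

theorem BAll_root [IsSepClosed Ω] (N : ℕ) (hN0 : 0 < N) (hN : (N : F) ≠ 0) (z : Ω)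
    (hz : IsRt N F z) : ∃ T : Finset κ[X], (∀ p ∈ T, PP κ p) ∧ z ∈ FT κ F N (T : Set κ[X]) := by
  classical
  obtain ⟨a, ha, hza⟩ := hz
  obtain ⟨f, g, hg, rfl⟩ := IsFractionRing.div_surjective (A := κ[X]) a
  have hg0 : g ≠ 0 := nonZeroDivisors.ne_zero hg
  have hf0 : f ≠ 0 := by
    rintro rfl
    apply ha
    rw [map_zero, zero_div]
  obtain ⟨T₁, hT₁, h1⟩ := BAll_poly κ F (Ω := Ω) N hN0 hN f hf0
  obtain ⟨T₂, hT₂, h2⟩ := BAll_poly κ F (Ω := Ω) N hN0 hN g hg0
  obtain ⟨w, hw⟩ := exists_rt (F := F) (Ω := Ω) N hN (algebraMap κ[X] F g)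
  have hw0 : w ≠ 0 := by
    rintro rfl
    rw [zero_pow hN0.ne'] at hw
    exact BAll_ne κ F hg0 hw.symm
  have h3 : (z * w) ^ N = algebraMap F Ω (algebraMap κ[X] F f) := by
    rw [mul_pow, hza, hw, ← map_mul, div_mul_cancel₀]
    rw [Ne, map_eq_zero_iff _ (IsFractionRing.injective κ[X] F)]
    exact hg0
  refine ⟨T₁ ∪ T₂, ?_, ?_⟩
  · intro p hp
    rcases Finset.mem_union.1 hp with hp | hp
    · exact hT₁ p hp
    · exact hT₂ p hp
  · have h4 : z = z * w / w := by rw [mul_div_cancel_right₀ _ hw0]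
    rw [h4]
    refine div_mem (FT_mono κ F N ?_ (h1 _ h3)) (FT_mono κ F N ?_ (h2 _ hw))
    · exact fun p hp => Finset.mem_coe.2 (Finset.mem_union_left _ (Finset.mem_coe.1 hp))
    · exact fun p hp => Finset.mem_coe.2 (Finset.mem_union_right _ (Finset.mem_coe.1 hp))

theorem BAll_finite [IsSepClosed Ω] (N : ℕ) (hN0 : 0 < N) (hN : (N : F) ≠ 0)
    (E : IntermediateField F Ω) [FiniteDimensional F E] (h : E ≤ Kall F Ω N) :
    ∃ T : Finset κ[X], (∀ p ∈ T, PP κ p) ∧ E ≤ FT κ F N (T : Set κ[X]) := by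
  classical
  obtain ⟨B, hB⟩ : E.FG := IntermediateField.essFiniteType_iff.1 inferInstance
  have h1 : ∀ x ∈ B, ∃ T : Finset κ[X], (∀ p ∈ T, PP κ p) ∧ x ∈ FT κ F N (T : Set κ[X]) := by
    intro x hx
    have hxE : x ∈ E := by
      rw [← hB]
      exact IntermediateField.subset_adjoin F _ hx
    obtain ⟨U, hU, hxU⟩ := IntermediateField.exists_finset_of_mem_adjoin (h hxE)
    have h2 : ∀ w ∈ U, ∃ T : Finset κ[X], (∀ p ∈ T, PP κ p) ∧ w ∈ FT κ F N (T : Set κ[X]) :=
      fun w hw => BAll_root κ F N hN0 hN w (hU hw)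
    choose! T hT hwT using h2
    refine ⟨U.biUnion T, ?_, ?_⟩
    · intro p hp
      obtain ⟨w, hw, hp⟩ := Finset.mem_biUnion.1 hp
      exact hT w hw p hp
    · have h3 : IntermediateField.adjoin F (U : Set Ω) ≤ FT κ F N (U.biUnion T : Set κ[X]) := by
        rw [IntermediateField.adjoin_le_iff]
        intro w hw
        exact FT_mono κ F N (fun p hp => Finset.mem_coe.2 (Finset.mem_biUnion.2
          ⟨w, hw, Finset.mem_coe.1 hp⟩)) (hwT w hw)
      exact h3 hxU
  choose! T hT hxT using h1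
  refine ⟨B.biUnion T, ?_, ?_⟩
  · intro p hp
    obtain ⟨w, hw, hp⟩ := Finset.mem_biUnion.1 hp
    exact hT w hw p hp
  · rw [← hB, IntermediateField.adjoin_le_iff]
    intro w hw
    exact FT_mono κ F N (fun p hp => Finset.mem_coe.2 (Finset.mem_biUnion.2
      ⟨w, hw, Finset.mem_coe.1 hp⟩)) (hxT w hw)

end

end W42
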