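import Pool.Agent.W_42fc02_h90.CsaD

/-!
BCsaE (hand-in B, N9): every Brauer cocycle comes from an algebra.

exists_csa. c : IsC2, Lev2 L c, L / F finite normal. iota = Gal(L/F). For sigma in Gal(Omega/F) let
s = restriction to L and P sigma = the matrix with entry c sigma (liftL L h) at (s h, h) (all h in
iota) and 0 elsewhere (Lev2: c sigma depends only on restrictions). It is invertible (a permutation
matrix times a diagonal one). Cocycle identity: P sigma * (P tau).map sigma = c sigma tau P (sigma tau)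
(apply to the basis vector e_h: sigma (c tau h) c sigma (t h) = c sigma tau c (sigma tau) h: IsC2).
A = {M : P sigma * M.map sigma = M * P sigma for all sigma}, a subalgebra over F.
Descent: index set J = iota x iota, P' sigma = the matrix over J of the Omega-linear map
M -> P sigma * M * (P sigma)^-1 on Matrix iota iota Omega = J -> Omega (entries
P sigma i i' * (P sigma)^-1 j' j); it is invertible, P' (sigma tau) = P' sigma * (P' tau).map sigma exactly
(the scalars c sigma tau cancel), finite level. hilbert90 with H = top: Q invertible with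
Q * P' sigma = Q.map sigma for all sigma. For M (as a vector x in J -> Omega): M in A iff
P' sigma * sigma x = x for all sigma iff sigma (Q x) = Q x for all sigma iff Q x in J -> F (IsGalois F
Omega: InfiniteGalois or IsGalois.mem_bot_iff_fixed). So A is F-linearly isomorphic to J -> F by
M -> Q x: finrank F A = |J| = |iota|^2, and the Omega-span of A is everything (Q^-1 of the span of the
standard basis). RepCoc: rel = definition of A, coc, lev (values in L).
-/

namespace W42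

open scoped Kronecker

section
variable {F Ω ι : Type} [Field F] [Field Ω] [Algebra F Ω]

/-- a matrix as a vector -/
def BCsaE_vec (M : Matrix ι ι Ω) : ι × ι → Ω := fun p => M p.1 p.2

/-- a vector as a matrix -/
def BCsaE_mat (x : ι × ι → Ω) : Matrix ι ι Ω := Matrix.of fun i j => x (i, j)

theorem BCsaE_mat_vec (M : Matrix ι ι Ω) : BCsaE_mat (BCsaE_vec M) = M := rfl

theorem BCsaE_vec_mat (x : ι × ι → Ω) : BCsaE_vec (BCsaE_mat x) = x := rfl

theorem BCsaE_kron [Fintype ι] (X Y M : Matrix ι ι Ω) :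
    (X ⊗ₖ Y.transpose).mulVec (BCsaE_vec M) = BCsaE_vec (X * M * Y) := by
  funext p
  obtain ⟨i, j⟩ := p
  change ∑ q : ι × ι, (X i q.1 * Y q.2 j) * M q.1 q.2 = ∑ b, (∑ a, X i a * M a b) * Y b j
  rw [Fintype.sum_prod_type, Finset.sum_comm]
  refine Finset.sum_congr rfl fun b _ => ?_
  rw [Finset.sum_mul]
  refine Finset.sum_congr rfl fun a _ => ?_
  ring

theorem BCsaE_kron_map (σ : Gal(Ω/F)) (X Y : Matrix ι ι Ω) :
    (X ⊗ₖ Y).map σ = X.map σ ⊗ₖ Y.map σ := by
  ext p q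
  exact map_mul σ _ _

/-- the conjugation action as a matrix -/
def BCsaE_act [Fintype ι] [DecidableEq ι] (P : (Matrix ι ι Ω)ˣ) :
    (Matrix (ι × ι) (ι × ι) Ω)ˣ where
  val := (P : Matrix ι ι Ω) ⊗ₖ ((P⁻¹ : (Matrix ι ι Ω)ˣ) : Matrix ι ι Ω).transpose
  inv := ((P⁻¹ : (Matrix ι ι Ω)ˣ) : Matrix ι ι Ω) ⊗ₖ (P : Matrix ι ι Ω).transpose
  val_inv := by
    rw [← Matrix.mul_kronecker_mul, ← Matrix.transpose_mul, Units.mul_inv, Matrix.transpose_one,
      Matrix.one_kronecker_one]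
  inv_val := by
    rw [← Matrix.mul_kronecker_mul, ← Matrix.transpose_mul, Units.inv_mul, Matrix.transpose_one,
      Matrix.one_kronecker_one]

theorem BCsaE_act_vec [Fintype ι] [DecidableEq ι] (P : (Matrix ι ι Ω)ˣ) (M : Matrix ι ι Ω) :
    ((BCsaE_act P : (Matrix (ι × ι) (ι × ι) Ω)ˣ) : Matrix (ι × ι) (ι × ι) Ω).mulVec
      (BCsaE_vec M) =
      BCsaE_vec ((P : Matrix ι ι Ω) * M * ((P⁻¹ : (Matrix ι ι Ω)ˣ) : Matrix ι ι Ω)) :=
  BCsaE_kron _ _ _

theorem BCsaE_act_coc [Fintype ι] [DecidableEq ι] (σ : Gal(Ω/F)) (P Q R : (Matrix ι ι Ω)ˣ)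
    (c : Ωˣ) (h : (P : Matrix ι ι Ω) * (Q : Matrix ι ι Ω).map σ = (c : Ω) • (R : Matrix ι ι Ω)) :
    ((BCsaE_act R : (Matrix (ι × ι) (ι × ι) Ω)ˣ) : Matrix (ι × ι) (ι × ι) Ω) =
      ((BCsaE_act P : (Matrix (ι × ι) (ι × ι) Ω)ˣ) : Matrix (ι × ι) (ι × ι) Ω) *
      ((BCsaE_act Q : (Matrix (ι × ι) (ι × ι) Ω)ˣ) : Matrix (ι × ι) (ι × ι) Ω).map σ := by
  have hR : (R : Matrix ι ι Ω) = ((c⁻¹ : Ωˣ) : Ω) • ((P : Matrix ι ι Ω) *
      (Q : Matrix ι ι Ω).map σ) := by
    rw [h, smul_smul, Units.inv_mul, one_smul]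
  have hRi : ((R⁻¹ : (Matrix ι ι Ω)ˣ) : Matrix ι ι Ω) = (c : Ω) •
      (((Q⁻¹ : (Matrix ι ι Ω)ˣ) : Matrix ι ι Ω).map σ *
        ((P⁻¹ : (Matrix ι ι Ω)ˣ) : Matrix ι ι Ω)) := by
    apply Units.inv_eq_of_mul_eq_one_right
    rw [hR, smul_mul_smul_comm, Units.inv_mul, one_smul]
    calc (P : Matrix ι ι Ω) * (Q : Matrix ι ι Ω).map σ *
        (((Q⁻¹ : (Matrix ι ι Ω)ˣ) : Matrix ι ι Ω).map σ *
          ((P⁻¹ : (Matrix ι ι Ω)ˣ) : Matrix ι ι Ω))
        = (P : Matrix ι ι Ω) * ((Q : Matrix ι ι Ω).map σ *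
          ((Q⁻¹ : (Matrix ι ι Ω)ˣ) : Matrix ι ι Ω).map σ) *
          ((P⁻¹ : (Matrix ι ι Ω)ˣ) : Matrix ι ι Ω) := by simp only [mul_assoc]
      _ = 1 := by rw [CsaC_mul_inv_map, mul_one, Units.mul_inv]
  change (R : Matrix ι ι Ω) ⊗ₖ ((R⁻¹ : (Matrix ι ι Ω)ˣ) : Matrix ι ι Ω).transpose =
    ((P : Matrix ι ι Ω) ⊗ₖ ((P⁻¹ : (Matrix ι ι Ω)ˣ) : Matrix ι ι Ω).transpose) *
    ((Q : Matrix ι ι Ω) ⊗ₖ ((Q⁻¹ : (Matrix ι ι Ω)ˣ) : Matrix ι ι Ω).transpose).map σ
  rw [BCsaE_kron_map, ← Matrix.mul_kronecker_mul, hRi, hR, Matrix.smul_kronecker,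
    Matrix.transpose_smul, Matrix.kronecker_smul, smul_smul, Units.inv_mul, one_smul,
    Matrix.transpose_mul]
  rfl

/-- the algebra of fixed matrices -/
def BCsaE_alg [Fintype ι] [DecidableEq ι] (P : Gal(Ω/F) → (Matrix ι ι Ω)ˣ) :
    Subalgebra F (Matrix ι ι Ω) where
  carrier := {M | ∀ σ, (P σ : Matrix ι ι Ω) * M.map σ = M * (P σ : Matrix ι ι Ω)}
  mul_mem' := by
    intro M N hM hN σ
    rw [CsaC_map_mul, ← mul_assoc, hM σ, mul_assoc, hN σ, mul_assoc]
  add_mem' := by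
    intro M N hM hN σ
    rw [CsaB_map_add, mul_add, add_mul, hM σ, hN σ]
  algebraMap_mem' := by
    intro f σ
    have h : (algebraMap F (Matrix ι ι Ω) f).map σ = algebraMap F (Matrix ι ι Ω) f :=
      ((σ : Ω →ₐ[F] Ω).mapMatrix (m := ι)).commutes f
    rw [h]
    exact (Algebra.commutes f _).symm

theorem BCsaE_mem_alg [Fintype ι] [DecidableEq ι] (P : Gal(Ω/F) → (Matrix ι ι Ω)ˣ)
    (M : Matrix ι ι Ω) : M ∈ BCsaE_alg P ↔
    ∀ σ, ((BCsaE_act (P σ) : (Matrix (ι × ι) (ι × ι) Ω)ˣ) : Matrix (ι × ι) (ι × ι) Ω).mulVec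
      (fun k => σ (BCsaE_vec M k)) = BCsaE_vec M := by
  have h1 : ∀ σ : Gal(Ω/F), (fun k => σ (BCsaE_vec M k)) = BCsaE_vec (M.map σ) := fun σ => rfl
  change (∀ σ, (P σ : Matrix ι ι Ω) * M.map σ = M * (P σ : Matrix ι ι Ω)) ↔ _
  refine forall_congr' fun σ => ?_
  rw [h1, BCsaE_act_vec]
  constructor
  · intro h
    rw [h, mul_assoc, Units.mul_inv, mul_one]
  · intro h
    have h2 := congrArg BCsaE_mat h
    rw [BCsaE_mat_vec, BCsaE_mat_vec] at h2
    conv_rhs => rw [← h2]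
    rw [mul_assoc _ _ (P σ : Matrix ι ι Ω), Units.inv_mul, mul_one]

theorem BCsaE_matRep [Fintype ι] [DecidableEq ι] [IsGalois F Ω] (hpos : 0 < Fintype.card ι)
    (P : Gal(Ω/F) → (Matrix ι ι Ω)ˣ) (Q : (Matrix (ι × ι) (ι × ι) Ω)ˣ)
    (hQ : ∀ σ, (Q : Matrix (ι × ι) (ι × ι) Ω) *
      ((BCsaE_act (P σ) : (Matrix (ι × ι) (ι × ι) Ω)ˣ) : Matrix (ι × ι) (ι × ι) Ω) =
      (Q : Matrix (ι × ι) (ι × ι) Ω).map σ) : MatRep (BCsaE_alg P).val := by
  obtain ⟨R, hR⟩ : ∃ R : Matrix (ι × ι) (ι × ι) Ω,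
    R = ((Q⁻¹ : (Matrix (ι × ι) (ι × ι) Ω)ˣ) : Matrix (ι × ι) (ι × ι) Ω) := ⟨_, rfl⟩
  have hQR : (Q : Matrix (ι × ι) (ι × ι) Ω) * R = 1 := by rw [hR, Units.mul_inv]
  have hRQ : R * (Q : Matrix (ι × ι) (ι × ι) Ω) = 1 := by rw [hR, Units.inv_mul]
  have hR2 : ∀ σ, ((BCsaE_act (P σ) : (Matrix (ι × ι) (ι × ι) Ω)ˣ) :
      Matrix (ι × ι) (ι × ι) Ω) * R.map σ = R := by
    intro σ
    calc ((BCsaE_act (P σ) : (Matrix (ι × ι) (ι × ι) Ω)ˣ) :
      Matrix (ι × ι) (ι × ι) Ω) * R.map σ = R * ((Q : Matrix (ι × ι) (ι × ι) Ω) *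
        ((BCsaE_act (P σ) : (Matrix (ι × ι) (ι × ι) Ω)ˣ) : Matrix (ι × ι) (ι × ι) Ω)) *
        R.map σ := by rw [← mul_assoc R, hRQ, one_mul]
      _ = R := by rw [hQ, mul_assoc, ← CsaC_map_mul, hQR, CsaC_map_one, mul_one]
  have hmv : ∀ (σ : Gal(Ω/F)) (S : Matrix (ι × ι) (ι × ι) Ω) (x : ι × ι → Ω),
      (fun k => σ (S.mulVec x k)) = (S.map σ).mulVec (fun k => σ (x k)) := by
    intro σ S x
    funext k
    change σ (∑ l, S k l * x l) = ∑ l, σ (S k l) * σ (x l)
    rw [map_sum]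
    exact Finset.sum_congr rfl fun l _ => map_mul σ _ _
  -- the basis
  have hmem : ∀ y : ι × ι → F,
      BCsaE_mat (R.mulVec fun k => algebraMap F Ω (y k)) ∈ BCsaE_alg P := by
    intro y
    rw [BCsaE_mem_alg]
    intro σ
    rw [BCsaE_vec_mat, hmv]
    have h1 : (fun k => σ (algebraMap F Ω (y k))) = fun k => algebraMap F Ω (y k) := by
      funext k
      exact σ.commutes (y k)
    rw [h1, Matrix.mulVec_mulVec, hR2]
  let φ : (ι × ι → F) →ₗ[F] BCsaE_alg P :=
    { toFun := fun y => ⟨BCsaE_mat (R.mulVec fun k => algebraMap F Ω (y k)), hmem y⟩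
      map_add' := by
        intro x y
        apply Subtype.ext
        change BCsaE_mat (R.mulVec fun k => algebraMap F Ω (x k + y k)) =
          BCsaE_mat (R.mulVec fun k => algebraMap F Ω (x k)) +
          BCsaE_mat (R.mulVec fun k => algebraMap F Ω (y k))
        have h1 : (fun k => algebraMap F Ω (x k + y k)) =
            (fun k => algebraMap F Ω (x k)) + fun k => algebraMap F Ω (y k) := by
          funext k
          exact map_add _ _ _
        rw [h1, Matrix.mulVec_add]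
        rfl
      map_smul' := by
        intro f x
        apply Subtype.ext
        change BCsaE_mat (R.mulVec fun k => algebraMap F Ω (f * x k)) =
          f • BCsaE_mat (R.mulVec fun k => algebraMap F Ω (x k))
        have h1 : (fun k => algebraMap F Ω (f * x k)) =
            algebraMap F Ω f • fun k => algebraMap F Ω (x k) := by
          funext k
          exact map_mul _ _ _
        rw [h1, Matrix.mulVec_smul]
        ext i j
        change algebraMap F Ω f * _ = f • _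
        rw [Algebra.smul_def]
        rfl }
  have hφ : ∀ y, ((φ y : BCsaE_alg P) : Matrix ι ι Ω) =
      BCsaE_mat (R.mulVec fun k => algebraMap F Ω (y k)) := fun y => rfl
  have hinj : Function.Injective φ := by
    intro x y hxy
    have h1 := congrArg (fun z : BCsaE_alg P => BCsaE_vec (z : Matrix ι ι Ω)) hxy
    beta_reduce at h1
    rw [hφ, hφ, BCsaE_vec_mat, BCsaE_vec_mat] at h1
    have h2 := congrArg (fun z => (Q : Matrix (ι × ι) (ι × ι) Ω).mulVec z) h1
    beta_reduce at h2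
    rw [Matrix.mulVec_mulVec, Matrix.mulVec_mulVec, hQR, Matrix.one_mulVec,
      Matrix.one_mulVec] at h2
    funext k
    exact (algebraMap F Ω).injective (congrFun h2 k)
  have hsurj : Function.Surjective φ := by
    rintro ⟨M, hM⟩
    rw [BCsaE_mem_alg] at hM
    have h1 : ∀ k, ∃ f : F, algebraMap F Ω f =
        (Q : Matrix (ι × ι) (ι × ι) Ω).mulVec (BCsaE_vec M) k := by
      intro k
      have h2 : (Q : Matrix (ι × ι) (ι × ι) Ω).mulVec (BCsaE_vec M) k ∈
          (⊥ : IntermediateField F Ω) := by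
        apply GalC_mem_of_fixed
        intro σ _
        have h3 := congrFun (hmv σ (Q : Matrix (ι × ι) (ι × ι) Ω) (BCsaE_vec M)) k
        rw [h3, ← hQ σ, ← Matrix.mulVec_mulVec, hM σ]
      rw [IntermediateField.mem_bot] at h2
      exact h2
    choose y hy using h1
    refine ⟨y, ?_⟩
    apply Subtype.ext
    rw [hφ]
    have h4 : (fun k => algebraMap F Ω (y k)) =
        (Q : Matrix (ι × ι) (ι × ι) Ω).mulVec (BCsaE_vec M) := funext hy
    rw [h4, Matrix.mulVec_mulVec, hRQ, Matrix.one_mulVec, BCsaE_mat_vec]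
  refine ⟨?_, ?_, hpos⟩
  · rw [eq_top_iff]
    intro M _
    have h1 : M = ∑ k, (Q : Matrix (ι × ι) (ι × ι) Ω).mulVec (BCsaE_vec M) k •
        ((φ (Pi.single k 1) : BCsaE_alg P) : Matrix ι ι Ω) := by
      have h2 : BCsaE_vec M = R.mulVec ((Q : Matrix (ι × ι) (ι × ι) Ω).mulVec (BCsaE_vec M)) := by
        rw [Matrix.mulVec_mulVec, hRQ, Matrix.one_mulVec]
      ext i j
      rw [Matrix.sum_apply]
      have h3 := congrFun h2 (i, j)
      change M i j = _ at h3
      rw [h3]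
      change ∑ l, R (i, j) l * (Q : Matrix (ι × ι) (ι × ι) Ω).mulVec (BCsaE_vec M) l = _
      refine Finset.sum_congr rfl fun k _ => ?_
      rw [Matrix.smul_apply, hφ, smul_eq_mul, mul_comm]
      congr 1
      change R (i, j) k = ∑ l, R (i, j) l * algebraMap F Ω ((Pi.single k 1 : ι × ι → F) l)
      rw [Finset.sum_eq_single k]
      · rw [Pi.single_eq_same, map_one, mul_one]
      · intro l _ hl
        rw [Pi.single_eq_of_ne hl, map_zero, mul_zero]
      · intro h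
        exact absurd (Finset.mem_univ k) h
    rw [h1]
    refine Submodule.sum_mem _ fun k _ => Submodule.smul_mem _ _ (Submodule.subset_span ?_)
    exact ⟨φ (Pi.single k 1), rfl⟩
  · have h1 := (LinearEquiv.ofBijective φ ⟨hinj, hsurj⟩).finrank_eq
    rw [← h1, Module.finrank_fintype_fun_eq_card, Fintype.card_prod, pow_two]

end

section
variable {F Ω : Type} [Field F] [Field Ω] [Algebra F Ω]

/-- the monomial matrix -/
noncomputable def BCsaE_P (L : IntermediateField F Ω) [Normal F L] [Fintype Gal(L/F)]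
    [DecidableEq Gal(L/F)] (lift : Gal(L/F) → Gal(Ω/F)) (c : Gal(Ω/F) → Gal(Ω/F) → Ωˣ)
    (σ : Gal(Ω/F)) : (Matrix Gal(L/F) Gal(L/F) Ω)ˣ where
  val := Matrix.of fun i j =>
    if i = AlgEquiv.restrictNormalHom L σ * j then (c σ (lift j) : Ω) else 0
  inv := Matrix.of fun j i =>
    if i = AlgEquiv.restrictNormalHom L σ * j then ((c σ (lift j))⁻¹ : Ω) else 0
  val_inv := by
    ext i k
    rw [Matrix.mul_apply, Matrix.one_apply]
    simp only [Matrix.of_apply]
    rw [Finset.sum_eq_single ((AlgEquiv.restrictNormalHom L σ)⁻¹ * i)]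
    · rw [mul_inv_cancel_left, if_pos rfl]
      by_cases h : i = k
      · rw [if_pos h.symm, if_pos h, mul_inv_cancel₀ (Units.ne_zero _)]
      · rw [if_neg (fun h' => h h'.symm), if_neg h, mul_zero]
    · intro j _ hj
      rw [if_neg, zero_mul]
      rintro rfl
      apply hj
      rw [inv_mul_cancel_left]
    · intro h
      exact absurd (Finset.mem_univ _) h
  inv_val := by
    ext j k
    rw [Matrix.mul_apply, Matrix.one_apply]
    simp only [Matrix.of_apply]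
    rw [Finset.sum_eq_single (AlgEquiv.restrictNormalHom L σ * j)]
    · rw [if_pos rfl]
      by_cases h : j = k
      · rw [← h, if_pos rfl, if_pos rfl, inv_mul_cancel₀ (Units.ne_zero _)]
      · rw [if_neg (fun h' => h (mul_left_cancel h')), if_neg h, mul_zero]
    · intro i _ hi
      rw [if_neg hi, zero_mul]
    · intro h
      exact absurd (Finset.mem_univ _) h

theorem BCsaE_P_coc (L : IntermediateField F Ω) [Normal F L] [Fintype Gal(L/F)]
    [DecidableEq Gal(L/F)] (lift : Gal(L/F) → Gal(Ω/F))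
    (hlift : ∀ g, AlgEquiv.restrictNormalHom L (lift g) = g)
    {c : Gal(Ω/F) → Gal(Ω/F) → Ωˣ} (hc : IsC2 c) (hL : Lev2 L c) (σ τ : Gal(Ω/F)) :
    (BCsaE_P L lift c σ : Matrix Gal(L/F) Gal(L/F) Ω) *
      (BCsaE_P L lift c τ : Matrix Gal(L/F) Gal(L/F) Ω).map σ =
      (c σ τ : Ω) • (BCsaE_P L lift c (σ * τ) : Matrix Gal(L/F) Gal(L/F) Ω) := by
  ext i k
  rw [Matrix.mul_apply, Matrix.smul_apply, smul_eq_mul]
  change ∑ j, (if i = AlgEquiv.restrictNormalHom L σ * j then (c σ (lift j) : Ω) else 0) *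
    σ (if j = AlgEquiv.restrictNormalHom L τ * k then (c τ (lift k) : Ω) else 0) =
    (c σ τ : Ω) * (if i = AlgEquiv.restrictNormalHom L (σ * τ) * k then
      (c (σ * τ) (lift k) : Ω) else 0)
  rw [Finset.sum_eq_single (AlgEquiv.restrictNormalHom L τ * k)]
  · rw [if_pos rfl, map_mul, mul_assoc]
    by_cases h : i = AlgEquiv.restrictNormalHom L σ * (AlgEquiv.restrictNormalHom L τ * k)
    · rw [if_pos h, if_pos h]
      have h1 := congrArg (fun u : Ωˣ => (u : Ω)) (hc σ τ (lift k))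
      beta_reduce at h1
      rw [Units.val_mul, Units.val_mul] at h1
      rw [h1]
      have h2 : c σ (lift (AlgEquiv.restrictNormalHom L τ * k)) = c σ (τ * lift k) := by
        apply hL.2 σ σ _ _ (fun _ _ => rfl)
        intro z hz
        have h3 := GalB_res L (lift (AlgEquiv.restrictNormalHom L τ * k)) ⟨z, hz⟩
        have h4 := GalB_res L (τ * lift k) ⟨z, hz⟩
        rw [hlift] at h3
        rw [map_mul, hlift] at h4
        rw [h3] at h4
        exact h4
      rw [h2, mul_comm]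
      rfl
    · rw [if_neg h, if_neg h, zero_mul, mul_zero]
  · intro j _ hj
    rw [if_neg hj, map_zero, mul_zero]
  · intro h
    exact absurd (Finset.mem_univ _) h

end

theorem exists_csa {F Ω : Type} [Field F] [Field Ω] [Algebra F Ω] [IsGalois F Ω]
    {c : Gal(Ω/F) → Gal(Ω/F) → Ωˣ} (hc : BC c) :
    ∃ (ι : Type) (_ : Fintype ι) (_ : DecidableEq ι) (A : Subalgebra F (Matrix ι ι Ω))
      (P : Gal(Ω/F) → (Matrix ι ι Ω)ˣ), MatRep A.val ∧ RepCoc A.val P c := by
  classical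
  obtain ⟨hc2, L, hLf, hLn, hL⟩ := hc
  have : Fintype Gal(L/F) := Fintype.ofFinite _
  choose lift hlift using GalB_surj (F := F) (Ω := Ω) L
  let P : Gal(Ω/F) → (Matrix Gal(L/F) Gal(L/F) Ω)ˣ := BCsaE_P L lift c
  have hcoc : ∀ σ τ, (P σ : Matrix Gal(L/F) Gal(L/F) Ω) *
      (P τ : Matrix Gal(L/F) Gal(L/F) Ω).map σ =
      (c σ τ : Ω) • (P (σ * τ) : Matrix Gal(L/F) Gal(L/F) Ω) :=
    BCsaE_P_coc L lift hlift hc2 hL
  have hent : ∀ σ i j, (P σ : Matrix Gal(L/F) Gal(L/F) Ω) i j ∈ L := by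
    intro σ i j
    change (if i = AlgEquiv.restrictNormalHom L σ * j then (c σ (lift j) : Ω) else 0) ∈ L
    split_ifs
    · exact hL.1 _ _
    · exact L.zero_mem
  have hent' : ∀ σ i j, (((P σ)⁻¹ : (Matrix Gal(L/F) Gal(L/F) Ω)ˣ) :
      Matrix Gal(L/F) Gal(L/F) Ω) i j ∈ L := by
    intro σ i j
    change (if j = AlgEquiv.restrictNormalHom L σ * i then ((c σ (lift i))⁻¹ : Ω) else 0) ∈ L
    split_ifs
    · exact L.inv_mem (hL.1 _ _)
    · exact L.zero_mem
  have hlev : ∀ σ τ : Gal(Ω/F), (∀ z ∈ L, σ z = τ z) → P σ = P τ := by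
    intro σ τ h
    apply Units.ext
    ext i j
    change (if i = AlgEquiv.restrictNormalHom L σ * j then (c σ (lift j) : Ω) else 0) =
      (if i = AlgEquiv.restrictNormalHom L τ * j then (c τ (lift j) : Ω) else 0)
    rw [GalB_res_eq L h, hL.2 σ τ (lift j) (lift j) h (fun _ _ => rfl)]
  obtain ⟨Q, hQ⟩ := hilbert90 ⊤ (fun σ => BCsaE_act (P σ))
    (fun σ _ τ _ => BCsaE_act_coc σ (P σ) (P τ) (P (σ * τ)) (c σ τ) (hcoc σ τ))
    ⟨L, hLf, hLn, fun σ i j => L.mul_mem (hent σ _ _) (hent' σ _ _), fun σ τ h => by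
      beta_reduce
      rw [hlev σ τ h]⟩
  refine ⟨Gal(L/F), inferInstance, inferInstance, BCsaE_alg P, P, ?_, ?_, hcoc, L, hLf, hLn,
    hent, hlev⟩
  · exact BCsaE_matRep Fintype.card_pos P Q fun σ => hQ σ (Subgroup.mem_top σ)
  · intro σ a
    exact a.2 σ

end W42
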