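import Pool.Agent.W_42fc02_h90.CochA

/-!
G2 (transfer / corestriction): S a subgroup of finite index n of G. If the restriction of the
2-cocycle c to S is a coboundary, then c ^ n is a coboundary on G.

Proof. Replacing c by c / dB b~ (b~ = b on S, 1 outside) we may assume c s s' = 1 for s, s' in S.
Choose left representatives t of G / S (finite set). For g in G and a representative t write
g t = t' s with t' a representative, s in S. Put a(g, t) = c g t / c t' s and
b g = prod over t of a(g, t). The cocycle identities for (g, h, t), (g, t', s1), (t'', s2, s1)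
(h t = t' s1, g t' = t'' s2, and c s2 s1 = 1) give
  c g h * a(gh, t) = (g . a(h, t)) * a(g, t'),
and the product over t (t -> t' is a bijection) is c g h ^ n * b (g h) = (g . b h) * b g.
-/

namespace W42

variable {G A : Type*} [Group G] [CommGroup A] [MulDistribMulAction G A]

theorem Transfer_key {c : G → G → A} (hc : IsC2 c) {g h t t' t'' s1 s2 : G}
    (h1 : h * t = t' * s1) (h2 : g * t' = t'' * s2) (h3 : c s2 s1 = 1) :
    c g h * (c (g * h) t / c t'' (s2 * s1)) = (g • (c h t / c t' s1)) * (c g t' / c t'' s2) := by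
  have e1 := hc g h t
  have e2 := hc g t' s1
  have e3 := hc t'' s2 s1
  rw [h1] at e1
  rw [h2] at e2
  rw [h3, smul_one, one_mul] at e3
  rw [smul_div', ← mul_div_assoc, div_mul_div_comm, div_eq_div_iff_mul_eq_mul]
  calc c g h * c (g * h) t * (g • c t' s1 * c t'' s2)
      = (g • c h t) * c g (t' * s1) * (g • c t' s1 * c t'' s2) := by rw [e1]
    _ = (g • c h t) * ((g • c t' s1) * c g (t' * s1)) * c t'' s2 := by ac_rfl
    _ = (g • c h t) * (c g t' * c (t'' * s2) s1) * c t'' s2 := by rw [e2]
    _ = (g • c h t) * c g t' * (c t'' s2 * c (t'' * s2) s1) := by ac_rfl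
    _ = (g • c h t) * c g t' * c t'' (s2 * s1) := by rw [e3]

/-- the normalised case -/
theorem Transfer_norm {c : G → G → A} (hc : IsC2 c) (S : Subgroup G) (hS : S.index ≠ 0)
    (h1 : ∀ s ∈ S, ∀ s' ∈ S, c s s' = 1) :
    ∃ b' : G → A, ∀ g h, c g h ^ S.index = dB b' g h := by
  classical
  letI : Fintype (G ⧸ S) := Subgroup.fintypeOfIndexNeZero hS
  let r : G ⧸ S → G := fun q => q.out
  have hr : ∀ q : G ⧸ S, ((r q : G) : G ⧸ S) = q := fun q => QuotientGroup.out_eq' q
  let σ : G → G ⧸ S → G := fun g q => (r (g • q))⁻¹ * (g * r q)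
  have hσ : ∀ g q, σ g q ∈ S := by
    intro g q
    rw [← QuotientGroup.eq, hr]
    have h2 : ((g * r q : G) : G ⧸ S) = g • ((r q : G) : G ⧸ S) := rfl
    rw [h2, hr]
  let a : G → G ⧸ S → A := fun g q => c g (r q) / c (r (g • q)) (σ g q)
  have ha : ∀ g h q, c g h * a (g * h) q = (g • a h q) * a g (h • q) := by
    intro g h q
    have e1 : h * r q = r (h • q) * σ h q := by
      show h * r q = r (h • q) * ((r (h • q))⁻¹ * (h * r q))
      group
    have e2 : g * r (h • q) = r (g • h • q) * σ g (h • q) := by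
      show g * r (h • q) = r (g • h • q) * ((r (g • h • q))⁻¹ * (g * r (h • q)))
      group
    have e3 : σ (g * h) q = σ g (h • q) * σ h q := by
      show (r ((g * h) • q))⁻¹ * (g * h * r q) =
        (r (g • h • q))⁻¹ * (g * r (h • q)) * ((r (h • q))⁻¹ * (h * r q))
      rw [mul_smul]
      group
    have e4 := Transfer_key hc e1 e2 (h1 _ (hσ g (h • q)) _ (hσ h q))
    show c g h * (c (g * h) (r q) / c (r ((g * h) • q)) (σ (g * h) q)) = _
    rw [e3, mul_smul]
    exact e4
  refine ⟨fun g => ∏ q, a g q, fun g h => ?_⟩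
  have h2 : ∏ q, (c g h * a (g * h) q) = ∏ q, ((g • a h q) * a g (h • q)) :=
    Finset.prod_congr rfl fun q _ => ha g h q
  rw [Finset.prod_mul_distrib, Finset.prod_mul_distrib, Finset.prod_const, Finset.card_univ,
    ← Finset.smul_prod'] at h2
  have h3 : ∏ q, a g (h • q) = ∏ q, a g q :=
    Fintype.prod_equiv (MulAction.toPerm h) _ _ fun q => rfl
  rw [h3] at h2
  have h4 : S.index = Fintype.card (G ⧸ S) := by
    rw [Subgroup.index_eq_card, Nat.card_eq_fintype_card]
  unfold dB
  rw [h4, eq_div_iff_mul_eq']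
  show c g h ^ Fintype.card (G ⧸ S) * ∏ q, a (g * h) q = (∏ q, a g q) * (g • ∏ q, a h q)
  rw [h2, mul_comm]

theorem transfer {c : G → G → A} (hc : IsC2 c) (S : Subgroup G) (hS : S.index ≠ 0)
    (b : G → A) (hb : ∀ s ∈ S, ∀ s' ∈ S, c s s' = dB b s s') :
    ∃ b' : G → A, ∀ g h, c g h ^ S.index = dB b' g h := by
  classical
  let bt : G → A := fun g => if g ∈ S then b g else 1
  let c0 : G → G → A := fun g h => c g h * (dB bt g h)⁻¹
  have hc0 : IsC2 c0 := hc.mul (isC2_dB bt).inv
  obtain ⟨b', hb'⟩ := Transfer_norm hc0 S hS (by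
    intro s hs s' hs'
    show c s s' * (dB bt s s')⁻¹ = 1
    have h1 : dB bt s s' = dB b s s' := by
      unfold dB
      show (if s ∈ S then b s else 1) * (s • (if s' ∈ S then b s' else 1)) /
        (if s * s' ∈ S then b (s * s') else 1) = _
      rw [if_pos hs, if_pos hs', if_pos (S.mul_mem hs hs')]
    rw [h1, hb s hs s' hs', mul_inv_cancel])
  refine ⟨fun g => b' g * bt g ^ S.index, fun g h => ?_⟩
  rw [dB_mul, dB_pow, ← hb' g h]
  show _ = (c g h * (dB bt g h)⁻¹) ^ S.index * dB bt g h ^ S.index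
  rw [← mul_pow, inv_mul_cancel_right]

end W42
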