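import Pool.Agent.W_42fc02_h90.Kum
import Pool.Agent.W_42fc02_h90.Transfer

/-!
MainB: composite n. AbRelC F Omega n K: K / F abelian (commutative Galois group of exponent n) inside
Omega and for all Brauer cocycles c: K splits c iff c^n = 1.

two: K1, K2 for coprime n1, n2. K = K1 ⊔ K2: normal, automorphisms commute on K and g^(n1 n2) is
trivial on K. If c^(n1 n2) = 1: c^(n2) is split by K1, c^(n1) by K2, hence both by K, and so is c
(spl_of_coprime). Conversely let K split c: a finite E0 <= K splits c (Spl.exists_finite), E0 <= M1 ⊔ M2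
with Mi <= Ki finite normal (exists_le_sup). m2 := index of G_(M1 ⊔ M2) in G_M1: prime divisors divide n2
(the quotient embeds in Gal(M2/F), a finite group of exponent dividing n2; Cauchy). spl_pow_of_spl:
M1 splits c^(m2), so K1 splits c^(m2) and c^(m2 n1) = 1. Symmetrically c^(m1 n2) = 1 with prime
divisors of m1 dividing n1. gcd (m2 n1, m1 n2) divides n1 n2 and c^gcd = 1 (beq_pow_gcd).
-/

namespace W42

section
variable {F Ω : Type} [Field F] [Field Ω] [Algebra F Ω]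

theorem beq_pow_gcd {c : Gal(Ω/F) → Gal(Ω/F) → Ωˣ} {a b : ℕ}
    (ha : BEq (fun σ τ => c σ τ ^ a) c1) (hb : BEq (fun σ τ => c σ τ ^ b) c1) (n : ℕ)
    (hn : Nat.gcd a b ∣ n) : BEq (fun σ τ => c σ τ ^ n) c1 := by
  obtain ⟨u, hu, h⟩ := ha
  obtain ⟨v, hv, h'⟩ := hb
  obtain ⟨k, rfl⟩ := hn
  refine ⟨_, ((hu.zpow (Nat.gcdA a b)).mul (hv.zpow (Nat.gcdB a b))).pow k, fun σ τ => ?_⟩
  beta_reduce
  rw [dB_pow, dB_mul, GalA_dB_zpow, GalA_dB_zpow]
  have h1 : c σ τ ^ a = dB u σ τ := (h σ τ).trans (one_mul _)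
  have h2 : c σ τ ^ b = dB v σ τ := (h' σ τ).trans (one_mul _)
  rw [← h1, ← h2, c1, one_mul, ← zpow_natCast (c σ τ) a, ← zpow_natCast (c σ τ) b, ← zpow_mul,
    ← zpow_mul, ← zpow_add, ← Nat.gcd_eq_gcd_ab, zpow_natCast, pow_mul]

variable [IsGalois F Ω]

structure AbRelC (n : ℕ) (K : IntermediateField F Ω) : Prop where
  normal : Normal F K
  comm : ∀ g g' : Gal(Ω/F), ∀ z ∈ K, g (g' z) = g' (g z)
  expo : ∀ g : Gal(Ω/F), ∀ z ∈ K, (g ^ n) z = z
  br : ∀ c : Gal(Ω/F) → Gal(Ω/F) → Ωˣ, BC c → (Spl K c ↔ BEq (fun σ τ => c σ τ ^ n) c1)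

/-- a finite subextension of K1 K2 lies in M1 M2, Mi finite normal inside Ki (Ki normal). -/
theorem exists_le_sup (K₁ K₂ : IntermediateField F Ω) [Normal F K₁] [Normal F K₂]
    (E : IntermediateField F Ω) [FiniteDimensional F E] (h : E ≤ K₁ ⊔ K₂) :
    ∃ M₁ M₂ : IntermediateField F Ω, FiniteDimensional F M₁ ∧ Normal F M₁ ∧ M₁ ≤ K₁ ∧
      FiniteDimensional F M₂ ∧ Normal F M₂ ∧ M₂ ≤ K₂ ∧ E ≤ M₁ ⊔ M₂ := by
  classical
  obtain ⟨T, hT⟩ : E.FG := IntermediateField.essFiniteType_iff.1 inferInstance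
  have hK : K₁ ⊔ K₂ = IntermediateField.adjoin F ((K₁ : Set Ω) ∪ K₂) := by
    rw [IntermediateField.adjoin_union, IntermediateField.adjoin_self,
      IntermediateField.adjoin_self]
  have h1 : ∀ x ∈ T, ∃ U : Finset Ω, (U : Set Ω) ⊆ (K₁ : Set Ω) ∪ K₂ ∧
      x ∈ IntermediateField.adjoin F (U : Set Ω) := by
    intro x hx
    have hxE : x ∈ E := by
      rw [← hT]
      exact IntermediateField.subset_adjoin F _ hx
    have hxK : x ∈ IntermediateField.adjoin F ((K₁ : Set Ω) ∪ K₂) := by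
      rw [← hK]
      exact h hxE
    exact IntermediateField.exists_finset_of_mem_adjoin hxK
  choose! U hU hxU using h1
  obtain ⟨V, hV⟩ : ∃ V : Finset Ω, V = T.biUnion U := ⟨_, rfl⟩
  have hVK : ∀ x ∈ V, x ∈ K₁ ∨ x ∈ K₂ := by
    intro x hx
    rw [hV, Finset.mem_biUnion] at hx
    obtain ⟨t, ht, hxt⟩ := hx
    exact hU t ht hxt
  have hfin : ∀ K : IntermediateField F Ω, Normal F K →
      ∃ M : IntermediateField F Ω, FiniteDimensional F M ∧ Normal F M ∧ M ≤ K ∧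
        ∀ x ∈ V, x ∈ K → x ∈ M := by
    intro K hKn
    have hfd : FiniteDimensional F
        (IntermediateField.adjoin F ((V.filter (fun x => x ∈ K) : Finset Ω) : Set Ω)) :=
      IntermediateField.finiteDimensional_adjoin fun x _ => Algebra.IsIntegral.isIntegral x
    refine ⟨IntermediateField.normalClosure F
      (IntermediateField.adjoin F ((V.filter (fun x => x ∈ K) : Finset Ω) : Set Ω)) Ω,
      inferInstance, inferInstance, ?_, ?_⟩
    · rw [IntermediateField.normalClosure_le_iff_of_normal, IntermediateField.adjoin_le_iff]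
      intro x hx
      exact (Finset.mem_filter.1 (Finset.mem_coe.1 hx)).2
    · intro x hx hxK
      refine (IntermediateField.adjoin F
        ((V.filter (fun x => x ∈ K) : Finset Ω) : Set Ω)).le_normalClosure ?_
      exact IntermediateField.subset_adjoin F _
        (Finset.mem_coe.2 (Finset.mem_filter.2 ⟨hx, hxK⟩))
  obtain ⟨M₁, h11, h12, h13, h14⟩ := hfin K₁ inferInstance
  obtain ⟨M₂, h21, h22, h23, h24⟩ := hfin K₂ inferInstance
  refine ⟨M₁, M₂, h11, h12, h13, h21, h22, h23, ?_⟩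
  rw [← hT, IntermediateField.adjoin_le_iff]
  intro x hx
  have h5 : IntermediateField.adjoin F (U x : Set Ω) ≤ M₁ ⊔ M₂ := by
    rw [IntermediateField.adjoin_le_iff]
    intro y hy
    have hyV : y ∈ V := by
      rw [hV]
      exact Finset.mem_biUnion.2 ⟨x, hx, hy⟩
    rcases hVK y hyV with h6 | h6
    · exact (le_sup_left : M₁ ≤ M₁ ⊔ M₂) (h14 y hyV h6)
    · exact (le_sup_right : M₂ ≤ M₁ ⊔ M₂) (h24 y hyV h6)
  exact h5 (hxU x hx)

/-- the index of the fixing subgroups has only prime divisors of the exponent n2. -/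
theorem index_primes (M₁ M₂ : IntermediateField F Ω) [FiniteDimensional F M₁] [Normal F M₁]
    [FiniteDimensional F M₂] [Normal F M₂] (n₂ : ℕ) (hn₂ : 0 < n₂)
    (hexp : ∀ g : Gal(Ω/F), ∀ z ∈ M₂, (g ^ n₂) z = z) (p : ℕ) (hp : p.Prime)
    (hd : p ∣ (M₁ ⊔ M₂).fixingSubgroup.relIndex M₁.fixingSubgroup) : p ∣ n₂ := by
  rw [IntermediateField.fixingSubgroup_sup, Subgroup.inf_relIndex_left,
    ← IntermediateField.restrictNormalHom_ker, Subgroup.relIndex_ker] at hd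
  have : Fact p.Prime := ⟨hp⟩
  have : Finite Gal(M₂/F) := inferInstance
  obtain ⟨x, hx⟩ := exists_prime_orderOf_dvd_card' p hd
  obtain ⟨g, hg, hgx⟩ := x.2
  rw [← hx, ← Subgroup.orderOf_coe, orderOf_dvd_iff_pow_eq_one, ← hgx]
  have h1 : (AlgEquiv.restrictNormalHom M₂ g) ^ n₂ = AlgEquiv.restrictNormalHom M₂ (g ^ n₂) :=
    (map_pow _ g n₂).symm
  refine h1.trans ?_
  ext z
  rw [AlgEquiv.restrictNormalHom_apply]
  exact hexp g z z.2

theorem abRelC_bot : AbRelC 1 (⊥ : IntermediateField F Ω) := by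
  refine ⟨GalA_bot.2, ?_, ?_, ?_⟩
  · intro g g' z hz
    obtain ⟨a, rfl⟩ := IntermediateField.mem_bot.1 hz
    rw [AlgEquiv.commutes, AlgEquiv.commutes, AlgEquiv.commutes]
  · intro g z hz
    obtain ⟨a, rfl⟩ := IntermediateField.mem_bot.1 hz
    exact AlgEquiv.commutes _ a
  · intro c _
    simp only [pow_one]
    exact spl_bot_iff

/-- the gcd estimate in `AbRelC.two` -/
theorem MainB_gcd {n₁ n₂ m₁ m₂ : ℕ} (h : Nat.Coprime n₁ n₂)
    (h₁ : ∀ p : ℕ, p.Prime → p ∣ m₁ → p ∣ n₁) (h₂ : ∀ p : ℕ, p.Prime → p ∣ m₂ → p ∣ n₂) :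
    Nat.gcd (m₂ * n₁) (m₁ * n₂) ∣ n₁ * n₂ := by
  have hc : ∀ p : ℕ, p.Prime → p ∣ n₁ → p ∣ n₂ → False := fun p hp h3 h4 =>
    Nat.Prime.not_coprime_iff_dvd.2 ⟨p, hp, h3, h4⟩ h
  have e1 : Nat.Coprime m₁ n₂ := Nat.coprime_of_dvd fun p hp h3 h4 => hc p hp (h₁ p hp h3) h4
  have e2 : Nat.Coprime m₂ n₁ := Nat.coprime_of_dvd fun p hp h3 h4 => hc p hp h4 (h₂ p hp h3)
  have e3 : Nat.Coprime m₂ m₁ := Nat.coprime_of_dvd fun p hp h3 h4 =>
    hc p hp (h₁ p hp h4) (h₂ p hp h3)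
  rw [e1.gcd_mul]
  refine mul_dvd_mul ?_ ?_
  · rw [e3.gcd_mul_left_cancel]
    exact Nat.gcd_dvd_left _ _
  · rw [Nat.Coprime.gcd_mul_right_cancel m₂ h]
    exact Nat.gcd_dvd_right _ _

theorem AbRelC.two {n₁ n₂ : ℕ} (h₁ : 0 < n₁) (h₂ : 0 < n₂) (h : Nat.Coprime n₁ n₂)
    {K₁ K₂ : IntermediateField F Ω} (hK₁ : AbRelC n₁ K₁) (hK₂ : AbRelC n₂ K₂) :
    AbRelC (n₁ * n₂) (K₁ ⊔ K₂) := by
  have hN₁ := hK₁.normal
  have hN₂ := hK₂.normal
  have hpw : ∀ (a b : ℕ) (c : Gal(Ω/F) → Gal(Ω/F) → Ωˣ),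
      (fun σ τ => (c σ τ ^ a) ^ b) = fun σ τ => c σ τ ^ (a * b) := by
    intro a b c
    funext σ τ
    rw [← pow_mul]
  refine ⟨inferInstance, ?_, ?_, ?_⟩
  · intro g g'
    have h0 : (g' * g)⁻¹ * (g * g') ∈ (K₁ ⊔ K₂).fixingSubgroup := by
      rw [IntermediateField.fixingSubgroup_sup]
      constructor
      · exact GalC_mem_fix fun z hz => (hK₁.comm g g' z hz).symm
      · exact GalC_mem_fix fun z hz => (hK₂.comm g g' z hz).symm
    intro z hz
    have h2 : (g' * g)⁻¹ ((g * g') z) = z := (IntermediateField.mem_fixingSubgroup_iff _ _).1 h0 z hz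
    have h3 : (g * g') z = (g' * g) z := by
      conv_rhs => rw [← h2]
      exact ((g' * g).apply_symm_apply _).symm
    exact h3
  · intro g
    apply (IntermediateField.mem_fixingSubgroup_iff _ _).1
    rw [IntermediateField.fixingSubgroup_sup]
    constructor
    · rw [pow_mul]
      exact pow_mem ((IntermediateField.mem_fixingSubgroup_iff _ _).2 (hK₁.expo g)) _
    · rw [mul_comm, pow_mul]
      exact pow_mem ((IntermediateField.mem_fixingSubgroup_iff _ _).2 (hK₂.expo g)) _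
  · intro c hc
    constructor
    · intro hs
      obtain ⟨E, hE, hEf, hEs⟩ := Spl.exists_finite hc.2 hs
      obtain ⟨M₁, M₂, h11, h12, h13, h21, h22, h23, hM⟩ := exists_le_sup K₁ K₂ E hE
      have hsM : Spl (M₁ ⊔ M₂) c := hEs.mono hM
      obtain ⟨m₂, hm₂⟩ : ∃ m, (M₁ ⊔ M₂).fixingSubgroup.relIndex M₁.fixingSubgroup = m := ⟨_, rfl⟩
      obtain ⟨m₁, hm₁⟩ : ∃ m, (M₁ ⊔ M₂).fixingSubgroup.relIndex M₂.fixingSubgroup = m := ⟨_, rfl⟩
      have a1 : BEq (fun σ τ => c σ τ ^ (m₂ * n₁)) c1 := by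
        have h5 := (spl_pow_of_spl le_sup_left hc hsM m₂ hm₂).mono h13
        have h6 := (hK₁.br _ (hc.pow m₂)).1 h5
        rwa [hpw] at h6
      have a2 : BEq (fun σ τ => c σ τ ^ (m₁ * n₂)) c1 := by
        have h5 := (spl_pow_of_spl le_sup_right hc hsM m₁ hm₁).mono h23
        have h6 := (hK₂.br _ (hc.pow m₁)).1 h5
        rwa [hpw] at h6
      refine beq_pow_gcd a1 a2 _ (MainB_gcd h ?_ ?_)
      · intro p hp hd
        rw [← hm₁, sup_comm] at hd
        exact index_primes M₂ M₁ n₁ h₁ (fun g z hz => hK₁.expo g z (h13 hz)) p hp hd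
      · intro p hp hd
        rw [← hm₂] at hd
        exact index_primes M₁ M₂ n₂ h₂ (fun g z hz => hK₂.expo g z (h23 hz)) p hp hd
    · intro hb
      have b1 : Spl (K₁ ⊔ K₂) (fun σ τ => c σ τ ^ n₂) := by
        refine ((hK₁.br _ (hc.pow n₂)).2 ?_).mono le_sup_left
        rw [hpw, mul_comm]
        exact hb
      have b2 : Spl (K₁ ⊔ K₂) (fun σ τ => c σ τ ^ n₁) := by
        refine ((hK₂.br _ (hc.pow n₁)).2 ?_).mono le_sup_right
        rw [hpw]
        exact hb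
      exact spl_of_coprime h b2 b1

/-- all n from the prime powers: Q > 0 an integer, for every prime power l^e exactly dividing Q (e > 0)
there is a K; then for every n dividing Q with gcd (n, Q / n) = 1. Induction on n by
Nat.recOnPosPrimePosCoprime (or Nat.recOnPrimeCoprime). -/
theorem abRelC_all (Q : ℕ) (hQ : 0 < Q)
    (h : ∀ l e : ℕ, l.Prime → 0 < e → l ^ e ∣ Q → ¬ l ^ (e + 1) ∣ Q →
      ∃ K : IntermediateField F Ω, AbRelC (l ^ e) K) (n : ℕ) (hn : n ∣ Q)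
    (hc : Nat.Coprime n (Q / n)) : ∃ K : IntermediateField F Ω, AbRelC n K := by
  induction n using Nat.recOnPosPrimePosCoprime with
  | prime_pow p k hp hk =>
    refine h p k hp hk hn fun h1 => ?_
    obtain ⟨t, ht⟩ := h1
    have h2 : Q / p ^ k = p * t := by
      rw [ht, pow_succ, mul_assoc, Nat.mul_div_cancel_left _ (pow_pos hp.pos k)]
    rw [h2] at hc
    refine Nat.Prime.not_coprime_iff_dvd.2 ⟨p, hp, dvd_pow_self p hk.ne', Dvd.intro _ rfl⟩ hc
  | zero =>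
    rw [Nat.eq_zero_of_zero_dvd hn] at hQ
    exact absurd hQ (lt_irrefl 0)
  | one => exact ⟨⊥, abRelC_bot⟩
  | coprime a b ha hb hab iha ihb =>
    obtain ⟨t, ht⟩ := hn
    have ha0 : 0 < a := by omega
    have hb0 : 0 < b := by omega
    have e0 : Q / (a * b) = t := by
      rw [ht, Nat.mul_div_cancel_left _ (Nat.mul_pos ha0 hb0)]
    have e1 : Q / a = b * t := by
      rw [ht, mul_assoc, Nat.mul_div_cancel_left _ ha0]
    have e2 : Q / b = a * t := by
      rw [ht, mul_comm a b, mul_assoc, Nat.mul_div_cancel_left _ hb0]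
    rw [e0] at hc
    obtain ⟨K₁, hK₁⟩ := iha ⟨b * t, by rw [ht, mul_assoc]⟩ (by
      rw [e1]
      exact Nat.Coprime.mul_right hab (Nat.Coprime.coprime_mul_right hc))
    obtain ⟨K₂, hK₂⟩ := ihb ⟨a * t, by rw [ht, mul_comm a b, mul_assoc]⟩ (by
      rw [e2]
      exact Nat.Coprime.mul_right hab.symm (Nat.Coprime.coprime_mul_left hc))
    exact ⟨K₁ ⊔ K₂, AbRelC.two ha0 hb0 hab hK₁ hK₂⟩

end

end W42
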