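import Pool.Agent.W_42fc02_h90.CsaD
import Pool.Agent.W_42fc02_h90.MainB

/-!
Csa: from cocycles to central simple algebras.
-/

namespace W42

open scoped TensorProduct

/-- n-torsion of the Brauer group of F is the relative Brauer group of an abelian extension: there is an
abelian Galois K / F such that a central simple algebra A over F is split by K iff its n-th tensor
power is split. -/
def AbRel (F : Type) [Field F] (n : ℕ) : Prop :=
  ∃ (K : Type) (_ : Field K) (_ : Algebra F K), IsAbelianGalois F K ∧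
    ∀ (A : Type) [Ring A] [Algebra F A],
      Algebra.IsCentral F A → IsSimpleRing A → FiniteDimensional F A →
      ((∃ m : ℕ, Nonempty ((⨂[F] _ : Fin n, A) ≃ₐ[F] Matrix (Fin m) (Fin m) F)) ↔
        (∃ m : ℕ, Nonempty ((K ⊗[F] A) ≃ₐ[K] Matrix (Fin m) (Fin m) K)))

/-- exists_rep, exists_repCoc, split_iff_spl, power_rep, split_iff_beq; Gal(K/F) commutative from
AbRelC.comm (restrictions of automorphisms of Omega). -/
theorem abRel_of_abRelC {F Ω : Type} [Field F] [Field Ω] [Algebra F Ω] [IsGalois F Ω]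
    [IsSepClosed Ω] (n : ℕ) (K : IntermediateField F Ω) (hK : AbRelC n K) : AbRel F n := by
  have hN : Normal F K := hK.normal
  have hG : IsGalois F K := ⟨⟩
  have hcomm : ∀ g g' : Gal(K/F), g * g' = g' * g := by
    intro g g'
    obtain ⟨σ, rfl⟩ := GalB_surj K g
    obtain ⟨τ, rfl⟩ := GalB_surj K g'
    rw [← map_mul, ← map_mul]
    exact GalB_res_eq K fun z hz => hK.comm σ τ z hz
  have hA : IsAbelianGalois F K := { is_comm := ⟨hcomm⟩ }
  refine ⟨K, inferInstance, inferInstance, hA, ?_⟩
  intro A _ _ hc hs hfd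
  obtain ⟨m, ρ, hρ⟩ := exists_rep (F := F) (Ω := Ω) (A := A)
  obtain ⟨P, c, hPc⟩ := exists_repCoc hρ
  obtain ⟨ρn, Pn, hρn, hPn⟩ := power_rep hρ hPc n
  rw [split_iff_spl K hρ hPc, split_iff_beq hρn hPn]
  exact (hK.br c (hPc.bc hρ)).symm

end W42
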