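import Pool.Agent.W_42fc02_h90.BCsaE
import Pool.Agent.W_42fc02_h90.Csa

/-!
BCsaF (hand-in B, N9).

csa_of_matRep: rho with MatRep. Finite dimensional: finrank positive. Omega (x) A = M_iota(Omega)
(CsaA_ext_bij). Central: if a commutes with all of A then rho a commutes with the range of rho,
so rho a = x 1 (commute_scalar); 1 (x) a and x (x) 1 have the same image, so they are equal in
Omega (x) A; comparing with a basis of Omega over F containing 1 (or: a and 1 linearly independent over
F would stay independent in Omega (x) A) a is in F 1. Simple: a two-sided ideal I of A, I not 0: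
Omega (x) I (the range of the map to Omega (x) A, or the Omega-span of rho(I)) is a nonzero two-sided
ideal of M_iota(Omega), so it is everything; dim_F I = dim_Omega (Omega-span of rho(I)) = |iota|^2 =
dim_F A because rho maps an F-basis of A to an Omega-basis; so I = A. Nontrivial: iota is not empty.

abs_embed. AbRel F n with K, embed K into Omega: phi = IsSepClosed.lift (K / F separable algebraic);
letI : Algebra K Omega := phi.toAlgebra, IsScalarTower F K Omega. K' = phi.fieldRange. Normal F K'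
(transfer along the isomorphism K = K'); commutativity: IsAbelianGalois for the restrictions to
K'. For a Brauer cocycle c: exists_csa, csa_of_matRep, split_iff with E := K (HE F K Omega =
K'.fixingSubgroup) gives: K (x) A split iff Spl K' c; power_rep and split_iff_beq: tensor power split
iff c^n ~ 1.
-/

namespace W42

open scoped TensorProduct

section
variable {F Ω A ι : Type} [Field F] [Field Ω] [Algebra F Ω] [Ring A] [Algebra F A]
  [Fintype ι] [DecidableEq ι]

theorem BCsaF_inj : Function.Injective (fun a : A => (1 : Ω) ⊗ₜ[F] a) := by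
  have h := Algebra.TensorProduct.includeRight_injective (R := F) (A := Ω) (B := A)
    (algebraMap F Ω).injective
  exact h

theorem BCsaF_central {ρ : A →ₐ[F] Matrix ι ι Ω} (hρ : MatRep ρ) : Algebra.IsCentral F A := by
  classical
  constructor
  intro a ha
  rw [Subalgebra.mem_center_iff] at ha
  obtain ⟨x, hx⟩ := commute_scalar hρ (ρ a) fun a' => by rw [← map_mul, ← map_mul, ha]
  have h1 : CsaA_ext ρ (1 ⊗ₜ a) = CsaA_ext ρ (x ⊗ₜ 1) := by
    rw [CsaA_ext_tmul, CsaA_ext_tmul, one_smul, map_one, hx]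
  have h2 : (1 : Ω) ⊗ₜ[F] a = x ⊗ₜ[F] (1 : A) := (CsaA_ext_bij hρ).1 h1
  let e := Module.Basis.ofVectorSpace F Ω
  obtain ⟨k, hk⟩ : ∃ k, e.repr (1 : Ω) k ≠ 0 := by
    by_contra hcon
    push Not at hcon
    have : e.repr (1 : Ω) = 0 := Finsupp.ext hcon
    exact one_ne_zero ((LinearEquiv.map_eq_zero_iff _).1 this)
  have h3 := congrArg (fun z => CsaA_co e z k) h2
  simp only [CsaA_co_tmul] at h3
  rw [Algebra.mem_bot]
  refine ⟨(e.repr (1 : Ω) k)⁻¹ * e.repr x k, ?_⟩
  rw [Algebra.algebraMap_eq_smul_one, mul_smul, ← h3, inv_smul_smul₀ hk]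

theorem BCsaF_simple {ρ : A →ₐ[F] Matrix ι ι Ω} (hρ : MatRep ρ) : IsSimpleRing A := by
  classical
  have : Nonempty ι := Fintype.card_pos_iff.1 hρ.pos
  have hpos : 0 < Module.finrank F A := by
    rw [hρ.dim]
    exact pow_pos hρ.pos 2
  have : Nontrivial A := Module.nontrivial_of_finrank_pos hpos
  have hs : IsSimpleRing (Ω ⊗[F] A) :=
    IsSimpleRing.of_ringEquiv
      (AlgEquiv.ofBijective _ (CsaA_ext_bij hρ)).toRingEquiv.symm inferInstance
  refine IsSimpleRing.of_eq_bot_or_eq_top fun I => ?_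
  rcases subsingleton_or_nontrivial I.ringCon.Quotient with h | h
  · right
    refine le_antisymm le_top fun x _ => ?_
    rw [TwoSidedIdeal.mem_iff]
    exact Quotient.eq'.1 (h.elim (I.ringCon.mk' x) (I.ringCon.mk' 0))
  · left
    have : Nontrivial (Ω ⊗[F] I.ringCon.Quotient) := inferInstance
    have hinj := RingHom.injective
      (Algebra.TensorProduct.map (AlgHom.id Ω Ω) (RingCon.mkₐ F I.ringCon)).toRingHom
    refine le_antisymm (fun x hx => ?_) bot_le
    rw [TwoSidedIdeal.mem_bot]
    have h1 : RingCon.mkₐ F I.ringCon x = 0 := by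
      rw [TwoSidedIdeal.mem_iff] at hx
      exact Quotient.eq'.2 hx
    have h2 : (Algebra.TensorProduct.map (AlgHom.id Ω Ω) (RingCon.mkₐ F I.ringCon)).toRingHom
        ((1 : Ω) ⊗ₜ[F] x) = 0 := by
      change (Algebra.TensorProduct.map (AlgHom.id Ω Ω) (RingCon.mkₐ F I.ringCon))
        ((1 : Ω) ⊗ₜ[F] x) = 0
      rw [Algebra.TensorProduct.map_tmul, h1, TensorProduct.tmul_zero]
    have h3 : (1 : Ω) ⊗ₜ[F] x = (1 : Ω) ⊗ₜ[F] (0 : A) := by
      rw [TensorProduct.tmul_zero]
      exact hinj (h2.trans (map_zero _).symm)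
    exact BCsaF_inj h3

end

theorem csa_of_matRep {F Ω A ι : Type} [Field F] [Field Ω] [Algebra F Ω] [Ring A] [Algebra F A]
    [Fintype ι] [DecidableEq ι] {ρ : A →ₐ[F] Matrix ι ι Ω} (hρ : MatRep ρ) :
    Algebra.IsCentral F A ∧ IsSimpleRing A ∧ FiniteDimensional F A := by
  refine ⟨BCsaF_central hρ, BCsaF_simple hρ, ?_⟩
  have hpos : 0 < Module.finrank F A := by
    rw [hρ.dim]
    exact pow_pos hρ.pos 2
  exact Module.finite_of_finrank_pos hpos

theorem abs_embed {F Ω : Type} [Field F] [Field Ω] [Algebra F Ω] [IsGalois F Ω] [IsSepClosed Ω]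
    (n : ℕ) (h : AbRel F n) : ∃ K : IntermediateField F Ω, Normal F K ∧
      (∀ g g' : Gal(Ω/F), ∀ z ∈ K, g (g' z) = g' (g z)) ∧
      ∀ c : Gal(Ω/F) → Gal(Ω/F) → Ωˣ, BC c → (Spl K c ↔ BEq (fun σ τ => c σ τ ^ n) c1) := by
  classical
  obtain ⟨K, fK, aK, hab, hA⟩ := h
  have hGal : IsGalois F K := hab.toIsGalois
  let φ : K →ₐ[F] Ω := IsSepClosed.lift
  let _ : Algebra K Ω := φ.toRingHom.toAlgebra
  have hT : IsScalarTower F K Ω := IsScalarTower.of_algebraMap_eq fun x => (φ.commutes x).symm
  have hmem : ∀ k : K, algebraMap K Ω k ∈ φ.fieldRange := fun k => ⟨k, rfl⟩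
  have hex : ∀ z ∈ φ.fieldRange, ∃ k : K, algebraMap K Ω k = z := fun z hz => hz
  refine ⟨φ.fieldRange, ?_, ?_, ?_⟩
  · have : Normal F K := inferInstance
    exact Normal.of_algEquiv (AlgEquiv.ofInjectiveField φ)
  · intro g g' z hz
    obtain ⟨k, rfl⟩ := hex z hz
    have h1 := fun (g : Gal(Ω/F)) (k : K) => (AlgEquiv.restrictNormal_commutes g K k).symm
    rw [h1, h1, h1, h1]
    have hc : g.restrictNormal K * g'.restrictNormal K =
        g'.restrictNormal K * g.restrictNormal K :=
      hab.toIsMulCommutative.is_comm.comm _ _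
    have h2 := DFunLike.congr_fun hc k
    rw [AlgEquiv.mul_apply, AlgEquiv.mul_apply] at h2
    rw [h2]
  · intro c hc
    obtain ⟨ι, _, _, A, P, hρ, hP⟩ := exists_csa hc
    obtain ⟨h1, h2, h3⟩ := csa_of_matRep hρ
    have h4 := hA A h1 h2 h3
    rw [split_iff K hρ hP] at h4
    obtain ⟨ρn, Pn, hρn, hPn⟩ := power_rep hρ hP n
    rw [split_iff_beq hρn hPn] at h4
    rw [h4]
    have h5 : ∀ σ : Gal(Ω/F), σ ∈ HE F K Ω ↔ σ ∈ φ.fieldRange.fixingSubgroup := by
      intro σ
      rw [IntermediateField.mem_fixingSubgroup_iff]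
      constructor
      · intro h z hz
        obtain ⟨k, rfl⟩ := hex z hz
        exact h k
      · intro h k
        exact h _ (hmem k)
    unfold Spl
    simp only [h5]

end W42
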