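import Pool.Agent.W_42fc02_h90.BSym

/-!
BDef (hand-in B, negative part, proofs row 475): the hypotheses NegHyp on K, the set B (InB), and
isotropy (N1).

zN: primitive root of order l^j in kappa (zeta has order l^j * l^j in k).

iso: N = l^j. beta' in Omega with beta'^N = beta (IsSepClosed.exists_pow_nat_eq, N is not 0 in Omega);
IsRt (N * N) F beta'. symc_spl_mul (with N, N): the symbol symc (N * N) zeta a beta' is split by K.
It is a Brauer cocycle (symc_bc) killed by N * N = l^(2 j) (symc_torsion), so by NegHyp.br its N-th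
power is trivial; symc_level: this is symc N (zeta^N) a (beta'^N) = symc N (zeta^N) a beta.
-/

namespace W42

open Polynomial

section
variable (k κ F : Type) {Ω : Type} [Field k] [Field κ] [Field F] [Field Ω] [Algebra k κ]
  [Algebra κ F] [Algebra F Ω]

/-- a primitive root of order l^j in kappa, if zeta has order l^j * l^j in k -/
noncomputable def zN (l j : ℕ) (ζ : k) : κ := algebraMap k κ (ζ ^ l ^ j)

/-- K / F is abelian and, on l-primary classes, split by K means killed by l^j -/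
structure NegHyp (l j : ℕ) (ζ : k) (K : IntermediateField F Ω) : Prop where
  hl : l.Prime
  hj : 0 < j
  hlk : (l : k) ≠ 0
  hζ : IsPrimitiveRoot ζ (l ^ j * l ^ j)
  normal : Normal F K
  comm : ∀ g g' : Gal(Ω/F), ∀ z ∈ K, g (g' z) = g' (g z)
  br : ∀ c : Gal(Ω/F) → Gal(Ω/F) → Ωˣ, BC c → ∀ s : ℕ, BEq (fun σ τ => c σ τ ^ l ^ s) c1 →
    (Spl K c ↔ BEq (fun σ τ => c σ τ ^ l ^ j) c1)

variable {k κ F}

theorem NegHyp.hzN {l j : ℕ} {ζ : k} {K : IntermediateField F Ω} (H : NegHyp k F l j ζ K) :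
    IsPrimitiveRoot (zN k κ l j ζ) (l ^ j) := by
  have h1 : 0 < l ^ j * l ^ j := Nat.mul_pos (pow_pos H.hl.pos j) (pow_pos H.hl.pos j)
  have h2 : IsPrimitiveRoot (ζ ^ l ^ j) (l ^ j) := H.hζ.pow h1 rfl
  exact h2.map_of_injective (algebraMap k κ).injective

theorem NegHyp.iso [IsGalois F Ω] [IsSepClosed Ω] {l j : ℕ} {ζ : k} {K : IntermediateField F Ω}
    (H : NegHyp k F l j ζ K) (a : Fˣ) (α β : Ω) (hα : α ∈ K) (hβ : β ∈ K)
    (haα : α ^ l ^ j = algebraMap F Ω a) (hb : IsRt (l ^ j) F β) :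
    BEq (symc (l ^ j) (algebraMap κ F (zN k κ l j ζ)) a β) c1 := by
  have hN : 0 < l ^ j := pow_pos H.hl.pos j
  have hNN : 0 < l ^ j * l ^ j := Nat.mul_pos hN hN
  set Z : F := algebraMap κ F (algebraMap k κ ζ) with hZ
  have hZp : IsPrimitiveRoot Z (l ^ j * l ^ j) :=
    (H.hζ.map_of_injective (algebraMap k κ).injective).map_of_injective (algebraMap κ F).injective
  have hzN : algebraMap κ F (zN k κ l j ζ) = Z ^ l ^ j := by
    rw [hZ, zN, map_pow, map_pow]
  have hlΩ : ((l ^ j : ℕ) : Ω) ≠ 0 := by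
    have h1 : (algebraMap F Ω (algebraMap κ F (algebraMap k κ ((l ^ j : ℕ) : k)))) =
        ((l ^ j : ℕ) : Ω) := by
      rw [map_natCast, map_natCast, map_natCast]
    rw [← h1]
    have h2 : ((l ^ j : ℕ) : k) ≠ 0 := by
      rw [Nat.cast_pow]
      exact pow_ne_zero _ H.hlk
    rw [Ne, map_eq_zero_iff _ (algebraMap F Ω).injective,
      map_eq_zero_iff _ (algebraMap κ F).injective, map_eq_zero_iff _ (algebraMap k κ).injective]
    exact h2
  have : NeZero ((l ^ j : ℕ) : Ω) := ⟨hlΩ⟩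
  obtain ⟨β', hβ'⟩ := IsSepClosed.exists_pow_nat_eq β (l ^ j)
  have hrt : IsRt (l ^ j * l ^ j) F β' := by
    obtain ⟨b, hb0, hb1⟩ := hb
    exact ⟨b, hb0, by rw [pow_mul, hβ', hb1]⟩
  have hspl : Spl K (symc (l ^ j * l ^ j) Z a β') :=
    symc_spl_mul hN hN hZp K hrt (by rw [hβ']; exact hβ) a α hα haα
  have hbc : BC (symc (l ^ j * l ^ j) Z a β') := symc_bc hNN hZp hrt a
  have htor : BEq (fun σ τ => symc (l ^ j * l ^ j) Z a β' σ τ ^ l ^ (j + j)) c1 := by
    rw [pow_add]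
    exact symc_torsion hNN hZp hrt a
  have h1 := (H.br _ hbc (j + j) htor).1 hspl
  have h2 := symc_level hN hN hZp hrt a
  rw [hβ', ← hzN] at h2
  exact h2.symm.trans h1

end

section
variable (κ F : Type) {Ω : Type} [Field κ] [Field F] [Field Ω] [Algebra κ[X] F] [Algebra F Ω]

/-- p is a nonzero polynomial with an N-th root in K -/
def InB (N : ℕ) (K : IntermediateField F Ω) (p : κ[X]) : Prop :=
  p ≠ 0 ∧ ∃ α ∈ K, α ^ N = algebraMap F Ω (algebraMap κ[X] F p)

end

end W42
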