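import Pool.Agent.W_42fc02_h90.Coch

/-!
CochA: elementary facts about IsC2, dB (all one-liners / short computations).
-/

namespace W42

variable {G A : Type*} [Group G] [CommGroup A] [MulDistribMulAction G A]

private theorem cochA_aux {A : Type*} [CommGroup A] (a b c d e x : A) :
    a * b / c * (c * d / e) = b * d / x * (a * x / e) := by
  apply Additive.ofMul.injective
  simp only [ofMul_mul, ofMul_div]
  abel

theorem isC2_dB (b : G → A) : IsC2 (dB b) := by
  intro g h j
  simp only [dB]
  rw [smul_div', smul_mul', ← mul_smul, mul_assoc g h j]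
  exact cochA_aux _ _ _ _ _ _

theorem IsC2.mul {c c' : G → G → A} (h : IsC2 c) (h' : IsC2 c') :
    IsC2 (fun g j => c g j * c' g j) := by
  intro a b j
  rw [mul_mul_mul_comm, h a b j, h' a b j, smul_mul', mul_mul_mul_comm]

theorem IsC2.inv {c : G → G → A} (h : IsC2 c) : IsC2 (fun g j => (c g j)⁻¹) := by
  intro a b j
  rw [smul_inv', ← mul_inv, ← mul_inv, h a b j]

theorem IsC2.pow {c : G → G → A} (h : IsC2 c) (n : ℕ) : IsC2 (fun g j => c g j ^ n) := by
  intro a b j
  rw [smul_pow', ← mul_pow, ← mul_pow, h a b j]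

theorem isC2_one : IsC2 (fun _ _ : G => (1 : A)) := by
  intro a b j
  rw [smul_one]

theorem dB_mul (b b' : G → A) (g h : G) :
    dB (fun g => b g * b' g) g h = dB b g h * dB b' g h := by
  simp only [dB]
  rw [smul_mul', mul_mul_mul_comm, mul_div_mul_comm]

theorem dB_inv (b : G → A) (g h : G) : dB (fun g => (b g)⁻¹) g h = (dB b g h)⁻¹ := by
  simp only [dB]
  rw [smul_inv', ← mul_inv, inv_div_inv, inv_div]

theorem dB_pow (b : G → A) (n : ℕ) (g h : G) : dB (fun g => b g ^ n) g h = dB b g h ^ n := by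
  simp only [dB]
  rw [smul_pow', ← mul_pow, ← div_pow]

/-- the coboundary of z / (g . z) is trivial -/
theorem dB_div_smul (z : A) (g h : G) : dB (fun g => z / (g • z)) g h = 1 := by
  simp only [dB]
  rw [smul_div', ← mul_smul]
  rw [div_mul_div_cancel, div_self']

/-- values at 1: c 1 g = c 1 1 and c g 1 = g . c 1 1 -/
theorem IsC2.one_left {c : G → G → A} (hc : IsC2 c) (g : G) : c 1 g = c 1 1 := by
  have h := hc 1 1 g
  rw [one_smul, one_mul, one_mul] at h
  exact (mul_right_cancel h).symm

theorem IsC2.one_right {c : G → G → A} (hc : IsC2 c) (g : G) : c g 1 = g • c 1 1 := by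
  have h := hc g 1 1
  rw [mul_one, mul_one] at h
  exact mul_right_cancel h

/-- G1: |G| kills H^2: for finite G, c ^ |G| is the coboundary of g -> prod_t c g t. -/
theorem pow_card_eq_dB [Fintype G] {c : G → G → A} (hc : IsC2 c) (g h : G) :
    c g h ^ Fintype.card G = dB (fun g => ∏ t : G, c g t) g h := by
  have h1 : ∏ t : G, (c g h * c (g * h) t) = ∏ t : G, ((g • c h t) * c g (h * t)) :=
    Finset.prod_congr rfl fun t _ => hc g h t
  rw [Finset.prod_mul_distrib, Finset.prod_mul_distrib, Finset.prod_const, Finset.card_univ,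
    ← Finset.smul_prod'] at h1
  have h2 : ∏ t : G, c g (h * t) = ∏ t : G, c g t :=
    Fintype.prod_equiv (Equiv.mulLeft h) _ _ fun t => rfl
  rw [h2] at h1
  simp only [dB]
  rw [eq_div_iff_mul_eq', h1, mul_comm]

end W42
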