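import Pool.Agent.W_42fc02_h90.Cyc
import Pool.Agent.W_42fc02_h90.CochA

/-!
FinF: the Brauer group of a finite field is trivial: K / k finite extension of finite fields, every
2-cocycle of Gal(K/k) with values in K* is a coboundary.
Gal(K/k) is cyclic of order n = [K:k] generated by Frobenius s; cyclic_split with N = 1 (trivial
subgroup); the norm K* -> k* is surjective and Algebra.norm = prod_{i<n} s^i.
-/

namespace W42

theorem FinF_prod {G A : Type*} [Group G] [Fintype G] [CommMonoid A] (s : G)
    (hs : ∀ g, g ∈ Subgroup.zpowers s) (f : G → A) :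
    ∏ g : G, f g = ∏ i ∈ Finset.range (orderOf s), f (s ^ i) := by
  classical
  symm
  refine Finset.prod_bij (fun i _ => s ^ i) (fun _ _ => Finset.mem_univ _) ?_ ?_ (fun _ _ => rfl)
  · intro i hi j hj hij
    rw [Finset.mem_range] at hi hj
    exact pow_injOn_Iio_orderOf hi hj hij
  · intro g _
    have hfin : IsOfFinOrder s := isOfFinOrder_of_finite s
    obtain ⟨n, hn⟩ := hfin.mem_powers_iff_mem_zpowers.2 (hs g)
    refine ⟨n % orderOf s, Finset.mem_range.2 (Nat.mod_lt _ (orderOf_pos s)), ?_⟩
    rw [pow_mod_orderOf]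
    exact hn

theorem finite_h2 {k K : Type} [Field k] [Finite k] [Field K] [Algebra k K]
    [FiniteDimensional k K] {c : Gal(K/k) → Gal(K/k) → Kˣ} (hc : IsC2 c) :
    ∃ b : Gal(K/k) → Kˣ, ∀ g h, c g h = dB b g h := by
  classical
  have hfK : Finite K := Module.finite_of_finite k
  have hgal : IsGalois k K := inferInstance
  obtain ⟨s, hs⟩ := IsCyclic.exists_generator (α := Gal(K/k))
  have hlpos : 0 < orderOf s := orderOf_pos s
  obtain ⟨b, -, hb⟩ := cyclic_split (⊥ : Subgroup Gal(K/k)) (orderOf s) hlpos s
    (by rw [pow_orderOf_eq_one]; exact Subgroup.one_mem _)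
    (fun i h1 h2 h => by
      rw [Subgroup.mem_bot] at h
      exact absurd (Nat.le_of_dvd h1 (orderOf_dvd_of_pow_eq_one h)) (by omega))
    (fun g => by
      have hfin : IsOfFinOrder s := isOfFinOrder_of_finite s
      obtain ⟨n, hn⟩ := hfin.mem_powers_iff_mem_zpowers.2 (hs g)
      refine ⟨n % orderOf s, Nat.mod_lt _ hlpos, 1, Subgroup.one_mem _, ?_⟩
      rw [mul_one, pow_mod_orderOf]
      exact hn.symm)
    (fun a ha => by
      have h1 : (a : K) ∈ (IntermediateField.fixedField (⊤ : Subgroup Gal(K/k))) := by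
        rw [IntermediateField.mem_fixedField_iff]
        intro g _
        exact congrArg Units.val (ha g)
      rw [IsGalois.fixedField_top, IntermediateField.mem_bot] at h1
      obtain ⟨y, hy⟩ := h1
      obtain ⟨z, hz⟩ := FiniteField.norm_surjective k K y
      have hz0 : z ≠ 0 := by
        rintro rfl
        rw [Algebra.norm_zero] at hz
        rw [← hz, map_zero] at hy
        exact a.ne_zero hy.symm
      refine ⟨Units.mk0 z hz0, fun n hn => ?_, ?_⟩
      · rw [Subgroup.mem_bot] at hn
        rw [hn, one_smul]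
      · apply Units.ext
        rw [Units.coe_prod, ← hy, ← hz, Algebra.norm_eq_prod_automorphisms,
          FinF_prod s hs (fun σ => σ z)]
        rfl)
    hc ⟨fun g h n hn => by rw [Subgroup.mem_bot.1 hn, mul_one],
      fun g h n hn => by rw [Subgroup.mem_bot.1 hn, mul_one],
      fun g h n hn => by rw [Subgroup.mem_bot.1 hn, one_smul]⟩
  exact ⟨b, hb⟩

end W42
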