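import Pool.Agent.W_42fc02_h90.GenA
import Pool.Agent.W_42fc02_h7.LzA
import Pool.Agent.W_42fc02_h90.FinF

/-!
GenB: generation. F = kappa(y), zeta in kappa a primitive N-th root of 1, N = l^e. Every c with c^N = 1
in Br(F) is a product of symbols times a class inflated from kappa and killed by N.

th rho = a chosen root in KK of each monic irreducible rho in kappa[X].
kum_step: the residue chi of c at th = th rho (exists_chiHom, N chi integral by HasRes.torsion).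
lz_u with beta = 1: u in KK* with gamma u = zeta^(N chi gamma) u for all gamma in Gamma_th. u^N is fixed
by Gamma_th: (u^N)^r in kappa(th), r prime to l (fix_pow); u^(N r) = g(th), g in kappa[X],
deg g < deg rho (th is algebraic: reduce mod rho), g(th) not 0. gb = u^r, gamma gb =
zeta^(r N chi gamma) gb. symb_res: residue of (rho, g) at th = e0 r N chi / N = e0 r chi mod Z where
e0 = rootMultiplicity of th in rho (prime to l: rord_eq_mul_dv with K = kappa). Choose n with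
n e0 r = -1 mod N: the residue of c (rho,g)^n is 0 at th. At th rho' with rho' not rho and
deg rho' >= deg rho: rho(th rho') not 0, g(th rho') not 0 (degree), so the residue of (rho, g) is 0
(symb_res with rootMultiplicity 0).
gen: Ram c = {rho : the residue of c at th rho is not identically 0} is finite (ram_finite).
Induction on D with Ram c contained in degree < D; for D + 1 inner induction on the number of rho in
Ram c of degree D, using kum_step. Ram c empty: const_of_unram.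
-/

namespace W42

open Polynomial

theorem GenB_rmap {K K' : Type} [Field K] [Field K'] (ι : K →+* K') (p : K[X]) :
    rmap ι (pF K p) = pF K' (p.map ι) := by
  have h := rmap_div ι p 1
  rw [map_one, div_one, Polynomial.map_one, map_one, div_one] at h
  exact h

/-- the multiplicity of a root of a monic irreducible polynomial is prime to l -/
theorem GenB_mult {κ 𝕂 : Type} [Field κ] [Field 𝕂] (ι : κ →+* 𝕂) (θ : 𝕂) (ρ : MI κ)
    (hθ : ρ.1.eval₂ ι θ = 0) (l : ℕ) (hl : l.Prime) (hlκ : (l : κ) ≠ 0) :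
    Nat.Coprime l ((ρ.1.map ι).rootMultiplicity θ) := by
  obtain ⟨e, -, he, h⟩ := rord_eq_mul_dv ι θ ρ hθ
  have h1 := h (pF κ ρ.1) (RatA_pF_ne_zero ρ.2.1.ne_zero)
  rw [GenB_rmap, rord_poly, dv_self, mul_one] at h1
  have h2 : (ρ.1.map ι).rootMultiplicity θ = e := by exact_mod_cast h1
  rw [h2]
  exact he l hl hlκ

/-- zpow of a root of unity depends only on the exponent mod N -/
theorem GenB_zpow {K : Type} [Field K] {ζ : K} {N : ℕ} (hζ : ζ ^ N = 1) (hζ0 : ζ ≠ 0) {m n : ℤ}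
    (h : ∃ j : ℤ, m = n + N * j) : ζ ^ m = ζ ^ n := by
  obtain ⟨j, rfl⟩ := h
  rw [zpow_add₀ hζ0, zpow_mul, zpow_natCast, hζ, one_zpow, mul_one]

/-- Hilbert 90 element of a character of finite level, and a polynomial. -/
theorem GenB_u {κ 𝕂 : Type} [Field κ] [Field 𝕂] [Algebra κ 𝕂] [IsAlgClosed 𝕂]
    [Algebra.IsAlgebraic κ 𝕂] (θ : 𝕂) (N : ℕ) (hN : 0 < N) (ζ : κ) (hζ : IsPrimitiveRoot ζ N)
    {χ : Gal(𝕂/κ) → ℚ} (hχ : ChiHom κ θ χ)
    (hint : ∀ γ : Gal(𝕂/κ), γ θ = θ → ∃ n : ℤ, (N : ℚ) * χ γ = n) :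
    ∃ (u : 𝕂) (q : ℕ) (g : κ[X]), u ≠ 0 ∧
      (∀ l : ℕ, l.Prime → (l : κ) ≠ 0 → Nat.Coprime l q) ∧ u ^ (N * q) = aeval θ g ∧
      ∀ γ : Gal(𝕂/κ), γ θ = θ → ∀ m : ℤ, (N : ℚ) * χ γ = m →
        γ u = (algebraMap κ 𝕂 ζ) ^ m * u := by
  classical
  let E : IntermediateField κ 𝕂 := IntermediateField.adjoin κ {θ}
  have hθE : θ ∈ E := IntermediateField.mem_adjoin_simple_self κ θ
  have halg : Algebra.IsAlgebraic E 𝕂 := Algebra.IsAlgebraic.tower_top (K := κ) E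
  have hcl : IsAlgClosure E 𝕂 := ⟨inferInstance, halg⟩
  have hnorm : Normal E 𝕂 := IsAlgClosure.normal E 𝕂
  obtain ⟨T, hT⟩ := hχ.level
  have hζ0 : ζ ≠ 0 := hζ.ne_zero hN.ne'
  have hζ0' : algebraMap κ 𝕂 ζ ≠ 0 := by
    rw [Ne, map_eq_zero]
    exact hζ0
  have hζN : (algebraMap κ 𝕂 ζ) ^ N = 1 := by rw [← map_pow, hζ.pow_eq_one, map_one]
  -- a finite normal subextension containing `T`
  let L0 : IntermediateField E 𝕂 := IntermediateField.adjoin E (T : Set 𝕂)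
  have hfd0 : FiniteDimensional E L0 := by
    apply IntermediateField.finiteDimensional_adjoin
    intro x _
    exact Algebra.IsIntegral.isIntegral x
  let L : IntermediateField E 𝕂 := IntermediateField.normalClosure E L0 𝕂
  have hfd : FiniteDimensional E L := normalClosure.is_finiteDimensional E L0 𝕂
  have hnor : Normal E L := normalClosure.normal E L0 𝕂
  have hle : L0 ≤ L := IntermediateField.le_normalClosure L0
  have hTL : ∀ x ∈ T, x ∈ L := fun x hx =>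
    hle (IntermediateField.subset_adjoin E _ hx)
  have hlift : ∀ (g : L ≃ₐ[E] L) (x : L), (g.liftNormal 𝕂) (x : 𝕂) = (g x : 𝕂) :=
    fun g x => AlgEquiv.liftNormal_commutes g 𝕂 x
  let R : (𝕂 ≃ₐ[E] 𝕂) → Gal(𝕂/κ) := fun g => g.restrictScalars κ
  have hR : ∀ (g : 𝕂 ≃ₐ[E] 𝕂) (x : 𝕂), R g x = g x := fun _ _ => rfl
  have hRθ : ∀ g : 𝕂 ≃ₐ[E] 𝕂, R g θ = θ := fun g => g.commutes ⟨θ, hθE⟩
  have hM : ∀ g : 𝕂 ≃ₐ[E] 𝕂, ∃ n : ℤ, (N : ℚ) * χ (R g) = n := fun g => hint _ (hRθ g)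
  choose M hM using hM
  -- comparison of two automorphisms which agree on `T`
  have hcmp : ∀ γ γ' : Gal(𝕂/κ), γ θ = θ → γ' θ = θ → (∀ x ∈ T, γ x = γ' x) → ∀ m m' : ℤ,
      (N : ℚ) * χ γ = m → (N : ℚ) * χ γ' = m' → ∃ j : ℤ, m = m' + N * j := by
    intro γ γ' hγ hγ' hag m m' hm hm'
    have hδθ : (γ'⁻¹ * γ) θ = θ := by
      rw [AlgEquiv.mul_apply, hγ]
      apply γ'.injective
      rw [← AlgEquiv.mul_apply, mul_inv_cancel, AlgEquiv.one_apply, hγ']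
    have hδ : ∀ x ∈ T, (γ'⁻¹ * γ) x = x := by
      intro x hx
      rw [AlgEquiv.mul_apply, hag x hx, ← AlgEquiv.mul_apply, inv_mul_cancel, AlgEquiv.one_apply]
    obtain ⟨j1, hj1⟩ := hT _ hδθ hδ
    obtain ⟨j2, hj2⟩ := hχ.hom γ' (γ'⁻¹ * γ) hγ' hδθ
    rw [mul_inv_cancel_left, hj1] at hj2
    refine ⟨j1 + j2, ?_⟩
    have h3 : (m : ℚ) = ((m' + N * (j1 + j2) : ℤ) : ℚ) := by
      push_cast
      rw [← hm, ← hm', ← hj2]
      ring
    exact_mod_cast h3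
  have hadd : ∀ γ γ' : Gal(𝕂/κ), γ θ = θ → γ' θ = θ → ∀ m m' : ℤ,
      (N : ℚ) * χ γ = m → (N : ℚ) * χ γ' = m' → ∃ j : ℤ,
        (N : ℚ) * χ (γ * γ') = ((m + m' + N * j : ℤ) : ℚ) := by
    intro γ γ' hγ hγ' m m' hm hm'
    obtain ⟨j, hj⟩ := hχ.hom γ γ' hγ hγ'
    refine ⟨j, ?_⟩
    push_cast
    rw [← hm, ← hm', ← hj]
    ring
  let c : (L ≃ₐ[E] L) → E := fun g => (algebraMap κ E ζ) ^ (M (g.liftNormal 𝕂))
  have hζE0 : algebraMap κ E ζ ≠ 0 := by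
    rw [Ne, map_eq_zero]
    exact hζ0
  have hζEN : (algebraMap κ E ζ) ^ N = 1 := by rw [← map_pow, hζ.pow_eq_one, map_one]
  obtain ⟨u, hu0, hu⟩ := Pool.Agent.W_42fc02_h7.exists_resolvent (⊤ : Subgroup (L ≃ₐ[E] L)) c
    (fun g _ => zpow_ne_zero _ hζE0) (fun g _ h _ => by
      change (algebraMap κ E ζ) ^ (M ((g * h).liftNormal 𝕂)) =
        (algebraMap κ E ζ) ^ (M (g.liftNormal 𝕂)) * (algebraMap κ E ζ) ^ (M (h.liftNormal 𝕂))
      rw [← zpow_add₀ hζE0]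
      apply GenB_zpow hζEN hζE0
      obtain ⟨j1, hj1⟩ := hadd (R (g.liftNormal 𝕂)) (R (h.liftNormal 𝕂)) (hRθ _) (hRθ _) _ _
        (hM _) (hM _)
      obtain ⟨j2, hj2⟩ := hcmp (R ((g * h).liftNormal 𝕂))
        (R (g.liftNormal 𝕂) * R (h.liftNormal 𝕂)) (hRθ _) (by
          rw [AlgEquiv.mul_apply, hRθ, hRθ]) (fun x hx => by
          rw [AlgEquiv.mul_apply, hR, hR, hR]
          have e1 := hlift (g * h) ⟨x, hTL x hx⟩
          have e2 := hlift h ⟨x, hTL x hx⟩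
          have e3 := hlift g (h ⟨x, hTL x hx⟩)
          rw [e1, AlgEquiv.mul_apply, e2, e3]) _ _ (hM _) hj1
      exact ⟨j1 + j2, by rw [hj2]; ring⟩)
  have hu' : ∀ g : L ≃ₐ[E] L, g u = algebraMap E L (c g) * u := fun g => hu g trivial
  have hfix : ∀ g : L ≃ₐ[E] L, g (u ^ N) = u ^ N := by
    intro g
    rw [map_pow, hu', mul_pow, ← map_pow]
    have h1 : c g ^ N = 1 := by
      change ((algebraMap κ E ζ) ^ (M (g.liftNormal 𝕂))) ^ N = 1
      rw [← zpow_natCast, ← zpow_mul, mul_comm, zpow_mul, zpow_natCast, hζEN, one_zpow]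
    rw [h1, map_one, one_mul]
  obtain ⟨p, hp⟩ := ExpChar.exists κ
  have hpE : ExpChar E p := expChar_of_injective_algebraMap (algebraMap κ E).injective p
  obtain ⟨m, y, hy⟩ := Pool.Agent.W_42fc02_h7.exists_pow_mem_of_fixed p hfix
  have hθint : IsIntegral κ θ := Algebra.IsIntegral.isIntegral θ
  have hyθ : (y : 𝕂) ∈ Algebra.adjoin κ {θ} := by
    rw [← IntermediateField.adjoin_simple_toSubalgebra_of_isAlgebraic hθint.isAlgebraic]
    exact y.2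
  rw [Algebra.adjoin_singleton_eq_range_aeval] at hyθ
  obtain ⟨g, hg⟩ := hyθ
  refine ⟨(u : 𝕂), p ^ m, g, ?_, ?_, ?_, ?_⟩
  · intro h
    exact hu0 (Subtype.ext h)
  · intro l hl hlκ
    apply Nat.Coprime.pow_right
    rcases hp with _ | hpp
    · exact Nat.coprime_one_right l
    · rw [Nat.coprime_primes hl hpp]
      rintro rfl
      exact hlκ (CharP.cast_eq_zero κ l)
  · have h1 : ((u : 𝕂) ^ N) ^ p ^ m = (y : 𝕂) := by
      have := congrArg (fun z : L => (z : 𝕂)) hy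
      exact this
    rw [pow_mul, h1]
    exact hg.symm
  · intro γ hγ n hn
    -- `γ` as an automorphism over `E`
    have hγE : ∀ x : E, γ (x : 𝕂) = x := by
      intro x
      have hx : (x : 𝕂) ∈ Algebra.adjoin κ {θ} := by
        rw [← IntermediateField.adjoin_simple_toSubalgebra_of_isAlgebraic hθint.isAlgebraic]
        exact x.2
      rw [Algebra.adjoin_singleton_eq_range_aeval] at hx
      obtain ⟨f, hf⟩ := hx
      have hf' : aeval θ f = (x : 𝕂) := hf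
      rw [← hf']
      have h1 : γ (aeval θ f) = aeval (γ θ) f := (aeval_algHom_apply γ.toAlgHom θ f).symm
      rw [h1, hγ]
    let γE : 𝕂 ≃ₐ[E] 𝕂 := { γ with commutes' := hγE }
    have hγE' : ∀ x, γE x = γ x := fun _ => rfl
    let g0 : L ≃ₐ[E] L := AlgEquiv.restrictNormalHom L γE
    have hg0 : ∀ x : L, ((g0 x : L) : 𝕂) = γ (x : 𝕂) := fun x =>
      AlgEquiv.restrictNormal_commutes γE L x
    have h1 : γ (u : 𝕂) = ((g0 u : L) : 𝕂) := (hg0 u).symm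
    rw [h1, hu']
    have h2 : ((algebraMap E L (c g0) * u : L) : 𝕂) =
        (algebraMap κ 𝕂 ζ) ^ (M (g0.liftNormal 𝕂)) * (u : 𝕂) := by
      change ((algebraMap E L (c g0) : L) : 𝕂) * (u : 𝕂) = _
      congr 1
    rw [h2]
    congr 1
    apply GenB_zpow hζN hζ0'
    obtain ⟨j, hj⟩ := hcmp (R (g0.liftNormal 𝕂)) γ (hRθ _) hγ (fun x hx => by
      rw [hR]
      have e1 := hlift g0 ⟨x, hTL x hx⟩
      rw [e1]
      exact hg0 _) _ _ (hM _) hn
    exact ⟨j, hj⟩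

/-- an automorphism moves a root of a fixed element by a power of zeta -/
theorem GenB_root {κ 𝕂 : Type} [Field κ] [Field 𝕂] [Algebra κ 𝕂] (N : ℕ) (hN : 0 < N) (ζ : κ)
    (hζ : IsPrimitiveRoot ζ N) {x gb : 𝕂} (hx : x ≠ 0) (hgb : gb ^ N = x) (γ : Gal(𝕂/κ))
    (hγ : γ x = x) : ∃ n : ℕ, γ gb = algebraMap κ 𝕂 ζ ^ n * gb := by
  have hgb0 : gb ≠ 0 := by
    rintro rfl
    rw [zero_pow hN.ne'] at hgb
    exact hx hgb.symm
  have h1 : (γ gb / gb) ^ N = 1 := by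
    rw [div_pow, ← map_pow, hgb, hγ, div_self hx]
  have : NeZero N := ⟨hN.ne'⟩
  have hζ' : IsPrimitiveRoot (algebraMap κ 𝕂 ζ) N :=
    hζ.map_of_injective (algebraMap κ 𝕂).injective
  obtain ⟨n, -, hn⟩ := hζ'.eq_pow_of_pow_eq_one h1
  refine ⟨n, ?_⟩
  rw [hn, div_mul_cancel₀ _ hgb0]

/-- two different monic irreducible polynomials have no common root; a root of rho is a root of
no nonzero polynomial of smaller degree -/
theorem GenB_minpoly {κ 𝕂 : Type} [Field κ] [Field 𝕂] [Algebra κ 𝕂] (θ : 𝕂) (ρ : MI κ)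
    (hθ : aeval θ ρ.1 = 0) (f : κ[X]) (hf : aeval θ f = 0) : ρ.1 ∣ f := by
  rw [minpoly.eq_of_irreducible_of_monic ρ.2.2 hθ ρ.2.1]
  exact minpoly.dvd κ θ hf

section
variable (κ F : Type) {Ω : Type} [Field κ] [Field F] [Field Ω] [Algebra κ F] [Algebra κ[X] F]
  [IsScalarTower κ κ[X] F] [IsFractionRing κ[X] F] [Algebra F Ω] [Algebra κ Ω]
  [IsScalarTower κ F Ω] [IsGalois F Ω] [IsSepClosed Ω]

theorem kum_step {𝕂 : Type} [Field 𝕂] [Algebra κ 𝕂] [IsAlgClosed 𝕂] [Algebra.IsAlgebraic κ 𝕂]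
    (io : Ok κ Ω →ₐ[κ] 𝕂) (th : MI κ → 𝕂) (hth : ∀ ρ : MI κ, aeval (th ρ) ρ.1 = 0)
    (l e : ℕ) [Fact l.Prime] (he : 0 < e) (hl : (l : κ) ≠ 0) (ζ : κ)
    (hζ : IsPrimitiveRoot ζ (l ^ e)) {c : Gal(Ω/F) → Gal(Ω/F) → Ωˣ} (hc : BC c)
    (hN : BEq (fun σ τ => c σ τ ^ l ^ e) c1) (ρ : MI κ) :
    ∃ (a : Fˣ) (β : Ω) (n : ℕ), IsRt (l ^ e) F β ∧
      (∀ γ : Gal(𝕂/κ), γ (th ρ) = th ρ → HasRes κ F io (th ρ)
        (fun σ τ => c σ τ * symc (l ^ e) (algebraMap κ F ζ) a β σ τ ^ n) γ 0) ∧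
      ∀ ρ' : MI κ, ρ' ≠ ρ → ρ.1.natDegree ≤ ρ'.1.natDegree →
        ∀ γ : Gal(𝕂/κ), γ (th ρ') = th ρ' → HasRes κ F io (th ρ')
          (symc (l ^ e) (algebraMap κ F ζ) a β) γ 0 := by
  have hlp : l.Prime := Fact.out
  have hN0 : 0 < l ^ e := pow_pos hlp.pos e
  obtain ⟨χ, hχ, hres⟩ := exists_chiHom io (th ρ) l hl hc e hN
  have hint : ∀ γ : Gal(𝕂/κ), γ (th ρ) = th ρ → ∃ n : ℤ, ((l ^ e : ℕ) : ℚ) * χ γ = n :=
    fun γ hγ => HasRes.torsion hγ (hres γ hγ) (l ^ e) hN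
  obtain ⟨u, q, g0, hu0, hq, hug, hu⟩ := GenB_u (th ρ) (l ^ e) hN0 ζ hζ hχ hint
  set g := g0 %ₘ ρ.1 with hgdef
  have hgθ : aeval (th ρ) g = aeval (th ρ) g0 :=
    Polynomial.aeval_modByMonic_eq_self_of_root (hth ρ)
  have hg1 : aeval (th ρ) g ≠ 0 := by
    rw [hgθ, ← hug]
    exact pow_ne_zero _ hu0
  have hg0 : g ≠ 0 := by
    intro h
    rw [h, map_zero] at hg1
    exact hg1 rfl
  have hdeg : g.degree < ρ.1.degree := degree_modByMonic_lt g0 ρ.2.1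
  have hinjF : Function.Injective (algebraMap κ[X] F) := IsFractionRing.injective κ[X] F
  have hlF : ((l ^ e : ℕ) : F) ≠ 0 := by
    rw [Nat.cast_pow]
    apply pow_ne_zero
    intro h
    apply hl
    apply (algebraMap κ F).injective
    rw [map_natCast, map_zero]
    exact h
  obtain ⟨β, hβ⟩ := exists_rt (Ω := Ω) (l ^ e) hlF (algebraMap κ[X] F g)
  have hρF : algebraMap κ[X] F ρ.1 ≠ 0 := by
    intro h
    exact ρ.2.1.ne_zero (hinjF (h.trans (map_zero _).symm))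
  have hgF : algebraMap κ[X] F g ≠ 0 := by
    intro h
    exact hg0 (hinjF (h.trans (map_zero _).symm))
  set e0 := (ρ.1.map (algebraMap κ 𝕂)).rootMultiplicity (th ρ) with he0
  have hcop0 : Nat.Coprime l e0 := GenB_mult (algebraMap κ 𝕂) (th ρ) ρ (hth ρ) l hlp hl
  have hcop : Nat.Coprime (e0 * q) (l ^ e) :=
    (Nat.Coprime.pow_left e (Nat.Coprime.mul_right hcop0 (hq l hlp hl))).symm
  have : NeZero (l ^ e) := ⟨hN0.ne'⟩
  -- the exponent
  obtain ⟨n, i, hni⟩ : ∃ n i : ℕ, n * (e0 * q) + 1 = (l ^ e) * i := by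
    let w := ZMod.unitOfCoprime (e0 * q) hcop
    refine ⟨((-(w⁻¹ : (ZMod (l ^ e))ˣ) : ZMod (l ^ e))).val, ?_⟩
    have h1 : (((-(w⁻¹ : (ZMod (l ^ e))ˣ) : ZMod (l ^ e)).val * (e0 * q) + 1 : ℕ) :
        ZMod (l ^ e)) = 0 := by
      rw [Nat.cast_add, Nat.cast_mul, ZMod.natCast_val, ZMod.cast_id, Nat.cast_one, neg_mul]
      have h2 : ((w⁻¹ : (ZMod (l ^ e))ˣ) : ZMod (l ^ e)) * ((e0 * q : ℕ) : ZMod (l ^ e)) = 1 := by
        have h3 : ((e0 * q : ℕ) : ZMod (l ^ e)) = (w : ZMod (l ^ e)) := rfl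
        rw [h3, ← Units.val_mul, inv_mul_cancel, Units.val_one]
      rw [h2]
      ring
    rw [ZMod.natCast_eq_zero_iff] at h1
    obtain ⟨i, hi⟩ := h1
    exact ⟨i, hi⟩
  have hζ0' : algebraMap κ 𝕂 ζ ≠ 0 := by
    rw [Ne, map_eq_zero]
    exact hζ.ne_zero hN0.ne'
  have hζ' : IsPrimitiveRoot (algebraMap κ 𝕂 ζ) (l ^ e) :=
    hζ.map_of_injective (algebraMap κ 𝕂).injective
  refine ⟨Units.mk0 _ hρF, β, n, ⟨_, hgF, hβ⟩, ?_, ?_⟩
  · intro γ hγ
    obtain ⟨k, hk⟩ := hint γ hγ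
    have hgb : (u ^ q) ^ l ^ e = aeval (th ρ) g := by rw [hgθ, ← hug, ← pow_mul, mul_comm]
    have hfix : γ (aeval (th ρ) g) = aeval (th ρ) g := by
      have h1 : γ (aeval (th ρ) g) = aeval (γ (th ρ)) g :=
        (aeval_algHom_apply γ.toAlgHom (th ρ) g).symm
      rw [h1, hγ]
    obtain ⟨nγ, hnγ⟩ := GenB_root (l ^ e) hN0 ζ hζ hg1 hgb γ hfix
    -- comparison of the exponents
    obtain ⟨j, hj⟩ : ∃ j : ℤ, (nγ : ℤ) = k * q + (l ^ e : ℕ) * j := by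
      have h1 : γ (u ^ q) = algebraMap κ 𝕂 ζ ^ (k * q : ℤ) * u ^ q := by
        rw [map_pow, hu γ hγ k hk, mul_pow, zpow_mul, zpow_natCast]
      rw [h1] at hnγ
      have h2 : algebraMap κ 𝕂 ζ ^ (k * q : ℤ) = algebraMap κ 𝕂 ζ ^ (nγ : ℤ) := by
        rw [zpow_natCast]
        exact mul_right_cancel₀ (pow_ne_zero q hu0) hnγ
      have h3 : algebraMap κ 𝕂 ζ ^ ((nγ : ℤ) - k * q) = 1 := by
        rw [zpow_sub₀ hζ0', ← h2, div_self (zpow_ne_zero _ hζ0')]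
      obtain ⟨j, hj⟩ := (hζ'.zpow_eq_one_iff_dvd _).1 h3
      exact ⟨j, by linarith⟩
    have hs := symb_res κ F io l e hl ζ hζ ρ.1 g ρ.2.1.ne_zero (Units.mk0 _ hρF) rfl (th ρ) hg1
      β hβ (u ^ q) hgb γ hγ nγ hnγ
    refine HasRes.add_int (HasRes.mul hγ (hres γ hγ) (hs.pow n)) ?_
    refine ⟨k * i + n * e0 * j, ?_⟩
    have hNq : ((l ^ e : ℕ) : ℚ) ≠ 0 := by exact_mod_cast hN0.ne'
    have hj' : (nγ : ℚ) = k * q + ((l ^ e : ℕ) : ℚ) * j := by exact_mod_cast hj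
    have hni' : (n : ℚ) * (e0 * q) + 1 = ((l ^ e : ℕ) : ℚ) * i := by exact_mod_cast hni
    have hχ' : χ γ = k / ((l ^ e : ℕ) : ℚ) := by
      rw [eq_div_iff hNq, mul_comm]
      exact hk
    rw [hχ', ← he0, hj', sub_zero]
    push_cast
    push_cast at hni' hNq
    field_simp
    linear_combination (k : ℚ) * hni'
  · intro ρ' hne hle γ hγ
    have hg' : aeval (th ρ') g ≠ 0 := by
      intro h
      have h1 := GenB_minpoly (th ρ') ρ' (hth ρ') g h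
      have h2 : g = 0 := by
        apply Polynomial.eq_zero_of_dvd_of_degree_lt h1
        refine lt_of_lt_of_le hdeg ?_
        rw [degree_eq_natDegree ρ.2.1.ne_zero, degree_eq_natDegree ρ'.2.1.ne_zero]
        exact_mod_cast hle
      exact hg0 h2
    have hρ' : aeval (th ρ') ρ.1 ≠ 0 := by
      intro h
      have h1 := GenB_minpoly (th ρ') ρ' (hth ρ') ρ.1 h
      apply hne
      apply Subtype.ext
      exact eq_of_monic_of_associated ρ'.2.1 ρ.2.1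
        ((ρ'.2.2.dvd_irreducible_iff_associated ρ.2.2).1 h1)
    obtain ⟨gb, hgb⟩ := IsAlgClosed.exists_pow_nat_eq (aeval (th ρ') g) hN0
    have hfix : γ (aeval (th ρ') g) = aeval (th ρ') g := by
      have h1 : γ (aeval (th ρ') g) = aeval (γ (th ρ')) g :=
        (aeval_algHom_apply γ.toAlgHom (th ρ') g).symm
      rw [h1, hγ]
    obtain ⟨nγ, hnγ⟩ := GenB_root (l ^ e) hN0 ζ hζ hg' hgb γ hfix
    have hs := symb_res κ F io l e hl ζ hζ ρ.1 g ρ.2.1.ne_zero (Units.mk0 _ hρF) rfl (th ρ') hg'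
      β hβ gb hgb γ hγ nγ hnγ
    have h0 : (ρ.1.map (algebraMap κ 𝕂)).rootMultiplicity (th ρ') = 0 := by
      apply rootMultiplicity_eq_zero
      intro h
      apply hρ'
      rw [IsRoot.def, eval_map_algebraMap] at h
      exact h
    rw [h0] at hs
    simpa using hs

/-- the ramification of c -/
def GenB_Ram {𝕂 : Type} [Field 𝕂] [Algebra κ 𝕂] (io : Ok κ Ω →ₐ[κ] 𝕂) (th : MI κ → 𝕂)
    (c : Gal(Ω/F) → Gal(Ω/F) → Ωˣ) : Set (MI κ) :=
  {ρ : MI κ | ¬ ∀ γ : Gal(𝕂/κ), γ (th ρ) = th ρ → HasRes κ F io (th ρ) c γ 0}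

omit [Algebra κ F] [Algebra κ[X] F] [IsScalarTower κ κ[X] F] [IsFractionRing κ[X] F] [Algebra κ Ω]
  [IsScalarTower κ F Ω] [IsGalois F Ω] [IsSepClosed Ω] [Field κ] in
theorem GenB_pow_mul {c s : Gal(Ω/F) → Gal(Ω/F) → Ωˣ} {N : ℕ}
    (h : BEq (fun σ τ => c σ τ ^ N) c1) (h' : BEq (fun σ τ => s σ τ ^ N) c1) :
    BEq (fun σ τ => (c σ τ * s σ τ) ^ N) c1 := by
  have h1 := h.mul h'
  have e1 : (fun σ τ => (c σ τ * s σ τ) ^ N) =
      fun σ τ : Gal(Ω/F) => c σ τ ^ N * s σ τ ^ N := by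
    funext σ τ
    exact mul_pow _ _ _
  have e2 : (fun σ τ : Gal(Ω/F) => (c1 σ τ * c1 σ τ : Ωˣ)) = c1 := by
    funext σ τ
    exact mul_one _
  rw [e1, ← e2]
  exact h1

omit [Algebra κ F] [Algebra κ[X] F] [IsScalarTower κ κ[X] F] [IsFractionRing κ[X] F] [Algebra κ Ω]
  [IsScalarTower κ F Ω] [IsGalois F Ω] [IsSepClosed Ω] [Field κ] in
theorem GenB_pow_pow {s : Gal(Ω/F) → Gal(Ω/F) → Ωˣ} {N : ℕ}
    (h' : BEq (fun σ τ => s σ τ ^ N) c1) (n : ℕ) :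
    BEq (fun σ τ => (s σ τ ^ n) ^ N) c1 := by
  have h1 := h'.pow n
  have e1 : (fun σ τ => (s σ τ ^ n) ^ N) = fun σ τ : Gal(Ω/F) => (s σ τ ^ N) ^ n := by
    funext σ τ
    rw [← pow_mul, ← pow_mul, mul_comm]
  have e2 : (fun σ τ : Gal(Ω/F) => (c1 σ τ ^ n : Ωˣ)) = c1 := by
    funext σ τ
    exact one_pow _
  rw [e1, ← e2]
  exact h1

theorem GenB_ind {𝕂 : Type} [Field 𝕂] [Algebra κ 𝕂] [IsAlgClosed 𝕂] [Algebra.IsAlgebraic κ 𝕂]
    (io : Ok κ Ω →ₐ[κ] 𝕂) (th : MI κ → 𝕂) (hth : ∀ ρ : MI κ, aeval (th ρ) ρ.1 = 0)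
    (l e : ℕ) [Fact l.Prime] (he : 0 < e) (hl : (l : κ) ≠ 0) (ζ : κ)
    (hζ : IsPrimitiveRoot ζ (l ^ e)) (D : ℕ) :
    ∀ (m : ℕ) (c : Gal(Ω/F) → Gal(Ω/F) → Ωˣ), BC c → BEq (fun σ τ => c σ τ ^ l ^ e) c1 →
      (∀ ρ ∈ GenB_Ram κ F io th c, ρ.1.natDegree < D) →
      {ρ | ρ ∈ GenB_Ram κ F io th c ∧ ρ.1.natDegree + 1 = D}.ncard ≤ m →
      ∃ c' ∈ SymSub (l ^ e) (algebraMap κ F ζ) Ω, BC c' ∧
        BEq (fun σ τ => c' σ τ ^ l ^ e) c1 ∧
        ∀ (ρ : MI κ) (γ : Gal(𝕂/κ)), γ (th ρ) = th ρ →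
          HasRes κ F io (th ρ) (fun σ τ => c σ τ * c' σ τ) γ 0 := by
  have hN0 : 0 < l ^ e := pow_pos (Fact.out : l.Prime).pos e
  have hζF : IsPrimitiveRoot (algebraMap κ F ζ) (l ^ e) :=
    hζ.map_of_injective (algebraMap κ F).injective
  induction D with
  | zero =>
    intro m c hc hN hR _
    refine ⟨1, Subgroup.one_mem _, bc_one, ?_, ?_⟩
    · have : (fun σ τ => ((1 : Gal(Ω/F) → Gal(Ω/F) → Ωˣ) σ τ) ^ l ^ e) = c1 := by
        funext σ τ
        exact one_pow _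
      rw [this]
      exact BEq.refl _
    · intro ρ γ hγ
      have h1 : ρ ∉ GenB_Ram κ F io th c := fun h => absurd (hR ρ h) (Nat.not_lt_zero _)
      have h2 := not_not.1 h1 γ hγ
      have e1 : (fun σ τ => c σ τ * (1 : Gal(Ω/F) → Gal(Ω/F) → Ωˣ) σ τ) = c := by
        funext σ τ
        exact mul_one _
      rw [e1]
      exact h2
  | succ D ihD =>
    intro m
    induction m with
    | zero =>
      intro c hc hN hR hm
      have hfin : {ρ | ρ ∈ GenB_Ram κ F io th c ∧ ρ.1.natDegree + 1 = D + 1}.Finite :=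
        (ram_finite io th hth l hl hc e hN).subset fun ρ h => h.1
      have hempty : {ρ | ρ ∈ GenB_Ram κ F io th c ∧ ρ.1.natDegree + 1 = D + 1} = ∅ :=
        (Set.ncard_eq_zero hfin).1 (Nat.le_zero.1 hm)
      refine ihD _ c hc hN (fun ρ hρ => ?_) le_rfl
      have h1 := hR ρ hρ
      have h2 : ρ.1.natDegree + 1 ≠ D + 1 := by
        intro h
        have : ρ ∈ ({ρ | ρ ∈ GenB_Ram κ F io th c ∧ ρ.1.natDegree + 1 = D + 1} : Set (MI κ)) :=
          ⟨hρ, h⟩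
        rw [hempty] at this
        exact this
      omega
    | succ m ihm =>
      intro c hc hN hR hm
      have hfin : {ρ | ρ ∈ GenB_Ram κ F io th c ∧ ρ.1.natDegree + 1 = D + 1}.Finite :=
        (ram_finite io th hth l hl hc e hN).subset fun ρ h => h.1
      by_cases hle : {ρ | ρ ∈ GenB_Ram κ F io th c ∧ ρ.1.natDegree + 1 = D + 1}.ncard ≤ m
      · exact ihm c hc hN hR hle
      · have hne : {ρ | ρ ∈ GenB_Ram κ F io th c ∧ ρ.1.natDegree + 1 = D + 1}.Nonempty := by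
          rw [← Set.ncard_pos hfin]
          omega
        obtain ⟨ρ, hρ, hρD⟩ := hne
        obtain ⟨a, β, n, hβ, h1, h2⟩ := kum_step κ F io th hth l e he hl ζ hζ hc hN ρ
        set s := symc (l ^ e) (algebraMap κ F ζ) a β with hs
        have hsbc : BC s := symc_bc hN0 hζF hβ a
        have hst : BEq (fun σ τ => s σ τ ^ l ^ e) c1 := symc_torsion hN0 hζF hβ a
        have hbc : BC (fun σ τ => c σ τ * s σ τ ^ n) := hc.mul (hsbc.pow n)
        have htor : BEq (fun σ τ => (c σ τ * s σ τ ^ n) ^ l ^ e) c1 :=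
          GenB_pow_mul F hN (GenB_pow_pow F hst n)
        -- the ramification of the new class
        have hρ1 : ρ ∉ GenB_Ram κ F io th (fun σ τ => c σ τ * s σ τ ^ n) := not_not.2 h1
        have hsub : ∀ ρ' ∈ GenB_Ram κ F io th (fun σ τ => c σ τ * s σ τ ^ n),
            ρ.1.natDegree ≤ ρ'.1.natDegree → ρ' ∈ GenB_Ram κ F io th c := by
          intro ρ' hρ' hdeg hcon
          apply hρ'
          intro γ hγ
          have hne : ρ' ≠ ρ := by
            rintro rfl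
            exact hρ1 hρ'
          have h3 := h2 ρ' hne hdeg γ hγ
          have h4 := HasRes.mul hγ (hcon γ hγ) (h3.pow n)
          rw [mul_zero, add_zero] at h4
          exact h4
        obtain ⟨c', hc'S, hc'bc, hc't, hc'r⟩ := ihm (fun σ τ => c σ τ * s σ τ ^ n) hbc htor
          (fun ρ' hρ' => by
            by_contra hcon
            exact hcon (hR ρ' (hsub ρ' hρ' (by omega)))) (by
            have hss : {ρ' | ρ' ∈ GenB_Ram κ F io th (fun σ τ => c σ τ * s σ τ ^ n) ∧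
                ρ'.1.natDegree + 1 = D + 1} ⊆
                {ρ | ρ ∈ GenB_Ram κ F io th c ∧ ρ.1.natDegree + 1 = D + 1} \ {ρ} := by
              rintro ρ' ⟨h3, h4⟩
              refine ⟨⟨hsub ρ' h3 (by omega), h4⟩, ?_⟩
              rintro rfl
              exact hρ1 h3
            have h5 := Set.ncard_le_ncard hss (hfin.subset Set.sdiff_subset)
            have h6 : ({ρ | ρ ∈ GenB_Ram κ F io th c ∧ ρ.1.natDegree + 1 = D + 1} \ {ρ}).ncard <
                {ρ | ρ ∈ GenB_Ram κ F io th c ∧ ρ.1.natDegree + 1 = D + 1}.ncard :=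
              Set.ncard_sdiff_singleton_lt_of_mem ⟨hρ, hρD⟩ hfin
            omega)
        have hsS : s ∈ SymSub (l ^ e) (algebraMap κ F ζ) Ω :=
          Subgroup.subset_closure (Or.inl ⟨a, β, hβ, rfl⟩)
        refine ⟨s ^ n * c', Subgroup.mul_mem _ (Subgroup.pow_mem _ hsS n) hc'S, ?_, ?_, ?_⟩
        · exact (hsbc.pow n).mul hc'bc
        · exact GenB_pow_mul F (GenB_pow_pow F hst n) hc't
        · intro ρ' γ hγ
          have h3 := hc'r ρ' γ hγ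
          have e1 : (fun σ τ => c σ τ * (s ^ n * c') σ τ) =
              fun σ τ => c σ τ * s σ τ ^ n * c' σ τ := by
            funext σ τ
            exact (mul_assoc _ _ _).symm
          rw [e1]
          exact h3

theorem gen {𝕂 : Type} [Field 𝕂] [Algebra κ 𝕂] [IsAlgClosed 𝕂] [Algebra.IsAlgebraic κ 𝕂]
    (io : Ok κ Ω →ₐ[κ] 𝕂)
    (l e : ℕ) [Fact l.Prime] (he : 0 < e) (hl : (l : κ) ≠ 0) (ζ : κ)
    (hζ : IsPrimitiveRoot ζ (l ^ e)) {c : Gal(Ω/F) → Gal(Ω/F) → Ωˣ} (hc : BC c)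
    (hN : BEq (fun σ τ => c σ τ ^ l ^ e) c1) :
    ∃ c₀ : Gal(Ok κ Ω/κ) → Gal(Ok κ Ω/κ) → (Ok κ Ω)ˣ, BC c₀ ∧
      BEq (fun σ τ => c₀ σ τ ^ l ^ e) c1 ∧
      (fun σ τ => c σ τ * (pull κ F c₀ σ τ)⁻¹) ∈ SymSub (l ^ e) (algebraMap κ F ζ) Ω := by
  have hth : ∀ ρ : MI κ, ∃ θ : 𝕂, aeval θ ρ.1 = 0 := fun ρ =>
    IsAlgClosed.exists_aeval_eq_zero 𝕂 ρ.1 (degree_pos_of_irreducible ρ.2.2).ne'
  choose th hth using hth
  have hfin := ram_finite io th hth l hl hc e hN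
  obtain ⟨D, hD⟩ : ∃ D : ℕ, ∀ ρ ∈ GenB_Ram κ F io th c, ρ.1.natDegree < D := by
    obtain ⟨M, hM⟩ := (hfin.image fun ρ : MI κ => ρ.1.natDegree).bddAbove
    exact ⟨M + 1, fun ρ hρ => Nat.lt_succ_of_le (hM ⟨ρ, hρ, rfl⟩)⟩
  obtain ⟨c', hS, hbc, ht, hr⟩ := GenB_ind κ F io th hth l e he hl ζ hζ D _ c hc hN hD le_rfl
  obtain ⟨c₂, h1, h2, h3⟩ := const_of_unram io th hth l e hl (hc.mul hbc) (GenB_pow_mul F hN ht) hr
  refine ⟨c₂, h1, h2, ?_⟩
  have h4 : BEq (fun σ τ => c σ τ * c' σ τ * (pull κ F c₂ σ τ)⁻¹) c1 := by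
    have h5 := h3.mul (BEq.refl (fun σ τ => (pull κ F c₂ σ τ)⁻¹))
    have e2 : (fun σ τ => pull κ F c₂ σ τ * (pull κ F c₂ σ τ)⁻¹) = c1 := by
      funext σ τ
      exact mul_inv_cancel _
    rw [e2] at h5
    exact h5
  have h6 : (fun σ τ => c σ τ * (pull κ F c₂ σ τ)⁻¹) =
      (fun σ τ => c σ τ * c' σ τ * (pull κ F c₂ σ τ)⁻¹) * c'⁻¹ := by
    funext σ τ
    change c σ τ * (pull κ F c₂ σ τ)⁻¹ = c σ τ * c' σ τ * (pull κ F c₂ σ τ)⁻¹ * (c' σ τ)⁻¹
    rw [mul_right_comm (c σ τ * c' σ τ), mul_inv_cancel_right]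
  rw [h6]
  exact Subgroup.mul_mem _ (Subgroup.subset_closure (Or.inr h4)) (Subgroup.inv_mem _ hS)

end

/-- the Brauer group of a finite field is trivial -/
theorem GenB_fin {k Ω : Type} [Field k] [Finite k] [Field Ω] [Algebra k Ω] [IsGalois k Ω]
    {c : Gal(Ω/k) → Gal(Ω/k) → Ωˣ} (hc : BC c) : BEq c c1 := by
  obtain ⟨hc2, L, hfd, hn, hL⟩ := hc
  obtain ⟨c', rfl⟩ := exists_infl L hL
  rw [isC2_infl] at hc2
  obtain ⟨b, hb⟩ := finite_h2 hc2
  refine ⟨infl1 L b, ⟨L, hfd, hn, lev1_infl1 L b⟩, fun σ τ => ?_⟩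
  have h1 : c' = dB b := by
    funext g h
    exact hb g h
  rw [h1, ← dB_infl1]
  exact (one_mul _).symm

/-- generation of Br(k(x,y))[N], k finite: gen for F / kappa, gen for kappa / k (with the separable
closure Ok kappa Omega), pull_symSub, and over k: a class over k of level kp is trivial (exists_level..,
finite_h2), symSub_congr. -/
theorem gen_two (k κ F : Type) {Ω : Type} [Field k] [Finite k] [Field κ] [Field F] [Field Ω]
    [Algebra k κ] [Algebra k[X] κ] [IsScalarTower k k[X] κ] [IsFractionRing k[X] κ]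
    [Algebra κ F] [Algebra κ[X] F]
    [IsScalarTower κ κ[X] F] [IsFractionRing κ[X] F] [Algebra F Ω] [Algebra κ Ω]
    [IsScalarTower κ F Ω] [Algebra k Ω] [IsScalarTower k κ Ω] [IsGalois F Ω] [IsSepClosed Ω]
    (l e : ℕ) [Fact l.Prime] (he : 0 < e) (hl : (l : k) ≠ 0) (ζ : k)
    (hζ : IsPrimitiveRoot ζ (l ^ e)) {c : Gal(Ω/F) → Gal(Ω/F) → Ωˣ} (hc : BC c)
    (hN : BEq (fun σ τ => c σ τ ^ l ^ e) c1) :
    c ∈ SymSub (l ^ e) (algebraMap κ F (algebraMap k κ ζ)) Ω := by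
  have hN0 : 0 < l ^ e := pow_pos (Fact.out : l.Prime).pos e
  have hlκ : (l : κ) ≠ 0 := by
    intro h
    apply hl
    apply (algebraMap k κ).injective
    rw [map_natCast, map_zero]
    exact h
  have hζκ : IsPrimitiveRoot (algebraMap k κ ζ) (l ^ e) :=
    hζ.map_of_injective (algebraMap k κ).injective
  let io₁ : Ok κ Ω →ₐ[κ] AlgebraicClosure κ := IsAlgClosed.lift
  obtain ⟨c₀, hc₀, hc₀t, hc₀S⟩ := gen κ F io₁ l e he hlκ _ hζκ hc hN
  have : IsSepClosed (Ok κ Ω) := isSepClosed_Ok κ Ω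
  let io₂ : Ok k (Ok κ Ω) →ₐ[k] AlgebraicClosure k := IsAlgClosed.lift
  obtain ⟨c₃, hc₃, -, hc₃S⟩ := gen k κ io₂ l e he hl ζ hζ hc₀ hc₀t
  have h1 : BEq (pull k κ c₃) c1 := by
    rw [← pull_one k κ]
    exact pull_beq k κ (GenB_fin hc₃)
  have h2 : c₀ ∈ SymSub (l ^ e) (algebraMap k κ ζ) (Ok κ Ω) := by
    have e1 : c₀ = (fun σ τ => c₀ σ τ * (pull k κ c₃ σ τ)⁻¹) * pull k κ c₃ := by
      funext σ τ
      exact (inv_mul_cancel_right _ _).symm
    rw [e1]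
    exact Subgroup.mul_mem _ hc₃S (Subgroup.subset_closure (Or.inr h1))
  have h3 := pull_symSub κ F hN0 hζκ h2
  have e2 : c = (fun σ τ => c σ τ * (pull κ F c₀ σ τ)⁻¹) * pull κ F c₀ := by
    funext σ τ
    exact (inv_mul_cancel_right _ _).symm
  rw [e2]
  exact Subgroup.mul_mem _ hc₀S h3

end W42
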