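import Pool.Agent.W_42fc02_h90.BSym
import Pool.Agent.W_42fc02_h90.GenB

/-!
BExc (hand-in B, proofs row 475, EXC): if (a, f)_l = (f, a)_l = 1 for all f in F*, then a is an l-th
power in F = kappa(y), kappa = k(x).

Exc_norm (no l-divisible element x in a finite extension E of kappa): if for every n there is z in E
with z^(l^n) = x, take norms to kappa: v = norm z, v^(l^n) = x^d, d = [E : kappa]; v is integral over
k[X], so v comes from k[X] (integrally closed), and natDegree gives l^n * natDegree v = d for all n;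
n with l^n > d: contradiction to d > 0.

Exc_fix: z in KK (algebraic closure of kappa), z^l in kappa(theta) (l invertible, l-th roots of 1 in
kappa), gamma z = z for all gamma in Gal(KK/kappa) with gamma theta = theta: then z in kappa(theta).
(z is separable over kappa(theta): root of X^l - z^l, and fixed by all automorphisms of
KK / kappa(theta): the minimal polynomial has only one root.)

exc. Replace a by a * q^l to have a = image of a polynomial p in kappa[X] (symc_mul_left, psi of
l-th powers is 0; or prove the statement for polynomials first). UFD: if some monic irreducible P has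
multiplicity m in p with l not dividing m: theta in KK a root of P. Let f in kappa[X], f(theta) not 0,
phi^l = f in Omega, gb^l = f(theta), gamma theta = theta, gamma gb = zeta^n gb: symb_res (e = 1) gives
HasRes (symc l zeta a phi) gamma (mult_theta(p) n / l), and the symbol is trivial, so (HasRes.torsion
with N = 1, or HasRes.congr and unique) l divides mult_theta(p) n; mult_theta(p) = m * mult_theta(P)
is prime to l (GenB_mult), so l divides n and gamma gb = gb. So by Exc_fix every element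
of kappa(theta)* is an l-th power in kappa(theta) (every element is f(theta)); iterate from x:
contradiction to Exc_norm. Otherwise p = C a0 * r^l, a0 in kappa*; phi_a / r is an l-th root of a0;
psi of phi_a and of phi_a / r agree (r in F), so symc l zeta f phi_a = symc l zeta f phi0. f = X,
theta = 0: symb_res: gamma fixes a0^(1/l) for all gamma, so a0 = b0^l with b0 in kappa (Exc_fix).
-/

namespace W42

open Polynomial

theorem Exc_norm {k κ E : Type} [Field k] [Field κ] [Algebra k[X] κ] [IsFractionRing k[X] κ]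
    [Field E] [Algebra κ E] [FiniteDimensional κ E] (l : ℕ) (hl : l.Prime)
    (h : ∀ n : ℕ, ∃ z : E, z ^ l ^ n = algebraMap κ E (algebraMap k[X] κ X)) : False := by
  have hd : 0 < Module.finrank κ E := Module.finrank_pos
  set d := Module.finrank κ E with hd'
  obtain ⟨z, hz⟩ := h d
  have h1 : (Algebra.norm κ z) ^ l ^ d = algebraMap k[X] κ (X ^ d) := by
    rw [← map_pow, hz, Algebra.norm_algebraMap, map_pow]
  have hpos : 0 < l ^ d := pow_pos hl.pos d
  obtain ⟨p, hp⟩ : ∃ p : k[X], algebraMap k[X] κ p = Algebra.norm κ z := by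
    apply IsIntegrallyClosed.exists_algebraMap_eq_of_isIntegral_pow hpos
    rw [h1]
    exact isIntegral_algebraMap
  rw [← hp, ← map_pow] at h1
  have h2 : p ^ l ^ d = X ^ d := IsFractionRing.injective k[X] κ h1
  have h3 : l ^ d * p.natDegree = d := by
    rw [← natDegree_pow, h2, natDegree_X_pow]
  have h4 : d < l ^ d := Nat.lt_pow_self hl.one_lt
  have h5 : p.natDegree ≠ 0 := by
    intro h0
    rw [h0, mul_zero] at h3
    omega
  have h6 : l ^ d * 1 ≤ l ^ d * p.natDegree := Nat.mul_le_mul_left _ (Nat.pos_of_ne_zero h5)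
  omega

theorem Exc_fix {κ 𝕂 : Type} [Field κ] [Field 𝕂] [Algebra κ 𝕂] [IsAlgClosed 𝕂]
    [Algebra.IsAlgebraic κ 𝕂] (l : ℕ) (hl : (l : κ) ≠ 0) (θ z : 𝕂)
    (hz : z ^ l ∈ IntermediateField.adjoin κ {θ})
    (h : ∀ γ : Gal(𝕂/κ), γ θ = θ → γ z = z) : z ∈ IntermediateField.adjoin κ {θ} := by
  by_cases hz0 : z = 0
  · rw [hz0]
    exact zero_mem _
  have hl0 : l ≠ 0 := by
    rintro rfl
    exact hl Nat.cast_zero
  let E : IntermediateField κ 𝕂 := IntermediateField.adjoin κ {θ}
  have halg : Algebra.IsAlgebraic E 𝕂 := Algebra.IsAlgebraic.tower_top (K := κ) E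
  have hcl : IsAlgClosure E 𝕂 := ⟨inferInstance, halg⟩
  have hnorm : Normal E 𝕂 := IsAlgClosure.normal E 𝕂
  have hlE : (l : E) ≠ 0 := by
    intro h0
    apply hl
    apply (algebraMap κ E).injective
    rw [map_natCast, map_zero]
    exact h0
  let c : E := ⟨z ^ l, hz⟩
  have hc : c ≠ 0 := by
    intro h0
    have : z ^ l = 0 := congrArg (algebraMap E 𝕂) h0
    exact pow_ne_zero l hz0 this
  have hsep : IsSeparable E z := by
    have h1 : (X ^ l - C c : E[X]).Separable := separable_X_pow_sub_C c hlE hc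
    refine h1.of_dvd (minpoly.dvd E z ?_)
    rw [map_sub, map_pow, aeval_X, aeval_C]
    exact sub_self _
  by_contra hcon
  have h2 : z ∉ (⊥ : Subalgebra E 𝕂) := by
    intro h0
    obtain ⟨y, hy⟩ := Algebra.mem_bot.1 h0
    apply hcon
    rw [← hy]
    exact y.2
  rw [notMem_iff_exists_ne_and_isConjRoot hsep (hnorm.splits z)] at h2
  obtain ⟨y, hy, hyc⟩ := h2
  obtain ⟨σ, hσ⟩ := isConjRoot_iff_exists_algEquiv.1 hyc.symm
  apply hy
  have h3 : (σ.restrictScalars κ) θ = θ :=
    σ.commutes ⟨θ, IntermediateField.mem_adjoin_simple_self κ θ⟩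
  have h4 : (σ.restrictScalars κ) z = z := h _ h3
  rw [← hσ]
  exact h4.symm

section
variable {κ F Ω : Type} [Field κ] [Field F] [Field Ω] [Algebra κ F] [Algebra κ[X] F]
  [IsScalarTower κ κ[X] F] [IsFractionRing κ[X] F] [Algebra F Ω] [Algebra κ Ω]
  [IsScalarTower κ F Ω] [IsGalois F Ω] [IsSepClosed Ω]

omit [Algebra κ F] [Algebra κ[X] F] [IsScalarTower κ κ[X] F] [IsFractionRing κ[X] F] [Algebra κ Ω]
  [IsScalarTower κ F Ω] [IsGalois F Ω] [IsSepClosed Ω] [Field κ] in
/-- the Kummer character does not see factors from the ground field -/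
theorem Exc_psi {N : ℕ} (hN : 0 < N) {ζ : F} (hζ : IsPrimitiveRoot ζ N) {β : Ω} (hβ : IsRt N F β)
    (c : F) (hc : c ≠ 0) (σ : Gal(Ω/F)) : psi N ζ (β * algebraMap F Ω c) σ = psi N ζ β σ := by
  have hβ' : IsRt N F (β * algebraMap F Ω c) := by
    obtain ⟨b, hb, h⟩ := hβ
    exact ⟨b * c ^ N, mul_ne_zero hb (pow_ne_zero N hc), by rw [mul_pow, h, map_mul, map_pow]⟩
  have : NeZero N := ⟨hN.ne'⟩
  have h1 := psi_unique hN hζ hβ' σ (psi N ζ β σ).val (by
    rw [map_mul, AlgEquiv.commutes, psi_spec hN hζ hβ, mul_assoc])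
  rw [h1, ZMod.natCast_val, ZMod.cast_id]

omit [Algebra κ F] [Algebra κ[X] F] [IsScalarTower κ κ[X] F] [IsFractionRing κ[X] F] [Algebra κ Ω]
  [IsScalarTower κ F Ω] [IsGalois F Ω] [IsSepClosed Ω] [Field κ] in
theorem Exc_symc {N : ℕ} (hN : 0 < N) {ζ : F} (hζ : IsPrimitiveRoot ζ N) {β : Ω} (hβ : IsRt N F β)
    (c : F) (hc : c ≠ 0) (a : Fˣ) : symc N ζ a (β * algebraMap F Ω c) = symc N ζ a β := by
  funext σ τ
  unfold symc
  rw [Exc_psi hN hζ hβ c hc, Exc_psi hN hζ hβ c hc]

/-- if the symbol is trivial, the root of unity is trivial when the multiplicity is prime to l -/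
theorem Exc_res {𝕂 : Type} [Field 𝕂] [Algebra κ 𝕂] [IsAlgClosed 𝕂] [Algebra.IsAlgebraic κ 𝕂]
    (io : Ok κ Ω →ₐ[κ] 𝕂) (l : ℕ) (hlp : l.Prime) (hl : (l : κ) ≠ 0) (ζ : κ)
    (hζ : IsPrimitiveRoot ζ l) (f g : κ[X]) (hf : f ≠ 0) (a : Fˣ)
    (ha : (a : F) = algebraMap κ[X] F f) (θ : 𝕂) (hg : aeval θ g ≠ 0) (β : Ω)
    (hβ : β ^ l = algebraMap F Ω (algebraMap κ[X] F g)) (gb : 𝕂)
    (hgb : gb ^ l = aeval θ g)
    (hcop : Nat.Coprime l ((f.map (algebraMap κ 𝕂)).rootMultiplicity θ))
    (h1 : BEq (symc l (algebraMap κ F ζ) a β) c1) (γ : Gal(𝕂/κ)) (hγ : γ θ = θ) : γ gb = gb := by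
  have hfact : Fact l.Prime := ⟨hlp⟩
  have hfix : γ (aeval θ g) = aeval θ g := by
    have h1 : γ (aeval θ g) = aeval (γ θ) g :=
      (aeval_algHom_apply γ.toAlgHom θ g).symm
    rw [h1, hγ]
  obtain ⟨n, hn⟩ := GenB_root l hlp.pos ζ hζ hg hgb γ hfix
  have hres : HasRes κ F io θ (symc l (algebraMap κ F ζ) a β) γ
      ((f.map (algebraMap κ 𝕂)).rootMultiplicity θ * n / (l : ℚ)) := by
    have h2 := symb_res κ F io l 1 hl ζ (by rw [pow_one]; exact hζ) f g hf a ha θ hg β
      (by rw [pow_one]; exact hβ) gb (by rw [pow_one]; exact hgb) γ hγ n hn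
    simp only [pow_one] at h2
    exact h2
  have e1 : (fun σ τ : Gal(Ω/F) => symc l (algebraMap κ F ζ) a β σ τ ^ 1) =
      symc l (algebraMap κ F ζ) a β := by
    funext σ τ
    exact pow_one _
  obtain ⟨m, hm⟩ := hres.torsion hγ 1 (by rw [e1]; exact h1)
  have hl0 : (l : ℚ) ≠ 0 := by exact_mod_cast hlp.pos.ne'
  have hm2 : (((f.map (algebraMap κ 𝕂)).rootMultiplicity θ * n : ℕ) : ℤ) = l * m := by
    have : (((f.map (algebraMap κ 𝕂)).rootMultiplicity θ * n : ℕ) : ℚ) = l * m := by
      rw [← hm]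
      push_cast
      field_simp
    exact_mod_cast this
  have hdvd : l ∣ (f.map (algebraMap κ 𝕂)).rootMultiplicity θ * n :=
    Int.natCast_dvd_natCast.1 (Dvd.intro _ hm2.symm)
  obtain ⟨j, hj⟩ := hcop.dvd_of_dvd_mul_left hdvd
  rw [hn, hj, pow_mul, ← map_pow, hζ.pow_eq_one, map_one, one_pow, one_mul]

/-- the case of a polynomial -/
theorem Exc_poly {k : Type} [Field k] [Algebra k[X] κ] [IsFractionRing k[X] κ] (l : ℕ)
    (hl : l.Prime) (hlκ : (l : κ) ≠ 0) (ζ : κ)
    (hζ : IsPrimitiveRoot ζ l) (p : κ[X]) (hp : p ≠ 0) (a : Fˣ)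
    (ha : (a : F) = algebraMap κ[X] F p) (φa : Ω) (hφa : φa ^ l = algebraMap F Ω a)
    (h1 : ∀ φ : Ω, IsRt l F φ → BEq (symc l (algebraMap κ F ζ) a φ) c1)
    (h2 : ∀ f : Fˣ, BEq (symc l (algebraMap κ F ζ) f φa) c1) : ∃ b : F, b ^ l = a := by
  classical
  have hinjF : Function.Injective (algebraMap κ[X] F) := IsFractionRing.injective κ[X] F
  have hζF : IsPrimitiveRoot (algebraMap κ F ζ) l :=
    hζ.map_of_injective (algebraMap κ F).injective
  have hlF : (l : F) ≠ 0 := by
    intro h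
    apply hlκ
    apply (algebraMap κ F).injective
    rw [map_natCast, map_zero]
    exact h
  let 𝕂 : Type := AlgebraicClosure κ
  let io : Ok κ Ω →ₐ[κ] 𝕂 := IsAlgClosed.lift
  -- all multiplicities are divisible by l
  have hmult : ∀ P ∈ UniqueFactorizationMonoid.normalizedFactors p,
      l ∣ (UniqueFactorizationMonoid.normalizedFactors p).count P := by
    intro P hP
    have hirr : Irreducible P := UniqueFactorizationMonoid.irreducible_of_normalized_factor P hP
    have hmon : P.Monic := by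
      have h3 := UniqueFactorizationMonoid.normalize_normalized_factor P hP
      rw [← h3]
      exact monic_normalize hirr.ne_zero
    let ρ : MI κ := ⟨P, hmon, hirr⟩
    obtain ⟨θ, hθ⟩ : ∃ θ : 𝕂, aeval θ P = 0 :=
      IsAlgClosed.exists_aeval_eq_zero 𝕂 P (degree_pos_of_irreducible hirr).ne'
    set m := (UniqueFactorizationMonoid.normalizedFactors p).count P with hm
    by_contra hlm
    have hPm : ∃ r : κ[X], p = P ^ m * r ∧ ¬ P ∣ r := by
      have h3 : emultiplicity P p = m := by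
        rw [UniqueFactorizationMonoid.emultiplicity_eq_count_normalizedFactors hirr hp,
          hmon.normalize_eq_self]
      obtain ⟨h4, h5⟩ := emultiplicity_eq_coe.1 h3
      obtain ⟨r, hr⟩ := h4
      refine ⟨r, hr, ?_⟩
      rintro ⟨s, rfl⟩
      apply h5
      exact ⟨s, by rw [hr]; ring⟩
    obtain ⟨r, hr, hPr⟩ := hPm
    have hrθ : aeval θ r ≠ 0 := fun h => hPr (GenB_minpoly θ ρ hθ r h)
    have hcop : Nat.Coprime l ((p.map (algebraMap κ 𝕂)).rootMultiplicity θ) := by
      have hmap : (p.map (algebraMap κ 𝕂)) =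
          (P.map (algebraMap κ 𝕂)) ^ m * r.map (algebraMap κ 𝕂) := by
        rw [hr, Polynomial.map_mul, Polynomial.map_pow]
      have hne : (P.map (algebraMap κ 𝕂)) ^ m * r.map (algebraMap κ 𝕂) ≠ 0 := by
        rw [← hmap]
        exact Polynomial.map_ne_zero hp
      have h0 : (r.map (algebraMap κ 𝕂)).rootMultiplicity θ = 0 := by
        apply rootMultiplicity_eq_zero
        intro h
        apply hrθ
        rw [IsRoot.def, eval_map_algebraMap] at h
        exact h
      have hpow : ((P.map (algebraMap κ 𝕂)) ^ m).rootMultiplicity θ =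
          m * (P.map (algebraMap κ 𝕂)).rootMultiplicity θ := by
        rw [← count_roots, ← count_roots, roots_pow, Multiset.count_nsmul]
      rw [hmap, rootMultiplicity_mul hne, h0, add_zero, hpow]
      exact Nat.Coprime.mul_right ((Nat.Prime.coprime_iff_not_dvd hl).2 hlm)
        (GenB_mult (algebraMap κ 𝕂) θ ρ hθ l hl hlκ)
    -- every element of kappa(theta) is an l-th power
    have hpower : ∀ y : IntermediateField.adjoin κ {θ}, ∃ z : IntermediateField.adjoin κ {θ},
        z ^ l = y := by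
      intro y
      by_cases hy0 : y = 0
      · exact ⟨0, by rw [hy0, zero_pow hl.pos.ne']⟩
      have hy : (y : 𝕂) ∈ (aeval (R := κ) θ).range := by
        rw [← Algebra.adjoin_singleton_eq_range_aeval]
        rw [← IntermediateField.adjoin_simple_toSubalgebra_of_isAlgebraic
          (Algebra.IsAlgebraic.isAlgebraic θ)]
        exact y.2
      obtain ⟨g, hg⟩ := hy
      have hg' : aeval θ g = (y : 𝕂) := hg
      have hgne : aeval θ g ≠ 0 := by
        rw [hg']
        intro h
        exact hy0 (Subtype.ext h)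
      have hg0 : g ≠ 0 := by
        rintro rfl
        exact hgne (map_zero _)
      have hgF : algebraMap κ[X] F g ≠ 0 := by
        intro h
        exact hg0 (hinjF (h.trans (map_zero _).symm))
      obtain ⟨φ, hφ⟩ := exists_rt (Ω := Ω) l hlF (algebraMap κ[X] F g)
      obtain ⟨gb, hgb⟩ := IsAlgClosed.exists_pow_nat_eq (aeval θ g) hl.pos
      have h3 : gb ∈ IntermediateField.adjoin κ {θ} := by
        apply Exc_fix l hlκ θ gb
        · rw [hgb, hg']
          exact y.2
        · intro γ hγ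
          exact Exc_res io l hl hlκ ζ hζ p g hp a ha θ hgne φ hφ gb hgb hcop
            (h1 φ ⟨_, hgF, hφ⟩) γ hγ
      refine ⟨⟨gb, h3⟩, ?_⟩
      apply Subtype.ext
      show gb ^ l = (y : 𝕂)
      rw [hgb, hg']
    have hfd : FiniteDimensional κ (IntermediateField.adjoin κ {θ}) :=
      IntermediateField.adjoin.finiteDimensional (Algebra.IsIntegral.isIntegral θ)
    apply Exc_norm (k := k) (κ := κ) (E := IntermediateField.adjoin κ {θ}) l hl
    intro n
    induction n with
    | zero => exact ⟨_, by rw [pow_zero, pow_one]⟩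
    | succ n ih =>
      obtain ⟨z, hz⟩ := ih
      obtain ⟨w, hw⟩ := hpower z
      exact ⟨w, by rw [pow_succ, mul_comm, pow_mul, hw, hz]⟩
  obtain ⟨u, hu⟩ := Multiset.exists_smul_of_dvd_count _ hmult
  have hpr : C p.leadingCoeff * u.prod ^ l = p := by
    rw [← Multiset.prod_nsmul, ← hu]
    exact leadingCoeff_mul_prod_normalizedFactors p
  set a0 := p.leadingCoeff with ha0
  have ha00 : a0 ≠ 0 := leadingCoeff_ne_zero.2 hp
  set r := u.prod with hr
  have hr0 : r ≠ 0 := by
    intro h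
    rw [h, zero_pow hl.pos.ne', mul_zero] at hpr
    exact hp hpr.symm
  have hrF : algebraMap κ[X] F r ≠ 0 := by
    intro h
    exact hr0 (hinjF (h.trans (map_zero _).symm))
  have hrΩ : algebraMap F Ω (algebraMap κ[X] F r) ≠ 0 := by
    intro h
    exact hrF ((map_eq_zero _).1 h)
  -- the root of a0
  set φ0 : Ω := φa / algebraMap F Ω (algebraMap κ[X] F r) with hφ0
  have hφ0l : φ0 ^ l = algebraMap F Ω (algebraMap κ[X] F (C a0)) := by
    rw [hφ0, div_pow, hφa, ha, ← hpr, map_mul, map_mul, map_pow, map_pow, mul_div_assoc,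
      div_self (pow_ne_zero l hrΩ), mul_one]
  have hCF : algebraMap κ[X] F (C a0) ≠ 0 := by
    intro h
    exact (C_ne_zero.2 ha00) (hinjF (h.trans (map_zero _).symm))
  have hφ0rt : IsRt l F φ0 := ⟨_, hCF, hφ0l⟩
  have hφaeq : φa = φ0 * algebraMap F Ω (algebraMap κ[X] F r) := by
    rw [hφ0, div_mul_cancel₀ _ hrΩ]
  have hXF : algebraMap κ[X] F X ≠ 0 := by
    intro h
    exact X_ne_zero (hinjF (h.trans (map_zero _).symm))
  obtain ⟨gb, hgb⟩ := IsAlgClosed.exists_pow_nat_eq (algebraMap κ 𝕂 a0) hl.pos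
  have haC : aeval (0 : 𝕂) (C a0) = algebraMap κ 𝕂 a0 := aeval_C _ _
  have h3 : gb ∈ IntermediateField.adjoin κ {(0 : 𝕂)} := by
    apply Exc_fix l hlκ 0 gb
    · rw [hgb]
      exact IntermediateField.algebraMap_mem _ _
    · intro γ hγ
      have h4 := h2 (Units.mk0 _ hXF)
      rw [hφaeq, Exc_symc hl.pos hζF hφ0rt _ hrF] at h4
      refine Exc_res io l hl hlκ ζ hζ X (C a0) X_ne_zero (Units.mk0 _ hXF) rfl 0 ?_ φ0 hφ0l gb
        ?_ ?_ h4 γ hγ
      · rw [haC]
        intro h
        exact ha00 ((map_eq_zero _).1 h)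
      · rw [haC, hgb]
      · rw [Polynomial.map_X]
        have h5 : (X : 𝕂[X]).rootMultiplicity 0 = 1 := by
          have h6 := rootMultiplicity_X_sub_C_self (x := (0 : 𝕂))
          rwa [C_0, sub_zero] at h6
        rw [h5]
        exact Nat.coprime_one_right l
  rw [IntermediateField.adjoin_zero] at h3
  obtain ⟨b0, hb0⟩ := IntermediateField.mem_bot.1 h3
  have hb0l : b0 ^ l = a0 := by
    apply (algebraMap κ 𝕂).injective
    rw [map_pow, hb0, hgb]
  refine ⟨algebraMap κ[X] F (C b0 * r), ?_⟩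
  rw [ha, ← map_pow, mul_pow, ← C_pow, hb0l, hpr]

end

theorem exc (k κ F : Type) {Ω : Type} [Field k] [Field κ] [Field F] [Field Ω]
    [Algebra k[X] κ] [IsFractionRing k[X] κ] [Algebra κ F] [Algebra κ[X] F]
    [IsScalarTower κ κ[X] F] [IsFractionRing κ[X] F] [Algebra F Ω]
    [IsGalois F Ω] [IsSepClosed Ω] (l : ℕ) (hl : l.Prime) (hlκ : (l : κ) ≠ 0) (ζ : κ)
    (hζ : IsPrimitiveRoot ζ l) (a : Fˣ) (φa : Ω) (hφa : φa ^ l = algebraMap F Ω a)
    (h1 : ∀ φ : Ω, IsRt l F φ → BEq (symc l (algebraMap κ F ζ) a φ) c1)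
    (h2 : ∀ f : Fˣ, BEq (symc l (algebraMap κ F ζ) f φa) c1) : ∃ b : F, b ^ l = a := by
  letI : Algebra κ Ω := ((algebraMap F Ω).comp (algebraMap κ F)).toAlgebra
  have : IsScalarTower κ F Ω := IsScalarTower.of_algebraMap_eq' rfl
  have hζF : IsPrimitiveRoot (algebraMap κ F ζ) l :=
    hζ.map_of_injective (algebraMap κ F).injective
  have hinjF : Function.Injective (algebraMap κ[X] F) := IsFractionRing.injective κ[X] F
  obtain ⟨p, q, hq, hpq⟩ := IsFractionRing.div_surjective (A := κ[X]) (a : F)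
  have hq0 : q ≠ 0 := nonZeroDivisors.ne_zero hq
  have hqF : algebraMap κ[X] F q ≠ 0 := by
    intro h
    exact hq0 (hinjF (h.trans (map_zero _).symm))
  have hp0 : p ≠ 0 := by
    rintro rfl
    rw [map_zero, zero_div] at hpq
    exact a.ne_zero hpq.symm
  set qu : Fˣ := Units.mk0 _ hqF with hqu
  have hpu : (p * q ^ (l - 1)) ≠ 0 := mul_ne_zero hp0 (pow_ne_zero _ hq0)
  have hl1 : q ^ l = q ^ (l - 1) * q := by
    rw [← pow_succ, Nat.sub_add_cancel hl.one_le]
  have ha' : ((a * qu ^ l : Fˣ) : F) = algebraMap κ[X] F (p * q ^ (l - 1)) := by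
    rw [Units.val_mul, Units.val_pow_eq_pow_val, ← hpq, hqu, Units.val_mk0, ← map_pow, hl1,
      map_mul, map_mul]
    field_simp
  have hφart : IsRt l F φa := ⟨a, a.ne_zero, hφa⟩
  obtain ⟨b, hb⟩ := Exc_poly (k := k) (Ω := Ω) l hl hlκ ζ hζ (p * q ^ (l - 1)) hpu (a * qu ^ l) ha'
    (φa * algebraMap F Ω (algebraMap κ[X] F q)) (by
      rw [mul_pow, hφa, Units.val_mul, Units.val_pow_eq_pow_val, map_mul, map_pow]
      rfl) (by
      intro φ hφ
      rw [symc_mul_left]
      have h3 := h1 φ hφ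
      have h4 : ∀ n : ℕ, symc l (algebraMap κ F ζ) (qu ^ n) φ =
          fun σ τ => symc l (algebraMap κ F ζ) qu φ σ τ ^ n := by
        intro n
        funext σ τ
        unfold symc
        rw [map_pow, ← pow_mul, ← pow_mul, mul_comm]
      have h5 := symc_torsion hl.pos hζF hφ qu
      rw [h4 l]
      have h6 := h3.mul h5
      have e2 : (fun σ τ : Gal(Ω/F) => (c1 σ τ * c1 σ τ : Ωˣ)) = c1 := by
        funext σ τ
        exact mul_one _
      rw [e2] at h6
      exact h6) (by
      intro f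
      rw [Exc_symc hl.pos hζF hφart _ hqF]
      exact h2 f)
  refine ⟨b / algebraMap κ[X] F q, ?_⟩
  rw [div_pow, hb, Units.val_mul, Units.val_pow_eq_pow_val]
  exact mul_div_cancel_right₀ _ (pow_ne_zero l hqF)

end W42
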