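import Pool.Agent.W_42fc02_h90.ExpD

/-!
BExp: the exponent theorem (ExpC, ExpD) with an abstract local hypothesis.
LocEx kappa F KK E c: E times every residue of c is an integer (fibration F = kappa(y)).
exp_zero_gen: if c is l-primary and LocEx holds for both fibrations of F = k(x,y), k finite, then
c^E = 1 in Br(F).
-/

namespace W42

open Polynomial

section
variable (κ F : Type) {Ω : Type} [Field κ] [Field F] [Field Ω] [Algebra κ F] [Algebra κ[X] F]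
  [IsScalarTower κ κ[X] F] [IsFractionRing κ[X] F] [Algebra F Ω] [Algebra κ Ω]
  [IsScalarTower κ F Ω]

/-- E kills the residues of c at all points of the fibration -/
def LocEx (𝕂 : Type) [Field 𝕂] [Algebra κ 𝕂] (E : ℕ) (c : Gal(Ω/F) → Gal(Ω/F) → Ωˣ) : Prop :=
  ∀ (kp : IntermediateField κ Ω) (_ : FiniteDimensional κ kp) (_ : Normal κ kp)
    (i : kp →ₐ[κ] 𝕂) (c' : Gal(kp/κ) → Gal(kp/κ) → (RF kp)ˣ), IsC2 c' →
    BEq c (inflR κ F kp c') → ∀ (θ : 𝕂) (γ : Gal(𝕂/κ)), γ θ = θ → ∀ d : Gal(kp/κ),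
      (∀ z, i (d z) = γ (i z)) → ∃ n : ℤ, (E : ℚ) * xiR (i : kp →+* 𝕂) θ c' d = n

variable [IsGalois F Ω] [IsSepClosed Ω]

theorem exp_second_gen {𝕂 : Type} [Field 𝕂] [Algebra κ 𝕂] [IsAlgClosed 𝕂]
    [Algebra.IsAlgebraic κ 𝕂] (l : ℕ) (hl : l.Prime) (hlκ : (l : κ) ≠ 0) (E s : ℕ)
    {c : Gal(Ω/F) → Gal(Ω/F) → Ωˣ} (hc : BC c) (hs1 : BEq (fun σ τ => c σ τ ^ l ^ s) c1)
    (hE : LocEx κ F 𝕂 E c) :
    ∃ (kp : IntermediateField κ Ω) (_ : FiniteDimensional κ kp) (_ : IsGalois κ kp)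
      (c' : Gal(kp/κ) → Gal(kp/κ) → (RF kp)ˣ), IsC2 c' ∧
        BEq (fun σ τ => c σ τ ^ E) (inflR κ F kp c') ∧
        ∀ (i : kp →ₐ[κ] 𝕂) (θ : 𝕂) (γ : Gal(𝕂/κ)), γ θ = θ → ∀ d : Gal(kp/κ),
          (∀ z, i (d z) = γ (i z)) → ∃ n : ℤ, xiR (i : kp →+* 𝕂) θ c' d = n := by
  haveI : Fact l.Prime := ⟨hl⟩
  obtain ⟨kp, hfd, hgal, c', hc', h⟩ := tsen κ F l hlκ hc s hs1
  refine ⟨kp, hfd, hgal, fun g j => c' g j ^ E, hc'.pow E, ExpC_pow κ F kp _ h, ?_⟩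
  intro i θ γ hγ d hd
  obtain ⟨n, hn⟩ := hE kp inferInstance inferInstance i c' hc' h θ γ hγ d hd
  exact ⟨n, by rw [xiR_pow, hn]⟩

theorem exp_const_gen {𝕂 : Type} [Field 𝕂] [Algebra κ 𝕂] [IsAlgClosed 𝕂]
    [Algebra.IsAlgebraic κ 𝕂] (l : ℕ) (hl : l.Prime) (hlκ : (l : κ) ≠ 0) (E s : ℕ)
    {c : Gal(Ω/F) → Gal(Ω/F) → Ωˣ} (hc : BC c) (hs1 : BEq (fun σ τ => c σ τ ^ l ^ s) c1)
    (hE : LocEx κ F 𝕂 E c) :
    ∃ (kp : IntermediateField κ Ω) (_ : FiniteDimensional κ kp) (_ : IsGalois κ kp)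
      (c₂ : Gal(kp/κ) → Gal(kp/κ) → kpˣ), IsC2 c₂ ∧
        BEq (fun σ τ => c σ τ ^ E) (inflC κ F kp c₂) := by
  obtain ⟨kp, hfd, hgal, c', hc', h, hx⟩ :=
    exp_second_gen κ F (𝕂 := 𝕂) l hl hlκ E s hc hs1 hE
  have i : kp →ₐ[κ] 𝕂 := IsAlgClosed.lift
  have h1 : (c1 : Gal(Ω/F) → Gal(Ω/F) → Ωˣ) = inflR κ F kp (fun _ _ => 1) := by
    funext σ τ
    unfold c1 inflR
    rw [map_one]
  have h2 : BEq (inflR κ F kp (fun g j => c' g j ^ l ^ s)) (inflR κ F kp (fun _ _ => 1)) := by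
    refine (ExpC_pow κ F kp (l ^ s) h).symm.trans ?_
    rw [← h1]
    have h3 := hs1.pow E
    have h4 : (fun σ τ => (c1 : Gal(Ω/F) → Gal(Ω/F) → Ωˣ) σ τ ^ E) = c1 := by
      funext σ τ
      unfold c1
      rw [one_pow]
    have h5 : (fun σ τ => (c σ τ ^ E) ^ l ^ s) = fun σ τ => (c σ τ ^ l ^ s) ^ E := by
      funext σ τ
      rw [← pow_mul, ← pow_mul, mul_comm]
    rw [h4] at h3
    rw [h5]
    exact h3
  obtain ⟨b, hb⟩ := exists_dB_of_beq_inflR κ F kp (hc'.pow (l ^ s)) isC2_one h2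
  obtain ⟨c₀, b', hc₀, hb'⟩ := faddeev_of_xiR i l hl hlκ hc' s b
    (fun g j => (hb g j).trans (one_mul _)) (hx i)
  refine ⟨kp, hfd, hgal, c₀, hc₀, h.trans ?_⟩
  rw [inflC_eq_inflR]
  exact beq_inflR_of_dB κ F kp b' hb'

end

section
variable (k κ₁ κ₂ F : Type) {Ω : Type} [Field k] [Field κ₁] [Field κ₂] [Field F] [Field Ω]
  [Algebra k κ₁] [Algebra k[X] κ₁] [IsScalarTower k k[X] κ₁] [IsFractionRing k[X] κ₁]
  [Algebra κ₁ F] [Algebra κ₁[X] F] [IsScalarTower κ₁ κ₁[X] F] [IsFractionRing κ₁[X] F]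
  [Algebra k κ₂] [Algebra k[X] κ₂] [IsScalarTower k k[X] κ₂] [IsFractionRing k[X] κ₂]
  [Algebra κ₂ F] [Algebra κ₂[X] F] [IsScalarTower κ₂ κ₂[X] F] [IsFractionRing κ₂[X] F]
  [Algebra F Ω] [Algebra κ₁ Ω] [IsScalarTower κ₁ F Ω] [Algebra κ₂ Ω] [IsScalarTower κ₂ F Ω]
  [Algebra k Ω] [IsScalarTower k κ₁ Ω] [IsScalarTower k κ₂ Ω] [IsGalois F Ω] [IsSepClosed Ω]

theorem exp_zero_gen [Finite k] {𝕂₁ 𝕂₂ : Type} [Field 𝕂₁] [Algebra κ₁ 𝕂₁] [IsAlgClosed 𝕂₁]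
    [Algebra.IsAlgebraic κ₁ 𝕂₁] [Field 𝕂₂] [Algebra κ₂ 𝕂₂] [IsAlgClosed 𝕂₂]
    [Algebra.IsAlgebraic κ₂ 𝕂₂]
    (hx : algebraMap κ₁ F (algebraMap k[X] κ₁ X) = algebraMap κ₂[X] F X)
    (hy : algebraMap κ₂ F (algebraMap k[X] κ₂ X) = algebraMap κ₁[X] F X)
    (l : ℕ) (hl : l.Prime) (hlk : (l : k) ≠ 0) (E s : ℕ)
    {c : Gal(Ω/F) → Gal(Ω/F) → Ωˣ} (hc : BC c) (hs1 : BEq (fun σ τ => c σ τ ^ l ^ s) c1)
    (hE₁ : LocEx κ₁ F 𝕂₁ E c) (hE₂ : LocEx κ₂ F 𝕂₂ E c) :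
    BEq (fun σ τ => c σ τ ^ E) c1 := by
  haveI hfl : Fact l.Prime := ⟨hl⟩
  have hk₁ : ∀ n : ℕ, (n : k) ≠ 0 → (n : κ₁) ≠ 0 := by
    intro n hn h
    apply hn
    apply (algebraMap k κ₁).injective
    rw [map_natCast, map_zero]
    exact h
  have hk₂ : ∀ n : ℕ, (n : k) ≠ 0 → (n : κ₂) ≠ 0 := by
    intro n hn h
    apply hn
    apply (algebraMap k κ₂).injective
    rw [map_natCast, map_zero]
    exact h
  -- first fibration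
  obtain ⟨kp, hkf, hkg, c₂, hc₂, hcc⟩ := exp_const_gen κ₁ F (𝕂 := 𝕂₁) l hl (hk₁ l hlk) E s
    hc hs1 hE₁
  obtain ⟨c₂', hc₂', hpull, hpb⟩ := exists_pull κ₁ F kp hc₂
  have h1 : BEq (inflC κ₁ F kp (fun g h => c₂ g h ^ l ^ s)) c1 := by
    rw [ExpD_inflC_pow]
    refine (hcc.symm.pow (l ^ s)).trans ?_
    have h2 := hs1.pow E
    rw [ExpD_one_pow] at h2
    have h3 : (fun σ τ => (fun σ τ => (c σ τ ^ E)) σ τ ^ l ^ s) =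
        fun σ τ => (fun σ τ => c σ τ ^ l ^ s) σ τ ^ E := by
      funext σ τ
      beta_reduce
      rw [← pow_mul, ← pow_mul, mul_comm]
    rw [h3]
    exact h2
  obtain ⟨b₂, hb₂⟩ := exists_dB_of_beq_inflC κ₁ F kp (hc₂.pow (l ^ s)) h1
  have h4 := hpb (l ^ s) b₂ hb₂
  -- Tsen over k
  haveI : IsSepClosed (Ok κ₁ Ω) := isSepClosed_Ok κ₁ Ω
  obtain ⟨kq, hqf, hqg, c₃, hc₃, hcc₃⟩ := tsen k κ₁ l hlk hc₂' s h4
  have h5 : BEq (inflR k κ₁ kq (fun g h => c₃ g h ^ l ^ s)) (inflR k κ₁ kq (fun _ _ => 1)) := by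
    rw [ExpD_inflR_pow, ExpD_inflR_one]
    exact (hcc₃.symm.pow (l ^ s)).trans h4
  obtain ⟨b₃, hb₃⟩ := exists_dB_of_beq_inflR k κ₁ kq (hc₃.pow (l ^ s)) isC2_one h5
  have h6 : BEq (fun σ τ => c σ τ ^ E) (pull κ₁ F (inflR k κ₁ kq c₃)) := by
    refine hcc.trans ?_
    rw [← hpull]
    exact pull_beq κ₁ F hcc₃
  -- second fibration
  obtain ⟨kr, hrf, hrg, c', hc', hcc', hint⟩ := exp_second_gen κ₂ F (𝕂 := 𝕂₂) l hl (hk₂ l hlk) E s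
    hc hs1 hE₂
  obtain ⟨c₀, b, hc₀, hb⟩ := second_const k κ₁ κ₂ F hx hy l hl hlk kq hc₃ s b₃
    (fun g h => by rw [hb₃ g h, one_mul]) kr hc' (h6.symm.trans hcc') hint
  obtain ⟨b₀, hb₀⟩ := finite_h2 hc₀
  have h7 : BEq (inflR k κ₁ kq c₃) c1 := by
    rw [← ExpD_inflR_one k κ₁ kq]
    refine beq_inflR_of_dB k κ₁ kq
      (fun g => Units.map (cF kq : kq →* RF kq) (b₀ g) * b g) fun g h => ?_
    rw [dB_mul, ← ExpD_const, ← hb₀, ← hb, one_mul]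
  refine h6.trans ?_
  rw [← pull_one κ₁ F]
  exact pull_beq κ₁ F h7

end

end W42
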