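import Pool.Agent.W_42fc02_h90.BDef
import Pool.Agent.W_42fc02_h90.BExc

/-!
BKum (hand-in B, proofs row 475, N0): Kummer reduction. K as in NegHyp, N = l^j.

kum_chi: M / F finite Galois with commutative group (inside Omega), m > 0 with mu_m in F, g in
Gal(M/F) not an m-th power: there is alpha in M, alpha not 0, alpha^m in F, g alpha not alpha.
Proof: the quotient Q of the finite commutative group Gal(M/F) by the subgroup of m-th powers has
exponent dividing m, the class of g is not 1; so a homomorphism chi : Gal(M/F) -> mu_m(F) with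
chi g not 1 (CommGroup.exists_apply_ne_one_of_hasEnoughRootsOfUnity, HasEnoughRootsOfUnity F m).
Hilbert 90 (groupCohomology.isMulCoboundary₁_of_isMulCocycle₁_of_aut_to_units, as in GalC or CsaB):
alpha with g' alpha = chi(g') alpha for all g'; alpha^m is fixed, so it is in F.

kum_red. c is split by a finite M in K (Spl.exists_finite); M is normal (all subextensions of an
abelian extension are normal: K normal, comm). G = Gal(M/F) is commutative. Let R = {alpha in M, alpha
not 0, alpha^N in F} and M_N = F(R). By kum_chi the image of Gal(Omega/M_N) in G is the subgroup G^N of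
N-th powers (N-th powers fix R: h alpha = zeta' alpha, zeta'^N = 1, zeta' in F).
Claim: l does not divide |G^N|. Otherwise G^(l N) is not all of G^N (x -> x^l on G^N is not injective by
Cauchy, so not surjective), take h with h^N not in G^(l N); kum_chi with m = l N = l^(j+1)
(mu_m in F: l^(j+1) divides l^j l^j because j >= 1): alpha in M, alpha^m = a in F, (h^N) alpha not alpha.
a is not an l-th power in F: a = b^l would give (alpha^N)^l = b^l, alpha^N = zeta' b in F, so
h alpha = eta alpha with eta^N = 1, eta in F and (h^N) alpha = eta^N alpha = alpha. On the other hand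
for f in F*: symc m zeta_m a f^(1/m) is split by K (symc_spl_left), symc m zeta_m f alpha is split
by K (symc_spl_right); they are killed by m = l^(j+1) (symc_torsion), so by NegHyp.br their
l^j-th power is trivial, and symc_level (N := l, M := l^j): (symc m)^(l^j) = symc l (zeta_m^(l^j)) a
(f^(1/m))^(l^j), so all (a, f)_l, (f, a)_l are trivial (symc_root for the choice of the root), exc:
contradiction.
So r = |G^N| is prime to l; c^r is split by M_N (spl_pow_of_spl; the relative index is |G^N|), c^N ~ 1,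
spl_of_coprime: c is split by M_N. M_N is finite, so M_N = F(finitely many elements of R)
(IntermediateField: finite dimensional and adjoin of a set; or choose R finite from the start: R
modulo F* is finite, or Spl.exists_finite again).
-/

namespace W42

open Polynomial

theorem BKum_mem_bot {F Ω : Type} [Field F] [Field Ω] [Algebra F Ω] [IsGalois F Ω]
    (M : IntermediateField F Ω) [FiniteDimensional F M] [Normal F M] (x : M)
    (h : ∀ g : Gal(M/F), g x = x) : ∃ a : F, x = algebraMap F M a := by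
  have : IsGalois F M := ⟨⟩
  have h1 := (IsGalois.mem_range_algebraMap_iff_fixed (F := F) (E := M) x).2 h
  obtain ⟨a, ha⟩ := h1
  exact ⟨a, ha.symm⟩

theorem BKum_char {G F : Type} [Group G] [Finite G] [Field F] (hcomm : ∀ g g' : G, g * g' = g' * g)
    (m : ℕ) (hm : 0 < m) {ζ : F} (hζ : IsPrimitiveRoot ζ m) (g : G) (hg : ∀ h : G, h ^ m ≠ g) :
    ∃ ψ : G →* Fˣ, ψ g ≠ 1 ∧ ∀ x, ψ x ^ m = 1 := by
  let _ : CommGroup G := { (inferInstance : Group G) with mul_comm := hcomm }
  have hmz : NeZero m := ⟨hm.ne'⟩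
  let H : Subgroup G := (powMonoidHom m : G →* G).range
  have hfin : Finite (G ⧸ H) := inferInstance
  have hexp : ∀ q : G ⧸ H, q ^ m = 1 := by
    intro q
    induction q using QuotientGroup.induction_on with
    | H x =>
      rw [← QuotientGroup.mk_pow, QuotientGroup.eq_one_iff]
      exact ⟨x, rfl⟩
  have hdvd : Monoid.exponent (G ⧸ H) ∣ m :=
    Monoid.exponent_dvd_of_forall_pow_eq_one hexp
  have : HasEnoughRootsOfUnity F m := ⟨⟨ζ, hζ⟩, inferInstance⟩
  have : HasEnoughRootsOfUnity F (Monoid.exponent (G ⧸ H)) :=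
    HasEnoughRootsOfUnity.of_dvd F hdvd
  have hne : (QuotientGroup.mk g : G ⧸ H) ≠ 1 := by
    rw [Ne, QuotientGroup.eq_one_iff]
    rintro ⟨x, hx⟩
    exact hg x hx
  obtain ⟨χ, hχ⟩ := CommGroup.exists_apply_ne_one_of_hasEnoughRootsOfUnity (G ⧸ H) F hne
  refine ⟨χ.comp (QuotientGroup.mk' H), hχ, ?_⟩
  intro x
  rw [← map_pow]
  show χ (QuotientGroup.mk (x ^ m)) = 1
  rw [QuotientGroup.mk_pow, hexp, map_one]

theorem kum_chi {F Ω : Type} [Field F] [Field Ω] [Algebra F Ω] [IsGalois F Ω]
    (M : IntermediateField F Ω) [FiniteDimensional F M] [Normal F M]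
    (hcomm : ∀ g g' : Gal(M/F), g * g' = g' * g) (m : ℕ) (hm : 0 < m) {ζ : F}
    (hζ : IsPrimitiveRoot ζ m) (g : Gal(M/F)) (hg : ∀ h : Gal(M/F), h ^ m ≠ g) :
    ∃ α : M, α ≠ 0 ∧ (∃ a : F, α ^ m = algebraMap F M a) ∧ g α ≠ α := by
  obtain ⟨ψ, hψg, hψm⟩ := BKum_char hcomm m hm hζ g hg
  let f : Gal(M/F) → Mˣ := fun x => Units.map (algebraMap F M : F →* M) (ψ x)
  have hfix : ∀ (y : Gal(M/F)) (x : Gal(M/F)), y • f x = f x := by
    intro y x
    apply Units.ext
    exact y.commutes _
  obtain ⟨z, hz⟩ := h1z_units M ⊤ f (by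
    intro n _ k _
    rw [hfix]
    show Units.map _ (ψ (n * k)) = Units.map _ (ψ n) * Units.map _ (ψ k)
    rw [map_mul, map_mul])
  have hzz : ∀ x : Gal(M/F), x (z : M) = algebraMap F M (ψ x : F) * (z : M) := by
    intro x
    have h1 := hz x trivial
    have h2 : x • z = f x * z := by rw [h1, div_mul_cancel]
    have h3 := congrArg (fun u : Mˣ => (u : M)) h2
    exact h3
  refine ⟨z, z.ne_zero, ?_, ?_⟩
  · refine BKum_mem_bot M _ fun x => ?_
    rw [map_pow, hzz, mul_pow, ← map_pow, ← Units.val_pow_eq_pow_val, hψm, Units.val_one, map_one,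
      one_mul]
  · rw [hzz]
    intro h
    apply hψg
    apply Units.ext
    have h1 : algebraMap F M (ψ g : F) = 1 := by
      have h2 := mul_right_cancel₀ z.ne_zero (h.trans (one_mul (z : M)).symm)
      exact h2
    rw [← map_one (algebraMap F M)] at h1
    exact (algebraMap F M).injective h1

theorem BKum_normal {F Ω : Type} [Field F] [Field Ω] [Algebra F Ω] [IsGalois F Ω]
    {K M : IntermediateField F Ω} (hMK : M ≤ K)
    (comm : ∀ g g' : Gal(Ω/F), ∀ z ∈ K, g (g' z) = g' (g z)) : Normal F M := by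
  rw [IntermediateField.normal_iff_forall_map_le']
  intro σ
  rintro _ ⟨z, hz, rfl⟩
  apply GalC_mem_of_fixed M
  intro τ hτ
  show τ (σ z) = σ z
  rw [comm τ σ z (hMK hz), (IntermediateField.mem_fixingSubgroup_iff M τ).1 hτ z hz]

theorem BKum_comm {F Ω : Type} [Field F] [Field Ω] [Algebra F Ω] [IsGalois F Ω]
    {K M : IntermediateField F Ω} [Normal F M] (hMK : M ≤ K)
    (comm : ∀ g g' : Gal(Ω/F), ∀ z ∈ K, g (g' z) = g' (g z)) (g g' : Gal(M/F)) :
    g * g' = g' * g := by
  obtain ⟨σ, rfl⟩ := GalB_surj M g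
  obtain ⟨τ, rfl⟩ := GalB_surj M g'
  rw [← map_mul, ← map_mul]
  apply GalB_res_eq
  intro z hz
  exact comm σ τ z (hMK hz)

theorem BKum_grp {G : Type} [Group G] [Finite G] (hcomm : ∀ g g' : G, g * g' = g' * g)
    (l N : ℕ) (hl : l.Prime) (T : Subgroup G)
    (hT : ∀ t ∈ T, ∃ h : G, h ^ N = t) (hd : l ∣ Nat.card T) :
    ∃ h : G, ∀ h' : G, h' ^ (l * N) ≠ h ^ N := by
  let _ : CommGroup G := { (inferInstance : Group G) with mul_comm := hcomm }
  by_contra hcon
  push Not at hcon
  let P : Subgroup G := (powMonoidHom N : G →* G).range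
  have hTP : T ≤ P := fun t ht => by
    obtain ⟨h, hh⟩ := hT t ht
    exact ⟨h, hh⟩
  have hdP : l ∣ Nat.card P := hd.trans (Subgroup.card_dvd_of_le hTP)
  have : Fact l.Prime := ⟨hl⟩
  obtain ⟨x, hx⟩ := exists_prime_orderOf_dvd_card' l hdP
  have hsurj : Function.Surjective (fun y : P => y ^ l) := by
    rintro ⟨_, ⟨h, rfl⟩⟩
    obtain ⟨h', hh'⟩ := hcon h
    refine ⟨⟨h' ^ N, ⟨h', rfl⟩⟩, ?_⟩
    apply Subtype.ext
    show (h' ^ N) ^ l = h ^ N
    rw [← pow_mul, mul_comm, hh']
  have hinj := Finite.injective_iff_surjective.2 hsurj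
  have h1 : x = 1 := hinj (by
    show x ^ l = 1 ^ l
    rw [← hx, pow_orderOf_eq_one, one_pow])
  rw [h1, orderOf_one] at hx
  exact hl.one_lt.ne hx

theorem BKum_card {F Ω : Type} [Field F] [Field Ω] [Algebra F Ω] [IsGalois F Ω]
    (M E : IntermediateField F Ω) [FiniteDimensional F M] [Normal F M] (hEM : E ≤ M) :
    M.fixingSubgroup.relIndex E.fixingSubgroup = Nat.card (imSub M E) := by
  have hker : (AlgEquiv.restrictNormalHom (F := F) (K₁ := Ω) M).ker = M.fixingSubgroup :=
    IntermediateField.restrictNormalHom_ker M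
  have hb : imSub M M = ⊥ := by
    unfold imSub
    rw [← hker]
    exact (Subgroup.map_eq_bot_iff _).2 le_rfl
  rw [← Subgroup.relIndex_bot_left, ← hb]
  unfold imSub
  rw [Subgroup.relIndex_map_map, hker, sup_idem,
    sup_eq_left.2 (IntermediateField.fixingSubgroup_antitone hEM)]

/-- a finite extension generated by a set R of elements is generated by a finite subset -/
theorem BKum_finset {F Ω : Type} [Field F] [Field Ω] [Algebra F Ω]
    (R : Set Ω) [FiniteDimensional F (IntermediateField.adjoin F R)] :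
    ∃ S : Finset Ω, (S : Set Ω) ⊆ R ∧
      IntermediateField.adjoin F R ≤ IntermediateField.adjoin F (S : Set Ω) := by
  classical
  obtain ⟨T, hT⟩ : (IntermediateField.adjoin F R).FG :=
    IntermediateField.essFiniteType_iff.1 inferInstance
  have h1 : ∀ x ∈ T, ∃ S : Finset Ω, (S : Set Ω) ⊆ R ∧
      x ∈ IntermediateField.adjoin F (S : Set Ω) := by
    intro x hx
    have hxE : x ∈ IntermediateField.adjoin F R := by
      rw [← hT]
      exact IntermediateField.subset_adjoin F _ hx
    exact IntermediateField.exists_finset_of_mem_adjoin hxE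
  choose! S hS hS2 using h1
  refine ⟨T.biUnion S, ?_, ?_⟩
  · intro x hx
    obtain ⟨t, ht, hx2⟩ := Finset.mem_biUnion.1 (Finset.mem_coe.1 hx)
    exact hS t ht hx2
  · rw [← hT, IntermediateField.adjoin_le_iff]
    intro x hx
    exact IntermediateField.adjoin.mono F _ _
      (fun n hn => Finset.mem_coe.2 (Finset.mem_biUnion.2 ⟨x, hx, hn⟩)) (hS2 x hx)

/-- root of unity factor -/
theorem BKum_root {E : Type} [Field E] {n : ℕ} (hn : 0 < n) {ω : E} (hω : IsPrimitiveRoot ω n)
    {x y : E} (hy : y ≠ 0) (h : x ^ n = y ^ n) : ∃ i : ℕ, x = ω ^ i * y := by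
  have : NeZero n := ⟨hn.ne'⟩
  have h1 : (x / y) ^ n = 1 := by
    rw [div_pow, h, div_self (pow_ne_zero _ hy)]
  obtain ⟨i, -, hi⟩ := hω.eq_pow_of_pow_eq_one h1
  exact ⟨i, by rw [hi, div_mul_cancel₀ _ hy]⟩

/-- an N-th root of an element of F, mu_N in F: moved by h only by a root of unity, so h^N fixes it -/
theorem BKum_pow_fix {F E : Type} [Field F] [Field E] [Algebra F E] {N : ℕ} (hN : 0 < N) {ζ : F}
    (hζ : IsPrimitiveRoot ζ N) (α : E) (hα : α ≠ 0) (a : F) (ha : α ^ N = algebraMap F E a)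
    (h : Gal(E/F)) : (h ^ N) α = α := by
  have hω : IsPrimitiveRoot (algebraMap F E ζ) N := hζ.map_of_injective (algebraMap F E).injective
  have h1 : (h α) ^ N = α ^ N := by
    rw [← map_pow, ha, h.commutes]
  obtain ⟨i, hi⟩ := BKum_root hN hω hα h1
  have h2 : ∀ n : ℕ, (h ^ n) α = (algebraMap F E ζ ^ i) ^ n * α := by
    intro n
    induction n with
    | zero =>
      rw [pow_zero, pow_zero, one_mul]
      rfl
    | succ n ih =>
      rw [pow_succ', AlgEquiv.mul_apply, ih, map_mul, map_pow, map_pow, h.commutes, hi, pow_succ]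
      ring
  rw [h2, ← pow_mul, mul_comm i N, pow_mul, hω.pow_eq_one, one_pow, one_mul]

theorem kum_red (k κ F : Type) {Ω : Type} [Field k] [Field κ] [Field F] [Field Ω]
    [Algebra k κ] [Algebra k[X] κ] [IsScalarTower k k[X] κ] [IsFractionRing k[X] κ] [Algebra κ F]
    [Algebra κ[X] F] [IsScalarTower κ κ[X] F] [IsFractionRing κ[X] F] [Algebra F Ω]
    [IsGalois F Ω] [IsSepClosed Ω] {l j : ℕ} {ζ : k} {K : IntermediateField F Ω}
    (H : NegHyp k F l j ζ K) {c : Gal(Ω/F) → Gal(Ω/F) → Ωˣ} (hc : BC c)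
    (hN : BEq (fun σ τ => c σ τ ^ l ^ j) c1) :
    ∃ (m : ℕ) (al : Fin m → Ω), (∀ i, al i ∈ K ∧ ∃ a : F, a ≠ 0 ∧
      al i ^ l ^ j = algebraMap F Ω a) ∧ Spl (IntermediateField.adjoin F (Set.range al)) c := by
  classical
  have hs : Spl K c := (H.br c hc j hN).2 hN
  obtain ⟨M, hMK, hMf, hMs⟩ := Spl.exists_finite hc.2 hs
  have : Normal F M := BKum_normal hMK H.comm
  have hcm : ∀ g g' : Gal(M/F), g * g' = g' * g := BKum_comm hMK H.comm
  have hl := H.hl
  have hj := H.hj
  have hN0 : 0 < l ^ j := pow_pos hl.pos j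
  -- roots of unity in F
  let ω : F := algebraMap κ F (algebraMap k κ (ζ ^ l ^ (j - 1)))
  have hω : IsPrimitiveRoot ω (l * l ^ j) := by
    have h1 : IsPrimitiveRoot (ζ ^ l ^ (j - 1)) (l * l ^ j) := by
      refine H.hζ.pow (Nat.mul_pos hN0 hN0) ?_
      have : l ^ j = l ^ (j - 1) * l := by rw [← pow_succ, Nat.sub_add_cancel hj]
      calc l ^ j * l ^ j = (l ^ (j - 1) * l) * l ^ j := by rw [← this]
        _ = l ^ (j - 1) * (l * l ^ j) := by ring
    exact (h1.map_of_injective (algebraMap k κ).injective).map_of_injective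
      (algebraMap κ F).injective
  have hω1 : IsPrimitiveRoot (ω ^ l) (l ^ j) :=
    hω.pow (Nat.mul_pos hl.pos hN0) rfl
  have hωl : IsPrimitiveRoot (ω ^ l ^ j) l :=
    hω.pow (Nat.mul_pos hl.pos hN0) (Nat.mul_comm _ _)
  -- the Kummer part
  let R : Set Ω := {α | α ∈ M ∧ α ≠ 0 ∧ ∃ a : F, α ^ l ^ j = algebraMap F Ω a}
  have hRM : IntermediateField.adjoin F R ≤ M := by
    rw [IntermediateField.adjoin_le_iff]
    exact fun x hx => hx.1
  have : FiniteDimensional F (IntermediateField.adjoin F R) :=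
    FiniteDimensional.of_injective (IntermediateField.inclusion hRM).toLinearMap
      (IntermediateField.inclusion hRM).injective
  have hT : ∀ t ∈ imSub M (IntermediateField.adjoin F R), ∃ h : Gal(M/F), h ^ l ^ j = t := by
    intro t ht
    by_contra hcon
    push Not at hcon
    obtain ⟨α, hα0, ⟨a, ha⟩, hα⟩ := kum_chi M hcm (l ^ j) hN0 hω1 t hcon
    obtain ⟨σ, hσ, rfl⟩ := ht
    apply hα
    apply Subtype.ext
    have h1 : ((AlgEquiv.restrictNormalHom M σ α : M) : Ω) = σ (α : Ω) := GalB_res M σ α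
    refine h1.trans ((IntermediateField.mem_fixingSubgroup_iff _ σ).1 hσ _ ?_)
    apply IntermediateField.subset_adjoin
    refine ⟨α.2, fun h => hα0 (Subtype.ext h), a, ?_⟩
    have h2 := congrArg (fun z : M => (z : Ω)) ha
    exact h2
  have hnd : ¬ l ∣ Nat.card (imSub M (IntermediateField.adjoin F R)) := by
    intro hd
    obtain ⟨h, hh⟩ := BKum_grp hcm l (l ^ j) hl (imSub M (IntermediateField.adjoin F R)) hT hd
    obtain ⟨α, hα0, ⟨a, ha⟩, hα⟩ := kum_chi M hcm (l * l ^ j) (Nat.mul_pos hl.pos hN0) hω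
      (h ^ l ^ j) hh
    have ha0 : a ≠ 0 := by
      rintro rfl
      rw [map_zero] at ha
      exact hα0 (pow_eq_zero_iff (Nat.mul_pos hl.pos hN0).ne' |>.1 ha)
    have haΩ : (α : Ω) ^ (l * l ^ j) = algebraMap F Ω a :=
      congrArg (fun z : M => (z : Ω)) ha
    have hαK : (α : Ω) ∈ K := hMK α.2
    have key : ∃ b : F, b ^ l = a := by
      have hlκ : (l : κ) ≠ 0 := by
        intro h0
        apply H.hlk
        apply (algebraMap k κ).injective
        rw [map_natCast, h0, map_zero]
      have hz1 : IsPrimitiveRoot (algebraMap k κ (ζ ^ l ^ (j - 1)) ^ l ^ j) l := by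
        have h1 : algebraMap κ F (algebraMap k κ (ζ ^ l ^ (j - 1)) ^ l ^ j) = ω ^ l ^ j :=
          map_pow _ _ _
        exact IsPrimitiveRoot.of_map_of_injective (f := algebraMap κ F) (by rw [h1]; exact hωl)
          (algebraMap κ F).injective
      have hz2 : algebraMap κ F (algebraMap k κ (ζ ^ l ^ (j - 1)) ^ l ^ j) = ω ^ l ^ j :=
        map_pow _ _ _
      have hkill : ∀ (f : Fˣ) (β : Ω), IsRt (l * l ^ j) F β → Spl K (symc (l * l ^ j) ω f β) →
          BEq (symc l (ω ^ l ^ j) f (β ^ l ^ j)) c1 := by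
        intro f β hβ hsp
        have hm0 := Nat.mul_pos hl.pos hN0
        have h1 : BEq (fun σ τ => symc (l * l ^ j) ω f β σ τ ^ l ^ (j + 1)) c1 := by
          have := symc_torsion hm0 hω hβ f
          rwa [show l * l ^ j = l ^ (j + 1) by rw [pow_succ']] at this ⊢
        have h2 := (H.br _ (symc_bc hm0 hω hβ f) (j + 1) h1).1 hsp
        exact (symc_level hl.pos hN0 hω hβ f).symm.trans h2
      obtain ⟨b, hb⟩ := exc k κ F l hl hlκ _ hz1 (Units.mk0 a ha0) ((α : Ω) ^ l ^ j) (by
          rw [← pow_mul, mul_comm, haΩ]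
          rfl) (by
          intro φ hφ
          obtain ⟨f, hf0, hf⟩ := hφ
          have hmF : ((l * l ^ j : ℕ) : F) ≠ 0 := by
            rw [Nat.cast_mul, Nat.cast_pow, ← pow_succ']
            apply pow_ne_zero
            intro h0
            apply hlκ
            apply (algebraMap κ F).injective
            rw [map_natCast, h0, map_zero]
          obtain ⟨β, hβ⟩ := exists_rt (F := F) (Ω := Ω) (l * l ^ j) hmF f
          have hβr : IsRt (l * l ^ j) F β := ⟨f, hf0, hβ⟩
          have h1 := hkill (Units.mk0 a ha0) β hβr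
            (symc_spl_left (Nat.mul_pos hl.pos hN0) hω K hβr (Units.mk0 a ha0) (α : Ω) hαK haΩ)
          have h2 : (β ^ l ^ j) ^ l = φ ^ l := by
            rw [← pow_mul, mul_comm, hβ, hf]
          rw [symc_root hl.pos hωl ⟨f, hf0, h2.trans hf⟩ h2] at h1
          rw [hz2]
          exact h1) (by
          intro f
          have hαr : IsRt (l * l ^ j) F (α : Ω) := ⟨a, ha0, haΩ⟩
          have h1 := hkill f (α : Ω) hαr
            (symc_spl_right (Nat.mul_pos hl.pos hN0) hω K hαr hαK f)
          rw [hz2]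
          exact h1)
      exact ⟨b, hb⟩
    obtain ⟨b, hb⟩ := key
    have hb0 : b ≠ 0 := by
      rintro rfl
      rw [zero_pow hl.ne_zero] at hb
      exact ha0 hb.symm
    have hωM : IsPrimitiveRoot (algebraMap F M (ω ^ l ^ j)) l :=
      hωl.map_of_injective (algebraMap F M).injective
    have h1 : (α ^ l ^ j) ^ l = (algebraMap F M b) ^ l := by
      rw [← pow_mul, mul_comm, ha, ← hb, map_pow]
    obtain ⟨i, hi⟩ := BKum_root hl.pos hωM ((_root_.map_ne_zero (algebraMap F M)).2 hb0) h1
    apply hα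
    refine BKum_pow_fix hN0 hω1 α hα0 ((ω ^ l ^ j) ^ i * b) ?_ h
    rw [hi, map_mul, map_pow (algebraMap F M) (ω ^ l ^ j) i]
  have hcard := BKum_card M (IntermediateField.adjoin F R) hRM
  have h1 : Spl (IntermediateField.adjoin F R)
      (fun σ τ => c σ τ ^ Nat.card (imSub M (IntermediateField.adjoin F R))) :=
    spl_pow_of_spl hRM hc hMs _ hcard
  have h2 : Spl (IntermediateField.adjoin F R) (fun σ τ => c σ τ ^ l ^ j) := spl_of_beq_one hN
  have hcop : Nat.Coprime (Nat.card (imSub M (IntermediateField.adjoin F R))) (l ^ j) :=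
    Nat.Coprime.pow_right j ((Nat.Prime.coprime_iff_not_dvd hl).2 hnd).symm
  have h3 := spl_of_coprime hcop h1 h2
  obtain ⟨S, hSR, hS⟩ := BKum_finset (F := F) R
  refine ⟨S.card, fun i => (S.equivFin.symm i : Ω), fun i => ?_, ?_⟩
  · have h4 : ((S.equivFin.symm i : S) : Ω) ∈ R := hSR (S.equivFin.symm i).2
    obtain ⟨h5, h6, a, h7⟩ := h4
    refine ⟨hMK h5, a, ?_, h7⟩
    rintro rfl
    rw [map_zero] at h7
    exact h6 (pow_eq_zero_iff hN0.ne' |>.1 h7)
  · have h4 : Set.range (fun i => ((S.equivFin.symm i : S) : Ω)) = (S : Set Ω) := by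
      ext x
      constructor
      · rintro ⟨i, rfl⟩
        exact (S.equivFin.symm i).2
      · intro hx
        exact ⟨S.equivFin ⟨x, hx⟩, by simp⟩
    rw [h4]
    exact h3.mono hS

end W42
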