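import Pool.Agent.W_42fc02_h90.Loc
import Pool.Agent.W_42fc02_h90.Kum

/-!
ExpA: classes of level F(pi_s : s in S) where theta is not a zero of the p_s, s in S.

Proof. loc for the family (p_s, pi_s), s in S (enumerate S by Fin m), gives w, abar and for gamma an
automorphism g; L = lvM kp al contains KF kp and KumL pi S. rk g = d since i is injective. On L:
xi L w (inflR c') g = xi (KF kp) w (inflR c') g (xi_mono) = xiR i theta c' d (xi_inflR);
xi L w c0 g = xi (KumL) w c0 g; they differ by an integer (xi_beq).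
(1) xi_exponent for KumL: N xi is an integer. (2) If gamma fixes all N-th roots of the a_s(theta),
then g fixes the pi_s, so xi (KumL) w c0 g = xi (KumL) w c0 1 = w (c0 1 1).
-/

namespace W42

open Polynomial

theorem ExpA_mulOn {F Ω : Type} [Field F] [Field Ω] [Algebra F Ω] {L L' : IntermediateField F Ω}
    (h : L ≤ L') {w : Ω → ℤ} (hw : MulOn L' w) : MulOn L w :=
  fun z₁ h₁ z₂ h₂ => hw z₁ (h h₁) z₂ (h h₂)

theorem ExpA_pres {F Ω : Type} [Field F] [Field Ω] [Algebra F Ω] {L L' : IntermediateField F Ω}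
    (h : L ≤ L') {w : Ω → ℤ} {g : Gal(Ω/F)} (hw : Pres L' w g) : Pres L w g :=
  fun z hz => hw z (h hz)

theorem ExpA_xi_one {F Ω : Type} [Field F] [Field Ω] [Algebra F Ω] [IsGalois F Ω]
    (L : IntermediateField F Ω) [FiniteDimensional F L] [Normal F L]
    {w : Ω → ℤ} (hw : MulOn L w) {c : Gal(Ω/F) → Gal(Ω/F) → Ωˣ} (hc : IsC2 c)
    (hl : Lev2 L c) : xi L w c 1 = w (c 1 1 : Ω) := by
  have h2 := xi_hom L hw hc hl 1 1 XiA_pres_one
  rw [mul_one] at h2
  linarith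

section
variable (κ F : Type) {Ω : Type} [Field κ] [Field F] [Field Ω] [Algebra κ F] [Algebra κ[X] F]
  [IsScalarTower κ κ[X] F] [IsFractionRing κ[X] F] [Algebra F Ω] [Algebra κ Ω]
  [IsScalarTower κ F Ω] [IsGalois F Ω]

theorem exp_unram {𝕂 : Type} [Field 𝕂] [Algebra κ 𝕂] [IsAlgClosed 𝕂] [Algebra.IsAlgebraic κ 𝕂]
    (N : ℕ) (hN : (N : κ) ≠ 0) (ζ : κ) (hζ : IsPrimitiveRoot ζ N) (p : ℕ → κ[X])
    (hp : ∀ s, p s ≠ 0) (pi : ℕ → Ω)
    (hpi : ∀ s, pi s ^ N = algebraMap F Ω (algebraMap κ[X] F (p s))) (S : Finset ℕ) (θ : 𝕂)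
    (hS : ∀ s ∈ S, aeval θ (p s) ≠ 0) {c₀ : Gal(Ω/F) → Gal(Ω/F) → Ωˣ} (hc₀ : IsC2 c₀)
    (hl₀ : Lev2 (KumL F pi S) c₀) (kp : IntermediateField κ Ω) [FiniteDimensional κ kp]
    [Normal κ kp] (i : kp →ₐ[κ] 𝕂) {c' : Gal(kp/κ) → Gal(kp/κ) → (RF kp)ˣ} (hc' : IsC2 c')
    (h : BEq c₀ (inflR κ F kp c')) (γ : Gal(𝕂/κ)) (hγ : γ θ = θ) (d : Gal(kp/κ))
    (hd : ∀ z, i (d z) = γ (i z)) :
    (∃ n : ℤ, (N : ℚ) * xiR (i : kp →+* 𝕂) θ c' d = n) ∧
      ((∀ s ∈ S, ∀ x : 𝕂, x ^ N = aeval θ (p s) → γ x = x) →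
        ∃ n : ℤ, xiR (i : kp →+* 𝕂) θ c' d = n) := by
  have hN0 : 0 < N := Nat.pos_of_ne_zero (by rintro rfl; exact hN Nat.cast_zero)
  obtain ⟨e, he⟩ : ∃ e : Fin S.card → ℕ, Set.range e = (S : Set ℕ) :=
    ⟨S.orderEmbOfFin rfl, S.range_orderEmbOfFin rfl⟩
  have hmem : ∀ j, e j ∈ S := by
    intro j
    have h1 : e j ∈ (S : Set ℕ) := he ▸ Set.mem_range_self j
    exact_mod_cast h1
  have hrange : Set.range (fun j => pi (e j)) = pi '' (S : Set ℕ) := by
    rw [← he, ← Set.range_comp]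
    rfl
  obtain ⟨w, abar, hw, hwPhi, habar, hloc⟩ := loc κ F θ kp i N hN ζ hζ (fun j => p (e j))
    (fun j => hS _ (hmem j)) (fun j => pi (e j)) (fun j => hpi (e j))
  obtain ⟨g, hg, hrk, hact⟩ := hloc γ hγ
  have hal' : ∀ j : Fin S.card, ∃ a : F, pi (e j) ^ N = algebraMap F Ω a :=
    fun j => ⟨_, hpi (e j)⟩
  have hfin := lvM_finite κ F kp (fun j : Fin S.card => pi (e j))
  have hnor := lvM_normal κ F kp N ζ hζ hN0 (fun j : Fin S.card => pi (e j)) hal'
  have hKF : KF κ F kp ≤ lvM κ F kp (fun j => pi (e j)) := le_sup_left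
  have hKum : KumL F pi S ≤ lvM κ F kp (fun j => pi (e j)) := by
    have h1 : KumL F pi S = IntermediateField.adjoin F (Set.range (fun j => pi (e j))) := by
      rw [hrange]
      rfl
    rw [h1]
    exact le_sup_right
  revert hfin hnor hKF hKum hw hg
  generalize lvM κ F kp (fun j => pi (e j)) = L
  intro hw hg hfin hnor hKF hKum
  have hζ' : IsPrimitiveRoot (algebraMap κ F ζ) N :=
    hζ.map_of_injective (algebraMap κ F).injective
  have hpi' : ∀ s, ∃ a : F, a ≠ 0 ∧ pi s ^ N = algebraMap F Ω a := by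
    intro s
    refine ⟨algebraMap κ[X] F (p s), ?_, hpi s⟩
    intro h0
    exact hp s (IsFractionRing.injective κ[X] F (by rw [h0, map_zero]))
  have := kumL_finite F pi S
  have := kumL_normal F N hN0 _ hζ' pi hpi' (S : Set ℕ)
  have := KF_finite κ F kp
  have := KF_normal κ F kp
  have hrkd : rk κ F kp g = d := by
    apply AlgEquiv.ext
    intro z
    apply (i : kp →+* 𝕂).injective
    show i (rk κ F kp g z) = i (d z)
    rw [hrk, hd]
  have hA : xi L w (inflR κ F kp c') g = xiR (i : kp →+* 𝕂) θ c' d := by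
    rw [← xi_mono hKF w (lev2_inflR κ F kp c') g, xi_inflR κ F kp (i : kp →+* 𝕂) θ w hwPhi c' g,
      hrkd]
  have hB : xi L w c₀ g = xi (KumL F pi S) w c₀ g := (xi_mono hKum w hl₀ g).symm
  obtain ⟨n, hn⟩ := xi_beq L hw hc₀ ((isC2_inflR κ F kp c').2 hc') (hl₀.mono hKum)
    ((lev2_inflR κ F kp c').mono hKF) h g hg
  rw [hA, hB] at hn
  have hwK : MulOn (KumL F pi S) w := ExpA_mulOn hKum hw
  have hgK : Pres (KumL F pi S) w g := ExpA_pres hKum hg
  constructor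
  · obtain ⟨m, hm⟩ := xi_exponent (KumL F pi S) hwK hc₀ hl₀ N
      (fun g => kumL_exponent F N hN0 _ hζ' pi hpi' (S : Set ℕ) g) g hgK
    refine ⟨m - N * n, ?_⟩
    push_cast
    rw [← hm, ← hn]
    ring
  · intro hfix
    have hg1 : g ∈ (KumL F pi S).fixingSubgroup := by
      apply fix_kumL
      intro s hs
      have hs' : s ∈ Set.range e := he.symm ▸ hs
      obtain ⟨j, rfl⟩ := hs'
      have h1 : γ (abar j) = abar j := hfix (e j) (hmem j) (abar j) (habar j)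
      have h2 := (hact j 0).1 (by rw [h1, pow_zero, one_mul])
      rw [pow_zero, one_mul] at h2
      exact h2
    have h3 : xi (KumL F pi S) w c₀ g = xi (KumL F pi S) w c₀ 1 := by
      apply xi_congr (KumL F pi S) w hl₀
      intro z hz
      exact (IntermediateField.mem_fixingSubgroup_iff _ _).1 hg1 z hz
    rw [h3, ExpA_xi_one (KumL F pi S) hwK hc₀ hl₀] at hn
    refine ⟨w (c₀ 1 1 : Ω) - n, ?_⟩
    push_cast
    rw [← hn]
    ring

end

end W42
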