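import Pool.Agent.W_42fc02_h90.BTh
import Pool.Agent.W_42fc02_h90.BKum
import Pool.Agent.W_42fc02_h90.ExpA

/-!
BK1 (hand-in B, proofs row 475, N4): the ramification argument at theta. N = l^j,
b0 = (X - theta)^(l^eps) u0 in B, m(p) divisible by l^eps for p in B, u in kappa*.

z := zN in kappa, f := X - C theta, c := symc N z f beta_u with beta_u^N = u in Omega: c^N ~ 1
(symc_torsion), so K splits c and by kum_red it is split by F(al_i : i in Fin m), al_i in K,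
al_i^N = a_i in F*. Multiply al_i by a denominator: a_i polynomial p_i in B (InB). th_unit:
p_i b0^a = p_i' (X - theta)^(N b): with alpha0^N = b0, alpha0 in K, al_i' = al_i alpha0^a /
(X - theta)^b has N-th power p_i', and F(al_i) is contained in F(alpha0, al_i').
Let mu = alpha0^(l^(j - eps)) / (X - theta); mu^N = u0^(l^(j - eps)) because N = l^eps l^(j - eps).
pi : Nat -> Omega: pi 0 = mu, pi (i + 1) = al_i' (i < m), pi s = 1 otherwise; q 0 = u0^(l^(j-eps)),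
q (i + 1) = p_i', q s = 1 otherwise; S = range (m + 1): all q s, s in S, do not vanish at theta.
M'' = KumL F pi S. M'' (alpha0) contains all al_i, alpha0^(l^(j-eps)) = mu (X - theta) in M'':
spl_insert_pow: c^(l^(j - eps)) is split by M'' (a primitive l^(j-eps)-th root of 1 in F is a power of
z). exists_level_of_spl: c0 of level M'' with c0 ~ c^(l^(j-eps)).
Residue: symb_res (f = X - C theta, g = C u, gb^N = u in KK): HasRes c gamma (n / N) for
gamma gb = z^n gb (rootMultiplicity = 1), so HasRes (c^(l^(j-eps))) gamma (l^(j-eps) n / N)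
(HasRes.pow), i.e. there are kp, c', d with c0 ~ inflR c', d compatible with gamma,
xiR c' d - l^(j-eps) n / N an integer. exp_unram, second part (for p := q, pi, S, theta in KK):
if gamma fixes all x with x^N = q_s(theta), s in S, then xiR c' d is an integer; so N divides
l^(j-eps) n.
-/

namespace W42

open Polynomial

/-- clearing denominators: an element of K with N-th power in F* becomes, after multiplication by a
polynomial, a root of an element of B -/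
theorem BK1_den (κ F : Type) {Ω : Type} [Field κ] [Field F] [Field Ω] [Algebra κ[X] F]
    [IsFractionRing κ[X] F] [Algebra F Ω] {N : ℕ} (hN : 0 < N) {K : IntermediateField F Ω} {α : Ω}
    (hα : α ∈ K) (h : ∃ a : F, a ≠ 0 ∧ α ^ N = algebraMap F Ω a) :
    ∃ (p y : κ[X]), y ≠ 0 ∧ InB κ F N K p ∧
      (α * algebraMap F Ω (algebraMap κ[X] F y)) ^ N = algebraMap F Ω (algebraMap κ[X] F p) := by
  obtain ⟨a, ha, haα⟩ := h
  obtain ⟨x, y, hy, hxy⟩ := IsFractionRing.div_surjective (A := κ[X]) a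
  have hy0 : y ≠ 0 := nonZeroDivisors.ne_zero hy
  have hyF : algebraMap κ[X] F y ≠ 0 := by
    rw [Ne, map_eq_zero_iff _ (IsFractionRing.injective κ[X] F)]
    exact hy0
  have hx0 : x ≠ 0 := by
    rintro rfl
    rw [map_zero, zero_div] at hxy
    exact ha hxy.symm
  have h1 : (α * algebraMap F Ω (algebraMap κ[X] F y)) ^ N =
      algebraMap F Ω (algebraMap κ[X] F (x * y ^ (N - 1))) := by
    have h2 : a * algebraMap κ[X] F y ^ N = algebraMap κ[X] F (x * y ^ (N - 1)) := by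
      obtain ⟨N', rfl⟩ : ∃ N', N = N' + 1 := ⟨N - 1, by omega⟩
      rw [Nat.add_sub_cancel, map_mul, map_pow, ← hxy, pow_succ, mul_comm (_ ^ N') _, ← mul_assoc,
        div_mul_cancel₀ _ hyF]
    rw [mul_pow, haα, ← h2, map_mul, map_pow]
  exact ⟨x * y ^ (N - 1), y, hy0, ⟨mul_ne_zero hx0 (pow_ne_zero _ hy0), _,
    mul_mem hα (K.algebraMap_mem _), h1⟩, h1⟩

theorem k1 (k κ F : Type) {Ω : Type} [Field k] [Field κ] [Field F] [Field Ω]
    [Algebra k κ] [Algebra k[X] κ] [IsScalarTower k k[X] κ] [IsFractionRing k[X] κ] [Algebra κ F]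
    [Algebra κ[X] F] [IsScalarTower κ κ[X] F] [IsFractionRing κ[X] F]
    [Algebra F Ω] [Algebra κ Ω] [IsScalarTower κ F Ω]
    [IsGalois F Ω] [IsSepClosed Ω] {l j : ℕ} {ζ : k} {K : IntermediateField F Ω}
    (H : NegHyp k F l j ζ K) (𝕂 : Type) [Field 𝕂] [Algebra κ 𝕂] [IsAlgClosed 𝕂]
    [Algebra.IsAlgebraic κ 𝕂] (θ : κ) (ε : ℕ) (u₀ : κ[X]) (hε : ε ≤ j)
    (hu₀ : u₀.eval θ ≠ 0) (h₀ : InB κ F (l ^ j) K ((X - C θ) ^ l ^ ε * u₀))
    (hd : ∀ p : κ[X], InB κ F (l ^ j) K p → l ^ ε ∣ p.rootMultiplicity θ) (u : κ) (hu : u ≠ 0) :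
    ∃ (m : ℕ) (q : Fin m → κ[X]), (∀ i, InB κ F (l ^ j) K (q i) ∧ (q i).eval θ ≠ 0) ∧
      ∀ γ : Gal(𝕂/κ), (∀ i, ∀ x : 𝕂, x ^ l ^ j = algebraMap κ 𝕂 ((q i).eval θ) → γ x = x) →
        (∀ x : 𝕂, x ^ l ^ j = algebraMap κ 𝕂 (u₀.eval θ) ^ l ^ (j - ε) → γ x = x) →
        ∀ (gb : 𝕂) (n : ℕ), gb ^ l ^ j = algebraMap κ 𝕂 u →
          γ gb = algebraMap κ 𝕂 (zN k κ l j ζ) ^ n * gb → l ^ j ∣ l ^ (j - ε) * n := by
  classical
  have hl := H.hl
  have : Fact l.Prime := ⟨hl⟩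
  obtain ⟨N, hNdef⟩ : ∃ N : ℕ, N = l ^ j := ⟨_, rfl⟩
  obtain ⟨N', hN'def⟩ : ∃ N' : ℕ, N' = l ^ (j - ε) := ⟨_, rfl⟩
  have hNN' : N = l ^ ε * N' := by
    rw [hNdef, hN'def, ← pow_add]
    congr 1
    omega
  have hN0 : 0 < N := by rw [hNdef]; exact pow_pos hl.pos j
  have hN'0 : 0 < N' := by rw [hN'def]; exact pow_pos hl.pos _
  have hlκ : (l : κ) ≠ 0 := by
    have h1 := H.hlk
    rw [← map_natCast (algebraMap k κ), Ne, map_eq_zero_iff _ (algebraMap k κ).injective]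
    exact h1
  have hNκ : (N : κ) ≠ 0 := by
    rw [hNdef, Nat.cast_pow]
    exact pow_ne_zero _ hlκ
  have hNF : (N : F) ≠ 0 := by
    rw [← map_natCast (algebraMap κ F), Ne, map_eq_zero_iff _ (algebraMap κ F).injective]
    exact hNκ
  obtain ⟨z, hzdef⟩ : ∃ z : κ, z = zN k κ l j ζ := ⟨_, rfl⟩
  have hz : IsPrimitiveRoot z N := by rw [hzdef, hNdef]; exact H.hzN
  have hzF : IsPrimitiveRoot (algebraMap κ F z) N := hz.map_of_injective (algebraMap κ F).injective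
  rw [← hNdef, ← hN'def, ← hzdef]
  rw [← hNdef] at h₀ hd
  -- the symbol
  have hinj : Function.Injective (algebraMap κ[X] F) := IsFractionRing.injective κ[X] F
  have hf0 : (X - C θ : κ[X]) ≠ 0 := X_sub_C_ne_zero θ
  have hfF : algebraMap κ[X] F (X - C θ) ≠ 0 := by
    rw [Ne, map_eq_zero_iff _ hinj]
    exact hf0
  obtain ⟨fΩ, hfΩ⟩ : ∃ y : Ω, y = algebraMap F Ω (algebraMap κ[X] F (X - C θ)) := ⟨_, rfl⟩
  have hfΩ0 : fΩ ≠ 0 := by
    rw [hfΩ, Ne, map_eq_zero]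
    exact hfF
  obtain ⟨a, ha⟩ : ∃ a : Fˣ, (a : F) = algebraMap κ[X] F (X - C θ) := ⟨Units.mk0 _ hfF, rfl⟩
  obtain ⟨βu, hβu⟩ := exists_rt (Ω := Ω) N hNF (algebraMap κ[X] F (C u))
  have hCu : algebraMap κ[X] F (C u) ≠ 0 := by
    rw [Ne, map_eq_zero_iff _ hinj, C_eq_zero]
    exact hu
  have hrt : IsRt N F βu := ⟨_, hCu, hβu⟩
  have hc : BC (symc N (algebraMap κ F z) a βu) := symc_bc hN0 hzF hrt a
  have htor : BEq (fun σ τ => symc N (algebraMap κ F z) a βu σ τ ^ N) c1 :=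
    symc_torsion hN0 hzF hrt a
  obtain ⟨m, al, hal, hspl⟩ := kum_red k κ F H hc (by rw [← hNdef]; exact htor)
  rw [← hNdef] at hal
  choose p y hy0 hp hpy using fun i => BK1_den κ F hN0 (hal i).1 (hal i).2
  have hun := fun i => th_unit l j hl K θ ε u₀ hu₀ (by rw [← hNdef]; exact h₀) (p i)
    (by rw [← hNdef]; exact hp i) (hd (p i) (hp i))
  rw [← hNdef] at hun
  choose p' ea eb hp'B hp'θ hp' using hun
  obtain ⟨hb₀0, α₀, hα₀K, hα₀⟩ := h₀
  have hα₀0 : α₀ ≠ 0 := by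
    rintro rfl
    rw [zero_pow hN0.ne'] at hα₀
    refine hb₀0 (hinj ((algebraMap F Ω).injective ?_))
    rw [← hα₀, map_zero, map_zero]
  have hyΩ0 : ∀ i, algebraMap F Ω (algebraMap κ[X] F (y i)) ≠ 0 := by
    intro i
    rw [Ne, map_eq_zero, map_eq_zero_iff _ hinj]
    exact hy0 i
  -- the new roots
  obtain ⟨al', hal'⟩ : ∃ al' : Fin m → Ω, ∀ i, al' i =
      al i * algebraMap F Ω (algebraMap κ[X] F (y i)) * α₀ ^ ea i / fΩ ^ eb i := ⟨_, fun i => rfl⟩
  have hal'N : ∀ i, al' i ^ N = algebraMap F Ω (algebraMap κ[X] F (p' i)) := by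
    intro i
    have h1 := congrArg (fun q => algebraMap F Ω (algebraMap κ[X] F q)) (hp' i)
    simp only [map_mul, map_pow] at h1
    rw [hal', div_pow, mul_pow, hpy, ← pow_mul, mul_comm (ea i) N, pow_mul, hα₀, ← pow_mul,
      mul_comm (eb i) N, div_eq_iff (pow_ne_zero _ hfΩ0), hfΩ]
    simp only [map_mul, map_pow]
    exact h1
  obtain ⟨μ, hμ⟩ : ∃ μ : Ω, μ = α₀ ^ N' / fΩ := ⟨_, rfl⟩
  have hμN : μ ^ N = algebraMap F Ω (algebraMap κ[X] F (u₀ ^ N')) := by
    rw [hμ, div_pow, ← pow_mul, mul_comm N' N, pow_mul, hα₀, div_eq_iff (pow_ne_zero _ hfΩ0), hfΩ,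
      hNN']
    simp only [map_mul, map_pow]
    rw [mul_pow, ← pow_mul, mul_comm]
  obtain ⟨pi, hpi⟩ : ∃ pi : ℕ → Ω, pi = fun s => match s with
    | 0 => μ
    | (i + 1) => if h : i < m then al' ⟨i, h⟩ else 1 := ⟨_, rfl⟩
  obtain ⟨qq, hqq⟩ : ∃ qq : ℕ → κ[X], qq = fun s => match s with
    | 0 => u₀ ^ N'
    | (i + 1) => if h : i < m then p' ⟨i, h⟩ else 1 := ⟨_, rfl⟩
  have hpi0 : pi 0 = μ := by rw [hpi]
  have hqq0 : qq 0 = u₀ ^ N' := by rw [hqq]
  have hpi1 : ∀ i : Fin m, pi (i + 1) = al' i := by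
    intro i
    rw [hpi]
    simp
  have hqq1 : ∀ i : Fin m, qq (i + 1) = p' i := by
    intro i
    rw [hqq]
    simp
  have hu₀0 : u₀ ≠ 0 := by
    rintro rfl
    exact hu₀ eval_zero
  have hqne : ∀ s, qq s ≠ 0 := by
    intro s
    cases s with
    | zero => rw [hqq0]; exact pow_ne_zero _ hu₀0
    | succ i =>
      by_cases h : i < m
      · rw [show i + 1 = ((⟨i, h⟩ : Fin m) : ℕ) + 1 from rfl, hqq1]
        exact (hp'B _).1
      · rw [hqq]
        simp [h]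
  have hpiN : ∀ s, pi s ^ N = algebraMap F Ω (algebraMap κ[X] F (qq s)) := by
    intro s
    cases s with
    | zero => rw [hqq0, hpi0]; exact hμN
    | succ i =>
      by_cases h : i < m
      · rw [show i + 1 = ((⟨i, h⟩ : Fin m) : ℕ) + 1 from rfl, hqq1, hpi1]
        exact hal'N _
      · rw [hqq, hpi]
        simp [h]
  have hpiF : ∀ s, ∃ a : F, a ≠ 0 ∧ pi s ^ N = algebraMap F Ω a := by
    intro s
    refine ⟨_, ?_, hpiN s⟩
    rw [Ne, map_eq_zero_iff _ hinj]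
    exact hqne s
  obtain ⟨S, hS⟩ : ∃ S : Finset ℕ, S = Finset.range (m + 1) := ⟨_, rfl⟩
  have := kumL_finite F pi S
  have := kumL_normal F N hN0 (algebraMap κ F z) hzF pi hpiF (S : Set ℕ)
  have hμM : μ ∈ KumL F pi S := by
    refine IntermediateField.subset_adjoin F _ ⟨0, ?_, hpi0⟩
    rw [hS]
    simp
  have hal'M : ∀ i, al' i ∈ KumL F pi S := by
    intro i
    refine IntermediateField.subset_adjoin F _ ⟨(i : ℕ) + 1, ?_, hpi1 i⟩
    rw [hS]
    simp
  have hfM : ∀ L : IntermediateField F Ω, fΩ ∈ L := by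
    intro L
    rw [hfΩ]
    exact L.algebraMap_mem _
  have hle : IntermediateField.adjoin F (Set.range al) ≤
      KumL F pi S ⊔ IntermediateField.adjoin F {α₀} := by
    rw [IntermediateField.adjoin_le_iff]
    rintro _ ⟨i, rfl⟩
    have h1 : al i = al' i * fΩ ^ eb i /
        (algebraMap F Ω (algebraMap κ[X] F (y i)) * α₀ ^ ea i) := by
      rw [hal', div_mul_cancel₀ _ (pow_ne_zero _ hfΩ0), mul_assoc,
        mul_div_cancel_right₀ _ (mul_ne_zero (hyΩ0 i) (pow_ne_zero _ hα₀0))]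
    show al i ∈ KumL F pi S ⊔ IntermediateField.adjoin F {α₀}
    rw [h1]
    have h2 : α₀ ∈ KumL F pi S ⊔ IntermediateField.adjoin F {α₀} :=
      (le_sup_right : IntermediateField.adjoin F {α₀} ≤ _)
        (IntermediateField.subset_adjoin F _ rfl)
    have h3 : al' i ∈ KumL F pi S ⊔ IntermediateField.adjoin F {α₀} :=
      (le_sup_left : KumL F pi S ≤ _) (hal'M i)
    exact div_mem (mul_mem h3 (pow_mem (hfM _) _))
      (mul_mem (IntermediateField.algebraMap_mem _ _) (pow_mem h2 _))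
  have hz' : IsPrimitiveRoot (algebraMap κ F z ^ l ^ ε) N' := hzF.pow hN0 hNN'
  have hαM : α₀ ^ N' ∈ KumL F pi S := by
    have h1 : α₀ ^ N' = μ * fΩ := by rw [hμ, div_mul_cancel₀ _ hfΩ0]
    rw [h1]
    exact mul_mem hμM (hfM _)
  have hspl' := spl_insert_pow (KumL F pi S) N' hN'0 hz' α₀ hα₀0 hαM hc (hspl.mono hle)
  obtain ⟨c₀, hc₀, hl₀, hb⟩ := exists_level_of_spl (KumL F pi S) (hc.pow N') hspl'
  refine ⟨m, p', fun i => ⟨hp'B i, hp'θ i⟩, ?_⟩
  intro γ hγ1 hγ2 gb n hgb hn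
  let io : Ok κ Ω →ₐ[κ] 𝕂 := IsAlgClosed.lift
  have hγθ : γ (algebraMap κ 𝕂 θ) = algebraMap κ 𝕂 θ := γ.commutes θ
  have hres := symb_res κ F io l j hlκ z (by rw [← hNdef]; exact hz) (X - C θ) (C u) hf0 a ha
    (algebraMap κ 𝕂 θ) (by
      rw [aeval_C, Ne, map_eq_zero]
      exact hu) βu (by rw [← hNdef]; exact hβu) gb (by
      rw [← hNdef, aeval_C]
      exact hgb) γ hγθ n hn
  rw [← hNdef] at hres
  have hmult : ((X - C θ).map (algebraMap κ 𝕂)).rootMultiplicity (algebraMap κ 𝕂 θ) = 1 := by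
    rw [Polynomial.map_sub, map_X, map_C]
    exact rootMultiplicity_X_sub_C_self
  rw [hmult] at hres
  obtain ⟨kp, _, _, hp1, c', d, hc', hbc, hdc, n', hn'⟩ := hres.pow N'
  obtain ⟨n2, hn2⟩ := (exp_unram κ F N hNκ z hz qq hqne pi hpiN S (algebraMap κ 𝕂 θ) (by
      intro s hs
      rw [aeval_algebraMap_apply_eq_algebraMap_eval, Ne, map_eq_zero]
      rw [hS, Finset.mem_range] at hs
      cases s with
      | zero => rw [hqq0, eval_pow]; exact pow_ne_zero _ hu₀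
      | succ i =>
        have h : i < m := by omega
        rw [show i + 1 = ((⟨i, h⟩ : Fin m) : ℕ) + 1 from rfl, hqq1]
        exact hp'θ _) hc₀ hl₀ kp (iR κ io hp1) hc' (hb.symm.trans hbc) γ hγθ d hdc).2 (by
      intro s hs x hx
      rw [aeval_algebraMap_apply_eq_algebraMap_eval] at hx
      rw [hS, Finset.mem_range] at hs
      cases s with
      | zero =>
        rw [hqq0, eval_pow, map_pow] at hx
        exact hγ2 x hx
      | succ i =>
        have h : i < m := by omega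
        rw [show i + 1 = ((⟨i, h⟩ : Fin m) : ℕ) + 1 from rfl, hqq1] at hx
        exact hγ1 _ x hx)
  rw [hn2] at hn'
  have hNQ : (N : ℚ) ≠ 0 := by exact_mod_cast hN0.ne'
  have h5 : ((n2 - n' : ℤ) : ℚ) * N = (N' * n : ℤ) := by
    have h6 : (N' : ℚ) * (((1 : ℕ) : ℚ) * n / N) = n2 - n' := by linarith
    push_cast
    rw [← h6]
    push_cast
    field_simp
  have h7 : (n2 - n') * (N : ℤ) = (N' : ℤ) * (n : ℤ) := by exact_mod_cast h5
  have h8 : (N : ℤ) ∣ ((N' * n : ℕ) : ℤ) := ⟨n2 - n', by push_cast; rw [← h7, mul_comm]⟩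
  exact_mod_cast h8

end W42
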