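import Mathlib

/-!
BKl (hand-in B, proofs row 475, N5): Kummer theory modulo a prime l, elementary form.

kum_desc: L a subfield of KK containing kappa (IntermediateField kappa KK), e in KK with
e^l = z in L, e not in L (or e in L, trivial case), u in L and u = v^l with v in L(e): then
u = z^t v'^l with v' in L, t < l. Proof: if e in L take t = 0, v' = v (L(e) = L). Otherwise
X^l - z is irreducible over L (X_pow_sub_C_irreducible_of_prime: z is not an l-th power in L, because
mu_l in L), so L(e)/L is Galois (or: there is an L-automorphism sigma of L(e) with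
sigma e = zeta e, fixed field L since 1, e, .., e^(l-1) is a basis). sigma v = zeta^t v for some t < l
(sigma u = u), so v / e^t is fixed by sigma: v' = v / e^t in L, u = v^l = z^t v'^l.

kum_mod_l: by contradiction / induction on m. Choose e_i in KK, e_i^l = z_i, e_u^l = u.
L_i = kappa(e_0, .., e_(i-1)). First: e_u in L_m: every gamma in Gal(KK/kappa) fixing L_m fixes all
x with x^l = z_i (mu_l in kappa), so it fixes e_u by hypothesis; e_u is separable over L_m and fixed
by Gal(KK/L_m), so e_u in L_m (minimal polynomial over L_m: all roots are conjugate under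
Gal(KK/L_m), and it is separable, so it has degree 1). Then kum_desc m times: u = product of z_i^(t_i)
times v^l with v in kappa.
-/

namespace W42

open Polynomial

theorem kum_desc {κ 𝕂 : Type} [Field κ] [Field 𝕂] [Algebra κ 𝕂] (l : ℕ) (hl : l.Prime) (ζ : κ)
    (hζ : IsPrimitiveRoot ζ l) (L : IntermediateField κ 𝕂) (z e u v : 𝕂) (hz : z ∈ L)
    (hz0 : z ≠ 0) (he : e ^ l = z) (hu : u ∈ L) (hu0 : u ≠ 0) (hv : v ^ l = u)
    (hvL : v ∈ L ⊔ IntermediateField.adjoin κ {e}) :
    ∃ (t : ℕ) (v' : 𝕂), v' ∈ L ∧ u = z ^ t * v' ^ l := by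
  classical
  by_cases heL : e ∈ L
  · refine ⟨0, v, ?_, by rw [pow_zero, one_mul, hv]⟩
    have h1 : IntermediateField.adjoin κ {e} ≤ L := by
      rw [IntermediateField.adjoin_le_iff]
      rintro x rfl
      exact heL
    rwa [sup_eq_left.2 h1] at hvL
  have hv0 : v ≠ 0 := by
    rintro rfl
    exact hu0 (by rw [← hv, zero_pow hl.ne_zero])
  have he0 : e ≠ 0 := by
    rintro rfl
    exact hz0 (by rw [← he, zero_pow hl.ne_zero])
  set ζL : L := algebraMap κ L ζ with hζL
  have hζL' : IsPrimitiveRoot ζL l := hζ.map_of_injective (algebraMap κ L).injective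
  haveI : NeZero l := ⟨hl.ne_zero⟩
  have hζ𝕂 : IsPrimitiveRoot (ζL : 𝕂) l := hζL'.map_of_injective (algebraMap L 𝕂).injective
  set zL : L := ⟨z, hz⟩ with hzL
  set uL : L := ⟨u, hu⟩ with huL
  -- the minimal polynomial
  have hnot : ∀ b : L, b ^ l ≠ zL := by
    intro b hb
    have hb' : (b : 𝕂) ^ l = z := by
      have := congrArg (fun x : L => (x : 𝕂)) hb
      simpa using this
    have hb0 : (b : 𝕂) ≠ 0 := by
      intro h
      rw [h, zero_pow hl.ne_zero] at hb'
      exact hz0 hb'.symm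
    have h1 : (e / (b : 𝕂)) ^ l = 1 := by
      rw [div_pow, he, hb', div_self hz0]
    obtain ⟨i, -, hi⟩ := hζ𝕂.eq_pow_of_pow_eq_one h1
    have h2 : e = ((ζL ^ i * b : L) : 𝕂) := by
      push_cast
      rw [hi, div_mul_cancel₀ _ hb0]
    exact heL (h2 ▸ (ζL ^ i * b).2)
  have hirr : Irreducible (X ^ l - C zL : L[X]) := X_pow_sub_C_irreducible_of_prime hl hnot
  have hmonic : (X ^ l - C zL : L[X]).Monic := monic_X_pow_sub_C _ hl.ne_zero
  have hroot : aeval e (X ^ l - C zL : L[X]) = 0 := by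
    rw [map_sub, map_pow, aeval_X, aeval_C, he]
    exact sub_self z
  have hmin : minpoly L e = X ^ l - C zL := (minpoly.eq_of_irreducible_of_monic hirr hroot hmonic).symm
  have hint : IsIntegral L e := ⟨_, hmonic, hroot⟩
  have hdeg : (minpoly L e).natDegree = l := by rw [hmin, natDegree_X_pow_sub_C]
  -- v as a polynomial in e
  have hvL' : v ∈ IntermediateField.adjoin L {e} := by
    rw [← IntermediateField.mem_restrictScalars κ, IntermediateField.restrictScalars_adjoin_eq_sup]
    exact hvL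
  obtain ⟨f, hfd, hf⟩ : ∃ f : L[X], f.natDegree < l ∧ v = aeval e f := by
    obtain ⟨f, hfd, hf⟩ := (IntermediateField.adjoin.powerBasis hint).exists_eq_aeval
      (⟨v, hvL'⟩ : IntermediateField.adjoin L {e})
    refine ⟨f, ?_, ?_⟩
    · rw [IntermediateField.adjoin.powerBasis_dim, hdeg] at hfd
      exact hfd
    · have h1 := congrArg (fun x : IntermediateField.adjoin L {e} => (x : 𝕂)) hf
      simp only at h1
      rw [h1, IntermediateField.adjoin.powerBasis_gen]
      exact (aeval_algebraMap_apply 𝕂 (IntermediateField.AdjoinSimple.gen L e) f).symm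
  -- the conjugate
  have hζe : aeval ((ζL : 𝕂) * e) (X ^ l - C zL : L[X]) = 0 := by
    rw [map_sub, map_pow, aeval_X, aeval_C, mul_pow, he, hζ𝕂.pow_eq_one, one_mul]
    exact sub_self z
  have hdvd : (X ^ l - C zL : L[X]) ∣ f ^ l - C uL := by
    rw [← hmin]
    apply minpoly.dvd
    rw [map_sub, map_pow, ← hf, aeval_C, hv]
    exact sub_self u
  have h3 : (aeval ((ζL : 𝕂) * e) f) ^ l = u := by
    obtain ⟨g, hg⟩ := hdvd
    have h4 := congrArg (aeval ((ζL : 𝕂) * e)) hg
    rw [map_mul, hζe, zero_mul, map_sub, map_pow, aeval_C, sub_eq_zero] at h4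
    exact h4
  have h4 : (aeval ((ζL : 𝕂) * e) f / v) ^ l = 1 := by
    rw [div_pow, h3, hv, div_self hu0]
  obtain ⟨t, htl, ht⟩ := hζ𝕂.eq_pow_of_pow_eq_one h4
  have h5 : aeval ((ζL : 𝕂) * e) f = (ζL : 𝕂) ^ t * v := by
    rw [ht, div_mul_cancel₀ _ hv0]
  -- compare coefficients
  have h6 : f.comp (C ζL * X) - C (ζL ^ t) * f = 0 := by
    by_contra hne
    have h7 : aeval e (f.comp (C ζL * X) - C (ζL ^ t) * f) = 0 := by
      rw [map_sub, aeval_comp, map_mul, map_mul, aeval_C, aeval_C, aeval_X, ← hf, sub_eq_zero]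
      have : (algebraMap L 𝕂) ζL = (ζL : 𝕂) := rfl
      rw [this, h5, map_pow, this]
    have h8 := natDegree_le_of_dvd (minpoly.dvd L e h7) hne
    rw [hdeg] at h8
    have h9 : (f.comp (C ζL * X) - C (ζL ^ t) * f).natDegree ≤ f.natDegree := by
      refine (natDegree_sub_le _ _).trans (max_le ?_ ?_)
      · refine (natDegree_comp_le).trans ?_
        calc f.natDegree * (C ζL * X : L[X]).natDegree ≤ f.natDegree * 1 :=
              Nat.mul_le_mul_left _ ((natDegree_C_mul_le _ _).trans natDegree_X_le)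
          _ = f.natDegree := mul_one _
      · exact natDegree_C_mul_le _ _
    omega
  have h10 : ∀ i, i ≠ t → f.coeff i = 0 := by
    intro i hit
    by_cases hi : i < l
    · have h11 := congrArg (fun p : L[X] => p.coeff i) h6
      simp only [coeff_sub, coeff_C_mul, coeff_zero] at h11
      rw [comp_C_mul_X_coeff, sub_eq_zero] at h11
      by_contra hne
      have h12 : ζL ^ i = ζL ^ t := by
        have h13 : f.coeff i * ζL ^ i = f.coeff i * ζL ^ t := by rw [h11, mul_comm]
        exact mul_left_cancel₀ hne h13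
      exact hit (hζL'.pow_inj hi htl h12)
    · exact coeff_eq_zero_of_natDegree_lt (by omega)
  have h11 : f = C (f.coeff t) * X ^ t := by
    ext i
    rw [coeff_C_mul_X_pow]
    split_ifs with h
    · rw [h]
    · rw [h10 i h]
  refine ⟨t, (f.coeff t : 𝕂), (f.coeff t).2, ?_⟩
  have h12 : v = (f.coeff t : 𝕂) * e ^ t := by
    rw [hf]
    conv_lhs => rw [h11]
    rw [map_mul, map_pow, aeval_C, aeval_X]
    rfl
  rw [← hv, h12, mul_pow, ← pow_mul, mul_comm t l, pow_mul, he, mul_comm]

theorem kum_mod_l {κ 𝕂 : Type} [Field κ] [Field 𝕂] [Algebra κ 𝕂] [IsAlgClosed 𝕂]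
    [Algebra.IsAlgebraic κ 𝕂] (l : ℕ) (hl : l.Prime) (hlκ : (l : κ) ≠ 0) (ζ : κ)
    (hζ : IsPrimitiveRoot ζ l) {m : ℕ} (z : Fin m → κ) (hz : ∀ i, z i ≠ 0) (u : κ) (hu : u ≠ 0)
    (h : ∀ γ : Gal(𝕂/κ), (∀ i, ∀ x : 𝕂, x ^ l = algebraMap κ 𝕂 (z i) → γ x = x) →
      ∀ x : 𝕂, x ^ l = algebraMap κ 𝕂 u → γ x = x) :
    ∃ (t : Fin m → ℕ) (v : κ), u = (∏ i, z i ^ t i) * v ^ l := by
  classical
  haveI : NeZero l := ⟨hl.ne_zero⟩
  have hζ𝕂 : IsPrimitiveRoot (algebraMap κ 𝕂 ζ) l := hζ.map_of_injective (algebraMap κ 𝕂).injective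
  -- roots
  choose e he using fun i => IsAlgClosed.exists_pow_nat_eq (algebraMap κ 𝕂 (z i)) hl.pos
  obtain ⟨eu, heu⟩ := IsAlgClosed.exists_pow_nat_eq (algebraMap κ 𝕂 u) hl.pos
  set L : IntermediateField κ 𝕂 := IntermediateField.adjoin κ (Set.range e) with hL
  haveI : IsAlgClosure κ 𝕂 := ⟨inferInstance, inferInstance⟩
  haveI : Normal κ 𝕂 := IsAlgClosure.normal κ 𝕂
  haveI : Normal L 𝕂 := Normal.tower_top_of_normal κ L 𝕂
  have hsep0 : IsSeparable κ eu := by
    have h1 : (X ^ l - C u : κ[X]).Separable := separable_X_pow_sub_C u hlκ hu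
    refine h1.of_dvd (minpoly.dvd κ eu ?_)
    rw [map_sub, map_pow, aeval_X, aeval_C, heu, sub_self]
  have hsep : IsSeparable L eu := hsep0.tower_top L
  have heuL : eu ∈ L := by
    by_contra hcon
    have h1 : eu ∉ (⊥ : Subalgebra L 𝕂) := by
      intro h2
      rw [Algebra.mem_bot] at h2
      obtain ⟨y, hy⟩ := h2
      exact hcon (hy ▸ y.2)
    rw [notMem_iff_exists_ne_and_isConjRoot hsep (IsAlgClosed.splits _)] at h1
    obtain ⟨y, hne, hy⟩ := h1
    obtain ⟨σ, hσ⟩ := (isConjRoot_iff_exists_algEquiv.1 hy)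
    have hfix := h (σ.restrictScalars κ) (by
      intro i x hx
      have hei0 : e i ≠ 0 := by
        intro h0
        have h2 := he i
        rw [h0, zero_pow hl.ne_zero] at h2
        exact hz i ((map_eq_zero _).1 h2.symm)
      have h2 : (x / e i) ^ l = 1 := by
        rw [div_pow, hx, he i, div_self]
        exact (_root_.map_ne_zero _).2 (hz i)
      obtain ⟨k, -, hk⟩ := hζ𝕂.eq_pow_of_pow_eq_one h2
      have h3 : x = algebraMap κ 𝕂 ζ ^ k * e i := by
        rw [hk, div_mul_cancel₀ _ hei0]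
      have h4 : x ∈ L := by
        rw [h3]
        exact L.mul_mem (pow_mem (L.algebraMap_mem _) _)
          (IntermediateField.subset_adjoin κ _ (Set.mem_range_self i))
      exact σ.commutes ⟨x, h4⟩) y (by
      apply σ.injective
      rw [map_pow, hσ, heu]
      exact (σ.commutes ⟨algebraMap κ 𝕂 u, L.algebraMap_mem u⟩).symm)
    exact hne (hσ.symm.trans hfix)
  -- descent
  have key : ∀ s : Finset (Fin m), ∀ w : κ, w ≠ 0 →
      (∃ v ∈ IntermediateField.adjoin κ (e '' s), v ^ l = algebraMap κ 𝕂 w) →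
      ∃ (t : Fin m → ℕ) (v : κ), w = (∏ i ∈ s, z i ^ t i) * v ^ l := by
    intro s
    induction s using Finset.induction_on with
    | empty =>
      rintro w hw ⟨v, hv, hvw⟩
      rw [Finset.coe_empty, Set.image_empty, IntermediateField.adjoin_empty,
        IntermediateField.mem_bot] at hv
      obtain ⟨v', rfl⟩ := hv
      refine ⟨0, v', ?_⟩
      rw [Finset.prod_empty, one_mul]
      apply (algebraMap κ 𝕂).injective
      rw [← hvw, map_pow]
    | insert a s ha ih =>
      rintro w hw ⟨v, hv, hvw⟩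
      rw [Finset.coe_insert, Set.image_insert_eq, Set.insert_eq, Set.union_comm,
        IntermediateField.adjoin_union] at hv
      obtain ⟨t, v', hv'L, ht⟩ := kum_desc l hl ζ hζ (IntermediateField.adjoin κ (e '' s))
        (algebraMap κ 𝕂 (z a)) (e a) (algebraMap κ 𝕂 w) v (algebraMap_mem _ _)
        (by simpa using hz a) (he a) (algebraMap_mem _ _) (by simpa using hw) hvw hv
      have h1 : v' ^ l = algebraMap κ 𝕂 (w / z a ^ t) := by
        rw [map_div₀, ht, map_pow]
        have : algebraMap κ 𝕂 (z a) ^ t ≠ 0 := pow_ne_zero _ (by simpa using hz a)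
        field_simp
      obtain ⟨t', v'', hv''⟩ := ih (w / z a ^ t) (div_ne_zero hw (pow_ne_zero _ (hz a)))
        ⟨v', hv'L, h1⟩
      refine ⟨Function.update t' a t, v'', ?_⟩
      rw [Finset.prod_insert ha, Function.update_self]
      have h2 : ∏ i ∈ s, z i ^ Function.update t' a t i = ∏ i ∈ s, z i ^ t' i := by
        refine Finset.prod_congr rfl fun i hi => ?_
        rw [Function.update_of_ne]
        rintro rfl
        exact ha hi
      rw [h2, mul_assoc, ← hv'', mul_div_cancel₀ _ (pow_ne_zero _ (hz a))]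
  obtain ⟨t, v, hv⟩ := key Finset.univ u hu ⟨eu, by simpa [hL] using heuL, heu⟩
  exact ⟨t, v, hv⟩

end W42
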