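import Pool.Agent.W_42fc02_h90.BRes
import Pool.Agent.W_42fc02_h90.BK1
import Pool.Agent.W_42fc02_h90.BKl

/-!
BGen (hand-in B, proofs row 475, N5): generation of kappa* modulo l-th powers. c = j - eps, eps >= 1.

gen_Z: k1 gives q_i in B, units at theta. resid_pow: q_i(theta) = z_i^(l^c), z_i in kappa*. w = u0(theta).
Let gamma in Gal(KK/kappa) fix all l-th roots of the z_i and of w (KK = AlgebraicClosure kappa).
Put gamma' = gamma^(l^(eps - 1)). Claim: gamma' fixes all x with x^(l^j) = z_i^(l^c) (and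
x^(l^j) = w^(l^c)): choose e with e^(l^eps) = z_i; (x / e)^(l^j) = 1 because l^j = l^eps l^c, so x / e
is a power of zN, fixed; gamma e = rho e with rho^(l^eps) = 1, rho fixed (a power of zN), and
e^(l^(eps-1)) is an l-th root of z_i, fixed by gamma: rho^(l^(eps-1)) = 1; gamma' e =
rho^(l^(eps-1)) e = e. Let x^l = f, x = gb^(l^(j-1)) after choosing gb with gb^(l^j) = f suitably
(gb^(l^(j-1)) = x for an l^(j-1)-th root gb of x). gamma gb = zN^n gb, gamma' gb = zN^(n l^(eps-1)) gb, so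
by k1 l^j divides l^c n l^(eps-1) = l^(j-1) n, l divides n, and gamma x = zN^(n l^(j-1)) x = x.
kum_mod_l (for Fin (m+1): z_0 = w and the z_i): f = w^t prod z_i^(t_i) v^l, and prod z_i^(t_i) = z with
z^(l^c) = (prod q_i^(t_i))(theta), prod q_i^(t_i) in B (InB.mul, InB.pow).
-/

namespace W42

open Polynomial

theorem BGen_pow {κ 𝕂 : Type} [Field κ] [Field 𝕂] [Algebra κ 𝕂] (γ : Gal(𝕂/κ)) (y : 𝕂) (r : κ)
    (h : γ y = algebraMap κ 𝕂 r * y) (n : ℕ) : (γ ^ n) y = algebraMap κ 𝕂 (r ^ n) * y := by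
  induction n with
  | zero => rw [pow_zero, pow_zero, map_one, one_mul, AlgEquiv.one_apply]
  | succ n ih =>
    rw [pow_succ, AlgEquiv.mul_apply, h, map_mul, ih, AlgEquiv.commutes, pow_succ, map_mul]
    ring

theorem BGen_root {κ 𝕂 : Type} [Field κ] [Field 𝕂] [Algebra κ 𝕂] (N : ℕ) (hN : N ≠ 0) (z : κ)
    (hz : IsPrimitiveRoot z N) (a b : 𝕂) (hb : b ≠ 0) (h : a ^ N = b ^ N) :
    ∃ n : ℕ, a = algebraMap κ 𝕂 (z ^ n) * b := by
  haveI : NeZero N := ⟨hN⟩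
  have h1 : IsPrimitiveRoot (algebraMap κ 𝕂 z) N := hz.map_of_injective (algebraMap κ 𝕂).injective
  have h2 : (a / b) ^ N = 1 := by rw [div_pow, h, div_self (pow_ne_zero N hb)]
  obtain ⟨n, -, hn⟩ := h1.eq_pow_of_pow_eq_one h2
  exact ⟨n, by rw [map_pow, hn, div_mul_cancel₀ _ hb]⟩

/-- if gamma fixes all l-th roots of a, its l^(eps-1)-th power fixes the l^j-th roots of
a^(l^(j-eps)) -/
theorem BGen_fix {κ 𝕂 : Type} [Field κ] [Field 𝕂] [Algebra κ 𝕂] [IsAlgClosed 𝕂] (l j ε : ℕ)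
    (hl : l.Prime) (hε0 : 0 < ε) (hε : ε ≤ j) (z : κ) (hz : IsPrimitiveRoot z (l ^ j))
    (a : κ) (ha : a ≠ 0) (γ : Gal(𝕂/κ))
    (h : ∀ x : 𝕂, x ^ l = algebraMap κ 𝕂 a → γ x = x) (y : 𝕂)
    (hy : y ^ l ^ j = algebraMap κ 𝕂 a ^ l ^ (j - ε)) : (γ ^ l ^ (ε - 1)) y = y := by
  obtain ⟨e, he⟩ := IsAlgClosed.exists_pow_nat_eq (algebraMap κ 𝕂 a) (pow_pos hl.pos ε)
  have ha' : algebraMap κ 𝕂 a ≠ 0 := by simpa using ha
  have he0 : e ≠ 0 := by
    rintro rfl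
    rw [zero_pow (pow_pos hl.pos ε).ne'] at he
    exact ha' he.symm
  have hN0 : l ^ j ≠ 0 := (pow_pos hl.pos j).ne'
  have hej : l ^ j = l ^ ε * l ^ (j - ε) := by rw [← pow_add]; congr 1; omega
  have heN : e ^ l ^ j = algebraMap κ 𝕂 a ^ l ^ (j - ε) := by
    rw [hej, pow_mul, he]
  obtain ⟨r, hr⟩ := BGen_root (l ^ j) hN0 z hz y e he0 (by rw [hy, heN])
  obtain ⟨s, hs⟩ := BGen_root (l ^ j) hN0 z hz (γ e) e he0 (by
    rw [← map_pow, heN, ← map_pow, AlgEquiv.commutes])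
  have hel : l ^ ε = l ^ (ε - 1) * l := by rw [← pow_succ]; congr 1; omega
  have h1 : γ (e ^ l ^ (ε - 1)) = e ^ l ^ (ε - 1) := by
    apply h
    rw [← pow_mul, ← hel, he]
  have h2 : (z ^ s) ^ l ^ (ε - 1) = 1 := by
    rw [map_pow, hs, mul_pow] at h1
    have h3 : (algebraMap κ 𝕂 (z ^ s)) ^ l ^ (ε - 1) = 1 :=
      mul_right_cancel₀ (pow_ne_zero _ he0) (h1.trans (one_mul _).symm)
    rw [← map_pow] at h3
    apply (algebraMap κ 𝕂).injective
    rw [h3, map_one]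
  have h3 := BGen_pow γ e (z ^ s) hs (l ^ (ε - 1))
  rw [h2, map_one, one_mul] at h3
  rw [hr, map_mul, AlgEquiv.commutes, h3]

theorem BGen_one (κ F : Type) {Ω : Type} [Field κ] [Field F] [Field Ω] [Algebra κ[X] F]
    [Algebra F Ω] (N : ℕ) (K : IntermediateField F Ω) : InB κ F N K 1 :=
  ⟨one_ne_zero, 1, K.one_mem, by rw [one_pow, map_one, map_one]⟩

theorem gen_Z (k κ F : Type) {Ω : Type} [Field k] [Field κ] [Field F] [Field Ω]
    [Algebra k κ] [Algebra k[X] κ] [IsScalarTower k k[X] κ] [IsFractionRing k[X] κ] [Algebra κ F]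
    [Algebra κ[X] F] [IsScalarTower κ κ[X] F] [IsFractionRing κ[X] F]
    [Algebra F Ω] [Algebra κ Ω] [IsScalarTower κ F Ω]
    [IsGalois F Ω] [IsSepClosed Ω] {l j : ℕ} {ζ : k} {K : IntermediateField F Ω}
    (H : NegHyp k F l j ζ K) (θ : κ) (ε : ℕ) (u₀ : κ[X]) (hε0 : 0 < ε) (hε : ε ≤ j)
    (hu₀ : u₀.eval θ ≠ 0) (h₀ : InB κ F (l ^ j) K ((X - C θ) ^ l ^ ε * u₀))
    (hd : ∀ p : κ[X], InB κ F (l ^ j) K p → l ^ ε ∣ p.rootMultiplicity θ) (f : κ) (hf : f ≠ 0) :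
    ∃ (z v : κ) (t : ℕ) (p : κ[X]), z ≠ 0 ∧ v ≠ 0 ∧ InB κ F (l ^ j) K p ∧
      p.eval θ = z ^ l ^ (j - ε) ∧ f = z * u₀.eval θ ^ t * v ^ l := by
  classical
  have hl := H.hl
  have hj := H.hj
  have hz := H.hzN (κ := κ)
  have hN0 : l ^ j ≠ 0 := (pow_pos hl.pos j).ne'
  have hlκ : (l : κ) ≠ 0 := by
    have h1 := H.hlk
    intro h2
    apply h1
    apply (algebraMap k κ).injective
    rw [map_natCast, map_zero, h2]
  obtain ⟨m, q, hq, hk⟩ := k1 k κ F H (AlgebraicClosure κ) θ ε u₀ hε hu₀ h₀ hd f hf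
  choose z hzq using fun i => resid_pow k κ F H θ ε u₀ hε hu₀ h₀ (q i) (hq i).1 (hq i).2
  have hz0 : ∀ i, z i ≠ 0 := by
    intro i h0
    have h1 := hzq i
    rw [h0, zero_pow (pow_pos hl.pos _).ne'] at h1
    exact (hq i).2 h1.symm
  have hjj : l ^ j = l ^ (j - 1) * l := by rw [← pow_succ]; congr 1; omega
  have hζl : IsPrimitiveRoot (zN k κ l j ζ ^ l ^ (j - 1)) l :=
    hz.pow (Nat.pos_of_ne_zero hN0) hjj
  obtain ⟨t, v, htv⟩ := kum_mod_l (𝕂 := AlgebraicClosure κ) l hl hlκ _ hζl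
    (Fin.cons (u₀.eval θ) z : Fin (m + 1) → κ) (by
      intro i
      refine Fin.cases ?_ (fun i => ?_) i
      · simpa using hu₀
      · simpa using hz0 i) f hf (by
    intro γ hγ x hx
    have hw : ∀ x : AlgebraicClosure κ, x ^ l = algebraMap κ (AlgebraicClosure κ) (u₀.eval θ) →
        γ x = x := fun x hx => hγ 0 x (by simpa using hx)
    have hzi : ∀ i, ∀ x : AlgebraicClosure κ,
        x ^ l = algebraMap κ (AlgebraicClosure κ) (z i) → γ x = x :=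
      fun i x hx => hγ i.succ x (by simpa using hx)
    obtain ⟨gb, hgb⟩ := IsAlgClosed.exists_pow_nat_eq x (pow_pos hl.pos (j - 1))
    have hgbN : gb ^ l ^ j = algebraMap κ (AlgebraicClosure κ) f := by
      rw [hjj, pow_mul, hgb, hx]
    have hgb0 : gb ≠ 0 := by
      rintro rfl
      rw [zero_pow hN0] at hgbN
      exact hf ((map_eq_zero (algebraMap κ (AlgebraicClosure κ))).1 hgbN.symm)
    obtain ⟨n, hn⟩ := BGen_root (l ^ j) hN0 _ hz (γ gb) gb hgb0 (by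
      rw [← map_pow, hgbN, AlgEquiv.commutes])
    have h1 := hk (γ ^ l ^ (ε - 1))
      (fun i x hx => BGen_fix l j ε hl hε0 hε _ hz (z i) (hz0 i) γ (hzi i) x (by
        rw [hx, ← hzq i, map_pow]))
      (fun x hx => BGen_fix l j ε hl hε0 hε _ hz _ hu₀ γ hw x hx) gb (n * l ^ (ε - 1)) hgbN (by
        rw [BGen_pow γ gb _ hn, ← pow_mul, map_pow])
    have h2 : l ∣ n := by
      have h3 : l ^ (j - ε) * (n * l ^ (ε - 1)) = l ^ (j - 1) * n := by
        have h4 : l ^ (j - 1) = l ^ (j - ε) * l ^ (ε - 1) := by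
          rw [← pow_add]; congr 1; omega
        rw [h4]; ring
      rw [h3, hjj] at h1
      exact Nat.dvd_of_mul_dvd_mul_left (pow_pos hl.pos _) h1
    obtain ⟨n', rfl⟩ := h2
    rw [← hgb, map_pow, hn, mul_pow, ← map_pow]
    have h5 : (zN k κ l j ζ ^ (l * n')) ^ l ^ (j - 1) = 1 := by
      rw [← pow_mul]
      have h6 : l * n' * l ^ (j - 1) = l ^ j * n' := by rw [hjj]; ring
      rw [h6, pow_mul, hz.pow_eq_one, one_pow]
    rw [h5, map_one, one_mul])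
  rw [Fin.prod_univ_succ] at htv
  simp only [Fin.cons_zero, Fin.cons_succ] at htv
  refine ⟨∏ i, z i ^ t i.succ, v, t 0, ∏ i, q i ^ t i.succ, ?_, ?_, ?_, ?_, ?_⟩
  · exact Finset.prod_ne_zero_iff.2 fun i _ => pow_ne_zero _ (hz0 i)
  · rintro rfl
    rw [zero_pow hl.ne_zero, mul_zero] at htv
    exact hf htv
  · refine Finset.prod_induction _ (InB κ F (l ^ j) K) (fun a b ha hb => ha.mul hb)
      (BGen_one κ F _ K) fun i _ => (hq i).1.pow _
  · rw [eval_prod, ← Finset.prod_pow]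
    refine Finset.prod_congr rfl fun i _ => ?_
    rw [eval_pow, ← hzq i, ← pow_mul, ← pow_mul, mul_comm]
  · rw [htv]; ring

end W42
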