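import Mathlib

/-!
PERM: a finite group G acting on a set X, c : G -> G -> (X ->0 Z) a 2-cocycle (additive), i.e.
(c g h)(x) + (c (gh) j)(x) = (c h j)(g^-1 x) + (c g (hj))(x). Suppose every orbit contains a point x
such that for all h in the stabiliser of x the sum over t of (c h t)(x) is divisible by |G|.
Then c is a coboundary: (c g h)(x) = (b g)(x) + (b h)(g^-1 x) - (b (gh))(x), b g finitely supported.

Proof. xi g x = (1/|G|) sum_t (c g t)(x) in Q. Summing the cocycle identity over j: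
(c g h)(x) + xi (gh) x = xi h (g^-1 x) + xi g x. Choose in each orbit a good point x0 and for every x
an element s_x with s_x x0 = x. Put a x = xi (s_x) x, b g x = xi g x - a x + a (g^-1 x).
Integrality: write s_x = g s_y h with y = g^-1 x, h in the stabiliser of x0; modulo Z
a x = xi (s_x) x = xi (g s_y) x + xi h x0 = xi g x + xi (s_y) y + 0 = xi g x + a y. Finite support: xi g x
is nonzero only if x lies in the support of some c g t; a x and a (g^-1 x) likewise.
-/

namespace W42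

theorem perm_coboundary {G X : Type} [Group G] [Fintype G] [MulAction G X]
    (c : G → G → (X →₀ ℤ))
    (hc : ∀ g h j x, c g h x + c (g * h) j x = c h j (g⁻¹ • x) + c g (h * j) x)
    (hgood : ∀ x : X, ∃ s : G, ∀ h : G, h • (s • x) = s • x →
      (Fintype.card G : ℤ) ∣ ∑ t : G, c h t (s • x)) :
    ∃ b : G → (X →₀ ℤ), ∀ g h x, c g h x = b g x + b h (g⁻¹ • x) - b (g * h) x := by
  classical
  obtain ⟨n, hn⟩ : ∃ n : ℤ, n = Fintype.card G := ⟨_, rfl⟩
  have hn0 : n ≠ 0 := by
    rw [hn]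
    exact_mod_cast Fintype.card_ne_zero
  obtain ⟨N, hN⟩ : ∃ N : G → X → ℤ, ∀ g x, N g x = ∑ t, c g t x :=
    ⟨fun g x => ∑ t, c g t x, fun _ _ => rfl⟩
  have h1 : ∀ g h x, n * c g h x = N h (g⁻¹ • x) + N g x - N (g * h) x := by
    intro g h x
    have h2 : ∑ j, (c g h x + c (g * h) j x) = ∑ j, (c h j (g⁻¹ • x) + c g (h * j) x) :=
      Finset.sum_congr rfl fun j _ => hc g h j x
    have h3 : ∑ j, c g (h * j) x = ∑ j, c g j x :=
      Equiv.sum_comp (Equiv.mulLeft h) (fun j => c g j x)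
    rw [Finset.sum_add_distrib, Finset.sum_add_distrib, Finset.sum_const, Finset.card_univ,
      nsmul_eq_mul, h3, ← hN, ← hN, ← hN] at h2
    rw [hn]
    linarith
  choose s hs using hgood
  obtain ⟨x0, hx0⟩ : ∃ x0 : X → X, ∀ x, x0 x =
      s (Quotient.out (Quotient.mk (MulAction.orbitRel G X) x)) •
        (Quotient.out (Quotient.mk (MulAction.orbitRel G X) x)) := ⟨_, fun _ => rfl⟩
  have hx0g : ∀ (g : G) x, x0 (g • x) = x0 x := by
    intro g x
    have h2 : Quotient.mk (MulAction.orbitRel G X) (g • x) = Quotient.mk (MulAction.orbitRel G X) x :=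
      Quotient.sound (MulAction.orbitRel_apply.mpr (MulAction.mem_orbit x g))
    rw [hx0, hx0, h2]
  have hgood0 : ∀ x, ∀ h : G, h • x0 x = x0 x → n ∣ N h (x0 x) := by
    intro x h hh
    rw [hn, hN]
    rw [hx0] at hh ⊢
    exact hs _ h hh
  have hex : ∀ x, ∃ u : G, u • x0 x = x := by
    intro x
    have h2 : (MulAction.orbitRel G X) (Quotient.out (Quotient.mk (MulAction.orbitRel G X) x)) x :=
      Quotient.mk_out (s := MulAction.orbitRel G X) x
    rw [MulAction.orbitRel_apply, MulAction.mem_orbit_iff] at h2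
    obtain ⟨v, hv⟩ := h2
    rw [hx0, ← hv]
    refine ⟨v⁻¹ * (s (v • x))⁻¹, ?_⟩
    rw [mul_smul, inv_smul_smul, inv_smul_smul]
  choose u hu using hex
  obtain ⟨B, hB⟩ : ∃ B : G → X → ℤ, ∀ g x, B g x =
      N g x - N (u x) x + N (u (g⁻¹ • x)) (g⁻¹ • x) := ⟨_, fun _ _ => rfl⟩
  have hdvd : ∀ g x, n ∣ B g x := by
    intro g x
    obtain ⟨y, hy⟩ : ∃ y, y = g⁻¹ • x := ⟨_, rfl⟩
    have hyx : x0 y = x0 x := by rw [hy, hx0g]
    have hgy : g • y = x := by rw [hy, smul_inv_smul]
    have hg1 : (g * u y) • x0 x = x := by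
      rw [mul_smul, ← hyx, hu, hgy]
    have hg2 : (g * u y)⁻¹ • x = x0 x := by
      rw [inv_smul_eq_iff, hg1]
    obtain ⟨h, hh⟩ : ∃ h, h = (g * u y)⁻¹ * u x := ⟨_, rfl⟩
    have hst : h • x0 x = x0 x := by
      rw [hh, mul_smul, hu, hg2]
    have hux : g * u y * h = u x := by rw [hh, mul_inv_cancel_left]
    have e1 := h1 (g * u y) h x
    rw [hux, hg2] at e1
    have e2 := h1 g (u y) x
    obtain ⟨k, hk⟩ := hgood0 x h hst
    rw [hB, ← hy]
    rw [← hy] at e2
    refine ⟨c (g * u y) h x + c g (u y) x - k, ?_⟩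
    rw [hk] at e1
    linarith
  choose β hβ using hdvd
  have hS : ∀ g, (Function.support (β g)).Finite := by
    intro g
    obtain ⟨S, hSd⟩ : ∃ S : Set X, S = ⋃ g' : G, ⋃ t : G, ((c g' t).support : Set X) := ⟨_, rfl⟩
    have hSf : S.Finite := by
      rw [hSd]
      exact Set.finite_iUnion fun g' => Set.finite_iUnion fun t => Finset.finite_toSet _
    have hNS : ∀ g' x, N g' x ≠ 0 → x ∈ S := by
      intro g' x hne
      rw [hN] at hne
      obtain ⟨t, _, ht⟩ := Finset.exists_ne_zero_of_sum_ne_zero hne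
      rw [hSd]
      exact Set.mem_iUnion.mpr ⟨g', Set.mem_iUnion.mpr ⟨t, by simpa using ht⟩⟩
    refine (hSf.union (hSf.preimage (f := fun x => g⁻¹ • x)
      (fun _ _ _ _ h => MulAction.injective g⁻¹ h))).subset ?_
    intro x hx
    by_contra hxn
    rw [Set.mem_union, not_or] at hxn
    apply hx
    have z1 : N g x = 0 := by
      by_contra hne
      exact hxn.1 (hNS _ _ hne)
    have z2 : N (u x) x = 0 := by
      by_contra hne
      exact hxn.1 (hNS _ _ hne)
    have z3 : N (u (g⁻¹ • x)) (g⁻¹ • x) = 0 := by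
      by_contra hne
      exact hxn.2 (hNS _ _ hne)
    have z4 := hβ g x
    rw [hB, z1, z2, z3] at z4
    have z5 : n * β g x = 0 := by linarith
    exact (mul_eq_zero.mp z5).resolve_left hn0
  refine ⟨fun g => Finsupp.ofSupportFinite (β g) (hS g), fun g h x => ?_⟩
  simp only [Finsupp.ofSupportFinite_coe]
  apply mul_left_cancel₀ hn0
  have e0 := h1 g h x
  have e1 := hβ g x
  have e2 := hβ h (g⁻¹ • x)
  have e3 := hβ (g * h) x
  rw [hB] at e1 e2 e3
  have e4 : (g * h)⁻¹ • x = h⁻¹ • g⁻¹ • x := by rw [mul_inv_rev, mul_smul]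
  rw [e4] at e3
  rw [mul_sub, mul_add, e0]
  linarith

end W42
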