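import Pool.Agent.W_42fc02_h90.RatB
import Pool.Agent.W_42fc02_h90.Perm

/-!
S2 (Faddeev): K / k finite Galois, c a 2-cocycle of Gal(K / k) with values in K(X)*. If every orbit of
monic irreducible polynomials contains one, P, such that for all h in the stabiliser of P the sum over t
of dv P (c h t) is divisible by the order of the group, then c is equivalent to a cocycle with values in
K*. Proof: perm_coboundary for the cocycle P -> dv P (c g h) (finite support by dv_finite), then
c / dB (sec b) has all orders zero, eq_C_of_dv.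
-/

namespace W42

open Polynomial

private theorem Fadd_dv_smul {k K : Type} [Field k] [Field K] [Algebra k K] (g : Gal(K/k))
    (P : MI K) (u : (RF K)ˣ) : dv P ((g • u : (RF K)ˣ) : RF K) = dv (g⁻¹ • P) (u : RF K) := by
  have h := dv_rmap g (g⁻¹ • P) (u : RF K)
  rw [smul_inv_smul] at h
  rw [coe_ratAct]
  exact h

private theorem Fadd_dv_div {K : Type} [Field K] (P : MI K) (u v : (RF K)ˣ) :
    dv P ((u / v : (RF K)ˣ) : RF K) = dv P (u : RF K) - dv P (v : RF K) := by
  rw [Units.val_div_eq_div_val, div_eq_mul_inv, dv_mul P u.ne_zero (inv_ne_zero v.ne_zero),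
    dv_inv P _ v.ne_zero]
  ring

private theorem Fadd_map_smul {k K : Type} [Field k] [Field K] [Algebra k K] (g : Gal(K/k))
    (x : Kˣ) : Units.map (cF K : K →* RF K) (g • x) = g • Units.map (cF K : K →* RF K) x := by
  apply Units.ext
  rw [coe_ratAct]
  change cF K (g (x : K)) = rmap (g : K →+* K) (cF K (x : K))
  rw [rmap_C]
  rfl

private theorem Fadd_map_injective (K : Type) [Field K] :
    Function.Injective (Units.map (cF K : K →* RF K)) := by
  apply Units.map_injective
  exact (cF K).injective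

theorem faddeev {k K : Type} [Field k] [Field K] [Algebra k K] [FiniteDimensional k K]
    {c : Gal(K/k) → Gal(K/k) → (RF K)ˣ} (hc : IsC2 c)
    (hres : ∀ P : MI K, ∃ s : Gal(K/k), ∀ h : Gal(K/k), h • (s • P) = s • P →
      (Fintype.card Gal(K/k) : ℤ) ∣ ∑ t : Gal(K/k), dv (s • P) (c h t : RF K)) :
    ∃ (c₀ : Gal(K/k) → Gal(K/k) → Kˣ) (b : Gal(K/k) → (RF K)ˣ), IsC2 c₀ ∧
      ∀ g h, c g h = Units.map (cF K : K →* RF K) (c₀ g h) * dB b g h := by
  classical
  obtain ⟨cc, hcc⟩ : ∃ cc : Gal(K/k) → Gal(K/k) → (MI K →₀ ℤ),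
      ∀ g h P, cc g h P = dv P (c g h : RF K) :=
    ⟨fun g h => Finsupp.ofSupportFinite (fun P => dv P (c g h : RF K))
      (dv_finite (c g h).ne_zero), fun g h P => rfl⟩
  obtain ⟨b, hb⟩ := perm_coboundary cc (by
    intro g h j P
    rw [hcc, hcc, hcc, hcc]
    have e := congrArg (fun u : (RF K)ˣ => dv P (u : RF K)) (hc g h j)
    beta_reduce at e
    rw [Units.val_mul, Units.val_mul, dv_mul P (c g h).ne_zero (c (g * h) j).ne_zero,
      dv_mul P (g • c h j).ne_zero (c g (h * j)).ne_zero, Fadd_dv_smul] at e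
    exact e) (by
    intro P
    obtain ⟨s, hs⟩ := hres P
    refine ⟨s, fun h hh => ?_⟩
    simp_rw [hcc]
    exact hs h hh)
  obtain ⟨B, hB⟩ : ∃ B : Gal(K/k) → (RF K)ˣ, ∀ g P, dv P (B g : RF K) = b g P :=
    ⟨fun g => Units.mk0 (sec (b g)) (sec_ne_zero _), fun g P => dv_sec (b g) P⟩
  have hdB : ∀ g h P, dv P ((dB B g h : (RF K)ˣ) : RF K) = dv P (c g h : RF K) := by
    intro g h P
    unfold dB
    rw [Fadd_dv_div, Units.val_mul, dv_mul P (B g).ne_zero (g • B h).ne_zero, Fadd_dv_smul, hB, hB,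
      hB, ← hcc, hb]
  have hconst : ∀ g h, ∃ a : Kˣ, c g h * (dB B g h)⁻¹ = Units.map (cF K : K →* RF K) a := by
    intro g h
    obtain ⟨a, ha, hac⟩ := eq_C_of_dv (c g h / dB B g h : (RF K)ˣ).ne_zero (by
      intro P
      rw [Fadd_dv_div, hdB, sub_self])
    refine ⟨Units.mk0 a ha, Units.ext ?_⟩
    rw [← div_eq_mul_inv, hac]
    rfl
  choose c₀ hc₀ using hconst
  have hcoc : IsC2 (fun g j => c g j * (dB B g j)⁻¹) := hc.mul (isC2_dB B).inv
  refine ⟨c₀, B, ?_, ?_⟩
  · intro g h j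
    apply Fadd_map_injective K
    rw [_root_.map_mul, _root_.map_mul, Fadd_map_smul, ← hc₀, ← hc₀, ← hc₀, ← hc₀]
    exact hcoc g h j
  · intro g h
    rw [← hc₀, mul_assoc, inv_mul_cancel, mul_one]

end W42
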