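import Pool.Agent.W_42fc02_h90.RatC
import Pool.Agent.W_42fc02_h90.Fadd

/-!
XiR: residues of a cocycle of Gal(K / k) with values in K(X)* at the points theta of an algebraically
closed field KK, through an embedding i : K -> KK.

xiR i theta c d = (1 / |Gal(K/k)|) * sum over t of rord theta (rmap i (c d t)).
-/

namespace W42

open Polynomial

section
variable {k K 𝕂 : Type} [Field k] [Field K] [Field 𝕂] [Algebra k K] [FiniteDimensional k K]

noncomputable def xiR (i : K →+* 𝕂) (θ : 𝕂) (c : Gal(K/k) → Gal(K/k) → (RF K)ˣ)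
    (d : Gal(K/k)) : ℚ :=
  (∑ t : Gal(K/k), (rord θ (rmap i (c d t : RF K)) : ℚ)) / (Fintype.card Gal(K/k) : ℚ)

private theorem XiR_mul (i : K →+* 𝕂) (θ : 𝕂) (u v : (RF K)ˣ) :
    rord θ (rmap i ((u * v : (RF K)ˣ) : RF K)) =
      rord θ (rmap i (u : RF K)) + rord θ (rmap i (v : RF K)) := by
  rw [Units.val_mul, map_mul, rord_mul θ ((map_ne_zero (rmap i)).2 u.ne_zero)
    ((map_ne_zero (rmap i)).2 v.ne_zero)]

private theorem XiR_div (i : K →+* 𝕂) (θ : 𝕂) (u v : (RF K)ˣ) :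
    rord θ (rmap i ((u / v : (RF K)ˣ) : RF K)) =
      rord θ (rmap i (u : RF K)) - rord θ (rmap i (v : RF K)) := by
  have h := XiR_mul i θ (u / v) v
  rw [div_mul_cancel] at h
  omega

private theorem XiR_pow (i : K →+* 𝕂) (θ : 𝕂) (u : (RF K)ˣ) (n : ℕ) :
    rord θ (rmap i ((u ^ n : (RF K)ˣ) : RF K)) = n * rord θ (rmap i (u : RF K)) := by
  induction n with
  | zero =>
    rw [pow_zero, Units.val_one, map_one, rord_one]
    simp
  | succ n ih =>
    rw [pow_succ, XiR_mul, ih]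
    push_cast
    ring

private theorem XiR_card : (Fintype.card Gal(K/k) : ℚ) ≠ 0 := by
  exact_mod_cast Fintype.card_ne_zero

private theorem XiR_eq (i : K →+* 𝕂) (θ : 𝕂) (c : Gal(K/k) → Gal(K/k) → (RF K)ˣ)
    (d : Gal(K/k)) (q : ℚ)
    (h : ((∑ t : Gal(K/k), rord θ (rmap i (c d t : RF K)) : ℤ) : ℚ) =
      (Fintype.card Gal(K/k) : ℚ) * q) : xiR i θ c d = q := by
  unfold xiR
  rw [div_eq_iff (XiR_card (k := k) (K := K)), mul_comm q, ← h]
  push_cast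
  rfl

private theorem XiR_sum (i : K →+* 𝕂) (θ : 𝕂) (c : Gal(K/k) → Gal(K/k) → (RF K)ˣ)
    (d : Gal(K/k)) :
    ((∑ t : Gal(K/k), rord θ (rmap i (c d t : RF K)) : ℤ) : ℚ) =
      (Fintype.card Gal(K/k) : ℚ) * xiR i θ c d := by
  unfold xiR
  rw [mul_div_cancel₀ _ (XiR_card (k := k) (K := K))]
  push_cast
  rfl

variable [Algebra k 𝕂]

/-- rord theta (rmap i (d f)) = rord (gamma theta) (rmap gamma (rmap i f)) = rord theta (rmap i f),
for i o d = gamma o i and gamma theta = theta. -/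
theorem rord_smul (i : K →+* 𝕂) (θ : 𝕂) (γ : Gal(𝕂/k)) (hγ : γ θ = θ) (d : Gal(K/k))
    (hd : ∀ z, i (d z) = γ (i z)) (f : RF K) :
    rord θ (rmap i (rmap (d : K →+* K) f)) = rord θ (rmap i f) := by
  have h1 : i.comp (d : K →+* K) = (γ : 𝕂 →+* 𝕂).comp i := RingHom.ext fun z => hd z
  rw [rmap_comp, h1, ← rmap_comp]
  have h2 := rord_map (γ : 𝕂 →+* 𝕂) θ (rmap i f)
  have h3 : (γ : 𝕂 →+* 𝕂) θ = θ := hγ
  rw [h3] at h2
  exact h2

/-- xiR is a homomorphism mod Z on the automorphisms compatible with some gamma fixing theta. -/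
theorem xiR_hom (i : K →+* 𝕂) (θ : 𝕂)
    {c : Gal(K/k) → Gal(K/k) → (RF K)ˣ} (hc : IsC2 c) (γ : Gal(𝕂/k)) (hγ : γ θ = θ)
    (d d' : Gal(K/k)) (hd : ∀ z, i (d z) = γ (i z)) :
    ∃ n : ℤ, xiR i θ c (d * d') - xiR i θ c d - xiR i θ c d' = n := by
  have h1 : ∀ t : Gal(K/k), rord θ (rmap i (c d d' : RF K)) +
      rord θ (rmap i (c (d * d') t : RF K)) =
      rord θ (rmap i (c d' t : RF K)) + rord θ (rmap i (c d (d' * t) : RF K)) := by
    intro t
    rw [← XiR_mul, hc d d' t, XiR_mul, coe_ratAct, rord_smul i θ γ hγ d hd]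
  have h2 : ∑ t : Gal(K/k), rord θ (rmap i (c d (d' * t) : RF K)) =
      ∑ t : Gal(K/k), rord θ (rmap i (c d t : RF K)) :=
    Fintype.sum_equiv (Equiv.mulLeft d') _ _ fun t => rfl
  have h3 := Finset.sum_congr (rfl : (Finset.univ : Finset Gal(K/k)) = Finset.univ)
    fun t _ => h1 t
  rw [Finset.sum_add_distrib, Finset.sum_add_distrib, h2, Finset.sum_const, Finset.card_univ,
    nsmul_eq_mul] at h3
  have h4 := congrArg (fun n : ℤ => (n : ℚ)) h3
  simp only [Int.cast_add, Int.cast_mul, Int.cast_natCast] at h4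
  rw [XiR_sum, XiR_sum, XiR_sum] at h4
  refine ⟨-rord θ (rmap i (c d d' : RF K)), ?_⟩
  have h5 := XiR_card (k := k) (K := K)
  apply mul_left_cancel₀ h5
  push_cast
  linear_combination h4

omit [Algebra k 𝕂] in
theorem xiR_one (i : K →+* 𝕂) (θ : 𝕂)
    {c : Gal(K/k) → Gal(K/k) → (RF K)ˣ} (hc : IsC2 c) :
    ∃ n : ℤ, xiR i θ c 1 = n := by
  refine ⟨rord θ (rmap i (c 1 1 : RF K)), XiR_eq i θ c 1 _ ?_⟩
  have h1 : ∀ t : Gal(K/k), rord θ (rmap i (c 1 t : RF K)) = rord θ (rmap i (c 1 1 : RF K)) := by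
    intro t
    rw [hc.one_left t]
  rw [Finset.sum_congr rfl fun t _ => h1 t, Finset.sum_const, Finset.card_univ, nsmul_eq_mul]
  push_cast
  rfl

/-- a coboundary has integral xiR -/
theorem xiR_dB (i : K →+* 𝕂) (θ : 𝕂) (b : Gal(K/k) → (RF K)ˣ) (γ : Gal(𝕂/k)) (hγ : γ θ = θ)
    (d : Gal(K/k)) (hd : ∀ z, i (d z) = γ (i z)) :
    xiR i θ (dB b) d = rord θ (rmap i (b d : RF K)) := by
  refine XiR_eq i θ (dB b) d _ ?_
  have h1 : ∀ t : Gal(K/k), rord θ (rmap i ((dB b d t : (RF K)ˣ) : RF K)) =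
      rord θ (rmap i (b d : RF K)) + rord θ (rmap i (b t : RF K)) -
        rord θ (rmap i (b (d * t) : RF K)) := by
    intro t
    unfold dB
    rw [XiR_div, XiR_mul, coe_ratAct, rord_smul i θ γ hγ d hd]
  have h2 : ∑ t : Gal(K/k), rord θ (rmap i (b (d * t) : RF K)) =
      ∑ t : Gal(K/k), rord θ (rmap i (b t : RF K)) :=
    Fintype.sum_equiv (Equiv.mulLeft d) _ _ fun t => rfl
  rw [Finset.sum_congr rfl fun t _ => h1 t, Finset.sum_sub_distrib, Finset.sum_add_distrib, h2,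
    Finset.sum_const, Finset.card_univ, nsmul_eq_mul]
  push_cast
  ring

omit [Algebra k 𝕂] in
theorem xiR_mul (i : K →+* 𝕂) (θ : 𝕂) (c c' : Gal(K/k) → Gal(K/k) → (RF K)ˣ) (d : Gal(K/k)) :
    xiR i θ (fun g h => c g h * c' g h) d = xiR i θ c d + xiR i θ c' d := by
  refine XiR_eq i θ _ d _ ?_
  rw [mul_add, ← XiR_sum, ← XiR_sum, ← Int.cast_add, ← Finset.sum_add_distrib]
  congr 1
  refine Finset.sum_congr rfl fun t _ => ?_
  rw [← XiR_mul]

omit [Algebra k 𝕂] in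
theorem xiR_pow (i : K →+* 𝕂) (θ : 𝕂) (c : Gal(K/k) → Gal(K/k) → (RF K)ˣ) (n : ℕ)
    (d : Gal(K/k)) : xiR i θ (fun g h => c g h ^ n) d = n * xiR i θ c d := by
  refine XiR_eq i θ _ d _ ?_
  rw [mul_left_comm, ← XiR_sum, ← Int.cast_natCast (R := ℚ) n, ← Int.cast_mul, Finset.mul_sum]
  congr 1
  refine Finset.sum_congr rfl fun t _ => ?_
  rw [← XiR_pow]

omit [Algebra k 𝕂] in
/-- constants have xiR = 0 -/
theorem xiR_const (i : K →+* 𝕂) (θ : 𝕂) (c : Gal(K/k) → Gal(K/k) → Kˣ) (d : Gal(K/k)) :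
    xiR i θ (fun g h => Units.map (cF K : K →* RF K) (c g h)) d = 0 := by
  refine XiR_eq i θ _ d _ ?_
  rw [mul_zero, Finset.sum_eq_zero, Int.cast_zero]
  intro t _
  change rord θ (rmap i (cF K (c d t : K))) = 0
  rw [rmap_C, rord_C]

/-- every gamma in Gal(KK / k) induces an automorphism d of K (K normal). -/
theorem exists_compat [Normal k K] (i : K →ₐ[k] 𝕂) (γ : Gal(𝕂/k)) :
    ∃ d : Gal(K/k), ∀ z : K, i (d z) = γ (i z) := by
  let _ : Algebra K 𝕂 := i.toRingHom.toAlgebra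
  have : IsScalarTower k K 𝕂 := IsScalarTower.of_algebraMap_eq fun x => (i.commutes x).symm
  exact ⟨AlgEquiv.restrictNormal γ K, fun z => AlgEquiv.restrictNormal_commutes γ K z⟩

/-- if d fixes a polynomial P over K with root theta, d comes from a gamma fixing theta:
i and i o d extend to K[X]/(P) -> KK, X -> theta (P^(i o d) = (d P)^i = P^i); KK is algebraic over
K(theta), so the second extends to KK -> KK (IsAlgClosed.lift), an automorphism
(Algebra.IsAlgebraic.algEquivEquivAlgHom / bijective). -/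
theorem exists_gamma [IsAlgClosed 𝕂] [Algebra.IsAlgebraic k 𝕂] (i : K →ₐ[k] 𝕂) (P : MI K)
    (θ : 𝕂) (hθ : P.1.eval₂ (i : K →+* 𝕂) θ = 0) (d : Gal(K/k)) (hd : d • P = P) :
    ∃ γ : Gal(𝕂/k), γ θ = θ ∧ ∀ z : K, i (d z) = γ (i z) := by
  have : Fact (Irreducible P.1) := ⟨P.2.2⟩
  have hd' : P.1.map (d : K →+* K) = P.1 := by
    rw [← miAct_val, hd]
  have hθ2 : P.1.eval₂ ((i : K →+* 𝕂).comp (d : K →+* K)) θ = 0 := by
    rw [← eval₂_map, hd']
    exact hθ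
  let f1 : AdjoinRoot P.1 →+* 𝕂 := AdjoinRoot.lift (i : K →+* 𝕂) θ hθ
  let f2 : AdjoinRoot P.1 →+* 𝕂 := AdjoinRoot.lift ((i : K →+* 𝕂).comp (d : K →+* K)) θ hθ2
  have hk : ∀ x : k, algebraMap k (AdjoinRoot P.1) x = AdjoinRoot.of P.1 (algebraMap k K x) :=
    fun x => rfl
  have hf1 : ∀ x : k, f1 (algebraMap k (AdjoinRoot P.1) x) = algebraMap k 𝕂 x := by
    intro x
    rw [hk]
    change AdjoinRoot.lift (i : K →+* 𝕂) θ hθ (AdjoinRoot.of P.1 (algebraMap k K x)) = _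
    rw [AdjoinRoot.lift_of]
    exact i.commutes x
  have hf2 : ∀ x : k, f2 (algebraMap k (AdjoinRoot P.1) x) = algebraMap k 𝕂 x := by
    intro x
    rw [hk]
    change AdjoinRoot.lift ((i : K →+* 𝕂).comp (d : K →+* K)) θ hθ2
      (AdjoinRoot.of P.1 (algebraMap k K x)) = _
    rw [AdjoinRoot.lift_of]
    change i (d (algebraMap k K x)) = _
    rw [d.commutes]
    exact i.commutes x
  let f2' : AdjoinRoot P.1 →ₐ[k] 𝕂 := { f2 with commutes' := hf2 }
  let _ : Algebra (AdjoinRoot P.1) 𝕂 := f1.toAlgebra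
  have : IsScalarTower k (AdjoinRoot P.1) 𝕂 :=
    IsScalarTower.of_algebraMap_eq fun x => (hf1 x).symm
  have : Algebra.IsAlgebraic (AdjoinRoot P.1) 𝕂 := Algebra.IsAlgebraic.tower_top (K := k) _
  obtain ⟨φ, hφ⟩ := IsAlgClosed.surjective_domRestrict_of_isAlgebraic (K := k)
    (L := AdjoinRoot P.1) (M := 𝕂) (E := 𝕂) f2'
  have hφ' : ∀ x : AdjoinRoot P.1, φ (f1 x) = f2 x := fun x => AlgHom.congr_fun hφ x
  refine ⟨AlgEquiv.ofBijective φ (Algebra.IsAlgebraic.algHom_bijective φ), ?_, fun z => ?_⟩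
  · change φ θ = θ
    have h1 := hφ' (AdjoinRoot.root P.1)
    have h2 : f1 (AdjoinRoot.root P.1) = θ := AdjoinRoot.lift_root hθ
    have h3 : f2 (AdjoinRoot.root P.1) = θ := AdjoinRoot.lift_root hθ2
    rw [h2, h3] at h1
    exact h1
  · change i (d z) = φ (i z)
    have h1 := hφ' (AdjoinRoot.of P.1 z)
    have h2 : f1 (AdjoinRoot.of P.1 z) = i z := AdjoinRoot.lift_of hθ
    have h3 : f2 (AdjoinRoot.of P.1 z) = i (d z) := AdjoinRoot.lift_of hθ2
    rw [h2, h3] at h1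
    exact h1.symm

omit [FiniteDimensional k K] in
private theorem XiR_dv_smul (h : Gal(K/k)) (P : MI K) (hh : h • P = P) (u : (RF K)ˣ) :
    dv P ((h • u : (RF K)ˣ) : RF K) = dv P (u : RF K) := by
  have h1 := dv_rmap h P (u : RF K)
  rw [hh] at h1
  rw [coe_ratAct]
  exact h1

private theorem XiR_dv_mul {K : Type} [Field K] (P : MI K) (u v : (RF K)ˣ) :
    dv P ((u * v : (RF K)ˣ) : RF K) = dv P (u : RF K) + dv P (v : RF K) := by
  rw [Units.val_mul, dv_mul P u.ne_zero v.ne_zero]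

private theorem XiR_dv_div {K : Type} [Field K] (P : MI K) (u v : (RF K)ˣ) :
    dv P ((u / v : (RF K)ˣ) : RF K) = dv P (u : RF K) - dv P (v : RF K) := by
  have h := XiR_dv_mul P (u / v) v
  rw [div_mul_cancel] at h
  omega

private theorem XiR_dv_pow {K : Type} [Field K] (P : MI K) (u : (RF K)ˣ) (n : ℕ) :
    dv P ((u ^ n : (RF K)ˣ) : RF K) = (n : ℤ) * dv P (u : RF K) := by
  induction n with
  | zero =>
    rw [pow_zero, Units.val_one, dv_one]
    simp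
  | succ n ih =>
    rw [pow_succ, XiR_dv_mul, ih]
    push_cast
    ring

omit [Algebra k 𝕂] in
/-- RES2P + S2: if xiR is integral at a root of every P and c is l-primary, then c is constant up
to coboundary. Faddeev (with s = 1): for P and d in the stabiliser of P and theta the root given by hx:
card divides e * sum of dv P (c d t) (rord_eq_mul_dv), e prime to l; and
l^s * sum of dv P (c d t) = card * dv P (b d) since c^(l^s) = dB b; so card divides the sum. -/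
theorem faddeev_of_root (i : K →+* 𝕂)
    (l : ℕ) (hl : l.Prime) (hlk : (l : k) ≠ 0) {c : Gal(K/k) → Gal(K/k) → (RF K)ˣ}
    (hc : IsC2 c) (s : ℕ) (b : Gal(K/k) → (RF K)ˣ) (hb : ∀ g h, c g h ^ l ^ s = dB b g h)
    (hx : ∀ (P : MI K) (d : Gal(K/k)), d • P = P → ∃ θ : 𝕂, P.1.eval₂ i θ = 0 ∧
      ∃ n : ℤ, xiR i θ c d = n) :
    ∃ (c₀ : Gal(K/k) → Gal(K/k) → Kˣ) (b : Gal(K/k) → (RF K)ˣ), IsC2 c₀ ∧
      ∀ g h, c g h = Units.map (cF K : K →* RF K) (c₀ g h) * dB b g h := by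
  refine faddeev hc fun P => ⟨1, fun h hh => ?_⟩
  rw [one_smul] at hh ⊢
  obtain ⟨θ, hθ, n, hn⟩ := hx P h hh
  obtain ⟨e, he0, hel, he⟩ := rord_eq_mul_dv i θ P hθ
  have hlK : (l : K) ≠ 0 := by
    have h1 := (map_ne_zero (algebraMap k K)).2 hlk
    rwa [map_natCast] at h1
  -- card divides e * sum
  have h1 : (Fintype.card Gal(K/k) : ℤ) ∣ e * ∑ t : Gal(K/k), dv P (c h t : RF K) := by
    refine ⟨n, ?_⟩
    have h2 := XiR_sum i θ c h
    rw [hn] at h2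
    have h3 : ∑ t : Gal(K/k), rord θ (rmap i (c h t : RF K)) = Fintype.card Gal(K/k) * n := by
      exact_mod_cast h2
    rw [← h3, Finset.mul_sum]
    exact Finset.sum_congr rfl fun t _ => (he _ (c h t).ne_zero).symm
  -- card divides l ^ s * sum
  have h2 : (Fintype.card Gal(K/k) : ℤ) ∣ (l ^ s : ℕ) * ∑ t : Gal(K/k), dv P (c h t : RF K) := by
    refine ⟨dv P (b h : RF K), ?_⟩
    have h3 : ∀ t : Gal(K/k), ((l ^ s : ℕ) : ℤ) * dv P (c h t : RF K) =
        dv P (b h : RF K) + dv P (b t : RF K) - dv P (b (h * t) : RF K) := by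
      intro t
      rw [← XiR_dv_pow, hb h t]
      unfold dB
      rw [XiR_dv_div, XiR_dv_mul, XiR_dv_smul h P hh]
    have h4 : ∑ t : Gal(K/k), dv P (b (h * t) : RF K) = ∑ t : Gal(K/k), dv P (b t : RF K) :=
      Fintype.sum_equiv (Equiv.mulLeft h) _ _ fun t => rfl
    rw [Finset.mul_sum, Finset.sum_congr rfl fun t _ => h3 t, Finset.sum_sub_distrib,
      Finset.sum_add_distrib, h4, Finset.sum_const, Finset.card_univ, nsmul_eq_mul]
    ring
  have h3 : IsCoprime ((l ^ s : ℕ) : ℤ) (e : ℤ) :=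
    Nat.isCoprime_iff_coprime.2 (Nat.Coprime.pow_left s (hel l hl hlK))
  obtain ⟨x, y, hxy⟩ := h3
  have h4 : ∑ t : Gal(K/k), dv P (c h t : RF K) =
      x * (((l ^ s : ℕ) : ℤ) * ∑ t : Gal(K/k), dv P (c h t : RF K)) +
        y * (e * ∑ t : Gal(K/k), dv P (c h t : RF K)) := by
    linear_combination (-(∑ t : Gal(K/k), dv P (c h t : RF K))) * hxy
  rw [h4]
  exact dvd_add (Dvd.dvd.mul_left h2 x) (Dvd.dvd.mul_left h1 y)

/-- the same with all theta (exists_gamma). -/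
theorem faddeev_of_xiR [IsAlgClosed 𝕂] [Algebra.IsAlgebraic k 𝕂] (i : K →ₐ[k] 𝕂)
    (l : ℕ) (hl : l.Prime) (hlk : (l : k) ≠ 0) {c : Gal(K/k) → Gal(K/k) → (RF K)ˣ}
    (hc : IsC2 c) (s : ℕ) (b : Gal(K/k) → (RF K)ˣ) (hb : ∀ g h, c g h ^ l ^ s = dB b g h)
    (hx : ∀ (θ : 𝕂) (γ : Gal(𝕂/k)), γ θ = θ → ∀ d : Gal(K/k), (∀ z, i (d z) = γ (i z)) →
      ∃ n : ℤ, xiR (i : K →+* 𝕂) θ c d = n) :
    ∃ (c₀ : Gal(K/k) → Gal(K/k) → Kˣ) (b : Gal(K/k) → (RF K)ˣ), IsC2 c₀ ∧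
      ∀ g h, c g h = Units.map (cF K : K →* RF K) (c₀ g h) * dB b g h := by
  refine faddeev_of_root (i : K →+* 𝕂) l hl hlk hc s b hb ?_
  intro P d hd
  have hdeg : P.1.degree ≠ 0 := (P.2.2.degree_pos).ne'
  obtain ⟨θ, hθ⟩ := IsAlgClosed.exists_eval₂_eq_zero_of_injective (i : K →+* 𝕂) i.injective
    P.1 hdeg
  obtain ⟨γ, hγ, hi⟩ := exists_gamma i P θ hθ d hd
  exact ⟨θ, hθ, hx θ γ hγ d hi⟩

end

end W42
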