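import Pool.Agent.W_42fc02_h90.FieldB
import Pool.Agent.W_42fc02_h90.XiR

/-!
XiA: the averaged order xi. L / F finite normal in Omega, w : Omega -> Z (an order function; only
its values on L matter), c a cochain of level L:
xi L w c g = (1 / |Gal(L/F)|) * sum over t in Gal(L/F) of w (c g t).

Elementary: t runs through the finite group Gal(L/F) and lift t is any automorphism of Omega
restricting to t (c has level L, so c g (lift t) depends on t only and c g (lift (t u)) =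
c g (lift t * lift u)).
-/

namespace W42

open Polynomial

section
variable {F Ω : Type} [Field F] [Field Ω] [Algebra F Ω] [IsGalois F Ω]

/-- a lift of an automorphism of L to Omega -/
noncomputable def liftL (L : IntermediateField F Ω) [Normal F L] (t : Gal(L/F)) : Gal(Ω/F) :=
  Function.surjInv (AlgEquiv.restrictNormalHom_surjective (F := F) (K₁ := L) (E := Ω)) t

noncomputable def xi (L : IntermediateField F Ω) [FiniteDimensional F L] [Normal F L]
    (w : Ω → ℤ) (c : Gal(Ω/F) → Gal(Ω/F) → Ωˣ) (g : Gal(Ω/F)) : ℚ :=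
  (∑ t : Gal(L/F), (w (c g (liftL L t) : Ω) : ℚ)) / (Fintype.card Gal(L/F) : ℚ)

/-- w is additive on the nonzero elements of L -/
def MulOn (L : IntermediateField F Ω) (w : Ω → ℤ) : Prop :=
  ∀ z₁ ∈ L, ∀ z₂ ∈ L, z₁ ≠ 0 → z₂ ≠ 0 → w (z₁ * z₂) = w z₁ + w z₂

/-- g preserves w on L -/
def Pres (L : IntermediateField F Ω) (w : Ω → ℤ) (g : Gal(Ω/F)) : Prop :=
  ∀ z ∈ L, w (g z) = w z

theorem XiA_lift (L : IntermediateField F Ω) [Normal F L] (t : Gal(L/F)) :
    AlgEquiv.restrictNormalHom L (liftL L t) = t :=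
  Function.surjInv_eq (AlgEquiv.restrictNormalHom_surjective (F := F) (K₁ := L) (E := Ω)) t

theorem liftL_spec (L : IntermediateField F Ω) [Normal F L] (t : Gal(L/F)) (z : L) :
    liftL L t (z : Ω) = ((t z : L) : Ω) := by
  rw [← AlgEquiv.restrictNormalHom_apply L (liftL L t) z, XiA_lift]

theorem XiA_mem (L : IntermediateField F Ω) [Normal F L] (g : Gal(Ω/F)) {z : Ω} (hz : z ∈ L) :
    g z ∈ L := by
  have h := AlgEquiv.restrictNormalHom_apply L g ⟨z, hz⟩
  rw [← h]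
  exact (AlgEquiv.restrictNormalHom L g ⟨z, hz⟩).2

/-- lift of the restriction agrees on L -/
theorem XiA_agree (L : IntermediateField F Ω) [Normal F L] (g : Gal(Ω/F)) {z : Ω} (hz : z ∈ L) :
    liftL L (AlgEquiv.restrictNormalHom L g) z = g z := by
  have h1 := liftL_spec L (AlgEquiv.restrictNormalHom L g) ⟨z, hz⟩
  have h2 := AlgEquiv.restrictNormalHom_apply L g ⟨z, hz⟩
  exact h1.trans h2

theorem XiA_agree_mul (L : IntermediateField F Ω) [Normal F L] (g : Gal(Ω/F)) (t : Gal(L/F))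
    {z : Ω} (hz : z ∈ L) :
    (g * liftL L t) z = liftL L (AlgEquiv.restrictNormalHom L g * t) z := by
  have h1 := XiA_agree L (g * liftL L t) hz
  rw [map_mul, XiA_lift] at h1
  exact h1.symm

/-- reindexing of sums over Gal(L/F) -/
theorem XiA_reindex (L : IntermediateField F Ω) [FiniteDimensional F L] [Normal F L]
    (f : Gal(Ω/F) → ℚ) (hf : ∀ σ τ : Gal(Ω/F), (∀ z ∈ L, σ z = τ z) → f σ = f τ)
    (g : Gal(Ω/F)) :
    ∑ t : Gal(L/F), f (g * liftL L t) = ∑ t : Gal(L/F), f (liftL L t) := by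
  rw [← Equiv.sum_comp (Equiv.mulLeft (AlgEquiv.restrictNormalHom L g))
    (fun t => f (liftL L t))]
  refine Finset.sum_congr rfl fun t _ => ?_
  exact hf _ _ fun z hz => XiA_agree_mul L g t hz

theorem XiA_w_one {L : IntermediateField F Ω} {w : Ω → ℤ} (hw : MulOn L w) : w 1 = 0 := by
  have h := hw 1 (one_mem L) 1 (one_mem L) one_ne_zero one_ne_zero
  rw [mul_one] at h
  omega

theorem XiA_w_mul {L : IntermediateField F Ω} {w : Ω → ℤ} (hw : MulOn L w) (u v : Ωˣ)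
    (hu : (u : Ω) ∈ L) (hv : (v : Ω) ∈ L) :
    w ((u * v : Ωˣ) : Ω) = w (u : Ω) + w (v : Ω) := by
  rw [Units.val_mul]
  exact hw _ hu _ hv u.ne_zero v.ne_zero

theorem XiA_w_div {L : IntermediateField F Ω} {w : Ω → ℤ} (hw : MulOn L w) (u v : Ωˣ)
    (hu : (u : Ω) ∈ L) (hv : (v : Ω) ∈ L) :
    w ((u / v : Ωˣ) : Ω) = w (u : Ω) - w (v : Ω) := by
  have h1 : ((u / v : Ωˣ) : Ω) ∈ L := by
    rw [Units.val_div_eq_div_val]
    exact L.div_mem hu hv
  have h2 := XiA_w_mul hw (u / v) v h1 hv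
  rw [div_mul_cancel] at h2
  omega

theorem XiA_w_pow {L : IntermediateField F Ω} {w : Ω → ℤ} (hw : MulOn L w) (u : Ωˣ)
    (hu : (u : Ω) ∈ L) (n : ℕ) : w ((u ^ n : Ωˣ) : Ω) = n * w (u : Ω) := by
  induction n with
  | zero =>
    rw [pow_zero, Units.val_one, XiA_w_one hw]
    simp
  | succ n ih =>
    have h1 : ((u ^ n : Ωˣ) : Ω) ∈ L := by
      rw [Units.val_pow_eq_pow_val]
      exact pow_mem hu n
    rw [pow_succ, XiA_w_mul hw _ _ h1 hu, ih]
    push_cast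
    ring

theorem XiA_card_ne (L : IntermediateField F Ω) [FiniteDimensional F L] :
    (Fintype.card Gal(L/F) : ℚ) ≠ 0 := by
  exact_mod_cast Fintype.card_ne_zero

theorem XiA_smul_val (g : Gal(Ω/F)) (u : Ωˣ) : ((g • u : Ωˣ) : Ω) = g (u : Ω) := rfl

theorem Pres.mul {L : IntermediateField F Ω} [Normal F L] {w : Ω → ℤ} {g g' : Gal(Ω/F)}
    (h : Pres L w g) (h' : Pres L w g') : Pres L w (g * g') := by
  intro z hz
  have h1 : (g * g') z = g (g' z) := rfl
  rw [h1, h _ (XiA_mem L g' hz), h' z hz]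

theorem XiA_pres_one {L : IntermediateField F Ω} {w : Ω → ℤ} :
    Pres L w (1 : Gal(Ω/F)) := fun _ _ => rfl

theorem Pres.pow {L : IntermediateField F Ω} [Normal F L] {w : Ω → ℤ} {g : Gal(Ω/F)}
    (h : Pres L w g) (n : ℕ) : Pres L w (g ^ n) := by
  induction n with
  | zero =>
    rw [pow_zero]
    exact XiA_pres_one
  | succ n ih =>
    rw [pow_succ]
    exact ih.mul h

theorem xi_mul (L : IntermediateField F Ω) [FiniteDimensional F L] [Normal F L]
    {w : Ω → ℤ} (hw : MulOn L w) {c c' : Gal(Ω/F) → Gal(Ω/F) → Ωˣ} (hc : Lev2 L c)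
    (hc' : Lev2 L c') (g : Gal(Ω/F)) :
    xi L w (fun σ τ => c σ τ * c' σ τ) g = xi L w c g + xi L w c' g := by
  unfold xi
  rw [← add_div, ← Finset.sum_add_distrib]
  congr 1
  refine Finset.sum_congr rfl fun t _ => ?_
  rw [XiA_w_mul hw _ _ (hc.1 _ _) (hc'.1 _ _)]
  push_cast
  rfl

theorem xi_pow (L : IntermediateField F Ω) [FiniteDimensional F L] [Normal F L]
    {w : Ω → ℤ} (hw : MulOn L w) {c : Gal(Ω/F) → Gal(Ω/F) → Ωˣ} (hc : Lev2 L c)
    (n : ℕ) (g : Gal(Ω/F)) :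
    xi L w (fun σ τ => c σ τ ^ n) g = n * xi L w c g := by
  unfold xi
  rw [← mul_div_assoc, Finset.mul_sum]
  congr 1
  refine Finset.sum_congr rfl fun t _ => ?_
  rw [XiA_w_pow hw _ (hc.1 _ _)]
  push_cast
  rfl

/-- X2: sum over t of w (b g * g (b t) / b (g t)) = |L| w (b g), reindexing t -> g t. -/
theorem xi_dB (L : IntermediateField F Ω) [FiniteDimensional F L] [Normal F L]
    {w : Ω → ℤ} (hw : MulOn L w) {b : Gal(Ω/F) → Ωˣ} (hb : Lev1 L b) (g : Gal(Ω/F))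
    (hg : Pres L w g) : xi L w (dB b) g = w (b g : Ω) := by
  unfold xi
  have h1 : ∀ t : Gal(L/F), (w ((dB b g (liftL L t) : Ωˣ) : Ω) : ℚ) =
      (w (b g : Ω) : ℚ) + (w (b (liftL L t) : Ω) : ℚ) - (w (b (g * liftL L t) : Ω) : ℚ) := by
    intro t
    unfold dB
    have hm : ((g • b (liftL L t) : Ωˣ) : Ω) ∈ L := XiA_mem L g (hb.1 _)
    have hm2 : ((b g * g • b (liftL L t) : Ωˣ) : Ω) ∈ L := by
      rw [Units.val_mul]
      exact mul_mem (hb.1 _) hm
    rw [XiA_w_div hw _ _ hm2 (hb.1 _), XiA_w_mul hw _ _ (hb.1 _) hm, XiA_smul_val,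
      hg _ (hb.1 _)]
    push_cast
    rfl
  rw [Finset.sum_congr rfl fun t _ => h1 t, Finset.sum_sub_distrib, Finset.sum_add_distrib,
    XiA_reindex L (fun σ => (w (b σ : Ω) : ℚ)) (fun σ τ h => by rw [hb.2 σ τ h]) g,
    add_sub_cancel_right, Finset.sum_const, Finset.card_univ, nsmul_eq_mul,
    mul_div_cancel_left₀ _ (XiA_card_ne L)]

/-- X1: from c g1 g2 * c (g1 g2) t = g1 (c g2 t) * c g1 (g2 t). -/
theorem xi_hom (L : IntermediateField F Ω) [FiniteDimensional F L] [Normal F L]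
    {w : Ω → ℤ} (hw : MulOn L w) {c : Gal(Ω/F) → Gal(Ω/F) → Ωˣ} (hc : IsC2 c)
    (hl : Lev2 L c) (g₁ g₂ : Gal(Ω/F)) (hg : Pres L w g₁) :
    (w (c g₁ g₂ : Ω) : ℚ) + xi L w c (g₁ * g₂) = xi L w c g₁ + xi L w c g₂ := by
  have h1 : ∀ t : Gal(L/F), (w (c g₁ g₂ : Ω) : ℚ) + (w (c (g₁ * g₂) (liftL L t) : Ω) : ℚ) =
      (w (c g₂ (liftL L t) : Ω) : ℚ) + (w (c g₁ (g₂ * liftL L t) : Ω) : ℚ) := by
    intro t
    have h2 := hc g₁ g₂ (liftL L t)
    have h3 := congrArg (fun u : Ωˣ => w (u : Ω)) h2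
    have hm : ((g₁ • c g₂ (liftL L t) : Ωˣ) : Ω) ∈ L := XiA_mem L g₁ (hl.1 _ _)
    have h4 : w ((c g₁ g₂ * c (g₁ * g₂) (liftL L t) : Ωˣ) : Ω) =
        w ((g₁ • c g₂ (liftL L t) * c g₁ (g₂ * liftL L t) : Ωˣ) : Ω) := h3
    rw [XiA_w_mul hw _ _ (hl.1 _ _) (hl.1 _ _), XiA_w_mul hw _ _ hm (hl.1 _ _), XiA_smul_val,
      hg _ (hl.1 _ _)] at h4
    exact_mod_cast h4
  have h5 := Finset.sum_congr rfl fun (t : Gal(L/F)) (_ : t ∈ Finset.univ) => h1 t
  rw [Finset.sum_add_distrib, Finset.sum_add_distrib,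
    XiA_reindex L (fun σ => (w (c g₁ σ : Ω) : ℚ))
      (fun σ τ h => by rw [hl.2 g₁ g₁ σ τ (fun _ _ => rfl) h]) g₂,
    Finset.sum_const, Finset.card_univ, nsmul_eq_mul] at h5
  unfold xi
  have hne := XiA_card_ne L
  field_simp
  rw [mul_comm] at h5
  linarith

/-- change of level: each fibre of Gal(L'/F) -> Gal(L/F) has the same cardinality. -/
theorem xi_mono {L L' : IntermediateField F Ω} [FiniteDimensional F L] [Normal F L]
    [FiniteDimensional F L'] [Normal F L'] (h : L ≤ L') (w : Ω → ℤ)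
    {c : Gal(Ω/F) → Gal(Ω/F) → Ωˣ} (hl : Lev2 L c) (g : Gal(Ω/F)) :
    xi L w c g = xi L' w c g := by
  unfold xi
  obtain ⟨π, hπ⟩ : ∃ π : Gal(L'/F) → Gal(L/F),
      ∀ t, π t = AlgEquiv.restrictNormalHom L (liftL L' t) := ⟨_, fun _ => rfl⟩
  obtain ⟨f, hf⟩ : ∃ f : Gal(L/F) → ℚ, ∀ t, f t = (w (c g (liftL L t) : Ω) : ℚ) :=
    ⟨_, fun _ => rfl⟩
  have hfπ : ∀ t : Gal(L'/F), (w (c g (liftL L' t) : Ω) : ℚ) = f (π t) := by
    intro t
    rw [hf, hπ]
    rw [hl.2 g g (liftL L' t) (liftL L (AlgEquiv.restrictNormalHom L (liftL L' t)))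
      (fun _ _ => rfl) (fun z hz => (XiA_agree L _ hz).symm)]
  have hmulπ : ∀ (σ : Gal(Ω/F)) (t : Gal(L'/F)),
      π (AlgEquiv.restrictNormalHom L' σ * t) = AlgEquiv.restrictNormalHom L σ * π t := by
    intro σ t
    rw [hπ, hπ, ← map_mul]
    apply AlgEquiv.ext
    intro z
    apply Subtype.ext
    rw [AlgEquiv.restrictNormalHom_apply, AlgEquiv.restrictNormalHom_apply]
    exact (XiA_agree_mul L' σ t (h z.2)).symm
  have hT : ∀ s : Gal(L/F), ∑ t : Gal(L'/F), f (π t) = ∑ t : Gal(L'/F), f (s * π t) := by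
    intro s
    rw [← Equiv.sum_comp (Equiv.mulLeft (AlgEquiv.restrictNormalHom L' (liftL L s)))
      (fun t => f (π t))]
    refine Finset.sum_congr rfl fun t _ => ?_
    show f (π (AlgEquiv.restrictNormalHom L' (liftL L s) * t)) = _
    rw [hmulπ, XiA_lift]
  have h1 : ∑ s : Gal(L/F), ∑ t : Gal(L'/F), f (π t) =
      ∑ s : Gal(L/F), ∑ t : Gal(L'/F), f (s * π t) :=
    Finset.sum_congr rfl fun s _ => hT s
  rw [Finset.sum_comm (s := (Finset.univ : Finset Gal(L/F))) (t := (Finset.univ : Finset Gal(L'/F)))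
    (f := fun s t => f (s * π t))] at h1
  have h2 : ∀ t : Gal(L'/F), ∑ s : Gal(L/F), f (s * π t) = ∑ s : Gal(L/F), f s := fun t =>
    Equiv.sum_comp (Equiv.mulRight (π t)) f
  rw [Finset.sum_congr rfl fun t _ => h2 t, Finset.sum_const, Finset.sum_const, Finset.card_univ,
    Finset.card_univ, nsmul_eq_mul, nsmul_eq_mul] at h1
  rw [Finset.sum_congr rfl fun t _ => hfπ t]
  rw [Finset.sum_congr rfl fun t _ => (hf t).symm]
  have hne := XiA_card_ne L
  have hne' := XiA_card_ne L'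
  rw [div_eq_div_iff hne hne']
  linarith

theorem xi_congr (L : IntermediateField F Ω) [FiniteDimensional F L] [Normal F L] (w : Ω → ℤ)
    {c : Gal(Ω/F) → Gal(Ω/F) → Ωˣ} (hl : Lev2 L c) {g g' : Gal(Ω/F)}
    (h : ∀ z ∈ L, g z = g' z) : xi L w c g = xi L w c g' := by
  unfold xi
  congr 1
  refine Finset.sum_congr rfl fun t _ => ?_
  rw [hl.2 g g' _ _ h fun _ _ => rfl]

/-- equivalent cocycles of level L: difference of the xi is an integer
(exists_lev1_of_beq, xi_mul, xi_dB). -/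
theorem xi_beq (L : IntermediateField F Ω) [FiniteDimensional F L] [Normal F L]
    {w : Ω → ℤ} (hw : MulOn L w) {c c' : Gal(Ω/F) → Gal(Ω/F) → Ωˣ} (hc : IsC2 c)
    (hc' : IsC2 c') (hl : Lev2 L c) (hl' : Lev2 L c') (h : BEq c c') (g : Gal(Ω/F))
    (hg : Pres L w g) : ∃ n : ℤ, xi L w c g - xi L w c' g = n := by
  obtain ⟨b, hb, he⟩ := exists_lev1_of_beq L hc hc' hl hl' h
  have h1 : c = fun σ τ => c' σ τ * dB b σ τ := funext fun σ => funext fun τ => he σ τ
  refine ⟨w (b g : Ω), ?_⟩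
  have h2 := xi_mul L hw hl' hb.dB g
  rw [← h1, xi_dB L hw hb g hg] at h2
  rw [h2]
  ring

/-- if Gal(L / F) has exponent N then N * xi is an integer: xi (g^N) = N xi g mod Z by xi_hom, and
g^N acts trivially on L, so xi (g^N) = xi 1 = w (c 1 1). -/
theorem xi_exponent (L : IntermediateField F Ω) [FiniteDimensional F L] [Normal F L]
    {w : Ω → ℤ} (hw : MulOn L w) {c : Gal(Ω/F) → Gal(Ω/F) → Ωˣ} (hc : IsC2 c)
    (hl : Lev2 L c) (N : ℕ) (hN : ∀ g : Gal(Ω/F), ∀ z ∈ L, (g ^ N) z = z) (g : Gal(Ω/F))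
    (hg : Pres L w g) : ∃ n : ℤ, (N : ℚ) * xi L w c g = n := by
  have h1 : xi L w c 1 = w (c 1 1 : Ω) := by
    have h2 := xi_hom L hw hc hl 1 1 XiA_pres_one
    rw [mul_one] at h2
    linarith
  have h3 : ∀ n : ℕ, ∃ m : ℤ, xi L w c (g ^ n) = n * xi L w c g + m := by
    intro n
    induction n with
    | zero =>
      refine ⟨w (c 1 1 : Ω), ?_⟩
      rw [pow_zero, h1]
      simp
    | succ n ih =>
      obtain ⟨m, hm⟩ := ih
      have h4 := xi_hom L hw hc hl (g ^ n) g (hg.pow n)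
      refine ⟨m - w (c (g ^ n) g : Ω), ?_⟩
      rw [pow_succ]
      push_cast
      rw [hm] at h4
      linarith
  obtain ⟨m, hm⟩ := h3 N
  have h5 : xi L w c (g ^ N) = xi L w c 1 := xi_congr L w hl fun z hz => hN g z hz
  refine ⟨w (c 1 1 : Ω) - m, ?_⟩
  push_cast
  rw [h5, h1] at hm
  linarith

end

section
variable (κ F : Type) {Ω : Type} [Field κ] [Field F] [Field Ω] [Algebra κ F] [Algebra κ[X] F]
  [IsScalarTower κ κ[X] F] [IsFractionRing κ[X] F] [Algebra F Ω] [Algebra κ Ω]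
  [IsScalarTower κ F Ω] [IsGalois F Ω]

/-- comparison of xi at level KF kp with xiR: the sum over Gal(KF kp / F) = Gal(kp / kappa)
(rk_surjective, rk_eq_iff). -/
theorem xi_inflR (kp : IntermediateField κ Ω) [FiniteDimensional κ kp] [Normal κ kp]
    [FiniteDimensional F (KF κ F kp)] [Normal F (KF κ F kp)] {𝕂 : Type} [Field 𝕂]
    (i : kp →+* 𝕂) (θ : 𝕂) (w : Ω → ℤ)
    (hw : ∀ f : RF kp, w (PhiO κ F kp f) = rord θ (rmap i f))
    (c : Gal(kp/κ) → Gal(kp/κ) → (RF kp)ˣ) (g : Gal(Ω/F)) :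
    xi (KF κ F kp) w (inflR κ F kp c) g = xiR i θ c (rk κ F kp g) := by
  have hbij : Function.Bijective
      (fun t : Gal(KF κ F kp/F) => rk κ F kp (liftL (KF κ F kp) t)) := by
    constructor
    · intro t t' htt
      have h1 := (rk_eq_iff κ F kp _ _).1 htt
      apply AlgEquiv.ext
      intro z
      apply Subtype.ext
      rw [← liftL_spec, ← liftL_spec]
      exact h1 z z.2
    · intro s
      obtain ⟨σ, rfl⟩ := rk_surjective κ F kp s
      refine ⟨AlgEquiv.restrictNormalHom (KF κ F kp) σ, ?_⟩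
      exact (rk_eq_iff κ F kp _ _).2 fun z hz => XiA_agree _ _ hz
  have hcard : Fintype.card Gal(KF κ F kp/F) = Fintype.card Gal(kp/κ) :=
    Fintype.card_of_bijective hbij
  unfold xi xiR
  rw [hcard]
  congr 1
  rw [← Function.Bijective.sum_comp hbij
    (fun s => (rord θ (rmap i (c (rk κ F kp g) s : RF kp)) : ℚ))]
  refine Finset.sum_congr rfl fun t _ => ?_
  have h2 := hw (c (rk κ F kp g) (rk κ F kp (liftL (KF κ F kp) t)) : RF kp)
  rw [← h2]
  rfl

end

end W42
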