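import Pool.Agent.W_42fc02_h90.LocA
import Pool.Agent.W_42fc02_h90.XiA

/-!
Loc: LOC of the paper proof. F = kappa(y), KK algebraically closed, algebraic over kappa, theta in KK,
i : kp -> KK an embedding over kappa, kp / kappa finite Galois, a_1 .. a_m in kappa[X] with a_j(theta)
not 0, al_j in Omega with al_j^N = a_j(y), zeta in kappa a primitive N-th root of 1.
M = KF kp * F(al_1, .., al_m).

Proof. L0 := KF kp = RF kp (PhiO) -> Laurent series LL over KK, f -> (rmap i f)(theta + t)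
(eval at theta + t is injective on KK[X]: evT_injective). Omega is algebraic over KF kp, so this extends to
a homomorphism e : Omega -> AlgebraicClosure LL (IsAlgClosed.lift with the algebra structure given by
the embedding; or use Algebra instances transported by RingHom.toAlgebra). e (M) is contained in
LL: e (KF kp) is, and e(al_j)^N = a_j(theta + t) = f^N with f in LL (exists_root_evT), so e(al_j) is
zeta^n f. w z := order of e z for z in M (0 otherwise). gamma with gamma theta = theta acts on LL by lmap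
and fixes the image of F; M is normal over F, so lmap gamma maps e(M) onto e(M)
(lmap gamma o e and e are two F-homomorphisms from M to AlgebraicClosure LL; normality:
AlgHom.restrictNormal or fieldRange argument); g0 := e^-1 lmap gamma e in Gal(M / F), g a lift.
abar_j = constant coefficient of e(al_j) (root_evT).
g al_j = zeta^n al_j iff lmap gamma (e al_j) = zeta^n e al_j iff gamma abar_j = zeta^n abar_j
(lmap gamma (e al_j) = zeta^m e(al_j) for some m; compare constant coefficients).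
-/

set_option autoImplicit false

namespace W42

open Polynomial

/-! ### abstract field theory -/

theorem Loc_e {F Ω R LL : Type} [Field F] [Field Ω] [Algebra F Ω] [Algebra.IsAlgebraic F Ω]
    [Field R] [Field LL] (Φ : R →+* Ω) (ε : R →+* LL) (h : F →+* R)
    (hh : ∀ x, Φ (h x) = algebraMap F Ω x) :
    ∃ e : Ω →+* AlgebraicClosure LL, ∀ r, e (Φ r) = algebraMap LL (AlgebraicClosure LL) (ε r) := by
  letI a1 : Algebra R Ω := Φ.toAlgebra
  letI a2 : Algebra R (AlgebraicClosure LL) :=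
    ((algebraMap LL (AlgebraicClosure LL)).comp ε).toAlgebra
  have hint : Algebra.IsAlgebraic R Ω := by
    refine ⟨fun z => ?_⟩
    have h1 : IsIntegral F z := (Algebra.IsAlgebraic.isAlgebraic z).isIntegral
    obtain ⟨p, hp, hp0⟩ := h1
    refine IsIntegral.isAlgebraic ⟨p.map h, hp.map h, ?_⟩
    have hc : (algebraMap R Ω).comp h = algebraMap F Ω := by
      ext x
      exact hh x
    rw [eval₂_map, hc, hp0]
  let e : Ω →ₐ[R] AlgebraicClosure LL := IsAlgClosed.lift
  exact ⟨e, fun r => e.commutes r⟩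

theorem Loc_f {F Ω LL : Type} [Field F] [Field Ω] [Algebra F Ω] [Field LL]
    (e : Ω →+* AlgebraicClosure LL) (M : IntermediateField F Ω)
    (hM : ∀ z ∈ M, ∃ f : LL, algebraMap LL (AlgebraicClosure LL) f = e z) :
    ∃ f : M →+* LL, ∀ z : M, algebraMap LL (AlgebraicClosure LL) (f z) = e z := by
  choose f hf using fun z : M => hM z z.2
  have hinj := (algebraMap LL (AlgebraicClosure LL)).injective
  exact ⟨{ toFun := f
           map_one' := hinj (by rw [hf]; simp)
           map_mul' := fun x y => hinj (by rw [hf, map_mul, hf, hf]; simp)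
           map_zero' := hinj (by rw [hf]; simp)
           map_add' := fun x y => hinj (by rw [hf, map_add, hf, hf]; simp) }, hf⟩

theorem Loc_g {F Ω LL : Type} [Field F] [Field Ω] [Algebra F Ω] [Normal F Ω] [Field LL]
    (M : IntermediateField F Ω) [Normal F M] (f : M →+* LL) (μ : LL →+* LL)
    (hμ : ∀ x : F, μ (f (algebraMap F M x)) = f (algebraMap F M x)) :
    ∃ g : Gal(Ω/F), ∀ z : M, f (AlgEquiv.restrictNormalHom M g z) = μ (f z) := by
  letI a1 : Algebra F LL := (f.comp (algebraMap F M)).toAlgebra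
  letI a2 : Algebra M LL := f.toAlgebra
  have t : IsScalarTower F M LL := IsScalarTower.of_algebraMap_eq fun x => rfl
  let f' : M →ₐ[F] LL := { μ.comp f with commutes' := hμ }
  obtain ⟨g, hg⟩ := AlgEquiv.restrictNormalHom_surjective (F := F) (K₁ := M) Ω
    (AlgHom.restrictNormal' f' M)
  refine ⟨g, fun z => ?_⟩
  rw [hg]
  have h1 := AlgHom.restrictNormal_commutes f' M z
  exact h1

/-! ### rational functions as Laurent series -/

noncomputable def Loc_ev {𝕂 : Type} [Field 𝕂] (θ : 𝕂) : RF 𝕂 →+* LaurentSeries 𝕂 :=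
  (RatFunc.liftRingHom (evT θ) (nonZeroDivisors_le_comap_nonZeroDivisors_of_injective _
    (evT_injective θ)) : RatFunc 𝕂 →+* LaurentSeries 𝕂)

theorem Loc_ev_div {𝕂 : Type} [Field 𝕂] (θ : 𝕂) (p q : 𝕂[X]) :
    Loc_ev θ (pF 𝕂 p / pF 𝕂 q) = evT θ p / evT θ q :=
  RatFunc.liftRingHom_apply_div (evT θ) _ p q

theorem Loc_ev_pF {𝕂 : Type} [Field 𝕂] (θ : 𝕂) (p : 𝕂[X]) :
    Loc_ev θ (pF 𝕂 p) = evT θ p := by
  have := Loc_ev_div θ p 1
  rwa [map_one, map_one, div_one, div_one] at this

theorem Loc_ev_C {𝕂 : Type} [Field 𝕂] (θ : 𝕂) (a : 𝕂) :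
    Loc_ev θ (cF 𝕂 a) = HahnSeries.C a := by
  have := Loc_ev_pF θ (C a)
  rw [show cF 𝕂 a = pF 𝕂 (C a) from rfl, this]
  simp [evT]

theorem Loc_order {𝕂 : Type} [Field 𝕂] (θ : 𝕂) (g : RF 𝕂) :
    (Loc_ev θ g).order = rord θ g := by
  by_cases hg : g = 0
  · rw [hg, map_zero, HahnSeries.order_zero]
    unfold rord
    have h1 : (RF.out (0 : RF 𝕂)).num = 0 := RatFunc.num_zero
    have h2 : (RF.out (0 : RF 𝕂)).denom = 1 := RatFunc.denom_zero
    rw [h1, h2]
    simp
  · have h1 : g = pF 𝕂 g.out.num / pF 𝕂 g.out.denom := (RatFunc.num_div_denom g.out).symm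
    have hn : g.out.num ≠ 0 := by
      intro h
      apply hg
      rw [h1, h, map_zero, zero_div]
    have hd : g.out.denom ≠ 0 := RatFunc.denom_ne_zero _
    have h2 : Loc_ev θ g * evT θ g.out.denom = evT θ g.out.num := by
      have h3 := Loc_ev_div θ g.out.num g.out.denom
      rw [← h1] at h3
      rw [h3, div_mul_cancel₀ _ (LocA_ne θ _ hd)]
    have hg0 : Loc_ev θ g ≠ 0 := (_root_.map_ne_zero _).2 hg
    have h3 := congrArg HahnSeries.order h2
    rw [HahnSeries.order_mul hg0 (LocA_ne θ _ hd), evT_order, evT_order] at h3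
    unfold rord
    omega

theorem Loc_lmap {𝕂 : Type} [Field 𝕂] (γ : 𝕂 ≃+* 𝕂) (θ : 𝕂) (hθ : γ θ = θ) (g : RF 𝕂) :
    lmap γ (Loc_ev θ g) = Loc_ev θ (rmap (γ : 𝕂 →+* 𝕂) g) := by
  obtain ⟨p, q, hq, rfl⟩ := exists_pF_div g
  rw [rmap_div, Loc_ev_div, Loc_ev_div, map_div₀, lmap_evT γ θ hθ, lmap_evT γ θ hθ]

/-- the level M = KF kp * F(al) -/
noncomputable def lvM (κ F : Type) {Ω : Type} [Field κ] [Field F] [Field Ω] [Algebra κ F]
    [Algebra F Ω] [Algebra κ Ω] [IsScalarTower κ F Ω] (kp : IntermediateField κ Ω) {m : ℕ}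
    (al : Fin m → Ω) : IntermediateField F Ω :=
  KF κ F kp ⊔ IntermediateField.adjoin F (Set.range al)

section
variable (κ F : Type) {Ω : Type} [Field κ] [Field F] [Field Ω] [Algebra κ F] [Algebra κ[X] F]
  [IsScalarTower κ κ[X] F] [IsFractionRing κ[X] F] [Algebra F Ω] [Algebra κ Ω]
  [IsScalarTower κ F Ω] [IsGalois F Ω]

theorem lvM_finite (kp : IntermediateField κ Ω) [FiniteDimensional κ kp] {m : ℕ}
    (al : Fin m → Ω) : FiniteDimensional F (lvM κ F kp al) := by
  have h1 : FiniteDimensional F (KF κ F kp) := KF_finite κ F kp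
  have h2 : FiniteDimensional F (IntermediateField.adjoin F (Set.range al)) :=
    IntermediateField.finiteDimensional_adjoin fun x _ => Algebra.IsIntegral.isIntegral x
  unfold lvM
  infer_instance

theorem lvM_normal (kp : IntermediateField κ Ω) [FiniteDimensional κ kp] [Normal κ kp] {m : ℕ}
    (N : ℕ) (ζ : κ) (hζ : IsPrimitiveRoot ζ N) (hN : 0 < N)
    (al : Fin m → Ω) (hal : ∀ j, ∃ a : F, al j ^ N = algebraMap F Ω a) :
    Normal F (lvM κ F kp al) := by
  have h1 : Normal F (KF κ F kp) := KF_normal κ F kp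
  have h2 : Normal F (IntermediateField.adjoin F (Set.range al)) := by
    rw [IntermediateField.normal_iff_forall_map_le']
    intro σ
    rw [IntermediateField.adjoin_map, IntermediateField.adjoin_le_iff]
    rintro _ ⟨_, ⟨j, rfl⟩, rfl⟩
    change σ (al j) ∈ IntermediateField.adjoin F (Set.range al)
    have hmem : al j ∈ IntermediateField.adjoin F (Set.range al) :=
      IntermediateField.subset_adjoin F _ ⟨j, rfl⟩
    by_cases h0 : al j = 0
    · rw [h0, map_zero]
      exact zero_mem _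
    · obtain ⟨a, ha⟩ := hal j
      have h3 : (σ (al j) / al j) ^ N = 1 := by
        rw [div_pow, ← map_pow, ha, AlgEquiv.commutes, div_self]
        rw [← ha]
        exact pow_ne_zero _ h0
      have hζ' : IsPrimitiveRoot (algebraMap κ Ω ζ) N :=
        hζ.map_of_injective (algebraMap κ Ω).injective
      have : NeZero N := ⟨hN.ne'⟩
      obtain ⟨i, -, hi⟩ := hζ'.eq_pow_of_pow_eq_one h3
      have h4 : σ (al j) = algebraMap κ Ω ζ ^ i * al j := by
        rw [hi, div_mul_cancel₀ _ h0]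
      rw [h4]
      refine mul_mem (pow_mem ?_ i) hmem
      rw [IsScalarTower.algebraMap_apply κ F Ω]
      exact IntermediateField.algebraMap_mem _ _
  unfold lvM
  infer_instance

/-- the embedding of `F` into rational functions over `kp` -/
theorem Loc_h (kp : IntermediateField κ Ω) [Algebra.IsAlgebraic κ kp] :
    ∃ h : F →+* RF kp, (∀ x, PhiO κ F kp (h x) = algebraMap F Ω x) ∧
      ∀ q : κ[X], h (algebraMap κ[X] F q) = pF kp (q.map (algebraMap κ kp)) := by
  have hginj : Function.Injective ((pF kp).comp (mapRingHom (algebraMap κ kp))) := by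
    refine (pF_injective kp).comp ?_
    exact Polynomial.map_injective _ (algebraMap κ kp).injective
  let h : F →+* RF kp := IsFractionRing.lift hginj
  have h1 : ∀ q : κ[X], h (algebraMap κ[X] F q) = pF kp (q.map (algebraMap κ kp)) := fun q =>
    IsFractionRing.lift_algebraMap hginj q
  refine ⟨h, fun x => ?_, h1⟩
  obtain ⟨p, q, hq, rfl⟩ := IsFractionRing.div_surjective (A := κ[X]) x
  rw [map_div₀, h1, h1, ← rmap_div, PhiO_map κ F kp p q (nonZeroDivisors.ne_zero hq)]

/-- a common place: the order function w and the induced automorphisms. -/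
theorem loc {𝕂 : Type} [Field 𝕂] [Algebra κ 𝕂] [IsAlgClosed 𝕂] [Algebra.IsAlgebraic κ 𝕂]
    (θ : 𝕂) (kp : IntermediateField κ Ω) [FiniteDimensional κ kp] [Normal κ kp]
    (i : kp →ₐ[κ] 𝕂) (N : ℕ) (hN : (N : κ) ≠ 0) (ζ : κ) (hζ : IsPrimitiveRoot ζ N) {m : ℕ}
    (a : Fin m → κ[X]) (ha : ∀ j, aeval θ (a j) ≠ 0) (al : Fin m → Ω)
    (hal : ∀ j, al j ^ N = algebraMap F Ω (algebraMap κ[X] F (a j))) :
    ∃ (w : Ω → ℤ) (abar : Fin m → 𝕂), MulOn (lvM κ F kp al) w ∧
      (∀ f : RF kp, w (PhiO κ F kp f) = rord θ (rmap (i : kp →+* 𝕂) f)) ∧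
      (∀ j, abar j ^ N = aeval θ (a j)) ∧
      ∀ γ : Gal(𝕂/κ), γ θ = θ → ∃ g : Gal(Ω/F), Pres (lvM κ F kp al) w g ∧
        (∀ z : kp, i (rk κ F kp g z) = γ (i z)) ∧
        ∀ (j : Fin m) (n : ℕ), γ (abar j) = algebraMap κ 𝕂 ζ ^ n * abar j ↔
          g (al j) = algebraMap κ Ω ζ ^ n * al j := by
  classical
  have hN0 : 0 < N := by
    rcases Nat.eq_zero_or_pos N with h | h
    · rw [h] at hN
      simp at hN
    · exact h
  have hNK : (N : 𝕂) ≠ 0 := by
    rw [← map_natCast (algebraMap κ 𝕂)]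
    exact (_root_.map_ne_zero _).2 hN
  have hζΩ : IsPrimitiveRoot (algebraMap κ Ω ζ) N :=
    hζ.map_of_injective (algebraMap κ Ω).injective
  have hζ𝕂 : IsPrimitiveRoot (algebraMap κ 𝕂 ζ) N :=
    hζ.map_of_injective (algebraMap κ 𝕂).injective
  have : NeZero N := ⟨hN0.ne'⟩
  obtain ⟨h, hh, hh2⟩ := Loc_h (Ω := Ω) κ F kp
  let ε : RF kp →+* LaurentSeries 𝕂 := (Loc_ev θ).comp (rmap (i : kp →+* 𝕂))
  obtain ⟨e, he⟩ := Loc_e (PhiO κ F kp) ε h hh
  have hinj := (algebraMap (LaurentSeries 𝕂) (AlgebraicClosure (LaurentSeries 𝕂))).injective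
  -- values of `e`
  have heF : ∀ x : F, e (algebraMap F Ω x) = algebraMap _ _ (ε (h x)) := fun x => by
    rw [← hh, he]
  have hεq : ∀ q : κ[X], ε (h (algebraMap κ[X] F q)) = evT θ (q.map (algebraMap κ 𝕂)) := by
    intro q
    rw [hh2]
    change Loc_ev θ (rmap (i : kp →+* 𝕂) (pF kp (q.map (algebraMap κ kp)))) = _
    have h1 := rmap_div (i : kp →+* 𝕂) (q.map (algebraMap κ kp)) 1
    rw [map_one, div_one, Polynomial.map_one, map_one, div_one, Polynomial.map_map] at h1
    rw [h1, Loc_ev_pF]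
    congr 2
    exact i.comp_algebraMap
  have hekp : ∀ z : kp, e (z : Ω) = algebraMap _ _ (HahnSeries.C (i z) : LaurentSeries 𝕂) := by
    intro z
    rw [← PhiO_C κ F kp z, he]
    congr 1
    change Loc_ev θ (rmap (i : kp →+* 𝕂) (pF kp (C z))) = _
    have h1 := rmap_div (i : kp →+* 𝕂) (C z) 1
    rw [map_one, div_one, Polynomial.map_one, map_one, div_one, map_C] at h1
    rw [h1]
    exact Loc_ev_C θ (i z)
  have heζ : e (algebraMap κ Ω ζ) =
      algebraMap _ _ (HahnSeries.C (algebraMap κ 𝕂 ζ) : LaurentSeries 𝕂) := by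
    have h1 := hekp (algebraMap κ kp ζ)
    rw [i.commutes] at h1
    exact h1
  have halN : ∀ j, e (al j) ^ N =
      algebraMap _ _ (evT θ ((a j).map (algebraMap κ 𝕂))) := by
    intro j
    rw [← map_pow, hal, heF, hεq]
  have haθ : ∀ j, ((a j).map (algebraMap κ 𝕂)).eval θ ≠ 0 := by
    intro j
    rw [eval_map_algebraMap]
    exact ha j
  have hal0 : ∀ j, al j ≠ 0 := by
    intro j h0
    have h1 := halN j
    rw [h0, map_zero, zero_pow hN0.ne'] at h1
    have h2 : evT θ ((a j).map (algebraMap κ 𝕂)) = 0 := by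
      apply hinj
      rw [map_zero]
      exact h1.symm
    refine LocA_ne θ _ ?_ h2
    intro h3
    apply haθ j
    rw [h3, eval_zero]
  -- roots of unity
  have hroot : ∀ {B : Type} [Field B] (ζ' : B), IsPrimitiveRoot ζ' N → ∀ x y : B, y ≠ 0 →
      x ^ N = y ^ N → ∃ n : ℕ, x = ζ' ^ n * y := by
    intro B _ ζ' hζ' x y hy hxy
    have h3 : (x / y) ^ N = 1 := by
      rw [div_pow, hxy, div_self (pow_ne_zero _ hy)]
    obtain ⟨n, -, hn⟩ := hζ'.eq_pow_of_pow_eq_one h3
    exact ⟨n, by rw [hn, div_mul_cancel₀ _ hy]⟩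
  -- the image of `M` lies in Laurent series
  have hMle : ∀ z ∈ lvM κ F kp al, ∃ f : LaurentSeries 𝕂, algebraMap _ _ f = e z := by
    let T : IntermediateField F Ω :=
      ((algebraMap (LaurentSeries 𝕂) (AlgebraicClosure (LaurentSeries 𝕂))).fieldRange.comap
        e).toIntermediateField (fun x => ⟨ε (h x), (heF x).symm⟩)
    have hT : lvM κ F kp al ≤ T := by
      refine sup_le ?_ ?_
      · refine IntermediateField.adjoin_le_iff.2 ?_
        intro z hz
        exact ⟨_, (hekp ⟨z, hz⟩).symm⟩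
      · refine IntermediateField.adjoin_le_iff.2 ?_
        rintro _ ⟨j, rfl⟩
        obtain ⟨f, hf⟩ := exists_root_evT θ _ (haθ j) N hNK
        have hf0 : f ≠ 0 := by
          rintro rfl
          rw [zero_pow hN0.ne'] at hf
          refine LocA_ne θ _ ?_ hf.symm
          intro h3
          apply haθ j
          rw [h3, eval_zero]
        obtain ⟨n, hn⟩ := hroot (e (algebraMap κ Ω ζ))
          (hζΩ.map_of_injective e.injective) (e (al j)) (algebraMap _ _ f)
          ((_root_.map_ne_zero _).2 hf0) (by rw [halN, ← map_pow, hf])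
        refine ⟨(HahnSeries.C (algebraMap κ 𝕂 ζ)) ^ n * f, ?_⟩
        rw [map_mul, map_pow, ← heζ, hn]
    exact fun z hz => hT hz
  obtain ⟨f, hf⟩ := Loc_f e (lvM κ F kp al) hMle
  have hfinM : FiniteDimensional F (lvM κ F kp al) := lvM_finite κ F kp al
  have hnorM : Normal F (lvM κ F kp al) :=
    lvM_normal κ F kp N ζ hζ hN0 al (fun j => ⟨_, hal j⟩)
  have hKM : KF κ F kp ≤ lvM κ F kp al := le_sup_left
  have hkpM : ∀ z : kp, (z : Ω) ∈ lvM κ F kp al := fun z =>
    hKM (IntermediateField.subset_adjoin F _ z.2)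
  have halM : ∀ j, al j ∈ lvM κ F kp al := fun j =>
    (le_sup_right : IntermediateField.adjoin F (Set.range al) ≤ lvM κ F kp al)
      (IntermediateField.subset_adjoin F _ ⟨j, rfl⟩)
  have hPhiM : ∀ g : RF kp, PhiO κ F kp g ∈ lvM κ F kp al := fun g =>
    hKM ((mem_KF_iff κ F kp _).2 ⟨g, rfl⟩)
  have hfPhi : ∀ g : RF kp, f ⟨PhiO κ F kp g, hPhiM g⟩ = ε g := fun g =>
    hinj (by rw [hf, ← he])
  have hfkp : ∀ z : kp, f ⟨(z : Ω), hkpM z⟩ = HahnSeries.C (i z) := fun z =>
    hinj (by rw [hf, ← hekp])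
  have hfF : ∀ x : F, f (algebraMap F _ x) = ε (h x) := fun x =>
    hinj (by
      rw [hf, ← heF]
      rfl)
  have hfal : ∀ j, f ⟨al j, halM j⟩ ^ N = evT θ ((a j).map (algebraMap κ 𝕂)) := fun j =>
    hinj (by rw [map_pow, hf, ← halN])
  have hfζ : f (algebraMap κ _ ζ) = HahnSeries.C (algebraMap κ 𝕂 ζ) := hinj (by
    rw [hf, ← heζ]
    rfl)
  -- the order function
  let w : Ω → ℤ := fun z => if hz : z ∈ lvM κ F kp al then (f ⟨z, hz⟩).order else 0
  have hw : ∀ z (hz : z ∈ lvM κ F kp al), w z = (f ⟨z, hz⟩).order := fun z hz => dif_pos hz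
  refine ⟨w, fun j => (f ⟨al j, halM j⟩).coeff 0, ?_, ?_, ?_, ?_⟩
  · intro z₁ hz₁ z₂ hz₂ h1 h2
    rw [hw _ hz₁, hw _ hz₂, hw _ (mul_mem hz₁ hz₂)]
    have h3 : f ⟨z₁ * z₂, mul_mem hz₁ hz₂⟩ = f ⟨z₁, hz₁⟩ * f ⟨z₂, hz₂⟩ := by
      rw [← map_mul]
      rfl
    rw [h3, HahnSeries.order_mul]
    · exact (_root_.map_ne_zero f).2 fun h0 => h1 (congrArg Subtype.val h0)
    · exact (_root_.map_ne_zero f).2 fun h0 => h2 (congrArg Subtype.val h0)
  · intro g
    rw [hw _ (hPhiM g), hfPhi]
    exact Loc_order θ _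
  · intro j
    have := (root_evT θ _ (haθ j) N hN0 _ (hfal j)).2
    rwa [eval_map_algebraMap] at this
  · intro γ hγ
    have hγκ : ∀ x : κ, γ (algebraMap κ 𝕂 x) = algebraMap κ 𝕂 x := γ.commutes
    let γ' : 𝕂 ≃+* 𝕂 := γ
    have hγ' : ∀ x, γ' x = γ x := fun x => rfl
    have hC : ∀ x : 𝕂, lmap γ' (HahnSeries.C x) = HahnSeries.C (γ x) := by
      intro x
      have h0 : ∀ y : 𝕂, evT θ (C y) = HahnSeries.C y := fun y => by simp [evT]
      have h1 := lmap_evT γ' θ hγ (C x)
      rw [map_C, h0, h0] at h1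
      exact h1
    obtain ⟨g, hg⟩ := Loc_g (lvM κ F kp al) f (lmap γ') (by
      intro x
      rw [hfF]
      obtain ⟨p, q, hq, rfl⟩ := IsFractionRing.div_surjective (A := κ[X]) x
      rw [map_div₀, map_div₀, hεq, hεq, map_div₀, lmap_evT γ' θ hγ, lmap_evT γ' θ hγ,
        Polynomial.map_map, Polynomial.map_map]
      have h1 : ((γ' : 𝕂 →+* 𝕂)).comp (algebraMap κ 𝕂) = algebraMap κ 𝕂 := by
        ext x
        exact hγκ x
      rw [h1])
    have hgM : ∀ z (hz : z ∈ lvM κ F kp al), ∃ hz' : g z ∈ lvM κ F kp al,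
        f ⟨g z, hz'⟩ = lmap γ' (f ⟨z, hz⟩) := by
      intro z hz
      have h1 := AlgEquiv.restrictNormal_commutes g (lvM κ F kp al) ⟨z, hz⟩
      have h2 : (((AlgEquiv.restrictNormalHom (lvM κ F kp al) g) ⟨z, hz⟩ :
          lvM κ F kp al) : Ω) = g z := h1
      have hz' : g z ∈ lvM κ F kp al := by
        rw [← h2]
        exact Subtype.property _
      refine ⟨hz', ?_⟩
      rw [← hg ⟨z, hz⟩]
      congr 1
      exact Subtype.ext h2.symm
    refine ⟨g, ?_, ?_, ?_⟩
    · intro z hz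
      obtain ⟨hz', h1⟩ := hgM z hz
      rw [hw _ hz, hw _ hz', h1, lmap_order]
    · intro z
      obtain ⟨hz', h1⟩ := hgM z (hkpM z)
      rw [hfkp, hC] at h1
      have h2 : (⟨g (z : Ω), hz'⟩ : lvM κ F kp al) =
          ⟨((rk κ F kp g z : kp) : Ω), hkpM _⟩ := Subtype.ext (rk_apply κ F kp g z).symm
      rw [h2, hfkp] at h1
      exact HahnSeries.C_injective h1
    · intro j n
      have hord := root_evT θ _ (haθ j) N hN0 _ (hfal j)
      have habar : (f ⟨al j, halM j⟩).coeff 0 ≠ 0 := by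
        intro h0
        rw [h0, zero_pow hN0.ne'] at hord
        exact haθ j hord.2.symm
      obtain ⟨k, hk⟩ := hroot (algebraMap κ Ω ζ) hζΩ (g (al j)) (al j) (hal0 j) (by
        rw [← map_pow, hal, AlgEquiv.commutes])
      obtain ⟨hz', h1⟩ := hgM (al j) (halM j)
      have h2 : (⟨g (al j), hz'⟩ : lvM κ F kp al) =
          (algebraMap κ _ ζ) ^ k * ⟨al j, halM j⟩ := Subtype.ext (by
            change g (al j) = algebraMap κ Ω ζ ^ k * al j
            exact hk)
      rw [h2, map_mul, map_pow, hfζ, ← map_pow] at h1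
      have h3 := congrArg (fun s : LaurentSeries 𝕂 => s.coeff 0) h1
      have h4 : γ ((f ⟨al j, halM j⟩).coeff 0) =
          algebraMap κ 𝕂 ζ ^ k * (f ⟨al j, halM j⟩).coeff 0 := by
        have h5 : (HahnSeries.C (algebraMap κ 𝕂 ζ ^ k) * f ⟨al j, halM j⟩ :
            LaurentSeries 𝕂).coeff 0 = algebraMap κ 𝕂 ζ ^ k * (f ⟨al j, halM j⟩).coeff 0 := by
          rw [HahnSeries.C_mul_eq_smul]
          rfl
        rw [← h5]
        exact h3.symm
      rw [h4, hk]
      constructor
      · intro h5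
        have h6 := mul_right_cancel₀ habar h5
        rw [← map_pow, ← map_pow] at h6
        rw [← map_pow, ← map_pow, (algebraMap κ 𝕂).injective h6]
      · intro h5
        have h6 := mul_right_cancel₀ (hal0 j) h5
        rw [← map_pow, ← map_pow] at h6
        rw [← map_pow, ← map_pow, (algebraMap κ Ω).injective h6]

end

end W42
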