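import Pool.Agent.W_42fc02_h90.BSym
import Pool.Agent.W_42fc02_h90.Loc

/-!
BSpec (hand-in B, proofs row 475, N6): specialisation at y = theta in kappa of a trivial symbol of
units. F = kappa(y), Omega / F, Omega1 / kappa separable closures. a, b in kappa[X] not vanishing at
theta, (a, b)_N = 1 in Br(F). Then (a(theta), b(theta))_N = 1 in Br(kappa).

Proof. N is not 0 in kappa, zeta primitive N-th root of 1. M = F(beta) (IntermediateField.adjoin F
{beta}): finite, normal (roots zeta^i beta). symc has level M (GenA_lev2) and is trivial, so by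
exists_lev1_of_beq there is b1 of level M with symc = dB b1.
Embedding: LL = LaurentSeries Omega1. ev : F -> LL, X -> C theta + T, coefficients kappa -> Omega1 -> LL
(IsFractionRing.lift; injective because p -> p(theta + T) is injective: evT_injective with KK := Omega1
and Polynomial.map). B(T) in LL with B^N = b(theta + T), order 0, constant coefficient beta1
(exists_root_evT needs an N-th root of b(theta): the proof there uses IsAlgClosed only for this; here
beta1 is given; Hensel; see LocA.lean. After multiplying by a power of zeta the constant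
coefficient is beta1). Loc_e, Loc_f: e : Omega -> AlgebraicClosure LL extending ev; e(beta) is an N-th
root of B^N, so e(beta) = zeta^i B in LL, e(M) in LL: f : M -> LL.
For sigma in Gal(Omega1/kappa): lmap sigma : LL -> LL (coefficientwise; LocA), it fixes ev(F); Loc_g:
g_sigma in Gal(Omega/F) with f(g_sigma z) = lmap sigma (f z) for z in M. If sigma beta1 = zeta^n beta1
then lmap sigma B = zeta^n B (both are N-th roots of the same series, compare the constant
coefficients), so g_sigma beta = zeta^n beta: psi N zeta beta g_sigma = psi N zeta beta1 sigma. So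
g_(sigma tau) and g_sigma g_tau agree on beta, hence on M.
lam : M* -> Omega1*, z -> leading coefficient of f z (HahnSeries.leadingCoeff, multiplicative),
lam(g_sigma z) = sigma (lam z), lam a = a(theta) (order 0 and constant coefficient a(theta)).
bb sigma := lam (b1 g_sigma): depends only on psi N zeta beta1 sigma (b1 has level M), so Fin1
(Sym_fin1), and applying lam to symc = dB b1 at g_sigma, g_tau gives
symc N zeta a(theta) beta1 sigma tau = dB bb sigma tau.
-/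

namespace W42

open Polynomial

/-! ### Laurent series -/

theorem BSpec_root {𝕂 : Type} [Field 𝕂] (θ : 𝕂) (p : 𝕂[X]) (hp : p.eval θ ≠ 0) (N : ℕ)
    (hN : (N : 𝕂) ≠ 0) (s : 𝕂) (hs : s ^ N = p.eval θ) :
    ∃ f : LaurentSeries 𝕂, f ^ N = evT θ p ∧ f.coeff 0 = s := by
  have hN0 : 0 < N := by
    rcases Nat.eq_zero_or_pos N with h | h
    · rw [h] at hN
      simp at hN
    · exact h
  have hs0 : s ≠ 0 := by
    rintro rfl
    rw [zero_pow hN0.ne'] at hs
    exact hp hs.symm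
  let u := LocA_evP θ p
  let f : (PowerSeries 𝕂)[X] := X ^ N - C u
  have hmonic : f.Monic := monic_X_pow_sub_C u hN0.ne'
  obtain ⟨a, ha, ha2⟩ := HenselianRing.is_henselian (R := PowerSeries 𝕂)
    (I := Ideal.span {PowerSeries.X}) f hmonic (PowerSeries.C s) (by
      rw [Ideal.mem_span_singleton, PowerSeries.X_dvd_iff]
      simp only [f, eval_sub, eval_pow, eval_X, eval_C, map_sub, map_pow,
        PowerSeries.constantCoeff_C]
      rw [LocA_evP_coeff, hs, sub_self]) (by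
      apply IsUnit.map
      rw [PowerSeries.isUnit_iff_constantCoeff]
      have h1 : (derivative f).eval (PowerSeries.C s) =
          (N : PowerSeries 𝕂) * (PowerSeries.C s) ^ (N - 1) := by
        simp [f, derivative_X_pow]
      rw [h1, map_mul, map_pow, PowerSeries.constantCoeff_C, map_natCast]
      exact isUnit_iff_ne_zero.2 (mul_ne_zero hN (pow_ne_zero _ hs0)))
  refine ⟨HahnSeries.ofPowerSeries ℤ 𝕂 a, ?_, ?_⟩
  · rw [← map_pow, LocA_evT_eq]
    congr 1
    have h1 : a ^ N - u = 0 := by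
      have : f.eval a = 0 := ha
      simpa [f] using this
    exact sub_eq_zero.1 h1
  · rw [LocA_coe_zero]
    rw [Ideal.mem_span_singleton, PowerSeries.X_dvd_iff, map_sub, PowerSeries.constantCoeff_C,
      sub_eq_zero] at ha2
    exact ha2

theorem BSpec_lc {𝕂 : Type} [Field 𝕂] (γ : 𝕂 ≃+* 𝕂) (f : LaurentSeries 𝕂) :
    (lmap γ f).leadingCoeff = γ f.leadingCoeff := by
  rw [HahnSeries.leadingCoeff_eq, HahnSeries.leadingCoeff_eq, lmap_order, lmap_coeff]

theorem BSpec_C {𝕂 : Type} [Field 𝕂] (γ : 𝕂 ≃+* 𝕂) (x : 𝕂) :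
    lmap γ (HahnSeries.C x) = HahnSeries.C (γ x) := by
  have h0 : ∀ y : 𝕂, evT (0 : 𝕂) (C y) = HahnSeries.C y := fun y => by simp [evT]
  have h1 := lmap_evT γ 0 (map_zero γ) (C x)
  rw [map_C, h0, h0] at h1
  exact h1

/-- roots of unity -/
theorem BSpec_root1 {B : Type} [Field B] {N : ℕ} (hN : 0 < N) {ζ : B} (hζ : IsPrimitiveRoot ζ N)
    {x y : B} (hy : y ≠ 0) (hxy : x ^ N = y ^ N) : ∃ n : ℕ, x = ζ ^ n * y := by
  have : NeZero N := ⟨hN.ne'⟩
  have h3 : (x / y) ^ N = 1 := by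
    rw [div_pow, hxy, div_self (pow_ne_zero _ hy)]
  obtain ⟨n, -, hn⟩ := hζ.eq_pow_of_pow_eq_one h3
  exact ⟨n, by rw [hn, div_mul_cancel₀ _ hy]⟩

/-- the embedding of kappa(y), y -> theta + t, with values in Laurent series over Omega1 -/
theorem BSpec_ev (κ F : Type) {Ω₁ : Type} [Field κ] [Field F] [Field Ω₁] [Algebra κ F]
    [Algebra κ[X] F] [IsScalarTower κ κ[X] F] [IsFractionRing κ[X] F] [Algebra κ Ω₁] (θ : κ) :
    ∃ ev : F →+* LaurentSeries Ω₁, ∀ q : κ[X], ev (algebraMap κ[X] F q) =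
      evT (algebraMap κ Ω₁ θ) (q.map (algebraMap κ Ω₁)) := by
  have hginj : Function.Injective ((evT (algebraMap κ Ω₁ θ)).comp
      (mapRingHom (algebraMap κ Ω₁))) := by
    refine (evT_injective _).comp ?_
    exact Polynomial.map_injective _ (algebraMap κ Ω₁).injective
  exact ⟨IsFractionRing.lift hginj, fun q => IsFractionRing.lift_algebraMap hginj q⟩

/-- lmap of an automorphism over kappa fixes the image of F -/
theorem BSpec_fix (κ F : Type) {Ω₁ : Type} [Field κ] [Field F] [Field Ω₁] [Algebra κ F]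
    [Algebra κ[X] F] [IsScalarTower κ κ[X] F] [IsFractionRing κ[X] F] [Algebra κ Ω₁] (θ : κ)
    (ev : F →+* LaurentSeries Ω₁) (hev : ∀ q : κ[X], ev (algebraMap κ[X] F q) =
      evT (algebraMap κ Ω₁ θ) (q.map (algebraMap κ Ω₁))) (σ : Gal(Ω₁/κ)) (x : F) :
    lmap (σ : Ω₁ ≃+* Ω₁) (ev x) = ev x := by
  obtain ⟨p, q, hq, rfl⟩ := IsFractionRing.div_surjective (A := κ[X]) x
  have h0 : (((σ : Ω₁ ≃+* Ω₁)) : Ω₁ →+* Ω₁).comp (algebraMap κ Ω₁) = algebraMap κ Ω₁ := by
    ext x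
    exact σ.commutes x
  have h2 : (σ : Ω₁ ≃+* Ω₁) (algebraMap κ Ω₁ θ) = algebraMap κ Ω₁ θ := σ.commutes θ
  have h1 : ∀ q : κ[X], lmap (σ : Ω₁ ≃+* Ω₁) (ev (algebraMap κ[X] F q)) =
      ev (algebraMap κ[X] F q) := by
    intro q
    rw [hev, lmap_evT _ _ h2, Polynomial.map_map, h0]
  rw [map_div₀, map_div₀, h1, h1]

theorem BSpec_normal {F Ω : Type} [Field F] [Field Ω] [Algebra F Ω] [IsGalois F Ω] {N : ℕ}
    (hN : 0 < N) {ζ : F} (hζ : IsPrimitiveRoot ζ N) {β : Ω} (hβ : IsRt N F β) :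
    Normal F (IntermediateField.adjoin F {β}) := by
  rw [IntermediateField.normal_iff_forall_map_le']
  intro σ
  rw [IntermediateField.adjoin_map, IntermediateField.adjoin_le_iff]
  rintro _ ⟨x, hx, rfl⟩
  have hx' : x = β := hx
  change σ x ∈ IntermediateField.adjoin F {β}
  rw [hx', psi_spec hN hζ hβ]
  exact mul_mem (pow_mem (IntermediateField.algebraMap_mem _ _) _)
    (IntermediateField.mem_adjoin_simple_self F β)

/-- automorphisms which agree on beta agree on F(beta) -/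
theorem BSpec_agree {F Ω : Type} [Field F] [Field Ω] [Algebra F Ω] (β : Ω) (g g' : Gal(Ω/F))
    (h : g β = g' β) : ∀ z ∈ IntermediateField.adjoin F {β}, g z = g' z := by
  intro z hz
  refine IntermediateField.adjoin_induction F (p := fun z _ => g z = g' z) ?_ ?_ ?_ ?_ ?_ hz
  · rintro x rfl
    exact h
  · intro x
    rw [AlgEquiv.commutes, AlgEquiv.commutes]
  · intro x y _ _ hx hy
    rw [map_add, map_add, hx, hy]
  · intro x _ hx
    rw [map_inv₀, map_inv₀, hx]
  · intro x y _ _ hx hy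
    rw [map_mul, map_mul, hx, hy]

theorem spec_symb (κ F : Type) {Ω Ω₁ : Type} [Field κ] [Field F] [Field Ω] [Field Ω₁]
    [Algebra κ F] [Algebra κ[X] F] [IsScalarTower κ κ[X] F] [IsFractionRing κ[X] F]
    [Algebra F Ω] [IsGalois F Ω] [IsSepClosed Ω] [Algebra κ Ω₁] [IsGalois κ Ω₁] [IsSepClosed Ω₁]
    (N : ℕ) (hN : (N : κ) ≠ 0) (ζ : κ) (hζ : IsPrimitiveRoot ζ N) (θ : κ) (a b : κ[X])
    (ha : a.eval θ ≠ 0) (hb : b.eval θ ≠ 0) (u : Fˣ) (hu : (u : F) = algebraMap κ[X] F a) (β : Ω)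
    (hβ : β ^ N = algebraMap F Ω (algebraMap κ[X] F b))
    (h : BEq (symc N (algebraMap κ F ζ) u β) c1) (β₁ : Ω₁)
    (hβ₁ : β₁ ^ N = algebraMap κ Ω₁ (b.eval θ)) :
    BEq (symc N ζ (Units.mk0 (a.eval θ) ha) β₁) c1 := by
  classical
  have hN0 : 0 < N := by
    rcases Nat.eq_zero_or_pos N with h | h
    · rw [h] at hN
      simp at hN
    · exact h
  have : NeZero N := ⟨hN0.ne'⟩
  have hζF : IsPrimitiveRoot (algebraMap κ F ζ) N :=
    hζ.map_of_injective (algebraMap κ F).injective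
  have hζ₁ : IsPrimitiveRoot (algebraMap κ Ω₁ ζ) N :=
    hζ.map_of_injective (algebraMap κ Ω₁).injective
  have hinjX : Function.Injective (algebraMap κ[X] F) := IsFractionRing.injective κ[X] F
  have hb0 : b ≠ 0 := by
    rintro rfl
    exact hb eval_zero
  have ha0 : a ≠ 0 := by
    rintro rfl
    exact ha eval_zero
  have hβrt : IsRt N F β := ⟨algebraMap κ[X] F b, by
    rwa [Ne, map_eq_zero_iff _ hinjX], hβ⟩
  have hβ₁rt : IsRt N κ β₁ := ⟨b.eval θ, hb, hβ₁⟩
  obtain ⟨M, hMdef⟩ : ∃ M, M = IntermediateField.adjoin F {β} := ⟨_, rfl⟩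
  have hMfin : FiniteDimensional F M := by
    rw [hMdef]
    exact IntermediateField.adjoin.finiteDimensional (Algebra.IsIntegral.isIntegral β)
  have hMnor : Normal F M := by
    rw [hMdef]
    exact BSpec_normal hN0 hζF hβrt
  have hβM : β ∈ M := by
    rw [hMdef]
    exact IntermediateField.mem_adjoin_simple_self F β
  have hagree : ∀ g g' : Gal(Ω/F), g β = g' β → ∀ z ∈ M, g z = g' z := by
    rw [hMdef]
    exact BSpec_agree β
  obtain ⟨b1, hb1, hb1e⟩ := exists_lev1_of_beq M (symc_bc hN0 hζF hβrt u).1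
    (bc_one (F := F) (Ω := Ω)).1
    (GenA_lev2 hN0 hζF hβrt u M hβM) ⟨fun _ _ => M.one_mem, fun _ _ _ _ _ _ => rfl⟩ h
  obtain ⟨ev, hev⟩ := BSpec_ev κ F (Ω₁ := Ω₁) θ
  obtain ⟨e, he⟩ := Loc_e (algebraMap F Ω) ev (RingHom.id F) (fun x => rfl)
  have hinj := (algebraMap (LaurentSeries Ω₁) (AlgebraicClosure (LaurentSeries Ω₁))).injective
  have hmapeval : ∀ p : κ[X], (p.map (algebraMap κ Ω₁)).eval (algebraMap κ Ω₁ θ) =
      algebraMap κ Ω₁ (p.eval θ) := fun p => by
    rw [eval_map_algebraMap, aeval_algebraMap_apply, coe_aeval_eq_eval]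
  have hmap0 : ∀ p : κ[X], p.eval θ ≠ 0 →
      (p.map (algebraMap κ Ω₁)).eval (algebraMap κ Ω₁ θ) ≠ 0 := fun p hp => by
    rw [hmapeval]
    exact (_root_.map_ne_zero _).2 hp
  have hNΩ : (N : Ω₁) ≠ 0 := by
    rw [← map_natCast (algebraMap κ Ω₁)]
    exact (_root_.map_ne_zero _).2 hN
  obtain ⟨B, hBN, hB0⟩ := BSpec_root (algebraMap κ Ω₁ θ) (b.map (algebraMap κ Ω₁)) (hmap0 b hb)
    N hNΩ β₁ (by rw [hmapeval, hβ₁])
  have hBne : B ≠ 0 := by
    rintro rfl
    rw [zero_pow hN0.ne'] at hBN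
    refine LocA_ne _ _ ?_ hBN.symm
    intro h3
    apply hmap0 b hb
    rw [h3, eval_zero]
  have hβ₁0 : β₁ ≠ 0 := hβ₁rt.ne_zero hN0
  have heN : e β ^ N = algebraMap _ _ (B ^ N) := by
    rw [← map_pow, hβ, he, hev, hBN]
  have heζ : e (algebraMap F Ω (algebraMap κ F ζ)) =
      algebraMap _ _ (HahnSeries.C (algebraMap κ Ω₁ ζ) : LaurentSeries Ω₁) := by
    rw [he]
    have h1 : algebraMap κ F ζ = algebraMap κ[X] F (C ζ) := by
      rw [IsScalarTower.algebraMap_apply κ κ[X] F]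
      rfl
    rw [h1, hev, map_C]
    simp [evT]
  obtain ⟨i, hi⟩ := BSpec_root1 hN0
    ((hζF.map_of_injective (algebraMap F Ω).injective).map_of_injective e.injective)
    (x := e β) (y := algebraMap _ _ B) ((_root_.map_ne_zero _).2 hBne) (by rw [heN, map_pow])
  have hMle : ∀ z ∈ M, ∃ f : LaurentSeries Ω₁, algebraMap _ _ f = e z := by
    let T : IntermediateField F Ω :=
      ((algebraMap (LaurentSeries Ω₁) (AlgebraicClosure (LaurentSeries Ω₁))).fieldRange.comap
        e).toIntermediateField (fun x => ⟨ev x, (he x).symm⟩)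
    have hT : M ≤ T := by
      rw [hMdef]
      refine IntermediateField.adjoin_le_iff.2 ?_
      rintro _ rfl
      refine ⟨(HahnSeries.C (algebraMap κ Ω₁ ζ)) ^ i * B, ?_⟩
      rw [map_mul, map_pow, ← heζ, ← hi]
    exact fun z hz => hT hz
  obtain ⟨f, hf⟩ := Loc_f e M hMle
  have hfF : ∀ x : F, f (algebraMap F M x) = ev x := fun x => hinj (by
    rw [hf, ← he]
    rfl)
  have hfβ : f ⟨β, hβM⟩ = (HahnSeries.C (algebraMap κ Ω₁ ζ)) ^ i * B := hinj (by
    rw [hf, map_mul, map_pow, ← heζ, ← hi])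
  -- the lifts
  have hlift : ∀ σ : Gal(Ω₁/κ), ∃ g : Gal(Ω/F), ∀ z : M,
      f (AlgEquiv.restrictNormalHom M g z) = lmap (σ : Ω₁ ≃+* Ω₁) (f z) := by
    intro σ
    exact Loc_g M f (lmap (σ : Ω₁ ≃+* Ω₁)) fun x => by
      rw [hfF]
      exact BSpec_fix κ F θ ev hev σ x
  choose g hg using hlift
  have hgM : ∀ (σ : Gal(Ω₁/κ)) (z : Ω) (hz : z ∈ M), ∃ hz' : g σ z ∈ M,
      f ⟨g σ z, hz'⟩ = lmap (σ : Ω₁ ≃+* Ω₁) (f ⟨z, hz⟩) := by
    intro σ z hz
    have h2 : (((AlgEquiv.restrictNormalHom M (g σ)) ⟨z, hz⟩ : M) : Ω) = g σ z :=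
      AlgEquiv.restrictNormal_commutes (g σ) M ⟨z, hz⟩
    have hz' : g σ z ∈ M := by
      rw [← h2]
      exact Subtype.property _
    refine ⟨hz', ?_⟩
    rw [← hg σ ⟨z, hz⟩]
    congr 1
    exact Subtype.ext h2.symm
  have hgβ : ∀ σ : Gal(Ω₁/κ), g σ β =
      algebraMap F Ω (algebraMap κ F ζ) ^ (psi N ζ β₁ σ).val * β := by
    intro σ
    obtain ⟨hz', h1⟩ := hgM σ β hβM
    have h2 : (lmap (σ : Ω₁ ≃+* Ω₁) B) ^ N = B ^ N := by
      rw [← map_pow, hBN, ← hev]
      exact BSpec_fix κ F θ ev hev σ _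
    have hζL : IsPrimitiveRoot (HahnSeries.C (algebraMap κ Ω₁ ζ) : LaurentSeries Ω₁) N :=
      hζ₁.map_of_injective HahnSeries.C_injective
    obtain ⟨m, hm⟩ := BSpec_root1 hN0 hζL hBne h2
    have h3 : σ β₁ = algebraMap κ Ω₁ ζ ^ m * β₁ := by
      have h4 := congrArg (fun s : LaurentSeries Ω₁ => s.coeff 0) hm
      have h5 : (HahnSeries.C (algebraMap κ Ω₁ ζ) ^ m * B : LaurentSeries Ω₁).coeff 0 =
          algebraMap κ Ω₁ ζ ^ m * B.coeff 0 := by
        rw [← map_pow, HahnSeries.C_mul_eq_smul]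
        rfl
      have h6 : (lmap (σ : Ω₁ ≃+* Ω₁) B).coeff 0 = σ (B.coeff 0) := rfl
      rw [← hB0, ← h5, ← h6]
      exact h4
    rw [psi_spec hN0 hζ hβ₁rt] at h3
    have h4 := mul_right_cancel₀ hβ₁0 h3
    rw [hfβ, map_mul, map_pow, BSpec_C, hm] at h1
    have h5 : (σ : Ω₁ ≃+* Ω₁) (algebraMap κ Ω₁ ζ) = algebraMap κ Ω₁ ζ := σ.commutes ζ
    rw [h5, ← map_pow HahnSeries.C _ m, ← h4, map_pow] at h1
    have h6 : f ⟨g σ β, hz'⟩ = f ((algebraMap F M (algebraMap κ F ζ)) ^ (psi N ζ β₁ σ).val *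
        ⟨β, hβM⟩) := by
      rw [h1, map_mul, hfβ, map_pow, hfF]
      have h7 : ev (algebraMap κ F ζ) = HahnSeries.C (algebraMap κ Ω₁ ζ) := hinj (by
        rw [← he, heζ])
      rw [h7]
      ring
    have h8 := congrArg (Subtype.val) (f.injective h6)
    exact h8
  have hgpsi : ∀ σ : Gal(Ω₁/κ), psi N (algebraMap κ F ζ) β (g σ) = psi N ζ β₁ σ := by
    intro σ
    rw [psi_unique hN0 hζF hβrt (g σ) _ (hgβ σ), ZMod.natCast_zmod_val]
  have hgmul : ∀ σ τ : Gal(Ω₁/κ), ∀ z ∈ M, g (σ * τ) z = (g σ * g τ) z := by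
    intro σ τ z hz
    obtain ⟨h1, h1'⟩ := hgM (σ * τ) z hz
    obtain ⟨h2, h2'⟩ := hgM τ z hz
    obtain ⟨h3, h3'⟩ := hgM σ _ h2
    have h4 : f ⟨g (σ * τ) z, h1⟩ = f ⟨g σ (g τ z), h3⟩ := by
      rw [h1', h3', h2']
      rfl
    exact congrArg Subtype.val (f.injective h4)
  -- leading coefficients
  let lc : M → Ω₁ := fun z => (f z).leadingCoeff
  have hlc0 : ∀ z : M, z ≠ 0 → lc z ≠ 0 := fun z hz =>
    HahnSeries.leadingCoeff_ne_zero.2 ((_root_.map_ne_zero f).2 hz)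
  have hlcmul : ∀ z z' : M, lc (z * z') = lc z * lc z' := fun z z' => by
    change (f (z * z')).leadingCoeff = _
    rw [map_mul, HahnSeries.leadingCoeff_mul]
  let bM : Gal(Ω/F) → M := fun s => ⟨(b1 s : Ω), hb1.1 s⟩
  have hbM0 : ∀ s, bM s ≠ 0 := fun s h0 => (b1 s).ne_zero (congrArg Subtype.val h0)
  let bb : Gal(Ω₁/κ) → Ω₁ˣ := fun σ => Units.mk0 (lc (bM (g σ))) (hlc0 _ (hbM0 _))
  have hbbcongr : ∀ σ τ, psi N ζ β₁ σ = psi N ζ β₁ τ → bb σ = bb τ := by
    intro σ τ hst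
    have h1 : g σ β = g τ β := by rw [hgβ, hgβ, hst]
    have h2 : b1 (g σ) = b1 (g τ) := hb1.2 _ _ (hagree _ _ h1)
    apply Units.ext
    change lc (bM (g σ)) = lc (bM (g τ))
    congr 1
    exact Subtype.ext (congrArg Units.val h2)
  refine ⟨bb, ?_, ?_⟩
  · let F1 : ZMod N → Ω₁ˣ := fun j => if h : ∃ σ, psi N ζ β₁ σ = j then bb h.choose else 1
    have hF1 : bb = fun σ => F1 (psi N ζ β₁ σ) := by
      funext σ
      have h1 : ∃ σ', psi N ζ β₁ σ' = psi N ζ β₁ σ := ⟨σ, rfl⟩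
      change bb σ = dite _ _ _
      rw [dif_pos h1]
      exact hbbcongr _ _ h1.choose_spec.symm
    rw [hF1]
    refine Sym_fin1 β₁ (Finset.univ.image fun j => ((F1 j : Ω₁ˣ) : Ω₁)) F1 ?_
    intro L hL j
    exact hL _ (Finset.mem_image_of_mem _ (Finset.mem_univ j))
  · intro σ τ
    have h1 := hb1e (g σ) (g τ)
    unfold symc dB c1 at h1 ⊢
    rw [hgpsi, hgpsi, one_mul] at h1
    rw [one_mul]
    obtain ⟨r, hr⟩ : ∃ r, r = carry (psi N ζ β₁ σ) (psi N ζ β₁ τ) := ⟨_, rfl⟩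
    rw [← hr] at h1 ⊢
    have h2 : b1 (g σ * g τ) = b1 (g (σ * τ)) :=
      hb1.2 _ _ fun z hz => (hgmul σ τ z hz).symm
    rw [h2, eq_div_iff_mul_eq'] at h1
    rw [eq_div_iff_mul_eq']
    apply Units.ext
    obtain ⟨hz', h3⟩ := hgM σ _ (hb1.1 (g τ))
    have h4 : (algebraMap F M (u : F)) ^ r * bM (g (σ * τ)) = bM (g σ) * ⟨_, hz'⟩ := by
      apply Subtype.ext
      exact congrArg Units.val h1
    have h5 := congrArg lc h4
    have h6 : lc ((algebraMap F M (u : F)) ^ r) = algebraMap κ Ω₁ (a.eval θ) ^ r := by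
      have h7 : ∀ m : ℕ, lc ((algebraMap F M (u : F)) ^ m) = lc (algebraMap F M (u : F)) ^ m := by
        intro m
        induction m with
        | zero =>
          rw [pow_zero, pow_zero]
          change (f 1).leadingCoeff = 1
          rw [map_one, HahnSeries.leadingCoeff_one]
        | succ m ih => rw [pow_succ, hlcmul, ih, pow_succ]
      rw [h7]
      congr 1
      change (f (algebraMap F M (u : F))).leadingCoeff = _
      rw [hfF, hu, hev, HahnSeries.leadingCoeff_eq, LocA_order_q _ _ (hmap0 a ha), evT_coeff_zero,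
        hmapeval]
    have h8 : lc ⟨_, hz'⟩ = σ (lc (bM (g τ))) := by
      change (f ⟨_, hz'⟩).leadingCoeff = _
      rw [h3, BSpec_lc]
      rfl
    rw [hlcmul, hlcmul, h6, h8] at h5
    exact h5

end W42
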