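import Mathlib

/-!
KillA: abstract form of the killing argument. R a UFD with fraction field F, s : F* x F* -> A bilinear
(A a commutative group) with the Steinberg relation; p_i primes of R with s(p_i, .) = s(., p_i) = 1 and
condition (D). Then s = 1.

Proof. (1) s(c,-c) = 1 for c not 1: -c = (1-c)/(1-1/c), s(c,1-c) = 1, s(c, 1-1/c) = s(1/c,1-1/c)^-1 = 1;
c = 1: s(1,.) = 1. Hence s(c,c) = s(c,-1). (2) every element of F* is a product of units of R, primes
and inverses, so by bilinearity it suffices that s(c,d) = 1 for c, d in R units or primes. (3) If p_i | c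
(c prime) then c = u p_i: reduces to s(u, d). Same for d. (4) c, d not divisible by any p_i, relatively
prime: (D) gives p_a = c + d t, p_b = t + c p_e; t is not 0 (p_a does not divide c, or c would be p_a);
s(c/p_a, d t/p_a) = 1 gives s(c, d t) = 1; s(c p_e / p_b, t / p_b) = 1 gives s(c p_e, t) = 1, s(c, t) = 1;
so s(c,d) = 1. (5) c, d associated primes: d = v c: s(c, v c) = s(c,v) s(c,-1) = 1 by (4).
-/

namespace W42

/-- the unit of the fraction field given by a nonzero element -/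
noncomputable def KillA_U {R : Type} (F : Type) [CommRing R] [IsDomain R] [Field F] [Algebra R F]
    [IsFractionRing R F] (c : R) (hc : c ≠ 0) : Fˣ :=
  Units.mk0 (algebraMap R F c) (by
    rw [Ne, map_eq_zero_iff _ (IsFractionRing.injective R F)]
    exact hc)

theorem KillA_U_mul {R F : Type} [CommRing R] [IsDomain R] [Field F] [Algebra R F]
    [IsFractionRing R F] {c d : R} (hc : c ≠ 0) (hd : d ≠ 0) :
    KillA_U F (c * d) (mul_ne_zero hc hd) = KillA_U F c hc * KillA_U F d hd := by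
  apply Units.ext
  exact map_mul (algebraMap R F) c d

theorem kill_abs {R F A : Type} [CommRing R] [IsDomain R] [UniqueFactorizationMonoid R]
    [Field F] [Algebra R F] [IsFractionRing R F] [CommGroup A] (s : Fˣ → Fˣ → A)
    (hl : ∀ a a' b, s (a * a') b = s a b * s a' b) (hr : ∀ a b b', s a (b * b') = s a b * s a b')
    (hst : ∀ a b : Fˣ, (a : F) + (b : F) = 1 → s a b = 1) (p : ℕ → R)
    (hp : ∀ i, Prime (p i))
    (hpl : ∀ i (a b : Fˣ), (a : F) = algebraMap R F (p i) → s a b = 1)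
    (hpr : ∀ i (a b : Fˣ), (b : F) = algebraMap R F (p i) → s a b = 1)
    (hD : ∀ c d : R, c ≠ 0 → d ≠ 0 → IsRelPrime c d → (∀ i, ¬ p i ∣ c) → (∀ i, ¬ p i ∣ d) →
      ∃ (t : R) (a b e : ℕ), p a = c + d * t ∧ p b = t + c * p e) (a b : Fˣ) : s a b = 1 := by
  classical
  let Lh : Fˣ → Fˣ →* A := fun b => MonoidHom.mk' (fun a => s a b) (fun a a' => hl a a' b)
  let Rh : Fˣ → Fˣ →* A := fun a => MonoidHom.mk' (fun b => s a b) (fun b b' => hr a b b')
  have hli : ∀ a b, s a⁻¹ b = (s a b)⁻¹ := fun a b => map_inv (Lh b) a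
  have hri : ∀ a b, s a b⁻¹ = (s a b)⁻¹ := fun a b => map_inv (Rh a) b
  have hld : ∀ a a' b, s (a / a') b = s a b / s a' b := fun a a' b => map_div (Lh b) a a'
  have hrd : ∀ a b b', s a (b / b') = s a b / s a b' := fun a b b' => map_div (Rh a) b b'
  have h1l : ∀ b, s 1 b = 1 := fun b => map_one (Lh b)
  -- (1)
  have hneg : ∀ c : Fˣ, s c (-c) = 1 := by
    intro c
    by_cases hc1 : (c : F) = 1
    · have : c = 1 := Units.ext hc1
      rw [this, h1l]
    · have h1 : (1 : F) - c ≠ 0 := sub_ne_zero.2 (Ne.symm hc1)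
      have h2 : (1 : F) - (c : F)⁻¹ ≠ 0 := by
        rw [sub_ne_zero]
        intro h
        apply hc1
        rw [← inv_inv (c : F), ← h, inv_one]
      have h3 : -c = Units.mk0 _ h1 / Units.mk0 _ h2 := by
        rw [eq_div_iff_mul_eq']
        apply Units.ext
        rw [Units.val_mul, Units.val_neg, Units.val_mk0, Units.val_mk0]
        have := c.ne_zero
        field_simp
        ring
      rw [h3, hrd]
      have h4 : s c (Units.mk0 _ h1) = 1 := hst _ _ (by rw [Units.val_mk0]; ring)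
      have h5 : s c⁻¹ (Units.mk0 _ h2) = 1 := hst _ _ (by
        rw [Units.val_mk0, Units.val_inv_eq_inv_val]
        ring)
      rw [hli, inv_eq_one] at h5
      rw [h4, h5, div_one]
  -- notation
  let U : ∀ c : R, c ≠ 0 → Fˣ := fun c hc => KillA_U F c hc
  have hUv : ∀ c hc, ((U c hc : Fˣ) : F) = algebraMap R F c := fun c hc => rfl
  have hUm : ∀ (c d : R) (hc : c ≠ 0) (hd : d ≠ 0) (hcd : c * d ≠ 0),
      U (c * d) hcd = U c hc * U d hd := fun c d hc hd hcd => KillA_U_mul hc hd
  have hpne : ∀ i, p i ≠ 0 := fun i => (hp i).ne_zero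
  have hpl' : ∀ i b, s (U (p i) (hpne i)) b = 1 := fun i b => hpl i _ _ rfl
  have hpr' : ∀ i a, s a (U (p i) (hpne i)) = 1 := fun i a => hpr i _ _ rfl
  -- (4)
  have h4 : ∀ (c d : R) (hc : c ≠ 0) (hd : d ≠ 0), IsRelPrime c d → (∀ i, ¬ p i ∣ c) →
      (∀ i, ¬ p i ∣ d) → s (U c hc) (U d hd) = 1 := by
    intro c d hc hd hcd hpc hpd
    obtain ⟨t, i, j, e, h1, h2⟩ := hD c d hc hd hcd hpc hpd
    have ht : t ≠ 0 := by
      rintro rfl
      rw [mul_zero, add_zero] at h1
      exact hpc i h1.dvd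
    have hpi0 : algebraMap R F (p i) ≠ 0 := (U (p i) (hpne i)).ne_zero
    have hpj0 : algebraMap R F (p j) ≠ 0 := (U (p j) (hpne j)).ne_zero
    have e1 : s (U c hc / U (p i) (hpne i)) (U (d * t) (mul_ne_zero hd ht) / U (p i) (hpne i)) =
        1 := by
      apply hst
      rw [Units.val_div_eq_div_val, Units.val_div_eq_div_val, hUv, hUv, hUv, ← add_div, ← map_add,
        ← h1, div_self hpi0]
    rw [hld, hpl', div_one, hrd, hpr', div_one, hUm d t hd ht, hr] at e1
    have e2 : s (U (c * p e) (mul_ne_zero hc (hpne e)) / U (p j) (hpne j))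
        (U t ht / U (p j) (hpne j)) = 1 := by
      apply hst
      rw [Units.val_div_eq_div_val, Units.val_div_eq_div_val, hUv, hUv, hUv, ← add_div, ← map_add,
        add_comm, ← h2, div_self hpj0]
    rw [hld, hpl', div_one, hrd, hpr', div_one, hUm c (p e) hc (hpne e), hl, hpl', mul_one] at e2
    rw [e2, mul_one] at e1
    exact e1
  have hunp : ∀ (u : R), IsUnit u → ∀ i, ¬ p i ∣ u := fun u hu i h =>
    (hp i).not_isUnit (isUnit_of_dvd_unit h hu)
  -- units and primes not divisible by the `p i`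
  have h5 : ∀ (c d : R) (hc : c ≠ 0) (hd : d ≠ 0), (IsUnit c ∨ Prime c) → (IsUnit d ∨ Prime d) →
      (∀ i, ¬ p i ∣ c) → (∀ i, ¬ p i ∣ d) → s (U c hc) (U d hd) = 1 := by
    intro c d hc hd hc1 hd1 hpc hpd
    rcases hc1 with hc1 | hc1
    · exact h4 c d hc hd hc1.isRelPrime_left hpc hpd
    rcases hd1 with hd1 | hd1
    · exact h4 c d hc hd hd1.isRelPrime_right hpc hpd
    by_cases hcd : c ∣ d
    · obtain ⟨v, hv⟩ := (hc1.associated_of_dvd hd1 hcd)
      have hv0 : (v : R) ≠ 0 := v.ne_zero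
      have e1 : U d hd = U c hc * U (v : R) hv0 := by
        apply Units.ext
        rw [Units.val_mul, hUv, hUv, hUv, ← hv, map_mul]
      have e2 : U c hc = -U c hc * U (-1 : R) (neg_ne_zero.2 one_ne_zero) := by
        apply Units.ext
        rw [Units.val_mul, Units.val_neg, hUv, hUv, map_neg, map_one]
        ring
      have hm1 : IsUnit (-1 : R) := isUnit_one.neg
      rw [e1, hr, h4 c v hc hv0 v.isUnit.isRelPrime_right hpc (hunp _ v.isUnit), mul_one]
      calc s (U c hc) (U c hc) = s (U c hc) (-U c hc * U (-1 : R) (neg_ne_zero.2 one_ne_zero)) := by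
            rw [← e2]
        _ = 1 := by
            rw [hr, hneg, one_mul]
            exact h4 c _ hc _ hm1.isRelPrime_right hpc (hunp _ hm1)
    · refine h4 c d hc hd ?_ hpc hpd
      exact (hc1.irreducible.isRelPrime_iff_not_dvd).2 hcd
  have h6 : ∀ (c d : R) (hc : c ≠ 0) (hd : d ≠ 0), (IsUnit c ∨ Prime c) → (IsUnit d ∨ Prime d) →
      (∀ i, ¬ p i ∣ d) → s (U c hc) (U d hd) = 1 := by
    intro c d hc hd hc1 hd1 hpd
    by_cases hpc : ∀ i, ¬ p i ∣ c
    · exact h5 c d hc hd hc1 hd1 hpc hpd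
    · push Not at hpc
      obtain ⟨i, hi⟩ := hpc
      rcases hc1 with hc1 | hc1
      · exact absurd hi (hunp c hc1 i)
      · obtain ⟨v, hv⟩ := (hp i).associated_of_dvd hc1 hi
        have e1 : U c hc = U (p i) (hpne i) * U (v : R) v.ne_zero := by
          apply Units.ext
          rw [Units.val_mul, hUv, hUv, hUv, ← hv, map_mul]
        rw [e1, hl, hpl', one_mul]
        exact h5 _ d _ hd (Or.inl v.isUnit) hd1 (hunp _ v.isUnit) hpd
  have h7 : ∀ (c d : R) (hc : c ≠ 0) (hd : d ≠ 0), (IsUnit c ∨ Prime c) → (IsUnit d ∨ Prime d) →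
      s (U c hc) (U d hd) = 1 := by
    intro c d hc hd hc1 hd1
    by_cases hpd : ∀ i, ¬ p i ∣ d
    · exact h6 c d hc hd hc1 hd1 hpd
    · push Not at hpd
      obtain ⟨i, hi⟩ := hpd
      rcases hd1 with hd1 | hd1
      · exact absurd hi (hunp d hd1 i)
      · obtain ⟨v, hv⟩ := (hp i).associated_of_dvd hd1 hi
        have e1 : U d hd = U (p i) (hpne i) * U (v : R) v.ne_zero := by
          apply Units.ext
          rw [Units.val_mul, hUv, hUv, hUv, ← hv, map_mul]
        rw [e1, hr, hpr', one_mul]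
        exact h6 c _ hc _ hc1 (Or.inl v.isUnit) (hunp _ v.isUnit)
  have h8 : ∀ (c : R) (hc : c ≠ 0), (IsUnit c ∨ Prime c) → ∀ (d : R) (hd : d ≠ 0),
      s (U c hc) (U d hd) = 1 := by
    intro c hc hc1 d
    induction d using UniqueFactorizationMonoid.induction_on_prime with
    | h₁ => exact fun h => absurd rfl h
    | h₂ x hx => exact fun hd => h7 c x hc hd hc1 (Or.inl hx)
    | h₃ x q hx hq ih =>
      intro hd
      rw [hUm q x hq.ne_zero hx hd, hr, ih hx, mul_one]
      exact h7 c q hc _ hc1 (Or.inr hq)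
  have h9 : ∀ (c : R) (hc : c ≠ 0) (d : R) (hd : d ≠ 0), s (U c hc) (U d hd) = 1 := by
    intro c
    induction c using UniqueFactorizationMonoid.induction_on_prime with
    | h₁ => exact fun h => absurd rfl h
    | h₂ x hx => exact fun hc d hd => h8 x hc (Or.inl hx) d hd
    | h₃ x q hx hq ih =>
      intro hc d hd
      rw [hUm q x hq.ne_zero hx hc, hl, ih hx, mul_one]
      exact h8 q _ (Or.inr hq) d hd
  have h10 : ∀ a : Fˣ, ∃ (x y : R) (hx : x ≠ 0) (hy : y ≠ 0), a = U x hx / U y hy := by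
    intro a
    obtain ⟨x, y, hy, hxy⟩ := IsFractionRing.div_surjective (A := R) (a : F)
    have hy0 : y ≠ 0 := nonZeroDivisors.ne_zero hy
    have hx0 : x ≠ 0 := by
      rintro rfl
      rw [map_zero, zero_div] at hxy
      exact a.ne_zero hxy.symm
    refine ⟨x, y, hx0, hy0, ?_⟩
    apply Units.ext
    rw [Units.val_div_eq_div_val, hUv, hUv, hxy]
  obtain ⟨x, y, hx, hy, rfl⟩ := h10 a
  obtain ⟨z, w, hz, hw, rfl⟩ := h10 b
  rw [hld, hrd, hrd, h9, h9, h9, h9]
  simp

end W42
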