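import Pool.Agent.W_42fc02_h90.Sym
import Pool.Agent.W_42fc02_h90.KillA

/-!
KillB: a field K between F = Frac R and Omega which contains N-th roots of the p_i splits all symbols.
A = (cochains) / (cochains split by K), s a b = class of symc a (root of b).
-/

namespace W42

/-- the cochains split by K -/
def KillB_sub {F Ω : Type} [Field F] [Field Ω] [Algebra F Ω] (K : IntermediateField F Ω) :
    Subgroup (Gal(Ω/F) → Gal(Ω/F) → Ωˣ) where
  carrier := {c | Spl K c}
  one_mem' := spl_of_beq_one (BEq.refl _)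
  mul_mem' := fun hx hy => Spl.mul hx hy
  inv_mem' := fun hx => Spl.inv hx

theorem KillB_eq {F Ω : Type} [Field F] [Field Ω] [Algebra F Ω] (K : IntermediateField F Ω)
    {c c' : Gal(Ω/F) → Gal(Ω/F) → Ωˣ} (h : BEq c c') :
    (QuotientGroup.mk c : (Gal(Ω/F) → Gal(Ω/F) → Ωˣ) ⧸ KillB_sub K) = QuotientGroup.mk c' := by
  rw [QuotientGroup.eq]
  show Spl K (c⁻¹ * c')
  refine spl_of_beq_one ?_
  obtain ⟨b, hb, h⟩ := h
  refine ⟨fun σ => (b σ)⁻¹, hb.inv, fun σ τ => ?_⟩
  rw [dB_inv]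
  show (c σ τ)⁻¹ * c' σ τ = 1 * _
  rw [one_mul, h]
  group

theorem kill {R F Ω : Type} [CommRing R] [IsDomain R] [UniqueFactorizationMonoid R]
    [Field F] [Algebra R F] [IsFractionRing R F] [Field Ω] [Algebra F Ω] [IsGalois F Ω]
    [IsSepClosed Ω] (N : ℕ) (hN : (N : F) ≠ 0) (ζ : F) (hζ : IsPrimitiveRoot ζ N) (p : ℕ → R)
    (hp : ∀ i, Prime (p i))
    (hD : ∀ c d : R, c ≠ 0 → d ≠ 0 → IsRelPrime c d → (∀ i, ¬ p i ∣ c) → (∀ i, ¬ p i ∣ d) →
      ∃ (t : R) (a b e : ℕ), p a = c + d * t ∧ p b = t + c * p e)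
    (K : IntermediateField F Ω) (pi : ℕ → Ω) (hpi : ∀ i, pi i ∈ K)
    (hpiN : ∀ i, pi i ^ N = algebraMap F Ω (algebraMap R F (p i))) (a : Fˣ) (β : Ω)
    (hβ : IsRt N F β) : Spl K (symc N ζ a β) := by
  classical
  have hN0 : 0 < N := by
    rcases Nat.eq_zero_or_pos N with h | h
    · rw [h, Nat.cast_zero] at hN
      exact absurd rfl hN
    · exact h
  choose root hroot using fun b : Fˣ => exists_rt (Ω := Ω) N hN (b : F)
  have hrt : ∀ b : Fˣ, IsRt N F (root b) := fun b => ⟨b, b.ne_zero, hroot b⟩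
  let s : Fˣ → Fˣ → (Gal(Ω/F) → Gal(Ω/F) → Ωˣ) ⧸ KillB_sub K :=
    fun a b => QuotientGroup.mk (symc N ζ a (root b))
  have hmem : ∀ c : Gal(Ω/F) → Gal(Ω/F) → Ωˣ,
      (QuotientGroup.mk c : (Gal(Ω/F) → Gal(Ω/F) → Ωˣ) ⧸ KillB_sub K) = 1 ↔ Spl K c :=
    fun c => QuotientGroup.eq_one_iff c
  have hpR : ∀ i, algebraMap R F (p i) ≠ 0 := by
    intro i
    rw [Ne, map_eq_zero_iff _ (IsFractionRing.injective R F)]
    exact (hp i).ne_zero
  have key : ∀ a b : Fˣ, s a b = 1 := by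
    refine kill_abs (R := R) s ?_ ?_ ?_ p hp ?_ ?_ hD
    · intro a a' b
      show QuotientGroup.mk (symc N ζ (a * a') (root b)) = _
      rw [symc_mul_left]
      rfl
    · intro a b b'
      have h1 : symc N ζ a (root (b * b')) = symc N ζ a (root b * root b') := by
        refine symc_root hN0 hζ (hrt _) ?_ a
        rw [mul_pow, hroot, hroot, hroot, Units.val_mul, map_mul]
      show QuotientGroup.mk (symc N ζ a (root (b * b'))) = _
      rw [h1]
      exact KillB_eq K (symc_mul_right hN0 hζ (hrt b) (hrt b') a)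
    · intro a b hab
      refine (hmem _).2 (spl_of_beq_one (steinberg hN0 hζ (hrt b) a ?_))
      rw [hroot, ← map_add, hab, map_one]
    · intro i a b ha
      refine (hmem _).2 (symc_spl_left hN0 hζ K (hrt b) a (pi i) (hpi i) ?_)
      rw [hpiN, ha]
    · intro i a b hb
      have h1 : symc N ζ a (root b) = symc N ζ a (pi i) := by
        refine symc_root hN0 hζ (hrt _) ?_ a
        rw [hroot, hpiN, hb]
      refine (hmem _).2 ?_
      rw [h1]
      exact symc_spl_right hN0 hζ K ⟨_, hpR i, hpiN i⟩ (hpi i) a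
  obtain ⟨b, hb, hβb⟩ := hβ
  have h2 : symc N ζ a β = symc N ζ a (root (Units.mk0 b hb)) := by
    refine symc_root hN0 hζ ⟨b, hb, hβb⟩ ?_ a
    rw [hroot, hβb, Units.val_mk0]
  rw [h2]
  exact (hmem _).1 (key a (Units.mk0 b hb))

end W42
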