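import Pool.Agent.W_42fc02_h90.BGen
import Pool.Agent.W_42fc02_h90.BSpec
import Pool.Agent.W_42fc02_h90.KillB

/-!
BHalf (hand-in B, proofs row 475, N7): 2 eps <= j.

half_contra. Write S(a, b) for the class of symc N z a (root of b), N = l^j, in the group of
cochains modulo BEq to c1 (KillB_sub bot with spl_bot_iff, as in KillB.lean): bimultiplicative
(symc_mul_left, symc_mul_right, symc_root), S^N = 1 (symc_torsion). g in k*, not an l-th power (k* is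
cyclic of order divisible by l). f1 = x, f2 = g + (1 - g) x, f3 = 1 - x, f4 = 1 + (g - 1) x in k[x]:
f3(0) = f4(0) = 1, f2(0) = g, f1 vanishes at 0 to order 1; f4(1) = g, f3 vanishes at 1 to order 1.
f_i = z_i w^(t_i) v_i^l (hgen).
(1) For z, z' in Z: S(z^(l^c), z'^(l^c)) = 1, so S(z, z')^(l^(2c)) = 1, so S(z, z')^(l^(j-1)) = 1
(2c <= j - 1).
(2) If f = z V^l, f' = z' V'^l with z, z' in Z then S(f, f')^(l^(j-1)) = S(z, z')^(l^(j-1)) (S^(l^j) = 1)
= 1.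
(3) If f, f' in k[x], f has multiplicity 1 at theta in k and f'(theta) = g then
S(f, f')^(l^(j-1)) is not 1: symb_res (for k, kappa, Omega1, e = j; KK = AlgebraicClosure k): HasRes
gamma (1 * n / N) for gamma gb = zeta^n gb, gb^N = g; HasRes.pow, HasRes.torsion: l^(j-1) n / N an
integer, so l divides n and gamma fixes gb^(N/l); for all gamma: gb^(N/l) in k (Exc_fix with theta =
0, or directly, k finite hence perfect), g = (gb^(N/l))^l: contradiction.
(4) If l divides t3 and t4: f3 = z3 (w^(t3/l) v3)^l, f4 similarly, (2), (3) at theta = 1. Otherwise let s in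
{3, 4} with l not dividing t_s, choose a, a' with l | t1 + a t_s, l | t2 + a' t_s: f = f1 f_s^a = z V^l
with z = z1 z_s^a in Z, f' = f2 f_s^a' ; (2), (3) at theta = 0 (f_s(0) = 1).

half: by contradiction c = j - eps < eps, Z = {z not 0, z^(l^c) = p(theta) for some p in B}; hgen =
gen_Z; hiso: NegHyp.iso for the roots in K of p, p' (z^(l^c) = p(theta), z'^(l^c) = p'(theta)) and
spec_symb (Omega1 = SeparableClosure kappa).
-/

namespace W42

open Polynomial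

/-- powers of a bimultiplicative map -/
theorem BHalf_pow {M A : Type*} [CommGroup M] [CommGroup A] (S : M → M → A)
    (h1 : ∀ a a' b, S (a * a') b = S a b * S a' b) (h2 : ∀ a b b', S a (b * b') = S a b * S a b')
    (m n : ℕ) (a b : M) : S (a ^ m) (b ^ n) = S a b ^ (m * n) := by
  have e1 : ∀ b, S 1 b = 1 := fun b => by
    have := h1 1 1 b
    rw [one_mul] at this
    exact mul_eq_left.1 this.symm
  have e2 : ∀ a, S a 1 = 1 := fun a => by
    have := h2 a 1 1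
    rw [one_mul] at this
    exact mul_eq_left.1 this.symm
  have p1 : ∀ (m : ℕ) (a b : M), S (a ^ m) b = S a b ^ m := by
    intro m a b
    induction m with
    | zero => rw [pow_zero, pow_zero, e1]
    | succ m ih => rw [pow_succ, h1, ih, pow_succ]
  have p2 : ∀ (m : ℕ) (a b : M), S a (b ^ m) = S a b ^ m := by
    intro m a b
    induction m with
    | zero => rw [pow_zero, pow_zero, e2]
    | succ m ih => rw [pow_succ, h2, ih, pow_succ]
  rw [p1, p2, ← pow_mul, mul_comm]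

theorem BHalf_two {M A : Type*} [CommGroup M] [CommGroup A] (S : M → M → A)
    (h1 : ∀ a a' b, S (a * a') b = S a b * S a' b) (h2 : ∀ a b b', S a (b * b') = S a b * S a b')
    (l j c : ℕ) (h2c : 2 * c < j) (hS : ∀ a b, S a b ^ l ^ j = 1) (z z' V V' : M)
    (hz : S (z ^ l ^ c) (z' ^ l ^ c) = 1) :
    S (z * V ^ l) (z' * V' ^ l) ^ l ^ (j - 1) = 1 := by
  have hj : l ^ j = l * l ^ (j - 1) := by
    rw [← pow_succ']
    congr 1
    omega
  have q1 : ∀ a b, S (a ^ l) b ^ l ^ (j - 1) = 1 := by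
    intro a b
    have := BHalf_pow S h1 h2 l 1 a b
    rw [pow_one, mul_one] at this
    rw [this, ← pow_mul, ← hj, hS]
  have q2 : ∀ a b, S a (b ^ l) ^ l ^ (j - 1) = 1 := by
    intro a b
    have := BHalf_pow S h1 h2 1 l a b
    rw [pow_one, one_mul] at this
    rw [this, ← pow_mul, ← hj, hS]
  have q3 : S z z' ^ l ^ (j - 1) = 1 := by
    rw [BHalf_pow S h1 h2, ← pow_add] at hz
    have h3 : l ^ (j - 1) = l ^ (c + c) * l ^ (j - 1 - (c + c)) := by
      rw [← pow_add]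
      congr 1
      omega
    rw [h3, pow_mul, hz, one_pow]
  rw [h1, h2, mul_pow, mul_pow, q3, q2, q1, one_mul, one_mul]

theorem BHalf_abs {M A : Type*} [CommGroup M] [CommGroup A] (S : M → M → A)
    (h1 : ∀ a a' b, S (a * a') b = S a b * S a' b) (h2 : ∀ a b b', S a (b * b') = S a b * S a b')
    (l j c : ℕ) (hl : l.Prime) (h2c : 2 * c < j) (hS : ∀ a b, S a b ^ l ^ j = 1) (Z : Set M)
    (hZ : ∀ z ∈ Z, ∀ z' ∈ Z, z * z' ∈ Z) (w : M)
    (hgen : ∀ f : M, ∃ z ∈ Z, ∃ (t : ℕ) (v : M), f = z * w ^ t * v ^ l)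
    (hiso : ∀ z ∈ Z, ∀ z' ∈ Z, S (z ^ l ^ c) (z' ^ l ^ c) = 1) (f1 f2 f3 f4 : M)
    (h34 : S f3 f4 ^ l ^ (j - 1) ≠ 1)
    (h13 : ∀ a a' : ℕ, S (f1 * f3 ^ a) (f2 * f3 ^ a') ^ l ^ (j - 1) ≠ 1)
    (h14 : ∀ a a' : ℕ, S (f1 * f4 ^ a) (f2 * f4 ^ a') ^ l ^ (j - 1) ≠ 1) : False := by
  have hZp : ∀ z ∈ Z, ∀ z' ∈ Z, ∀ m : ℕ, z * z' ^ m ∈ Z := by
    intro z hz z' hz' m
    induction m with
    | zero => rwa [pow_zero, mul_one]
    | succ m ih =>
      rw [pow_succ, ← mul_assoc]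
      exact hZ _ ih _ hz'
  -- the case of an exponent prime to l
  have key : ∀ f : M, (∀ a a' : ℕ, S (f1 * f ^ a) (f2 * f ^ a') ^ l ^ (j - 1) ≠ 1) →
      ∃ z ∈ Z, ∃ v : M, f = z * v ^ l := by
    intro f hf
    obtain ⟨z, hz, t, v, rfl⟩ := hgen f
    obtain ⟨z1, hz1, t1, v1, rfl⟩ := hgen f1
    obtain ⟨z2, hz2, t2, v2, rfl⟩ := hgen f2
    by_cases ht : l ∣ t
    · obtain ⟨s, rfl⟩ := ht
      refine ⟨z, hz, w ^ s * v, ?_⟩
      rw [mul_pow, ← pow_mul, mul_comm s l, mul_assoc]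
    · exfalso
      have hex : ∀ r : ℕ, ∃ a : ℕ, l ∣ r + t * a := by
        intro r
        have : Fact l.Prime := ⟨hl⟩
        have ht0 : (t : ZMod l) ≠ 0 := by
          rwa [Ne, ZMod.natCast_eq_zero_iff]
        refine ⟨(-(r : ZMod l) / (t : ZMod l)).val, ?_⟩
        rw [← ZMod.natCast_eq_zero_iff]
        push_cast
        rw [ZMod.natCast_zmod_val]
        field_simp
        ring
      obtain ⟨a, s, ha⟩ := hex t1
      obtain ⟨a', s', ha'⟩ := hex t2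
      refine hf a a' ?_
      have e1 : z1 * w ^ t1 * v1 ^ l * (z * w ^ t * v ^ l) ^ a =
          z1 * z ^ a * (w ^ s * v1 * v ^ a) ^ l := by
        have : w ^ t1 * (w ^ t) ^ a = (w ^ s) ^ l := by
          rw [← pow_mul, ← pow_add, ← pow_mul, ha, mul_comm s l]
        rw [mul_pow, mul_pow, mul_pow, mul_pow, ← this, ← pow_mul v, ← pow_mul v, mul_comm a l]
        simp only [mul_assoc, mul_comm, mul_left_comm]
      have e2 : z2 * w ^ t2 * v2 ^ l * (z * w ^ t * v ^ l) ^ a' =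
          z2 * z ^ a' * (w ^ s' * v2 * v ^ a') ^ l := by
        have : w ^ t2 * (w ^ t) ^ a' = (w ^ s') ^ l := by
          rw [← pow_mul, ← pow_add, ← pow_mul, ha', mul_comm s' l]
        rw [mul_pow, mul_pow, mul_pow, mul_pow, ← this, ← pow_mul v, ← pow_mul v, mul_comm a' l]
        simp only [mul_assoc, mul_comm, mul_left_comm]
      rw [e1, e2]
      exact BHalf_two S h1 h2 l j c h2c hS _ _ _ _ (hiso _ (hZp _ hz1 _ hz _) _ (hZp _ hz2 _ hz _))
  obtain ⟨z3, hz3, v3, rfl⟩ := key f3 h13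
  obtain ⟨z4, hz4, v4, rfl⟩ := key f4 h14
  exact h34 (BHalf_two S h1 h2 l j c h2c hS _ _ _ _ (hiso _ hz3 _ hz4))

/-- an element of a finite field which is not an l-th power -/
theorem BHalf_nonpow {k : Type*} [Field k] [Finite k] (l j : ℕ) (hl : l.Prime) (hj : 0 < j) (ζ : k)
    (hζ : IsPrimitiveRoot ζ (l ^ j)) : ∃ g : k, g ≠ 0 ∧ ∀ v : k, v ^ l ≠ g := by
  by_contra hcon
  push Not at hcon
  have hsurj : Function.Surjective (fun v : k => v ^ l) := by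
    intro g
    by_cases hg : g = 0
    · exact ⟨0, by rw [hg]; exact zero_pow hl.ne_zero⟩
    · exact hcon g hg
  have hinj := Finite.injective_iff_surjective.2 hsurj
  have h1 : (ζ ^ l ^ (j - 1)) ^ l = 1 ^ l := by
    rw [one_pow, ← pow_mul, ← pow_succ, Nat.sub_add_cancel hj, hζ.pow_eq_one]
  have h2 : ζ ^ l ^ (j - 1) = 1 := hinj h1
  have h3 := (hζ.pow_eq_one_iff_dvd _).1 h2
  have h4 := (Nat.pow_dvd_pow_iff_le_right hl.one_lt).1 h3
  omega

/-- (3): the power l^(j-1) of the symbol of f, f' is not trivial if f vanishes at theta to order 1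
and f'(theta) = g is not an l-th power. -/
theorem BHalf_res (k κ : Type) {Ω₁ : Type} [Field k] [Finite k] [Field κ] [Field Ω₁]
    [Algebra k κ] [Algebra k[X] κ] [IsScalarTower k k[X] κ] [IsFractionRing k[X] κ]
    [Algebra κ Ω₁] [Algebra k Ω₁] [IsScalarTower k κ Ω₁] [IsGalois κ Ω₁] [IsSepClosed Ω₁]
    (l j : ℕ) (hl : l.Prime) (hj : 0 < j) (hlk : (l : k) ≠ 0) (ζ : k)
    (hζ : IsPrimitiveRoot ζ (l ^ j)) (g : k) (hg0 : g ≠ 0) (hg : ∀ v : k, v ^ l ≠ g) (θ : k)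
    (f f' : k[X]) (hf : f.rootMultiplicity θ = 1) (hf' : f'.eval θ = g) (a : κˣ)
    (ha : (a : κ) = algebraMap k[X] κ f) (β : Ω₁)
    (hβ : β ^ l ^ j = algebraMap κ Ω₁ (algebraMap k[X] κ f')) :
    ¬ BEq (fun σ τ => symc (l ^ j) (algebraMap k κ ζ) a β σ τ ^ l ^ (j - 1)) c1 := by
  intro hB
  have hlF : Fact l.Prime := ⟨hl⟩
  have hN0 : 0 < l ^ j := pow_pos hl.pos j
  have hlj : l ^ j = l * l ^ (j - 1) := by
    rw [← pow_succ']
    congr 1
    omega
  have hf0 : f ≠ 0 := by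
    rintro rfl
    rw [rootMultiplicity_zero] at hf
    omega
  have hgal : IsGalois k (AlgebraicClosure k) := ⟨⟩
  let io : Ok k Ω₁ →ₐ[k] AlgebraicClosure k := IsAlgClosed.lift
  have hev : aeval (algebraMap k (AlgebraicClosure k) θ) f' =
      algebraMap k (AlgebraicClosure k) g := by
    rw [aeval_algebraMap_apply, coe_aeval_eq_eval, hf']
  have hev0 : aeval (algebraMap k (AlgebraicClosure k) θ) f' ≠ 0 := by
    rw [hev, Ne, map_eq_zero]
    exact hg0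
  obtain ⟨gb, hgb⟩ := IsAlgClosed.exists_pow_nat_eq
    (aeval (algebraMap k (AlgebraicClosure k) θ) f') hN0
  have hgb0 : gb ≠ 0 := by
    rintro rfl
    rw [zero_pow hN0.ne'] at hgb
    exact hev0 hgb.symm
  have hmult : (f.map (algebraMap k (AlgebraicClosure k))).rootMultiplicity
      (algebraMap k (AlgebraicClosure k) θ) = 1 := by
    rw [← eq_rootMultiplicity_map (algebraMap k (AlgebraicClosure k)).injective, hf]
  have hζk : IsPrimitiveRoot (algebraMap k (AlgebraicClosure k) ζ) (l ^ j) :=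
    hζ.map_of_injective (algebraMap k (AlgebraicClosure k)).injective
  have hfix : ∀ γ : Gal(AlgebraicClosure k/k), γ (gb ^ l ^ (j - 1)) = gb ^ l ^ (j - 1) := by
    intro γ
    have hγθ : γ (algebraMap k (AlgebraicClosure k) θ) = algebraMap k (AlgebraicClosure k) θ :=
      γ.commutes θ
    obtain ⟨n, hn⟩ := BSpec_root1 hN0 hζk (x := γ gb) (y := gb) hgb0 (by
      rw [← map_pow, hgb, hev, AlgEquiv.commutes])
    have hres := symb_res k κ io l j hlk ζ hζ f f' hf0 a ha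
      (algebraMap k (AlgebraicClosure k) θ) hev0 β hβ gb hgb γ hγθ n hn
    obtain ⟨m, hm⟩ := HasRes.torsion hγθ hres (l ^ (j - 1)) hB
    rw [hmult, Nat.cast_one, one_mul] at hm
    have hjQ : ((l ^ j : ℕ) : ℚ) ≠ 0 := by exact_mod_cast hN0.ne'
    rw [← mul_div_assoc, div_eq_iff hjQ] at hm
    have hm' : ((l ^ (j - 1) * n : ℕ) : ℤ) = m * ((l ^ j : ℕ) : ℤ) := by exact_mod_cast hm
    have hd : l ^ j ∣ l ^ (j - 1) * n := by
      have h1 : ((l ^ j : ℕ) : ℤ) ∣ ((l ^ (j - 1) * n : ℕ) : ℤ) := ⟨m, by rw [hm']; ring⟩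
      exact_mod_cast h1
    have h1 : algebraMap k (AlgebraicClosure k) ζ ^ (l ^ (j - 1) * n) = 1 := by
      obtain ⟨r, hr⟩ := hd
      rw [hr, pow_mul, hζk.pow_eq_one, one_pow]
    rw [map_pow, hn, mul_pow, ← pow_mul, mul_comm n (l ^ (j - 1)), h1, one_mul]
  obtain ⟨v, hv⟩ := (InfiniteGalois.mem_range_algebraMap_iff_fixed (k := k) _).2 hfix
  refine hg v ((algebraMap k (AlgebraicClosure k)).injective ?_)
  rw [map_pow, hv, ← pow_mul, mul_comm, ← hlj, hgb, hev]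

theorem half_contra (k κ : Type) {Ω₁ : Type} [Field k] [Finite k] [Field κ] [Field Ω₁]
    [Algebra k κ] [Algebra k[X] κ] [IsScalarTower k k[X] κ] [IsFractionRing k[X] κ]
    [Algebra κ Ω₁] [Algebra k Ω₁] [IsScalarTower k κ Ω₁] [IsGalois κ Ω₁] [IsSepClosed Ω₁]
    (l j c : ℕ) (hl : l.Prime) (hlk : (l : k) ≠ 0) (ζ : k) (hζ : IsPrimitiveRoot ζ (l ^ j))
    (h2c : 2 * c < j) (Z : Set κ) (hZ0 : ∀ z ∈ Z, z ≠ 0) (hZ : ∀ z ∈ Z, ∀ z' ∈ Z, z * z' ∈ Z)
    (w : κ) (hw : w ≠ 0)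
    (hgen : ∀ f : κ, f ≠ 0 → ∃ z ∈ Z, ∃ (t : ℕ) (v : κ), v ≠ 0 ∧ f = z * w ^ t * v ^ l)
    (hiso : ∀ z ∈ Z, ∀ z' ∈ Z, ∀ u : κˣ, (u : κ) = z ^ l ^ c → ∀ β : Ω₁,
      β ^ l ^ j = algebraMap κ Ω₁ (z' ^ l ^ c) →
      BEq (symc (l ^ j) (algebraMap k κ ζ) u β) c1) : False := by
  classical
  have hj : 0 < j := by omega
  have hN0 : 0 < l ^ j := pow_pos hl.pos j
  obtain ⟨g, hg0, hg⟩ := BHalf_nonpow l j hl hj ζ hζ
  have hlκ : (l : κ) ≠ 0 := by
    rw [← map_natCast (algebraMap k κ)]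
    exact (_root_.map_ne_zero _).2 hlk
  have hNκ : ((l ^ j : ℕ) : κ) ≠ 0 := by
    rw [Nat.cast_pow]
    exact pow_ne_zero _ hlκ
  have hζκ : IsPrimitiveRoot (algebraMap k κ ζ) (l ^ j) :=
    hζ.map_of_injective (algebraMap k κ).injective
  choose root hroot using fun b : κˣ => exists_rt (Ω := Ω₁) (l ^ j) hNκ (b : κ)
  have hrt : ∀ b : κˣ, IsRt (l ^ j) κ (root b) := fun b => ⟨b, b.ne_zero, hroot b⟩
  let S : κˣ → κˣ → (Gal(Ω₁/κ) → Gal(Ω₁/κ) → Ω₁ˣ) ⧸ KillB_sub (⊥ : IntermediateField κ Ω₁) :=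
    fun a b => QuotientGroup.mk (symc (l ^ j) (algebraMap k κ ζ) a (root b))
  have hmem : ∀ c : Gal(Ω₁/κ) → Gal(Ω₁/κ) → Ω₁ˣ,
      (QuotientGroup.mk c : (Gal(Ω₁/κ) → Gal(Ω₁/κ) → Ω₁ˣ) ⧸
        KillB_sub (⊥ : IntermediateField κ Ω₁)) = 1 ↔ BEq c c1 :=
    fun c => (QuotientGroup.eq_one_iff c).trans spl_bot_iff
  have hS1 : ∀ a a' b, S (a * a') b = S a b * S a' b := by
    intro a a' b
    show QuotientGroup.mk (symc (l ^ j) (algebraMap k κ ζ) (a * a') (root b)) = _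
    rw [symc_mul_left]
    rfl
  have hS2 : ∀ a b b', S a (b * b') = S a b * S a b' := by
    intro a b b'
    have h1 : symc (l ^ j) (algebraMap k κ ζ) a (root (b * b')) =
        symc (l ^ j) (algebraMap k κ ζ) a (root b * root b') := by
      refine symc_root hN0 hζκ (hrt _) ?_ a
      rw [mul_pow, hroot, hroot, hroot, Units.val_mul, map_mul]
    show QuotientGroup.mk (symc (l ^ j) (algebraMap k κ ζ) a (root (b * b'))) = _
    rw [h1]
    exact KillB_eq _ (symc_mul_right hN0 hζκ (hrt b) (hrt b') a)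
  have hSN : ∀ a b, S a b ^ l ^ j = 1 := by
    intro a b
    exact (hmem _).2 (symc_torsion hN0 hζκ (hrt b) a)
  have hSne : ∀ (θ : k) (f f' : k[X]), f.rootMultiplicity θ = 1 → f'.eval θ = g →
      ∀ a b : κˣ, (a : κ) = algebraMap k[X] κ f → (b : κ) = algebraMap k[X] κ f' →
        S a b ^ l ^ (j - 1) ≠ 1 := by
    intro θ f f' hf hf' a b ha hb h1
    refine BHalf_res k κ l j hl hj hlk ζ hζ g hg0 hg θ f f' hf hf' a ha (root b)
      (by rw [hroot, hb]) ?_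
    exact (hmem _).1 h1
  have hinj : Function.Injective (algebraMap k[X] κ) := IsFractionRing.injective k[X] κ
  have hev0 : ∀ (q : k[X]) (θ : k), q.eval θ ≠ 0 → algebraMap k[X] κ q ≠ 0 := by
    intro q θ hq h0
    rw [map_eq_zero_iff _ hinj] at h0
    rw [h0, eval_zero] at hq
    exact hq rfl
  have hp1 : (X : k[X]).eval 1 ≠ 0 := by simp
  have hp2 : (C g + C (1 - g) * X : k[X]).eval 0 ≠ 0 := by simpa using hg0
  have hp3 : (1 - X : k[X]).eval 0 ≠ 0 := by simp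
  have hp4 : (1 + C (g - 1) * X : k[X]).eval 0 ≠ 0 := by simp
  let f1 : κˣ := Units.mk0 _ (hev0 _ _ hp1)
  let f2 : κˣ := Units.mk0 _ (hev0 _ _ hp2)
  let f3 : κˣ := Units.mk0 _ (hev0 _ _ hp3)
  let f4 : κˣ := Units.mk0 _ (hev0 _ _ hp4)
  have hrm : ∀ q : k[X], q.eval 0 ≠ 0 → (X * q).rootMultiplicity 0 = 1 := by
    intro q hq
    have hq0 : q ≠ 0 := by
      rintro rfl
      exact hq eval_zero
    have h1 : (X : k[X]) = X - C 0 := by simp
    rw [rootMultiplicity_mul (mul_ne_zero X_ne_zero hq0), rootMultiplicity_eq_zero (p := q)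
      (fun h => hq h), add_zero, h1]
    exact rootMultiplicity_X_sub_C_self
  have hcase : ∀ (q : k[X]) (hq : algebraMap k[X] κ q ≠ 0), q.eval 0 = 1 → ∀ a a' : ℕ,
      S (f1 * Units.mk0 _ hq ^ a) (f2 * Units.mk0 _ hq ^ a') ^ l ^ (j - 1) ≠ 1 := by
    intro q hq hq1 a a'
    refine hSne 0 (X * q ^ a) ((C g + C (1 - g) * X) * q ^ a') ?_ ?_ _ _ ?_ ?_
    · refine hrm _ ?_
      rw [eval_pow, hq1, one_pow]
      exact one_ne_zero
    · simp [hq1]
    · rw [map_mul, map_pow]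
      rfl
    · rw [map_mul, map_pow]
      rfl
  refine BHalf_abs S hS1 hS2 l j c hl h2c hSN {z : κˣ | (z : κ) ∈ Z} ?_ (Units.mk0 w hw) ?_ ?_
    f1 f2 f3 f4 ?_ ?_ ?_
  · intro z hz z' hz'
    exact hZ _ hz _ hz'
  · intro f
    obtain ⟨z, hz, t, v, hv, hf⟩ := hgen f f.ne_zero
    refine ⟨Units.mk0 z (hZ0 z hz), hz, t, Units.mk0 v hv, ?_⟩
    apply Units.ext
    exact hf
  · intro z hz z' hz'
    exact (hmem _).2 (hiso _ hz _ hz' _ (Units.val_pow_eq_pow_val z _) _ (by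
      rw [hroot, Units.val_pow_eq_pow_val]))
  · refine hSne 1 (1 - X) (1 + C (g - 1) * X) ?_ ?_ f3 f4 rfl rfl
    · have h1 : (1 - X : k[X]) = C (-1) * (X - C 1) := by
        rw [map_neg, map_one]
        ring
      have h2 : (C (-1) : k[X]) * (X - C 1) ≠ 0 :=
        mul_ne_zero (C_ne_zero.2 (neg_ne_zero.2 one_ne_zero)) (X_sub_C_ne_zero 1)
      rw [h1, rootMultiplicity_mul h2, rootMultiplicity_C, zero_add]
      exact rootMultiplicity_X_sub_C_self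
    · simp
  · exact hcase _ _ (by simp)
  · exact hcase _ _ (by simp)

theorem half (k κ F : Type) {Ω : Type} [Field k] [Finite k] [Field κ] [Field F] [Field Ω]
    [Algebra k κ] [Algebra k[X] κ] [IsScalarTower k k[X] κ] [IsFractionRing k[X] κ] [Algebra κ F]
    [Algebra κ[X] F] [IsScalarTower κ κ[X] F] [IsFractionRing κ[X] F]
    [Algebra F Ω] [Algebra κ Ω] [IsScalarTower κ F Ω]
    [IsGalois F Ω] [IsSepClosed Ω] {l j : ℕ} {ζ : k} {K : IntermediateField F Ω}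
    (H : NegHyp k F l j ζ K) (θ : κ) (ε : ℕ) (u₀ : κ[X]) (hε : ε ≤ j)
    (hu₀ : u₀.eval θ ≠ 0) (h₀ : InB κ F (l ^ j) K ((X - C θ) ^ l ^ ε * u₀))
    (hd : ∀ p : κ[X], InB κ F (l ^ j) K p → l ^ ε ∣ p.rootMultiplicity θ) : 2 * ε ≤ j := by
  by_contra hcon
  have hj := H.hj
  have hε0 : 0 < ε := by omega
  have hlκ : (l : κ) ≠ 0 := by
    rw [← map_natCast (algebraMap k κ)]
    exact (_root_.map_ne_zero _).2 H.hlk
  have hNκ : ((l ^ j : ℕ) : κ) ≠ 0 := by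
    rw [Nat.cast_pow]
    exact pow_ne_zero _ hlκ
  have hN0 : 0 < l ^ j := pow_pos H.hl.pos j
  have hζ : IsPrimitiveRoot (ζ ^ l ^ j) (l ^ j) :=
    H.hζ.pow (Nat.mul_pos hN0 hN0) rfl
  have hinj : Function.Injective (algebraMap κ[X] F) := IsFractionRing.injective κ[X] F
  refine half_contra k κ (Ω₁ := SeparableClosure κ) l j (j - ε) H.hl H.hlk (ζ ^ l ^ j) hζ
    (by omega) {z : κ | z ≠ 0 ∧ ∃ p : κ[X], InB κ F (l ^ j) K p ∧ p.eval θ = z ^ l ^ (j - ε)}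
    (fun z hz => hz.1) ?_ (u₀.eval θ) hu₀ ?_ ?_
  · rintro z ⟨hz, p, hp, hpz⟩ z' ⟨hz', p', hp', hpz'⟩
    refine ⟨mul_ne_zero hz hz', p * p', ?_, by rw [eval_mul, hpz, hpz', mul_pow]⟩
    obtain ⟨hp0, α, hα, hαp⟩ := hp
    obtain ⟨hq0, β, hβ, hβq⟩ := hp'
    exact ⟨mul_ne_zero hp0 hq0, α * β, mul_mem hα hβ, by
      rw [mul_pow, hαp, hβq, map_mul, map_mul]⟩
  · intro f hf
    obtain ⟨z, v, t, p, hz, hv, hp, hpz, hfz⟩ :=
      gen_Z k κ F H θ ε u₀ hε0 hε hu₀ h₀ hd f hf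
    exact ⟨z, ⟨hz, p, hp, hpz⟩, t, v, hv, hfz⟩
  · rintro z ⟨hz, p, hp, hpz⟩ z' ⟨hz', p', hp', hpz'⟩ u hu β₁ hβ₁
    obtain ⟨hp0, α, hα, hαp⟩ := hp
    obtain ⟨hq0, β, hβ, hβq⟩ := hp'
    have hpF : algebraMap κ[X] F p ≠ 0 := by
      rw [Ne, map_eq_zero_iff _ hinj]
      exact hp0
    have hqF : algebraMap κ[X] F p' ≠ 0 := by
      rw [Ne, map_eq_zero_iff _ hinj]
      exact hq0
    have hpθ : p.eval θ ≠ 0 := by
      rw [hpz]
      exact pow_ne_zero _ hz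
    have hqθ : p'.eval θ ≠ 0 := by
      rw [hpz']
      exact pow_ne_zero _ hz'
    have hiso := H.iso (κ := κ) (Units.mk0 _ hpF) α β hα hβ hαp ⟨_, hqF, hβq⟩
    have h1 := spec_symb κ F (Ω₁ := SeparableClosure κ) (l ^ j) hNκ (zN k κ l j ζ) H.hzN θ p p'
      hpθ hqθ (Units.mk0 _ hpF) rfl β hβq hiso β₁ (by rw [hβ₁, hpz'])
    have h2 : u = Units.mk0 (p.eval θ) hpθ := by
      apply Units.ext
      rw [hu, Units.val_mk0, hpz]
    rw [h2]
    exact h1

end W42
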