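import Pool.Agent.W_42fc02_h90.BHalf

/-!
BNeg (hand-in B, proofs row 475, N8): j odd is impossible.

Neg_val: the x-adic valuation on kappa = Frac k[x]: v(num) - v(den), v = rootMultiplicity 0 (or
multiplicity X) on k[x].

neg: th_struct at theta = 0: eps0, u0; half: 2 eps0 <= j, so 2 eps0 < j (j odd). b0 = (X - C 0)^(l^eps0) u0
in B. w = u0(0) not 0. u0(x^M) - w = x^M (..) where (..) has valuation >= - C0, C0 depending only on the
coefficients of u0; for M > C0 + v(w): u0(x^M) not 0 and v(u0(x^M)) = v(w). v(b0(x^M)) =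
l^eps0 M + v(w). Choose M large such that l^(eps0+1) does not divide it (of M, M + 1 one works).
th_struct at theta = x^M: eps1, u1; half: 2 eps1 <= j. resid_pow at theta for p = b0:
b0(theta) = z^(l^(j - eps1)), j - eps1 >= eps0 + 1, so l^(eps0+1) divides v(b0(theta)): contradiction.
-/

namespace W42

open Polynomial

theorem Neg_val (k κ : Type) [Field k] [Field κ] [Algebra k[X] κ] [IsFractionRing k[X] κ] :
    ∃ v : κ → ℤ, (∀ a b : κ, a ≠ 0 → b ≠ 0 → v (a * b) = v a + v b) ∧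
      (∀ a b : κ, a ≠ 0 → b ≠ 0 → a + b ≠ 0 → min (v a) (v b) ≤ v (a + b)) ∧
      v (algebraMap k[X] κ X) = 1 := by
  classical
  have hinj : Function.Injective (algebraMap k[X] κ) := IsFractionRing.injective k[X] κ
  have hrep : ∀ a : κ, ∃ pq : k[X] × k[X], pq.2 ≠ 0 ∧
      a = algebraMap k[X] κ pq.1 / algebraMap k[X] κ pq.2 := by
    intro a
    obtain ⟨p, q, hq, h⟩ := IsFractionRing.div_surjective (A := k[X]) a
    exact ⟨(p, q), nonZeroDivisors.ne_zero hq, h.symm⟩
  choose r hr0 hr using hrep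
  set v : κ → ℤ := fun a => ((r a).1.rootMultiplicity 0 : ℤ) - (r a).2.rootMultiplicity 0 with hv
  have hmain : ∀ (a : κ) (p q : k[X]), a ≠ 0 → q ≠ 0 →
      a = algebraMap k[X] κ p / algebraMap k[X] κ q →
      p ≠ 0 ∧ v a = (p.rootMultiplicity 0 : ℤ) - q.rootMultiplicity 0 := by
    intro a p q ha hq h
    have hq' : algebraMap k[X] κ q ≠ 0 := fun h0 => hq (hinj (by rw [h0, map_zero]))
    have hr' : algebraMap k[X] κ (r a).2 ≠ 0 := fun h0 => hr0 a (hinj (by rw [h0, map_zero]))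
    have hp : p ≠ 0 := by
      rintro rfl
      rw [map_zero, zero_div] at h
      exact ha h
    have hr1 : (r a).1 ≠ 0 := by
      intro h0
      have h1 := hr a
      rw [h0, map_zero, zero_div] at h1
      exact ha h1
    have h1 : p * (r a).2 = (r a).1 * q := by
      apply hinj
      rw [map_mul, map_mul]
      have h2 := h.symm.trans (hr a)
      rwa [div_eq_div_iff hq' hr'] at h2
    have h2 := congrArg (rootMultiplicity 0) h1
    rw [rootMultiplicity_mul (mul_ne_zero hp (hr0 a)), rootMultiplicity_mul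
      (mul_ne_zero hr1 hq)] at h2
    refine ⟨hp, ?_⟩
    simp only [hv]
    omega
  have hq' : ∀ a, algebraMap k[X] κ (r a).2 ≠ 0 :=
    fun a h0 => hr0 a (hinj (by rw [h0, map_zero]))
  refine ⟨v, ?_, ?_, ?_⟩
  · intro a b ha hb
    have h1 := (hmain a _ _ ha (hr0 a) (hr a)).1
    have h2 := (hmain b _ _ hb (hr0 b) (hr b)).1
    have h3 := (hmain (a * b) ((r a).1 * (r b).1) ((r a).2 * (r b).2) (mul_ne_zero ha hb)
      (mul_ne_zero (hr0 a) (hr0 b)) (by
        conv_lhs => rw [hr a, hr b]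
        rw [map_mul, map_mul, div_mul_div_comm])).2
    rw [h3, rootMultiplicity_mul (mul_ne_zero h1 h2), rootMultiplicity_mul
      (mul_ne_zero (hr0 a) (hr0 b))]
    simp only [hv]
    push_cast
    ring
  · intro a b ha hb hab
    have h1 := (hmain a _ _ ha (hr0 a) (hr a)).1
    have h2 := (hmain b _ _ hb (hr0 b) (hr b)).1
    have h3 := hmain (a + b) ((r a).1 * (r b).2 + (r a).2 * (r b).1) ((r a).2 * (r b).2) hab
      (mul_ne_zero (hr0 a) (hr0 b)) (by
        conv_lhs => rw [hr a, hr b]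
        rw [div_add_div _ _ (hq' a) (hq' b), map_add, map_mul, map_mul, map_mul])
    have h4 := rootMultiplicity_add (a := (0 : k)) h3.1
    rw [rootMultiplicity_mul (mul_ne_zero h1 (hr0 b)), rootMultiplicity_mul
      (mul_ne_zero (hr0 a) h2)] at h4
    rw [h3.2, rootMultiplicity_mul (mul_ne_zero (hr0 a) (hr0 b))]
    simp only [hv]
    omega
  · have h1 := (hmain (algebraMap k[X] κ X) X 1 (fun h0 => X_ne_zero (hinj (by
      rw [h0, map_zero]))) one_ne_zero (by rw [map_one, div_one])).2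
    have h2 : rootMultiplicity (0 : k) X = 1 := by
      have := rootMultiplicity_X_sub_C_self (x := (0 : k))
      rwa [map_zero, sub_zero] at this
    have h3 : rootMultiplicity (0 : k) (1 : k[X]) = 0 := by
      rw [← C_1, rootMultiplicity_C]
    rw [h1, h2, h3]
    norm_num

theorem BNeg_bound {κ : Type} [Field κ] (v : κ → ℤ)
    (hmul : ∀ a b : κ, a ≠ 0 → b ≠ 0 → v (a * b) = v a + v b)
    (hadd : ∀ a b : κ, a ≠ 0 → b ≠ 0 → a + b ≠ 0 → min (v a) (v b) ≤ v (a + b)) (r : κ[X]) :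
    ∃ C₀ : ℤ, ∀ y : κ, y ≠ 0 → 0 ≤ v y → r.eval y = 0 ∨ -C₀ ≤ v (r.eval y) := by
  induction r using Polynomial.induction_on' with
  | add p q hp hq =>
    obtain ⟨C₁, h₁⟩ := hp
    obtain ⟨C₂, h₂⟩ := hq
    refine ⟨max C₁ C₂, fun y hy hvy => ?_⟩
    rw [eval_add]
    by_cases h0 : p.eval y + q.eval y = 0
    · exact Or.inl h0
    right
    by_cases hp0 : p.eval y = 0
    · rw [hp0, zero_add] at h0 ⊢
      have := (h₂ y hy hvy).resolve_left h0
      omega
    by_cases hq0 : q.eval y = 0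
    · rw [hq0, add_zero] at h0 ⊢
      have := (h₁ y hy hvy).resolve_left h0
      omega
    have h3 := hadd _ _ hp0 hq0 h0
    have h4 := (h₁ y hy hvy).resolve_left hp0
    have h5 := (h₂ y hy hvy).resolve_left hq0
    omega
  | monomial n a =>
    refine ⟨-v a, fun y hy hvy => ?_⟩
    rw [eval_monomial]
    by_cases ha : a = 0
    · left; rw [ha, zero_mul]
    right
    have h1 : ∀ m : ℕ, 0 ≤ v (y ^ m) := by
      intro m
      induction m with
      | zero =>
        have h2 := hmul 1 1 one_ne_zero one_ne_zero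
        rw [mul_one] at h2
        rw [pow_zero]
        omega
      | succ m ih =>
        rw [pow_succ, hmul _ _ (pow_ne_zero m hy) hy]
        omega
    rw [hmul _ _ ha (pow_ne_zero n hy)]
    have := h1 n
    omega

theorem neg (k κ F : Type) {Ω : Type} [Field k] [Finite k] [Field κ] [Field F] [Field Ω]
    [Algebra k κ] [Algebra k[X] κ] [IsScalarTower k k[X] κ] [IsFractionRing k[X] κ] [Algebra κ F]
    [Algebra κ[X] F] [IsScalarTower κ κ[X] F] [IsFractionRing κ[X] F]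
    [Algebra F Ω] [Algebra κ Ω] [IsScalarTower κ F Ω]
    [IsGalois F Ω] [IsSepClosed Ω] {l j : ℕ} {ζ : k} {K : IntermediateField F Ω}
    (H : NegHyp k F l j ζ K) (hodd : Odd j) : False := by
  classical
  have hl := H.hl
  obtain ⟨v, hmul, hadd, hvX⟩ := Neg_val k κ
  have hv1 : v 1 = 0 := by
    have h2 := hmul 1 1 one_ne_zero one_ne_zero
    rw [mul_one] at h2
    omega
  have hvneg1 : v (-1) = 0 := by
    have h2 := hmul (-1) (-1) (neg_ne_zero.2 one_ne_zero) (neg_ne_zero.2 one_ne_zero)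
    rw [neg_mul_neg, mul_one, hv1] at h2
    omega
  have hvneg : ∀ a : κ, a ≠ 0 → v (-a) = v a := by
    intro a ha
    have h2 := hmul (-1) a (neg_ne_zero.2 one_ne_zero) ha
    rw [neg_one_mul, hvneg1] at h2
    omega
  have hvpow : ∀ (a : κ), a ≠ 0 → ∀ n : ℕ, v (a ^ n) = n * v a := by
    intro a ha n
    induction n with
    | zero => rw [pow_zero, hv1]; simp
    | succ n ih =>
      rw [pow_succ, hmul _ _ (pow_ne_zero n ha) ha, ih]
      push_cast
      ring
  have hdom : ∀ a b : κ, a ≠ 0 → b ≠ 0 → v a < v b → a + b ≠ 0 ∧ v (a + b) = v a := by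
    intro a b ha hb hab
    have h1 : a + b ≠ 0 := by
      intro h0
      have h2 : b = -a := by linear_combination h0
      rw [h2, hvneg a ha] at hab
      exact lt_irrefl _ hab
    refine ⟨h1, ?_⟩
    have h2 := hadd a b ha hb h1
    have h3 := hadd (a + b) (-b) h1 (neg_ne_zero.2 hb) (by rw [add_neg_cancel_right]; exact ha)
    rw [add_neg_cancel_right, hvneg b hb] at h3
    omega
  set x : κ := algebraMap k[X] κ X with hx
  have hx0 : x ≠ 0 := fun h0 => X_ne_zero (IsFractionRing.injective k[X] κ (by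
    rw [map_zero]; exact h0))
  -- structure at 0
  obtain ⟨ε₀, u₀, hε₀, hu₀, h₀, hd₀⟩ := th_struct (F := F) l j hl K (0 : κ)
  have hhalf₀ := half k κ F H 0 ε₀ u₀ hε₀ hu₀ h₀ hd₀
  obtain ⟨j', hj'⟩ := hodd
  set b₀ : κ[X] := (X - C 0) ^ l ^ ε₀ * u₀ with hb₀
  set w : κ := u₀.eval 0 with hw
  obtain ⟨C₀, hC₀⟩ := BNeg_bound v hmul hadd u₀.divX
  have hval : ∀ M : ℕ, C₀ + v w < M → 0 < M → b₀.eval (x ^ M) ≠ 0 ∧
      v (b₀.eval (x ^ M)) = l ^ ε₀ * M + v w := by
    intro M hM hM0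
    have hxM : x ^ M ≠ 0 := pow_ne_zero M hx0
    have hvxM : v (x ^ M) = M := by rw [hvpow x hx0, hvX, mul_one]
    have h1 : u₀.eval (x ^ M) = w + u₀.divX.eval (x ^ M) * x ^ M := by
      conv_lhs => rw [← divX_mul_X_add u₀]
      rw [eval_add, eval_mul, eval_X, eval_C, hw, ← coeff_zero_eq_eval_zero]
      ring
    have h2 : u₀.eval (x ^ M) ≠ 0 ∧ v (u₀.eval (x ^ M)) = v w := by
      rcases hC₀ (x ^ M) hxM (by rw [hvxM]; exact Int.natCast_nonneg M) with h3 | h3
      · rw [h1, h3, zero_mul, add_zero]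
        exact ⟨hu₀, rfl⟩
      · by_cases h4 : u₀.divX.eval (x ^ M) = 0
        · rw [h1, h4, zero_mul, add_zero]
          exact ⟨hu₀, rfl⟩
        · rw [h1]
          apply hdom w _ hu₀ (mul_ne_zero h4 hxM)
          rw [hmul _ _ h4 hxM, hvxM]
          omega
    have h3 : b₀.eval (x ^ M) = (x ^ M) ^ l ^ ε₀ * u₀.eval (x ^ M) := by
      rw [hb₀, eval_mul, eval_pow, eval_sub, eval_X, eval_C, sub_zero]
    refine ⟨by rw [h3]; exact mul_ne_zero (pow_ne_zero _ hxM) h2.1, ?_⟩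
    rw [h3, hmul _ _ (pow_ne_zero _ hxM) h2.1, h2.2, hvpow _ hxM, hvxM]
    push_cast
    ring
  -- no such valuation is divisible by l ^ (ε₀ + 1)
  have hdiv : ∀ M : ℕ, C₀ + v w < M → 0 < M → ((l : ℤ) ^ (ε₀ + 1)) ∣ l ^ ε₀ * M + v w := by
    intro M hM hM0
    obtain ⟨hne, hv⟩ := hval M hM hM0
    obtain ⟨ε₁, u₁, hε₁, hu₁, h₁, hd₁⟩ := th_struct (F := F) l j hl K (x ^ M : κ)
    have hhalf₁ := half k κ F H (x ^ M) ε₁ u₁ hε₁ hu₁ h₁ hd₁
    obtain ⟨z, hz⟩ := resid_pow k κ F H (x ^ M) ε₁ u₁ hε₁ hu₁ h₁ b₀ h₀ hne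
    have hz0 : z ≠ 0 := by
      rintro rfl
      rw [zero_pow (pow_pos hl.pos _).ne'] at hz
      exact hne hz.symm
    rw [← hv, ← hz, hvpow z hz0]
    push_cast
    exact Dvd.dvd.mul_right (pow_dvd_pow _ (by omega)) _
  obtain ⟨M, hM⟩ : ∃ M : ℕ, C₀ + v w < M ∧ 0 < M := by
    refine ⟨(C₀ + v w).toNat + 1, ?_, by omega⟩
    push_cast
    have := Int.self_le_toNat (C₀ + v w)
    omega
  have h1 := hdiv M hM.1 hM.2
  have h2 := hdiv (M + 1) (by push_cast; omega) (by omega)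
  have h3 : ((l : ℤ) ^ (ε₀ + 1)) ∣ l ^ ε₀ := by
    have h4 := dvd_sub h2 h1
    have h5 : ((l : ℤ) ^ ε₀ * ((M + 1 : ℕ) : ℤ) + v w) - (l ^ ε₀ * M + v w) = l ^ ε₀ := by
      push_cast; ring
    rwa [h5] at h4
  have h4 : l ^ (ε₀ + 1) ∣ l ^ ε₀ := by exact_mod_cast h3
  have h5 := Nat.le_of_dvd (pow_pos hl.pos _) h4
  exact absurd h5 (not_le.2 (Nat.pow_lt_pow_right hl.one_lt (Nat.lt_succ_self _)))

end W42
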