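import Pool.Agent.W_42fc02_h90.BPos
import Pool.Agent.W_42fc02_h90.BNeg
import Pool.Agent.W_42fc02_h90.BCsaF

/-!
BMain (hand-in B): the final statements.
-/

namespace W42

open Polynomial

theorem BMain_gcd {l n j s : ℕ} (hl : l.Prime) (hn : 0 < n) (hj : n.factorization l = j) :
    Nat.gcd n (l ^ s) ∣ l ^ j := by
  obtain ⟨t, ht, h1⟩ := (Nat.dvd_prime_pow hl).1 (Nat.gcd_dvd_right n (l ^ s))
  rw [h1]
  apply pow_dvd_pow
  rw [← hj]
  apply (hl.pow_dvd_iff_le_factorization hn.ne').1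
  rw [← h1]
  exact Nat.gcd_dvd_left n (l ^ s)

theorem BMain_abs (k κ F : Type) {Ω : Type} [Field k] [Finite k] [Field κ] [Field F] [Field Ω]
    [Algebra k κ] [Algebra k[X] κ] [IsScalarTower k k[X] κ] [IsFractionRing k[X] κ] [Algebra κ F]
    [Algebra κ[X] F] [IsScalarTower κ κ[X] F] [IsFractionRing κ[X] F]
    [Algebra F Ω] [IsGalois F Ω] [IsSepClosed Ω] (n l : ℕ) (hn : 0 < n) (hl : l.Prime)
    (hodd : Odd (n.factorization l))
    (hq : l ^ n.factorization l * l ^ n.factorization l ∣ Nat.card k - 1)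
    (K : IntermediateField F Ω) (hK1 : Normal F K)
    (hK2 : ∀ g g' : Gal(Ω/F), ∀ z ∈ K, g (g' z) = g' (g z))
    (hK3 : ∀ c : Gal(Ω/F) → Gal(Ω/F) → Ωˣ, BC c → (Spl K c ↔ BEq (fun σ τ => c σ τ ^ n) c1)) :
    False := by
  obtain ⟨j, hj⟩ : ∃ j, n.factorization l = j := ⟨_, rfl⟩
  rw [hj] at hodd hq
  have hj0 : 0 < j := hodd.pos
  obtain ⟨ζ, hζ⟩ := MainA_root k (l ^ j * l ^ j) hq
  have hlk : (l : k) ≠ 0 := MainA_ne k l
    ((dvd_mul_of_dvd_left (dvd_pow_self l hj0.ne') (l ^ j)).trans hq)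
  have hlj : l ^ j ∣ n := by
    rw [← hj]
    exact Nat.ordProj_dvd n l
  have H : NegHyp k F l j ζ K := by
    refine ⟨hl, hj0, hlk, hζ, hK1, hK2, fun c hc s hs => ?_⟩
    rw [hK3 c hc]
    constructor
    · intro h
      exact beq_pow_gcd h hs (l ^ j) (BMain_gcd hl hn hj)
    · intro h
      obtain ⟨a, ha⟩ := hlj
      have h1 := h.pow a
      have h2 : (fun σ τ => (fun σ τ => c σ τ ^ l ^ j) σ τ ^ a) = fun σ τ => c σ τ ^ n := by
        funext σ τ
        beta_reduce
        rw [← pow_mul, ← ha]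
      rw [ExpD_one_pow] at h1
      rw [← h2]
      exact h1
  let a1O : Algebra κ Ω := ((algebraMap F Ω).comp (algebraMap κ F)).toAlgebra
  have j1 : IsScalarTower κ F Ω := IsScalarTower.of_algebraMap_eq fun _ => rfl
  exact neg k κ F H hodd

theorem neg_abRel (k : Type) [Field k] [Finite k] (n l : ℕ) (hn : 0 < n) (hl : l.Prime)
    (hodd : Odd (n.factorization l))
    (hq : l ^ n.factorization l * l ^ n.factorization l ∣ Nat.card k - 1) :
    ¬ AbRel (RatFunc (RatFunc k)) n := by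
  intro h
  obtain ⟨K, hK1, hK2, hK3⟩ := abs_embed (Ω := SeparableClosure (RatFunc (RatFunc k))) n h
  exact BMain_abs k (RatFunc k) (RatFunc (RatFunc k)) n l hn hl hodd hq K hK1 hK2 hK3

theorem BMain_sq (n : ℕ) (hn : 0 < n) :
    IsSquare n ↔ ∀ l : ℕ, l.Prime → Even (n.factorization l) := by
  constructor
  · rintro ⟨r, rfl⟩ l _
    have hr : r ≠ 0 := by
      rintro rfl
      simp at hn
    rw [Nat.factorization_mul hr hr]
    exact ⟨r.factorization l, rfl⟩
  · intro h
    refine ⟨n.factorization.prod fun p e => p ^ (e / 2), ?_⟩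
    rw [← Finsupp.prod_mul]
    conv_lhs => rw [← Nat.prod_factorization_pow_eq_self hn.ne']
    apply Finsupp.prod_congr
    intro p hp
    have hp' : p.Prime := Nat.prime_of_mem_primeFactors (by simpa using hp)
    obtain ⟨a, ha⟩ := h p hp'
    rw [← pow_add]
    congr 1
    omega

/-- if n^2 divides q - 1: n-torsion of Br(k(x,y)) is an abelian relative Brauer group iff n is a
square -/
theorem square_iff (k : Type) [Field k] [Finite k] (n : ℕ) (hn : n ^ 2 ∣ Nat.card k - 1) :
    AbRel (RatFunc (RatFunc k)) n ↔ IsSquare n := by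
  have hQ : 0 < Nat.card k - 1 := by
    have := Finite.one_lt_card (α := k)
    omega
  have hn0 : 0 < n := by
    rcases Nat.eq_zero_or_pos n with h | h
    · subst h
      rw [zero_pow two_ne_zero, zero_dvd_iff] at hn
      omega
    · exact h
  rw [BMain_sq n hn0]
  constructor
  · intro h l hl
    by_contra h1
    rw [Nat.not_even_iff_odd] at h1
    refine neg_abRel k n l hn0 hl h1 ?_ h
    rw [← sq]
    exact (pow_dvd_pow_of_dvd (Nat.ordProj_dvd n l) 2).trans hn
  · intro h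
    exact pos_abRel k n ((dvd_pow_self n two_ne_zero).trans hn) fun l hl => Or.inl (h l hl)

end W42
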