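import Pool.Agent.W_42fc02_h90.GenA
import Pool.Agent.W_42fc02_h90.Kum

/-!
BSym (hand-in B, paper proof = proofs row 475): three lemmas on symbols.

symc_spl_mul: a = alpha^N with alpha in K and beta^N in K, where beta^(N M) = b: the symbol of level
N M is split by K. For sigma in Gal(Omega/K): sigma beta = zeta^n beta, n = (psi sigma).val, beta^N is
fixed, so zeta^(n N) = 1 and M divides n. Take b sigma = alpha^((psi sigma).val / M); for sigma, tau
fixing K: dB b sigma tau = alpha^((n + n' - n'') / M) = alpha^(N carry) = a^carry (Sym_carry). Finite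
level: Sym_fin1 with S = {alpha}.

symc_level: the M-th power of the symbol of level N M is the symbol of level N:
psi_(N M)(beta)(sigma) = m gives psi_N(beta^M)(sigma) = m mod N (psi_unique). With
[m]_(NM) = [m mod N]_N + N s(m): M carry_(NM)(m, m') = carry_N + s(m) + s(m') - s(m + m'), so the
quotient is the coboundary of sigma -> a^(s (psi sigma)) (Sym_fin1).

spl_insert_pow: alpha^m in M, mu_m in F: g -> g alpha / alpha is a homomorphism from
Gal(Omega/M) to the m-th roots of 1 with kernel Gal(Omega/M(alpha)); the relative index n divides m;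
spl_pow_of_spl and Spl.pow (compare spl_kumL_insert in Kum.lean, the proof is the same).
-/

namespace W42

section
variable {F Ω : Type} [Field F] [Field Ω] [Algebra F Ω] [IsGalois F Ω]

theorem BSym_div {N M : ℕ} (hM : 0 < M) {i j k c : ℕ} (h : i + j = k + N * M * c)
    (hi : M ∣ i) (hj : M ∣ j) : M ∣ k ∧ i / M + j / M = k / M + N * c := by
  obtain ⟨i, rfl⟩ := hi
  obtain ⟨j, rfl⟩ := hj
  have hk : M ∣ k := by
    have h1 : M ∣ k + N * M * c := by
      rw [← h]
      exact (Dvd.intro _ rfl : M ∣ M * i).add (Dvd.intro _ rfl)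
    refine (Nat.dvd_add_left ?_).1 h1
    exact Dvd.dvd.mul_right (Dvd.intro_left N rfl) c
  obtain ⟨k, rfl⟩ := hk
  refine ⟨Dvd.intro _ rfl, ?_⟩
  rw [Nat.mul_div_cancel_left _ hM, Nat.mul_div_cancel_left _ hM, Nat.mul_div_cancel_left _ hM]
  have h2 : M * (i + j) = M * (k + N * c) := by
    rw [Nat.mul_add, Nat.mul_add, h]
    ring
  exact Nat.eq_of_mul_eq_mul_left hM h2

theorem symc_spl_mul {N M : ℕ} (hN : 0 < N) (hM : 0 < M) {ζ : F}
    (hζ : IsPrimitiveRoot ζ (N * M)) (K : IntermediateField F Ω) {β : Ω}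
    (hβ : IsRt (N * M) F β) (hβK : β ^ N ∈ K) (a : Fˣ) (α : Ω) (hα : α ∈ K)
    (haα : α ^ N = algebraMap F Ω a) : Spl K (symc (N * M) ζ a β) := by
  have hNM : 0 < N * M := Nat.mul_pos hN hM
  have hβ0 := hβ.ne_zero hNM
  have hα0 : α ≠ 0 := by
    rintro rfl
    rw [zero_pow hN.ne'] at haα
    exact a.ne_zero ((map_eq_zero_iff _ (algebraMap F Ω).injective).1 haα.symm)
  have hζ' : IsPrimitiveRoot (algebraMap F Ω ζ) (N * M) :=
    hζ.map_of_injective (algebraMap F Ω).injective
  set A : Ωˣ := Units.mk0 α hα0 with hA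
  have hAN : A ^ N = Units.map (algebraMap F Ω : F →* Ω) a := by
    apply Units.ext
    exact haα
  have hdvd : ∀ σ ∈ K.fixingSubgroup, M ∣ (psi (N * M) ζ β σ).val := by
    intro σ hσ
    have h1 : σ (β ^ N) = β ^ N := (IntermediateField.mem_fixingSubgroup_iff _ _).1 hσ _ hβK
    rw [map_pow, psi_spec hNM hζ hβ, mul_pow, ← pow_mul] at h1
    have h2 : (algebraMap F Ω ζ) ^ ((psi (N * M) ζ β σ).val * N) = 1 :=
      mul_right_cancel₀ (pow_ne_zero N hβ0) (by rw [h1, one_mul])
    have h3 := (hζ'.pow_eq_one_iff_dvd _).1 h2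
    exact Nat.dvd_of_mul_dvd_mul_right hN ((mul_comm N M) ▸ h3 : M * N ∣ _ * N)
  refine ⟨fun σ => A ^ ((psi (N * M) ζ β σ).val / M), ?_, ?_⟩
  · refine Sym_fin1 β {α} (fun i => A ^ (i.val / M)) ?_
    intro L hL i
    rw [Units.val_pow_eq_pow_val]
    exact pow_mem (hL α (by simp)) _
  · intro σ hσ τ hτ
    have h1 : σ • A = A := by
      apply Units.ext
      exact (IntermediateField.mem_fixingSubgroup_iff _ _).1 hσ α hα
    obtain ⟨-, h2⟩ := BSym_div (N := N) hM (Sym_carry hNM (psi (N * M) ζ β σ) (psi (N * M) ζ β τ))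
      (hdvd σ hσ) (hdvd τ hτ)
    unfold symc dB
    beta_reduce
    rw [smul_pow', h1, ← hAN, ← pow_add, h2, psi_mul hNM hζ hβ, pow_add, ← pow_mul,
      mul_comm (A ^ _) (A ^ _), mul_div_assoc, div_self', mul_one]

theorem BSym_carry {N M : ℕ} (hN : 0 < N) (hM : 0 < M) (i j : ZMod (N * M)) :
    M * carry i j + (i + j).val / N =
      carry (i.val : ZMod N) (j.val : ZMod N) + (i.val / N + j.val / N) := by
  have hNM : 0 < N * M := Nat.mul_pos hN hM
  have : NeZero N := ⟨hN.ne'⟩
  have : NeZero (N * M) := ⟨hNM.ne'⟩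
  have h1 := Sym_carry hNM i j
  have h2 := Sym_carry hN (i.val : ZMod N) (j.val : ZMod N)
  have h3 : ((i.val : ZMod N) + (j.val : ZMod N)).val = (i + j).val % N := by
    rw [← Nat.cast_add, h1, mul_assoc, Nat.cast_add, Nat.cast_mul N, ZMod.natCast_self, zero_mul,
      add_zero, ZMod.val_natCast]
  rw [h3, ZMod.val_natCast, ZMod.val_natCast] at h2
  have h4 := Nat.div_add_mod i.val N
  have h5 := Nat.div_add_mod j.val N
  have h6 := Nat.div_add_mod (i + j).val N
  have h7 : N * (M * carry i j + (i + j).val / N) =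
      N * (carry (i.val : ZMod N) (j.val : ZMod N) + (i.val / N + j.val / N)) := by
    rw [Nat.mul_add, Nat.mul_add, Nat.mul_add, ← mul_assoc N M]
    omega
  exact Nat.eq_of_mul_eq_mul_left hN h7

theorem symc_level {N M : ℕ} (hN : 0 < N) (hM : 0 < M) {ζ : F}
    (hζ : IsPrimitiveRoot ζ (N * M)) {β : Ω} (hβ : IsRt (N * M) F β) (a : Fˣ) :
    BEq (fun σ τ => symc (N * M) ζ a β σ τ ^ M) (symc N (ζ ^ M) a (β ^ M)) := by
  have hNM : 0 < N * M := Nat.mul_pos hN hM
  have hζM : IsPrimitiveRoot (ζ ^ M) N := hζ.pow hNM (mul_comm N M)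
  have hβM : IsRt N F (β ^ M) := by
    obtain ⟨b, hb, h⟩ := hβ
    exact ⟨b, hb, by rw [← pow_mul, mul_comm M N, h]⟩
  have hpsi : ∀ σ, psi N (ζ ^ M) (β ^ M) σ = ((psi (N * M) ζ β σ).val : ZMod N) := by
    intro σ
    apply psi_unique hN hζM hβM
    rw [map_pow, psi_spec hNM hζ hβ, mul_pow, ← pow_mul, map_pow, ← pow_mul, mul_comm M]
  set A : Ωˣ := Units.map (algebraMap F Ω : F →* Ω) a with hA
  refine ⟨fun σ => A ^ ((psi (N * M) ζ β σ).val / N), ?_, ?_⟩
  · refine Sym_fin1 β ∅ (fun i => A ^ (i.val / N)) ?_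
    intro L _ i
    rw [Units.val_pow_eq_pow_val]
    exact pow_mem (L.algebraMap_mem _) _
  · intro σ τ
    have h2 := BSym_carry hN hM (psi (N * M) ζ β σ) (psi (N * M) ζ β τ)
    unfold symc dB
    beta_reduce
    rw [hpsi, hpsi, ← hA, smul_pow', hA, Sym_smul, ← hA, psi_mul hNM hζ hβ, ← mul_div_assoc,
      eq_div_iff_mul_eq', ← pow_mul, ← pow_add, ← pow_add, ← pow_add, mul_comm _ M]
    rw [← h2, add_comm]

theorem spl_insert_pow (M : IntermediateField F Ω) [FiniteDimensional F M] (m : ℕ) (hm : 0 < m)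
    {ζ : F} (hζ : IsPrimitiveRoot ζ m) (α : Ω) (hα0 : α ≠ 0) (hα : α ^ m ∈ M)
    {c : Gal(Ω/F) → Gal(Ω/F) → Ωˣ} (hc : BC c)
    (h : Spl (M ⊔ IntermediateField.adjoin F {α}) c) : Spl M (fun σ τ => c σ τ ^ m) := by
  classical
  have : FiniteDimensional F (IntermediateField.adjoin F {α}) :=
    IntermediateField.adjoin.finiteDimensional (Algebra.IsIntegral.isIntegral α)
  have hfin : FiniteDimensional F (M ⊔ IntermediateField.adjoin F {α} : IntermediateField F Ω) :=
    IntermediateField.finiteDimensional_sup _ _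
  have hle : M ≤ M ⊔ IntermediateField.adjoin F {α} := le_sup_left
  obtain ⟨n, hn⟩ : ∃ n, (M ⊔ IntermediateField.adjoin F {α}).fixingSubgroup.relIndex
    M.fixingSubgroup = n := ⟨_, rfl⟩
  have h1 := spl_pow_of_spl hle hc h n hn
  have hne' : ∀ g : Gal(Ω/F), g α / α ≠ 0 := fun g => div_ne_zero ((map_ne_zero g).2 hα0) hα0
  have : NeZero m := ⟨hm.ne'⟩
  have hζ' : IsPrimitiveRoot (algebraMap F Ω ζ) m := hζ.map_of_injective (algebraMap F Ω).injective
  have hact : ∀ g ∈ M.fixingSubgroup, ∃ k : ℕ, g α = (algebraMap F Ω ζ) ^ k * α := by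
    intro g hg
    have h2 : (g α / α) ^ m = 1 := by
      rw [div_pow, ← map_pow, (IntermediateField.mem_fixingSubgroup_iff _ _).1 hg _ hα,
        div_self (pow_ne_zero m hα0)]
    obtain ⟨k, -, hk⟩ := hζ'.eq_pow_of_pow_eq_one h2
    exact ⟨k, by rw [hk, div_mul_cancel₀ _ hα0]⟩
  have hdvd : n ∣ m := by
    let φ : M.fixingSubgroup →* Ωˣ :=
      { toFun := fun g => Units.mk0 ((g : Gal(Ω/F)) α / α) (hne' g)
        map_one' := by
          apply Units.ext
          exact div_self hα0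
        map_mul' := by
          intro g g'
          apply Units.ext
          show ((g : Gal(Ω/F)) * (g' : Gal(Ω/F))) α / α =
            (g : Gal(Ω/F)) α / α * ((g' : Gal(Ω/F)) α / α)
          obtain ⟨k, hk⟩ := hact g g.2
          obtain ⟨k', hk'⟩ := hact g' g'.2
          have h3 : ((g : Gal(Ω/F)) * (g' : Gal(Ω/F))) α =
              (algebraMap F Ω ζ) ^ k' * ((algebraMap F Ω ζ) ^ k * α) := by
            show (g : Gal(Ω/F)) ((g' : Gal(Ω/F)) α) = _
            rw [hk', map_mul, map_pow, AlgEquiv.commutes, hk]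
          rw [h3, hk, hk']
          field_simp }
    have hker : φ.ker = (M ⊔ IntermediateField.adjoin F {α}).fixingSubgroup.subgroupOf
        M.fixingSubgroup := by
      ext g
      rw [MonoidHom.mem_ker, Subgroup.mem_subgroupOf, IntermediateField.fixingSubgroup_sup,
        Subgroup.mem_inf]
      constructor
      · intro h
        have h2 : (g : Gal(Ω/F)) α / α = 1 := congrArg (fun u : Ωˣ => (u : Ω)) h
        have h3 : (g : Gal(Ω/F)) α = α := (div_eq_one_iff_eq hα0).1 h2
        refine ⟨g.2, ?_⟩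
        have h4 : IntermediateField.adjoin F {α} ≤
            IntermediateField.fixedField (Subgroup.zpowers (g : Gal(Ω/F))) := by
          rw [IntermediateField.adjoin_le_iff]
          intro y hy
          rw [Set.mem_singleton_iff.1 hy]
          show α ∈ IntermediateField.fixedField (Subgroup.zpowers (g : Gal(Ω/F)))
          rw [IntermediateField.mem_fixedField_iff]
          intro f hf
          have h5 : Subgroup.zpowers (g : Gal(Ω/F)) ≤ MulAction.stabilizer Gal(Ω/F) α :=
            Subgroup.zpowers_le.2 (MulAction.mem_stabilizer_iff.2 h3)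
          exact MulAction.mem_stabilizer_iff.1 (h5 hf)
        exact (IntermediateField.le_iff_le _ _).1 h4 (Subgroup.mem_zpowers _)
      · rintro ⟨-, h⟩
        apply Units.ext
        have h3 : (g : Gal(Ω/F)) α = α := (IntermediateField.mem_fixingSubgroup_iff _ _).1 h _
          (IntermediateField.subset_adjoin F _ rfl)
        show (g : Gal(Ω/F)) α / α = 1
        rw [h3, div_self hα0]
    have h3 : n = Nat.card φ.range := by
      rw [← hn, Subgroup.relIndex, ← hker, Subgroup.index_ker]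
    rw [h3, ← hζ'.card_rootsOfUnity]
    apply Subgroup.card_dvd_of_le
    rintro _ ⟨g, rfl⟩
    rw [mem_rootsOfUnity]
    apply Units.ext
    obtain ⟨k, hk⟩ := hact g g.2
    show ((g : Gal(Ω/F)) α / α) ^ m = 1
    rw [hk, mul_div_cancel_right₀ _ hα0, ← pow_mul, mul_comm, pow_mul, ← map_pow,
      hζ.pow_eq_one, map_one, one_pow]
  obtain ⟨q, hq⟩ := hdvd
  have h2 := h1.pow q
  have h3 : (fun σ τ => c σ τ ^ m) = fun σ τ => (c σ τ ^ n) ^ q := by
    funext σ τ
    rw [hq, pow_mul]
  rw [h3]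
  exact h2

end

end W42
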