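import Pool.Agent.W_42fc02_h90.MainA
import Pool.Agent.W_42fc02_h90.MainB

/-!
MainC: F = RatFunc (RatFunc k), Omega = SeparableClosure F.
Instances: kappa1 = RatFunc k with the usual structures; kappa2 = K2 k, a type copy of RatFunc k, mapped
to F by X -> y (the variable of the outer RatFunc), F as kappa2[X]-algebra by X -> x (inner variable).
IsFractionRing kappa2[X] F: every element of F is a quotient of elements of k[x][y] =
k[y][x].
-/

namespace W42

open Polynomial

/-- a copy of RatFunc k for the second fibration -/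
def K2 (k : Type) [Field k] : Type := RatFunc k

private theorem MainC_root (k : Type) [Field k] [Finite k] (N : ℕ)
    (h : N ∣ Nat.card k - 1) : ∃ ζ : k, IsPrimitiveRoot ζ N := by
  obtain ⟨g, hg⟩ := IsCyclic.exists_generator (α := kˣ)
  have h1 : orderOf g = Nat.card kˣ := orderOf_eq_card_of_forall_mem_zpowers hg
  have h2 : Nat.card kˣ = Nat.card k - 1 := Nat.card_units k
  have h3 : IsPrimitiveRoot g (Nat.card k - 1) := by
    rw [← h2, ← h1]
    exact IsPrimitiveRoot.orderOf g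
  obtain ⟨m, hm⟩ := h
  have h5 : 0 < Nat.card k - 1 := by
    have := Finite.one_lt_card (α := k)
    omega
  have h4 : IsPrimitiveRoot (g ^ m) N := h3.pow h5 (by rw [hm, mul_comm])
  exact ⟨((g ^ m : kˣ) : k), IsPrimitiveRoot.coe_units_iff.2 h4⟩

private theorem MainC_abs (k κ₁ κ₂ F : Type) {Ω : Type} [Field k] [Finite k] [Field κ₁] [Field κ₂]
    [Field F] [Field Ω]
    [Algebra k κ₁] [Algebra k[X] κ₁] [IsScalarTower k k[X] κ₁] [IsFractionRing k[X] κ₁]
    [Algebra κ₁ F] [Algebra κ₁[X] F] [IsScalarTower κ₁ κ₁[X] F] [IsFractionRing κ₁[X] F]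
    [Algebra k κ₂] [Algebra k[X] κ₂] [IsScalarTower k k[X] κ₂] [IsFractionRing k[X] κ₂]
    [Algebra F Ω] [IsGalois F Ω] [IsSepClosed Ω]
    (l e : ℕ) (hl : l.Prime) (he : 0 < e) (hq : l ^ e ∣ Nat.card k - 1)
    (hq' : ¬ l ^ (e + 1) ∣ Nat.card k - 1) :
    ∃ pi : ℕ → Ω, (∀ s, IsRt (l ^ e) F (pi s)) ∧
      ∀ c : Gal(Ω/F) → Gal(Ω/F) → Ωˣ, BC c →
        (Spl (KumL F pi Set.univ) c ↔ BEq (fun σ τ => c σ τ ^ l ^ e) c1) := by
  have hkk1 : ∀ a : k, algebraMap k[X] κ₁ (C a) = algebraMap k κ₁ a := fun a => by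
    rw [IsScalarTower.algebraMap_apply k k[X] κ₁, Polynomial.algebraMap_eq]
  have hkk2 : ∀ a : k, algebraMap k[X] κ₂ (C a) = algebraMap k κ₂ a := fun a => by
    rw [IsScalarTower.algebraMap_apply k k[X] κ₂, Polynomial.algebraMap_eq]
  have hCF : ∀ a : κ₁, algebraMap κ₁[X] F (C a) = algebraMap κ₁ F a := fun a => by
    rw [IsScalarTower.algebraMap_apply κ₁ κ₁[X] F, Polynomial.algebraMap_eq]
  obtain ⟨ψ, hψdef⟩ : ∃ ψ : k[X] →+* F,
      ψ = (algebraMap κ₁[X] F).comp (mapRingHom (algebraMap k κ₁)) := ⟨_, rfl⟩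
  have hψ : Function.Injective ψ := by
    rw [hψdef]
    exact (IsFractionRing.injective κ₁[X] F).comp
      (map_injective _ (algebraMap k κ₁).injective)
  have hψC : ∀ a : k, ψ (C a) = algebraMap κ₁ F (algebraMap k κ₁ a) := fun a => by
    rw [hψdef, RingHom.comp_apply, coe_mapRingHom, map_C, hCF]
  have hψX : ψ X = algebraMap κ₁[X] F X := by
    rw [hψdef, RingHom.comp_apply, coe_mapRingHom, map_X]
  obtain ⟨φ, hφ⟩ : ∃ φ : κ₂ →+* F, ∀ p, φ (algebraMap k[X] κ₂ p) = ψ p :=
    ⟨IsFractionRing.lift hψ, IsFractionRing.lift_algebraMap hψ⟩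
  obtain ⟨x, hx⟩ : ∃ x : F, x = algebraMap κ₁ F (algebraMap k[X] κ₁ X) := ⟨_, rfl⟩
  have hE : (eval₂RingHom φ x).comp (mapRingHom (algebraMap k[X] κ₂)) =
      (evF k κ₁ F).comp (Bivariate.swap (R := k) : k[X][X] →+* k[X][X]) := by
    apply Polynomial.ringHom_ext'
    · apply Polynomial.ringHom_ext'
      · refine RingHom.ext fun a => ?_
        show eval₂ φ x ((C (C a) : k[X][X]).map (algebraMap k[X] κ₂)) =
          evF k κ₁ F (Bivariate.swap (C (C a)))
        rw [Bivariate.swap_C_C, map_C, eval₂_C, hφ, hψC]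
        show _ = algebraMap κ₁[X] F ((C (C a) : k[X][X]).map (algebraMap k[X] κ₁))
        rw [map_C, hCF, hkk1]
      · show eval₂ φ x ((C X : k[X][X]).map (algebraMap k[X] κ₂)) =
          evF k κ₁ F (Bivariate.swap (C X))
        rw [Bivariate.swap_X, map_C, eval₂_C, hφ, hψX]
        show _ = algebraMap κ₁[X] F ((X : k[X][X]).map (algebraMap k[X] κ₁))
        rw [map_X]
    · show eval₂ φ x ((X : k[X][X]).map (algebraMap k[X] κ₂)) =
          evF k κ₁ F (Bivariate.swap X)
      rw [Bivariate.swap_Y, map_X, eval₂_X, hx]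
      show _ = algebraMap κ₁[X] F ((C X : k[X][X]).map (algebraMap k[X] κ₁))
      rw [map_C, hCF]
  have hE' : ∀ q : k[X][X], eval₂ φ x (q.map (algebraMap k[X] κ₂)) =
      evF k κ₁ F (Bivariate.swap q) := fun q => RingHom.congr_fun hE q
  have hfr := evF_isFractionRing k κ₁ F
  have hEinj : Function.Injective (evF k κ₁ F) :=
    @IsFractionRing.injective k[X][X] _ F _ (evF k κ₁ F).toAlgebra hfr
  have hEsurj : ∀ z : F, ∃ a b : k[X][X], z = evF k κ₁ F a / evF k κ₁ F b := by
    intro z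
    obtain ⟨a, b, _, h⟩ := @IsFractionRing.div_surjective k[X][X] _ F _
      (evF k κ₁ F).toAlgebra hfr z
    exact ⟨a, b, h.symm⟩
  have hinj : Function.Injective (eval₂RingHom φ x) := by
    rw [injective_iff_map_eq_zero]
    intro p hp
    obtain ⟨b, _, hb2⟩ := IsLocalization.integerNormalization_spec (nonZeroDivisors k[X]) p
    have h1 := hE' (IsLocalization.integerNormalization (nonZeroDivisors k[X]) p)
    have h2 : eval₂ φ x (b • p) = 0 := by
      rw [← IsScalarTower.algebraMap_smul κ₂ b p, eval₂_smul]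
      have h3 : eval₂ φ x p = 0 := hp
      rw [h3, mul_zero]
    rw [hb2, h2] at h1
    have h3 := (injective_iff_map_eq_zero _).1 hEinj _ h1.symm
    have h4 : IsLocalization.integerNormalization (nonZeroDivisors k[X]) p = 0 := by
      rw [← Bivariate.swap_swap_apply
        (IsLocalization.integerNormalization (nonZeroDivisors k[X]) p), h3, map_zero]
    exact IsFractionRing.integerNormalization_eq_zero_iff.1 h4
  let a2F : Algebra κ₂ F := φ.toAlgebra
  let a2XF : Algebra κ₂[X] F := (eval₂RingHom φ x).toAlgebra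
  have i1 : IsScalarTower κ₂ κ₂[X] F := by
    apply IsScalarTower.of_algebraMap_eq
    intro a
    show φ a = eval₂ φ x (algebraMap κ₂ κ₂[X] a)
    rw [Polynomial.algebraMap_eq, eval₂_C]
  have i2 : FaithfulSMul κ₂[X] F := (faithfulSMul_iff_algebraMap_injective _ _).2 hinj
  have i3 : IsFractionRing κ₂[X] F := by
    apply IsFractionRing.of_field
    intro z
    obtain ⟨a, b, h⟩ := hEsurj z
    refine ⟨(Bivariate.swap a).map (algebraMap k[X] κ₂),
      (Bivariate.swap b).map (algebraMap k[X] κ₂), ?_⟩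
    show z = eval₂ φ x ((Bivariate.swap a).map (algebraMap k[X] κ₂)) /
      eval₂ φ x ((Bivariate.swap b).map (algebraMap k[X] κ₂))
    rw [hE', hE', Bivariate.swap_swap_apply, Bivariate.swap_swap_apply]
    exact h
  let a1O : Algebra κ₁ Ω := ((algebraMap F Ω).comp (algebraMap κ₁ F)).toAlgebra
  let a2O : Algebra κ₂ Ω := ((algebraMap F Ω).comp (algebraMap κ₂ F)).toAlgebra
  let akO : Algebra k Ω := ((algebraMap κ₁ Ω).comp (algebraMap k κ₁)).toAlgebra
  have j1 : IsScalarTower κ₁ F Ω := IsScalarTower.of_algebraMap_eq fun _ => rfl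
  have j2 : IsScalarTower κ₂ F Ω := IsScalarTower.of_algebraMap_eq fun _ => rfl
  have j3 : IsScalarTower k κ₁ Ω := IsScalarTower.of_algebraMap_eq fun _ => rfl
  have hk : ∀ a : k, algebraMap κ₁ F (algebraMap k κ₁ a) = algebraMap κ₂ F (algebraMap k κ₂ a) := by
    intro a
    rw [← hkk2 a]
    show _ = φ (algebraMap k[X] κ₂ (C a))
    rw [hφ, hψC]
  have j4 : IsScalarTower k κ₂ Ω := by
    apply IsScalarTower.of_algebraMap_eq
    intro a
    show algebraMap F Ω (algebraMap κ₁ F (algebraMap k κ₁ a)) =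
      algebraMap F Ω (algebraMap κ₂ F (algebraMap k κ₂ a))
    rw [hk]
  refine main_l k κ₁ κ₂ F ?_ ?_ ?_ l e hl he hq hq'
  · show _ = eval₂ φ x X
    rw [eval₂_X, hx]
  · show φ (algebraMap k[X] κ₂ X) = _
    rw [hφ, hψX]
  · exact RingHom.ext hk

theorem main_prime_power (k : Type) [Field k] [Finite k] (l e : ℕ) (hl : l.Prime) (he : 0 < e)
    (hq : l ^ e ∣ Nat.card k - 1) (hq' : ¬ l ^ (e + 1) ∣ Nat.card k - 1) :
    ∃ K : IntermediateField (RatFunc (RatFunc k)) (SeparableClosure (RatFunc (RatFunc k))),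
      AbRelC (l ^ e) K := by
  obtain ⟨pi, hpi, h⟩ := MainC_abs k (RatFunc k) (RatFunc k) (RatFunc (RatFunc k))
    (Ω := SeparableClosure (RatFunc (RatFunc k))) l e hl he hq hq'
  obtain ⟨ζ, hζ⟩ := MainC_root k (l ^ e) hq
  have hζ' : IsPrimitiveRoot (((algebraMap (RatFunc k) (RatFunc (RatFunc k))).comp
      (algebraMap k (RatFunc k))) ζ) (l ^ e) :=
    hζ.map_of_injective (RingHom.injective _)
  have hN : 0 < l ^ e := pow_pos hl.pos e
  refine ⟨KumL (RatFunc (RatFunc k)) pi Set.univ, ?_, ?_, ?_, h⟩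
  · exact kumL_normal _ (l ^ e) hN _ hζ' pi hpi Set.univ
  · exact fun g g' => kumL_comm _ (l ^ e) hN _ hζ' pi hpi Set.univ g g'
  · exact fun g => kumL_exponent _ (l ^ e) hN _ hζ' pi hpi Set.univ g

/-- the theorem with cocycles -/
theorem main_cocycle (k : Type) [Field k] [Finite k] (n : ℕ) (hn : n ∣ Nat.card k - 1)
    (hc : Nat.Coprime n ((Nat.card k - 1) / n)) :
    ∃ K : IntermediateField (RatFunc (RatFunc k)) (SeparableClosure (RatFunc (RatFunc k))),
      AbRelC n K := by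
  have hQ : 0 < Nat.card k - 1 := by
    have := Finite.one_lt_card (α := k)
    omega
  exact abRelC_all (Nat.card k - 1) hQ (fun l e hl he h1 h2 => main_prime_power k l e hl he h1 h2)
    n hn hc

end W42
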