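import Pool.Agent.W_42fc02_h90.BSq
import Pool.Agent.W_42fc02_h90.BSym
import Pool.Agent.W_42fc02_h90.MainC
import Pool.Agent.W_42fc02_h90.Csa

/-!
BPos (hand-in B, positive part): l^(2m) divides q - 1, N = l^m: K = Kall F N splits c iff
c^(N N) is trivial, F = k(x,y). Then all n dividing q - 1 with v_l(n) even or v_l(n) = v_l(q - 1) for all
primes l.
-/

namespace W42

open Polynomial

section
variable (k κ₁ κ₂ F : Type) {Ω : Type} [Field k] [Field κ₁] [Field κ₂] [Field F] [Field Ω]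
  [Algebra k κ₁] [Algebra k[X] κ₁] [IsScalarTower k k[X] κ₁] [IsFractionRing k[X] κ₁]
  [Algebra κ₁ F] [Algebra κ₁[X] F] [IsScalarTower κ₁ κ₁[X] F] [IsFractionRing κ₁[X] F]
  [Algebra k κ₂] [Algebra k[X] κ₂] [IsScalarTower k k[X] κ₂] [IsFractionRing k[X] κ₂]
  [Algebra κ₂ F] [Algebra κ₂[X] F] [IsScalarTower κ₂ κ₂[X] F] [IsFractionRing κ₂[X] F]
  [Algebra F Ω] [Algebra κ₁ Ω] [IsScalarTower κ₁ F Ω] [Algebra κ₂ Ω] [IsScalarTower κ₂ F Ω]
  [Algebra k Ω] [IsScalarTower k κ₁ Ω] [IsScalarTower k κ₂ Ω] [IsGalois F Ω] [IsSepClosed Ω]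

theorem sq_l [Finite k]
    (hx : algebraMap κ₁ F (algebraMap k[X] κ₁ X) = algebraMap κ₂[X] F X)
    (hy : algebraMap κ₂ F (algebraMap k[X] κ₂ X) = algebraMap κ₁[X] F X)
    (l m : ℕ) (hl : l.Prime) (hm : 0 < m) (hq : l ^ (m + m) ∣ Nat.card k - 1) :
    ∀ c : Gal(Ω/F) → Gal(Ω/F) → Ωˣ, BC c →
      (Spl (Kall F Ω (l ^ m)) c ↔ BEq (fun σ τ => c σ τ ^ l ^ (m + m)) c1) := by
  haveI : Fact l.Prime := ⟨hl⟩
  obtain ⟨ζ, hζ⟩ := MainA_root k (l ^ (m + m)) hq
  have hlk : (l : k) ≠ 0 := MainA_ne k l ((dvd_pow_self l (by omega)).trans hq)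
  have hN0 : 0 < l ^ m := pow_pos hl.pos m
  have hmm : l ^ (m + m) = l ^ m * l ^ m := pow_add l m m
  have hζN : IsPrimitiveRoot (ζ ^ l ^ m) (l ^ m) :=
    hζ.pow (pow_pos hl.pos _) hmm
  have hk₁ : ((l ^ m : ℕ) : κ₁) ≠ 0 := by
    rw [← map_natCast (algebraMap k κ₁), Ne, map_eq_zero, Nat.cast_pow]
    exact pow_ne_zero m hlk
  have hk₂ : ((l ^ m : ℕ) : κ₂) ≠ 0 := by
    rw [← map_natCast (algebraMap k κ₂), Ne, map_eq_zero, Nat.cast_pow]
    exact pow_ne_zero m hlk
  intro c hc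
  constructor
  · intro hs
    have hζ₁ : IsPrimitiveRoot (algebraMap k κ₁ (ζ ^ l ^ m)) (l ^ m) :=
      hζN.map_of_injective (algebraMap k κ₁).injective
    have hζ₂ : IsPrimitiveRoot (algebraMap k κ₂ (ζ ^ l ^ m)) (l ^ m) :=
      hζN.map_of_injective (algebraMap k κ₂).injective
    obtain ⟨s, hs1⟩ := BSq_primary κ₁ F (l ^ m) hN0 hk₁ _ hζ₁ hc hs
    rw [← pow_mul] at hs1
    have h1 := exp_zero_gen k κ₁ κ₂ F (𝕂₁ := AlgebraicClosure κ₁) (𝕂₂ := AlgebraicClosure κ₂)
      hx hy l hl hlk (l ^ m * l ^ m) (m * s) hc hs1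
      (BSq_locEx κ₁ F (l ^ m) hN0 hk₁ _ hζ₁ hc hs)
      (BSq_locEx κ₂ F (l ^ m) hN0 hk₂ _ hζ₂ hc hs)
    rw [hmm]
    exact h1
  · intro hN
    have hmem := gen_two k κ₁ F l (m + m) (by omega) hlk ζ hζ hc hN
    have hζF : IsPrimitiveRoot (algebraMap κ₁ F (algebraMap k κ₁ ζ)) (l ^ (m + m)) :=
      (hζ.map_of_injective (algebraMap k κ₁).injective).map_of_injective
        (algebraMap κ₁ F).injective
    have hkF : ((l ^ m : ℕ) : F) ≠ 0 := by
      rw [← map_natCast (algebraMap κ₁ F), Ne, map_eq_zero]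
      exact hk₁
    refine spl_of_symSub (Kall F Ω (l ^ m)) (fun a β hβ => ?_) hmem
    obtain ⟨α, hα⟩ := exists_rt (F := F) (Ω := Ω) (l ^ m) hkF (a : F)
    have hαK : α ∈ Kall F Ω (l ^ m) :=
      IntermediateField.subset_adjoin F _ ⟨(a : F), a.ne_zero, hα⟩
    have hβK : β ^ l ^ m ∈ Kall F Ω (l ^ m) := by
      obtain ⟨b, hb, hβb⟩ := hβ
      refine IntermediateField.subset_adjoin F _ ⟨b, hb, ?_⟩
      rw [← pow_mul, ← hmm]
      exact hβb
    rw [hmm] at hζF hβ ⊢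
    exact symc_spl_mul hN0 hN0 hζF (Kall F Ω (l ^ m)) hβ hβK a α hαK hα

end

theorem BPos_abs (k κ₁ κ₂ F : Type) {Ω : Type} [Field k] [Finite k] [Field κ₁] [Field κ₂]
    [Field F] [Field Ω]
    [Algebra k κ₁] [Algebra k[X] κ₁] [IsScalarTower k k[X] κ₁] [IsFractionRing k[X] κ₁]
    [Algebra κ₁ F] [Algebra κ₁[X] F] [IsScalarTower κ₁ κ₁[X] F] [IsFractionRing κ₁[X] F]
    [Algebra k κ₂] [Algebra k[X] κ₂] [IsScalarTower k k[X] κ₂] [IsFractionRing k[X] κ₂]
    [Algebra F Ω] [IsGalois F Ω] [IsSepClosed Ω]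
    (l m : ℕ) (hl : l.Prime) (hm : 0 < m) (hq : l ^ (m + m) ∣ Nat.card k - 1) :
    ∀ c : Gal(Ω/F) → Gal(Ω/F) → Ωˣ, BC c →
      (Spl (Kall F Ω (l ^ m)) c ↔ BEq (fun σ τ => c σ τ ^ l ^ (m + m)) c1) := by
  have hkk1 : ∀ a : k, algebraMap k[X] κ₁ (C a) = algebraMap k κ₁ a := fun a => by
    rw [IsScalarTower.algebraMap_apply k k[X] κ₁, Polynomial.algebraMap_eq]
  have hkk2 : ∀ a : k, algebraMap k[X] κ₂ (C a) = algebraMap k κ₂ a := fun a => by
    rw [IsScalarTower.algebraMap_apply k k[X] κ₂, Polynomial.algebraMap_eq]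
  have hCF : ∀ a : κ₁, algebraMap κ₁[X] F (C a) = algebraMap κ₁ F a := fun a => by
    rw [IsScalarTower.algebraMap_apply κ₁ κ₁[X] F, Polynomial.algebraMap_eq]
  obtain ⟨ψ, hψdef⟩ : ∃ ψ : k[X] →+* F,
      ψ = (algebraMap κ₁[X] F).comp (mapRingHom (algebraMap k κ₁)) := ⟨_, rfl⟩
  have hψ : Function.Injective ψ := by
    rw [hψdef]
    exact (IsFractionRing.injective κ₁[X] F).comp
      (map_injective _ (algebraMap k κ₁).injective)
  have hψC : ∀ a : k, ψ (C a) = algebraMap κ₁ F (algebraMap k κ₁ a) := fun a => by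
    rw [hψdef, RingHom.comp_apply, coe_mapRingHom, map_C, hCF]
  have hψX : ψ X = algebraMap κ₁[X] F X := by
    rw [hψdef, RingHom.comp_apply, coe_mapRingHom, map_X]
  obtain ⟨φ, hφ⟩ : ∃ φ : κ₂ →+* F, ∀ p, φ (algebraMap k[X] κ₂ p) = ψ p :=
    ⟨IsFractionRing.lift hψ, IsFractionRing.lift_algebraMap hψ⟩
  obtain ⟨x, hx⟩ : ∃ x : F, x = algebraMap κ₁ F (algebraMap k[X] κ₁ X) := ⟨_, rfl⟩
  have hE : (eval₂RingHom φ x).comp (mapRingHom (algebraMap k[X] κ₂)) =
      (evF k κ₁ F).comp (Bivariate.swap (R := k) : k[X][X] →+* k[X][X]) := by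
    apply Polynomial.ringHom_ext'
    · apply Polynomial.ringHom_ext'
      · refine RingHom.ext fun a => ?_
        show eval₂ φ x ((C (C a) : k[X][X]).map (algebraMap k[X] κ₂)) =
          evF k κ₁ F (Bivariate.swap (C (C a)))
        rw [Bivariate.swap_C_C, map_C, eval₂_C, hφ, hψC]
        show _ = algebraMap κ₁[X] F ((C (C a) : k[X][X]).map (algebraMap k[X] κ₁))
        rw [map_C, hCF, hkk1]
      · show eval₂ φ x ((C X : k[X][X]).map (algebraMap k[X] κ₂)) =
          evF k κ₁ F (Bivariate.swap (C X))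
        rw [Bivariate.swap_X, map_C, eval₂_C, hφ, hψX]
        show _ = algebraMap κ₁[X] F ((X : k[X][X]).map (algebraMap k[X] κ₁))
        rw [map_X]
    · show eval₂ φ x ((X : k[X][X]).map (algebraMap k[X] κ₂)) =
          evF k κ₁ F (Bivariate.swap X)
      rw [Bivariate.swap_Y, map_X, eval₂_X, hx]
      show _ = algebraMap κ₁[X] F ((C X : k[X][X]).map (algebraMap k[X] κ₁))
      rw [map_C, hCF]
  have hE' : ∀ q : k[X][X], eval₂ φ x (q.map (algebraMap k[X] κ₂)) =
      evF k κ₁ F (Bivariate.swap q) := fun q => RingHom.congr_fun hE q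
  have hfr := evF_isFractionRing k κ₁ F
  have hEinj : Function.Injective (evF k κ₁ F) :=
    @IsFractionRing.injective k[X][X] _ F _ (evF k κ₁ F).toAlgebra hfr
  have hEsurj : ∀ z : F, ∃ a b : k[X][X], z = evF k κ₁ F a / evF k κ₁ F b := by
    intro z
    obtain ⟨a, b, _, h⟩ := @IsFractionRing.div_surjective k[X][X] _ F _
      (evF k κ₁ F).toAlgebra hfr z
    exact ⟨a, b, h.symm⟩
  have hinj : Function.Injective (eval₂RingHom φ x) := by
    rw [injective_iff_map_eq_zero]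
    intro p hp
    obtain ⟨b, _, hb2⟩ := IsLocalization.integerNormalization_spec (nonZeroDivisors k[X]) p
    have h1 := hE' (IsLocalization.integerNormalization (nonZeroDivisors k[X]) p)
    have h2 : eval₂ φ x (b • p) = 0 := by
      rw [← IsScalarTower.algebraMap_smul κ₂ b p, eval₂_smul]
      have h3 : eval₂ φ x p = 0 := hp
      rw [h3, mul_zero]
    rw [hb2, h2] at h1
    have h3 := (injective_iff_map_eq_zero _).1 hEinj _ h1.symm
    have h4 : IsLocalization.integerNormalization (nonZeroDivisors k[X]) p = 0 := by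
      rw [← Bivariate.swap_swap_apply
        (IsLocalization.integerNormalization (nonZeroDivisors k[X]) p), h3, map_zero]
    exact IsFractionRing.integerNormalization_eq_zero_iff.1 h4
  let a2F : Algebra κ₂ F := φ.toAlgebra
  let a2XF : Algebra κ₂[X] F := (eval₂RingHom φ x).toAlgebra
  have i1 : IsScalarTower κ₂ κ₂[X] F := by
    apply IsScalarTower.of_algebraMap_eq
    intro a
    show φ a = eval₂ φ x (algebraMap κ₂ κ₂[X] a)
    rw [Polynomial.algebraMap_eq, eval₂_C]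
  have i2 : FaithfulSMul κ₂[X] F := (faithfulSMul_iff_algebraMap_injective _ _).2 hinj
  have i3 : IsFractionRing κ₂[X] F := by
    apply IsFractionRing.of_field
    intro z
    obtain ⟨a, b, h⟩ := hEsurj z
    refine ⟨(Bivariate.swap a).map (algebraMap k[X] κ₂),
      (Bivariate.swap b).map (algebraMap k[X] κ₂), ?_⟩
    show z = eval₂ φ x ((Bivariate.swap a).map (algebraMap k[X] κ₂)) /
      eval₂ φ x ((Bivariate.swap b).map (algebraMap k[X] κ₂))
    rw [hE', hE', Bivariate.swap_swap_apply, Bivariate.swap_swap_apply]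
    exact h
  let a1O : Algebra κ₁ Ω := ((algebraMap F Ω).comp (algebraMap κ₁ F)).toAlgebra
  let a2O : Algebra κ₂ Ω := ((algebraMap F Ω).comp (algebraMap κ₂ F)).toAlgebra
  let akO : Algebra k Ω := ((algebraMap κ₁ Ω).comp (algebraMap k κ₁)).toAlgebra
  have j1 : IsScalarTower κ₁ F Ω := IsScalarTower.of_algebraMap_eq fun _ => rfl
  have j2 : IsScalarTower κ₂ F Ω := IsScalarTower.of_algebraMap_eq fun _ => rfl
  have j3 : IsScalarTower k κ₁ Ω := IsScalarTower.of_algebraMap_eq fun _ => rfl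
  have hk : ∀ a : k, algebraMap κ₁ F (algebraMap k κ₁ a) = algebraMap κ₂ F (algebraMap k κ₂ a) := by
    intro a
    rw [← hkk2 a]
    show _ = φ (algebraMap k[X] κ₂ (C a))
    rw [hφ, hψC]
  have j4 : IsScalarTower k κ₂ Ω := by
    apply IsScalarTower.of_algebraMap_eq
    intro a
    show algebraMap F Ω (algebraMap κ₁ F (algebraMap k κ₁ a)) =
      algebraMap F Ω (algebraMap κ₂ F (algebraMap k κ₂ a))
    rw [hk]
  refine sq_l k κ₁ κ₂ F ?_ ?_ l m hl hm hq
  · show _ = eval₂ φ x X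
    rw [eval₂_X, hx]
  · show φ (algebraMap k[X] κ₂ X) = _
    rw [hφ, hψX]

theorem sq_prime_power (k : Type) [Field k] [Finite k] (l m : ℕ) (hl : l.Prime) (hm : 0 < m)
    (hq : l ^ (m + m) ∣ Nat.card k - 1) :
    ∃ K : IntermediateField (RatFunc (RatFunc k)) (SeparableClosure (RatFunc (RatFunc k))),
      AbRelC (l ^ (m + m)) K := by
  have h := BPos_abs k (RatFunc k) (RatFunc k) (RatFunc (RatFunc k))
    (Ω := SeparableClosure (RatFunc (RatFunc k))) l m hl hm hq
  obtain ⟨ζ, hζ⟩ := MainA_root k (l ^ m) ((pow_dvd_pow l (Nat.le_add_right m m)).trans hq)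
  have hζ' : IsPrimitiveRoot (((algebraMap (RatFunc k) (RatFunc (RatFunc k))).comp
      (algebraMap k (RatFunc k))) ζ) (l ^ m) :=
    hζ.map_of_injective (RingHom.injective _)
  have hN : 0 < l ^ m := pow_pos hl.pos m
  refine ⟨Kall (RatFunc (RatFunc k)) _ (l ^ m), kall_normal hN hζ', kall_comm hN hζ', ?_, h⟩
  intro g z hz
  rw [pow_add, pow_mul]
  have h1 : ∀ g : Gal(SeparableClosure (RatFunc (RatFunc k))/RatFunc (RatFunc k)),
      (g ^ l ^ m) z = z := fun g => kall_exponent hN hζ' g z hz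
  exact h1 (g ^ l ^ m)

/-- n divides q - 1 and for every prime l the exponent of l in n is even or equal to the exponent of l
in q - 1 -/
theorem pos_cocycle (k : Type) [Field k] [Finite k] (n : ℕ) (hn : n ∣ Nat.card k - 1)
    (hc : ∀ l : ℕ, l.Prime → Even (n.factorization l) ∨
      n.factorization l = (Nat.card k - 1).factorization l) :
    ∃ K : IntermediateField (RatFunc (RatFunc k)) (SeparableClosure (RatFunc (RatFunc k))),
      AbRelC n K := by
  have hQ : 0 < Nat.card k - 1 := by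
    have := Finite.one_lt_card (α := k)
    omega
  have hn0 : 0 < n := Nat.pos_of_dvd_of_pos hn hQ
  have h1 : Nat.Coprime n (n / n) := by
    rw [Nat.div_self hn0]
    exact Nat.coprime_one_right n
  refine abRelC_all n hn0 (fun l e hl he h2 h3 => ?_) n dvd_rfl h1
  have he' : n.factorization l = e := by
    have h4 : e ≤ n.factorization l := (hl.pow_dvd_iff_le_factorization hn0.ne').1 h2
    have h5 : ¬ (e + 1 ≤ n.factorization l) := fun h =>
      h3 ((hl.pow_dvd_iff_le_factorization hn0.ne').2 h)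
    omega
  rcases hc l hl with h4 | h4
  · obtain ⟨m, hm⟩ := h4
    rw [he'] at hm
    subst hm
    exact sq_prime_power k l m hl (by omega) (h2.trans hn)
  · refine main_prime_power k l e hl he (h2.trans hn) fun h5 => ?_
    have h6 : e + 1 ≤ (Nat.card k - 1).factorization l :=
      (hl.pow_dvd_iff_le_factorization hQ.ne').1 h5
    omega

theorem pos_abRel (k : Type) [Field k] [Finite k] (n : ℕ) (hn : n ∣ Nat.card k - 1)
    (hc : ∀ l : ℕ, l.Prime → Even (n.factorization l) ∨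
      n.factorization l = (Nat.card k - 1).factorization l) :
    AbRel (RatFunc (RatFunc k)) n := by
  obtain ⟨K, hK⟩ := pos_cocycle k n hn hc
  exact abRel_of_abRelC n K hK

end W42
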