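import Pool.Agent.W_42fc02_h90.BTh
import Pool.Agent.W_42fc02_h90.BExc

/-!
BRes (hand-in B, proofs row 475, N3): residues at theta of the trivial symbol (b0, p)_N.

resid_pow: N = l^j, b0 = (X - theta)^(l^eps) u0 in B, p in B, p(theta) not 0. alpha, beta in K with
alpha^N = b0, beta^N = p. By NegHyp.iso the symbol symc N z b0 beta is trivial. KK = AlgebraicClosure
kappa, io : Ok kappa Omega -> KK any embedding (IsAlgClosed.lift), gb in KK with gb^N = p(theta).
For gamma in Gal(KK/kappa) (it fixes theta), gamma gb = zeta^n gb (GenB_root or ExpB_root): symb_res: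
HasRes (symc N z b0 beta) gamma (mult_theta(b0) n / N), mult = l^eps (u0(theta) not 0), and the
class is trivial: l^eps n / N is an integer (HasRes.torsion with N = 1). So l^(j - eps) divides n and
gamma fixes z := gb^(l^eps). z^l^(j - eps) = gb^N = p(theta). z in kappa by Exc_fix (with theta = 0,
adjoin kappa {0} = bot), applied step by step: z^(l^(j-eps)) in kappa; all the powers z^(l^i) are fixed
by all gamma, so going down from i = j - eps to i = 0 each of them is in kappa.
The algebra structure kappa -> Omega: use letI := ((algebraMap F Omega).comp (algebraMap kappa F)).toAlgebra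
if the instance arguments of symb_res need it; here they are assumed in the section.
-/

namespace W42

open Polynomial

theorem resid_pow (k κ F : Type) {Ω : Type} [Field k] [Field κ] [Field F] [Field Ω]
    [Algebra k κ] [Algebra κ F] [Algebra κ[X] F] [IsScalarTower κ κ[X] F] [IsFractionRing κ[X] F]
    [Algebra F Ω] [Algebra κ Ω] [IsScalarTower κ F Ω]
    [IsGalois F Ω] [IsSepClosed Ω] {l j : ℕ} {ζ : k} {K : IntermediateField F Ω}
    (H : NegHyp k F l j ζ K) (θ : κ) (ε : ℕ) (u₀ : κ[X]) (hε : ε ≤ j)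
    (hu₀ : u₀.eval θ ≠ 0) (h₀ : InB κ F (l ^ j) K ((X - C θ) ^ l ^ ε * u₀)) (p : κ[X])
    (hp : InB κ F (l ^ j) K p) (hpθ : p.eval θ ≠ 0) : ∃ z : κ, z ^ l ^ (j - ε) = p.eval θ := by
  have hj : 0 < l ^ j := pow_pos H.hl.pos j
  have : Fact l.Prime := ⟨H.hl⟩
  have hlκ : (l : κ) ≠ 0 := by
    intro h
    apply H.hlk
    apply (algebraMap k κ).injective
    rw [map_natCast, map_zero]
    exact h
  obtain ⟨hb0, α, hα, hαb⟩ := h₀
  obtain ⟨hp0, β, hβ, hβp⟩ := hp
  have hinj := IsFractionRing.injective κ[X] F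
  have hb0F : algebraMap κ[X] F ((X - C θ) ^ l ^ ε * u₀) ≠ 0 := by
    rw [Ne, map_eq_zero_iff _ hinj]
    exact hb0
  have hp0F : algebraMap κ[X] F p ≠ 0 := by
    rw [Ne, map_eq_zero_iff _ hinj]
    exact hp0
  have hiso := H.iso (κ := κ) (Units.mk0 _ hb0F) α β hα hβ hαb ⟨_, hp0F, hβp⟩
  let io : Ok κ Ω →ₐ[κ] AlgebraicClosure κ := IsAlgClosed.lift
  have hev : aeval (algebraMap κ (AlgebraicClosure κ) θ) p =
      algebraMap κ (AlgebraicClosure κ) (p.eval θ) := by
    rw [aeval_algebraMap_apply, coe_aeval_eq_eval]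
  have hev0 : aeval (algebraMap κ (AlgebraicClosure κ) θ) p ≠ 0 := by
    rw [hev, Ne, map_eq_zero]
    exact hpθ
  obtain ⟨gb, hgb⟩ := IsAlgClosed.exists_pow_nat_eq
    (aeval (algebraMap κ (AlgebraicClosure κ) θ) p) hj
  have hmul : l ^ ε * l ^ (j - ε) = l ^ j := by
    rw [← pow_add, Nat.add_sub_cancel' hε]
  have hmult : ((((X - C θ) ^ l ^ ε * u₀ : κ[X])).map
      (algebraMap κ (AlgebraicClosure κ))).rootMultiplicity
        (algebraMap κ (AlgebraicClosure κ) θ) = l ^ ε := by
    have hu : (u₀.map (algebraMap κ (AlgebraicClosure κ))).rootMultiplicity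
        (algebraMap κ (AlgebraicClosure κ) θ) = 0 := by
      apply rootMultiplicity_eq_zero
      intro h
      rw [IsRoot.def, eval_map_algebraMap, aeval_algebraMap_apply, coe_aeval_eq_eval,
        map_eq_zero] at h
      exact hu₀ h
    have hne : ((X - C (algebraMap κ (AlgebraicClosure κ) θ)) ^ l ^ ε *
        u₀.map (algebraMap κ (AlgebraicClosure κ))) ≠ 0 := by
      apply mul_ne_zero
      · exact pow_ne_zero _ (X_sub_C_ne_zero _)
      · rw [Ne, Polynomial.map_eq_zero]
        rintro rfl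
        exact hu₀ eval_zero
    rw [Polynomial.map_mul, Polynomial.map_pow, Polynomial.map_sub, map_X, map_C,
      rootMultiplicity_mul hne, hu, rootMultiplicity_X_sub_C_pow, add_zero]
  have hfix : ∀ γ : Gal(AlgebraicClosure κ/κ), γ (gb ^ l ^ ε) = gb ^ l ^ ε := by
    intro γ
    have hγθ : γ (algebraMap κ (AlgebraicClosure κ) θ) = algebraMap κ (AlgebraicClosure κ) θ :=
      γ.commutes θ
    obtain ⟨n, hn⟩ := GenB_root (l ^ j) hj (zN k κ l j ζ) H.hzN hev0 hgb γ
      (by rw [hev, AlgEquiv.commutes])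
    have hres := symb_res κ F io l j hlκ (zN k κ l j ζ) H.hzN _ p hb0 (Units.mk0 _ hb0F) rfl
      (algebraMap κ (AlgebraicClosure κ) θ) hev0 β hβp gb hgb γ hγθ n hn
    obtain ⟨m, hm⟩ := HasRes.torsion hγθ hres 1 (by simpa only [pow_one] using hiso)
    rw [hmult, Nat.cast_one, one_mul] at hm
    have hjQ : ((l ^ j : ℕ) : ℚ) ≠ 0 := by exact_mod_cast hj.ne'
    rw [div_eq_iff hjQ] at hm
    have hm' : ((l ^ ε * n : ℕ) : ℤ) = m * ((l ^ j : ℕ) : ℤ) := by exact_mod_cast hm
    have hd : l ^ j ∣ l ^ ε * n := by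
      have h1 : ((l ^ j : ℕ) : ℤ) ∣ ((l ^ ε * n : ℕ) : ℤ) := ⟨m, by rw [hm']; ring⟩
      exact_mod_cast h1
    have h1 : algebraMap κ (AlgebraicClosure κ) (zN k κ l j ζ) ^ (l ^ ε * n) = 1 := by
      obtain ⟨r, hr⟩ := hd
      rw [hr, pow_mul, ← map_pow, H.hzN.pow_eq_one, map_one, one_pow]
    rw [map_pow, hn, mul_pow, ← pow_mul, mul_comm n (l ^ ε), h1, one_mul]
  have hdesc : ∀ i : ℕ, i ≤ j - ε →
      (gb ^ l ^ ε) ^ l ^ (j - ε - i) ∈
        IntermediateField.adjoin κ {(0 : AlgebraicClosure κ)} := by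
    intro i
    induction i with
    | zero =>
      intro _
      rw [Nat.sub_zero, ← pow_mul, hmul, hgb, hev]
      exact IntermediateField.algebraMap_mem _ _
    | succ i ih =>
      intro hi
      apply Exc_fix l hlκ
      · have h2 := ih (by omega)
        have h3 : j - ε - i = (j - ε - (i + 1)) + 1 := by omega
        rw [h3, pow_succ, pow_mul] at h2
        exact h2
      · intro γ _
        rw [map_pow, hfix]
  have hz := hdesc (j - ε) le_rfl
  rw [Nat.sub_self, pow_zero, pow_one, IntermediateField.adjoin_zero,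
    IntermediateField.mem_bot] at hz
  obtain ⟨z, hz⟩ := hz
  refine ⟨z, ?_⟩
  apply (algebraMap κ (AlgebraicClosure κ)).injective
  rw [map_pow, hz, ← pow_mul, hmul, hgb, hev]

end W42
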