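import Pool.Agent.W_42fc02_h90.BAll
import Pool.Agent.W_42fc02_h90.BExp

/-!
BSq (hand-in B, positive part): if Kall F N splits c then N * N kills the residues of c (LocEx).
-/

namespace W42

open Polynomial

section
variable (κ F : Type) {Ω : Type} [Field κ] [Field F] [Field Ω] [Algebra κ F] [Algebra κ[X] F]
  [IsScalarTower κ κ[X] F] [IsFractionRing κ[X] F] [Algebra F Ω] [IsGalois F Ω] [IsSepClosed Ω]

/-- a family of polynomials without common zeros -/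
theorem BSq_fam {𝕂 : Type} [Field 𝕂] [Algebra κ 𝕂] (N : ℕ) (hN0 : 0 < N) (hN : (N : κ) ≠ 0)
    (ζ : κ) (hζ : IsPrimitiveRoot ζ N) {c : Gal(Ω/F) → Gal(Ω/F) → Ωˣ} (hc : BC c)
    (hs : Spl (Kall F Ω N) c) :
    ∃ (p : ℕ → κ[X]) (pi : ℕ → Ω) (S : Finset ℕ), (∀ s, p s ≠ 0) ∧
      (∀ s t, s ≠ t → ∀ θ : 𝕂, aeval θ (p s) = 0 → aeval θ (p t) ≠ 0) ∧
      (∀ s, pi s ^ N = algebraMap F Ω (algebraMap κ[X] F (p s))) ∧ Spl (KumL F pi S) c := by
  classical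
  have hNF : (N : F) ≠ 0 := by
    rw [← map_natCast (algebraMap κ F), Ne, map_eq_zero]
    exact hN
  obtain ⟨E, hE, hEf, hEs⟩ := Spl.exists_finite hc.2 hs
  obtain ⟨T, hT, hET⟩ := BAll_finite κ F N hN0 hNF E hE
  obtain ⟨e⟩ : Nonempty (T ≃ Fin T.card) := ⟨T.equivFin⟩
  obtain ⟨p, hp⟩ : ∃ p : ℕ → κ[X], p = fun s => if h : s < T.card then (e.symm ⟨s, h⟩ : κ[X]) else 1 :=
    ⟨_, rfl⟩
  have hp1 : ∀ s (h : s < T.card), p s = (e.symm ⟨s, h⟩ : κ[X]) := by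
    intro s h
    rw [hp]
    exact dif_pos h
  have hp2 : ∀ s, ¬ s < T.card → p s = 1 := by
    intro s h
    rw [hp]
    exact dif_neg h
  have hp0 : ∀ s, p s ≠ 0 := by
    intro s
    by_cases h : s < T.card
    · rw [hp1 s h]
      exact (hT _ (e.symm ⟨s, h⟩).2).1
    · rw [hp2 s h]
      exact one_ne_zero
  choose pi hpi using fun s => exists_rt (F := F) (Ω := Ω) N hNF (algebraMap κ[X] F (p s))
  have hconst : ∀ (q : κ[X]) (θ : 𝕂), q ≠ 0 → q.natDegree = 0 → aeval θ q ≠ 0 := by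
    intro q θ hq hd
    rw [eq_C_of_natDegree_eq_zero hd, aeval_C, Ne, map_eq_zero]
    intro h0
    apply hq
    rw [eq_C_of_natDegree_eq_zero hd, h0, C_0]
  have hmi : ∀ (q q' : κ[X]) (θ : 𝕂), q.Monic → Irreducible q → q'.Monic → Irreducible q' →
      aeval θ q = 0 → aeval θ q' = 0 → q = q' := by
    intro q q' θ h1 h2 h3 h4 h5 h6
    rw [minpoly.eq_of_irreducible_of_monic h2 h5 h1, minpoly.eq_of_irreducible_of_monic h4 h6 h3]
  refine ⟨p, pi, Finset.range T.card, hp0, ?_, hpi, ?_⟩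
  · intro s t hst θ h1 h2
    by_cases hs' : s < T.card
    · by_cases ht' : t < T.card
      · rw [hp1 s hs'] at h1
        rw [hp1 t ht'] at h2
        rcases (hT _ (e.symm ⟨s, hs'⟩).2).2 with h3 | ⟨h3, h4⟩
        · exact hconst _ θ (hT _ (e.symm ⟨s, hs'⟩).2).1 h3 h1
        · rcases (hT _ (e.symm ⟨t, ht'⟩).2).2 with h5 | ⟨h5, h6⟩
          · exact hconst _ θ (hT _ (e.symm ⟨t, ht'⟩).2).1 h5 h2
          · have h7 := hmi _ _ θ h3 h4 h5 h6 h1 h2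
            have h8 := e.symm.injective (Subtype.ext h7)
            apply hst
            exact congrArg (fun a : Fin T.card => (a : ℕ)) h8
      · rw [hp2 t ht', map_one] at h2
        exact one_ne_zero h2
    · rw [hp2 s hs', map_one] at h1
      exact one_ne_zero h1
  · refine hEs.mono (hET.trans ?_)
    unfold FT
    rw [IntermediateField.adjoin_le_iff]
    rintro w ⟨q, hq, hw⟩
    have hq' : q ∈ T := hq
    obtain ⟨s, hs1⟩ : ∃ s : Fin T.card, s = e ⟨q, hq'⟩ := ⟨_, rfl⟩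
    have h1 : p s = q := by
      rw [hp1 s s.2]
      have : (⟨(s : ℕ), s.2⟩ : Fin T.card) = e ⟨q, hq'⟩ := hs1
      rw [this, e.symm_apply_apply]
    have h2 : w ^ N = pi s ^ N := by rw [hw, hpi s, h1]
    have hζΩ : IsPrimitiveRoot (algebraMap F Ω (algebraMap κ F ζ)) N :=
      (hζ.map_of_injective (algebraMap κ F).injective).map_of_injective (algebraMap F Ω).injective
    have hpi0 : pi s ≠ 0 := by
      intro h0
      have h3 := hpi s
      rw [h0, zero_pow hN0.ne'] at h3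
      exact BAll_ne κ F (hp0 s) h3.symm
    haveI : NeZero N := ⟨hN0.ne'⟩
    have h3 : (w / pi s) ^ N = 1 := by
      rw [div_pow, h2, div_self (pow_ne_zero N hpi0)]
    obtain ⟨i, _, h4⟩ := hζΩ.eq_pow_of_pow_eq_one h3
    have h5 : w = (algebraMap F Ω (algebraMap κ F ζ)) ^ i * pi s := by
      rw [h4, div_mul_cancel₀ _ hpi0]
    rw [h5]
    refine mul_mem (pow_mem (IntermediateField.algebraMap_mem _ _) i) ?_
    exact IntermediateField.subset_adjoin F _ ⟨s, by simp, rfl⟩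

variable [Algebra κ Ω] [IsScalarTower κ F Ω]

theorem BSq_loc {𝕂 : Type} [Field 𝕂] [Algebra κ 𝕂] [IsAlgClosed 𝕂]
    [Algebra.IsAlgebraic κ 𝕂] (N : ℕ) (hN0 : 0 < N) (hNκ : (N : κ) ≠ 0) (ζ : κ)
    (hζ : IsPrimitiveRoot ζ N) (p : ℕ → κ[X]) (hp0 : ∀ s, p s ≠ 0)
    (hp : ∀ s t, s ≠ t → ∀ θ : 𝕂, aeval θ (p s) = 0 → aeval θ (p t) ≠ 0) (pi : ℕ → Ω)
    (hpi : ∀ s, pi s ^ N = algebraMap F Ω (algebraMap κ[X] F (p s)))
    {c : Gal(Ω/F) → Gal(Ω/F) → Ωˣ} (hc : BC c) (S : Finset ℕ) (hS : Spl (KumL F pi S) c) :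
    LocEx κ F 𝕂 (N * N) c := by
  classical
  intro kp _ _ i c' hc' h θ γ hγ d hd
  have hζF : IsPrimitiveRoot (algebraMap κ F ζ) N :=
    hζ.map_of_injective (algebraMap κ F).injective
  have hpi' := ExpB_hpi κ F N p hp0 pi hpi
  by_cases hcase : ∀ s ∈ S, aeval θ (p s) ≠ 0
  · -- case 1
    have := kumL_finite F pi S
    have := kumL_normal F N hN0 (algebraMap κ F ζ) hζF pi hpi' S
    obtain ⟨c₀, hc₀, hl₀, hb⟩ := exists_level_of_spl (KumL F pi S) hc hS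
    obtain ⟨n, hn⟩ := (exp_unram κ F N hNκ ζ hζ p hp0 pi hpi S θ hcase hc₀ hl₀ kp i hc'
      (hb.symm.trans h) γ hγ d hd).1
    refine ⟨N * n, ?_⟩
    push_cast
    rw [mul_assoc, hn]
  · -- case 2
    push Not at hcase
    obtain ⟨j, hjS, hj0⟩ := hcase
    have hins : insert j (S.erase j) = S := Finset.insert_erase hjS
    have hS' : ∀ s ∈ S.erase j, aeval θ (p s) ≠ 0 := fun s hs =>
      hp j s (Finset.ne_of_mem_erase hs).symm θ hj0
    have h3 : Spl (KumL F pi (S.erase j : Finset ℕ)) (fun σ τ => c σ τ ^ N) :=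
      spl_kumL_insert F N hN0 (algebraMap κ F ζ) hζF pi hpi' (S.erase j) j hc
        (by rw [hins]; exact hS)
    have := kumL_finite F pi (S.erase j)
    have := kumL_normal F N hN0 (algebraMap κ F ζ) hζF pi hpi' (S.erase j : Finset ℕ)
    obtain ⟨c₁, hc₁, hl₁, hb⟩ := exists_level_of_spl (KumL F pi (S.erase j : Finset ℕ))
      (hc.pow N) h3
    have h4 : BEq c₁ (inflR κ F kp (fun g j => c' g j ^ N)) := by
      have h5 := h.pow N
      have h6 : (fun σ τ => inflR κ F kp c' σ τ ^ N) =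
          inflR κ F kp (fun g j => c' g j ^ N) := by
        funext σ τ
        unfold inflR
        rw [map_pow]
      rw [h6] at h5
      exact hb.symm.trans h5
    obtain ⟨n, hn⟩ := (exp_unram κ F N hNκ ζ hζ p hp0 pi hpi (S.erase j) θ hS' hc₁ hl₁ kp i
      (hc'.pow N) h4 γ hγ d hd).1
    rw [xiR_pow] at hn
    refine ⟨n, ?_⟩
    push_cast
    rw [mul_assoc, hn]

theorem BSq_locEx {𝕂 : Type} [Field 𝕂] [Algebra κ 𝕂] [IsAlgClosed 𝕂]
    [Algebra.IsAlgebraic κ 𝕂] (N : ℕ) (hN0 : 0 < N) (hNκ : (N : κ) ≠ 0) (ζ : κ)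
    (hζ : IsPrimitiveRoot ζ N) {c : Gal(Ω/F) → Gal(Ω/F) → Ωˣ} (hc : BC c)
    (hs : Spl (Kall F Ω N) c) : LocEx κ F 𝕂 (N * N) c := by
  obtain ⟨p, pi, S, hp0, hp, hpi, hS⟩ := BSq_fam κ F (𝕂 := 𝕂) N hN0 hNκ ζ hζ hc hs
  exact BSq_loc κ F N hN0 hNκ ζ hζ p hp0 hp pi hpi hc S hS

/-- the class is killed by a power of N -/
theorem BSq_primary (N : ℕ) (hN0 : 0 < N) (hNκ : (N : κ) ≠ 0) (ζ : κ)
    (hζ : IsPrimitiveRoot ζ N) {c : Gal(Ω/F) → Gal(Ω/F) → Ωˣ} (hc : BC c)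
    (hs : Spl (Kall F Ω N) c) : ∃ s : ℕ, BEq (fun σ τ => c σ τ ^ N ^ s) c1 := by
  obtain ⟨p, pi, S, hp0, hp, hpi, hS⟩ := BSq_fam κ F (𝕂 := AlgebraicClosure κ) N hN0 hNκ ζ hζ hc hs
  exact pow_beq_of_spl_kumL F N hN0 (algebraMap κ F ζ)
    (hζ.map_of_injective (algebraMap κ F).injective) pi (ExpB_hpi κ F N p hp0 pi hpi) S hc hS

end

end W42
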