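import Pool.Agent.W_42fc02_h90.BDef

/-!
BTh (hand-in B, proofs row 475, N2): the structure of B at theta in kappa. N = l^j, B = InB.

B is closed under products; (X - theta)^N and q^N (q not 0) are in B; p * q^N in B implies p in B
(divide the root by q). For p in B let m(p) = rootMultiplicity theta p.

th_struct: the set of padicValNat l (m(p)) (p in B, m(p) not 0) contains j ((X - theta)^N), take the
minimum eps <= j, p0 in B with m(p0) = l^eps s, l not dividing s. Choose s' >= 1 with s s' = 1 + N r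
(Nat.exists_mul_emod_eq_one_of_coprime or Int.gcd): m(p0^s') = l^eps + N l^eps r; p0^s' =
(X - theta)^(N l^eps r) (X - theta)^(l^eps) u0, u0(theta) not 0, and the last product is in B.

th_unit: p in B, m(p) = l^eps t. a = (N - 1) t, b0 = (X - theta)^(l^eps) u0:
m(p b0^a) = l^eps t + l^eps (N - 1) t = N l^eps t, so p b0^a = p' (X - theta)^(N l^eps t),
p'(theta) not 0, p' in B.
-/

namespace W42

open Polynomial

section
variable {κ F : Type} {Ω : Type} [Field κ] [Field F] [Field Ω] [Algebra κ[X] F]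
  [IsFractionRing κ[X] F] [Algebra F Ω] {N : ℕ} {K : IntermediateField F Ω}

theorem InB.mul {p q : κ[X]} (hp : InB κ F N K p) (hq : InB κ F N K q) : InB κ F N K (p * q) := by
  obtain ⟨hp0, α, hα, hαp⟩ := hp
  obtain ⟨hq0, β, hβ, hβq⟩ := hq
  exact ⟨mul_ne_zero hp0 hq0, α * β, mul_mem hα hβ, by rw [mul_pow, hαp, hβq, map_mul, map_mul]⟩

theorem InB.pow {p : κ[X]} (hp : InB κ F N K p) (n : ℕ) : InB κ F N K (p ^ n) := by
  obtain ⟨hp0, α, hα, hαp⟩ := hp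
  exact ⟨pow_ne_zero n hp0, α ^ n, pow_mem hα n, by
    rw [← pow_mul, mul_comm, pow_mul, hαp, map_pow, map_pow]⟩

theorem inB_pow {q : κ[X]} (hq : q ≠ 0) : InB κ F N K (q ^ N) :=
  ⟨pow_ne_zero N hq, algebraMap F Ω (algebraMap κ[X] F q), K.algebraMap_mem _, by
    rw [map_pow, map_pow]⟩

theorem inB_div {p q : κ[X]} (hq : q ≠ 0) (h : InB κ F N K (p * q ^ N)) : InB κ F N K p := by
  obtain ⟨h0, α, hα, hαp⟩ := h
  have h1 : algebraMap F Ω (algebraMap κ[X] F q) ≠ 0 := by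
    rw [Ne, map_eq_zero, map_eq_zero_iff _ (IsFractionRing.injective κ[X] F)]
    exact hq
  refine ⟨left_ne_zero_of_mul h0, α / algebraMap F Ω (algebraMap κ[X] F q),
    div_mem hα (K.algebraMap_mem _), ?_⟩
  rw [div_pow, hαp, map_mul, map_mul, map_pow, map_pow, mul_div_cancel_right₀ _ (pow_ne_zero N h1)]

theorem BTh_factor (θ : κ) {p : κ[X]} (hp : p ≠ 0) :
    ∃ q : κ[X], p = (X - C θ) ^ p.rootMultiplicity θ * q ∧ q.eval θ ≠ 0 := by
  obtain ⟨q, hq1, hq2⟩ := Polynomial.exists_eq_pow_rootMultiplicity_mul_and_not_dvd p hp θ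
  refine ⟨q, hq1, fun h => hq2 ?_⟩
  exact Polynomial.dvd_iff_isRoot.2 h

theorem BTh_mpow (θ : κ) {p : κ[X]} (hp : p ≠ 0) (n : ℕ) :
    (p ^ n).rootMultiplicity θ = n * p.rootMultiplicity θ := by
  induction n with
  | zero => simp
  | succ n ih =>
    rw [pow_succ, Polynomial.rootMultiplicity_mul (mul_ne_zero (pow_ne_zero n hp) hp), ih]
    ring

theorem th_struct (l j : ℕ) (hl : l.Prime) (K : IntermediateField F Ω) (θ : κ) :
    ∃ (ε : ℕ) (u₀ : κ[X]), ε ≤ j ∧ u₀.eval θ ≠ 0 ∧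
      InB κ F (l ^ j) K ((X - C θ) ^ l ^ ε * u₀) ∧
      ∀ p : κ[X], InB κ F (l ^ j) K p → l ^ ε ∣ p.rootMultiplicity θ := by
  classical
  haveI : Fact l.Prime := ⟨hl⟩
  have hX : (X - C θ : κ[X]) ≠ 0 := X_sub_C_ne_zero θ
  have hex : ∃ e : ℕ, ∃ p : κ[X], InB κ F (l ^ j) K p ∧ p.rootMultiplicity θ ≠ 0 ∧
      padicValNat l (p.rootMultiplicity θ) = e := by
    refine ⟨j, (X - C θ) ^ l ^ j, inB_pow hX, ?_, ?_⟩
    · rw [rootMultiplicity_X_sub_C_pow]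
      exact pow_ne_zero _ hl.ne_zero
    · rw [rootMultiplicity_X_sub_C_pow, padicValNat.prime_pow]
  have hmin : Nat.find hex ≤ j := by
    refine Nat.find_min' hex ⟨(X - C θ) ^ l ^ j, inB_pow hX, ?_, ?_⟩
    · rw [rootMultiplicity_X_sub_C_pow]
      exact pow_ne_zero _ hl.ne_zero
    · rw [rootMultiplicity_X_sub_C_pow, padicValNat.prime_pow]
  have hall : ∀ p : κ[X], InB κ F (l ^ j) K p → l ^ Nat.find hex ∣ p.rootMultiplicity θ := by
    intro p hp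
    by_cases h0 : p.rootMultiplicity θ = 0
    · rw [h0]
      exact dvd_zero _
    · have h1 : Nat.find hex ≤ padicValNat l (p.rootMultiplicity θ) :=
        Nat.find_min' hex ⟨p, hp, h0, rfl⟩
      exact (padicValNat_dvd_iff_le h0).2 h1
  obtain ⟨p₀, hp₀, hm0, hval⟩ := Nat.find_spec hex
  generalize Nat.find hex = ε at hmin hall hval
  obtain ⟨s, hs⟩ : l ^ ε ∣ p₀.rootMultiplicity θ := hall p₀ hp₀
  have hls : ¬ l ∣ s := by
    intro h
    obtain ⟨s1, hs1⟩ := h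
    have h2 : l ^ (ε + 1) ∣ p₀.rootMultiplicity θ := by
      rw [hs, hs1]
      exact ⟨s1, by ring⟩
    have h3 := (padicValNat_dvd_iff_le hm0).1 h2
    omega
  have hcop : Nat.Coprime s (l ^ (j + 1)) :=
    ((Nat.Prime.coprime_iff_not_dvd hl).2 hls).symm.pow_right _
  have hlt : 1 < l ^ (j + 1) := Nat.one_lt_pow (by omega) hl.one_lt
  obtain ⟨s', hs'⟩ := Nat.exists_mul_mod_eq_one_of_coprime hcop hlt
  have hs2 : s * s' = 1 + l ^ (j + 1) * (s * s' / l ^ (j + 1)) := by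
    have := Nat.div_add_mod (s * s') (l ^ (j + 1))
    rw [hs'.2] at this
    omega
  set r := s * s' / l ^ (j + 1) with hr
  have hpw : p₀ ^ s' ≠ 0 := pow_ne_zero _ hp₀.1
  obtain ⟨u₀, hu1, hu2⟩ := BTh_factor θ hpw
  have hmul : (p₀ ^ s').rootMultiplicity θ = l ^ ε + l ^ j * (l * r * l ^ ε) := by
    rw [BTh_mpow θ hp₀.1, hs]
    calc s' * (l ^ ε * s) = l ^ ε * (s * s') := by ring
      _ = l ^ ε * (1 + l ^ (j + 1) * r) := by rw [← hs2]
      _ = l ^ ε + l ^ j * (l * r * l ^ ε) := by ring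
  refine ⟨ε, u₀, hmin, hu2, ?_, hall⟩
  have h5 : InB κ F (l ^ j) K (((X - C θ) ^ l ^ ε * u₀) * ((X - C θ) ^ (l * r * l ^ ε)) ^ (l ^ j)) := by
    have h6 : ((X - C θ) ^ l ^ ε * u₀) * ((X - C θ) ^ (l * r * l ^ ε)) ^ (l ^ j) = p₀ ^ s' := by
      rw [hmul] at hu1
      rw [hu1]
      ring
    rw [h6]
    exact hp₀.pow s'
  exact inB_div (pow_ne_zero _ hX) h5

theorem th_unit (l j : ℕ) (hl : l.Prime) (K : IntermediateField F Ω) (θ : κ) (ε : ℕ) (u₀ : κ[X])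
    (hu₀ : u₀.eval θ ≠ 0) (h₀ : InB κ F (l ^ j) K ((X - C θ) ^ l ^ ε * u₀)) (p : κ[X])
    (hp : InB κ F (l ^ j) K p) (hd : l ^ ε ∣ p.rootMultiplicity θ) :
    ∃ (p' : κ[X]) (a b : ℕ), InB κ F (l ^ j) K p' ∧ p'.eval θ ≠ 0 ∧
      p * ((X - C θ) ^ l ^ ε * u₀) ^ a = p' * (X - C θ) ^ (l ^ j * b) := by
  have hX : (X - C θ : κ[X]) ≠ 0 := X_sub_C_ne_zero θ
  obtain ⟨t, ht⟩ := hd
  obtain ⟨p₁, hp1, hp2⟩ := BTh_factor θ hp.1
  rw [ht] at hp1
  obtain ⟨m, hm⟩ : ∃ m, l ^ j = m + 1 := ⟨l ^ j - 1, by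
    have := Nat.pos_of_ne_zero (pow_ne_zero j hl.ne_zero); omega⟩
  have key : p * ((X - C θ) ^ l ^ ε * u₀) ^ (m * t) =
      (p₁ * u₀ ^ (m * t)) * (X - C θ) ^ (l ^ j * (l ^ ε * t)) := by
    rw [hm]
    conv_lhs => rw [hp1]
    ring
  refine ⟨p₁ * u₀ ^ (m * t), m * t, l ^ ε * t, ?_, ?_, key⟩
  · have h1 : InB κ F (l ^ j) K
        ((p₁ * u₀ ^ (m * t)) * ((X - C θ) ^ (l ^ ε * t)) ^ (l ^ j)) := by
      have h2 : (p₁ * u₀ ^ (m * t)) * ((X - C θ) ^ (l ^ ε * t)) ^ (l ^ j) =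
          p * ((X - C θ) ^ l ^ ε * u₀) ^ (m * t) := by
        rw [key, ← pow_mul, mul_comm (l ^ ε * t) (l ^ j)]
      rw [h2]
      exact hp.mul (h₀.pow _)
    exact inB_div (pow_ne_zero _ hX) h1
  · rw [eval_mul, eval_pow]
    exact mul_ne_zero hp2 (pow_ne_zero _ hu₀)

end

end W42
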