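import Pool.Agent.W_42fc02_h90.Homog

/-!
C1 (Tsen-Lang): K algebraically closed, E a finite extension of K(t). Every form of degree d > 0
in n > d variables over E has a nontrivial zero.

Proof. (order) There are an E-basis-like family: e_1, .., e_r a basis of E over K(t) with
e_i e_j in sum K[t] e_k (scale a basis by a common denominator) and a nonzero g in K[t] such that
g * (coefficients of Phi) lie in A = sum K[t] e_k; WLOG the coefficients of Phi lie in A.
A_N = sum K[t]_{<= N} e_k, A_N A_M inside A_(N+M+C). Put x_i = sum_{j,k<=N} u_{ijk} t^k e_j with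
unknowns u. Phi(x) is in A_(dN+C') and its coordinates (r (dN + C' + 1) of them) are forms of
degree d in the n r (N+1) unknowns. For N large n r (N+1) > r (dN + C' + 1): homog_zero.
(Formally: evaluate Phi in MvPolynomial (Fin n x Fin r x Fin (N+1)) E at
X_i = sum u_ijk (t^k e_j); every coordinate functional E -> K (coefficient of t^k e_j) applied to
the coefficients gives a homogeneous polynomial over K.)
-/

set_option autoImplicit false

namespace W42

/-- an order with bounded multiplication. A N = elements of filtration N.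
 (1) A N is a K-subspace of E given by finitely many linear coordinates; dimension r (N+1). -/
theorem exists_order {K : Type} [Field K] {E : Type} [Field E] [Algebra (RatFunc K) E]
    [FiniteDimensional (RatFunc K) E] (S : Finset E) :
    ∃ (r : ℕ) (e : Module.Basis (Fin r) (RatFunc K) E) (C : ℕ) (g : RatFunc K), g ≠ 0 ∧
      (∀ i j k, ∃ p : Polynomial K, p.natDegree ≤ C ∧
        e.repr (e i * e j) k = algebraMap (Polynomial K) (RatFunc K) p) ∧
      (∀ s ∈ S, ∀ k, ∃ p : Polynomial K, p.natDegree ≤ C ∧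
        e.repr (g • s) k = algebraMap (Polynomial K) (RatFunc K) p) := by
  classical
  let r := Module.finrank (RatFunc K) E
  let b : Module.Basis (Fin r) (RatFunc K) E := Module.finBasis (RatFunc K) E
  let T : Finset (RatFunc K) :=
    (Finset.univ : Finset (Fin r × Fin r × Fin r)).image
      (fun q => b.repr (b q.1 * b q.2.1) q.2.2) ∪
    (S ×ˢ (Finset.univ : Finset (Fin r))).image (fun q => b.repr q.1 q.2)
  obtain ⟨D, hD⟩ := IsLocalization.exist_integer_multiples_of_finset
    (nonZeroDivisors (Polynomial K)) T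
  have hδ : algebraMap (Polynomial K) (RatFunc K) D ≠ 0 := by
    have := nonZeroDivisors.coe_ne_zero D
    intro h
    apply this
    exact (map_eq_zero_iff _ (IsFractionRing.injective (Polynomial K) (RatFunc K))).1 h
  set δ := algebraMap (Polynomial K) (RatFunc K) D with hδdef
  have hP : ∀ a : RatFunc K, ∃ p : Polynomial K, a ∈ T →
      algebraMap (Polynomial K) (RatFunc K) p = δ * a := by
    intro a
    by_cases ha : a ∈ T
    · obtain ⟨p, hp⟩ := hD a ha
      refine ⟨p, fun _ => ?_⟩
      rw [hp, Algebra.smul_def]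
    · exact ⟨0, fun h => absurd h ha⟩
  choose P hP using hP
  let e := b.unitsSMul (fun _ => Units.mk0 δ hδ)
  have he : ∀ i, e i = δ • b i := by
    intro i
    simp only [e, Module.Basis.unitsSMul_apply]
    rfl
  have hrepr : ∀ z i, e.repr z i = δ⁻¹ * b.repr z i := by
    intro z i
    simp only [e, Module.Basis.repr_unitsSMul]
    rfl
  refine ⟨r, e, T.sup (fun a => (P a).natDegree), δ * δ, mul_ne_zero hδ hδ, ?_, ?_⟩
  · intro i j k
    have hT : b.repr (b i * b j) k ∈ T := by
      refine Finset.mem_union_left _ (Finset.mem_image.2 ⟨(i, j, k), Finset.mem_univ _, rfl⟩)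
    refine ⟨P (b.repr (b i * b j) k), Finset.le_sup (f := fun a => (P a).natDegree) hT, ?_⟩
    rw [hP _ hT, hrepr, he, he, smul_mul_smul_comm, map_smul, Finsupp.smul_apply, smul_eq_mul]
    field_simp
  · intro s hs k
    have hT : b.repr s k ∈ T := by
      refine Finset.mem_union_right _ (Finset.mem_image.2 ⟨(s, k), ?_, rfl⟩)
      exact Finset.mem_product.2 ⟨hs, Finset.mem_univ _⟩
    refine ⟨P (b.repr s k), Finset.le_sup (f := fun a => (P a).natDegree) hT, ?_⟩
    rw [hP _ hT, hrepr, map_smul, Finsupp.smul_apply, smul_eq_mul]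
    field_simp

section order

variable {K : Type} [Field K] {E : Type} [Field E] [Algebra (RatFunc K) E] {r : ℕ}

/-- the filtration -/
def C1_A (e : Module.Basis (Fin r) (RatFunc K) E) (N : ℕ) : Set E :=
  {z | ∀ k, ∃ p : Polynomial K, p.natDegree ≤ N ∧
    e.repr z k = algebraMap (Polynomial K) (RatFunc K) p}

/-- the embedding of the constants -/
noncomputable def C1_k : K →+* E :=
  (algebraMap (RatFunc K) E).comp ((algebraMap (Polynomial K) (RatFunc K)).comp Polynomial.C)

variable (e : Module.Basis (Fin r) (RatFunc K) E)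

theorem C1_A_zero (N : ℕ) : (0 : E) ∈ C1_A e N := by
  intro k
  exact ⟨0, by simp, by simp⟩

theorem C1_A_add {N : ℕ} {z w : E} (hz : z ∈ C1_A e N) (hw : w ∈ C1_A e N) :
    z + w ∈ C1_A e N := by
  intro k
  obtain ⟨p, hp, hp2⟩ := hz k
  obtain ⟨q, hq, hq2⟩ := hw k
  refine ⟨p + q, (Polynomial.natDegree_add_le _ _).trans (max_le hp hq), ?_⟩
  rw [map_add, Finsupp.add_apply, hp2, hq2, map_add]

theorem C1_A_sum {ι : Type*} {N : ℕ} (s : Finset ι) (f : ι → E) (hf : ∀ i ∈ s, f i ∈ C1_A e N) :
    ∑ i ∈ s, f i ∈ C1_A e N := by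
  classical
  induction s using Finset.induction_on with
  | empty => simpa using C1_A_zero e N
  | insert a s ha ih =>
    rw [Finset.sum_insert ha]
    exact C1_A_add e (hf a (Finset.mem_insert_self a s))
      (ih fun i hi => hf i (Finset.mem_insert_of_mem hi))

theorem C1_A_mono {N M : ℕ} (h : N ≤ M) {z : E} (hz : z ∈ C1_A e N) : z ∈ C1_A e M := by
  intro k
  obtain ⟨p, hp, hp2⟩ := hz k
  exact ⟨p, hp.trans h, hp2⟩

theorem C1_A_smul {N : ℕ} (a : K) {z : E} (hz : z ∈ C1_A e N) : C1_k a * z ∈ C1_A e N := by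
  intro k
  obtain ⟨p, hp, hp2⟩ := hz k
  refine ⟨Polynomial.C a * p, (Polynomial.natDegree_C_mul_le a p).trans hp, ?_⟩
  have : C1_k a * z = (algebraMap (Polynomial K) (RatFunc K) (Polynomial.C a)) • z := by
    rw [Algebra.smul_def]; rfl
  rw [this, map_smul, Finsupp.smul_apply, hp2, smul_eq_mul, map_mul]

theorem C1_A_mul {C : ℕ} (hC : ∀ i j k, ∃ p : Polynomial K, p.natDegree ≤ C ∧
      e.repr (e i * e j) k = algebraMap (Polynomial K) (RatFunc K) p) {N M : ℕ} {z w : E}
    (hz : z ∈ C1_A e N) (hw : w ∈ C1_A e M) : z * w ∈ C1_A e (N + M + C) := by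
  choose p hp hp2 using hz
  choose q hq hq2 using hw
  choose c hc hc2 using hC
  have h1 : z * w = ∑ i, ∑ j, (e.repr z i * e.repr w j) • (e i * e j) := by
    conv_lhs => rw [← e.sum_repr z, ← e.sum_repr w, Finset.sum_mul_sum]
    refine Finset.sum_congr rfl fun i _ => Finset.sum_congr rfl fun j _ => ?_
    rw [smul_mul_smul_comm]
  intro k
  refine ⟨∑ i, ∑ j, p i * q j * c i j k, ?_, ?_⟩
  · refine Polynomial.natDegree_sum_le_of_forall_le _ _ fun i _ => ?_
    refine Polynomial.natDegree_sum_le_of_forall_le _ _ fun j _ => ?_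
    refine Polynomial.natDegree_mul_le.trans (add_le_add ?_ (hc i j k))
    exact Polynomial.natDegree_mul_le.trans (add_le_add (hp i) (hq j))
  · rw [h1]
    simp only [map_sum, Finsupp.coe_finsetSum, Finset.sum_apply, map_smul, Finsupp.smul_apply,
      smul_eq_mul, map_mul, hp2, hq2, hc2]

/-- polynomials with coefficients in the filtration -/
def C1_P {U : Type} (N : ℕ) : Set (MvPolynomial U E) := {p | ∀ m, p.coeff m ∈ C1_A e N}

theorem C1_P_sum {U ι : Type} {N : ℕ} (s : Finset ι) (f : ι → MvPolynomial U E)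
    (hf : ∀ i ∈ s, f i ∈ C1_P e N) : ∑ i ∈ s, f i ∈ C1_P e N := by
  intro m
  rw [MvPolynomial.coeff_sum]
  exact C1_A_sum e s _ fun i hi => hf i hi m

theorem C1_P_mono {U : Type} {N M : ℕ} (h : N ≤ M) {z : MvPolynomial U E} (hz : z ∈ C1_P e N) :
    z ∈ C1_P e M := fun m => C1_A_mono e h (hz m)

theorem C1_P_mul {U : Type} {C : ℕ} (hC : ∀ i j k, ∃ p : Polynomial K, p.natDegree ≤ C ∧
      e.repr (e i * e j) k = algebraMap (Polynomial K) (RatFunc K) p) {N M : ℕ}
    {z w : MvPolynomial U E} (hz : z ∈ C1_P e N) (hw : w ∈ C1_P e M) :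
    z * w ∈ C1_P e (N + M + C) := by
  classical
  intro m
  rw [MvPolynomial.coeff_mul]
  exact C1_A_sum e _ _ fun x _ => C1_A_mul e hC (hz _) (hw _)

theorem C1_P_pow {U : Type} {C : ℕ} (hC : ∀ i j k, ∃ p : Polynomial K, p.natDegree ≤ C ∧
      e.repr (e i * e j) k = algebraMap (Polynomial K) (RatFunc K) p) {N M : ℕ}
    {z w : MvPolynomial U E} (hz : z ∈ C1_P e M) (hw : w ∈ C1_P e N) (a : ℕ) :
    z * w ^ a ∈ C1_P e (M + a * (N + C)) := by
  induction a with
  | zero => simpa using hz
  | succ a ih =>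
    rw [pow_succ, ← mul_assoc]
    have := C1_P_mul e hC ih hw
    refine C1_P_mono e (le_of_eq ?_) this
    ring

theorem C1_P_prod {U ι : Type} {C : ℕ} (hC : ∀ i j k, ∃ p : Polynomial K, p.natDegree ≤ C ∧
      e.repr (e i * e j) k = algebraMap (Polynomial K) (RatFunc K) p) {N M : ℕ}
    {z : MvPolynomial U E} (hz : z ∈ C1_P e M) (w : ι → MvPolynomial U E)
    (hw : ∀ i, w i ∈ C1_P e N) (a : ι → ℕ) (s : Finset ι) :
    z * ∏ i ∈ s, w i ^ a i ∈ C1_P e (M + (∑ i ∈ s, a i) * (N + C)) := by
  classical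
  induction s using Finset.induction_on with
  | empty => simpa using hz
  | insert i s hi ih =>
    rw [Finset.prod_insert hi, Finset.sum_insert hi, mul_comm (w i ^ a i), ← mul_assoc]
    have := C1_P_pow e hC ih (hw i) (a i)
    refine C1_P_mono e (le_of_eq ?_) this
    ring

theorem C1_P_C {U : Type} {N : ℕ} {z : E} (hz : z ∈ C1_A e N) :
    (MvPolynomial.C z : MvPolynomial U E) ∈ C1_P e N := by
  classical
  intro m
  rw [MvPolynomial.coeff_C]
  split_ifs
  · exact hz
  · exact C1_A_zero e N

/-- the generic form has coefficients in a filtration step -/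
theorem C1_P_aeval {U : Type} {n : ℕ} {C : ℕ} (hC : ∀ i j k, ∃ p : Polynomial K,
      p.natDegree ≤ C ∧ e.repr (e i * e j) k = algebraMap (Polynomial K) (RatFunc K) p) {N M : ℕ}
    (w : Fin n → MvPolynomial U E) (hw : ∀ i, w i ∈ C1_P e N) {d : ℕ}
    (Φ : MvPolynomial (Fin n) E) (hΦ : Φ.IsHomogeneous d) (hM : ∀ m, Φ.coeff m ∈ C1_A e M) :
    MvPolynomial.aeval w Φ ∈ C1_P e (M + d * (N + C)) := by
  rw [MvPolynomial.aeval_eq_eval₂Hom, MvPolynomial.coe_eval₂Hom, MvPolynomial.eval₂_eq]
  refine C1_P_sum e _ _ fun m hm => ?_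
  have h1 := C1_P_prod e hC (C1_P_C (U := U) e (hM m)) w hw (fun i => m i) m.support
  have h2 : ∑ i ∈ m.support, m i = d := by
    have := hΦ (MvPolynomial.mem_support_iff.1 hm)
    rw [← this, Finsupp.weight_apply, Finsupp.sum]
    simp
  rw [h2] at h1
  exact h1

/-- coefficientwise application of a functional -/
noncomputable def C1_f {U : Type} (L : E →+ K) (Ψ : MvPolynomial U E) : MvPolynomial U K :=
  ∑ m ∈ Ψ.support, MvPolynomial.monomial m (L (Ψ.coeff m))

omit [Algebra (RatFunc K) E] in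
theorem C1_f_hom {U : Type} (L : E →+ K) (Ψ : MvPolynomial U E) {d : ℕ}
    (hΨ : Ψ.IsHomogeneous d) : (C1_f L Ψ).IsHomogeneous d := by
  refine MvPolynomial.IsHomogeneous.sum _ _ _ fun m hm => ?_
  apply MvPolynomial.isHomogeneous_monomial
  have := hΨ (MvPolynomial.mem_support_iff.1 hm)
  rwa [Finsupp.degree_eq_weight_one]

theorem C1_f_eval {U : Type} (L : E →+ K) (hL : ∀ (a : K) (z : E), L (C1_k a * z) = a * L z)
    (Ψ : MvPolynomial U E) (u : U → K) :
    MvPolynomial.eval u (C1_f L Ψ) = L (MvPolynomial.eval (fun i => C1_k (u i)) Ψ) := by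
  have h0 : MvPolynomial.eval (fun i => (C1_k (u i) : E)) Ψ = _ := MvPolynomial.eval_eq _ _
  rw [h0, map_sum, C1_f, map_sum]
  refine Finset.sum_congr rfl fun m _ => ?_
  rw [MvPolynomial.eval_monomial, mul_comm (Ψ.coeff m)]
  have h1 : ∏ i ∈ m.support, (C1_k (u i) : E) ^ m i = C1_k (∏ i ∈ m.support, u i ^ m i) := by
    rw [map_prod]
    refine Finset.prod_congr rfl fun i _ => ?_
    rw [map_pow]
  rw [h1, hL, mul_comm, Finsupp.prod]

theorem C1_eval_mem {U : Type} {M : ℕ} {Ψ : MvPolynomial U E} (hΨ : Ψ ∈ C1_P e M) (u : U → K) :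
    MvPolynomial.eval (fun i => C1_k (u i)) Ψ ∈ C1_A e M := by
  rw [MvPolynomial.eval_eq]
  refine C1_A_sum e _ _ fun m _ => ?_
  have h1 : ∏ i ∈ m.support, (C1_k (u i) : E) ^ m i = C1_k (∏ i ∈ m.support, u i ^ m i) := by
    rw [map_prod]
    refine Finset.prod_congr rfl fun i _ => ?_
    rw [map_pow]
  rw [h1, mul_comm]
  exact C1_A_smul e _ (hΨ m)

/-- functionals that detect elements of the filtration -/
theorem C1_functionals (M : ℕ) : ∃ L : Fin r → Fin (M + 1) → (E →+ K),
    (∀ j k (a : K) (z : E), L j k (C1_k a * z) = a * L j k z) ∧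
    (∀ z ∈ C1_A e M, (∀ j k, L j k z = 0) → z = 0) := by
  have hinj : Function.Injective
      ((Algebra.linearMap (Polynomial K) (RatFunc K)).restrictScalars K) :=
    IsFractionRing.injective (Polynomial K) (RatFunc K)
  obtain ⟨τ, hτ⟩ := LinearMap.exists_leftInverse_of_injective
    ((Algebra.linearMap (Polynomial K) (RatFunc K)).restrictScalars K) (LinearMap.ker_eq_bot.2 hinj)
  have hτ' : ∀ p : Polynomial K, τ (algebraMap (Polynomial K) (RatFunc K) p) = p := fun p =>
    LinearMap.congr_fun hτ p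
  let L : Fin r → Fin (M + 1) → (E →+ K) := fun j k =>
    { toFun := fun z => (τ (e.repr z j)).coeff k
      map_zero' := by simp
      map_add' := fun z w => by simp }
  refine ⟨L, ?_, ?_⟩
  · intro j k a z
    change (τ (e.repr (C1_k a * z) j)).coeff k = a * (τ (e.repr z j)).coeff k
    have : C1_k a * z = (algebraMap (Polynomial K) (RatFunc K) (Polynomial.C a)) • z := by
      rw [Algebra.smul_def]; rfl
    rw [this, map_smul, Finsupp.smul_apply, smul_eq_mul]
    have h2 : algebraMap (Polynomial K) (RatFunc K) (Polynomial.C a) * e.repr z j =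
        a • (e.repr z j) := by
      rw [Algebra.smul_def]
      congr 1
    rw [h2, map_smul, Polynomial.coeff_smul, smul_eq_mul]
  · intro z hz h0
    rw [← e.repr.map_eq_zero_iff]
    ext j
    obtain ⟨p, hp, hp2⟩ := hz j
    rw [hp2, Finsupp.zero_apply]
    have : p = 0 := by
      ext k
      rw [Polynomial.coeff_zero]
      by_cases hk : k ≤ M
      · have := h0 j ⟨k, by omega⟩
        change (τ (e.repr z j)).coeff k = 0 at this
        rwa [hp2, hτ'] at this
      · exact Polynomial.coeff_eq_zero_of_natDegree_lt (by omega)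
    rw [this, map_zero]

end order

theorem c1_zero {K : Type} [Field K] [IsAlgClosed K] {E : Type} [Field E]
    [Algebra (RatFunc K) E] [FiniteDimensional (RatFunc K) E] {n d : ℕ} (hd : 0 < d)
    (hdn : d < n) (Φ : MvPolynomial (Fin n) E) (hΦ : Φ.IsHomogeneous d) :
    ∃ x : Fin n → E, x ≠ 0 ∧ MvPolynomial.eval x Φ = 0 := by
  classical
  obtain ⟨r, e, C, g, hg, hC, hS⟩ := exists_order (K := K)
    (Φ.support.image fun m => Φ.coeff m)
  -- the scaled form
  set γ : E := algebraMap (RatFunc K) E g with hγ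
  have hγ0 : γ ≠ 0 := by
    rw [hγ]
    exact (map_ne_zero _).2 hg
  set Φ' : MvPolynomial (Fin n) E := MvPolynomial.C γ * Φ with hΦ'
  have hΦ'h : Φ'.IsHomogeneous d := by
    have := (MvPolynomial.isHomogeneous_C (Fin n) γ).mul hΦ
    rwa [zero_add] at this
  have hcoef : ∀ m, Φ'.coeff m ∈ C1_A e C := by
    intro m
    rw [hΦ', MvPolynomial.coeff_C_mul]
    by_cases hm : Φ.coeff m = 0
    · rw [hm, mul_zero]
      exact C1_A_zero e C
    · have h1 : Φ.coeff m ∈ Φ.support.image fun m => Φ.coeff m :=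
        Finset.mem_image.2 ⟨m, MvPolynomial.mem_support_iff.2 hm, rfl⟩
      have h2 : γ * Φ.coeff m = g • Φ.coeff m := by rw [Algebra.smul_def]
      rw [h2]
      exact hS _ h1
  have hr : 0 < r := by
    have h1 : Module.finrank (RatFunc K) E = r := by
      rw [Module.finrank_eq_card_basis e, Fintype.card_fin]
    rw [← h1]
    exact Module.finrank_pos
  -- parameters
  obtain ⟨N, hN⟩ : ∃ N, N = C + d * C + 1 := ⟨_, rfl⟩
  obtain ⟨M, hM⟩ : ∃ M, M = C + d * (N + C) := ⟨_, rfl⟩
  -- the generic element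
  let U := Fin n × Fin r × Fin (N + 1)
  let T : ℕ → RatFunc K := fun k => algebraMap (Polynomial K) (RatFunc K) (Polynomial.X ^ k)
  let w : Fin n → MvPolynomial U E := fun i =>
    ∑ q : Fin r × Fin (N + 1), MvPolynomial.C (T q.2 • e q.1) * MvPolynomial.X (i, q)
  have hTA : ∀ (j : Fin r) (k : ℕ), k ≤ N → T k • e j ∈ C1_A e N := by
    intro j k hk l
    by_cases hjl : j = l
    · refine ⟨Polynomial.X ^ k, by rw [Polynomial.natDegree_X_pow]; exact hk, ?_⟩
      rw [map_smul, Module.Basis.repr_self, Finsupp.smul_apply, hjl, Finsupp.single_eq_same,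
        smul_eq_mul, mul_one]
    · refine ⟨0, by simp, ?_⟩
      rw [map_smul, Module.Basis.repr_self, Finsupp.smul_apply,
        Finsupp.single_eq_of_ne (Ne.symm hjl), smul_zero, map_zero]
  have hw : ∀ i, w i ∈ C1_P e N := by
    intro i
    refine C1_P_sum e _ _ fun q _ => ?_
    intro m
    rw [MvPolynomial.coeff_C_mul, MvPolynomial.coeff_X]
    split_ifs
    · rw [mul_one]
      exact hTA q.1 q.2 (by have := q.2.2; omega)
    · rw [mul_zero]
      exact C1_A_zero e N
  have hwh : ∀ i, (w i).IsHomogeneous 1 := by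
    intro i
    refine MvPolynomial.IsHomogeneous.sum _ _ _ fun q _ => ?_
    have := (MvPolynomial.isHomogeneous_C U (T q.2 • e q.1)).mul
      (MvPolynomial.isHomogeneous_X E (i, q))
    rwa [zero_add] at this
  set Ψ : MvPolynomial U E := MvPolynomial.aeval w Φ' with hΨ
  have hΨh : Ψ.IsHomogeneous d := by
    have := hΦ'h.aeval w hwh
    rwa [one_mul] at this
  have hΨP : Ψ ∈ C1_P e M := by
    rw [hM]
    exact C1_P_aeval e hC w hw Φ' hΦ'h hcoef
  obtain ⟨L, hL1, hL2⟩ := C1_functionals e M
  -- the system of forms over `K`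
  have hcard : r * (M + 1) < Fintype.card U := by
    simp only [U, Fintype.card_prod, Fintype.card_fin]
    have h1 : M + 1 < n * (N + 1) := by
      have h2 : (d + 1) * (N + 1) ≤ n * (N + 1) := Nat.mul_le_mul_right _ hdn
      have h3 : M + 1 < (d + 1) * (N + 1) := by
        rw [hM]
        have h4 : (d + 1) * (N + 1) = d * N + N + d + 1 := by ring
        have h5 : C + d * (N + C) + 1 = C + d * N + d * C + 1 := by ring
        rw [h4, h5]
        omega
      omega
    calc r * (M + 1) < r * (n * (N + 1)) := Nat.mul_lt_mul_of_pos_left h1 hr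
      _ = n * (r * (N + 1)) := by ring
  obtain ⟨u, hu, hu0⟩ := homog_zero hcard
    (fun l => C1_f (L (finProdFinEquiv.symm l).1 (finProdFinEquiv.symm l).2) Ψ)
    (fun _ => d) (fun _ => hd) (fun l => C1_f_hom _ Ψ hΨh)
  have hzero : MvPolynomial.eval (fun i => C1_k (u i)) Ψ = 0 := by
    refine hL2 _ (C1_eval_mem e hΨP u) fun j k => ?_
    have := hu0 (finProdFinEquiv (j, k))
    rw [Equiv.symm_apply_apply] at this
    rw [← C1_f_eval _ (hL1 j k)]
    exact this
  let x : Fin n → E := fun i => MvPolynomial.eval (fun i => C1_k (u i)) (w i)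
  have hx : MvPolynomial.eval x Φ' = 0 := by
    rw [← hzero, hΨ]
    have h1 := MvPolynomial.comp_aeval_apply (fun i => w i)
      (MvPolynomial.aeval (R := E) (fun i : U => (C1_k (u i) : E))) Φ'
    rw [MvPolynomial.aeval_eq_eval, MvPolynomial.aeval_eq_eval] at h1
    exact h1.symm
  have hxi : ∀ i, x i = ∑ j, algebraMap (Polynomial K) (RatFunc K)
      (∑ k : Fin (N + 1), Polynomial.C (u (i, j, k)) * Polynomial.X ^ (k : ℕ)) • e j := by
    intro i
    change MvPolynomial.eval (fun i => C1_k (u i)) (w i) = _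
    simp only [w]
    rw [map_sum, Fintype.sum_prod_type]
    refine Finset.sum_congr rfl fun j _ => ?_
    rw [map_sum, Finset.sum_smul]
    refine Finset.sum_congr rfl fun k _ => ?_
    rw [map_mul, MvPolynomial.eval_C, MvPolynomial.eval_X, map_mul, mul_comm, mul_smul,
      Algebra.smul_def (algebraMap (Polynomial K) (RatFunc K) (Polynomial.C _))]
    rfl
  refine ⟨x, ?_, ?_⟩
  · intro h0
    apply hu
    funext ⟨i, j, k⟩
    have h1 : x i = 0 := by rw [h0]; rfl
    rw [hxi i] at h1
    have h2 := Fintype.linearIndependent_iff.1 e.linearIndependent _ h1 j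
    rw [map_eq_zero_iff _ (IsFractionRing.injective (Polynomial K) (RatFunc K))] at h2
    have h3 := congrArg (fun p => Polynomial.coeff p k) h2
    simp only [Polynomial.finsetSum_coeff, Polynomial.coeff_C_mul, Polynomial.coeff_X_pow,
      Polynomial.coeff_zero] at h3
    rw [Finset.sum_eq_single k] at h3
    · simpa using h3
    · intro k' _ hk'
      have : (k : ℕ) ≠ (k' : ℕ) := fun h => hk' (Fin.ext h.symm)
      rw [if_neg this, mul_zero]
    · intro h
      exact absurd (Finset.mem_univ k) h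
  · rw [hΦ', map_mul, MvPolynomial.eval_C] at hx
    exact (mul_eq_zero.1 hx).resolve_left hγ0

end W42
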