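import Mathlib

/-!
MP_42fc02_al, helper90: cochains of a group G with values in a commutative G-module A
(multiplicative notation).

c : G -> G -> A is a 2-cocycle (IsC2) if c g h * c (g h) j = (g . c h j) * c g (h j);
dB b g h = b g * (g . b h) / b (g h).
-/

namespace W42

section
variable {G A : Type*} [Group G] [CommGroup A] [MulDistribMulAction G A]

/-- 2-cocycle (multiplicative). -/
def IsC2 (c : G → G → A) : Prop :=
  ∀ g h j : G, c g h * c (g * h) j = (g • c h j) * c g (h * j)

/-- coboundary of a 1-cochain. -/
def dB (b : G → A) (g h : G) : A := b g * (g • b h) / b (g * h)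

/-- carry for representatives of ZMod l : 1 if i.val + j.val >= l, else 0. -/
def carry {l : ℕ} (i j : ZMod l) : ℕ := if l ≤ i.val + j.val then 1 else 0

end

end W42
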