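import Mathlib

/-!
CsaA: F-algebras A with an F-algebra homomorphism rho : A -> M_iota(Omega) whose image spans
M_iota(Omega) over Omega and dim_F A = |iota|^2 (so Omega (x) A = M_iota(Omega)).

skolem: Phi_i : Omega (x)_F A -> M_iota(Omega), x (x) a -> x rho_i a, is surjective (span) and both
sides have dimension |iota|^2 over Omega: isomorphism of Omega-algebras. Phi_2 Phi_1^-1 is an
automorphism of M_iota(Omega) = End(Omega^iota): inner by AlgEquiv.eq_linearEquivConjAlgEquiv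
(Mathlib.LinearAlgebra.GeneralLinearGroup.AlgEquiv).
exists_rep: Omega separably closed. Omega (x) A is simple and central over Omega, so it is M_m(D)
(IsSimpleRing.exists_algEquiv_matrix_divisionRing_finite), D a finite-dimensional division algebra with
centre Omega; D = Omega by Jacobson-Noether (JacobsonNoether.exists_separable_and_not_isCentral': a
separable element outside the centre generates a proper separable extension of Omega).
-/

namespace W42

open scoped TensorProduct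

section
variable {F Ω A ι : Type} [Field F] [Field Ω] [Algebra F Ω] [Ring A] [Algebra F A]
  [Fintype ι] [DecidableEq ι]

structure MatRep (ρ : A →ₐ[F] Matrix ι ι Ω) : Prop where
  span : Submodule.span Ω (Set.range ρ) = ⊤
  dim : Module.finrank F A = Fintype.card ι ^ 2
  pos : 0 < Fintype.card ι

theorem commute_scalar {ρ : A →ₐ[F] Matrix ι ι Ω} (hρ : MatRep ρ) (X : Matrix ι ι Ω)
    (h : ∀ a, X * ρ a = ρ a * X) : ∃ x : Ω, X = x • (1 : Matrix ι ι Ω) := by
  have hall : ∀ M : Matrix ι ι Ω, X * M = M * X := by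
    intro M
    have hM : M ∈ Submodule.span Ω (Set.range ρ) := by
      rw [hρ.span]
      exact Submodule.mem_top
    induction hM using Submodule.span_induction with
    | mem x hx =>
      obtain ⟨a, rfl⟩ := hx
      exact h a
    | zero => simp
    | add x y _ _ hx hy => rw [mul_add, add_mul, hx, hy]
    | smul a x _ hx => rw [mul_smul_comm, smul_mul_assoc, hx]
  have h2 : X ∈ Set.range (Matrix.scalar ι : Ω →+* Matrix ι ι Ω) := by
    rw [Matrix.mem_range_scalar_iff_commute_single]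
    intro i j _
    exact (hall _).symm
  obtain ⟨x, hx⟩ := h2
  refine ⟨x, ?_⟩
  rw [← hx, Matrix.scalar_apply, Matrix.smul_one_eq_diagonal]

theorem CsaA_comm (ρ : A →ₐ[F] Matrix ι ι Ω) (x : Ω) (a : A) :
    Commute ((Algebra.ofId Ω (Matrix ι ι Ω)) x) (ρ a) :=
  Algebra.commutes x (ρ a)

/-- the Omega-linear extension of a representation -/
noncomputable def CsaA_ext (ρ : A →ₐ[F] Matrix ι ι Ω) : Ω ⊗[F] A →ₐ[Ω] Matrix ι ι Ω :=
  Algebra.TensorProduct.lift (Algebra.ofId Ω (Matrix ι ι Ω)) ρ (CsaA_comm ρ)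

theorem CsaA_ext_tmul (ρ : A →ₐ[F] Matrix ι ι Ω) (x : Ω) (a : A) :
    CsaA_ext ρ (x ⊗ₜ a) = x • ρ a := by
  have h := Algebra.TensorProduct.lift_tmul (Algebra.ofId Ω (Matrix ι ι Ω)) ρ (CsaA_comm ρ) x a
  rw [Algebra.smul_def]
  exact h

theorem CsaA_ext_bij {ρ : A →ₐ[F] Matrix ι ι Ω} (hρ : MatRep ρ) :
    Function.Bijective (CsaA_ext ρ) := by
  have hpos : 0 < Module.finrank F A := by
    rw [hρ.dim]
    exact pow_pos hρ.pos 2
  have : FiniteDimensional F A := Module.finite_of_finrank_pos hpos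
  have hsurj : Function.Surjective (CsaA_ext ρ) := by
    intro M
    have hM : M ∈ Submodule.span Ω (Set.range ρ) := by
      rw [hρ.span]
      exact Submodule.mem_top
    have : Submodule.span Ω (Set.range ρ) ≤ LinearMap.range (CsaA_ext ρ).toLinearMap := by
      rw [Submodule.span_le]
      rintro _ ⟨a, rfl⟩
      refine ⟨1 ⊗ₜ a, ?_⟩
      change CsaA_ext ρ (1 ⊗ₜ a) = _
      rw [CsaA_ext_tmul, one_smul]
    exact this hM
  refine ⟨?_, hsurj⟩
  have hdim : Module.finrank Ω (Ω ⊗[F] A) = Module.finrank Ω (Matrix ι ι Ω) := by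
    rw [Module.finrank_baseChange, hρ.dim, Module.finrank_matrix, Module.finrank_self]
    ring
  have := (LinearMap.injective_iff_surjective_of_finrank_eq_finrank
    (f := (CsaA_ext ρ).toLinearMap) hdim).2 hsurj
  exact this

theorem skolem {ρ₁ ρ₂ : A →ₐ[F] Matrix ι ι Ω} (h₁ : MatRep ρ₁) (h₂ : MatRep ρ₂) :
    ∃ Q : (Matrix ι ι Ω)ˣ, ∀ a, ρ₂ a = (Q : Matrix ι ι Ω) * ρ₁ a * (Q⁻¹ : (Matrix ι ι Ω)ˣ) := by
  let e₁ : Ω ⊗[F] A ≃ₐ[Ω] Matrix ι ι Ω := AlgEquiv.ofBijective _ (CsaA_ext_bij h₁)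
  let e₂ : Ω ⊗[F] A ≃ₐ[Ω] Matrix ι ι Ω := AlgEquiv.ofBijective _ (CsaA_ext_bij h₂)
  let t : Matrix ι ι Ω ≃ₐ[Ω] Module.End Ω (ι → Ω) := Matrix.toLinAlgEquiv'
  let f : Module.End Ω (ι → Ω) ≃ₐ[Ω] Module.End Ω (ι → Ω) :=
    (t.symm.trans (e₁.symm.trans e₂)).trans t
  obtain ⟨T, hT⟩ := AlgEquiv.eq_linearEquivConjAlgEquiv f
  let u : (Matrix ι ι Ω)ˣ :=
    { val := t.symm T.toLinearMap
      inv := t.symm T.symm.toLinearMap
      val_inv := by
        rw [← map_mul]
        have : (T.toLinearMap * T.symm.toLinearMap : Module.End Ω (ι → Ω)) = 1 :=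
          LinearMap.ext fun x => T.apply_symm_apply x
        rw [this, map_one]
      inv_val := by
        rw [← map_mul]
        have : (T.symm.toLinearMap * T.toLinearMap : Module.End Ω (ι → Ω)) = 1 :=
          LinearMap.ext fun x => T.symm_apply_apply x
        rw [this, map_one] }
  refine ⟨u, fun a => ?_⟩
  have ha1 : e₁ (1 ⊗ₜ a) = ρ₁ a := by
    change CsaA_ext ρ₁ (1 ⊗ₜ a) = _
    rw [CsaA_ext_tmul, one_smul]
  have ha2 : e₂ (1 ⊗ₜ a) = ρ₂ a := by
    change CsaA_ext ρ₂ (1 ⊗ₜ a) = _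
    rw [CsaA_ext_tmul, one_smul]
  have hf : f (t (ρ₁ a)) = t (ρ₂ a) := by
    change t (e₂ (e₁.symm (t.symm (t (ρ₁ a))))) = _
    rw [t.symm_apply_apply, ← ha1, e₁.symm_apply_apply, ha2]
  rw [hT] at hf
  apply t.injective
  rw [← hf]
  rw [map_mul, map_mul]
  change _ = t (t.symm T.toLinearMap) * t (ρ₁ a) * t (t.symm T.symm.toLinearMap)
  rw [t.apply_symm_apply, t.apply_symm_apply]
  rw [LinearEquiv.conjAlgEquiv_apply]
  rfl

end

section
variable {F Ω A : Type} [Field F] [Field Ω] [Algebra F Ω] [Ring A] [Algebra F A]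

/-- coefficients with respect to a basis of Omega -/
noncomputable def CsaA_co {κ : Type} (e : Module.Basis κ F Ω) : Ω ⊗[F] A ≃ₗ[F] κ →₀ A :=
  by classical exact TensorProduct.equivFinsuppOfBasisLeft e

theorem CsaA_co_symm {κ : Type} (e : Module.Basis κ F Ω) (b : κ →₀ A) :
    (CsaA_co e).symm b = b.sum fun k a => e k ⊗ₜ[F] a := by
  classical
  unfold CsaA_co
  rw [TensorProduct.equivFinsuppOfBasisLeft_symm_apply]

theorem CsaA_co_tmul {κ : Type} (e : Module.Basis κ F Ω) (x : Ω) (a : A) (k : κ) :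
    CsaA_co e (x ⊗ₜ a) k = e.repr x k • a := by
  classical
  unfold CsaA_co
  rw [TensorProduct.equivFinsuppOfBasisLeft_apply_tmul_apply]

theorem CsaA_co_mul_left {κ : Type} (e : Module.Basis κ F Ω) (a : A) (x : Ω ⊗[F] A) (k : κ) :
    CsaA_co e ((1 : Ω) ⊗ₜ[F] a * x) k = a * CsaA_co e x k := by
  induction x using TensorProduct.induction_on with
  | zero => simp
  | tmul w b =>
    rw [Algebra.TensorProduct.tmul_mul_tmul, one_mul, CsaA_co_tmul, CsaA_co_tmul, mul_smul_comm]
  | add x y hx hy =>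
    rw [mul_add, map_add, map_add, Finsupp.add_apply, Finsupp.add_apply, hx, hy, mul_add]

theorem CsaA_co_mul_right {κ : Type} (e : Module.Basis κ F Ω) (a : A) (x : Ω ⊗[F] A) (k : κ) :
    CsaA_co e (x * (1 : Ω) ⊗ₜ[F] a) k = CsaA_co e x k * a := by
  induction x using TensorProduct.induction_on with
  | zero => simp
  | tmul w b =>
    rw [Algebra.TensorProduct.tmul_mul_tmul, mul_one, CsaA_co_tmul, CsaA_co_tmul, smul_mul_assoc]
  | add x y hx hy =>
    rw [add_mul, map_add, map_add, Finsupp.add_apply, Finsupp.add_apply, hx, hy, add_mul]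

theorem CsaA_commute [Algebra.IsCentral F A] (x : Ω ⊗[F] A)
    (h : ∀ a : A, (1 : Ω) ⊗ₜ[F] a * x = x * (1 : Ω) ⊗ₜ[F] a) :
    ∃ w : Ω, x = w ⊗ₜ[F] (1 : A) := by
  classical
  let e := Module.Basis.ofVectorSpace F Ω
  have hc : ∀ k, ∃ f : F, CsaA_co e x k = algebraMap F A f := by
    intro k
    have : CsaA_co e x k ∈ Subalgebra.center F A := by
      rw [Subalgebra.mem_center_iff]
      intro a
      rw [← CsaA_co_mul_left, ← CsaA_co_mul_right, h]
    have h2 := Algebra.IsCentral.out (K := F) (D := A) this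
    rw [Algebra.mem_bot] at h2
    obtain ⟨f, hf⟩ := h2
    exact ⟨f, hf.symm⟩
  choose f hf using hc
  refine ⟨(CsaA_co e x).sum fun k _ => f k • e k, ?_⟩
  have h1 : x = (CsaA_co e).symm (CsaA_co e x) := ((CsaA_co e).symm_apply_apply x).symm
  conv_lhs => rw [h1]
  rw [CsaA_co_symm]
  rw [Finsupp.sum, Finsupp.sum, TensorProduct.sum_tmul]
  refine Finset.sum_congr rfl fun k _ => ?_
  rw [hf k, TensorProduct.smul_tmul, Algebra.smul_def, mul_one]

end

/-- tensoring with a field keeps central simple algebras central and simple -/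
theorem baseChange_simple {F Ω A : Type} [Field F] [Field Ω] [Algebra F Ω] [Ring A] [Algebra F A]
    [Algebra.IsCentral F A] [IsSimpleRing A] : IsSimpleRing (Ω ⊗[F] A) := by
  classical
  have : Nontrivial A := inferInstance
  have : Nontrivial (Ω ⊗[F] A) := inferInstance
  refine IsSimpleRing.of_eq_bot_or_eq_top fun I => ?_
  rw [or_iff_not_imp_left]
  intro hI
  obtain ⟨x₀, hx₀, hx₀0⟩ : ∃ x ∈ I, x ≠ 0 := by
    by_contra hcon
    push Not at hcon
    apply hI
    rw [eq_bot_iff]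
    intro x hx
    rw [TwoSidedIdeal.mem_bot]
    exact hcon x hx
  let e := Module.Basis.ofVectorSpace F Ω
  -- minimal support
  let S : Set ℕ := {n | ∃ x ∈ I, x ≠ 0 ∧ (CsaA_co e x).support.card = n}
  have hS : ∃ n, n ∈ S := ⟨_, x₀, hx₀, hx₀0, rfl⟩
  obtain ⟨x, hxI, hx0, hxn⟩ : Nat.find hS ∈ S := Nat.find_spec hS
  have hmin : ∀ y ∈ I, y ≠ 0 → (CsaA_co e x).support.card ≤ (CsaA_co e y).support.card := by
    intro y hy hy0
    rw [hxn]
    exact Nat.find_min' hS ⟨y, hy, hy0, rfl⟩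
  have hco : CsaA_co e x ≠ 0 := by
    intro h
    apply hx0
    exact (CsaA_co e).map_eq_zero_iff.1 h
  obtain ⟨k, hk⟩ := Finsupp.support_nonempty_iff.2 hco
  rw [Finsupp.mem_support_iff] at hk
  let J : TwoSidedIdeal A := TwoSidedIdeal.mk'
    {a | ∃ y ∈ I, (CsaA_co e y).support ⊆ (CsaA_co e x).support ∧ CsaA_co e y k = a}
    ⟨0, I.zero_mem, by simp, by simp⟩
    (by
      rintro a b ⟨y, hy, hys, rfl⟩ ⟨z, hz, hzs, rfl⟩
      refine ⟨y + z, I.add_mem hy hz, ?_, ?_⟩
      · rw [map_add]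
        exact Finsupp.support_add.trans (Finset.union_subset hys hzs)
      · rw [map_add, Finsupp.add_apply])
    (by
      rintro a ⟨y, hy, hys, rfl⟩
      refine ⟨-y, I.neg_mem hy, ?_, ?_⟩
      · rw [map_neg, Finsupp.support_neg]
        exact hys
      · rw [map_neg, Finsupp.neg_apply])
    (by
      rintro a b ⟨y, hy, hys, rfl⟩
      refine ⟨(1 : Ω) ⊗ₜ[F] a * y, I.mul_mem_left _ _ hy, ?_, CsaA_co_mul_left _ _ _ _⟩
      intro j hj
      apply hys
      rw [Finsupp.mem_support_iff] at hj ⊢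
      intro h0
      apply hj
      rw [CsaA_co_mul_left, h0, mul_zero])
    (by
      rintro a b ⟨y, hy, hys, rfl⟩
      refine ⟨y * (1 : Ω) ⊗ₜ[F] b, I.mul_mem_right _ _ hy, ?_, CsaA_co_mul_right _ _ _ _⟩
      intro j hj
      apply hys
      rw [Finsupp.mem_support_iff] at hj ⊢
      intro h0
      apply hj
      rw [CsaA_co_mul_right, h0, zero_mul])
  have hJ : (1 : A) ∈ J := by
    refine IsSimpleRing.one_mem_of_ne_zero_mem J hk ?_
    rw [TwoSidedIdeal.mem_mk']
    exact ⟨x, hxI, Finset.Subset.refl _, rfl⟩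
  rw [TwoSidedIdeal.mem_mk'] at hJ
  obtain ⟨y, hyI, hys, hy1⟩ := hJ
  have hy0 : y ≠ 0 := by
    rintro rfl
    rw [map_zero, Finsupp.zero_apply] at hy1
    exact one_ne_zero hy1.symm
  obtain ⟨w, hw⟩ := CsaA_commute y (fun a => by
    by_contra hne
    have hz : (1 : Ω) ⊗ₜ[F] a * y - y * (1 : Ω) ⊗ₜ[F] a ≠ 0 := sub_ne_zero.2 hne
    have hzI : (1 : Ω) ⊗ₜ[F] a * y - y * (1 : Ω) ⊗ₜ[F] a ∈ I :=
      I.sub_mem (I.mul_mem_left _ _ hyI) (I.mul_mem_right _ _ hyI)
    have h1 := hmin _ hzI hz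
    have h2 : (CsaA_co e ((1 : Ω) ⊗ₜ[F] a * y - y * (1 : Ω) ⊗ₜ[F] a)).support ⊂
        (CsaA_co e x).support := by
      rw [Finset.ssubset_iff_of_subset]
      · refine ⟨k, Finsupp.mem_support_iff.2 hk, ?_⟩
        rw [Finsupp.notMem_support_iff, map_sub, Finsupp.sub_apply, CsaA_co_mul_left,
          CsaA_co_mul_right, hy1, mul_one, one_mul, sub_self]
      · intro j hj
        apply hys
        rw [Finsupp.mem_support_iff] at hj ⊢
        intro h0
        apply hj
        rw [map_sub, Finsupp.sub_apply, CsaA_co_mul_left,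
          CsaA_co_mul_right, h0, mul_zero, zero_mul, sub_self]
    exact absurd (Finset.card_lt_card h2) (not_lt.2 h1))
  have hw0 : w ≠ 0 := by
    rintro rfl
    apply hy0
    rw [hw, TensorProduct.zero_tmul]
  rw [← TwoSidedIdeal.one_mem_iff]
  have := I.mul_mem_left (w⁻¹ ⊗ₜ[F] (1 : A)) _ hyI
  rw [hw, Algebra.TensorProduct.tmul_mul_tmul, inv_mul_cancel₀ hw0, one_mul] at this
  exact this

theorem baseChange_central {F Ω A : Type} [Field F] [Field Ω] [Algebra F Ω] [Ring A] [Algebra F A]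
    [Algebra.IsCentral F A] [IsSimpleRing A] : Algebra.IsCentral Ω (Ω ⊗[F] A) := by
  constructor
  intro x hx
  rw [Subalgebra.mem_center_iff] at hx
  obtain ⟨w, hw⟩ := CsaA_commute x (fun a => hx _)
  rw [Algebra.mem_bot]
  exact ⟨w, hw.symm⟩

/-- a finite-dimensional central division algebra over a separably closed field is the field -/
theorem CsaA_div {Ω D : Type} [Field Ω] [IsSepClosed Ω] [DivisionRing D] [Algebra Ω D]
    [Module.Finite Ω D] [Algebra.IsCentral Ω D] : Function.Bijective (algebraMap Ω D) := by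
  refine ⟨(algebraMap Ω D).injective, ?_⟩
  have hbt : (⊥ : Subalgebra Ω D) = ⊤ := by
    by_contra hne
    obtain ⟨x, hx, hsep⟩ := JacobsonNoether.exists_separable_and_not_isCentral' hne
    apply hx
    have hint : IsIntegral Ω x := Algebra.IsIntegral.isIntegral x
    have hdeg := IsSepClosed.degree_eq_one_of_irreducible Ω (minpoly.irreducible hint) hsep
    exact minpoly.mem_range_of_degree_eq_one Ω x hdeg
  intro d
  have : d ∈ (⊥ : Subalgebra Ω D) := by
    rw [hbt]
    exact Algebra.mem_top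
  exact Algebra.mem_bot.1 this

theorem exists_rep {F Ω A : Type} [Field F] [Field Ω] [Algebra F Ω] [IsSepClosed Ω] [Ring A]
    [Algebra F A] [Algebra.IsCentral F A] [IsSimpleRing A] [FiniteDimensional F A] :
    ∃ (m : ℕ) (ρ : A →ₐ[F] Matrix (Fin m) (Fin m) Ω), MatRep ρ := by
  have hs : IsSimpleRing (Ω ⊗[F] A) := baseChange_simple
  have hc : Algebra.IsCentral Ω (Ω ⊗[F] A) := baseChange_central
  have : IsArtinianRing (Ω ⊗[F] A) := IsArtinianRing.of_finite Ω _
  obtain ⟨n, hn, D, _, _, _, ⟨e⟩⟩ :=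
    IsSimpleRing.exists_algEquiv_matrix_divisionRing_finite Ω (Ω ⊗[F] A)
  have hcM : Algebra.IsCentral Ω (Matrix (Fin n) (Fin n) D) :=
    Algebra.IsCentral.of_algEquiv Ω _ _ e
  have hcD : Algebra.IsCentral Ω D := by
    constructor
    intro d hd
    rw [Subalgebra.mem_center_iff] at hd
    have h1 : Matrix.diagonal (fun _ : Fin n => d) ∈
        Subalgebra.center Ω (Matrix (Fin n) (Fin n) D) := by
      rw [Subalgebra.mem_center_iff]
      intro M
      ext i j
      rw [Matrix.mul_diagonal, Matrix.diagonal_mul, hd]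
    have h2 := Algebra.IsCentral.out (K := Ω) h1
    rw [Algebra.mem_bot] at h2
    obtain ⟨w, hw⟩ := h2
    rw [Algebra.mem_bot]
    refine ⟨w, ?_⟩
    have i0 : Fin n := ⟨0, Nat.pos_of_ne_zero hn.out⟩
    have h3 := congrFun (congrFun hw i0) i0
    rw [Matrix.diagonal_apply_eq, Matrix.algebraMap_matrix_apply, if_pos rfl] at h3
    exact h3
  have hbij : Function.Bijective (algebraMap Ω D) := CsaA_div
  let g : Ω ≃ₐ[Ω] D := AlgEquiv.ofBijective (Algebra.ofId Ω D) hbij
  let e' : Ω ⊗[F] A ≃ₐ[Ω] Matrix (Fin n) (Fin n) Ω := e.trans g.symm.mapMatrix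
  let ρ : A →ₐ[F] Matrix (Fin n) (Fin n) Ω :=
    (e'.toAlgHom.restrictScalars F).comp Algebra.TensorProduct.includeRight
  have hρ : ∀ a, ρ a = e' ((1 : Ω) ⊗ₜ[F] a) := fun a => rfl
  refine ⟨n, ρ, ?_, ?_, ?_⟩
  · rw [eq_top_iff]
    intro M _
    obtain ⟨x, rfl⟩ := e'.surjective M
    induction x using TensorProduct.induction_on with
    | zero =>
      rw [map_zero]
      exact Submodule.zero_mem _
    | tmul w a =>
      have : (w ⊗ₜ[F] a : Ω ⊗[F] A) = w • ((1 : Ω) ⊗ₜ[F] a) := by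
        rw [TensorProduct.smul_tmul', smul_eq_mul, mul_one]
      rw [this, map_smul, ← hρ]
      exact Submodule.smul_mem _ _ (Submodule.subset_span ⟨a, rfl⟩)
    | add x y hx hy =>
      rw [map_add]
      exact Submodule.add_mem _ (hx trivial) (hy trivial)
  · have h1 : Module.finrank Ω (Ω ⊗[F] A) = Module.finrank Ω (Matrix (Fin n) (Fin n) Ω) :=
      e'.toLinearEquiv.finrank_eq
    rw [Module.finrank_baseChange, Module.finrank_matrix, Module.finrank_self] at h1
    rw [h1]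
    ring
  · rw [Fintype.card_fin]
    exact Nat.pos_of_ne_zero hn.out

end W42
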