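import Pool.Agent.W_42fc02_h90.GalA

/-!
GalB: translation between level L cochains of Gal(Omega / F) and cochains of the finite group
Gal(L / F) with values in the units of L. Omega / F is Galois, L finite normal (so Galois).
Use AlgEquiv.restrictNormalHom_surjective, AlgEquiv.restrictNormal_commutes.
-/

set_option autoImplicit false

namespace W42

variable {F Ω : Type} [Field F] [Field Ω] [Algebra F Ω] [IsGalois F Ω]

omit [IsGalois F Ω] in
theorem GalB_res (L : IntermediateField F Ω) [Normal F L] (σ : Gal(Ω/F)) (z : L) :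
    ((AlgEquiv.restrictNormalHom L σ z : L) : Ω) = σ (z : Ω) :=
  AlgEquiv.restrictNormal_commutes σ L z

omit [IsGalois F Ω] in
theorem GalB_res_eq (L : IntermediateField F Ω) [Normal F L] {σ τ : Gal(Ω/F)}
    (h : ∀ z ∈ L, σ z = τ z) :
    AlgEquiv.restrictNormalHom L σ = AlgEquiv.restrictNormalHom L τ := by
  ext z
  rw [GalB_res, GalB_res]
  exact h z z.2

theorem GalB_surj (L : IntermediateField F Ω) [Normal F L] (g : Gal(L/F)) :
    ∃ σ : Gal(Ω/F), AlgEquiv.restrictNormalHom L σ = g :=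
  AlgEquiv.restrictNormalHom_surjective (F := F) (K₁ := L) Ω g

omit [IsGalois F Ω] in
theorem GalB_map_inj (L : IntermediateField F Ω) :
    Function.Injective (Units.map (algebraMap L Ω : L →* Ω)) :=
  Units.map_injective (algebraMap L Ω).injective

omit [IsGalois F Ω] in
theorem GalB_smul (L : IntermediateField F Ω) [Normal F L] (σ : Gal(Ω/F)) (u : Lˣ) :
    σ • Units.map (algebraMap L Ω : L →* Ω) u =
      Units.map (algebraMap L Ω : L →* Ω) (AlgEquiv.restrictNormalHom L σ • u) := by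
  apply Units.ext
  exact (GalB_res L σ u).symm

theorem lev2_infl (L : IntermediateField F Ω) [Normal F L] (c : Gal(L/F) → Gal(L/F) → Lˣ) :
    Lev2 L (infl L c) := by
  refine ⟨fun σ τ => ?_, fun σ σ' τ τ' h h' => ?_⟩
  · exact Subtype.property (c (AlgEquiv.restrictNormalHom L σ)
      (AlgEquiv.restrictNormalHom L τ) : L)
  · unfold infl
    rw [GalB_res_eq L h, GalB_res_eq L h']

theorem lev1_infl1 (L : IntermediateField F Ω) [Normal F L] (b : Gal(L/F) → Lˣ) :
    Lev1 L (infl1 L b) := by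
  refine ⟨fun σ => ?_, fun σ τ h => ?_⟩
  · exact Subtype.property (b (AlgEquiv.restrictNormalHom L σ) : L)
  · unfold infl1
    rw [GalB_res_eq L h]

theorem exists_infl (L : IntermediateField F Ω) [Normal F L]
    {c : Gal(Ω/F) → Gal(Ω/F) → Ωˣ} (hc : Lev2 L c) :
    ∃ c' : Gal(L/F) → Gal(L/F) → Lˣ, c = infl L c' := by
  choose lift hlift using GalB_surj L
  refine ⟨fun g h => Units.mk0 ⟨(c (lift g) (lift h) : Ω), hc.1 _ _⟩ (fun h0 =>
    (c (lift g) (lift h)).ne_zero (congrArg (fun w : L => (w : Ω)) h0)), ?_⟩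
  funext σ τ
  apply Units.ext
  have h1 : ∀ σ : Gal(Ω/F), ∀ z ∈ L, σ z = lift (AlgEquiv.restrictNormalHom L σ) z := by
    intro σ z hz
    rw [← GalB_res L σ ⟨z, hz⟩, ← GalB_res L (lift _) ⟨z, hz⟩, hlift]
  rw [hc.2 _ _ _ _ (h1 σ) (h1 τ)]
  rfl

theorem exists_infl1 (L : IntermediateField F Ω) [Normal F L]
    {b : Gal(Ω/F) → Ωˣ} (hb : Lev1 L b) : ∃ b' : Gal(L/F) → Lˣ, b = infl1 L b' := by
  choose lift hlift using GalB_surj L
  refine ⟨fun g => Units.mk0 ⟨(b (lift g) : Ω), hb.1 _⟩ (fun h0 =>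
    (b (lift g)).ne_zero (congrArg (fun w : L => (w : Ω)) h0)), ?_⟩
  funext σ
  apply Units.ext
  have h1 : ∀ σ : Gal(Ω/F), ∀ z ∈ L, σ z = lift (AlgEquiv.restrictNormalHom L σ) z := by
    intro σ z hz
    rw [← GalB_res L σ ⟨z, hz⟩, ← GalB_res L (lift _) ⟨z, hz⟩, hlift]
  rw [hb.2 _ _ (h1 σ)]
  rfl

theorem dB_infl1 (L : IntermediateField F Ω) [Normal F L] (b : Gal(L/F) → Lˣ) :
    (dB (infl1 L b)) = infl L (dB b) := by
  funext σ τ
  simp only [dB, infl, infl1]
  rw [GalB_smul, map_div, map_mul, map_mul]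

theorem isC2_infl (L : IntermediateField F Ω) [Normal F L] (c : Gal(L/F) → Gal(L/F) → Lˣ) :
    IsC2 (infl L c) ↔ IsC2 c := by
  constructor
  · intro h g g' g''
    obtain ⟨σ, rfl⟩ := GalB_surj L g
    obtain ⟨τ, rfl⟩ := GalB_surj L g'
    obtain ⟨υ, rfl⟩ := GalB_surj L g''
    have := h σ τ υ
    simp only [infl] at this
    rw [GalB_smul, ← map_mul, ← map_mul] at this
    have h2 := GalB_map_inj L this
    rw [map_mul, map_mul] at h2
    exact h2
  · intro h σ τ υ
    simp only [infl]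
    have h1 := congrArg (Units.map (algebraMap L Ω : L →* Ω)) (h
      (AlgEquiv.restrictNormalHom L σ) (AlgEquiv.restrictNormalHom L τ)
      (AlgEquiv.restrictNormalHom L υ))
    rw [map_mul, map_mul] at h1
    have e1 : AlgEquiv.restrictNormalHom L (σ * τ) = _ := map_mul _ σ τ
    have e2 : AlgEquiv.restrictNormalHom L (τ * υ) = _ := map_mul _ τ υ
    rw [GalB_smul, e1, e2]
    exact h1

/-- the image of the fixing subgroup of E in Gal(L / F). -/
noncomputable def imSub (L E : IntermediateField F Ω) [Normal F L] : Subgroup Gal(L/F) :=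
  Subgroup.map (AlgEquiv.restrictNormalHom L) E.fixingSubgroup

/-- for E ≤ L the image is the fixing subgroup of E: g in imSub iff g fixes the elements of E. -/
theorem mem_imSub (L E : IntermediateField F Ω) [FiniteDimensional F L] [Normal F L] (h : E ≤ L)
    (g : Gal(L/F)) : g ∈ imSub L E ↔ ∀ z : L, (z : Ω) ∈ E → g z = z := by
  constructor
  · rintro ⟨σ, hσ, rfl⟩ z hz
    apply Subtype.ext
    rw [GalB_res]
    have hσ' : σ ∈ E.fixingSubgroup := hσ
    rw [IntermediateField.mem_fixingSubgroup_iff] at hσ'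
    exact hσ' z hz
  · intro hg
    obtain ⟨σ, rfl⟩ := GalB_surj L g
    refine ⟨σ, ?_, rfl⟩
    change σ ∈ E.fixingSubgroup
    rw [IntermediateField.mem_fixingSubgroup_iff]
    intro z hz
    have h1 := hg ⟨z, h hz⟩ hz
    have h2 := congrArg (fun w : L => (w : Ω)) h1
    change ((AlgEquiv.restrictNormalHom L σ ⟨z, h hz⟩ : L) : Ω) = z at h2
    rwa [GalB_res] at h2

/-- Spl from finite level. -/
theorem spl_of_infl (L E : IntermediateField F Ω) [FiniteDimensional F L] [Normal F L]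
    (c : Gal(L/F) → Gal(L/F) → Lˣ) (b : Gal(L/F) → Lˣ)
    (h : ∀ g ∈ imSub L E, ∀ g' ∈ imSub L E, c g g' = dB b g g') : Spl E (infl L c) := by
  refine ⟨infl1 L b, ⟨L, inferInstance, inferInstance, lev1_infl1 L b⟩, fun σ hσ τ hτ => ?_⟩
  rw [dB_infl1]
  unfold infl
  rw [h _ ⟨σ, hσ, rfl⟩ _ ⟨τ, hτ, rfl⟩]

/-- Spl to finite level: a common level for c and for the splitting cochain. -/
theorem Spl.exists_level {E : IntermediateField F Ω} {c : Gal(Ω/F) → Gal(Ω/F) → Ωˣ}
    (hc : Fin2 c) (h : Spl E c) (M : IntermediateField F Ω) [FiniteDimensional F M] [Normal F M] :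
    ∃ (L : IntermediateField F Ω) (_ : FiniteDimensional F L) (_ : Normal F L), M ≤ L ∧
      ∃ (c' : Gal(L/F) → Gal(L/F) → Lˣ) (b : Gal(L/F) → Lˣ), c = infl L c' ∧
        ∀ g ∈ imSub L E, ∀ g' ∈ imSub L E, c' g g' = dB b g g' := by
  obtain ⟨L₁, hf₁, hn₁, hL₁⟩ := hc
  obtain ⟨b, ⟨L₂, hf₂, hn₂, hL₂⟩, hb⟩ := h
  obtain ⟨L₃, hf₃, hn₃, h₁₃, h₂₃⟩ := exists_normal_sup L₁ L₂
  obtain ⟨L, hf, hn, h₃, hM⟩ := exists_normal_sup L₃ M
  obtain ⟨c', rfl⟩ := exists_infl L (hL₁.mono (h₁₃.trans h₃))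
  obtain ⟨b', rfl⟩ := exists_infl1 L (hL₂.mono (h₂₃.trans h₃))
  refine ⟨L, hf, hn, hM, c', b', rfl, ?_⟩
  rintro _ ⟨σ, hσ, rfl⟩ _ ⟨τ, hτ, rfl⟩
  have h1 := hb σ hσ τ hτ
  rw [dB_infl1] at h1
  exact GalB_map_inj L h1

/-- Hilbert 90 for subgroups of Gal(L / F), in the form H1z. -/
theorem h1z_units (L : IntermediateField F Ω) [FiniteDimensional F L] [Normal F L]
    (N : Subgroup Gal(L/F)) (f : Gal(L/F) → Lˣ)
    (hf : ∀ n ∈ N, ∀ m ∈ N, f (n * m) = f n * (n • f m)) :
    ∃ z : Lˣ, ∀ n ∈ N, f n = (n • z) / z := by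
  set K : IntermediateField F L := IntermediateField.fixedField N with hK
  have hfix : K.fixingSubgroup = N := IntermediateField.fixingSubgroup_fixedField N
  let ρ : Gal(L/K) →* Gal(L/F) :=
    K.fixingSubgroup.subtype.comp (IntermediateField.fixingSubgroupEquiv K).symm.toMonoidHom
  have hρN : ∀ g, ρ g ∈ N := fun g => hfix ▸ ((IntermediateField.fixingSubgroupEquiv K).symm g).2
  obtain ⟨z, hz⟩ := groupCohomology.isMulCoboundary₁_of_isMulCocycle₁_of_aut_to_units
    (fun g : Gal(L/K) => f (ρ g)) (by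
      intro g h
      change f (ρ (g * h)) = g • f (ρ h) * f (ρ g)
      rw [map_mul, hf _ (hρN g) _ (hρN h), mul_comm]
      rfl)
  refine ⟨z, fun n hn => ?_⟩
  have hn' : n ∈ K.fixingSubgroup := hfix ▸ hn
  have h1 := hz (IntermediateField.fixingSubgroupEquiv K ⟨n, hn'⟩)
  have h2 : ρ (IntermediateField.fixingSubgroupEquiv K ⟨n, hn'⟩) = n := rfl
  beta_reduce at h1
  rw [h2] at h1
  rw [← h1]
  rfl

end W42
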