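import Pool.Agent.W_42fc02_h90.CsaA
import Pool.Agent.W_42fc02_h90.GalB

/-!
CsaB: the Brauer cocycle of a matrix representation. For sigma in Gal(Omega/F) sigma o rho is again a
representation (MatRep), so skolem gives P_sigma with P_sigma sigma(rho a) = rho a P_sigma.
exists_repCoc: choose P by a choice function of sigma o rho (so P_sigma depends only on sigma on the
finitely many entries of rho of a basis of A; L a finite normal extension with these entries and the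
entries of the finitely many P_sigma). P_sigma sigma(P_tau) P_(sigma tau)^-1 commutes with rho(A): scalar
(commute_scalar). bc: associativity.

hilbert90: H a subgroup of Gal(Omega/F), P : H -> GL(Omega) a 1-cocycle of finite level. Let G = image of
H in Gal(L/F) (finite). For x in L^iota put b(x) = sum over g in G of P_g g(x). The b(x) span L^iota:
if a row vector u kills all b(x), then for lam in L sum_g g(lam) u P_g g(x) = 0, so u P_g g(x) = 0 for all x
(linear independence of the automorphisms g), u = 0. Choose x_1..x_m with b(x_i) a basis: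
B = (b(x_1) .. b(x_m)), P_g g(B) = B. Q = B^-1.
-/

namespace W42

section
variable {F Ω A ι : Type} [Field F] [Field Ω] [Algebra F Ω] [Ring A] [Algebra F A]
  [Fintype ι] [DecidableEq ι]

structure RepCoc (ρ : A →ₐ[F] Matrix ι ι Ω) (P : Gal(Ω/F) → (Matrix ι ι Ω)ˣ)
    (c : Gal(Ω/F) → Gal(Ω/F) → Ωˣ) : Prop where
  rel : ∀ σ a, (P σ : Matrix ι ι Ω) * (ρ a).map σ = ρ a * (P σ : Matrix ι ι Ω)
  coc : ∀ σ τ, (P σ : Matrix ι ι Ω) * (P τ : Matrix ι ι Ω).map σ =
    (c σ τ : Ω) • (P (σ * τ) : Matrix ι ι Ω)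
  lev : ∃ L : IntermediateField F Ω, FiniteDimensional F L ∧ Normal F L ∧
    (∀ σ i j, (P σ : Matrix ι ι Ω) i j ∈ L) ∧
    ∀ σ τ : Gal(Ω/F), (∀ z ∈ L, σ z = τ z) → P σ = P τ

/-- the conjugate representation -/
def CsaB_conj (σ : Gal(Ω/F)) (ρ : A →ₐ[F] Matrix ι ι Ω) : A →ₐ[F] Matrix ι ι Ω :=
  (AlgHom.mapMatrix (σ : Ω →ₐ[F] Ω)).comp ρ

theorem CsaB_conj_apply (σ : Gal(Ω/F)) (ρ : A →ₐ[F] Matrix ι ι Ω) (a : A) :
    CsaB_conj σ ρ a = (ρ a).map σ := rfl

theorem CsaB_map_mul (σ : Gal(Ω/F)) (M N : Matrix ι ι Ω) :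
    (M * N).map σ = M.map σ * N.map σ :=
  map_mul (AlgHom.mapMatrix (σ : Ω →ₐ[F] Ω)) M N

theorem CsaB_map_add (σ : Gal(Ω/F)) (M N : Matrix ι ι Ω) :
    (M + N).map σ = M.map σ + N.map σ :=
  map_add (AlgHom.mapMatrix (σ : Ω →ₐ[F] Ω)) M N

theorem CsaB_map_one (σ : Gal(Ω/F)) :
    (1 : Matrix ι ι Ω).map σ = 1 :=
  map_one (AlgHom.mapMatrix (σ : Ω →ₐ[F] Ω))

omit [Fintype ι] [DecidableEq ι] in
theorem CsaB_map_smul (σ : Gal(Ω/F)) (x : Ω) (M : Matrix ι ι Ω) :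
    (x • M).map σ = σ x • M.map σ := by
  ext i j
  simp [Matrix.map_apply, Matrix.smul_apply]

omit [Fintype ι] [DecidableEq ι] in
theorem CsaB_map_map (σ τ : Gal(Ω/F)) (M : Matrix ι ι Ω) :
    (M.map τ).map σ = M.map (σ * τ) := by
  ext i j
  rfl

theorem CsaB_conj_rep (σ : Gal(Ω/F)) {ρ : A →ₐ[F] Matrix ι ι Ω} (hρ : MatRep ρ) :
    MatRep (CsaB_conj σ ρ) := by
  refine ⟨?_, hρ.dim, hρ.pos⟩
  rw [eq_top_iff]
  intro M _
  have key : ∀ N ∈ Submodule.span Ω (Set.range ρ),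
      N.map σ ∈ Submodule.span Ω (Set.range (CsaB_conj σ ρ)) := by
    intro N hN
    induction hN using Submodule.span_induction with
    | mem x hx =>
      obtain ⟨a, rfl⟩ := hx
      exact Submodule.subset_span ⟨a, rfl⟩
    | zero =>
      have : (0 : Matrix ι ι Ω).map σ = 0 := map_zero (AlgHom.mapMatrix (σ : Ω →ₐ[F] Ω))
      rw [this]
      exact Submodule.zero_mem _
    | add x y _ _ hx hy =>
      rw [CsaB_map_add]
      exact Submodule.add_mem _ hx hy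
    | smul a x _ hx =>
      rw [CsaB_map_smul]
      exact Submodule.smul_mem _ _ hx
  have h1 : M.map (σ⁻¹ : Gal(Ω/F)) ∈ Submodule.span Ω (Set.range ρ) := by
    rw [hρ.span]
    exact Submodule.mem_top
  have h2 := key _ h1
  rw [CsaB_map_map σ σ⁻¹, mul_inv_cancel] at h2
  have h3 : M.map (1 : Gal(Ω/F)) = M := by
    ext i j
    rfl
  rwa [h3] at h2

/-- a choice of an intertwining matrix -/
noncomputable def CsaB_pick {ρ : A →ₐ[F] Matrix ι ι Ω} (hρ : MatRep ρ)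
    (ρ' : A →ₐ[F] Matrix ι ι Ω) : (Matrix ι ι Ω)ˣ :=
  open Classical in
  if h : MatRep ρ' then Classical.choose (skolem h hρ) else 1

theorem CsaB_pick_spec {ρ : A →ₐ[F] Matrix ι ι Ω} (hρ : MatRep ρ)
    {ρ' : A →ₐ[F] Matrix ι ι Ω} (h : MatRep ρ') (a : A) :
    (CsaB_pick hρ ρ' : Matrix ι ι Ω) * ρ' a = ρ a * (CsaB_pick hρ ρ' : Matrix ι ι Ω) := by
  have h1 : CsaB_pick hρ ρ' = Classical.choose (skolem h hρ) := by
    unfold CsaB_pick
    rw [dif_pos h]
  have h2 := Classical.choose_spec (skolem h hρ) a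
  rw [h1, h2, mul_assoc, mul_assoc, Units.inv_mul, mul_one]

/-- an invertible matrix over a nonempty index type has a nonzero entry -/
theorem CsaB_entry [Nonempty ι] (U : (Matrix ι ι Ω)ˣ) : ∃ i j, (U : Matrix ι ι Ω) i j ≠ 0 := by
  by_contra hcon
  push Not at hcon
  have : (U : Matrix ι ι Ω) = 0 := by
    ext i j
    exact hcon i j
  exact U.ne_zero this

theorem CsaB_level [IsGalois F Ω] {ρ : A →ₐ[F] Matrix ι ι Ω} (hρ : MatRep ρ)
    (P : Gal(Ω/F) → (Matrix ι ι Ω)ˣ)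
    (hP : ∀ σ τ : Gal(Ω/F), CsaB_conj σ ρ = CsaB_conj τ ρ → P σ = P τ) :
    ∃ L : IntermediateField F Ω, FiniteDimensional F L ∧ Normal F L ∧
    (∀ σ i j, (P σ : Matrix ι ι Ω) i j ∈ L) ∧
    ∀ σ τ : Gal(Ω/F), (∀ z ∈ L, σ z = τ z) → P σ = P τ := by
  classical
  have hpos : 0 < Module.finrank F A := by
    rw [hρ.dim]
    exact pow_pos hρ.pos 2
  have : FiniteDimensional F A := Module.finite_of_finrank_pos hpos
  let e := Module.finBasis F A
  obtain ⟨L₀, hf₀, hn₀, hL₀⟩ := exists_normal_mem (F := F) (Ω := Ω)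
    (Finset.univ.image fun p : Fin (Module.finrank F A) × ι × ι => ρ (e p.1) p.2.1 p.2.2)
  have hent : ∀ k i j, ρ (e k) i j ∈ L₀ := fun k i j =>
    hL₀ _ (Finset.mem_image.2 ⟨(k, i, j), Finset.mem_univ _, rfl⟩)
  have hlev : ∀ σ τ : Gal(Ω/F), (∀ z ∈ L₀, σ z = τ z) → P σ = P τ := by
    intro σ τ h
    apply hP
    have : (CsaB_conj σ ρ).toLinearMap = (CsaB_conj τ ρ).toLinearMap := by
      apply e.ext
      intro k
      change CsaB_conj σ ρ (e k) = CsaB_conj τ ρ (e k)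
      rw [CsaB_conj_apply, CsaB_conj_apply]
      ext i j
      exact h _ (hent k i j)
    exact AlgHom.toLinearMap_injective this
  have : Fintype Gal(L₀/F) := Fintype.ofFinite _
  choose lift hlift using GalB_surj L₀
  obtain ⟨L₁, hf₁, hn₁, hL₁⟩ := exists_normal_mem (F := F) (Ω := Ω)
    (Finset.univ.image fun p : Gal(L₀/F) × ι × ι => (P (lift p.1) : Matrix ι ι Ω) p.2.1 p.2.2)
  obtain ⟨L, hf, hn, h0, h1⟩ := exists_normal_sup L₀ L₁
  refine ⟨L, hf, hn, ?_, ?_⟩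
  · intro σ i j
    apply h1
    have h2 : P σ = P (lift (AlgEquiv.restrictNormalHom L₀ σ)) := by
      apply hlev
      intro z hz
      have h3 := GalB_res L₀ σ ⟨z, hz⟩
      have h4 := GalB_res L₀ (lift (AlgEquiv.restrictNormalHom L₀ σ)) ⟨z, hz⟩
      rw [hlift] at h4
      rw [h3] at h4
      exact h4
    rw [h2]
    exact hL₁ _ (Finset.mem_image.2 ⟨(_, i, j), Finset.mem_univ _, rfl⟩)
  · intro σ τ h
    exact hlev σ τ fun z hz => h z (h0 hz)

theorem exists_repCoc [IsGalois F Ω] {ρ : A →ₐ[F] Matrix ι ι Ω} (hρ : MatRep ρ) :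
    ∃ P c, RepCoc ρ P c := by
  have hne : Nonempty ι := Fintype.card_pos_iff.1 hρ.pos
  let P : Gal(Ω/F) → (Matrix ι ι Ω)ˣ := fun σ => CsaB_pick hρ (CsaB_conj σ ρ)
  have hrel : ∀ σ a, (P σ : Matrix ι ι Ω) * (ρ a).map σ = ρ a * (P σ : Matrix ι ι Ω) :=
    fun σ a => CsaB_pick_spec hρ (CsaB_conj_rep σ hρ) a
  have hsc : ∀ σ τ : Gal(Ω/F), ∃ x : Ωˣ, (P σ : Matrix ι ι Ω) * (P τ : Matrix ι ι Ω).map σ =
    (x : Ω) • (P (σ * τ) : Matrix ι ι Ω) := by
    intro σ τ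
    have hcomm : ∀ a, (P σ : Matrix ι ι Ω) * (P τ : Matrix ι ι Ω).map σ *
        ((P (σ * τ))⁻¹ : (Matrix ι ι Ω)ˣ) * ρ a = ρ a *
        ((P σ : Matrix ι ι Ω) * (P τ : Matrix ι ι Ω).map σ *
        ((P (σ * τ))⁻¹ : (Matrix ι ι Ω)ˣ)) := by
      intro a
      have h1 : ((P (σ * τ))⁻¹ : (Matrix ι ι Ω)ˣ) * ρ a =
          (ρ a).map (σ * τ) * ((P (σ * τ))⁻¹ : (Matrix ι ι Ω)ˣ) := by
        rw [Units.inv_mul_eq_iff_eq_mul, ← mul_assoc, hrel, mul_assoc, Units.mul_inv, mul_one]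
      rw [mul_assoc, h1, ← mul_assoc, ← mul_assoc, ← mul_assoc, ← hrel σ a]
      congr 1
      rw [mul_assoc, mul_assoc]
      congr 1
      rw [← CsaB_map_map, ← CsaB_map_mul, ← CsaB_map_mul, hrel τ a]
    obtain ⟨x, hx⟩ := commute_scalar hρ _ hcomm
    have h2 : (P σ : Matrix ι ι Ω) * (P τ : Matrix ι ι Ω).map σ =
        x • (P (σ * τ) : Matrix ι ι Ω) := by
      have h3 := congrArg (fun M => M * (P (σ * τ) : Matrix ι ι Ω)) hx
      beta_reduce at h3
      rw [mul_assoc _ _ (P (σ * τ) : Matrix ι ι Ω), Units.inv_mul, mul_one, smul_mul_assoc,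
        one_mul] at h3
      exact h3
    have hx0 : x ≠ 0 := by
      rintro rfl
      rw [zero_smul] at h2
      have h4 : (P σ : Matrix ι ι Ω) * (P τ : Matrix ι ι Ω).map σ *
          ((P τ)⁻¹ : (Matrix ι ι Ω)ˣ).val.map σ * ((P σ)⁻¹ : (Matrix ι ι Ω)ˣ) = 1 := by
        rw [mul_assoc (P σ : Matrix ι ι Ω), ← CsaB_map_mul, Units.mul_inv, CsaB_map_one, mul_one,
          Units.mul_inv]
      rw [h2, zero_mul, zero_mul] at h4
      exact zero_ne_one h4
    exact ⟨Units.mk0 x hx0, h2⟩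
  choose c hc using hsc
  refine ⟨P, c, hrel, hc, CsaB_level hρ P ?_⟩
  intro σ τ h
  change CsaB_pick hρ (CsaB_conj σ ρ) = CsaB_pick hρ (CsaB_conj τ ρ)
  rw [h]

theorem RepCoc.bc [IsGalois F Ω] {ρ : A →ₐ[F] Matrix ι ι Ω} (hρ : MatRep ρ)
    {P : Gal(Ω/F) → (Matrix ι ι Ω)ˣ} {c : Gal(Ω/F) → Gal(Ω/F) → Ωˣ} (h : RepCoc ρ P c) :
    BC c := by
  have hne : Nonempty ι := Fintype.card_pos_iff.1 hρ.pos
  have hcancel : ∀ (σ : Gal(Ω/F)) (x y : Ω),
      x • (P σ : Matrix ι ι Ω) = y • (P σ : Matrix ι ι Ω) → x = y := by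
    intro σ x y hxy
    obtain ⟨i, j, hij⟩ := CsaB_entry (P σ)
    have := congrFun (congrFun hxy i) j
    rw [Matrix.smul_apply, Matrix.smul_apply, smul_eq_mul, smul_eq_mul] at this
    exact mul_right_cancel₀ hij this
  refine ⟨?_, ?_⟩
  · intro σ τ υ
    apply Units.ext
    apply hcancel (σ * τ * υ)
    rw [Units.val_mul, Units.val_mul]
    have h1 : (P σ : Matrix ι ι Ω) * (P τ : Matrix ι ι Ω).map σ *
        (P υ : Matrix ι ι Ω).map (σ * τ) =
        ((c σ τ : Ω) * (c (σ * τ) υ : Ω)) • (P (σ * τ * υ) : Matrix ι ι Ω) := by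
      rw [h.coc σ τ, smul_mul_assoc, h.coc (σ * τ) υ, smul_smul]
    have h2 : (P σ : Matrix ι ι Ω) * (P τ : Matrix ι ι Ω).map σ *
        (P υ : Matrix ι ι Ω).map (σ * τ) =
        (((σ • c τ υ : Ωˣ) : Ω) * (c σ (τ * υ) : Ω)) • (P (σ * τ * υ) : Matrix ι ι Ω) := by
      rw [mul_assoc, ← CsaB_map_map, ← CsaB_map_mul, h.coc τ υ, CsaB_map_smul, mul_smul_comm,
        h.coc σ (τ * υ), smul_smul, mul_assoc σ τ υ]
      rfl
    rw [← h1, h2]
  · obtain ⟨L, hf, hn, hent, hlev⟩ := h.lev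
    refine ⟨L, hf, hn, ?_, ?_⟩
    · intro σ τ
      obtain ⟨i, j, hij⟩ := CsaB_entry (P (σ * τ))
      have h1 := congrFun (congrFun (h.coc σ τ) i) j
      rw [Matrix.smul_apply, smul_eq_mul] at h1
      have h2 : ((P σ : Matrix ι ι Ω) * (P τ : Matrix ι ι Ω).map σ) i j ∈ L := by
        rw [Matrix.mul_apply]
        refine sum_mem fun k _ => mul_mem (hent _ _ _) ?_
        exact GalA_mem σ (hent _ _ _)
      have h3 : (c σ τ : Ω) = ((P σ : Matrix ι ι Ω) * (P τ : Matrix ι ι Ω).map σ) i j /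
          (P (σ * τ) : Matrix ι ι Ω) i j := by
        rw [h1, mul_div_assoc, div_self hij, mul_one]
      rw [h3]
      exact div_mem h2 (hent _ _ _)
    · intro σ σ' τ τ' h1 h2
      apply Units.ext
      apply hcancel (σ * τ)
      have h3 : P (σ * τ) = P (σ' * τ') := by
        apply hlev
        intro z hz
        change σ (τ z) = σ' (τ' z)
        rw [h2 z hz]
        exact h1 _ (GalA_mem τ' hz)
      rw [← h.coc σ τ, h3, ← h.coc σ' τ', hlev σ σ' h1, hlev τ τ' h2]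
      congr 1
      ext i j
      exact h1 _ (hent _ _ _)

/-- the averaged vector -/
noncomputable def CsaB_b {F L ι : Type} [Field F] [Field L] [Algebra F L] [Fintype ι]
    (G : Subgroup Gal(L/F)) [Fintype G] (P : G → Matrix ι ι L) (x : ι → L) : ι → L :=
  ∑ g : G, (P g).mulVec fun i => (g : Gal(L/F)) (x i)

theorem CsaB_span {F L ι : Type} [Field F] [Field L] [Algebra F L] [Fintype ι] [DecidableEq ι]
    (G : Subgroup Gal(L/F)) [Fintype G] (P : G → Matrix ι ι L) (h1 : P 1 = 1) :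
    Submodule.span L (Set.range (CsaB_b G P)) = ⊤ := by
  by_contra hne
  obtain ⟨f, hf0, hf⟩ := Submodule.exists_le_ker_of_lt_top _ (lt_top_iff_ne_top.2 hne)
  apply hf0
  have hfb : ∀ x, f (CsaB_b G P x) = 0 := fun x => hf (Submodule.subset_span ⟨x, rfl⟩)
  have hli : LinearIndependent L (fun g : G => ((g : Gal(L/F)) : L → L)) := by
    have := (linearIndependent_monoidHom L L).comp
      (fun g : G => (((g : Gal(L/F)) : L →+* L) : L →* L)) (by
        intro g h hgh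
        apply Subtype.ext
        apply AlgEquiv.ext
        intro z
        exact DFunLike.congr_fun hgh z)
    exact this
  have hkey : ∀ (x : ι → L) (g : G), f ((P g).mulVec fun i => (g : Gal(L/F)) (x i)) = 0 := by
    intro x
    have := Fintype.linearIndependent_iff.1 hli
      (fun g => f ((P g).mulVec fun i => (g : Gal(L/F)) (x i))) (by
        funext l
        rw [Finset.sum_apply, Pi.zero_apply, ← hfb (fun i => l * x i)]
        unfold CsaB_b
        rw [map_sum]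
        refine Finset.sum_congr rfl fun g _ => ?_
        have h2 : (fun i => (g : Gal(L/F)) (l * x i)) =
            (g : Gal(L/F)) l • fun i => (g : Gal(L/F)) (x i) := by
          funext i
          rw [map_mul]
          rfl
        rw [h2, Matrix.mulVec_smul, map_smul, Pi.smul_apply, smul_eq_mul, smul_eq_mul, mul_comm])
    exact this
  apply LinearMap.ext
  intro x
  have := hkey x 1
  rw [h1, Matrix.one_mulVec] at this
  exact this

theorem CsaB_b_eq {F L ι : Type} [Field F] [Field L] [Algebra F L] [Fintype ι] [DecidableEq ι]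
    (G : Subgroup Gal(L/F)) [Fintype G] (P : G → Matrix ι ι L)
    (hP : ∀ g h : G, P (g * h) = P g * (P h).map (g : Gal(L/F))) (g : G) (x : ι → L) :
    (P g).mulVec (fun i => (g : Gal(L/F)) (CsaB_b G P x i)) = CsaB_b G P x := by
  have h1 : (fun i => (g : Gal(L/F)) (CsaB_b G P x i)) =
      ∑ h : G, ((P h).map (g : Gal(L/F))).mulVec
        fun i => ((g * h : G) : Gal(L/F)) (x i) := by
    funext i
    unfold CsaB_b
    rw [Finset.sum_apply, map_sum, Finset.sum_apply]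
    refine Finset.sum_congr rfl fun h _ => ?_
    rw [Matrix.mulVec, Matrix.mulVec, dotProduct, dotProduct, map_sum]
    refine Finset.sum_congr rfl fun j _ => ?_
    rw [map_mul]
    rfl
  rw [h1, Matrix.mulVec_sum]
  unfold CsaB_b
  have h4 : ∑ h : G, (P (g * h)).mulVec (fun i => ((g * h : G) : Gal(L/F)) (x i)) =
      ∑ g' : G, (P g').mulVec fun i => (g' : Gal(L/F)) (x i) :=
    Fintype.sum_equiv (Equiv.mulLeft g) _ _ (fun h => rfl)
  rw [← h4]
  refine Finset.sum_congr rfl fun h _ => ?_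
  rw [Matrix.mulVec_mulVec, ← hP]

/-- Hilbert 90 for a finite group -/
theorem CsaB_h90 {F L ι : Type} [Field F] [Field L] [Algebra F L] [Fintype ι] [DecidableEq ι]
    (G : Subgroup Gal(L/F)) [Fintype G] (P : G → Matrix ι ι L) (h1 : P 1 = 1)
    (hP : ∀ g h : G, P (g * h) = P g * (P h).map (g : Gal(L/F))) :
    ∃ B : (Matrix ι ι L)ˣ, ∀ g : G,
      P g * (B : Matrix ι ι L).map (g : Gal(L/F)) = (B : Matrix ι ι L) := by
  have hs := CsaB_span G P h1
  let b := Module.Basis.ofSpan hs.ge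
  have hcard : Nonempty (ι ≃ (linearIndepOn_empty L id).extend
      (Set.empty_subset (Set.range (CsaB_b G P)))) := by
    have h2 := (Pi.basisFun L ι).indexEquiv b
    exact ⟨h2⟩
  obtain ⟨e⟩ := hcard
  let b' : Module.Basis ι L (ι → L) := b.reindex e.symm
  have hb' : ∀ i, ∃ x, CsaB_b G P x = b' i := by
    intro i
    have h2 : b' i = b (e i) := by
      rw [Module.Basis.reindex_apply, Equiv.symm_symm]
    rw [h2]
    exact Module.Basis.ofSpan_subset hs.ge ⟨_, rfl⟩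
  choose x hx using hb'
  let M : Matrix ι ι L := (Pi.basisFun L ι).toMatrix b'
  have hMe : ∀ i j, M i j = b' j i := fun i j => rfl
  have hinv : IsUnit M := by
    have := (Pi.basisFun L ι).invertibleToMatrix b'
    exact isUnit_of_invertible M
  obtain ⟨B, hB⟩ := hinv
  refine ⟨B, fun g => ?_⟩
  rw [hB]
  ext i j
  have h3 := congrFun (CsaB_b_eq G P hP g (x j)) i
  rw [hMe, ← hx j, ← h3, Matrix.mul_apply, Matrix.mulVec, dotProduct]
  refine Finset.sum_congr rfl fun k _ => ?_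
  rw [Matrix.map_apply, hMe, hx j]

theorem hilbert90 [IsGalois F Ω] (H : Subgroup Gal(Ω/F)) (P : Gal(Ω/F) → (Matrix ι ι Ω)ˣ)
    (hP : ∀ σ ∈ H, ∀ τ ∈ H,
      (P (σ * τ) : Matrix ι ι Ω) = (P σ : Matrix ι ι Ω) * (P τ : Matrix ι ι Ω).map σ)
    (hlev : ∃ L : IntermediateField F Ω, FiniteDimensional F L ∧ Normal F L ∧
      (∀ σ i j, (P σ : Matrix ι ι Ω) i j ∈ L) ∧
      ∀ σ τ : Gal(Ω/F), (∀ z ∈ L, σ z = τ z) → P σ = P τ) :
    ∃ Q : (Matrix ι ι Ω)ˣ, ∀ σ ∈ H,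
      (Q : Matrix ι ι Ω) * (P σ : Matrix ι ι Ω) = (Q : Matrix ι ι Ω).map σ := by
  classical
  obtain ⟨L, hf, hn, hent, hl⟩ := hlev
  let G : Subgroup Gal(L/F) := H.map (AlgEquiv.restrictNormalHom L)
  have hG : ∀ g : G, ∃ σ ∈ H, AlgEquiv.restrictNormalHom L σ = (g : Gal(L/F)) := fun g => g.2
  choose s hsH hs using hG
  have : Fintype G := Fintype.ofFinite _
  let P' : G → Matrix ι ι L := fun g => Matrix.of fun i j => ⟨(P (s g) : Matrix ι ι Ω) i j, hent _ _ _⟩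
  have hP's : ∀ (σ : Gal(Ω/F)) (hσ : σ ∈ H) (i j : ι),
      ((P' ⟨AlgEquiv.restrictNormalHom L σ, ⟨σ, hσ, rfl⟩⟩ i j : L) : Ω) =
        (P σ : Matrix ι ι Ω) i j := by
    intro σ hσ i j
    change (P (s ⟨AlgEquiv.restrictNormalHom L σ, ⟨σ, hσ, rfl⟩⟩) : Matrix ι ι Ω) i j = _
    rw [hl _ σ]
    intro z hz
    have h3 := GalB_res L σ ⟨z, hz⟩
    have h4 := GalB_res L (s ⟨AlgEquiv.restrictNormalHom L σ, ⟨σ, hσ, rfl⟩⟩) ⟨z, hz⟩
    rw [hs] at h4
    rw [h3] at h4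
    exact h4.symm
  have hP1 : (P 1 : Matrix ι ι Ω) = 1 := by
    have h2 := hP 1 H.one_mem 1 H.one_mem
    have h3 : (P 1 : Matrix ι ι Ω).map (1 : Gal(Ω/F)) = (P 1 : Matrix ι ι Ω) := by
      ext i j
      rfl
    rw [h3, mul_one] at h2
    have h4 : P 1 = P 1 * P 1 := Units.ext h2
    have h5 : P 1 = 1 := by
      exact (left_eq_mul.1 h4)
    rw [h5, Units.val_one]
  obtain ⟨B, hB⟩ := CsaB_h90 G P' (by
    ext i j
    have h2 := hP's 1 H.one_mem i j
    rw [hP1] at h2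
    have h3 : (⟨AlgEquiv.restrictNormalHom L (1 : Gal(Ω/F)), ⟨1, H.one_mem, rfl⟩⟩ : G) = 1 := by
      apply Subtype.ext
      exact map_one _
    rw [h3] at h2
    rw [h2, Matrix.one_apply, Matrix.one_apply]
    split_ifs <;> rfl) (by
    intro g h
    obtain ⟨_, σ, hσ, rfl⟩ := g
    obtain ⟨_, τ, hτ, rfl⟩ := h
    ext i j
    have h2 := hP's (σ * τ) (H.mul_mem hσ hτ) i j
    have h3 : (⟨AlgEquiv.restrictNormalHom L (σ * τ), ⟨σ * τ, H.mul_mem hσ hτ, rfl⟩⟩ : G) =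
        ⟨AlgEquiv.restrictNormalHom L σ, ⟨σ, hσ, rfl⟩⟩ *
        ⟨AlgEquiv.restrictNormalHom L τ, ⟨τ, hτ, rfl⟩⟩ := by
      apply Subtype.ext
      exact map_mul _ _ _
    rw [h3] at h2
    rw [h2, hP σ hσ τ hτ, Matrix.mul_apply, Matrix.mul_apply]
    rw [AddSubmonoidClass.coe_finsetSum]
    refine Finset.sum_congr rfl fun k _ => ?_
    rw [MulMemClass.coe_mul, hP's σ hσ]
    congr 1
    rw [Matrix.map_apply, Matrix.map_apply, ← hP's τ hτ k j]
    exact (GalB_res L σ _).symm)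
  let ψ : Matrix ι ι L →+* Matrix ι ι Ω := (algebraMap L Ω).mapMatrix
  let Q : (Matrix ι ι Ω)ˣ := Units.map (ψ : Matrix ι ι L →* Matrix ι ι Ω) B⁻¹
  refine ⟨Q, fun σ hσ => ?_⟩
  have h5 := hB ⟨AlgEquiv.restrictNormalHom L σ, ⟨σ, hσ, rfl⟩⟩
  have h6 := congrArg ψ h5
  rw [map_mul] at h6
  have h7 : ψ (P' ⟨AlgEquiv.restrictNormalHom L σ, ⟨σ, hσ, rfl⟩⟩) = (P σ : Matrix ι ι Ω) := by
    ext i j
    exact hP's σ hσ i j
  have h8 : ψ ((B : Matrix ι ι L).map (AlgEquiv.restrictNormalHom L σ : Gal(L/F))) =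
      (ψ (B : Matrix ι ι L)).map σ := by
    ext i j
    exact GalB_res L σ _
  rw [h7, h8] at h6
  have h9 : (Q : Matrix ι ι Ω) * ψ (B : Matrix ι ι L) = 1 := by
    change ψ ((B⁻¹ : (Matrix ι ι L)ˣ) : Matrix ι ι L) * ψ (B : Matrix ι ι L) = 1
    rw [← map_mul, Units.inv_mul, map_one]
  have h10 : ψ (B : Matrix ι ι L) * (Q : Matrix ι ι Ω) = 1 := by
    change ψ (B : Matrix ι ι L) * ψ ((B⁻¹ : (Matrix ι ι L)ˣ) : Matrix ι ι L) = 1
    rw [← map_mul, Units.mul_inv, map_one]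
  calc (Q : Matrix ι ι Ω) * (P σ : Matrix ι ι Ω)
      = (Q : Matrix ι ι Ω) * (P σ : Matrix ι ι Ω) *
        (ψ (B : Matrix ι ι L) * (Q : Matrix ι ι Ω)).map σ := by
        rw [h10, CsaB_map_one, mul_one]
    _ = (Q : Matrix ι ι Ω) * ((P σ : Matrix ι ι Ω) *
        (ψ (B : Matrix ι ι L)).map σ) * (Q : Matrix ι ι Ω).map σ := by
        rw [CsaB_map_mul]
        simp only [mul_assoc]
    _ = (Q : Matrix ι ι Ω).map σ := by
        rw [h6, h9, one_mul]

end

end W42
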