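import Pool.Agent.W_42fc02_h90.Cyc

/-!
T4a: a finite l-group G acting on A with H^1(N, A) = 0 for all subgroups N and surjective norms
for all pairs N < H, N normal in H of index l: then H^2(G, A) = 0.

Proof: for every subgroup H of G (induction on |H|) the restriction of c to H is a coboundary:
H nontrivial l-group has a normal subgroup N of index l; c is a coboundary on N by induction;
infres for the group H gives an N-invariant cocycle; cyclic_split with any s in H outside N.
(Apply infres and cyclic_split to the group H acting on A; N as a subgroup of H.)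
-/

namespace W42

variable {G A : Type*} [Group G] [CommGroup A] [MulDistribMulAction G A]

/-- a normal subgroup of index l, with a generator of the quotient -/
private theorem LGroup_exists {H : Type*} [Group H] [Finite H] [Nontrivial H] (l : ℕ)
    [Fact l.Prime] (hH : IsPGroup l H) : ∃ N : Subgroup H, N.Normal ∧ ∃ s : H, s ∉ N ∧
      s ^ l ∈ N ∧ (∀ i, 0 < i → i < l → s ^ i ∉ N) ∧
      ∀ g : H, ∃ i < l, ∃ n ∈ N, g = s ^ i * n := by
  have hl : l.Prime := Fact.out
  obtain ⟨n, hn0, hn⟩ := hH.nontrivial_iff_card.mp inferInstance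
  obtain ⟨m, rfl⟩ : ∃ m, n = m + 1 := ⟨n - 1, by omega⟩
  obtain ⟨N, hN⟩ := Sylow.exists_subgroup_card_pow_prime (G := H) l (n := m) (by
    rw [hn]
    exact pow_dvd_pow l (Nat.le_succ m))
  have hidx : N.index = l := by
    have h1 := N.card_mul_index
    rw [hN, hn, pow_succ] at h1
    exact Nat.eq_of_mul_eq_mul_left (pow_pos hl.pos m) h1
  have hnor : N.Normal := Subgroup.normal_of_index_eq_minFac_card (by
    rw [hidx, hn, hl.pow_minFac (Nat.succ_ne_zero m)])
  have hcq : Nat.card (H ⧸ N) = l := hidx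
  obtain ⟨s, hs⟩ : ∃ s : H, s ∉ N := by
    by_contra hcon
    push Not at hcon
    have h1 : N = ⊤ := by
      rw [eq_top_iff]
      exact fun x _ => hcon x
    rw [h1, Subgroup.index_top] at hidx
    exact hl.one_lt.ne hidx
  have hπ : ((s : H) : H ⧸ N) ≠ 1 := by
    rw [Ne, QuotientGroup.eq_one_iff]
    exact hs
  have hπl : ((s : H) : H ⧸ N) ^ l = 1 := by
    have h1 := pow_card_eq_one' (x := ((s : H) : H ⧸ N))
    rwa [hcq] at h1
  refine ⟨N, hnor, s, hs, ?_, ?_, ?_⟩
  · rw [← QuotientGroup.eq_one_iff, QuotientGroup.mk_pow]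
    exact hπl
  · intro i hi hil h1
    rw [← QuotientGroup.eq_one_iff, QuotientGroup.mk_pow] at h1
    have h2 := orderOf_eq_prime hπl hπ
    have h3 := orderOf_dvd_of_pow_eq_one h1
    rw [h2] at h3
    exact absurd (Nat.le_of_dvd hi h3) (by omega)
  · intro g
    obtain ⟨j, hj⟩ := mem_powers_of_prime_card hcq hπ (g' := ((g : H) : H ⧸ N))
    have hj' : ((s : H) : H ⧸ N) ^ j = ((g : H) : H ⧸ N) := hj
    have h1 : ((s : H) : H ⧸ N) ^ (j % l) = ((g : H) : H ⧸ N) := by
      rw [← hj']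
      conv_rhs => rw [← Nat.div_add_mod j l, pow_add, pow_mul, hπl, one_pow, one_mul]
    refine ⟨j % l, Nat.mod_lt _ hl.pos, (s ^ (j % l))⁻¹ * g, ?_, by group⟩
    rw [← QuotientGroup.mk_pow] at h1
    exact QuotientGroup.eq.1 h1

theorem lgroup_split [Finite G] (l : ℕ) [Fact l.Prime] (hG : IsPGroup l G)
    (hH : ∀ N : Subgroup G, H1z N A)
    (hnorm : ∀ N H : Subgroup G, N ≤ H → (∀ h ∈ H, ∀ n ∈ N, h * n * h⁻¹ ∈ N) →
      ∀ s ∈ H, s ^ l ∈ N → (∀ i, 0 < i → i < l → s ^ i ∉ N) →
      (∀ g ∈ H, ∃ i < l, ∃ n ∈ N, g = s ^ i * n) →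
      ∀ a : A, (∀ g ∈ H, g • a = a) →
        ∃ z : A, (∀ n ∈ N, n • z = z) ∧ ∏ i ∈ Finset.range l, (s ^ i • z) = a)
    {c : G → G → A} (hc : IsC2 c) :
    ∃ b : G → A, ∀ g h, c g h = dB b g h := by
  classical
  have hl : l.Prime := Fact.out
  have key : ∀ n : ℕ, ∀ H : Subgroup G, Nat.card H = n →
      ∃ b : G → A, ∀ g ∈ H, ∀ h ∈ H, c g h = dB b g h := by
    intro n
    induction n using Nat.strong_induction_on with
    | _ n ih =>
    intro H hn
    by_cases htriv : Subsingleton H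
    · refine ⟨fun _ => c 1 1, fun g hg h hh => ?_⟩
      have h1 : g = 1 := congrArg Subtype.val (Subsingleton.elim (⟨g, hg⟩ : H) 1)
      have h2 : h = 1 := congrArg Subtype.val (Subsingleton.elim (⟨h, hh⟩ : H) 1)
      subst h1
      subst h2
      unfold dB
      rw [one_smul, mul_div_cancel_right]
    · have hnt : Nontrivial H := not_subsingleton_iff_nontrivial.1 htriv
      obtain ⟨N', hN'n, s, hs1, hs2, hs3, hs4⟩ := LGroup_exists l (hG.to_subgroup H)
      have hNH : N'.map H.subtype ≤ H := Subgroup.map_subtype_le N'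
      have hmemN : ∀ x : H, (x : G) ∈ N'.map H.subtype ↔ x ∈ N' := by
        intro x
        constructor
        · rintro ⟨y, hy, hyx⟩
          have h1 : y = x := Subtype.ext hyx
          exact h1 ▸ hy
        · exact fun hx => ⟨x, hx, rfl⟩
      have hcard : Nat.card (N'.map H.subtype) < n := by
        rw [← hn]
        by_contra hcon
        rw [not_lt] at hcon
        have h1 := Subgroup.eq_of_le_of_card_ge hNH hcon
        apply hs1
        rw [← hmemN, h1]
        exact s.2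
      obtain ⟨b0, hb0⟩ := ih _ hcard (N'.map H.subtype) rfl
      have hcH : IsC2 (fun x y : H => c x y) := fun x y z => hc x y z
      have hH1 : H1z N' A := by
        intro f hf
        obtain ⟨z, hz⟩ := hH (N'.map H.subtype) (fun g => if h : g ∈ H then f ⟨g, h⟩ else 1) (by
          intro n hn m hm
          show (if h : n * m ∈ H then f ⟨n * m, h⟩ else 1) =
            (if h : n ∈ H then f ⟨n, h⟩ else 1) * (n • (if h : m ∈ H then f ⟨m, h⟩ else 1))
          rw [dif_pos (hNH hn), dif_pos (hNH hm), dif_pos (H.mul_mem (hNH hn) (hNH hm))]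
          exact hf ⟨n, hNH hn⟩ ((hmemN _).1 hn) ⟨m, hNH hm⟩ ((hmemN _).1 hm))
        refine ⟨z, fun n hn => ?_⟩
        have h1 := hz n ((hmemN n).2 hn)
        change (if h : (n : G) ∈ H then f ⟨n, h⟩ else 1) = _ at h1
        rw [dif_pos n.2] at h1
        exact h1
      obtain ⟨c', b', hc', hi', hcc'⟩ := infres (G := H) (A := A) N' hH1 hcH (fun x => b0 x)
        (fun n hn m hm => hb0 n ((hmemN n).2 hn) m ((hmemN m).2 hm))
      obtain ⟨b'', _, hb''⟩ := cyclic_split (G := H) (A := A) N' l hl.pos s hs2 hs3 hs4 (by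
        intro a ha
        obtain ⟨z, hz1, hz2⟩ := hnorm (N'.map H.subtype) H hNH (by
          rintro h hh n ⟨n', hn', rfl⟩
          exact ⟨⟨h, hh⟩ * n' * (⟨h, hh⟩)⁻¹, hN'n.conj_mem n' hn' ⟨h, hh⟩, rfl⟩) s s.2
          ((hmemN (s ^ l)).2 hs2) (fun i hi hil h1 => hs3 i hi hil ((hmemN (s ^ i)).1 h1)) (by
          intro g hg
          obtain ⟨i, hi, n, hn, hgn⟩ := hs4 ⟨g, hg⟩
          exact ⟨i, hi, n, (hmemN n).2 hn, congrArg Subtype.val hgn⟩) a
          (fun g hg => ha ⟨g, hg⟩)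
        exact ⟨z, fun n hn => hz1 n ((hmemN n).2 hn), hz2⟩) hc' hi'
      refine ⟨fun g => if h : g ∈ H then b'' ⟨g, h⟩ * b' ⟨g, h⟩ else 1, ?_⟩
      intro g hg h hh
      have h1 := hcc' ⟨g, hg⟩ ⟨h, hh⟩
      rw [hb'', ← dB_mul] at h1
      change c g h = _ at h1
      rw [h1]
      show _ = (if h : g ∈ H then b'' ⟨g, h⟩ * b' ⟨g, h⟩ else 1) *
        (g • (if h' : h ∈ H then b'' ⟨h, h'⟩ * b' ⟨h, h'⟩ else 1)) /
        (if h' : g * h ∈ H then b'' ⟨g * h, h'⟩ * b' ⟨g * h, h'⟩ else 1)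
      rw [dif_pos hg, dif_pos hh, dif_pos (H.mul_mem hg hh)]
      rfl
  obtain ⟨b, hb⟩ := key _ ⊤ rfl
  exact ⟨b, fun g h => hb g (Subgroup.mem_top g) h (Subgroup.mem_top h)⟩

end W42
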