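import Pool.Agent.W_42fc02_h90.GalC
import Pool.Agent.W_42fc02_h90.LGroup

/-!
Ts: surjective norms of degree l imply Br(E){l} = 0.

NSprop l E: for every finite separable E1 / E and every Galois N1 / E1 of degree l the norm is
surjective.

br_zero: c a Brauer cocycle over E with c ^ (l ^ s) trivial: c is trivial.
Proof: level L, finite group Gal(L / E) acting on the units of L; S an l-Sylow subgroup;
lgroup_split for S (hypothesis hnorm: N < H subgroups of S, fixed fields E1 = L^H, N1 = L^N,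
N1 / E1 Galois of degree l with group H / N = powers of s, Algebra.norm = prod s^i z by
Algebra.norm_eq_prod_automorphisms); so c restricted to S is a coboundary; transfer: c ^ [G:S] is
a coboundary; gcd([G:S], l^s) = 1: beq_one_of_coprime.
-/

set_option autoImplicit false

namespace W42

def NSprop (l : ℕ) (E : Type) [Field E] : Prop :=
  ∀ (E₁ N₁ : Type) [Field E₁] [Field N₁] [Algebra E E₁] [Algebra E₁ N₁]
    [FiniteDimensional E E₁] [Algebra.IsSeparable E E₁] [FiniteDimensional E₁ N₁]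
    [IsGalois E₁ N₁], Module.finrank E₁ N₁ = l → ∀ a : E₁, ∃ z : N₁, Algebra.norm E₁ z = a

theorem Ts_norm {E L : Type} [Field E] [Field L] [Algebra E L] {l : ℕ}
    [Fact l.Prime] (hE : NSprop l E) [FiniteDimensional E L]
    [IsGalois E L] (N H : Subgroup Gal(L/E)) (hNH : N ≤ H)
    (hn : ∀ h ∈ H, ∀ n ∈ N, h * n * h⁻¹ ∈ N) (s : Gal(L/E)) (hs : s ∈ H)
    (hs' : ∀ i, 0 < i → i < l → s ^ i ∉ N) (hgen : ∀ g ∈ H, ∃ i < l, ∃ n ∈ N, g = s ^ i * n)
    (a : L) (ha0 : a ≠ 0) (ha : ∀ g ∈ H, g a = a) :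
    ∃ z : L, z ≠ 0 ∧ (∀ n ∈ N, n z = z) ∧ ∏ i ∈ Finset.range l, ((s ^ i) z) = a := by
  classical
  set E₁ : IntermediateField E L := IntermediateField.fixedField H with hE₁
  have hfix : E₁.fixingSubgroup = H := IntermediateField.fixingSubgroup_fixedField H
  let ρ : Gal(L/E₁) →* Gal(L/E) :=
    E₁.fixingSubgroup.subtype.comp (IntermediateField.fixingSubgroupEquiv E₁).symm.toMonoidHom
  have hρa : ∀ (g : Gal(L/E₁)) (z : L), ρ g z = g z := fun g z => rfl
  have hρH : ∀ g, ρ g ∈ H := fun g => hfix ▸ ((IntermediateField.fixingSubgroupEquiv E₁).symm g).2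
  have hρs : ∀ h ∈ H, ∃ g, ρ g = h := by
    intro h hh
    rw [← hfix] at hh
    exact ⟨IntermediateField.fixingSubgroupEquiv E₁ ⟨h, hh⟩, rfl⟩
  let N' : Subgroup Gal(L/E₁) := N.comap ρ
  have hN'n : N'.Normal := by
    constructor
    intro n hnn g
    change ρ (g * n * g⁻¹) ∈ N
    rw [map_mul, map_mul, map_inv]
    exact hn _ (hρH g) _ hnn
  let N₁ : IntermediateField E₁ L := IntermediateField.fixedField N'
  have hfix' : N₁.fixingSubgroup = N' := IntermediateField.fixingSubgroup_fixedField N'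
  have hgal : IsGalois E₁ N₁ := IsGalois.of_fixedField_normal_subgroup N'
  obtain ⟨s', hs'ρ⟩ := hρs s hs
  have hrest : ∀ (g : Gal(L/E₁)) (z : N₁),
      ((AlgEquiv.restrictNormalHom N₁ g z : N₁) : L) = g z := fun g z =>
    AlgEquiv.restrictNormal_commutes g N₁ z
  have hone : ∀ g : Gal(L/E₁), AlgEquiv.restrictNormalHom N₁ g = 1 ↔ ρ g ∈ N := by
    intro g
    constructor
    · intro h
      have h1 : g ∈ N₁.fixingSubgroup := by
        rw [IntermediateField.mem_fixingSubgroup_iff]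
        intro z hz
        have := hrest g ⟨z, hz⟩
        rw [h] at this
        exact this.symm
      rw [hfix'] at h1
      exact h1
    · intro h
      ext z
      rw [hrest]
      have h1 : g ∈ N₁.fixingSubgroup := by
        rw [hfix']
        exact h
      rw [IntermediateField.mem_fixingSubgroup_iff] at h1
      exact h1 z z.2
  let f : Fin l → Gal(N₁/E₁) := fun i => AlgEquiv.restrictNormalHom N₁ (s' ^ (i : ℕ))
  have hf : Function.Bijective f := by
    constructor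
    · have key : ∀ i j : Fin l, (i : ℕ) < j → f i ≠ f j := by
        intro i j hij h
        have h1 : AlgEquiv.restrictNormalHom N₁ (s' ^ ((j : ℕ) - i)) = 1 := by
          have h2 : s' ^ (j : ℕ) = s' ^ (i : ℕ) * s' ^ ((j : ℕ) - i) := by
            rw [← pow_add]
            congr 1
            omega
          have h3 : f j = f i * AlgEquiv.restrictNormalHom N₁ (s' ^ ((j : ℕ) - i)) := by
            simp only [f]
            rw [h2, map_mul]
          rw [← h] at h3
          exact (mul_eq_left.1 h3.symm)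
        rw [hone, map_pow, hs'ρ] at h1
        exact hs' _ (by omega) (by have := j.2; omega) h1
      intro i j h
      by_contra hne
      rcases lt_or_gt_of_ne (fun h' => hne (Fin.ext h') : (i : ℕ) ≠ j) with h1 | h1
      · exact key i j h1 h
      · exact key j i h1 h.symm
    · intro τ
      obtain ⟨g, hg⟩ := AlgEquiv.restrictNormalHom_surjective (F := E₁) (K₁ := N₁) L τ
      obtain ⟨i, hi, n, hnN, hgn⟩ := hgen (ρ g) (hρH g)
      refine ⟨⟨i, hi⟩, ?_⟩
      have h1 : AlgEquiv.restrictNormalHom N₁ ((s' ^ i)⁻¹ * g) = 1 := by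
        rw [hone, map_mul, map_inv, map_pow, hs'ρ, hgn]
        simpa using hnN
      rw [map_mul, map_inv, inv_mul_eq_one] at h1
      rw [← hg]
      exact h1
  have hfr : Module.finrank E₁ N₁ = l := by
    rw [← IsGalois.card_aut_eq_finrank, Nat.card_eq_fintype_card,
      ← Fintype.card_of_bijective hf, Fintype.card_fin]
  have haE : a ∈ E₁ := by
    rw [hE₁, IntermediateField.mem_fixedField_iff]
    exact ha
  obtain ⟨z, hz⟩ := hE E₁ N₁ hfr ⟨a, haE⟩
  have h1 := Algebra.norm_eq_prod_automorphisms E₁ z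
  rw [hz] at h1
  have h2 : a = ∏ i : Fin l, ((s ^ (i : ℕ)) (z : L)) := by
    have h3 := congrArg (fun w : N₁ => (w : L)) h1
    have h4 : (((algebraMap E₁ N₁ ⟨a, haE⟩ : N₁) : L)) = a := rfl
    change ((algebraMap E₁ N₁ ⟨a, haE⟩ : N₁) : L) = ((∏ σ : Gal(N₁/E₁), σ z : N₁) : L) at h3
    rw [h4] at h3
    rw [h3, ← hf.prod_comp]
    have h5 : ∀ w : Fin l → N₁, ((∏ i, w i : N₁) : L) = ∏ i, ((w i : N₁) : L) := fun w =>
      map_prod N₁.val w Finset.univ
    rw [h5]
    refine Finset.prod_congr rfl fun i _ => ?_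
    rw [hrest, ← hρa, map_pow, hs'ρ]
  refine ⟨z, ?_, ?_, ?_⟩
  · intro h0
    apply ha0
    have h3 : z = 0 := Subtype.ext h0
    have h4 : (⟨a, haE⟩ : E₁) = 0 := by rw [← hz, h3, Algebra.norm_zero]
    exact congrArg (fun w : E₁ => (w : L)) h4
  · intro n hnN
    obtain ⟨g, hg⟩ := hρs n (hNH hnN)
    have h3 : g ∈ N₁.fixingSubgroup := by
      rw [hfix']
      change ρ g ∈ N
      rw [hg]
      exact hnN
    rw [IntermediateField.mem_fixingSubgroup_iff] at h3
    rw [← hg, hρa]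
    exact h3 z z.2
  · rw [h2, Finset.prod_range]

/-- the norm of the Galois extension L^N / L^H as a product over the powers of s. -/
theorem norm_subgroups {E Ω : Type} [Field E] [Field Ω] [Algebra E Ω] [IsGalois E Ω] {l : ℕ}
    [Fact l.Prime] (hE : NSprop l E) (L : IntermediateField E Ω) [FiniteDimensional E L]
    [Normal E L] (N H : Subgroup Gal(L/E)) (hNH : N ≤ H)
    (hn : ∀ h ∈ H, ∀ n ∈ N, h * n * h⁻¹ ∈ N) (s : Gal(L/E)) (hs : s ∈ H) (hsl : s ^ l ∈ N)
    (hs' : ∀ i, 0 < i → i < l → s ^ i ∉ N) (hgen : ∀ g ∈ H, ∃ i < l, ∃ n ∈ N, g = s ^ i * n)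
    (a : Lˣ) (ha : ∀ g ∈ H, g • a = a) :
    ∃ z : Lˣ, (∀ n ∈ N, n • z = z) ∧ ∏ i ∈ Finset.range l, (s ^ i • z) = a := by
  have hgal : IsGalois E L := { to_normal := inferInstance, to_isSeparable := inferInstance }
  obtain ⟨z, hz0, hz1, hz2⟩ := Ts_norm hE N H hNH hn s hs hs' hgen (a : L) a.ne_zero (by
    intro g hg
    have := congrArg (fun u : Lˣ => (u : L)) (ha g hg)
    exact this)
  refine ⟨Units.mk0 z hz0, ?_, ?_⟩
  · intro n hnN
    apply Units.ext
    exact hz1 n hnN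
  · apply Units.ext
    rw [Units.coe_prod, ← hz2]
    rfl

theorem br_zero {E Ω : Type} [Field E] [Field Ω] [Algebra E Ω] [IsGalois E Ω] {l : ℕ}
    [Fact l.Prime] (hE : NSprop l E) {c : Gal(Ω/E) → Gal(Ω/E) → Ωˣ} (hc : BC c) (s : ℕ)
    (hs : BEq (fun σ τ => c σ τ ^ l ^ s) c1) : BEq c c1 := by
  classical
  obtain ⟨hc2, L, hLf, hLn, hL⟩ := hc
  obtain ⟨c', rfl⟩ := exists_infl L hL
  have hc' : IsC2 c' := (isC2_infl L c').1 hc2
  obtain ⟨P⟩ : Nonempty (Sylow l Gal(L/E)) := inferInstance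
  obtain ⟨S, hS⟩ : ∃ S : Subgroup Gal(L/E), S = P := ⟨_, rfl⟩
  have hSp : IsPGroup l S := hS ▸ P.isPGroup'
  have hSi : Nat.Coprime S.index (l ^ s) := by
    refine Nat.Coprime.pow_right s ?_
    rw [Nat.coprime_comm, Nat.Prime.coprime_iff_not_dvd Fact.out, hS]
    exact P.not_dvd_index
  -- the restriction to the Sylow subgroup splits
  have hsplit : ∃ b : S → Lˣ, ∀ g h : S, c' g h = dB b g h := by
    refine lgroup_split (G := S) (A := Lˣ) l hSp ?_ ?_ (c := fun g h => c' g h)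
      (fun g h j => hc' g h j)
    · intro N f hf
      let f₀ : Gal(L/E) → Lˣ := fun g => if h : g ∈ S then f ⟨g, h⟩ else 1
      have hf₀ : ∀ g : S, f₀ g = f g := fun g => by
        simp only [f₀]
        rw [dif_pos g.2]
      obtain ⟨z, hz⟩ := h1z_units L (N.map S.subtype) f₀ (by
        rintro _ ⟨n, hn, rfl⟩ _ ⟨m, hm, rfl⟩
        have := hf n hn m hm
        change f₀ ((n : Gal(L/E)) * m) = f₀ n * (n • f₀ m)
        rw [hf₀ n, hf₀ m, ← Subgroup.coe_mul, hf₀, this]
        )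
      refine ⟨z, fun n hn => ?_⟩
      rw [← hf₀ n]
      exact hz n ⟨n, hn, rfl⟩
    · intro N H hNH hn t ht htl ht' hgen a ha
      have hmem : ∀ (K : Subgroup S) (g : S), (g : Gal(L/E)) ∈ K.map S.subtype ↔ g ∈ K := by
        intro K g
        constructor
        · rintro ⟨k, hk, hkg⟩
          have : k = g := Subtype.ext hkg
          rw [← this]
          exact hk
        · intro hg
          exact ⟨g, hg, rfl⟩
      obtain ⟨z, hz1, hz2⟩ := norm_subgroups hE L (N.map S.subtype) (H.map S.subtype)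
        (Subgroup.map_mono hNH) (by
          rintro _ ⟨h, hh, rfl⟩ _ ⟨n, hnn, rfl⟩
          exact ⟨h * n * h⁻¹, hn h hh n hnn, by simp⟩)
        (t : Gal(L/E)) ((hmem H t).2 ht) (by
          rw [← Subgroup.coe_pow, hmem]
          exact htl) (by
          intro i hi hil
          rw [← Subgroup.coe_pow, hmem]
          exact ht' i hi hil) (by
          rintro _ ⟨g, hg, rfl⟩
          obtain ⟨i, hi, n, hnn, rfl⟩ := hgen g hg
          exact ⟨i, hi, n, (hmem N n).2 hnn, by simp⟩) a (by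
          rintro _ ⟨g, hg, rfl⟩
          exact ha g hg)
      refine ⟨z, fun n hnn => hz1 n ((hmem N n).2 hnn), ?_⟩
      rw [← hz2]
      refine Finset.prod_congr rfl fun i _ => ?_
      rw [Subgroup.smul_def, Subgroup.coe_pow]
  obtain ⟨b, hb⟩ := hsplit
  let b₀ : Gal(L/E) → Lˣ := fun g => if h : g ∈ S then b ⟨g, h⟩ else 1
  have hb₀ : ∀ g : S, b₀ g = b g := fun g => by
    simp only [b₀]
    rw [dif_pos g.2]
  have hSfin : S.index ≠ 0 := Subgroup.index_ne_zero_of_finite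
  obtain ⟨b', hb'⟩ := transfer hc' S hSfin b₀ (by
    intro g hg h hh
    have h1 := hb ⟨g, hg⟩ ⟨h, hh⟩
    change c' g h = _ at h1
    rw [h1]
    change b ⟨g, hg⟩ * ((⟨g, hg⟩ : S) • b ⟨h, hh⟩) / b (⟨g, hg⟩ * ⟨h, hh⟩) =
      b₀ g * (g • b₀ h) / b₀ (g * h)
    have e1 := hb₀ ⟨g, hg⟩
    have e2 := hb₀ ⟨h, hh⟩
    have e3 := hb₀ (⟨g, hg⟩ * ⟨h, hh⟩)
    change b₀ g = _ at e1
    change b₀ h = _ at e2
    change b₀ (g * h) = _ at e3
    rw [e1, e2, e3]
    rfl)
  have h1 : BEq (fun σ τ => infl L c' σ τ ^ S.index) c1 := by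
    refine ⟨infl1 L b', ⟨L, hLf, hLn, lev1_infl1 L b'⟩, fun σ τ => ?_⟩
    rw [dB_infl1]
    change Units.map _ _ ^ S.index = 1 * Units.map _ _
    rw [one_mul, ← map_pow, hb']
  exact beq_one_of_coprime hSi h1 hs

/-- restriction of a cochain from Gal(Omega / F) to Gal(Omega / E). -/
noncomputable def resE {F Ω : Type} [Field F] [Field Ω] [Algebra F Ω] (E : IntermediateField F Ω)
    (c : Gal(Ω/F) → Gal(Ω/F) → Ωˣ) : Gal(Ω/E) → Gal(Ω/E) → Ωˣ :=
  fun σ τ => c (σ.restrictScalars F) (τ.restrictScalars F)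

theorem Ts_repr {F Ω : Type} [Field F] [Field Ω] [Algebra F Ω] {n : ℕ}
    {L : IntermediateField F Ω} (B : Module.Basis (Fin n) F L) (w : L) :
    (w : Ω) = ∑ i, (algebraMap F Ω (B.repr w i)) * (B i : Ω) := by
  conv_lhs => rw [← B.sum_repr w]
  have h3 : ∀ w : Fin n → L, ((∑ i, w i : L) : Ω) = ∑ i, ((w i : L) : Ω) :=
    fun w => map_sum L.val w Finset.univ
  rw [h3]
  refine Finset.sum_congr rfl fun i _ => ?_
  rw [← Algebra.smul_def]
  rfl

/-- compositum with a finite normal extension -/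
theorem Ts_comp {F Ω : Type} [Field F] [Field Ω] [Algebra F Ω] [IsGalois F Ω]
    (E L : IntermediateField F Ω) [FiniteDimensional F L] [Normal F L] :
    ∃ M : IntermediateField E Ω, FiniteDimensional E M ∧ Normal E M ∧ ∀ z ∈ L, z ∈ M := by
  classical
  let B := Module.finBasis F L
  let M : IntermediateField E Ω := IntermediateField.adjoin E (Set.range fun i => (B i : Ω))
  have hLM : ∀ z ∈ L, z ∈ M := by
    intro z hz
    have h1 : z = ∑ i, (algebraMap F Ω (B.repr ⟨z, hz⟩ i)) * (B i : Ω) := Ts_repr B ⟨z, hz⟩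
    rw [h1]
    refine sum_mem fun i _ => ?_
    refine mul_mem ?_ (IntermediateField.subset_adjoin E _ ⟨i, rfl⟩)
    rw [IsScalarTower.algebraMap_apply F E Ω]
    exact M.algebraMap_mem _
  refine ⟨M, ?_, ?_, hLM⟩
  · exact IntermediateField.finiteDimensional_adjoin fun x _ => Algebra.IsIntegral.isIntegral x
  · rw [IntermediateField.normal_iff_forall_map_le']
    intro σ
    rw [IntermediateField.adjoin_map, IntermediateField.adjoin_le_iff]
    rintro _ ⟨_, ⟨i, rfl⟩, rfl⟩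
    apply hLM
    have h1 := AlgEquiv.restrictNormal_commutes (σ.restrictScalars F) L (B i)
    have h2 : σ (B i : Ω) = ((AlgEquiv.restrictNormal (σ.restrictScalars F) L (B i) : L) : Ω) :=
      h1.symm
    change σ (B i : Ω) ∈ L
    rw [h2]
    exact Subtype.property _

theorem resE_bc {F Ω : Type} [Field F] [Field Ω] [Algebra F Ω] [IsGalois F Ω]
    (E : IntermediateField F Ω) {c : Gal(Ω/F) → Gal(Ω/F) → Ωˣ} (hc : BC c) :
    BC (resE E c) := by
  obtain ⟨hc2, L, hLf, hLn, hL⟩ := hc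
  refine ⟨fun σ τ υ => ?_, ?_⟩
  · exact hc2 (σ.restrictScalars F) (τ.restrictScalars F) (υ.restrictScalars F)
  · obtain ⟨M, hMf, hMn, hM⟩ := Ts_comp E L
    refine ⟨M, hMf, hMn, fun σ τ => hM _ (hL.1 _ _), fun σ σ' τ τ' h h' => ?_⟩
    exact hL.2 _ _ _ _ (fun z hz => h z (hM z hz)) (fun z hz => h' z (hM z hz))

/-- equality over E gives Spl E: a cochain of finite level on Gal(Omega / E) extends to a cochain
of finite level on Gal(Omega / F): it has finitely many values and depends only on the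
restriction to some finite normal L / F (L contains generators over E of its level and the
values); extend by b(sigma') if sigma agrees on L with sigma' fixing E, and by 1 otherwise. -/
theorem spl_of_resE {F Ω : Type} [Field F] [Field Ω] [Algebra F Ω] [IsGalois F Ω]
    (E : IntermediateField F Ω) {c : Gal(Ω/F) → Gal(Ω/F) → Ωˣ} (h : BEq (resE E c) c1) :
    Spl E c := by
  classical
  obtain ⟨b, ⟨L', hLf, hLn, hL⟩, hb⟩ := h
  have hfin : (Set.range b).Finite := by
    obtain ⟨b', rfl⟩ := exists_infl1 L' hL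
    refine (Set.finite_range fun g : Gal(L'/E) =>
      Units.map (algebraMap L' Ω : L' →* Ω) (b' g)).subset ?_
    rintro _ ⟨σ, rfl⟩
    exact ⟨AlgEquiv.restrictNormalHom L' σ, rfl⟩
  let B := Module.finBasis E L'
  let S : Finset Ω := (Finset.univ.image fun i => (B i : Ω)) ∪
    (hfin.toFinset.image fun u : Ωˣ => (u : Ω))
  obtain ⟨M, hMf, hMn, hM⟩ := exists_normal_mem (F := F) S
  have hMB : ∀ i, (B i : Ω) ∈ M := fun i =>
    hM _ (Finset.mem_union_left _ (Finset.mem_image.2 ⟨i, Finset.mem_univ _, rfl⟩))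
  have hMb : ∀ σ, (b σ : Ω) ∈ M := fun σ =>
    hM _ (Finset.mem_union_right _ (Finset.mem_image.2 ⟨b σ, hfin.mem_toFinset.2 ⟨σ, rfl⟩, rfl⟩))
  -- agreement on `M`
  have hag : ∀ σ σ' : Gal(Ω/E), (∀ z ∈ M, σ z = σ' z) → b σ = b σ' := by
    intro σ σ' h
    apply hL.2
    intro z hz
    have h1 : z = ∑ i, (algebraMap E Ω (B.repr ⟨z, hz⟩ i)) * (B i : Ω) := Ts_repr B ⟨z, hz⟩
    rw [h1, map_sum, map_sum]
    refine Finset.sum_congr rfl fun i _ => ?_
    rw [map_mul, map_mul, AlgEquiv.commutes, AlgEquiv.commutes, h _ (hMB i)]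
  let β : Gal(Ω/F) → Ωˣ := fun σ =>
    if h : ∃ σ' : Gal(Ω/E), ∀ z ∈ M, σ' z = σ z then b h.choose else 1
  have hβ : ∀ (σ : Gal(Ω/F)) (σ' : Gal(Ω/E)), (∀ z ∈ M, σ' z = σ z) → β σ = b σ' := by
    intro σ σ' h
    have hex : ∃ σ' : Gal(Ω/E), ∀ z ∈ M, σ' z = σ z := ⟨σ', h⟩
    simp only [β]
    rw [dif_pos hex]
    apply hag
    intro z hz
    rw [hex.choose_spec z hz, h z hz]
  refine ⟨β, ⟨M, hMf, hMn, ?_, ?_⟩, ?_⟩
  · intro σ
    by_cases hex : ∃ σ' : Gal(Ω/E), ∀ z ∈ M, σ' z = σ z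
    · obtain ⟨σ', h⟩ := hex
      rw [hβ σ σ' h]
      exact hMb σ'
    · simp only [β]
      rw [dif_neg hex]
      exact one_mem M
  · intro σ τ h
    by_cases hex : ∃ σ' : Gal(Ω/E), ∀ z ∈ M, σ' z = σ z
    · obtain ⟨σ', h'⟩ := hex
      rw [hβ σ σ' h', hβ τ σ' fun z hz => (h' z hz).trans (h z hz)]
    · have hex' : ¬ ∃ σ' : Gal(Ω/E), ∀ z ∈ M, σ' z = τ z := by
        rintro ⟨σ', h'⟩
        exact hex ⟨σ', fun z hz => (h' z hz).trans (h z hz).symm⟩
      simp only [β]
      rw [dif_neg hex, dif_neg hex']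
  · intro σ hσ τ hτ
    let σ' : Gal(Ω/E) := IntermediateField.fixingSubgroupEquiv E ⟨σ, hσ⟩
    let τ' : Gal(Ω/E) := IntermediateField.fixingSubgroupEquiv E ⟨τ, hτ⟩
    have hσ' : ∀ z, σ' z = σ z := fun z => rfl
    have hτ' : ∀ z, τ' z = τ z := fun z => rfl
    have e1 : β σ = b σ' := hβ σ σ' fun z _ => hσ' z
    have e2 : β τ = b τ' := hβ τ τ' fun z _ => hτ' z
    have e3 : β (σ * τ) = b (σ' * τ') := hβ (σ * τ) (σ' * τ') fun z _ => by
      rw [AlgEquiv.mul_apply, AlgEquiv.mul_apply, hσ', hτ']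
    have h1 := hb σ' τ'
    have h2 : resE E c σ' τ' = c σ τ := rfl
    rw [h2] at h1
    rw [h1]
    unfold dB
    rw [e1, e2, e3]
    change 1 * _ = _
    rw [one_mul]
    rfl

theorem resE_beq {F Ω : Type} [Field F] [Field Ω] [Algebra F Ω] [IsGalois F Ω]
    (E : IntermediateField F Ω) {c c' : Gal(Ω/F) → Gal(Ω/F) → Ωˣ} (h : BEq c c') :
    BEq (resE E c) (resE E c') := by
  obtain ⟨b, ⟨L, hLf, hLn, hL⟩, hb⟩ := h
  obtain ⟨M, hMf, hMn, hM⟩ := Ts_comp E L
  refine ⟨fun σ => b (σ.restrictScalars F), ⟨M, hMf, hMn, fun σ => hM _ (hL.1 _), ?_⟩, ?_⟩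
  · intro σ τ h
    exact hL.2 _ _ fun z hz => h z (hM z hz)
  · intro σ τ
    exact hb (σ.restrictScalars F) (τ.restrictScalars F)

/-- a field E between F and Omega with surjective norms of degree l splits all l-primary
classes. -/
theorem spl_of_nsprop {F Ω : Type} [Field F] [Field Ω] [Algebra F Ω] [IsGalois F Ω] {l : ℕ}
    [Fact l.Prime] (E : IntermediateField F Ω) (hE : NSprop l E)
    {c : Gal(Ω/F) → Gal(Ω/F) → Ωˣ} (hc : BC c) (s : ℕ)
    (hs : BEq (fun σ τ => c σ τ ^ l ^ s) c1) : Spl E c :=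
  spl_of_resE E (br_zero hE (resE_bc E hc) s (resE_beq E hs))

end W42
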