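import Pool.Agent.W_42fc02_h90.CsaB
import Pool.Agent.W_42fc02_h90.Ts

/-!
CsaC: A is split by E (F <= E -> Omega) iff the cocycle is a coboundary on H_E = automorphisms fixing E.

Proof of split_iff. (=>) E (x) A = M_m(E): m = |iota| by dimension (pos), so a representation
rho2 : A -> M_m(E) -> M_iota(Omega) (reindex) with entries in E, MatRep. skolem: rho2 = Q rho Q^-1. For
sigma in H_E sigma(rho2 a) = rho2 a, so P_sigma sigma(Q)^-1 Q commutes with rho(A): P_sigma =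
b_sigma Q^-1 sigma(Q), b_sigma in Omega*; extend b to all sigma by 1 where P_sigma is not of this form;
finite level: level of P and entries of Q. Then c = dB b on H_E.
(<=) on H_E P'_sigma = b_sigma^-1 P_sigma is a 1-cocycle: hilbert90 for P'' sigma = b_sigma^-1 P_sigma
(all sigma; level a common level of b and P). Q P'_sigma = sigma(Q). rho' a = Q rho a Q^-1 satisfies
sigma(rho' a) = rho' a for sigma in H_E, so the entries lie in E (Omega/E Galois, H_E = Gal(Omega/E)).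
rho' : E (x) A -> M_iota(E) is an isomorphism: the span of rho'(A) over Omega is everything, so rho'(A)
contains |iota|^2 elements independent over Omega: surjective; dimensions equal. Reindex iota = Fin m.
-/

namespace W42

open scoped TensorProduct

section
variable {F Ω A ι : Type} [Field F] [Field Ω] [Algebra F Ω] [Ring A] [Algebra F A]
  [Fintype ι] [DecidableEq ι]

/-- automorphisms of Omega / F fixing the image of E -/
def HE (F E Ω : Type) [Field F] [Field E] [Field Ω] [Algebra F Ω] [Algebra E Ω] :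
    Subgroup Gal(Ω/F) where
  carrier := {σ | ∀ z : E, σ (algebraMap E Ω z) = algebraMap E Ω z}
  mul_mem' := by
    intro σ τ hσ hτ z
    change σ (τ _) = _
    rw [hτ z, hσ z]
  one_mem' := fun z => rfl
  inv_mem' := by
    intro σ hσ z
    change σ⁻¹ _ = _
    conv_lhs => rw [← hσ z]
    exact σ.symm_apply_apply _

theorem CsaC_map_mul (σ : Gal(Ω/F)) (M N : Matrix ι ι Ω) :
    (M * N).map σ = M.map σ * N.map σ :=
  map_mul ((σ : Ω →ₐ[F] Ω).mapMatrix (m := ι)) M N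

theorem CsaC_map_one (σ : Gal(Ω/F)) : (1 : Matrix ι ι Ω).map σ = 1 :=
  map_one ((σ : Ω →ₐ[F] Ω).mapMatrix (m := ι))

omit [Fintype ι] [DecidableEq ι] in
theorem CsaC_map_smul (σ : Gal(Ω/F)) (x : Ω) (M : Matrix ι ι Ω) :
    (x • M).map σ = σ x • M.map σ := by
  ext i j
  exact map_mul σ x (M i j)

omit [Fintype ι] [DecidableEq ι] in
theorem CsaC_map_map (σ τ : Gal(Ω/F)) (M : Matrix ι ι Ω) :
    (M.map τ).map σ = M.map (σ * τ : Gal(Ω/F)) := rfl

theorem CsaC_inv_mul_map (σ : Gal(Ω/F)) (Q : (Matrix ι ι Ω)ˣ) :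
    ((Q⁻¹ : (Matrix ι ι Ω)ˣ) : Matrix ι ι Ω).map σ * (Q : Matrix ι ι Ω).map σ = 1 := by
  rw [← CsaC_map_mul, Units.inv_mul, CsaC_map_one]

theorem CsaC_mul_inv_map (σ : Gal(Ω/F)) (Q : (Matrix ι ι Ω)ˣ) :
    (Q : Matrix ι ι Ω).map σ * ((Q⁻¹ : (Matrix ι ι Ω)ˣ) : Matrix ι ι Ω).map σ = 1 := by
  rw [← CsaC_map_mul, Units.mul_inv, CsaC_map_one]

/-- cancellation of a scalar in front of an invertible matrix -/
theorem CsaC_cancel (hι : 0 < Fintype.card ι) {x y : Ω} {M N : Matrix ι ι Ω} (hMN : M * N = 1)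
    (h : x • M = y • M) : x = y := by
  have h1 : x • (1 : Matrix ι ι Ω) = y • (1 : Matrix ι ι Ω) := by
    rw [← hMN, ← smul_mul_assoc, h, smul_mul_assoc]
  obtain ⟨i⟩ := Fintype.card_pos_iff.1 hι
  have h2 := congrFun (congrFun h1 i) i
  simpa using h2

/-- a nonzero entry of an invertible matrix -/
theorem CsaC_entry (hι : 0 < Fintype.card ι) {M N : Matrix ι ι Ω} (hMN : M * N = 1) :
    ∃ i j, M i j ≠ 0 := by
  by_contra hcon
  push Not at hcon
  have h0 : M = 0 := by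
    ext i j
    exact hcon i j
  obtain ⟨i⟩ := Fintype.card_pos_iff.1 hι
  rw [h0, zero_mul] at hMN
  have h2 := congrFun (congrFun hMN i) i
  simp at h2

/-- conjugation of a representation -/
noncomputable def CsaC_conj (Q : (Matrix ι ι Ω)ˣ) (ρ : A →ₐ[F] Matrix ι ι Ω) :
    A →ₐ[F] Matrix ι ι Ω where
  toFun a := (Q : Matrix ι ι Ω) * ρ a * (Q⁻¹ : (Matrix ι ι Ω)ˣ)
  map_one' := by rw [map_one, mul_one, Units.mul_inv]
  map_mul' a b := by
    rw [map_mul]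
    calc (Q : Matrix ι ι Ω) * (ρ a * ρ b) * (Q⁻¹ : (Matrix ι ι Ω)ˣ)
        = Q * ρ a * 1 * ρ b * (Q⁻¹ : (Matrix ι ι Ω)ˣ) := by simp only [mul_assoc, mul_one, one_mul]
      _ = Q * ρ a * ((Q⁻¹ : (Matrix ι ι Ω)ˣ) * Q) * ρ b * (Q⁻¹ : (Matrix ι ι Ω)ˣ) := by
          rw [Units.inv_mul]
      _ = _ := by simp only [mul_assoc]
  map_zero' := by rw [map_zero, mul_zero, zero_mul]
  map_add' a b := by rw [map_add, mul_add, add_mul]
  commutes' r := by
    rw [AlgHom.commutes, ← Algebra.commutes, mul_assoc, Units.mul_inv, mul_one]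

theorem CsaC_conj_apply (Q : (Matrix ι ι Ω)ˣ) (ρ : A →ₐ[F] Matrix ι ι Ω) (a : A) :
    CsaC_conj Q ρ a = (Q : Matrix ι ι Ω) * ρ a * (Q⁻¹ : (Matrix ι ι Ω)ˣ) := rfl

theorem CsaC_conj_matRep (Q : (Matrix ι ι Ω)ˣ) {ρ : A →ₐ[F] Matrix ι ι Ω} (hρ : MatRep ρ) :
    MatRep (CsaC_conj Q ρ) := by
  refine ⟨?_, hρ.dim, hρ.pos⟩
  rw [eq_top_iff]
  intro M _
  have key : ∀ X ∈ Submodule.span Ω (Set.range ρ),
      (Q : Matrix ι ι Ω) * X * (Q⁻¹ : (Matrix ι ι Ω)ˣ) ∈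
        Submodule.span Ω (Set.range (CsaC_conj Q ρ)) := by
    intro X hX
    induction hX using Submodule.span_induction with
    | mem x hx =>
      obtain ⟨a, rfl⟩ := hx
      exact Submodule.subset_span ⟨a, rfl⟩
    | zero =>
      rw [mul_zero, zero_mul]
      exact Submodule.zero_mem _
    | add x y _ _ hx hy =>
      rw [mul_add, add_mul]
      exact Submodule.add_mem _ hx hy
    | smul c x _ hx =>
      rw [mul_smul_comm, smul_mul_assoc]
      exact Submodule.smul_mem _ _ hx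
  have h1 := key (((Q⁻¹ : (Matrix ι ι Ω)ˣ) : Matrix ι ι Ω) * M * Q)
    (by rw [hρ.span]; exact Submodule.mem_top)
  have h2 : (Q : Matrix ι ι Ω) * (((Q⁻¹ : (Matrix ι ι Ω)ˣ) : Matrix ι ι Ω) * M * Q) *
      (Q⁻¹ : (Matrix ι ι Ω)ˣ) = M := by
    calc (Q : Matrix ι ι Ω) * (((Q⁻¹ : (Matrix ι ι Ω)ˣ) : Matrix ι ι Ω) * M * Q) *
      (Q⁻¹ : (Matrix ι ι Ω)ˣ) = (Q * (Q⁻¹ : (Matrix ι ι Ω)ˣ)) * M * (Q * (Q⁻¹ : (Matrix ι ι Ω)ˣ)) := by
          simp only [mul_assoc]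
      _ = M := by rw [Units.mul_inv, one_mul, mul_one]
  rwa [h2] at h1

/-- extension of scalars keeps the span -/
theorem CsaC_span (E : Type) [Field E] [Algebra F E] [Algebra E Ω] [IsScalarTower F E Ω]
    (ψ : A →ₐ[F] Matrix ι ι E) (hψ : Submodule.span E (Set.range ψ) = ⊤) :
    Submodule.span Ω (Set.range ((IsScalarTower.toAlgHom F E Ω).mapMatrix.comp ψ)) = ⊤ := by
  have key : ∀ X ∈ Submodule.span E (Set.range ψ), (X.map (algebraMap E Ω) : Matrix ι ι Ω) ∈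
      Submodule.span Ω (Set.range ((IsScalarTower.toAlgHom F E Ω).mapMatrix.comp ψ)) := by
    intro X hX
    induction hX using Submodule.span_induction with
    | mem x hx =>
      obtain ⟨a, rfl⟩ := hx
      exact Submodule.subset_span ⟨a, rfl⟩
    | zero =>
      rw [Matrix.map_zero _ (map_zero _)]
      exact Submodule.zero_mem _
    | add x y _ _ hx hy =>
      rw [Matrix.map_add _ (map_add _)]
      exact Submodule.add_mem _ hx hy
    | smul c x _ hx =>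
      have h1 : (c • x).map (algebraMap E Ω) = algebraMap E Ω c • x.map (algebraMap E Ω) := by
        ext i j
        exact map_mul (algebraMap E Ω) c (x i j)
      rw [h1]
      exact Submodule.smul_mem _ _ hx
  rw [eq_top_iff]
  intro M _
  rw [Matrix.matrix_eq_sum_single M]
  refine Submodule.sum_mem _ fun i _ => Submodule.sum_mem _ fun j _ => ?_
  have h1 := key (Matrix.single i j 1) (by rw [hψ]; exact Submodule.mem_top)
  have h2 : (Matrix.single i j (1 : E)).map (algebraMap E Ω) = Matrix.single i j (1 : Ω) := by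
    rw [Matrix.map_single, map_one]
  rw [h2] at h1
  have h3 : Matrix.single i j (M i j) = M i j • Matrix.single i j (1 : Ω) := by
    rw [Matrix.smul_single, smul_eq_mul, mul_one]
  rw [h3]
  exact Submodule.smul_mem _ _ h1

theorem CsaC_fixed [IsGalois F Ω] (E : Type) [Field E] [Algebra F E] [Algebra E Ω]
    [IsScalarTower F E Ω] {z : Ω} (h : ∀ σ ∈ HE F E Ω, σ z = z) :
    ∃ y : E, algebraMap E Ω y = z := by
  have h1 : z ∈ (IsScalarTower.toAlgHom F E Ω).fieldRange := by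
    apply GalC_mem_of_fixed
    intro σ hσ
    apply h
    intro y
    rw [IntermediateField.mem_fixingSubgroup_iff] at hσ
    exact hσ _ ⟨y, rfl⟩
  obtain ⟨y, hy⟩ := h1
  exact ⟨y, hy⟩

/-- a representation whose values are fixed by H_E gives a splitting -/
theorem CsaC_descend [IsGalois F Ω] (E : Type) [Field E] [Algebra F E] [Algebra E Ω]
    [IsScalarTower F E Ω] {ρ : A →ₐ[F] Matrix ι ι Ω} (hρ : MatRep ρ)
    (h : ∀ σ ∈ HE F E Ω, ∀ a, (ρ a).map σ = ρ a) :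
    ∃ m : ℕ, Nonempty ((E ⊗[F] A) ≃ₐ[E] Matrix (Fin m) (Fin m) E) := by
  obtain ⟨j, hj⟩ : ∃ j : Matrix ι ι E →ₐ[F] Matrix ι ι Ω,
      ∀ M, j M = M.map (algebraMap E Ω) :=
    ⟨(IsScalarTower.toAlgHom F E Ω).mapMatrix, fun _ => rfl⟩
  have hjinj : Function.Injective j := by
    intro M N hMN
    rw [hj, hj] at hMN
    ext i k
    exact (algebraMap E Ω).injective (congrFun (congrFun hMN i) k)
  have hrange : ∀ a, ρ a ∈ j.range := by
    intro a
    have h1 : ∀ i k, ∃ y : E, algebraMap E Ω y = ρ a i k := fun i k =>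
      CsaC_fixed (F := F) E fun σ hσ => congrFun (congrFun (h σ hσ a) i) k
    choose Y hY using h1
    refine ⟨Matrix.of Y, ?_⟩
    show j (Matrix.of Y) = ρ a
    rw [hj]
    ext i k
    exact hY i k
  let μ : A →ₐ[F] Matrix ι ι E :=
    ((AlgEquiv.ofInjective j hjinj).symm : j.range →ₐ[F] Matrix ι ι E).comp
      (ρ.codRestrict j.range hrange)
  have hμ : ∀ a, j (μ a) = ρ a := by
    intro a
    have h1 := (AlgEquiv.ofInjective j hjinj).apply_symm_apply (ρ.codRestrict j.range hrange a)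
    have h2 := congrArg (fun x : j.range => (x : Matrix ι ι Ω)) h1
    exact h2
  have hpos := hρ.pos
  have hfr : 0 < Module.finrank F A := by
    rw [hρ.dim]
    positivity
  have : Module.Finite F A := Module.finite_of_finrank_pos hfr
  let a := Module.finBasis F A
  have hli : LinearIndependent Ω (fun i => ρ (a i)) := by
    apply linearIndependent_of_top_le_span_of_card_eq_finrank
    · rw [← hρ.span, Submodule.span_le]
      rintro _ ⟨x, rfl⟩
      have h1 : ρ x = ∑ i, algebraMap F Ω (a.repr x i) • ρ (a i) := by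
        conv_lhs => rw [← a.sum_repr x]
        rw [map_sum]
        refine Finset.sum_congr rfl fun i _ => ?_
        rw [map_smul, algebraMap_smul]
      rw [h1]
      exact Submodule.sum_mem _ fun i _ => Submodule.smul_mem _ _
        (Submodule.subset_span ⟨i, rfl⟩)
    · rw [Module.finrank_matrix, Module.finrank_self, mul_one, Fintype.card_fin, hρ.dim, pow_two]
  have hliE : LinearIndependent E (fun i => μ (a i)) := by
    rw [Fintype.linearIndependent_iff]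
    intro g hg i
    have h1 : ∑ i, algebraMap E Ω (g i) • ρ (a i) = 0 := by
      have h2 := congrArg j hg
      rw [map_sum, map_zero] at h2
      rw [← h2]
      refine Finset.sum_congr rfl fun i _ => ?_
      rw [← hμ, hj, hj]
      ext i' k
      exact (map_mul (algebraMap E Ω) (g i) (μ (a i) i' k)).symm
    have h3 := Fintype.linearIndependent_iff.1 hli _ h1 i
    exact (map_eq_zero (algebraMap E Ω)).1 h3
  have hcard : Fintype.card (Fin (Module.finrank F A)) = Module.finrank E (Matrix ι ι E) := by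
    rw [Module.finrank_matrix, Module.finrank_self, mul_one, Fintype.card_fin, hρ.dim, pow_two]
  have : Nonempty (Fin (Module.finrank F A)) := ⟨⟨0, hfr⟩⟩
  have hspan := hliE.span_eq_top_of_card_eq_finrank hcard
  let Φ : E ⊗[F] A →ₐ[E] Matrix ι ι E :=
    Algebra.TensorProduct.lift (Algebra.ofId E _) μ fun x y => Algebra.commutes x (μ y)
  have hΦ : ∀ x, Φ (1 ⊗ₜ[F] x) = μ x := by
    intro x
    show Algebra.TensorProduct.lift (Algebra.ofId E _) μ _ (1 ⊗ₜ[F] x) = μ x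
    rw [Algebra.TensorProduct.lift_tmul, map_one, one_mul]
  have hsurj : Function.Surjective Φ := by
    intro M
    have h1 : M ∈ Submodule.span E (Set.range fun i => μ (a i)) := by
      rw [hspan]
      exact Submodule.mem_top
    have h2 : Submodule.span E (Set.range fun i => μ (a i)) ≤ LinearMap.range Φ.toLinearMap := by
      rw [Submodule.span_le]
      rintro _ ⟨i, rfl⟩
      exact ⟨1 ⊗ₜ[F] (a i), hΦ _⟩
    obtain ⟨y, hy⟩ := h2 h1
    exact ⟨y, hy⟩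
  have hdim : Module.finrank E (E ⊗[F] A) = Module.finrank E (Matrix ι ι E) := by
    rw [Module.finrank_baseChange, ← hcard, Fintype.card_fin]
  have hinj : Function.Injective Φ :=
    (LinearMap.injective_iff_surjective_of_finrank_eq_finrank (f := Φ.toLinearMap) hdim).2 hsurj
  exact ⟨Fintype.card ι, ⟨(AlgEquiv.ofBijective Φ ⟨hinj, hsurj⟩).trans
    (Matrix.reindexAlgEquiv E E (Fintype.equivFin ι))⟩⟩

/-- a splitting gives a representation whose values are fixed by H_E -/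
theorem CsaC_ascend (E : Type) [Field E] [Algebra F E] [Algebra E Ω]
    [IsScalarTower F E Ω] {ρ : A →ₐ[F] Matrix ι ι Ω} (hρ : MatRep ρ) {m : ℕ}
    (φ : (E ⊗[F] A) ≃ₐ[E] Matrix (Fin m) (Fin m) E) :
    ∃ ρ₂ : A →ₐ[F] Matrix ι ι Ω, MatRep ρ₂ ∧ ∀ σ ∈ HE F E Ω, ∀ a, (ρ₂ a).map σ = ρ₂ a := by
  have hm : m = Fintype.card ι := by
    have h1 : Module.finrank E (E ⊗[F] A) = Module.finrank E (Matrix (Fin m) (Fin m) E) :=
      φ.toLinearEquiv.finrank_eq
    rw [Module.finrank_baseChange, Module.finrank_matrix, Module.finrank_self, mul_one,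
      Fintype.card_fin, hρ.dim, pow_two] at h1
    exact (Nat.mul_self_inj.1 h1).symm
  let e : Fin m ≃ ι := (finCongr hm).trans (Fintype.equivFin ι).symm
  let φ' : (E ⊗[F] A) ≃ₐ[E] Matrix ι ι E := φ.trans (Matrix.reindexAlgEquiv E E e)
  let ψ : A →ₐ[F] Matrix ι ι E :=
    ((φ' : (E ⊗[F] A) →ₐ[E] Matrix ι ι E).restrictScalars F).comp
      Algebra.TensorProduct.includeRight
  have hψ : ∀ a, ψ a = φ' (1 ⊗ₜ[F] a) := fun a => rfl
  have hspan : Submodule.span E (Set.range ψ) = ⊤ := by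
    rw [eq_top_iff]
    intro X _
    have key : ∀ y : E ⊗[F] A, φ' y ∈ Submodule.span E (Set.range ψ) := by
      intro y
      induction y using TensorProduct.induction_on with
      | zero =>
        rw [map_zero]
        exact Submodule.zero_mem _
      | tmul x a =>
        have h1 : x ⊗ₜ[F] a = x • ((1 : E) ⊗ₜ[F] a) := by
          rw [TensorProduct.smul_tmul', smul_eq_mul, mul_one]
        rw [h1, map_smul, ← hψ]
        exact Submodule.smul_mem _ _ (Submodule.subset_span ⟨a, rfl⟩)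
      | add x y hx hy =>
        rw [map_add]
        exact Submodule.add_mem _ hx hy
    have h2 := key (φ'.symm X)
    rwa [AlgEquiv.apply_symm_apply] at h2
  refine ⟨(IsScalarTower.toAlgHom F E Ω).mapMatrix.comp ψ,
    ⟨CsaC_span E ψ hspan, hρ.dim, hρ.pos⟩, ?_⟩
  intro σ hσ a
  ext i k
  exact hσ (ψ a i k)

theorem split_iff (E : Type) [Field E] [Algebra F E] [Algebra E Ω] [IsScalarTower F E Ω]
    [IsGalois F Ω] {ρ : A →ₐ[F] Matrix ι ι Ω} (hρ : MatRep ρ)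
    {P : Gal(Ω/F) → (Matrix ι ι Ω)ˣ} {c : Gal(Ω/F) → Gal(Ω/F) → Ωˣ} (h : RepCoc ρ P c) :
    (∃ m : ℕ, Nonempty ((E ⊗[F] A) ≃ₐ[E] Matrix (Fin m) (Fin m) E)) ↔
      ∃ b : Gal(Ω/F) → Ωˣ, Fin1 b ∧ ∀ σ ∈ HE F E Ω, ∀ τ ∈ HE F E Ω, c σ τ = dB b σ τ := by
  classical
  have hpos := hρ.pos
  constructor
  · rintro ⟨m, ⟨φ⟩⟩
    obtain ⟨ρ₂, hρ₂, hfix⟩ := CsaC_ascend E hρ φ
    obtain ⟨Q, hQ⟩ := skolem hρ hρ₂
    -- the relation
    have hrel : ∀ σ ∈ HE F E Ω, ∃ y : Ωˣ, (P σ : Matrix ι ι Ω) =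
        (y : Ω) • (((Q⁻¹ : (Matrix ι ι Ω)ˣ) : Matrix ι ι Ω) * (Q : Matrix ι ι Ω).map σ) := by
      intro σ hσ
      obtain ⟨S, hS⟩ : ∃ S : Matrix ι ι Ω, S = (Q : Matrix ι ι Ω).map σ := ⟨_, rfl⟩
      obtain ⟨S', hS'⟩ : ∃ S' : Matrix ι ι Ω,
        S' = ((Q⁻¹ : (Matrix ι ι Ω)ˣ) : Matrix ι ι Ω).map σ := ⟨_, rfl⟩
      obtain ⟨q, hq⟩ : ∃ q : Matrix ι ι Ω, q = (Q : Matrix ι ι Ω) := ⟨_, rfl⟩
      obtain ⟨q', hq'⟩ : ∃ q' : Matrix ι ι Ω, q' = ((Q⁻¹ : (Matrix ι ι Ω)ˣ) : Matrix ι ι Ω) :=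
        ⟨_, rfl⟩
      obtain ⟨p, hp⟩ : ∃ p : Matrix ι ι Ω, p = (P σ : Matrix ι ι Ω) := ⟨_, rfl⟩
      obtain ⟨p', hp'⟩ : ∃ p' : Matrix ι ι Ω,
        p' = (((P σ)⁻¹ : (Matrix ι ι Ω)ˣ) : Matrix ι ι Ω) := ⟨_, rfl⟩
      have hSS' : S * S' = 1 := by rw [hS, hS', CsaC_mul_inv_map]
      have hS'S : S' * S = 1 := by rw [hS, hS', CsaC_inv_mul_map]
      have hqq' : q * q' = 1 := by rw [hq, hq', Units.mul_inv]
      have hq'q : q' * q = 1 := by rw [hq, hq', Units.inv_mul]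
      have hpp' : p * p' = 1 := by rw [hp, hp', Units.mul_inv]
      have hp'p : p' * p = 1 := by rw [hp, hp', Units.inv_mul]
      have h1 : ∀ a, (q' * S * p') * ρ a = ρ a * (q' * S * p') := by
        intro a
        have r1 := h.rel σ a
        rw [← hp] at r1
        have r2 : p' * ρ a = (ρ a).map σ * p' := by
          calc p' * ρ a = p' * ρ a * (p * p') := by rw [hpp', mul_one]
            _ = p' * (ρ a * p) * p' := by simp only [mul_assoc]
            _ = p' * (p * (ρ a).map σ) * p' := by rw [r1]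
            _ = (p' * p) * (ρ a).map σ * p' := by simp only [mul_assoc]
            _ = (ρ a).map σ * p' := by rw [hp'p, one_mul]
        have r3 : S * (ρ a).map σ * S' = q * ρ a * q' := by
          have r4 := hfix σ hσ a
          rw [hQ a, CsaC_map_mul, CsaC_map_mul, ← hS, ← hS', ← hq, ← hq'] at r4
          exact r4
        calc (q' * S * p') * ρ a = q' * S * (p' * ρ a) := by simp only [mul_assoc]
          _ = q' * S * ((ρ a).map σ * p') := by rw [r2]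
          _ = q' * (S * (ρ a).map σ * 1) * p' := by simp only [mul_assoc, mul_one, one_mul]
          _ = q' * (S * (ρ a).map σ * (S' * S)) * p' := by rw [hS'S]
          _ = q' * (S * (ρ a).map σ * S') * S * p' := by simp only [mul_assoc]
          _ = q' * (q * ρ a * q') * S * p' := by rw [r3]
          _ = (q' * q) * ρ a * (q' * S * p') := by simp only [mul_assoc]
          _ = ρ a * (q' * S * p') := by rw [hq'q, one_mul]
      obtain ⟨x, hx⟩ := commute_scalar hρ (q' * S * p') h1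
      have hxp : q' * S = x • p := by
        calc q' * S = q' * S * (p' * p) := by rw [hp'p, mul_one]
          _ = (q' * S * p') * p := by simp only [mul_assoc]
          _ = x • p := by rw [hx, smul_mul_assoc, one_mul]
      have hx0 : x ≠ 0 := by
        rintro rfl
        rw [zero_smul] at hxp
        have h2 : (q' * S) * (S' * q) = 1 := by
          calc (q' * S) * (S' * q) = q' * (S * S') * q := by simp only [mul_assoc]
            _ = 1 := by rw [hSS', mul_one, hq'q]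
        rw [hxp, zero_mul] at h2
        obtain ⟨i⟩ := Fintype.card_pos_iff.1 hpos
        have h3 := congrFun (congrFun h2 i) i
        simp at h3
      refine ⟨Units.mk0 x⁻¹ (inv_ne_zero hx0), ?_⟩
      rw [← hp, ← hq', ← hS, hxp, Units.val_mk0, smul_smul, inv_mul_cancel₀ hx0, one_smul]
    -- the cochain
    obtain ⟨b, hb1, hb2⟩ : ∃ b : Gal(Ω/F) → Ωˣ,
        (∀ σ, (∃ y : Ωˣ, (P σ : Matrix ι ι Ω) =
          (y : Ω) • (((Q⁻¹ : (Matrix ι ι Ω)ˣ) : Matrix ι ι Ω) * (Q : Matrix ι ι Ω).map σ)) →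
          (P σ : Matrix ι ι Ω) =
          (b σ : Ω) • (((Q⁻¹ : (Matrix ι ι Ω)ˣ) : Matrix ι ι Ω) * (Q : Matrix ι ι Ω).map σ)) ∧
        (∀ σ, (¬ ∃ y : Ωˣ, (P σ : Matrix ι ι Ω) =
          (y : Ω) • (((Q⁻¹ : (Matrix ι ι Ω)ˣ) : Matrix ι ι Ω) * (Q : Matrix ι ι Ω).map σ)) →
          b σ = 1) := by
      refine ⟨fun σ => if hσ : ∃ y : Ωˣ, (P σ : Matrix ι ι Ω) =
        (y : Ω) • (((Q⁻¹ : (Matrix ι ι Ω)ˣ) : Matrix ι ι Ω) * (Q : Matrix ι ι Ω).map σ)
        then hσ.choose else 1, fun σ hσ => ?_, fun σ hσ => ?_⟩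
      · show (P σ : Matrix ι ι Ω) = ((dite _ _ _ : Ωˣ) : Ω) • _
        rw [dif_pos hσ]
        exact hσ.choose_spec
      · show dite _ _ _ = (1 : Ωˣ)
        rw [dif_neg hσ]
    have hinvM : ∀ σ : Gal(Ω/F), (((Q⁻¹ : (Matrix ι ι Ω)ˣ) : Matrix ι ι Ω) *
        (Q : Matrix ι ι Ω).map σ) * (((Q⁻¹ : (Matrix ι ι Ω)ˣ) : Matrix ι ι Ω).map σ *
        (Q : Matrix ι ι Ω)) = 1 := by
      intro σ
      calc (((Q⁻¹ : (Matrix ι ι Ω)ˣ) : Matrix ι ι Ω) *
        (Q : Matrix ι ι Ω).map σ) * (((Q⁻¹ : (Matrix ι ι Ω)ˣ) : Matrix ι ι Ω).map σ *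
        (Q : Matrix ι ι Ω)) = ((Q⁻¹ : (Matrix ι ι Ω)ˣ) : Matrix ι ι Ω) *
        ((Q : Matrix ι ι Ω).map σ * ((Q⁻¹ : (Matrix ι ι Ω)ˣ) : Matrix ι ι Ω).map σ) *
        (Q : Matrix ι ι Ω) := by simp only [mul_assoc]
        _ = 1 := by rw [CsaC_mul_inv_map, mul_one, Units.inv_mul]
    obtain ⟨L₁, hL1f, hL1n, hL1a, hL1b⟩ := h.lev
    obtain ⟨L₂, hL2f, hL2n, hL2⟩ := exists_normal_mem (F := F)
      ((Finset.univ.image fun ij : ι × ι => (Q : Matrix ι ι Ω) ij.1 ij.2) ∪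
        (Finset.univ.image fun ij : ι × ι =>
          ((Q⁻¹ : (Matrix ι ι Ω)ˣ) : Matrix ι ι Ω) ij.1 ij.2))
    have hQ1 : ∀ i j, (Q : Matrix ι ι Ω) i j ∈ L₂ := fun i j =>
      hL2 _ (Finset.mem_union_left _ (Finset.mem_image.2 ⟨(i, j), Finset.mem_univ _, rfl⟩))
    have hQ2 : ∀ i j, ((Q⁻¹ : (Matrix ι ι Ω)ˣ) : Matrix ι ι Ω) i j ∈ L₂ := fun i j =>
      hL2 _ (Finset.mem_union_right _ (Finset.mem_image.2 ⟨(i, j), Finset.mem_univ _, rfl⟩))
    obtain ⟨L, hLf, hLn, hL₁, hL₂⟩ := exists_normal_sup L₁ L₂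
    have hmapL : ∀ (σ : Gal(Ω/F)) (z : Ω), z ∈ L → σ z ∈ L := by
      intro σ z hz
      have h1 := AlgEquiv.restrictNormalHom_apply L σ ⟨z, hz⟩
      rw [← h1]
      exact (AlgEquiv.restrictNormalHom L σ ⟨z, hz⟩).2
    have hMmem : ∀ (σ : Gal(Ω/F)) i j, (((Q⁻¹ : (Matrix ι ι Ω)ˣ) : Matrix ι ι Ω) *
        (Q : Matrix ι ι Ω).map σ) i j ∈ L := by
      intro σ i j
      rw [Matrix.mul_apply]
      exact sum_mem fun k _ => mul_mem (hL₂ (hQ2 i k)) (hmapL σ _ (hL₂ (hQ1 k j)))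
    refine ⟨b, ⟨L, hLf, hLn, fun σ => ?_, fun σ τ hστ => ?_⟩, fun σ hσ τ hτ => ?_⟩
    · by_cases hσ : ∃ y : Ωˣ, (P σ : Matrix ι ι Ω) =
          (y : Ω) • (((Q⁻¹ : (Matrix ι ι Ω)ˣ) : Matrix ι ι Ω) * (Q : Matrix ι ι Ω).map σ)
      · have h1 := hb1 σ hσ
        obtain ⟨i, j, hij⟩ := CsaC_entry hpos (hinvM σ)
        have h2 := congrFun (congrFun h1 i) j
        rw [Matrix.smul_apply, smul_eq_mul] at h2
        have h3 : (b σ : Ω) = (P σ : Matrix ι ι Ω) i j *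
            ((((Q⁻¹ : (Matrix ι ι Ω)ˣ) : Matrix ι ι Ω) * (Q : Matrix ι ι Ω).map σ) i j)⁻¹ := by
          rw [h2, mul_inv_cancel_right₀ hij]
        rw [h3]
        exact mul_mem (hL₁ (hL1a σ i j)) (inv_mem (hMmem σ i j))
      · rw [hb2 σ hσ]
        exact one_mem L
    · have hP : P σ = P τ := hL1b σ τ fun z hz => hστ z (hL₁ hz)
      have hQm : (Q : Matrix ι ι Ω).map σ = (Q : Matrix ι ι Ω).map τ := by
        ext i j
        exact hστ _ (hL₂ (hQ1 i j))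
      by_cases hσ : ∃ y : Ωˣ, (P σ : Matrix ι ι Ω) =
          (y : Ω) • (((Q⁻¹ : (Matrix ι ι Ω)ˣ) : Matrix ι ι Ω) * (Q : Matrix ι ι Ω).map σ)
      · have hτ : ∃ y : Ωˣ, (P τ : Matrix ι ι Ω) =
          (y : Ω) • (((Q⁻¹ : (Matrix ι ι Ω)ˣ) : Matrix ι ι Ω) * (Q : Matrix ι ι Ω).map τ) := by
          rw [← hP, ← hQm]
          exact hσ
        have h1 := hb1 σ hσ
        have h2 := hb1 τ hτ
        rw [← hP, ← hQm, h1] at h2
        exact Units.ext (CsaC_cancel hpos (hinvM σ) h2)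
      · have hτ : ¬ ∃ y : Ωˣ, (P τ : Matrix ι ι Ω) =
          (y : Ω) • (((Q⁻¹ : (Matrix ι ι Ω)ˣ) : Matrix ι ι Ω) * (Q : Matrix ι ι Ω).map τ) := by
          rw [← hP, ← hQm]
          exact hσ
        rw [hb2 σ hσ, hb2 τ hτ]
    · have h1 := hb1 σ (hrel σ hσ)
      have h2 := hb1 τ (hrel τ hτ)
      have h3 := hb1 (σ * τ) (hrel (σ * τ) (mul_mem hσ hτ))
      have h4 := h.coc σ τ
      rw [h1, h2, h3, CsaC_map_smul, CsaC_map_mul, CsaC_map_map, smul_mul_assoc,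
        mul_smul_comm, smul_smul, smul_smul] at h4
      have h5 : ((Q⁻¹ : (Matrix ι ι Ω)ˣ) : Matrix ι ι Ω) * (Q : Matrix ι ι Ω).map σ *
          (((Q⁻¹ : (Matrix ι ι Ω)ˣ) : Matrix ι ι Ω).map σ *
            (Q : Matrix ι ι Ω).map (σ * τ : Gal(Ω/F))) =
          ((Q⁻¹ : (Matrix ι ι Ω)ˣ) : Matrix ι ι Ω) *
            (Q : Matrix ι ι Ω).map (σ * τ : Gal(Ω/F)) := by
        calc ((Q⁻¹ : (Matrix ι ι Ω)ˣ) : Matrix ι ι Ω) * (Q : Matrix ι ι Ω).map σ *
          (((Q⁻¹ : (Matrix ι ι Ω)ˣ) : Matrix ι ι Ω).map σ *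
            (Q : Matrix ι ι Ω).map (σ * τ : Gal(Ω/F))) =
          ((Q⁻¹ : (Matrix ι ι Ω)ˣ) : Matrix ι ι Ω) * ((Q : Matrix ι ι Ω).map σ *
          ((Q⁻¹ : (Matrix ι ι Ω)ˣ) : Matrix ι ι Ω).map σ) *
            (Q : Matrix ι ι Ω).map (σ * τ : Gal(Ω/F)) := by simp only [mul_assoc]
          _ = _ := by rw [CsaC_mul_inv_map, mul_one]
      rw [h5] at h4
      have h6 := CsaC_cancel hpos (hinvM (σ * τ)) h4
      unfold dB
      rw [eq_div_iff_mul_eq']
      apply Units.ext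
      rw [Units.val_mul, Units.val_mul, ← h6]
      rfl
  · rintro ⟨b, ⟨L₂, hL2f, hL2n, hL2⟩, hb⟩
    obtain ⟨L₁, hL1f, hL1n, hL1a, hL1b⟩ := h.lev
    obtain ⟨L, hLf, hLn, hL₁, hL₂⟩ := exists_normal_sup L₁ L₂
    obtain ⟨P', hP'⟩ : ∃ P' : Gal(Ω/F) → (Matrix ι ι Ω)ˣ, ∀ σ, P' σ =
        Units.map (algebraMap Ω (Matrix ι ι Ω) : Ω →* Matrix ι ι Ω) (b σ)⁻¹ * P σ :=
      ⟨_, fun _ => rfl⟩
    have hP'v : ∀ σ, (P' σ : Matrix ι ι Ω) = ((b σ : Ω))⁻¹ • (P σ : Matrix ι ι Ω) := by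
      intro σ
      rw [hP', Units.val_mul, Algebra.smul_def, Units.coe_map, Units.val_inv_eq_inv_val]
      rfl
    obtain ⟨Q, hQ⟩ := hilbert90 (HE F E Ω) P' (by
      intro σ hσ τ hτ
      rw [hP'v, hP'v, hP'v, CsaC_map_smul, smul_mul_assoc, mul_smul_comm, h.coc, smul_smul,
        smul_smul, map_inv₀]
      congr 1
      have h1 := hb σ hσ τ hτ
      unfold dB at h1
      rw [eq_div_iff_mul_eq'] at h1
      have h2 := congrArg (fun u : Ωˣ => (u : Ω)) h1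
      have h3 : (c σ τ : Ω) * (b (σ * τ) : Ω) = (b σ : Ω) * σ (b τ : Ω) := h2
      have n1 : (b σ : Ω) ≠ 0 := (b σ).ne_zero
      have n2 : σ (b τ : Ω) ≠ 0 := (map_ne_zero σ).2 (b τ).ne_zero
      have n3 : (b (σ * τ) : Ω) ≠ 0 := (b (σ * τ)).ne_zero
      field_simp
      rw [← h3]
      ring) (by
      refine ⟨L, hLf, hLn, fun σ i j => ?_, fun σ τ hστ => ?_⟩
      · rw [hP'v, Matrix.smul_apply, smul_eq_mul]
        exact mul_mem (inv_mem (hL₂ (hL2.1 σ))) (hL₁ (hL1a σ i j))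
      · rw [hP', hP', hL1b σ τ fun z hz => hστ z (hL₁ hz),
          hL2.2 σ τ fun z hz => hστ z (hL₂ hz)])
    refine CsaC_descend E (CsaC_conj_matRep Q hρ) ?_
    intro σ hσ a
    rw [CsaC_conj_apply, CsaC_map_mul, CsaC_map_mul, ← hQ σ hσ]
    obtain ⟨S', hS'⟩ : ∃ S' : Matrix ι ι Ω,
      S' = ((Q⁻¹ : (Matrix ι ι Ω)ˣ) : Matrix ι ι Ω).map σ := ⟨_, rfl⟩
    have h1 : ((Q : Matrix ι ι Ω) * (P' σ : Matrix ι ι Ω)) * S' = 1 := by
      rw [hQ σ hσ, hS', CsaC_mul_inv_map]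
    have h2 : (P' σ : Matrix ι ι Ω) * (ρ a).map σ = ρ a * (P' σ : Matrix ι ι Ω) := by
      rw [hP'v, smul_mul_assoc, mul_smul_comm, h.rel]
    have h3 : (P' σ : Matrix ι ι Ω) * S' = ((Q⁻¹ : (Matrix ι ι Ω)ˣ) : Matrix ι ι Ω) := by
      calc (P' σ : Matrix ι ι Ω) * S' =
          (((Q⁻¹ : (Matrix ι ι Ω)ˣ) : Matrix ι ι Ω) * Q) * ((P' σ : Matrix ι ι Ω) * S') := by
            rw [Units.inv_mul, one_mul]
        _ = ((Q⁻¹ : (Matrix ι ι Ω)ˣ) : Matrix ι ι Ω) *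
            (((Q : Matrix ι ι Ω) * (P' σ : Matrix ι ι Ω)) * S') := by simp only [mul_assoc]
        _ = ((Q⁻¹ : (Matrix ι ι Ω)ˣ) : Matrix ι ι Ω) := by rw [h1, mul_one]
    rw [← hS']
    calc (Q : Matrix ι ι Ω) * (P' σ : Matrix ι ι Ω) * (ρ a).map σ * S' =
        (Q : Matrix ι ι Ω) * ((P' σ : Matrix ι ι Ω) * (ρ a).map σ) * S' := by
          simp only [mul_assoc]
      _ = (Q : Matrix ι ι Ω) * (ρ a * (P' σ : Matrix ι ι Ω)) * S' := by rw [h2]
      _ = (Q : Matrix ι ι Ω) * ρ a * ((P' σ : Matrix ι ι Ω) * S') := by simp only [mul_assoc]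
      _ = (Q : Matrix ι ι Ω) * ρ a * ((Q⁻¹ : (Matrix ι ι Ω)ˣ) : Matrix ι ι Ω) := by rw [h3]

theorem CsaC_mem_HE (K : IntermediateField F Ω) (σ : Gal(Ω/F)) :
    σ ∈ HE F K Ω ↔ σ ∈ K.fixingSubgroup := by
  rw [IntermediateField.mem_fixingSubgroup_iff]
  constructor
  · intro h z hz
    exact h ⟨z, hz⟩
  · intro h z
    exact h z z.2

theorem split_iff_spl [IsGalois F Ω] (K : IntermediateField F Ω) {ρ : A →ₐ[F] Matrix ι ι Ω}
    (hρ : MatRep ρ) {P : Gal(Ω/F) → (Matrix ι ι Ω)ˣ} {c : Gal(Ω/F) → Gal(Ω/F) → Ωˣ}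
    (h : RepCoc ρ P c) :
    (∃ m : ℕ, Nonempty ((K ⊗[F] A) ≃ₐ[K] Matrix (Fin m) (Fin m) K)) ↔ Spl K c := by
  rw [split_iff K hρ h]
  unfold Spl
  simp only [CsaC_mem_HE]

theorem split_iff_beq [IsGalois F Ω] {ρ : A →ₐ[F] Matrix ι ι Ω}
    (hρ : MatRep ρ) {P : Gal(Ω/F) → (Matrix ι ι Ω)ˣ} {c : Gal(Ω/F) → Gal(Ω/F) → Ωˣ}
    (h : RepCoc ρ P c) :
    (∃ m : ℕ, Nonempty (A ≃ₐ[F] Matrix (Fin m) (Fin m) F)) ↔ BEq c c1 := by
  have h1 : (∃ m : ℕ, Nonempty (A ≃ₐ[F] Matrix (Fin m) (Fin m) F)) ↔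
      ∃ m : ℕ, Nonempty ((F ⊗[F] A) ≃ₐ[F] Matrix (Fin m) (Fin m) F) := by
    constructor
    · rintro ⟨m, ⟨φ⟩⟩
      exact ⟨m, ⟨(Algebra.TensorProduct.lid F A).trans φ⟩⟩
    · rintro ⟨m, ⟨φ⟩⟩
      exact ⟨m, ⟨(Algebra.TensorProduct.lid F A).symm.trans φ⟩⟩
  rw [h1, split_iff F hρ h]
  constructor
  · rintro ⟨b, hb1, hb2⟩
    refine ⟨b, hb1, fun σ τ => ?_⟩
    have h2 := hb2 σ (fun z => σ.commutes z) τ (fun z => τ.commutes z)
    rw [h2]
    exact (one_mul _).symm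
  · rintro ⟨b, hb1, hb2⟩
    refine ⟨b, hb1, fun σ _ τ _ => ?_⟩
    rw [hb2 σ τ]
    exact one_mul _

end

end W42
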