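import Pool.Agent.W_42fc02_h90.CsaC

/-!
CsaD: tensor powers. B = tensor power of A over Fin n; rho_n : B -> M_J(Omega), J = (Fin n -> iota),
rho_n (a_1 (x) .. (x) a_n) (f, g) = prod_i (rho a_i) (f i) (g i)
(PiTensorProduct.lift of a multilinear map; multiplicative by Finset.prod_univ_sum and
PiTensorProduct.ext), P_n sigma (f, g) = prod_i P_sigma (f i) (g i), cocycle c^n.
MatRep: the matrix unit E_(f,g) is the product of the E_(f i, g i), each in the Omega-span of
rho(A); dim B = (dim A)^n (finrank of PiTensorProduct: induction by tmulEquiv / Basis.piTensorProduct).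
-/

namespace W42

open scoped TensorProduct

/-- the Kronecker product of a family of matrices, as a multilinear map -/
def CsaD_kron (Ω ι : Type) [Field Ω] (n : ℕ) :
    MultilinearMap Ω (fun _ : Fin n => Matrix ι ι Ω) (Matrix (Fin n → ι) (Fin n → ι) Ω) where
  toFun X := Matrix.of fun f g => ∏ i, X i (f i) (g i)
  map_update_add' := by
    intro _ X i x y
    ext f g
    simp only [Matrix.of_apply, Matrix.add_apply]
    rw [← Finset.mul_prod_erase _ _ (Finset.mem_univ i),
      ← Finset.mul_prod_erase _ _ (Finset.mem_univ i),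
      ← Finset.mul_prod_erase _ _ (Finset.mem_univ i)]
    have h : ∀ z : Matrix ι ι Ω, ∏ j ∈ Finset.univ.erase i, Function.update X i z j (f j) (g j) =
        ∏ j ∈ Finset.univ.erase i, X j (f j) (g j) := by
      intro z
      refine Finset.prod_congr rfl fun j hj => ?_
      rw [Function.update_of_ne (Finset.ne_of_mem_erase hj)]
    rw [h, h, h]
    simp only [Function.update_self, Matrix.add_apply]
    ring
  map_update_smul' := by
    intro _ X i c x
    ext f g
    simp only [Matrix.of_apply, Matrix.smul_apply]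
    rw [← Finset.mul_prod_erase _ _ (Finset.mem_univ i),
      ← Finset.mul_prod_erase _ _ (Finset.mem_univ i)]
    have h : ∀ z : Matrix ι ι Ω, ∏ j ∈ Finset.univ.erase i, Function.update X i z j (f j) (g j) =
        ∏ j ∈ Finset.univ.erase i, X j (f j) (g j) := by
      intro z
      refine Finset.prod_congr rfl fun j hj => ?_
      rw [Function.update_of_ne (Finset.ne_of_mem_erase hj)]
    rw [h, h]
    simp only [Function.update_self, Matrix.smul_apply, smul_eq_mul]
    ring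

theorem CsaD_kron_apply {Ω ι : Type} [Field Ω] {n : ℕ} (X : Fin n → Matrix ι ι Ω)
    (f g : Fin n → ι) : CsaD_kron Ω ι n X f g = ∏ i, X i (f i) (g i) := rfl

theorem CsaD_kron_one {Ω ι : Type} [Field Ω] [DecidableEq ι] {n : ℕ} :
    CsaD_kron Ω ι n 1 = 1 := by
  ext f g
  rw [CsaD_kron_apply]
  by_cases h : f = g
  · subst h
    simp
  · rw [Matrix.one_apply_ne h]
    obtain ⟨i, hi⟩ := Function.ne_iff.1 h
    refine Finset.prod_eq_zero (Finset.mem_univ i) ?_
    change (1 : Matrix ι ι Ω) (f i) (g i) = 0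
    exact Matrix.one_apply_ne hi

theorem CsaD_kron_mul {Ω ι : Type} [Field Ω] [Fintype ι] [DecidableEq ι] {n : ℕ}
    (X Y : Fin n → Matrix ι ι Ω) :
    CsaD_kron Ω ι n (X * Y) = CsaD_kron Ω ι n X * CsaD_kron Ω ι n Y := by
  ext f g
  rw [CsaD_kron_apply, Matrix.mul_apply]
  simp only [CsaD_kron_apply, Pi.mul_apply, Matrix.mul_apply]
  rw [Finset.prod_univ_sum, Fintype.piFinset_univ]
  refine Finset.sum_congr rfl fun h _ => ?_
  rw [Finset.prod_mul_distrib]

theorem CsaD_kron_map {Ω ι : Type} [Field Ω] {n : ℕ} (s : Ω →+* Ω)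
    (X : Fin n → Matrix ι ι Ω) :
    (CsaD_kron Ω ι n X).map s = CsaD_kron Ω ι n (fun i => (X i).map s) := by
  ext f g
  rw [Matrix.map_apply, CsaD_kron_apply, CsaD_kron_apply, map_prod]
  rfl

theorem CsaD_kron_single {Ω ι : Type} [Field Ω] [DecidableEq ι] {n : ℕ}
    (f g : Fin n → ι) : CsaD_kron Ω ι n (fun i => Matrix.single (f i) (g i) 1) =
      Matrix.single f g 1 := by
  ext f' g'
  rw [CsaD_kron_apply]
  by_cases h : f = f' ∧ g = g'
  · obtain ⟨rfl, rfl⟩ := h
    simp
  · rw [Matrix.single_apply_of_ne _ _ _ _ _ h]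
    by_contra hne
    apply h
    have h1 : ∀ i, f i = f' i ∧ g i = g' i := by
      intro i
      by_contra hi
      apply hne
      refine Finset.prod_eq_zero (Finset.mem_univ i) ?_
      exact Matrix.single_apply_of_ne _ _ _ _ _ hi
    exact ⟨funext fun i => (h1 i).1, funext fun i => (h1 i).2⟩

section
variable {F Ω A ι : Type} [Field F] [Field Ω] [Algebra F Ω] [Ring A] [Algebra F A]
  [Fintype ι] [DecidableEq ι]

/-- the n-th tensor power of a matrix representation -/
noncomputable def CsaD_pow (ρ : A →ₐ[F] Matrix ι ι Ω) (n : ℕ) :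
    (⨂[F] _ : Fin n, A) →ₐ[F] Matrix (Fin n → ι) (Fin n → ι) Ω :=
  PiTensorProduct.liftAlgHom
    (((CsaD_kron Ω ι n).restrictScalars F).compLinearMap fun _ => ρ.toLinearMap)
    (by
      change CsaD_kron Ω ι n (fun i => ρ ((1 : Fin n → A) i)) = 1
      rw [← CsaD_kron_one]
      congr 1
      funext i
      simp)
    (by
      intro x y
      change CsaD_kron Ω ι n (fun i => ρ ((x * y) i)) =
        CsaD_kron Ω ι n (fun i => ρ (x i)) * CsaD_kron Ω ι n (fun i => ρ (y i))
      rw [← CsaD_kron_mul]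
      congr 1
      funext i
      simp)

theorem CsaD_pow_tprod (ρ : A →ₐ[F] Matrix ι ι Ω) (n : ℕ) (x : Fin n → A) :
    CsaD_pow ρ n (PiTensorProduct.tprod F x) = CsaD_kron Ω ι n (fun i => ρ (x i)) := by
  rw [CsaD_pow, PiTensorProduct.liftAlgHom_apply, PiTensorProduct.lift.tprod]
  rfl

theorem CsaD_matRep {ρ : A →ₐ[F] Matrix ι ι Ω} (hρ : MatRep ρ) (n : ℕ) :
    MatRep (CsaD_pow ρ n) := by
  classical
  refine ⟨?_, ?_, ?_⟩
  · set S := Submodule.span Ω (Set.range (CsaD_pow ρ n)) with hS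
    have h0 : S.mkQ.compMultilinearMap (CsaD_kron Ω ι n) = 0 := by
      refine MultilinearMap.ext_of_span_eq_top (g := fun (_ : Fin n) (a : A) => ρ a)
        (fun _ => hρ.span) fun j => ?_
      change S.mkQ (CsaD_kron Ω ι n fun i => ρ (j i)) = 0
      rw [← CsaD_pow_tprod, Submodule.mkQ_apply, Submodule.Quotient.mk_eq_zero]
      exact Submodule.subset_span ⟨_, rfl⟩
    have h1 : ∀ X, CsaD_kron Ω ι n X ∈ S := by
      intro X
      have := congrArg (fun m => m X) h0
      exact (Submodule.Quotient.mk_eq_zero S).1 this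
    rw [eq_top_iff]
    intro M _
    rw [Matrix.matrix_eq_sum_single M]
    refine sum_mem fun f _ => sum_mem fun g _ => ?_
    have h2 : Matrix.single f g (M f g) = M f g • CsaD_kron Ω ι n
        (fun i => Matrix.single (f i) (g i) 1) := by
      rw [CsaD_kron_single, Matrix.smul_single, smul_eq_mul, mul_one]
    rw [h2]
    exact S.smul_mem _ (h1 _)
  · have hfin : Module.Finite F A := by
      refine Module.finite_of_finrank_pos ?_
      rw [hρ.dim]
      have := hρ.pos
      positivity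
    let b := Module.finBasis F A
    have h1 := Module.finrank_eq_card_basis (Basis.piTensorProduct (ι := Fin n) (fun _ => b))
    rw [h1, Fintype.card_fun, Fintype.card_fin, Fintype.card_fin, hρ.dim, Fintype.card_fun,
      Fintype.card_fin]
    ring
  · rw [Fintype.card_fun]
    exact pow_pos hρ.pos _

theorem CsaD_repCoc {ρ : A →ₐ[F] Matrix ι ι Ω}
    {P : Gal(Ω/F) → (Matrix ι ι Ω)ˣ} {c : Gal(Ω/F) → Gal(Ω/F) → Ωˣ}
    (h : RepCoc ρ P c) (n : ℕ) :
    ∃ (Pn : Gal(Ω/F) → (Matrix (Fin n → ι) (Fin n → ι) Ω)ˣ),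
      RepCoc (CsaD_pow ρ n) Pn (fun σ τ => c σ τ ^ n) := by
  refine ⟨fun σ => ⟨CsaD_kron Ω ι n fun _ => (P σ : Matrix ι ι Ω),
    CsaD_kron Ω ι n fun _ => ((P σ)⁻¹ : (Matrix ι ι Ω)ˣ), ?_, ?_⟩, ?_⟩
  · rw [← CsaD_kron_mul, ← CsaD_kron_one]
    congr 1
    funext i
    simp
  · rw [← CsaD_kron_mul, ← CsaD_kron_one]
    congr 1
    funext i
    simp
  refine ⟨?_, ?_, ?_⟩
  · intro σ a
    change CsaD_kron Ω ι n (fun _ => (P σ : Matrix ι ι Ω)) * _ =
      _ * CsaD_kron Ω ι n (fun _ => (P σ : Matrix ι ι Ω))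
    induction a using PiTensorProduct.induction_on with
    | smul_tprod r x =>
      rw [map_smul, CsaD_pow_tprod]
      have h1 : (r • CsaD_kron Ω ι n (fun i => ρ (x i))).map σ =
          r • CsaD_kron Ω ι n (fun i => (ρ (x i)).map σ) := by
        have h2 := CsaD_kron_map (σ : Ω →+* Ω) (fun i => ρ (x i))
        ext f g
        have h3 := congrFun (congrFun h2 f) g
        rw [Matrix.map_apply, Matrix.smul_apply, Matrix.smul_apply, map_smul]
        congr 1
      rw [h1, mul_smul_comm, smul_mul_assoc, ← CsaD_kron_mul, ← CsaD_kron_mul]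
      congr 2
      funext i
      exact h.rel σ (x i)
    | add x y hx hy =>
      rw [map_add, Matrix.map_add _ (fun a b => map_add σ a b), mul_add, add_mul, hx, hy]
  · intro σ τ
    change CsaD_kron Ω ι n (fun _ => (P σ : Matrix ι ι Ω)) *
      (CsaD_kron Ω ι n (fun _ => (P τ : Matrix ι ι Ω))).map σ =
      ((c σ τ ^ n : Ωˣ) : Ω) • CsaD_kron Ω ι n (fun _ => (P (σ * τ) : Matrix ι ι Ω))
    have h1 : (CsaD_kron Ω ι n (fun _ => (P τ : Matrix ι ι Ω))).map σ =
        CsaD_kron Ω ι n (fun _ => (P τ : Matrix ι ι Ω).map σ) :=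
      CsaD_kron_map (σ : Ω →+* Ω) (fun _ => (P τ : Matrix ι ι Ω))
    rw [h1, ← CsaD_kron_mul]
    have h2 : (fun _ : Fin n => (P σ : Matrix ι ι Ω)) *
        (fun _ : Fin n => (P τ : Matrix ι ι Ω).map σ) =
        fun _ : Fin n => (c σ τ : Ω) • (P (σ * τ) : Matrix ι ι Ω) := by
      funext i
      exact h.coc σ τ
    rw [h2, MultilinearMap.map_smul_univ]
    simp
  · obtain ⟨L, hLf, hLn, hL1, hL2⟩ := h.lev
    refine ⟨L, hLf, hLn, ?_, ?_⟩
    · intro σ f g
      change ∏ i, (P σ : Matrix ι ι Ω) (f i) (g i) ∈ L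
      exact prod_mem fun i _ => hL1 σ (f i) (g i)
    · intro σ τ hst
      apply Units.ext
      change CsaD_kron Ω ι n (fun _ => (P σ : Matrix ι ι Ω)) =
        CsaD_kron Ω ι n (fun _ => (P τ : Matrix ι ι Ω))
      rw [hL2 σ τ hst]

theorem power_rep [IsGalois F Ω] {ρ : A →ₐ[F] Matrix ι ι Ω} (hρ : MatRep ρ)
    {P : Gal(Ω/F) → (Matrix ι ι Ω)ˣ} {c : Gal(Ω/F) → Gal(Ω/F) → Ωˣ}
    (h : RepCoc ρ P c) (n : ℕ) :
    ∃ (ρn : (⨂[F] _ : Fin n, A) →ₐ[F] Matrix (Fin n → ι) (Fin n → ι) Ω)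
      (Pn : Gal(Ω/F) → (Matrix (Fin n → ι) (Fin n → ι) Ω)ˣ),
      MatRep ρn ∧ RepCoc ρn Pn (fun σ τ => c σ τ ^ n) := by
  obtain ⟨Pn, hPn⟩ := CsaD_repCoc h n
  exact ⟨CsaD_pow ρ n, Pn, CsaD_matRep hρ n, hPn⟩

end

end W42
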