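import Pool.Agent.W_42fc02_h90.InfRes

/-!
G5: cyclic quotient of order l and norms.

N normal in G, s in G with s^l in N and every g in G of the form s^i n, 0 <= i < l, n in N.
If c is an N-invariant 2-cocycle and every G-invariant a in A is a norm
prod_{i<l} s^i . z of an N-invariant z, then c is a coboundary.

Proof. In the extension group: u_g u_h = c g h u_{gh}, N-invariance means that everything factors
through the cyclic group G / N (the case s in N, l = 1 is harmless: l is a prime, if s in N the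
statement is about the trivial group and the norm of z is z^l; it is still true, but the case is
excluded by hs). alpha = prod_{i<l} c (s^i) s is N-invariant and s-invariant, hence G-invariant;
alpha = prod s^i . z. Put v = z^-1 u_s: then v^l = u_{s^l} up to the constant c 1 1 ..., and
b (s^i n) is defined by v^i = b(s^i n)^-1 u_{s^i} ...
-/

namespace W42

variable {G A : Type*} [Group G] [CommGroup A] [MulDistribMulAction G A]

theorem cyclic_split (N : Subgroup G) [N.Normal] (l : ℕ) (hl : 0 < l) (s : G)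
    (hsl : s ^ l ∈ N) (hs : ∀ i, 0 < i → i < l → s ^ i ∉ N)
    (hgen : ∀ g : G, ∃ i < l, ∃ n ∈ N, g = s ^ i * n)
    (hnorm : ∀ a : A, (∀ g : G, g • a = a) →
      ∃ z : A, (∀ n ∈ N, n • z = z) ∧ ∏ i ∈ Finset.range l, (s ^ i • z) = a)
    {c : G → G → A} (hc : IsC2 c) (hi : Inv2 N c) :
    ∃ b : G → A, Inv1 N b ∧ ∀ g h, c g h = dB b g h := by
  classical
  have hN : N.Normal := inferInstance
  obtain ⟨hi1, hi2, hi3⟩ := hi
  -- the partial products
  obtain ⟨β, hβ⟩ : ∃ β : ℕ → A, β = fun i => ∏ j ∈ Finset.range i, c (s ^ j) s := ⟨_, rfl⟩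
  have hβ0 : β 0 = 1 := by simp [hβ]
  have hβs : ∀ i, β (i + 1) = β i * c (s ^ i) s := by
    intro i
    rw [hβ]
    exact Finset.prod_range_succ _ _
  have hcl : ∀ (j : ℕ) (h : G), c (s ^ (j + l)) h = c (s ^ j) h := by
    intro j h
    rw [pow_add]
    exact hi1 _ _ _ hsl
  have hcr : ∀ (g : G) (j : ℕ), c g (s ^ (j + l)) = c g (s ^ j) := by
    intro g j
    rw [pow_add]
    exact hi2 _ _ _ hsl
  have key : ∀ i j : ℕ, c (s ^ i) (s ^ j) * β i * (s ^ i • β j) = (s ^ i • c 1 1) * β (i + j) := by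
    intro i j
    induction j with
    | zero =>
      rw [hβ0, smul_one, mul_one, pow_zero, hc.one_right, add_zero]
    | succ j ih =>
      have e := hc (s ^ i) (s ^ j) s
      rw [← pow_add, ← pow_succ] at e
      rw [hβs, smul_mul', ← add_assoc, hβs]
      calc c (s ^ i) (s ^ (j + 1)) * β i * (s ^ i • β j * s ^ i • c (s ^ j) s)
          = (s ^ i • c (s ^ j) s * c (s ^ i) (s ^ (j + 1))) * β i * s ^ i • β j := by
            simp only [mul_comm, mul_left_comm, mul_assoc]
        _ = (c (s ^ i) (s ^ j) * c (s ^ (i + j)) s) * β i * s ^ i • β j := by rw [e]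
        _ = (c (s ^ i) (s ^ j) * β i * s ^ i • β j) * c (s ^ (i + j)) s := by
            simp only [mul_comm, mul_left_comm, mul_assoc]
        _ = s ^ i • c 1 1 * β (i + j) * c (s ^ (i + j)) s := by rw [ih]
        _ = s ^ i • c 1 1 * (β (i + j) * c (s ^ (i + j)) s) := by rw [mul_assoc]
  have hβl : ∀ i, β (i + l) = β i * β l := by
    intro i
    induction i with
    | zero => rw [hβ0, one_mul, zero_add]
    | succ i ih =>
      have : i + 1 + l = (i + l) + 1 := by ring
      rw [this, hβs, ih, hcl, hβs, mul_assoc, mul_assoc, mul_comm (β l)]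
  have hβN : ∀ n ∈ N, ∀ i, n • β i = β i := by
    intro n hn i
    induction i with
    | zero => rw [hβ0, smul_one]
    | succ i ih => rw [hβs, smul_mul', ih, hi3 _ _ n hn]
  have hsβ : s • β l = β l := by
    have e := key 1 l
    have e1 : c (s ^ 1) (s ^ l) = s ^ 1 • c 1 1 := by
      have := hcr (s ^ 1) 0
      rw [zero_add, pow_zero] at this
      rw [this, hc.one_right]
    have e2 : β (1 + l) = β 1 * β l := hβl 1
    rw [e1, e2, pow_one, mul_assoc, mul_left_cancel_iff, mul_left_cancel_iff] at e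
    exact e
  have hspow : ∀ i : ℕ, s ^ i • β l = β l := by
    intro i
    induction i with
    | zero => simp
    | succ i ih => rw [pow_succ, mul_smul, hsβ, ih]
  obtain ⟨z, hzN, hz⟩ := hnorm (β l) (by
    intro g
    obtain ⟨i, -, n, hn, rfl⟩ := hgen g
    rw [mul_smul, hβN n hn, hspow])
  obtain ⟨ζ, hζ⟩ : ∃ ζ : ℕ → A, ζ = fun i => ∏ j ∈ Finset.range i, (s ^ j • z) := ⟨_, rfl⟩
  have hζ0 : ζ 0 = 1 := by simp [hζ]
  have hζs : ∀ i, ζ (i + 1) = ζ i * (s ^ i • z) := by
    intro i
    rw [hζ]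
    exact Finset.prod_range_succ _ _
  have hζl : ζ l = β l := by rw [hζ]; exact hz
  have hconj : ∀ n ∈ N, ∀ (j : ℕ), ∀ a : A, (∀ m ∈ N, m • a = a) → n • s ^ j • a = s ^ j • a := by
    intro n hn j a ha
    have h1 : n * s ^ j = s ^ j * ((s ^ j)⁻¹ * n * s ^ j) := by group
    rw [← mul_smul, h1, mul_smul, ha _ (by simpa using hN.conj_mem n hn (s ^ j)⁻¹)]
  have hζN : ∀ n ∈ N, ∀ i, n • ζ i = ζ i := by
    intro n hn i
    induction i with
    | zero => rw [hζ0, smul_one]
    | succ i ih => rw [hζs, smul_mul', ih, hconj n hn i z hzN]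
  have hζadd : ∀ i j, ζ (i + j) = ζ i * (s ^ i • ζ j) := by
    intro i j
    induction j with
    | zero => rw [hζ0, smul_one, mul_one, add_zero]
    | succ j ih => rw [← add_assoc, hζs, ih, hζs, smul_mul', ← mul_smul, ← pow_add, mul_assoc]
  -- the cochain on natural numbers
  obtain ⟨B, hB⟩ : ∃ B : ℕ → A, B = fun i => c 1 1 * ζ i / β i := ⟨_, rfl⟩
  have hBi : ∀ i, B i = c 1 1 * ζ i / β i := fun i => by rw [hB]
  have hper : Function.Periodic B l := by
    intro i
    have h1 : ζ (i + l) = ζ i * β l := by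
      rw [add_comm, hζadd, hζl, hζN _ hsl, mul_comm]
    rw [hBi, hBi, hβl, h1, ← mul_assoc, mul_div_mul_right_eq_div]
  have hBN : ∀ n ∈ N, ∀ i, n • B i = B i := by
    intro n hn i
    rw [hBi, smul_div', smul_mul', hi3 1 1 n hn, hζN n hn, hβN n hn]
  have hmain : ∀ i j, c (s ^ i) (s ^ j) = B i * (s ^ i • B j) / B (i + j) := by
    intro i j
    have e := key i j
    rw [hBi, hBi, hBi, hζadd, smul_div', smul_mul']
    have e2 : c (s ^ i) (s ^ j) = s ^ i • c 1 1 * β (i + j) / (β i * s ^ i • β j) := by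
      rw [eq_div_iff_mul_eq', ← mul_assoc]
      rw [← e]
    rw [e2]
    simp only [div_eq_mul_inv, mul_inv, inv_inv]
    have : ∀ k x y u v w t : A, y * w * (u⁻¹ * v⁻¹) =
        k * x * u⁻¹ * (y * t * v⁻¹) * (k⁻¹ * (x⁻¹ * t⁻¹) * w) := by
      intro k x y u v w t
      have h1 : k * x * u⁻¹ * (y * t * v⁻¹) * (k⁻¹ * (x⁻¹ * t⁻¹) * w) =
          (k * k⁻¹) * (x * x⁻¹) * (t * t⁻¹) * (y * w * (u⁻¹ * v⁻¹)) := by
        simp only [mul_comm, mul_left_comm, mul_assoc]
      rw [h1, mul_inv_cancel, mul_inv_cancel, mul_inv_cancel, one_mul, one_mul, one_mul]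
    exact this _ _ _ _ _ _ _
  -- the index of an element
  choose ix hix nn hnn hg using hgen
  have huniq : ∀ (i j : ℕ) (n m : G), i < l → j < l → n ∈ N → m ∈ N → s ^ i * n = s ^ j * m →
      i = j := by
    have aux : ∀ (i j : ℕ) (n m : G), i < l → j < l → n ∈ N → m ∈ N → s ^ i * n = s ^ j * m →
        i < j → False := by
      intro i j n m _ hj hn hm h hij
      apply hs (j - i) (by omega) (by omega)
      have h1 : s ^ j = s ^ i * s ^ (j - i) := by rw [← pow_add]; congr 1; omega
      rw [h1, mul_assoc] at h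
      have h2 := mul_left_cancel h
      have h3 : s ^ (j - i) = n * m⁻¹ := by rw [h2]; group
      rw [h3]
      exact N.mul_mem hn (N.inv_mem hm)
    intro i j n m hi' hj' hn hm h
    rcases lt_trichotomy i j with h1 | h1 | h1
    · exact (aux i j n m hi' hj' hn hm h h1).elim
    · exact h1
    · exact (aux j i m n hj' hi' hm hn h.symm h1).elim
  have hixmod : ∀ (g : G) (i : ℕ) (n : G), n ∈ N → g = s ^ i * n → ix g = i % l := by
    intro g i n hn h
    have h1 : s ^ i = s ^ (i % l) * (s ^ l) ^ (i / l) := by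
      rw [← pow_mul, ← pow_add, Nat.mod_add_div]
    refine huniq _ _ (nn g) ((s ^ l) ^ (i / l) * n) (hix g) (Nat.mod_lt _ hl) (hnn g)
      (N.mul_mem (N.pow_mem hsl _) hn) ?_
    rw [← hg g, h, h1, mul_assoc]
  refine ⟨fun g => B (ix g), ⟨?_, ?_⟩, ?_⟩
  · intro g n hn
    have h1 : ix (g * n) = ix g := by
      have h2 := hixmod (g * n) (ix g) (nn g * n) (N.mul_mem (hnn g) hn) (by
        rw [← mul_assoc, ← hg g])
      rw [h2, Nat.mod_eq_of_lt (hix g)]
    change B (ix (g * n)) = B (ix g)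
    rw [h1]
  · intro g n hn
    exact hBN n hn _
  · intro g h
    have h1 : c g h = c (s ^ ix g) (s ^ ix h) := by
      conv_lhs => rw [hg g, hg h]
      rw [hi1 _ _ _ (hnn g), hi2 _ _ _ (hnn h)]
    have h2 : ix (g * h) = (ix g + ix h) % l := by
      refine hixmod (g * h) _ ((s ^ ix h)⁻¹ * nn g * s ^ ix h * nn h) ?_ ?_
      · exact N.mul_mem (by simpa using hN.conj_mem (nn g) (hnn g) (s ^ ix h)⁻¹) (hnn h)
      · conv_lhs => rw [hg g, hg h]
        rw [pow_add]
        group
    have h3 : B (ix (g * h)) = B (ix g + ix h) := by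
      rw [h2]
      exact hper.map_mod_nat _
    have h4 : g • B (ix h) = s ^ ix g • B (ix h) := by
      conv_lhs => rw [hg g]
      rw [mul_smul, hBN _ (hnn g)]
    unfold dB
    change c g h = B (ix g) * (g • B (ix h)) / B (ix (g * h))
    rw [h1, hmain, h3, h4]

end W42
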