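import Pool.Agent.W_42fc02_h90.LZA
import Pool.Agent.W_42fc02_h7.LzF

/-!
LZC: case 2 of the exponent argument. phi : Gal(KK/kappa) -> Q is a homomorphism mod Z on Gamma_theta of
finite level such that N phi is mod Z an integral combination of the Kummer characters of
a_s = p_s(theta), s in I (finite set of indices not containing j). At every crossing (i0, j), i0 in
I, there is a discrete valuation ring as in CrossVal. Conclusion: N phi is integral.

cross_kill. If l^e divides all n_s, s in I, then N phi(gamma) is an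
integer. Otherwise let l^h (h < e) be the exact power of l dividing all n_s, n_s = l^h m_s, i0 the
largest s in I with l not dividing m_s. chi := l^(e-1-h) phi, beta := prod_{s in I} abar_s^(m_s N/l).
beta^l = prod a_s^(m_s) in kappa(theta). If gamma beta = zeta^(l^(e-1) n) beta then, with
gamma abar_s = zeta^(psi_s) abar_s, sum m_s psi_s = n mod l, and
N chi(gamma) = l^(e-1-h) sum n_s psi_s / N = l^(e-1) sum m_s psi_s / l^e = sum m_s psi_s / l = n/l mod Z.
CrossVal (i0, j): t = a_(i0); a_s is a unit for s < i0, s <> j; for s > i0 l divides m_s and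
a_s = t^(k_s) unit; so prod a_s^(m_s) = t^(m_(i0) + multiple of l) unit. lz_inf gives a contradiction.

char_ext: the set of the psi(g) is a subgroup H of (Z/N)^m; f factors through H;
the character module is injective.
-/

namespace W42

open Polynomial

/-- extension of characters. -/
theorem char_ext {G : Type} [Group G] {m : ℕ} (N : ℕ) (hN : 0 < N)
    (ψ : G → Fin m → ZMod N) (hψ : ∀ g h, ψ (g * h) = ψ g + ψ h) (f : G → ℚ)
    (hf : ∀ g h, ∃ n : ℤ, f (g * h) - f g - f h = n) (hfN : ∀ g, ∃ n : ℤ, (N : ℚ) * f g = n)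
    (hker : ∀ g, ψ g = 0 → ∃ n : ℤ, f g = n) :
    ∃ nn : Fin m → ℕ, ∀ g, ∃ n : ℤ, f g - (∑ i, (nn i : ℚ) * ((ψ g i).val : ℚ)) / (N : ℚ) = n := by
  classical
  have : NeZero N := ⟨hN.ne'⟩
  have hN0 : (N : ℚ) ≠ 0 := by exact_mod_cast hN.ne'
  -- the two homomorphisms
  have hint : ∀ x : ℚ, (x : AddCircle (1 : ℚ)) = 0 ↔ ∃ n : ℤ, x = n := by
    intro x
    rw [AddCircle.coe_eq_zero_iff]
    constructor
    · rintro ⟨n, hn⟩
      exact ⟨n, by rw [← hn]; simp⟩
    · rintro ⟨n, hn⟩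
      exact ⟨n, by rw [hn]; simp⟩
  let Ψ : Additive G →+ (Fin m → ZMod N) := AddMonoidHom.mk' (fun g => ψ g.toMul)
    (fun g h => hψ g.toMul h.toMul)
  let χ₀ : Additive G →+ AddCircle (1 : ℚ) := AddMonoidHom.mk'
    (fun g => ((f g.toMul : ℚ) : AddCircle (1 : ℚ))) (by
      intro g h
      obtain ⟨n, hn⟩ := hf g.toMul h.toMul
      rw [← AddCircle.coe_add, ← sub_eq_zero, ← AddCircle.coe_sub, hint]
      exact ⟨n, by rw [← hn]; show f (g.toMul * h.toMul) - _ = _; ring⟩)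
  have hk : Ψ.rangeRestrict.ker ≤ χ₀.ker := by
    intro g hg
    rw [AddMonoidHom.mem_ker] at hg ⊢
    have h1 : ψ g.toMul = 0 := congrArg Subtype.val hg
    exact (hint _).2 (hker _ h1)
  let χ : Ψ.range →+ AddCircle (1 : ℚ) :=
    AddMonoidHom.liftOfSurjective Ψ.rangeRestrict Ψ.rangeRestrict_surjective ⟨χ₀, hk⟩
  have hχ : ∀ g : G, χ ⟨ψ g, ⟨Additive.ofMul g, rfl⟩⟩ = ((f g : ℚ) : AddCircle (1 : ℚ)) := by
    intro g
    have h1 := AddMonoidHom.liftOfRightInverse_comp_apply Ψ.rangeRestrict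
      (Function.surjInv Ψ.rangeRestrict_surjective)
      (Function.rightInverse_surjInv Ψ.rangeRestrict_surjective) ⟨χ₀, hk⟩ (Additive.ofMul g)
    exact h1
  obtain ⟨c, hc⟩ := CharacterModule.dual_surjective_of_injective (R := ℤ)
    Ψ.range.subtype.toIntLinearMap Ψ.range.subtype_injective χ
  have hc' : ∀ x : Ψ.range, c (x : Fin m → ZMod N) = χ x := by
    intro x
    rw [← hc]
    rfl
  -- values on the basis
  have hbas : ∀ i : Fin m, ∃ n : ℕ, c (Pi.single i 1) = (((n : ℚ) / N : ℚ) : AddCircle (1 : ℚ)) := by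
    intro i
    obtain ⟨x, hx⟩ := QuotientAddGroup.mk_surjective (c (Pi.single i 1))
    have hx' : (x : AddCircle (1 : ℚ)) = c (Pi.single i 1) := hx
    have h1 : (N : ℕ) • c (Pi.single i 1) = 0 := by
      rw [← map_nsmul]
      have h2 : N • (Pi.single i 1 : Fin m → ZMod N) = 0 := by
        ext k
        simp
      rw [h2, map_zero]
    rw [← hx', ← AddCircle.coe_nsmul, hint] at h1
    obtain ⟨n, hn⟩ := h1
    have hNI : (0 : ℤ) < N := by exact_mod_cast hN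
    refine ⟨(n % N).toNat, ?_⟩
    rw [← hx', ← sub_eq_zero, ← AddCircle.coe_sub, hint]
    refine ⟨n / N, ?_⟩
    have h3 : (((n % N).toNat : ℤ) : ℚ) = ((n % N : ℤ) : ℚ) := by
      rw [Int.toNat_of_nonneg (Int.emod_nonneg _ hNI.ne')]
    have h4 : (((n % N).toNat : ℕ) : ℚ) = ((n % N : ℤ) : ℚ) := by
      rw [← h3]
      push_cast
      rfl
    rw [h4]
    have h5 : (n : ℚ) = ((n % N : ℤ) : ℚ) + (N : ℚ) * ((n / N : ℤ) : ℚ) := by
      exact_mod_cast (Int.emod_add_mul_ediv n N).symm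
    rw [nsmul_eq_mul] at hn
    have h6 : x = (n : ℚ) / N := by
      field_simp
      linarith
    rw [h6, h5]
    field_simp
    ring
  choose nn hnn using hbas
  refine ⟨nn, fun g => ?_⟩
  rw [← hint, AddCircle.coe_sub, sub_eq_zero, ← hχ, ← hc']
  show c (ψ g) = _
  have h7 : ψ g = ∑ i, (ψ g i).val • (Pi.single i 1 : Fin m → ZMod N) := by
    ext k
    rw [Finset.sum_apply, Finset.sum_eq_single k]
    · simp
    · intro b _ hb
      simp [hb.symm]
    · simp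
  conv_lhs => rw [h7]
  have h8 : ((∑ i, (nn i : ℚ) * ((ψ g i).val : ℚ) / (N : ℚ) : ℚ) : AddCircle (1 : ℚ)) =
      ∑ i, (((nn i : ℚ) * ((ψ g i).val : ℚ) / (N : ℚ) : ℚ) : AddCircle (1 : ℚ)) :=
    map_sum (QuotientAddGroup.mk' (AddSubgroup.zmultiples (1 : ℚ))) _ _
  rw [map_sum, Finset.sum_div, h8]
  refine Finset.sum_congr rfl fun i _ => ?_
  rw [map_nsmul, hnn, ← AddCircle.coe_nsmul]
  congr 1
  rw [nsmul_eq_mul]
  ring

section
variable {κ 𝕂 : Type} [Field κ] [Field 𝕂] [Algebra κ 𝕂]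

/-- a discrete valuation ring with fraction field kappa(theta) at the crossing of the branches i0
and j (theta is a root of p_j, a s = p_s(theta)). -/
def CrossVal (κ : Type) {𝕂 : Type} [Field κ] [Field 𝕂] [Algebra κ 𝕂] (l : ℕ) (ζ : κ) (θ : 𝕂)
    (a : ℕ → 𝕂) (i₀ j : ℕ) : Prop :=
  ∃ (S : Type) (_ : CommRing S) (_ : IsDomain S) (_ : IsDiscreteValuationRing S)
    (_ : Algebra S (IntermediateField.adjoin κ {θ}))
    (_ : IsFractionRing S (IntermediateField.adjoin κ {θ})) (b : ℕ → S) (z : S),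
    (∀ s, algebraMap (IntermediateField.adjoin κ {θ}) 𝕂 (algebraMap S _ (b s)) = a s) ∧
    algebraMap (IntermediateField.adjoin κ {θ}) 𝕂 (algebraMap S _ z) = algebraMap κ 𝕂 ζ ∧
    Irreducible (b i₀) ∧ (∀ s < i₀, s ≠ j → IsUnit (b s)) ∧
    ∀ (v : S) (m : ℕ), Nat.Coprime m l → IsUnit (v ^ l - z ^ m)

theorem cross_kill [IsAlgClosed 𝕂] [Algebra.IsAlgebraic κ 𝕂] (θ : 𝕂) (l e : ℕ) (hl : l.Prime)
    (he : 0 < e) (hlκ : (l : κ) ≠ 0) (ζ : κ) (hζ : IsPrimitiveRoot ζ (l ^ e))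
    (φ : Gal(𝕂/κ) → ℚ) (hφ : ChiHom κ θ φ) (a : ℕ → 𝕂)
    (ha : ∀ s, a s ∈ IntermediateField.adjoin κ {θ}) (j : ℕ) (I : Finset ℕ) (hj : j ∉ I)
    (ha0 : ∀ s ∈ I, a s ≠ 0) (abar : ℕ → 𝕂) (habar : ∀ s ∈ I, abar s ^ l ^ e = a s)
    (hcr : ∀ i₀ ∈ I, CrossVal κ l ζ θ a i₀ j) (nn : ℕ → ℕ)
    (hnn : ∀ γ : Gal(𝕂/κ), γ θ = θ → ∀ ps : ℕ → ℕ,
      (∀ s ∈ I, γ (abar s) = (algebraMap κ 𝕂 ζ) ^ ps s * abar s) →
        ∃ k : ℤ, ((l ^ e : ℕ) : ℚ) * φ γ -
          (∑ s ∈ I, (nn s : ℚ) * (ps s : ℚ)) / ((l ^ e : ℕ) : ℚ) = k)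
    (γ : Gal(𝕂/κ)) (hγ : γ θ = θ) : ∃ k : ℤ, ((l ^ e : ℕ) : ℚ) * φ γ = k := by
  classical
  obtain ⟨e, rfl⟩ : ∃ e', e = e' + 1 := ⟨e - 1, by omega⟩
  have hN0 : 0 < l ^ (e + 1) := pow_pos hl.pos _
  have hlQ : (l : ℚ) ≠ 0 := by exact_mod_cast hl.ne_zero
  have hζ𝕂 : IsPrimitiveRoot (algebraMap κ 𝕂 ζ) (l ^ (e + 1)) :=
    hζ.map_of_injective (algebraMap κ 𝕂).injective
  have hNz : NeZero (l ^ (e + 1)) := ⟨hN0.ne'⟩
  have habar0 : ∀ s ∈ I, abar s ≠ 0 := by
    intro s hs h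
    have h1 := habar s hs
    rw [h, zero_pow hN0.ne'] at h1
    exact ha0 s hs h1.symm
  have hps : ∀ γ : Gal(𝕂/κ), γ θ = θ → ∃ ps : ℕ → ℕ,
      ∀ s ∈ I, γ (abar s) = (algebraMap κ 𝕂 ζ) ^ ps s * abar s := by
    intro γ hγ
    have h1 : ∀ s, ∃ n : ℕ, s ∈ I → γ (abar s) = (algebraMap κ 𝕂 ζ) ^ n * abar s := by
      intro s
      by_cases hs : s ∈ I
      · have h2 : (γ (abar s) / abar s) ^ l ^ (e + 1) = 1 := by
          rw [div_pow, ← map_pow, habar s hs, fix_adjoin hγ (ha s), div_self (ha0 s hs)]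
        obtain ⟨n, -, hn⟩ := hζ𝕂.eq_pow_of_pow_eq_one h2
        exact ⟨n, fun _ => by rw [hn, div_mul_cancel₀ _ (habar0 s hs)]⟩
      · exact ⟨0, fun h => absurd h hs⟩
    choose ps hps using h1
    exact ⟨ps, fun s hs => hps s hs⟩
  by_cases hall : ∀ s ∈ I, l ^ (e + 1) ∣ nn s
  · obtain ⟨ps, hpsγ⟩ := hps γ hγ
    obtain ⟨k, hk⟩ := hnn γ hγ ps hpsγ
    have h1 : ∃ t : ℤ, (∑ s ∈ I, (nn s : ℚ) * (ps s : ℚ)) / ((l ^ (e + 1) : ℕ) : ℚ) = t := by
      have h2 : (l ^ (e + 1) : ℕ) ∣ ∑ s ∈ I, nn s * ps s :=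
        Finset.dvd_sum fun s hs => Dvd.dvd.mul_right (hall s hs) _
      obtain ⟨t, ht⟩ := h2
      refine ⟨t, ?_⟩
      have h3 : (∑ s ∈ I, (nn s : ℚ) * (ps s : ℚ)) = ((l ^ (e + 1) : ℕ) : ℚ) * t := by
        exact_mod_cast ht
      rw [h3, mul_div_cancel_left₀ _ (by exact_mod_cast hN0.ne')]
      push_cast
      rfl
    obtain ⟨t, ht⟩ := h1
    refine ⟨k + t, ?_⟩
    push_cast
    rw [← hk, ← ht]
    push_cast
    ring
  · exfalso
    push Not at hall
    have hex : ∃ c, ∃ s ∈ I, ¬ l ^ (c + 1) ∣ nn s := ⟨e, hall⟩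
    obtain ⟨c, hc, hcmin⟩ : ∃ c, (∃ s ∈ I, ¬ l ^ (c + 1) ∣ nn s) ∧
        ∀ c' < c, ¬ ∃ s ∈ I, ¬ l ^ (c' + 1) ∣ nn s :=
      ⟨Nat.find hex, Nat.find_spec hex, fun c' h => Nat.find_min hex h⟩
    have hce : c ≤ e := by
      by_contra h
      exact hcmin e (by omega) hall
    have hdiv : ∀ s ∈ I, l ^ c ∣ nn s := by
      intro s hs
      rcases Nat.eq_zero_or_pos c with h0 | h0
      · rw [h0, pow_zero]
        exact one_dvd _
      · have h1 := hcmin (c - 1) (by omega)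
        push Not at h1
        have h2 := h1 s hs
        rwa [Nat.sub_add_cancel h0] at h2
    have hm : ∀ s, ∃ m : ℕ, s ∈ I → nn s = l ^ c * m := by
      intro s
      by_cases hs : s ∈ I
      · obtain ⟨m, hm⟩ := hdiv s hs
        exact ⟨m, fun _ => hm⟩
      · exact ⟨0, fun h => absurd h hs⟩
    choose m hm using hm
    have hlm : ∀ s ∈ I, (l ^ (c + 1) ∣ nn s ↔ l ∣ m s) := by
      intro s hs
      rw [hm s hs, pow_succ]
      exact Nat.mul_dvd_mul_iff_left (pow_pos hl.pos _)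
    obtain ⟨i₀, hi₀, hmax⟩ := (I.filter fun s => ¬ l ∣ m s).exists_maximal (by
      obtain ⟨s, hs, hs'⟩ := hc
      exact ⟨s, Finset.mem_filter.2 ⟨hs, fun h => hs' ((hlm s hs).2 h)⟩⟩)
    rw [Finset.mem_filter] at hi₀
    obtain ⟨S, i1, i2, i3, i4, i5, b, z, hb, hz, hirr, hunit, hres⟩ := hcr i₀ hi₀.1
    have hinjE : Function.Injective (algebraMap S (IntermediateField.adjoin κ {θ})) :=
      IsFractionRing.injective S _
    have hinjK : Function.Injective (algebraMap (IntermediateField.adjoin κ {θ}) 𝕂) :=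
      (algebraMap (IntermediateField.adjoin κ {θ}) 𝕂).injective
    have hzS : IsPrimitiveRoot z (l ^ (e + 1)) := by
      apply IsPrimitiveRoot.of_map_of_injective (f := (algebraMap
        (IntermediateField.adjoin κ {θ}) 𝕂).comp (algebraMap S _)) _ (hinjK.comp hinjE)
      rw [RingHom.comp_apply, hz]
      exact hζ𝕂
    obtain ⟨p, hp⟩ := ExpChar.exists κ
    have hpE : ExpChar (IntermediateField.adjoin κ {θ}) p :=
      expChar_of_injective_algebraMap (algebraMap κ _).injective p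
    have hlp : ¬ l ∣ p := by
      intro h
      cases hp with
      | zero => exact hl.one_lt.ne' (Nat.dvd_one.1 h)
      | prime hq =>
        rw [Nat.prime_dvd_prime_iff_eq hl hq] at h
        apply hlκ
        rw [h]
        exact CharP.cast_eq_zero κ p
    have hbs : ∀ s ∈ I, ∃ (d : ℕ) (v : S), IsUnit v ∧ b s = v * b i₀ ^ d ∧
        (s = i₀ ∧ d = 1 ∨ s ≠ i₀ ∧ l ∣ d * m s) := by
      intro s hs
      by_cases hsi : s = i₀
      · exact ⟨1, 1, isUnit_one, by rw [hsi]; ring, Or.inl ⟨hsi, rfl⟩⟩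
      · rcases lt_or_gt_of_ne hsi with h | h
        · refine ⟨0, b s, hunit s h (fun h => hj (h ▸ hs)), by ring, Or.inr ⟨hsi, ?_⟩⟩
          rw [Nat.zero_mul]
          exact dvd_zero _
        · have hb0 : b s ≠ 0 := by
            intro h0
            have h1 := hb s
            rw [h0, map_zero, map_zero] at h1
            exact ha0 s hs h1.symm
          obtain ⟨d, v, hv⟩ := IsDiscreteValuationRing.eq_unit_mul_pow_irreducible hb0 hirr
          refine ⟨d, v, v.isUnit, hv, Or.inr ⟨hsi, ?_⟩⟩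
          apply Dvd.dvd.mul_left
          by_contra hd
          have h1 := hmax (y := s) (Finset.mem_filter.2 ⟨hs, hd⟩) h.le
          omega
    have hbs' : ∀ s, ∃ (d : ℕ) (v : S), s ∈ I → (IsUnit v ∧ b s = v * b i₀ ^ d ∧
        (s = i₀ ∧ d = 1 ∨ s ≠ i₀ ∧ l ∣ d * m s)) := by
      intro s
      by_cases hs : s ∈ I
      · obtain ⟨d, v, h⟩ := hbs s hs
        exact ⟨d, v, fun _ => h⟩
      · exact ⟨0, 0, fun h => absurd h hs⟩
    choose d v hdv using hbs'
    have hprod : ∏ s ∈ I, b s ^ m s = (∏ s ∈ I, v s ^ m s) * b i₀ ^ (∑ s ∈ I, d s * m s) := by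
      rw [← Finset.prod_pow_eq_pow_sum, ← Finset.prod_mul_distrib]
      refine Finset.prod_congr rfl fun s hs => ?_
      rw [(hdv s hs).2.1, mul_pow, ← pow_mul]
    have hsum : ¬ l ∣ ∑ s ∈ I, d s * m s := by
      rw [← Finset.add_sum_erase I _ hi₀.1]
      intro h
      have h1 : l ∣ ∑ s ∈ I.erase i₀, d s * m s := by
        refine Finset.dvd_sum fun s hs => ?_
        rw [Finset.mem_erase] at hs
        rcases (hdv s hs.2).2.2 with h2 | h2
        · exact absurd h2.1 hs.1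
        · exact h2.2
      have h2 := (Nat.dvd_add_left h1).1 h
      rcases (hdv i₀ hi₀.1).2.2 with h3 | h3
      · rw [h3.2, Nat.one_mul] at h2
        exact hi₀.2 h2
      · exact h3.1 rfl
    have hclos : IsAlgClosure κ 𝕂 := ⟨inferInstance, inferInstance⟩
    have hnorm : Normal κ 𝕂 := IsAlgClosure.normal κ 𝕂
    have hnormE : Normal (IntermediateField.adjoin κ {θ}) 𝕂 := Normal.tower_top_of_normal κ _ 𝕂
    obtain ⟨T, hT⟩ := hφ.level
    have hrs : ∀ g : 𝕂 ≃ₐ[IntermediateField.adjoin κ {θ}] 𝕂, (g.restrictScalars κ) θ = θ := by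
      intro g
      exact g.commutes ⟨θ, IntermediateField.mem_adjoin_simple_self κ θ⟩
    refine Pool.Agent.W_42fc02_h7.lz_inf (S := S) (E := IntermediateField.adjoin κ {θ}) (K := 𝕂)
      hl hlp hzS hres hirr
      (b := algebraMap S _ (∏ s ∈ I, b s ^ m s)) (β := ∏ s ∈ I, abar s ^ (m s * l ^ e)) ?_
      (u := ∏ s ∈ I, v s ^ m s) (a := ((∑ s ∈ I, d s * m s : ℕ) : ℤ)) ?_ ?_ ?_
      (ξ := fun g => (l : ℚ) ^ (e - c) * φ (g.restrictScalars κ)) ?_ T ?_ ?_
    · rw [← Finset.prod_pow, map_prod, map_prod]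
      refine Finset.prod_congr rfl fun s hs => ?_
      rw [map_pow, map_pow, hb, ← habar s hs, ← pow_mul, ← pow_mul]
      congr 1
      ring
    · exact Finset.prod_induction _ IsUnit (fun _ _ => IsUnit.mul) isUnit_one
        (fun s hs => ((hdv s hs).1.pow _))
    · rw [hprod, map_mul, map_pow _ (b i₀), zpow_natCast]
    · exact_mod_cast hsum
    · intro g h
      obtain ⟨n, hn⟩ := hφ.hom (g.restrictScalars κ) (h.restrictScalars κ) (hrs g) (hrs h)
      refine ⟨(l : ℤ) ^ (e - c) * n, ?_⟩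
      have h1 : (g * h).restrictScalars κ = g.restrictScalars κ * h.restrictScalars κ := rfl
      push_cast
      rw [h1, ← hn]
      ring
    · intro g hg
      obtain ⟨n, hn⟩ := hT (g.restrictScalars κ) (hrs g) hg
      refine ⟨(l : ℤ) ^ (e - c) * n, ?_⟩
      push_cast
      rw [hn]
    · intro g k hg
      obtain ⟨ps, hpsg⟩ := hps (g.restrictScalars κ) (hrs g)
      obtain ⟨t, ht⟩ := hnn (g.restrictScalars κ) (hrs g) ps hpsg
      set β : 𝕂 := ∏ s ∈ I, abar s ^ (m s * l ^ e) with hβ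
      have hβ0 : β ≠ 0 := Finset.prod_ne_zero_iff.2 fun s hs => pow_ne_zero _ (habar0 s hs)
      have hg2 : g β = (algebraMap κ 𝕂 ζ) ^ (l ^ e * ∑ s ∈ I, m s * ps s) * β := by
        rw [hβ, map_prod, Finset.mul_sum, ← Finset.prod_pow_eq_pow_sum, ← Finset.prod_mul_distrib]
        refine Finset.prod_congr rfl fun s hs => ?_
        have h2 : g (abar s) = (algebraMap κ 𝕂 ζ) ^ ps s * abar s := hpsg s hs
        rw [map_pow, h2, mul_pow, ← pow_mul]
        congr 2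
        ring
      have hg3 : (algebraMap κ 𝕂 ζ) ^ (l ^ e * k) = (algebraMap κ 𝕂 ζ) ^ (l ^ e * ∑ s ∈ I, m s * ps s) := by
        have h3 := hg.symm.trans hg2
        rw [map_pow, map_pow, map_pow, map_pow, hz, ← pow_mul] at h3
        exact mul_right_cancel₀ hβ0 h3
      have hg4 : l ^ e * k ≡ l ^ e * ∑ s ∈ I, m s * ps s [MOD l ^ (e + 1)] := by
        refine hζ𝕂.pow_inj (Nat.mod_lt _ hN0) (Nat.mod_lt _ hN0) ?_
        rw [hζ𝕂.eq_orderOf, pow_mod_orderOf, pow_mod_orderOf]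
        exact hg3
      rw [pow_succ] at hg4
      have hg5 : k ≡ ∑ s ∈ I, m s * ps s [MOD l] :=
        Nat.ModEq.mul_left_cancel' (pow_pos hl.pos _).ne' hg4
      obtain ⟨t', ht'⟩ := (Nat.modEq_iff_dvd.1 hg5)
      refine ⟨(l : ℤ) ^ (e - c) * t + t', ?_⟩
      have h6 : ((l ^ (e + 1) : ℕ) : ℚ) * φ (g.restrictScalars κ) =
          t + (∑ s ∈ I, (nn s : ℚ) * (ps s : ℚ)) / ((l ^ (e + 1) : ℕ) : ℚ) := by
        rw [← ht]
        ring
      have h7 : (∑ s ∈ I, (nn s : ℚ) * (ps s : ℚ)) = (l : ℚ) ^ c * ∑ s ∈ I, (m s : ℚ) * (ps s : ℚ) := by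
        rw [Finset.mul_sum]
        refine Finset.sum_congr rfl fun s hs => ?_
        rw [hm s hs]
        push_cast
        ring
      have h8 : (∑ s ∈ I, (m s : ℚ) * (ps s : ℚ)) = k + l * t' := by
        have h9 : ((∑ s ∈ I, m s * ps s : ℕ) : ℤ) = k + l * t' := by linarith
        exact_mod_cast h9
      have h10 : (l : ℚ) ^ (e - c) * (l : ℚ) ^ c = (l : ℚ) ^ e := by
        rw [← pow_add, Nat.sub_add_cancel hce]
      push_cast at h6
      show (l : ℚ) ^ (e + 1) * ((l : ℚ) ^ (e - c) * φ (g.restrictScalars κ)) = _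
      rw [mul_left_comm, h6, h7, h8]
      push_cast
      rw [mul_add, ← mul_div_assoc, ← mul_assoc, h10, pow_succ]
      field_simp
      ring

end

end W42
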