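import Pool.Agent.W_42fc02_h90.ExpA
import Pool.Agent.W_42fc02_h90.LZC

/-!
ExpB: the exponent theorem at one point theta (cases 1 and 2 of section 7 of the paper proof).

c is split by K = F(pi_s, all s): by Spl.exists_finite and exists_finset_kumL it is split by
F(pi_s : s in S), S finite. Case 1: p_s(theta) not 0 for s in S: exists_level_of_spl and
exp_unram (1). Case 2: p_j(theta) = 0 for some j in S (only one, FibSeq.coprime); S' = S minus j;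
c^N is split by KumL S' (spl_kumL_insert), c^N ~ c_1 of level KumL S', and c_1 ~ inflR (c'^N).
phi gamma := xiR i theta c' (d gamma), d gamma chosen by exists_compat: ChiHom by xiR_hom, level: S0 =
i of generators of kp (gamma fixing i(kp) has d = 1, xiR_one). exp_unram (1) for c_1: N * N phi in Z;
exp_unram (2): if gamma fixes the N-th roots of the a_s(theta), s in S', N phi(gamma) in Z. For s in S'
fix abar_s with abar_s^N = a_s(theta), psi_s(gamma) in ZMod N with gamma abar_s =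
zeta^psi_s abar_s. char_ext for the group Stab(theta), f = N phi. cross_kill.
-/

namespace W42

open Polynomial

theorem ExpB_root {κ 𝕂 : Type} [Field κ] [Field 𝕂] [Algebra κ 𝕂] (N : ℕ) (hN : 0 < N) (ζ : κ)
    (hζ : IsPrimitiveRoot ζ N) (x y : 𝕂) (hy : y ≠ 0) (h : x ^ N = y ^ N) :
    ∃ n : ℕ, x = (algebraMap κ 𝕂 ζ) ^ n * y := by
  have : NeZero N := ⟨hN.ne'⟩
  have hζ' : IsPrimitiveRoot (algebraMap κ 𝕂 ζ) N :=
    hζ.map_of_injective (algebraMap κ 𝕂).injective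
  have h1 : (x / y) ^ N = 1 := by
    rw [div_pow, h]
    exact div_self (pow_ne_zero N hy)
  obtain ⟨n, _, h2⟩ := hζ'.eq_pow_of_pow_eq_one h1
  refine ⟨n, ?_⟩
  rw [h2, div_mul_cancel₀ _ hy]

theorem ExpB_unique {κ 𝕂 : Type} [Field κ] [Field 𝕂] [Algebra κ 𝕂] (N : ℕ) (ζ : κ)
    (hN : 0 < N) (hζ : IsPrimitiveRoot ζ N) (y : 𝕂) (hy : y ≠ 0) (a b : ℕ)
    (h : (algebraMap κ 𝕂 ζ) ^ a * y = (algebraMap κ 𝕂 ζ) ^ b * y) : (a : ZMod N) = (b : ZMod N) := by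
  have hζ' : IsPrimitiveRoot (algebraMap κ 𝕂 ζ) N :=
    hζ.map_of_injective (algebraMap κ 𝕂).injective
  have h1 := mul_right_cancel₀ hy h
  have h0 : algebraMap κ 𝕂 ζ ≠ 0 := by
    intro h0
    have h2 := hζ'.pow_eq_one
    rw [h0, zero_pow hN.ne'] at h2
    exact zero_ne_one h2
  have h2 : (algebraMap κ 𝕂 ζ) ^ ((b : ℤ) - (a : ℤ)) = 1 := by
    rw [zpow_sub₀ h0, zpow_natCast, zpow_natCast, h1]
    exact div_self (pow_ne_zero b h0)
  rw [hζ'.zpow_eq_one_iff_dvd] at h2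
  have h3 := (ZMod.intCast_eq_intCast_iff_dvd_sub (a : ℤ) (b : ℤ) N).2 h2
  exact_mod_cast h3

theorem ExpB_aeval {κ 𝕂 : Type} [Field κ] [Field 𝕂] [Algebra κ 𝕂] (θ : 𝕂) (γ : Gal(𝕂/κ))
    (hγ : γ θ = θ) (q : κ[X]) : γ (aeval θ q) = aeval θ q := by
  have h : aeval (γ θ) q = γ (aeval θ q) := Polynomial.aeval_algHom_apply γ θ q
  rw [← h, hγ]

theorem ExpB_mem {κ 𝕂 : Type} [Field κ] [Field 𝕂] [Algebra κ 𝕂] (θ : 𝕂) (q : κ[X]) :
    aeval θ q ∈ IntermediateField.adjoin κ {θ} :=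
  IntermediateField.algebra_adjoin_le_adjoin κ {θ} (Polynomial.aeval_mem_adjoin_singleton κ θ)

/-- combination of char_ext and cross_kill -/
theorem ExpB_kill {κ 𝕂 : Type} [Field κ] [Field 𝕂] [Algebra κ 𝕂] [IsAlgClosed 𝕂]
    [Algebra.IsAlgebraic κ 𝕂] (θ : 𝕂) (l e : ℕ) (hl : l.Prime)
    (he : 0 < e) (hlκ : (l : κ) ≠ 0) (ζ : κ) (hζ : IsPrimitiveRoot ζ (l ^ e))
    (φ : Gal(𝕂/κ) → ℚ) (hφ : ChiHom κ θ φ) (p : ℕ → κ[X]) (j : ℕ) (S : Finset ℕ) (hj : j ∉ S)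
    (hS : ∀ s ∈ S, aeval θ (p s) ≠ 0)
    (hcr : ∀ i₀ ∈ S, CrossVal κ l ζ θ (fun s => aeval θ (p s)) i₀ j)
    (h1 : ∀ γ : Gal(𝕂/κ), γ θ = θ →
      ∃ n : ℤ, ((l ^ e : ℕ) : ℚ) * (((l ^ e : ℕ) : ℚ) * φ γ) = n)
    (h2 : ∀ γ : Gal(𝕂/κ), γ θ = θ →
      (∀ s ∈ S, ∀ x : 𝕂, x ^ l ^ e = aeval θ (p s) → γ x = x) →
        ∃ n : ℤ, ((l ^ e : ℕ) : ℚ) * φ γ = n)
    (γ : Gal(𝕂/κ)) (hγ : γ θ = θ) : ∃ k : ℤ, ((l ^ e : ℕ) : ℚ) * φ γ = k := by
  classical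
  obtain ⟨N, hN⟩ : ∃ N, N = l ^ e := ⟨_, rfl⟩
  have hN0 : 0 < N := by
    rw [hN]
    exact pow_pos hl.pos e
  have hNq : (N : ℚ) ≠ 0 := by exact_mod_cast hN0.ne'
  rw [← hN] at hζ h1 h2 ⊢
  -- the roots
  have hab : ∀ s, ∃ x : 𝕂, x ^ N = aeval θ (p s) := fun s =>
    IsAlgClosed.exists_pow_nat_eq (aeval θ (p s)) hN0
  choose abar habar using hab
  have hab0 : ∀ s ∈ S, abar s ≠ 0 := by
    intro s hs h0
    have h3 := habar s
    rw [h0, zero_pow hN0.ne'] at h3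
    exact hS s hs h3.symm
  have hact : ∀ (g : Gal(𝕂/κ)) (s : ℕ), g θ = θ → s ∈ S →
      ∃ n : ℕ, g (abar s) = (algebraMap κ 𝕂 ζ) ^ n * abar s := by
    intro g s hg hs
    refine ExpB_root N hN0 ζ hζ _ _ (hab0 s hs) ?_
    rw [← map_pow, habar, ExpB_aeval θ g hg]
  choose! ps hps using hact
  have hcomp : ∀ g h : Gal(𝕂/κ), g θ = θ → h θ = θ → ∀ s ∈ S,
      (ps (g * h) s : ZMod N) = (ps g s : ZMod N) + (ps h s : ZMod N) := by
    intro g h hg hh s hs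
    have hgh : (g * h) θ = θ := by
      show g (h θ) = θ
      rw [hh, hg]
    rw [← Nat.cast_add]
    refine ExpB_unique N ζ hN0 hζ (abar s) (hab0 s hs) _ _ ?_
    rw [← hps (g * h) s hgh hs]
    show g (h (abar s)) = _
    rw [hps h s hh hs, map_mul, map_pow, AlgEquiv.commutes, hps g s hg hs, pow_add]
    ring
  obtain ⟨σ, hσ⟩ : ∃ σ : Fin S.card ≃ S, σ = S.equivFin.symm := ⟨_, rfl⟩
  obtain ⟨nn, hnn⟩ := char_ext (G := MulAction.stabilizer Gal(𝕂/κ) θ) (m := S.card) N hN0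
    (fun g i => (ps (g : Gal(𝕂/κ)) (σ i : ℕ) : ZMod N))
    (fun g h => funext fun i => hcomp g h g.2 h.2 (σ i) (σ i).2)
    (fun g => (N : ℚ) * φ (g : Gal(𝕂/κ))) (by
      intro g h
      obtain ⟨n, hn⟩ := hφ.hom g h g.2 h.2
      refine ⟨N * n, ?_⟩
      have e1 : ((g * h : MulAction.stabilizer Gal(𝕂/κ) θ) : Gal(𝕂/κ)) =
        (g : Gal(𝕂/κ)) * (h : Gal(𝕂/κ)) := rfl
      push_cast
      rw [← hn]
      ring) (fun g => h1 g g.2) (by
      intro g hg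
      refine h2 g g.2 fun s hs x hx => ?_
      have e1 := congrFun hg (σ.symm ⟨s, hs⟩)
      beta_reduce at e1
      rw [Equiv.apply_symm_apply] at e1
      have e2 : (ps (g : Gal(𝕂/κ)) s : ZMod N) = 0 := e1
      have e3 : (g : Gal(𝕂/κ)) (abar s) = abar s := by
        rw [hps g s g.2 hs]
        rw [ZMod.natCast_eq_zero_iff] at e2
        obtain ⟨m, hm⟩ := e2
        rw [hm, pow_mul, ← map_pow, hζ.pow_eq_one, map_one, one_pow, one_mul]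
      obtain ⟨n, hn⟩ := ExpB_root N hN0 ζ hζ x (abar s) (hab0 s hs) (by rw [hx, habar])
      rw [hn, map_mul, map_pow, AlgEquiv.commutes, e3])
  refine hN ▸ cross_kill θ l e hl he hlκ ζ (hN ▸ hζ) φ hφ (fun s => aeval θ (p s))
    (fun s => ExpB_mem θ (p s)) j S hj hS abar (fun s _ => hN ▸ habar s) hcr
    (fun s => if h : s ∈ S then nn (σ.symm ⟨s, h⟩) else 0) (fun g hg qs hqs => ?_) γ hγ
  rw [← hN]
  obtain ⟨k, hk⟩ := hnn ⟨g, hg⟩
  have hval : ∀ i : Fin S.card, ∃ z : ℤ,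
      (((ps g (σ i : ℕ) : ZMod N).val : ℕ) : ℚ) - (qs (σ i : ℕ) : ℚ) = (N : ℚ) * z := by
    intro i
    have e1 : (ps g (σ i : ℕ) : ZMod N) = (qs (σ i : ℕ) : ZMod N) := by
      refine ExpB_unique N ζ hN0 hζ (abar (σ i)) (hab0 _ (σ i).2) _ _ ?_
      rw [← hps g _ hg (σ i).2, hqs _ (σ i).2]
    rw [e1, ZMod.val_natCast]
    have e2 := Nat.mod_add_div (qs (σ i : ℕ)) N
    obtain ⟨q, hq⟩ : ∃ q, q = qs (σ i : ℕ) / N := ⟨_, rfl⟩
    rw [← hq] at e2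
    refine ⟨-(q : ℤ), ?_⟩
    have e3 : ((qs (σ i : ℕ) % N : ℕ) : ℚ) + (N : ℚ) * (q : ℚ) =
        (qs (σ i : ℕ) : ℚ) := by exact_mod_cast e2
    push_cast
    linarith
  choose z hz using hval
  have hsum : (∑ s ∈ S, (((if h : s ∈ S then nn (σ.symm ⟨s, h⟩) else 0 : ℕ)) : ℚ) *
      (qs s : ℚ)) = ∑ i, (nn i : ℚ) * (qs (σ i : ℕ) : ℚ) := by
    rw [← Finset.sum_coe_sort S (fun s => (((if h : s ∈ S then nn (σ.symm ⟨s, h⟩) else 0 : ℕ)) : ℚ) *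
      (qs s : ℚ)), ← Equiv.sum_comp σ]
    refine Finset.sum_congr rfl fun i _ => ?_
    rw [dif_pos (σ i).2]
    have e1 : σ.symm ⟨(σ i : ℕ), (σ i).2⟩ = i := σ.symm_apply_apply i
    rw [e1]
  rw [hsum]
  refine ⟨k + ∑ i, (nn i : ℤ) * z i, ?_⟩
  push_cast
  rw [← hk]
  have e2 : ∑ i, (nn i : ℚ) * (((ps g (σ i : ℕ) : ZMod N).val : ℕ) : ℚ) =
      ∑ i, (nn i : ℚ) * (qs (σ i : ℕ) : ℚ) + (N : ℚ) * ∑ i, (nn i : ℚ) * (z i : ℚ) := by
    rw [Finset.mul_sum, ← Finset.sum_add_distrib]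
    refine Finset.sum_congr rfl fun i _ => ?_
    have e3 := hz i
    have e4 : (((ps g (σ i : ℕ) : ZMod N).val : ℕ) : ℚ) = (qs (σ i : ℕ) : ℚ) + (N : ℚ) * z i := by
      linarith
    rw [e4]
    ring
  change _ = (N : ℚ) * φ g -
    (∑ i, (nn i : ℚ) * (((ps g (σ i : ℕ) : ZMod N).val : ℕ) : ℚ)) / (N : ℚ) + _
  rw [e2]
  field_simp
  ring

/-- the properties of the sequence p_s in kappa[X] used for the fibration F = kappa(y) -/
structure FibSeq (κ 𝕂 : Type) [Field κ] [Field 𝕂] [Algebra κ 𝕂] (l : ℕ) (ζ : κ)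
    (p : ℕ → κ[X]) : Prop where
  ne_zero : ∀ s, p s ≠ 0
  coprime : ∀ s t, s ≠ t → ∀ θ : 𝕂, aeval θ (p s) = 0 → aeval θ (p t) ≠ 0
  cross : ∀ (j : ℕ) (θ : 𝕂), aeval θ (p j) = 0 → ∀ i₀, i₀ ≠ j →
    CrossVal κ l ζ θ (fun s => aeval θ (p s)) i₀ j

section
variable (κ F : Type) {Ω : Type} [Field κ] [Field F] [Field Ω] [Algebra κ F] [Algebra κ[X] F]
  [IsScalarTower κ κ[X] F] [IsFractionRing κ[X] F] [Algebra F Ω] [Algebra κ Ω]
  [IsScalarTower κ F Ω] [IsGalois F Ω]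

omit [Algebra κ F] [Algebra κ[X] F] [IsScalarTower κ κ[X] F] [IsFractionRing κ[X] F]
  [IsScalarTower κ F Ω] in
/-- a finite set of indices is enough -/
theorem ExpB_fin (pi : ℕ → Ω) {c : Gal(Ω/F) → Gal(Ω/F) → Ωˣ} (hc : BC c)
    (hs : Spl (KumL F pi Set.univ) c) : ∃ S : Finset ℕ, Spl (KumL F pi S) c := by
  obtain ⟨E, hE, hEf, hEs⟩ := Spl.exists_finite hc.2 hs
  obtain ⟨S, hS⟩ := exists_finset_kumL F pi E hE
  exact ⟨S, hEs.mono hS⟩

omit [Algebra κ Ω] [IsScalarTower κ F Ω] [IsGalois F Ω] in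
theorem ExpB_hpi (N : ℕ) (p : ℕ → κ[X]) (hp : ∀ s, p s ≠ 0) (pi : ℕ → Ω)
    (hpi : ∀ s, pi s ^ N = algebraMap F Ω (algebraMap κ[X] F (p s))) :
    ∀ s, ∃ a : F, a ≠ 0 ∧ pi s ^ N = algebraMap F Ω a := fun s =>
  ⟨algebraMap κ[X] F (p s),
    (map_ne_zero_iff _ (IsFractionRing.injective κ[X] F)).2 (hp s), hpi s⟩

theorem exp_local {𝕂 : Type} [Field 𝕂] [Algebra κ 𝕂] [IsAlgClosed 𝕂]
    [Algebra.IsAlgebraic κ 𝕂] (l e : ℕ) (hl : l.Prime) (he : 0 < e) (hlκ : (l : κ) ≠ 0) (ζ : κ)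
    (hζ : IsPrimitiveRoot ζ (l ^ e)) (p : ℕ → κ[X]) (hp : FibSeq κ 𝕂 l ζ p) (pi : ℕ → Ω)
    (hpi : ∀ s, pi s ^ l ^ e = algebraMap F Ω (algebraMap κ[X] F (p s)))
    {c : Gal(Ω/F) → Gal(Ω/F) → Ωˣ} (hc : BC c) (hs : Spl (KumL F pi Set.univ) c)
    (kp : IntermediateField κ Ω) [FiniteDimensional κ kp] [Normal κ kp] (i : kp →ₐ[κ] 𝕂)
    {c' : Gal(kp/κ) → Gal(kp/κ) → (RF kp)ˣ} (hc' : IsC2 c') (h : BEq c (inflR κ F kp c'))
    (θ : 𝕂) (γ : Gal(𝕂/κ)) (hγ : γ θ = θ) (d : Gal(kp/κ)) (hd : ∀ z, i (d z) = γ (i z)) :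
    ∃ n : ℤ, ((l ^ e : ℕ) : ℚ) * xiR (i : kp →+* 𝕂) θ c' d = n := by
  classical
  have hN0 : 0 < l ^ e := pow_pos hl.pos e
  have hNκ : ((l ^ e : ℕ) : κ) ≠ 0 := by
    rw [Nat.cast_pow]
    exact pow_ne_zero e hlκ
  have hζF : IsPrimitiveRoot (algebraMap κ F ζ) (l ^ e) :=
    hζ.map_of_injective (algebraMap κ F).injective
  have hpi' := ExpB_hpi κ F (l ^ e) p hp.ne_zero pi hpi
  obtain ⟨S, hS⟩ := ExpB_fin F pi hc hs
  by_cases hcase : ∀ s ∈ S, aeval θ (p s) ≠ 0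
  · -- case 1
    have := kumL_finite F pi S
    have := kumL_normal F (l ^ e) hN0 (algebraMap κ F ζ) hζF pi hpi' S
    obtain ⟨c₀, hc₀, hl₀, hb⟩ := exists_level_of_spl (KumL F pi S) hc hS
    exact (exp_unram κ F (l ^ e) hNκ ζ hζ p hp.ne_zero pi hpi S θ hcase hc₀ hl₀ kp i hc'
      (hb.symm.trans h) γ hγ d hd).1
  · -- case 2
    push Not at hcase
    obtain ⟨j, hjS, hj0⟩ := hcase
    have hjS' : j ∉ S.erase j := Finset.notMem_erase j S
    have hins : insert j (S.erase j) = S := Finset.insert_erase hjS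
    have hS' : ∀ s ∈ S.erase j, aeval θ (p s) ≠ 0 := fun s hs =>
      hp.coprime j s (Finset.ne_of_mem_erase hs).symm θ hj0
    have h3 : Spl (KumL F pi (S.erase j : Finset ℕ)) (fun σ τ => c σ τ ^ l ^ e) :=
      spl_kumL_insert F (l ^ e) hN0 (algebraMap κ F ζ) hζF pi hpi' (S.erase j) j hc
        (by rw [hins]; exact hS)
    have := kumL_finite F pi (S.erase j)
    have := kumL_normal F (l ^ e) hN0 (algebraMap κ F ζ) hζF pi hpi' (S.erase j : Finset ℕ)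
    obtain ⟨c₁, hc₁, hl₁, hb⟩ := exists_level_of_spl (KumL F pi (S.erase j : Finset ℕ))
      (hc.pow (l ^ e)) h3
    have h4 : BEq c₁ (inflR κ F kp (fun g j => c' g j ^ l ^ e)) := by
      have h5 := h.pow (l ^ e)
      have h6 : (fun σ τ => inflR κ F kp c' σ τ ^ l ^ e) =
          inflR κ F kp (fun g j => c' g j ^ l ^ e) := by
        funext σ τ
        unfold inflR
        rw [map_pow]
      rw [h6] at h5
      exact hb.symm.trans h5
    -- the compatible automorphisms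
    have hex : ∀ g : Gal(𝕂/κ), ∃ d : Gal(kp/κ), ∀ z : kp, i (d z) = g (i z) :=
      fun g => exists_compat i g
    choose dd hdd using hex
    have huniq : ∀ (g : Gal(𝕂/κ)) (d : Gal(kp/κ)), (∀ z, i (d z) = g (i z)) → dd g = d := by
      intro g d hd
      apply AlgEquiv.ext
      intro z
      apply (i : kp →+* 𝕂).injective
      exact (hdd g z).trans (hd z).symm
    have hφ : ChiHom κ θ (fun g => xiR (i : kp →+* 𝕂) θ c' (dd g)) := by
      constructor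
      · intro g g' hg hg'
        have e1 : dd (g * g') = dd g * dd g' := by
          apply huniq
          intro z
          show i (dd g (dd g' z)) = g (g' (i z))
          rw [hdd, hdd]
        show ∃ n : ℤ, xiR (i : kp →+* 𝕂) θ c' (dd (g * g')) - xiR (i : kp →+* 𝕂) θ c' (dd g) -
          xiR (i : kp →+* 𝕂) θ c' (dd g') = n
        rw [e1]
        exact xiR_hom (i : kp →+* 𝕂) θ hc' g hg (dd g) (dd g') (fun z => hdd g z)
      · obtain ⟨B⟩ : Nonempty (Module.Basis (Fin (Module.finrank κ kp)) κ kp) :=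
          ⟨Module.finBasis κ kp⟩
        refine ⟨Finset.univ.image (fun a => i (B a)), fun g hg hfix => ?_⟩
        have e1 : dd g = 1 := by
          apply huniq
          intro z
          have e2 : (g : 𝕂 →ₐ[κ] 𝕂).toLinearMap ∘ₗ i.toLinearMap = i.toLinearMap := by
            apply B.ext
            intro a
            exact hfix (i (B a)) (Finset.mem_image_of_mem _ (Finset.mem_univ a))
          have e3 := congrArg (fun f : kp →ₗ[κ] 𝕂 => f z) e2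
          exact e3.symm
        show ∃ n : ℤ, xiR (i : kp →+* 𝕂) θ c' (dd g) = n
        rw [e1]
        exact xiR_one (i : kp →+* 𝕂) θ hc'
    have hpow : ∀ d : Gal(kp/κ), xiR (i : kp →+* 𝕂) θ (fun g j => c' g j ^ l ^ e) d =
        ((l ^ e : ℕ) : ℚ) * xiR (i : kp →+* 𝕂) θ c' d := fun d =>
      xiR_pow (i : kp →+* 𝕂) θ c' (l ^ e) d
    have hunr := fun (g : Gal(𝕂/κ)) (hg : g θ = θ) =>
      exp_unram κ F (l ^ e) hNκ ζ hζ p hp.ne_zero pi hpi (S.erase j) θ hS' hc₁ hl₁ kp i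
        (hc'.pow (l ^ e)) h4 g hg (dd g) (hdd g)
    have hres := ExpB_kill θ l e hl he hlκ ζ hζ
      (fun g => xiR (i : kp →+* 𝕂) θ c' (dd g)) hφ p j (S.erase j) hjS' hS'
      (fun i₀ hi₀ => hp.cross j θ hj0 i₀ (Finset.ne_of_mem_erase hi₀))
      (fun g hg => by
        have e1 := (hunr g hg).1
        rw [hpow] at e1
        exact e1)
      (fun g hg hx => by
        have e1 := (hunr g hg).2 hx
        rw [hpow] at e1
        exact e1) γ hγ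
    rw [← huniq γ d hd]
    exact hres

/-- the class is l-primary (exists_finset_kumL, pow_beq_of_spl_kumL) -/
theorem exp_primary (l e : ℕ) (hl : l.Prime) (ζ : κ)
    (hζ : IsPrimitiveRoot ζ (l ^ e)) (p : ℕ → κ[X]) (hp0 : ∀ s, p s ≠ 0) (pi : ℕ → Ω)
    (hpi : ∀ s, pi s ^ l ^ e = algebraMap F Ω (algebraMap κ[X] F (p s)))
    {c : Gal(Ω/F) → Gal(Ω/F) → Ωˣ} (hc : BC c) (hs : Spl (KumL F pi Set.univ) c) :
    ∃ s : ℕ, BEq (fun σ τ => c σ τ ^ l ^ s) c1 := by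
  have hζF : IsPrimitiveRoot (algebraMap κ F ζ) (l ^ e) :=
    hζ.map_of_injective (algebraMap κ F).injective
  obtain ⟨S, hS⟩ := ExpB_fin F pi hc hs
  obtain ⟨s, h⟩ := pow_beq_of_spl_kumL F (l ^ e) (pow_pos hl.pos e) (algebraMap κ F ζ) hζF pi
    (ExpB_hpi κ F (l ^ e) p hp0 pi hpi) S hc hS
  refine ⟨e * s, ?_⟩
  rw [pow_mul]
  exact h

end

end W42
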