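import Pool.Agent.W_42fc02_h90.FieldA

/-!
FieldB: dictionary between cochains of level KF kp and cochains of Gal(kp / kappa) with values in
RatFunc kp. (F = kappa(y), Omega / F Galois.)
-/

namespace W42

open Polynomial

section
variable (κ F : Type) {Ω : Type} [Field κ] [Field F] [Field Ω] [Algebra κ F] [Algebra κ[X] F]
  [IsScalarTower κ κ[X] F] [IsFractionRing κ[X] F] [Algebra F Ω] [Algebra κ Ω]
  [IsScalarTower κ F Ω] [IsGalois F Ω]

private theorem FieldB_coe (kp : IntermediateField κ Ω) [FiniteDimensional κ kp]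
    (u : (RF kp)ˣ) :
    ((Units.map (PhiO κ F kp : RF kp →* Ω) u : Ωˣ) : Ω) = PhiO κ F kp (u : RF kp) := rfl

private theorem FieldB_inj (kp : IntermediateField κ Ω) [FiniteDimensional κ kp]
    {u v : (RF kp)ˣ}
    (h : Units.map (PhiO κ F kp : RF kp →* Ω) u = Units.map (PhiO κ F kp : RF kp →* Ω) v) :
    u = v := by
  apply Units.ext
  apply (PhiO κ F kp).injective
  have h2 := congrArg (fun w : Ωˣ => (w : Ω)) h
  exact h2

private theorem FieldB_smul (kp : IntermediateField κ Ω) [FiniteDimensional κ kp] [Normal κ kp]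
    (σ : Gal(Ω/F)) (u : (RF kp)ˣ) :
    σ • (Units.map (PhiO κ F kp : RF kp →* Ω) u : Ωˣ) =
      Units.map (PhiO κ F kp : RF kp →* Ω) (rk κ F kp σ • u) := by
  apply Units.ext
  exact smul_PhiO κ F kp σ (u : RF kp)

private theorem FieldB_exists (kp : IntermediateField κ Ω) [FiniteDimensional κ kp]
    (z : Ωˣ) (hz : (z : Ω) ∈ KF κ F kp) :
    ∃ u : (RF kp)ˣ, Units.map (PhiO κ F kp : RF kp →* Ω) u = z := by
  obtain ⟨f, hf⟩ := (mem_KF_iff κ F kp _).1 hz
  have hf0 : f ≠ 0 := by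
    rintro rfl
    rw [map_zero] at hf
    exact z.ne_zero hf.symm
  refine ⟨Units.mk0 f hf0, ?_⟩
  apply Units.ext
  exact hf

theorem lev2_inflR (kp : IntermediateField κ Ω) [FiniteDimensional κ kp] [Normal κ kp]
    (c : Gal(kp/κ) → Gal(kp/κ) → (RF kp)ˣ) : Lev2 (KF κ F kp) (inflR κ F kp c) := by
  constructor
  · intro σ τ
    rw [mem_KF_iff]
    exact ⟨_, rfl⟩
  · intro σ σ' τ τ' hσ hτ
    have h1 := (rk_eq_iff κ F kp σ σ').2 hσ
    have h2 := (rk_eq_iff κ F kp τ τ').2 hτ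
    unfold inflR
    rw [h1, h2]

theorem exists_inflR (kp : IntermediateField κ Ω) [FiniteDimensional κ kp] [Normal κ kp]
    {c : Gal(Ω/F) → Gal(Ω/F) → Ωˣ} (hc : Lev2 (KF κ F kp) c) :
    ∃ c' : Gal(kp/κ) → Gal(kp/κ) → (RF kp)ˣ, c = inflR κ F kp c' := by
  have hs := Function.surjInv_eq (rk_surjective κ F kp)
  have hex := fun g j => FieldB_exists κ F kp (c (Function.surjInv (rk_surjective κ F kp) g)
    (Function.surjInv (rk_surjective κ F kp) j)) (hc.1 _ _)
  choose c' hc' using hex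
  refine ⟨c', ?_⟩
  funext σ τ
  have h1 := (rk_eq_iff κ F kp _ σ).1 (hs (rk κ F kp σ))
  have h2 := (rk_eq_iff κ F kp _ τ).1 (hs (rk κ F kp τ))
  have h3 := hc.2 _ _ _ _ h1 h2
  rw [← h3]
  exact (hc' (rk κ F kp σ) (rk κ F kp τ)).symm

theorem exists_inflR1 (kp : IntermediateField κ Ω) [FiniteDimensional κ kp] [Normal κ kp]
    {b : Gal(Ω/F) → Ωˣ} (hb : Lev1 (KF κ F kp) b) :
    ∃ b' : Gal(kp/κ) → (RF kp)ˣ, b = inflR1 κ F kp b' := by
  have hs := Function.surjInv_eq (rk_surjective κ F kp)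
  have hex := fun g => FieldB_exists κ F kp (b (Function.surjInv (rk_surjective κ F kp) g))
    (hb.1 _)
  choose b' hb' using hex
  refine ⟨b', ?_⟩
  funext σ
  have h1 := (rk_eq_iff κ F kp _ σ).1 (hs (rk κ F kp σ))
  have h3 := hb.2 _ _ h1
  rw [← h3]
  exact (hb' (rk κ F kp σ)).symm

theorem isC2_inflR (kp : IntermediateField κ Ω) [FiniteDimensional κ kp] [Normal κ kp]
    (c : Gal(kp/κ) → Gal(kp/κ) → (RF kp)ˣ) : IsC2 (inflR κ F kp c) ↔ IsC2 c := by
  have key : ∀ σ τ υ : Gal(Ω/F), (inflR κ F kp c σ τ * inflR κ F kp c (σ * τ) υ =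
      (σ • inflR κ F kp c τ υ) * inflR κ F kp c σ (τ * υ)) ↔
      (c (rk κ F kp σ) (rk κ F kp τ) * c (rk κ F kp σ * rk κ F kp τ) (rk κ F kp υ) =
      (rk κ F kp σ • c (rk κ F kp τ) (rk κ F kp υ)) *
        c (rk κ F kp σ) (rk κ F kp τ * rk κ F kp υ)) := by
    intro σ τ υ
    unfold inflR
    rw [FieldB_smul, map_mul (rk κ F kp) σ τ, map_mul (rk κ F kp) τ υ]
    constructor
    · intro h
      apply FieldB_inj κ F kp
      rw [map_mul, map_mul]
      exact h
    · intro h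
      have h2 := congrArg (Units.map (PhiO κ F kp : RF kp →* Ω)) h
      rw [map_mul, map_mul] at h2
      exact h2
  constructor
  · intro h g j l
    obtain ⟨σ, rfl⟩ := rk_surjective κ F kp g
    obtain ⟨τ, rfl⟩ := rk_surjective κ F kp j
    obtain ⟨υ, rfl⟩ := rk_surjective κ F kp l
    exact (key σ τ υ).1 (h σ τ υ)
  · intro h σ τ υ
    exact (key σ τ υ).2 (h _ _ _)

theorem lev1_inflR1 (kp : IntermediateField κ Ω) [FiniteDimensional κ kp] [Normal κ kp]
    (b : Gal(kp/κ) → (RF kp)ˣ) : Lev1 (KF κ F kp) (inflR1 κ F kp b) := by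
  constructor
  · intro σ
    rw [mem_KF_iff]
    exact ⟨_, rfl⟩
  · intro σ τ hσ
    have h1 := (rk_eq_iff κ F kp σ τ).2 hσ
    unfold inflR1
    rw [h1]

theorem dB_inflR1 (kp : IntermediateField κ Ω) [FiniteDimensional κ kp] [Normal κ kp]
    (b : Gal(kp/κ) → (RF kp)ˣ) : dB (inflR1 κ F kp b) = inflR κ F kp (dB b) := by
  funext σ τ
  unfold inflR inflR1
  change _ * _ / _ = Units.map (PhiO κ F kp : RF kp →* Ω) (b (rk κ F kp σ) *
    (rk κ F kp σ • b (rk κ F kp τ)) / b (rk κ F kp σ * rk κ F kp τ))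
  rw [FieldB_smul, _root_.map_div, map_mul]
  beta_reduce
  rw [map_mul (rk κ F kp) σ τ]

theorem inflR_injective (kp : IntermediateField κ Ω) [FiniteDimensional κ kp] [Normal κ kp]
    {c c' : Gal(kp/κ) → Gal(kp/κ) → (RF kp)ˣ} (h : inflR κ F kp c = inflR κ F kp c') :
    c = c' := by
  funext g j
  obtain ⟨σ, rfl⟩ := rk_surjective κ F kp g
  obtain ⟨τ, rfl⟩ := rk_surjective κ F kp j
  exact FieldB_inj κ F kp (congrFun (congrFun h σ) τ)

/-- equivalence at level KF kp is equivalence of the finite level cocycles. -/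
theorem exists_dB_of_beq_inflR (kp : IntermediateField κ Ω) [FiniteDimensional κ kp]
    [Normal κ kp] {c c' : Gal(kp/κ) → Gal(kp/κ) → (RF kp)ˣ} (hc : IsC2 c) (hc' : IsC2 c')
    (h : BEq (inflR κ F kp c) (inflR κ F kp c')) :
    ∃ b : Gal(kp/κ) → (RF kp)ˣ, ∀ g j, c g j = c' g j * dB b g j := by
  have := KF_finite κ F kp
  have := KF_normal κ F kp
  obtain ⟨b, hb, hbe⟩ := exists_lev1_of_beq (KF κ F kp) ((isC2_inflR κ F kp c).2 hc)
    ((isC2_inflR κ F kp c').2 hc') (lev2_inflR κ F kp c) (lev2_inflR κ F kp c') h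
  obtain ⟨b', rfl⟩ := exists_inflR1 κ F kp hb
  refine ⟨b', fun g j => ?_⟩
  obtain ⟨σ, rfl⟩ := rk_surjective κ F kp g
  obtain ⟨τ, rfl⟩ := rk_surjective κ F kp j
  apply FieldB_inj κ F kp
  have h1 := hbe σ τ
  rw [dB_inflR1] at h1
  rw [map_mul]
  exact h1

theorem beq_inflR_of_dB (kp : IntermediateField κ Ω) [FiniteDimensional κ kp]
    [Normal κ kp] {c c' : Gal(kp/κ) → Gal(kp/κ) → (RF kp)ˣ}
    (b : Gal(kp/κ) → (RF kp)ˣ) (hb : ∀ g j, c g j = c' g j * dB b g j) :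
    BEq (inflR κ F kp c) (inflR κ F kp c') := by
  refine ⟨inflR1 κ F kp b, ⟨KF κ F kp, KF_finite κ F kp, KF_normal κ F kp,
    lev1_inflR1 κ F kp b⟩, fun σ τ => ?_⟩
  rw [dB_inflR1]
  unfold inflR
  rw [hb, map_mul]

theorem inflC_eq_inflR (kp : IntermediateField κ Ω) [FiniteDimensional κ kp] [Normal κ kp]
    (c : Gal(kp/κ) → Gal(kp/κ) → kpˣ) : inflC κ F kp c =
      inflR κ F kp (fun g j => Units.map (cF kp : kp →* RF kp) (c g j)) := by
  funext σ τ
  apply Units.ext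
  exact (PhiO_C κ F kp (c (rk κ F kp σ) (rk κ F kp τ) : kp)).symm

private theorem FieldB_isC2_const (kp : IntermediateField κ Ω) [FiniteDimensional κ kp]
    [Normal κ kp] {c : Gal(kp/κ) → Gal(kp/κ) → kpˣ} (hc : IsC2 c) :
    IsC2 (fun g j => Units.map (cF kp : kp →* RF kp) (c g j)) := by
  intro g j l
  have h1 : g • (Units.map (cF kp : kp →* RF kp) (c j l)) =
      Units.map (cF kp : kp →* RF kp) (g • c j l) := by
    apply Units.ext
    exact rmap_C (g : kp →+* kp) (c j l : kp)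
  change Units.map (cF kp : kp →* RF kp) (c g j) * Units.map (cF kp : kp →* RF kp) (c (g * j) l) =
    g • (Units.map (cF kp : kp →* RF kp) (c j l)) *
      Units.map (cF kp : kp →* RF kp) (c g (j * l))
  rw [h1, ← map_mul, ← map_mul, hc g j l]

/-- constants: if the constant cocycle c0 becomes trivial over F it is a coboundary
(exists_dB_of_beq_inflR and const_coboundary). -/
theorem exists_dB_of_beq_inflC (kp : IntermediateField κ Ω) [FiniteDimensional κ kp]
    [Normal κ kp] {c : Gal(kp/κ) → Gal(kp/κ) → kpˣ} (hc : IsC2 c)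
    (h : BEq (inflC κ F kp c) c1) : ∃ b : Gal(kp/κ) → kpˣ, ∀ g j, c g j = dB b g j := by
  have h1 : (c1 : Gal(Ω/F) → Gal(Ω/F) → Ωˣ) = inflR κ F kp (fun _ _ => 1) := by
    funext σ τ
    unfold c1 inflR
    rw [map_one]
  rw [inflC_eq_inflR, h1] at h
  obtain ⟨b, hb⟩ := exists_dB_of_beq_inflR κ F kp (FieldB_isC2_const κ kp hc) isC2_one h
  apply const_coboundary c b
  intro g j
  rw [hb g j, one_mul]

/-- going up to a bigger finite normal kq. -/
theorem inflR_mono (kp kq : IntermediateField κ Ω) [FiniteDimensional κ kp] [Normal κ kp]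
    [FiniteDimensional κ kq] [Normal κ kq] (h : kp ≤ kq)
    (c : Gal(kp/κ) → Gal(kp/κ) → (RF kp)ˣ) :
    ∃ c' : Gal(kq/κ) → Gal(kq/κ) → (RF kq)ˣ, inflR κ F kp c = inflR κ F kq c' :=
  exists_inflR κ F kq ((lev2_inflR κ F kp c).mono (KF_mono κ F h))

end

end W42
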