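import Pool.Agent.W_42fc02_h90.NSc
import Pool.Agent.W_42fc02_h90.FieldB

/-!
Tsen: S1. kappa a field, F = kappa(y), Omega a separable closure of F, l prime, l not 0 in kappa.
Every Brauer cocycle c over F killed by a power of l is equivalent to the inflation of a cocycle of
Gal(kp / kappa) with values in RF kp = kp(y), kp / kappa finite Galois inside Omega.

nsprop_const: E = KF kappas, kappas = separableClosure kappa Omega (a separably closed field since
Omega is: separableClosure.isSepClosure / isSepClosed). E = Frac kappas[X] through PhiO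
(mem_KF_iff, PhiO injective): make E a kappas[X]-algebra by eval at yO and use nsprop_frac.
tsen: spl_of_nsprop gives Spl E c; Spl.exists_finite gives E0 <= E finite, Spl E0 c; E0 is
generated by finitely many elements, each in KF of a finite subextension of kappas / kappa
(mem_KF_iff: coefficients of a rational function), so E0 <= KF kp for kp finite Galois over kappa
(normal closure in Omega); Spl.mono, exists_level_of_spl, exists_inflR, isC2_inflR.
-/

namespace W42

open Polynomial

section
variable (κ F : Type) {Ω : Type} [Field κ] [Field F] [Field Ω] [Algebra κ F] [Algebra κ[X] F]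
  [IsScalarTower κ κ[X] F] [IsFractionRing κ[X] F] [Algebra F Ω] [Algebra κ Ω]
  [IsScalarTower κ F Ω] [IsGalois F Ω] [IsSepClosed Ω]

theorem nsprop_const (l : ℕ) [Fact l.Prime] (hl : (l : κ) ≠ 0) :
    NSprop l (KF κ F (separableClosure κ Ω)) := by
  have hsep : IsSepClosed (separableClosure κ Ω) :=
    (inferInstance : IsSepClosure κ (separableClosure κ Ω)).sep_closed
  have hmem : ∀ p : (separableClosure κ Ω)[X],
      PhiO κ F (separableClosure κ Ω) (pF _ p) ∈ KF κ F (separableClosure κ Ω) :=
    fun p => (mem_KF_iff κ F _ _).2 ⟨_, rfl⟩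
  let e : (separableClosure κ Ω)[X] →+* KF κ F (separableClosure κ Ω) :=
    ((PhiO κ F (separableClosure κ Ω)).comp (pF (separableClosure κ Ω))).codRestrict
      (KF κ F (separableClosure κ Ω)) hmem
  have he : ∀ p, ((e p : KF κ F (separableClosure κ Ω)) : Ω) =
      PhiO κ F (separableClosure κ Ω) (pF _ p) := fun p => rfl
  let _ : Algebra (separableClosure κ Ω)[X] (KF κ F (separableClosure κ Ω)) := e.toAlgebra
  have hinj : Function.Injective e := by
    intro p q hpq
    have h1 := congrArg (fun z : KF κ F (separableClosure κ Ω) => (z : Ω)) hpq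
    exact pF_injective _ ((PhiO κ F (separableClosure κ Ω)).injective h1)
  have _ : FaithfulSMul (separableClosure κ Ω)[X] (KF κ F (separableClosure κ Ω)) :=
    (faithfulSMul_iff_algebraMap_injective _ _).2 hinj
  have _ : IsFractionRing (separableClosure κ Ω)[X] (KF κ F (separableClosure κ Ω)) := by
    refine IsFractionRing.of_field _ _ fun z => ?_
    obtain ⟨f, hf⟩ := (mem_KF_iff κ F _ _).1 z.2
    obtain ⟨p, q, _, rfl⟩ := exists_pF_div f
    refine ⟨p, q, Subtype.ext ?_⟩
    rw [← hf, map_div₀]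
    rfl
  refine nsprop_frac (K₀ := separableClosure κ Ω) l ?_
  intro h
  apply hl
  apply (algebraMap κ (separableClosure κ Ω)).injective
  rw [map_natCast, map_zero]
  exact h

/-- a finite subextension of F kappas lies in KF kp, kp / kappa finite Galois -/
theorem exists_kp_of_finite (E₀ : IntermediateField F Ω) [FiniteDimensional F E₀]
    (h : E₀ ≤ KF κ F (separableClosure κ Ω)) :
    ∃ (kp : IntermediateField κ Ω), FiniteDimensional κ kp ∧ IsGalois κ kp ∧
      E₀ ≤ KF κ F kp := by
  classical
  have hgal : IsGalois κ (separableClosure κ Ω) :=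
    (inferInstance : IsSepClosure κ (separableClosure κ Ω)).isGalois
  obtain ⟨b, hb⟩ : ∃ b : Module.Basis (Fin (Module.finrank F E₀)) F E₀, b = Module.finBasis F E₀ :=
    ⟨_, rfl⟩
  have hex : ∀ i, ∃ p q : (separableClosure κ Ω)[X],
      ((b i : E₀) : Ω) = PhiO κ F (separableClosure κ Ω) (pF _ p / pF _ q) := by
    intro i
    obtain ⟨f, hf⟩ := (mem_KF_iff κ F _ _).1 (h (b i).2)
    obtain ⟨p, q, _, rfl⟩ := exists_pF_div f
    exact ⟨p, q, hf.symm⟩
  choose p q hpq using hex
  obtain ⟨M, hM1, hM2, hM3⟩ := exists_normal_mem (F := κ) (Ω := separableClosure κ Ω)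
    (Finset.univ.biUnion fun i => (p i).support.image (p i).coeff ∪ (q i).support.image (q i).coeff)
  have hcoef : ∀ i n, (p i).coeff n ∈ M ∧ (q i).coeff n ∈ M := by
    intro i n
    constructor
    · by_cases h0 : (p i).coeff n = 0
      · rw [h0]
        exact M.zero_mem
      · refine hM3 _ (Finset.mem_biUnion.2 ⟨i, Finset.mem_univ _, Finset.mem_union_left _ ?_⟩)
        exact Finset.mem_image_of_mem _ (mem_support_iff.2 h0)
    · by_cases h0 : (q i).coeff n = 0
      · rw [h0]
        exact M.zero_mem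
      · refine hM3 _ (Finset.mem_biUnion.2 ⟨i, Finset.mem_univ _, Finset.mem_union_right _ ?_⟩)
        exact Finset.mem_image_of_mem _ (mem_support_iff.2 h0)
  have e := IntermediateField.liftAlgEquiv M
  have hg : IsGalois κ M := { to_isSeparable := inferInstance, to_normal := hM2 }
  refine ⟨IntermediateField.lift M, e.toLinearEquiv.finiteDimensional, IsGalois.of_algEquiv e, ?_⟩
  have hev : ∀ r : (separableClosure κ Ω)[X], (∀ n, r.coeff n ∈ M) →
      PhiO κ F (separableClosure κ Ω) (pF _ r) ∈ KF κ F (IntermediateField.lift M) := by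
    intro r hr
    rw [PhiO_poly, eval₂_eq_sum]
    refine sum_mem fun n _ => mul_mem ?_ (pow_mem ?_ n)
    · apply IntermediateField.subset_adjoin F
      exact (IntermediateField.mem_lift (r.coeff n)).2 (hr n)
    · exact (KF κ F (IntermediateField.lift M)).algebraMap_mem _
  intro x hx
  have h1 := b.sum_repr ⟨x, hx⟩
  have h2 := congrArg (fun w : E₀ => (w : Ω)) h1
  have h3 : x = ∑ i, algebraMap F Ω (b.repr ⟨x, hx⟩ i) * ((b i : E₀) : Ω) := by
    refine Eq.trans h2.symm ?_
    have h4 : ((∑ i, b.repr ⟨x, hx⟩ i • b i : E₀) : Ω) =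
        ∑ i, ((b.repr ⟨x, hx⟩ i • b i : E₀) : Ω) := map_sum (algebraMap E₀ Ω) _ _
    refine h4.trans (Finset.sum_congr rfl fun i _ => ?_)
    rw [← Algebra.smul_def]
    rfl
  rw [h3]
  refine sum_mem fun i _ => mul_mem ((KF κ F (IntermediateField.lift M)).algebraMap_mem _) ?_
  rw [hpq i, map_div₀]
  exact div_mem (hev _ fun n => (hcoef i n).1) (hev _ fun n => (hcoef i n).2)

theorem tsen (l : ℕ) [Fact l.Prime] (hl : (l : κ) ≠ 0) {c : Gal(Ω/F) → Gal(Ω/F) → Ωˣ}
    (hc : BC c) (s : ℕ) (hs : BEq (fun σ τ => c σ τ ^ l ^ s) c1) :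
    ∃ (kp : IntermediateField κ Ω) (_ : FiniteDimensional κ kp) (_ : IsGalois κ kp)
      (c' : Gal(kp/κ) → Gal(kp/κ) → (RF kp)ˣ), IsC2 c' ∧ BEq c (inflR κ F kp c') := by
  have h1 : Spl (KF κ F (separableClosure κ Ω)) c :=
    spl_of_nsprop _ (nsprop_const κ F l hl) hc s hs
  obtain ⟨E₀, hE, hfin, h2⟩ := h1.exists_finite hc.2
  obtain ⟨kp, hk1, hk2, hk3⟩ := exists_kp_of_finite κ F E₀ hE
  have h3 : Spl (KF κ F kp) c := h2.mono hk3
  have hf := KF_finite κ F kp
  have hn := KF_normal κ F kp
  obtain ⟨c', hc1, hc2, hc3⟩ := exists_level_of_spl (KF κ F kp) hc h3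
  obtain ⟨c'', rfl⟩ := exists_inflR κ F kp hc2
  exact ⟨kp, hk1, hk2, c'', (isC2_inflR κ F kp c'').1 hc1, hc3⟩

end

end W42
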