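import Pool.Agent.W_42fc02_h90.ExpB
import Pool.Agent.W_42fc02_h90.Tsen

/-!
ExpC: first fibration: c split by K: c^N is inflated from kappa.
exp_primary, tsen: c ~ inflR c'. i : kp -> KK any embedding (IsAlgClosed.lift). c'' = c'^N.
exp_local and xiR_pow: xiR c'' integral. c''^(l^s) = dB b from exists_dB_of_beq_inflR.
faddeev_of_xiR, beq_inflR_of_dB, inflC_eq_inflR.
exp_second: the general form for the second fibration: some kp, c', all xiR of c'^N integral.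
-/

namespace W42

open Polynomial

section
variable (κ F : Type) {Ω : Type} [Field κ] [Field F] [Field Ω] [Algebra κ F] [Algebra κ[X] F]
  [IsScalarTower κ κ[X] F] [IsFractionRing κ[X] F] [Algebra F Ω] [Algebra κ Ω]
  [IsScalarTower κ F Ω] [IsGalois F Ω] [IsSepClosed Ω]

theorem ExpC_pow (kp : IntermediateField κ Ω) [FiniteDimensional κ kp] [Normal κ kp]
    {c : Gal(Ω/F) → Gal(Ω/F) → Ωˣ} {c' : Gal(kp/κ) → Gal(kp/κ) → (RF kp)ˣ} (n : ℕ)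
    (h : BEq c (inflR κ F kp c')) :
    BEq (fun σ τ => c σ τ ^ n) (inflR κ F kp (fun g j => c' g j ^ n)) := by
  have h1 : inflR κ F kp (fun g j => c' g j ^ n) =
      (fun σ τ => inflR κ F kp c' σ τ ^ n : Gal(Ω/F) → Gal(Ω/F) → Ωˣ) := by
    funext σ τ
    unfold inflR
    rw [map_pow]
  rw [h1]
  exact h.pow n

theorem exp_second {𝕂 : Type} [Field 𝕂] [Algebra κ 𝕂] [IsAlgClosed 𝕂]
    [Algebra.IsAlgebraic κ 𝕂] (l e : ℕ) (hl : l.Prime) (he : 0 < e) (hlκ : (l : κ) ≠ 0) (ζ : κ)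
    (hζ : IsPrimitiveRoot ζ (l ^ e)) (p : ℕ → κ[X]) (hp : FibSeq κ 𝕂 l ζ p) (pi : ℕ → Ω)
    (hpi : ∀ s, pi s ^ l ^ e = algebraMap F Ω (algebraMap κ[X] F (p s)))
    {c : Gal(Ω/F) → Gal(Ω/F) → Ωˣ} (hc : BC c) (hs : Spl (KumL F pi Set.univ) c) :
    ∃ (kp : IntermediateField κ Ω) (_ : FiniteDimensional κ kp) (_ : IsGalois κ kp)
      (c' : Gal(kp/κ) → Gal(kp/κ) → (RF kp)ˣ), IsC2 c' ∧
        BEq (fun σ τ => c σ τ ^ l ^ e) (inflR κ F kp c') ∧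
        ∀ (i : kp →ₐ[κ] 𝕂) (θ : 𝕂) (γ : Gal(𝕂/κ)), γ θ = θ → ∀ d : Gal(kp/κ),
          (∀ z, i (d z) = γ (i z)) → ∃ n : ℤ, xiR (i : kp →+* 𝕂) θ c' d = n := by
  obtain ⟨s, hs1⟩ := exp_primary κ F l e hl ζ hζ p hp.ne_zero pi hpi hc hs
  haveI : Fact l.Prime := ⟨hl⟩
  obtain ⟨kp, hfd, hgal, c', hc', h⟩ := tsen κ F l hlκ hc s hs1
  refine ⟨kp, hfd, hgal, fun g j => c' g j ^ l ^ e, hc'.pow (l ^ e), ExpC_pow κ F kp _ h, ?_⟩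
  intro i θ γ hγ d hd
  obtain ⟨n, hn⟩ := exp_local κ F l e hl he hlκ ζ hζ p hp pi hpi hc hs kp i hc' h θ γ hγ d hd
  exact ⟨n, by rw [xiR_pow, hn]⟩

theorem exp_const {𝕂 : Type} [Field 𝕂] [Algebra κ 𝕂] [IsAlgClosed 𝕂]
    [Algebra.IsAlgebraic κ 𝕂] (l e : ℕ) (hl : l.Prime) (he : 0 < e) (hlκ : (l : κ) ≠ 0) (ζ : κ)
    (hζ : IsPrimitiveRoot ζ (l ^ e)) (p : ℕ → κ[X]) (hp : FibSeq κ 𝕂 l ζ p) (pi : ℕ → Ω)
    (hpi : ∀ s, pi s ^ l ^ e = algebraMap F Ω (algebraMap κ[X] F (p s)))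
    {c : Gal(Ω/F) → Gal(Ω/F) → Ωˣ} (hc : BC c) (hs : Spl (KumL F pi Set.univ) c) :
    ∃ (kp : IntermediateField κ Ω) (_ : FiniteDimensional κ kp) (_ : IsGalois κ kp)
      (c₂ : Gal(kp/κ) → Gal(kp/κ) → kpˣ), IsC2 c₂ ∧
        BEq (fun σ τ => c σ τ ^ l ^ e) (inflC κ F kp c₂) := by
  obtain ⟨s, hs1⟩ := exp_primary κ F l e hl ζ hζ p hp.ne_zero pi hpi hc hs
  obtain ⟨kp, hfd, hgal, c', hc', h, hx⟩ :=
    exp_second κ F l e hl he hlκ ζ hζ p hp pi hpi hc hs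
  have i : kp →ₐ[κ] 𝕂 := IsAlgClosed.lift
  have h1 : (c1 : Gal(Ω/F) → Gal(Ω/F) → Ωˣ) = inflR κ F kp (fun _ _ => 1) := by
    funext σ τ
    unfold c1 inflR
    rw [map_one]
  have h2 : BEq (inflR κ F kp (fun g j => c' g j ^ l ^ s)) (inflR κ F kp (fun _ _ => 1)) := by
    refine (ExpC_pow κ F kp (l ^ s) h).symm.trans ?_
    rw [← h1]
    have h3 := hs1.pow (l ^ e)
    have h4 : (fun σ τ => (c1 : Gal(Ω/F) → Gal(Ω/F) → Ωˣ) σ τ ^ l ^ e) = c1 := by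
      funext σ τ
      unfold c1
      rw [one_pow]
    have h5 : (fun σ τ => (c σ τ ^ l ^ e) ^ l ^ s) = fun σ τ => (c σ τ ^ l ^ s) ^ l ^ e := by
      funext σ τ
      rw [← pow_mul, ← pow_mul, mul_comm]
    rw [h4] at h3
    rw [h5]
    exact h3
  obtain ⟨b, hb⟩ := exists_dB_of_beq_inflR κ F kp (hc'.pow (l ^ s)) isC2_one h2
  obtain ⟨c₀, b', hc₀, hb'⟩ := faddeev_of_xiR i l hl hlκ hc' s b
    (fun g j => (hb g j).trans (one_mul _)) (hx i)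
  refine ⟨kp, hfd, hgal, c₀, hc₀, h.trans ?_⟩
  rw [inflC_eq_inflR]
  exact beq_inflR_of_dB κ F kp b' hb'

end

end W42
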