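import Pool.Agent.W_42fc02_h90.Sec

/-!
SecB: F = k(x,y) with its two fibrations kappa1 = k(x), F = kappa1(y) and kappa2 = k(y), F = kappa2(x).
A class coming from k(x), of level kq (kq / k finite Galois), seen in the second fibration.

level2: kq2 = kappa2 * kq inside Omega: IntermediateField.adjoin kappa2 (image of kq); finite Galois over
kappa2 with group Gal(kq/k) by restriction (kq and kappa2 = k(y) are linearly disjoint over k:
rk_surjective for kappa2 over k, or degree count), j : kq -> kq2 the inclusion.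
-/

namespace W42

open Polynomial

section
variable (κ F : Type) {Ω : Type} [Field κ] [Field F] [Field Ω] [Algebra κ F] [Algebra κ[X] F]
  [IsScalarTower κ κ[X] F] [IsFractionRing κ[X] F] [Algebra F Ω] [Algebra κ Ω]
  [IsScalarTower κ F Ω]

theorem SecB_div (kp : IntermediateField κ Ω) [Algebra.IsAlgebraic κ kp] (p q : kp[X]) :
    PhiO κ F kp (pF kp p / pF kp q) =
      p.eval₂ (algebraMap kp Ω) (yO κ F Ω) / q.eval₂ (algebraMap kp Ω) (yO κ F Ω) :=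
  RatFunc.liftRingHom_apply_div (eval₂RingHom (algebraMap kp Ω) (yO κ F Ω)) (eval_le κ F kp) p q

theorem SecB_C (kp : IntermediateField κ Ω) [Algebra.IsAlgebraic κ kp] (a : kp) :
    PhiO κ F kp (cF kp a) = (a : Ω) := by
  have h : cF kp a = pF kp (C a) / pF kp 1 := by
    rw [map_one, div_one]
    rfl
  rw [h, SecB_div, eval₂_C, eval₂_one, div_one]
  rfl

theorem SecB_map (kp : IntermediateField κ Ω) [Algebra.IsAlgebraic κ kp] (p q : κ[X]) :
    PhiO κ F kp (rmap (algebraMap κ kp)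
      (pF κ p / pF κ q)) =
      algebraMap F Ω (algebraMap κ[X] F p / algebraMap κ[X] F q) := by
  rw [rmap_div, SecB_div, eval₂_map, eval₂_map, map_div₀]
  have h : (algebraMap kp Ω).comp (algebraMap κ kp) = algebraMap κ Ω := rfl
  rw [h, FDef_eval, FDef_eval]

theorem SecB_mem (kp : IntermediateField κ Ω) [Algebra.IsAlgebraic κ kp] (z : Ω) :
    z ∈ KF κ F kp ↔ ∃ f : RF kp, PhiO κ F kp f = z := by
  constructor
  · intro hz
    have hle : KF κ F kp ≤ Subfield.toIntermediateField (PhiO κ F kp).fieldRange (by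
        intro x
        obtain ⟨p, q, hq, rfl⟩ := IsFractionRing.div_surjective (A := κ[X]) x
        exact ⟨_, SecB_map κ F kp p q⟩) := by
      unfold KF
      rw [IntermediateField.adjoin_le_iff]
      intro w hw
      exact ⟨cF kp ⟨w, hw⟩, SecB_C κ F kp ⟨w, hw⟩⟩
    exact hle hz
  · rintro ⟨f, rfl⟩
    have hy : yO κ F Ω ∈ KF κ F kp := (KF κ F kp).algebraMap_mem _
    have hsub : ∀ a : kp, (a : Ω) ∈ KF κ F kp := fun a =>
      IntermediateField.subset_adjoin F (kp : Set Ω) a.2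
    have hev : ∀ r : kp[X], r.eval₂ (algebraMap kp Ω) (yO κ F Ω) ∈ KF κ F kp := by
      intro r
      rw [eval₂_eq_sum]
      exact sum_mem fun n _ => mul_mem (hsub _) (pow_mem hy n)
    obtain ⟨p, q, _, rfl⟩ := exists_pF_div f
    rw [SecB_div]
    exact div_mem (hev p) (hev q)

/-- an automorphism of kp over kappa extends to F kp over F. -/
theorem SecB_ext (kp : IntermediateField κ Ω) [FiniteDimensional κ kp] (γ : Gal(kp/κ)) :
    ∃ σ : Gal(KF κ F kp/F), ∀ (z : kp) (hz : (z : Ω) ∈ KF κ F kp),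
      ((σ ⟨z, hz⟩ : KF κ F kp) : Ω) = ((γ z : kp) : Ω) := by
  let e0 : RF kp →+* KF κ F kp :=
    (PhiO κ F kp).codRestrict (KF κ F kp) fun f => (SecB_mem κ F kp _).2 ⟨f, rfl⟩
  have he0 : Function.Bijective e0 := by
    refine ⟨e0.injective, ?_⟩
    rintro ⟨z, hz⟩
    obtain ⟨f, hf⟩ := (SecB_mem κ F kp z).1 hz
    exact ⟨f, Subtype.ext hf⟩
  let e : RF kp ≃+* KF κ F kp := RingEquiv.ofBijective e0 he0
  have he : ∀ f, ((e f : KF κ F kp) : Ω) = PhiO κ F kp f := fun f => rfl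
  have hsymm : ∀ (z : KF κ F kp) (f : RF kp), PhiO κ F kp f = (z : Ω) → e.symm z = f := by
    intro z f h
    rw [RingEquiv.symm_apply_eq]
    exact Subtype.ext h.symm
  let g : Gal(kp/κ) → (KF κ F kp →ₐ[F] KF κ F kp) := fun γ =>
    { ((e : RF kp →+* KF κ F kp).comp
        ((rmap (γ : kp →+* kp)).comp (e.symm : KF κ F kp →+* RF kp))) with
      commutes' := by
        intro x
        show e (rmap (γ : kp →+* kp) (e.symm (algebraMap F (KF κ F kp) x))) =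
          algebraMap F (KF κ F kp) x
        obtain ⟨p, q, hq, rfl⟩ := IsFractionRing.div_surjective (A := κ[X]) x
        have hm := SecB_map κ F kp p q
        have h1 : (γ : kp →+* kp).comp (algebraMap κ kp) = algebraMap κ kp := by
          ext a
          exact congrArg _ (γ.commutes a)
        apply Subtype.ext
        rw [he, hsymm _ _ hm, rmap_comp, h1, hm]
        rfl }
  have hg : ∀ γ z, g γ z = e (rmap (γ : kp →+* kp) (e.symm z)) := fun γ z => rfl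
  have hgg : ∀ γ z, g γ (g γ⁻¹ z) = z := by
    intro γ z
    rw [hg, hg, e.symm_apply_apply, rmap_comp]
    have h1 : (γ : kp →+* kp).comp ((γ⁻¹ : Gal(kp/κ)) : kp →+* kp) = RingHom.id kp := by
      ext a
      exact congrArg _ (γ.apply_symm_apply a)
    rw [h1, rmap_id, e.apply_symm_apply]
  refine ⟨AlgEquiv.ofAlgHom (g γ) (g γ⁻¹) (AlgHom.ext fun z => hgg γ z)
    (AlgHom.ext fun z => ?_), fun z hz => ?_⟩
  · have h := hgg γ⁻¹ z
    rw [inv_inv] at h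
    exact h
  · show ((g γ ⟨z, hz⟩ : KF κ F kp) : Ω) = _
    rw [hg, he, hsymm _ (cF kp z) (SecB_C κ F kp z), rmap_C, SecB_C]
    rfl

theorem SecB_gal (kp : IntermediateField κ Ω) [FiniteDimensional κ kp] [IsGalois κ kp] :
    FiniteDimensional F (KF κ F kp) ∧ IsGalois F (KF κ F kp) := by
  obtain ⟨p, hp, hs⟩ := IsGalois.is_separable_splitting_field κ kp
  obtain ⟨h1, h2⟩ := (IntermediateField.isSplittingField_iff (F := kp) (p := p)).1 hs
  have h3 : (p.map (algebraMap κ Ω)).Splits := by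
    have h4 : p.map (algebraMap κ Ω) = (p.map (algebraMap κ kp)).map (algebraMap kp Ω) := by
      rw [Polynomial.map_map]
      rfl
    rw [h4]
    exact h1.map _
  have h5 : ((p.map (algebraMap κ F)).map (algebraMap F Ω)).Splits := by
    rw [Polynomial.map_map, ← IsScalarTower.algebraMap_eq]
    exact h3
  have h6 : (p.map (algebraMap κ F)).rootSet Ω = p.rootSet Ω := by
    ext x
    rw [mem_rootSet', mem_rootSet', Polynomial.map_map, ← IsScalarTower.algebraMap_eq,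
      aeval_map_algebraMap]
  have h7 : KF κ F kp = IntermediateField.adjoin F ((p.map (algebraMap κ F)).rootSet Ω) := by
    rw [h6]
    apply le_antisymm
    · unfold KF
      rw [IntermediateField.adjoin_le_iff]
      have h8 : kp ≤ (IntermediateField.adjoin F (p.rootSet Ω)).restrictScalars κ := by
        rw [h2, IntermediateField.adjoin_le_iff]
        exact IntermediateField.subset_adjoin F (p.rootSet Ω)
      exact h8
    · apply IntermediateField.adjoin.mono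
      rw [h2]
      exact IntermediateField.subset_adjoin κ (p.rootSet Ω)
  have h9 : (p.map (algebraMap κ F)).IsSplittingField F (KF κ F kp) := by
    rw [h7]
    exact IntermediateField.adjoin_rootSet_isSplittingField h5
  exact ⟨IsSplittingField.finiteDimensional _ (p.map (algebraMap κ F)),
    IsGalois.of_separable_splitting_field (p := p.map (algebraMap κ F)) hp.map⟩

end

section
variable (k κ₁ κ₂ F : Type) {Ω : Type} [Field k] [Field κ₁] [Field κ₂] [Field F] [Field Ω]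
  [Algebra k κ₁] [Algebra k[X] κ₁] [IsScalarTower k k[X] κ₁] [IsFractionRing k[X] κ₁]
  [Algebra κ₁ F] [Algebra κ₁[X] F] [IsScalarTower κ₁ κ₁[X] F] [IsFractionRing κ₁[X] F]
  [Algebra k κ₂] [Algebra k[X] κ₂] [IsScalarTower k k[X] κ₂] [IsFractionRing k[X] κ₂]
  [Algebra κ₂ F] [Algebra κ₂[X] F] [IsScalarTower κ₂ κ₂[X] F] [IsFractionRing κ₂[X] F]
  [Algebra F Ω] [Algebra κ₁ Ω] [IsScalarTower κ₁ F Ω] [Algebra κ₂ Ω] [IsScalarTower κ₂ F Ω]
  [Algebra k Ω] [IsScalarTower k κ₁ Ω] [IsScalarTower k κ₂ Ω] [IsGalois F Ω] [IsSepClosed Ω]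

include κ₁ κ₂ in
/-- the second fibration level of kq -/
theorem level2
    (hx : algebraMap κ₁ F (algebraMap k[X] κ₁ X) = algebraMap κ₂[X] F X)
    (hy : algebraMap κ₂ F (algebraMap k[X] κ₂ X) = algebraMap κ₁[X] F X)
    (kq : IntermediateField k (Ok κ₁ Ω)) [FiniteDimensional k kq] [IsGalois k kq] :
    ∃ (kq₂ : IntermediateField κ₂ Ω) (_ : FiniteDimensional κ₂ kq₂) (_ : IsGalois κ₂ kq₂)
      (j : kq →+* kq₂) (φ : Gal(kq₂/κ₂) ≃* Gal(kq/k)),
      (∀ z : kq, ((j z : kq₂) : Ω) = ((z : Ok κ₁ Ω) : Ω)) ∧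
      (∀ (d : Gal(kq₂/κ₂)) (z : kq), j (φ d z) = d (j z)) ∧
      (∀ f : RF kq, PhiO κ₂ F kq₂ (rmap j f) = ((PhiO k κ₁ kq f : Ok κ₁ Ω) : Ω)) ∧
      ∀ σ : Gal(Ω/F), φ (rk κ₂ F kq₂ σ) = rk k κ₁ kq (rk κ₁ F (Ok κ₁ Ω) σ) := by
  classical
  let φ₁ : Ok κ₁ Ω →ₐ[k] Ω := (Ok κ₁ Ω).val.restrictScalars k
  let kΩ : IntermediateField k Ω := kq.map φ₁
  let e : kq ≃ₐ[k] kΩ := kq.equivMap φ₁
  have he : ∀ z : kq, ((e z : kΩ) : Ω) = ((z : Ok κ₁ Ω) : Ω) := fun z => rfl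
  haveI : FiniteDimensional k kΩ := e.toLinearEquiv.finiteDimensional
  haveI : IsGalois k kΩ := IsGalois.of_algEquiv e
  obtain ⟨hfin, hgal⟩ := SecB_gal k κ₂ kΩ
  have hmem : ∀ z : kq, ((z : Ok κ₁ Ω) : Ω) ∈ KF k κ₂ kΩ := fun z =>
    IntermediateField.subset_adjoin κ₂ (kΩ : Set Ω) (he z ▸ (e z).2)
  let j : kq →+* KF k κ₂ kΩ :=
    ((algebraMap (Ok κ₁ Ω) Ω).comp (algebraMap kq (Ok κ₁ Ω))).codRestrict (KF k κ₂ kΩ) hmem
  have hj : ∀ z : kq, ((j z : KF k κ₂ kΩ) : Ω) = ((z : Ok κ₁ Ω) : Ω) := fun z => rfl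
  letI : Algebra kq (KF k κ₂ kΩ) := j.toAlgebra
  haveI : IsScalarTower k kq (KF k κ₂ kΩ) := IsScalarTower.of_algebraMap_eq fun a => by
    apply Subtype.ext
    rfl
  let φ : Gal(KF k κ₂ kΩ/κ₂) →* Gal(kq/k) :=
    (AlgEquiv.restrictNormalHom kq).comp (AlgEquiv.restrictScalarsHom k)
  have hφ : ∀ (d : Gal(KF k κ₂ kΩ/κ₂)) (z : kq), j (φ d z) = d (j z) := fun d z =>
    AlgEquiv.restrictNormal_commutes (AlgEquiv.restrictScalars k d) kq z
  have hφi : Function.Injective φ := by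
    intro d d' h
    have h1 : (d : KF k κ₂ kΩ →ₐ[κ₂] KF k κ₂ kΩ) = (d' : KF k κ₂ kΩ →ₐ[κ₂] KF k κ₂ kΩ) := by
      apply IntermediateField.algHom_ext_of_eq_adjoin κ₂ (s := (kΩ : Set Ω)) rfl
      intro x hx
      have h2 : (⟨x, IntermediateField.subset_adjoin κ₂ (kΩ : Set Ω) hx⟩ : KF k κ₂ kΩ) =
          j (e.symm ⟨x, hx⟩) := by
        apply Subtype.ext
        rw [hj, ← he, e.apply_symm_apply]
      have h3 : d (j (e.symm ⟨x, hx⟩)) = d' (j (e.symm ⟨x, hx⟩)) := by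
        rw [← hφ, ← hφ, h]
      rw [← h2] at h3
      exact h3
    exact AlgEquiv.ext fun z => congrArg (fun f : KF k κ₂ kΩ →ₐ[κ₂] KF k κ₂ kΩ => f z) h1
  have hφs : Function.Surjective φ := by
    intro γ
    obtain ⟨σ, hσ⟩ := SecB_ext k κ₂ kΩ ((e.symm.trans γ).trans e)
    refine ⟨σ, ?_⟩
    apply AlgEquiv.ext
    intro z
    apply j.injective
    rw [hφ]
    apply Subtype.ext
    have h1 := hσ (e z) (he z ▸ hmem z)
    have h2 : (⟨((e z : kΩ) : Ω), he z ▸ hmem z⟩ : KF k κ₂ kΩ) = j z := Subtype.ext (he z)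
    rw [h2] at h1
    rw [h1]
    show ((e (γ (e.symm (e z))) : kΩ) : Ω) = _
    rw [e.symm_apply_apply, he, hj]
  refine ⟨KF k κ₂ kΩ, hfin, hgal, j, MulEquiv.ofBijective φ ⟨hφi, hφs⟩, hj, hφ, ?_, ?_⟩
  · intro f
    obtain ⟨p, q, _, rfl⟩ := exists_pF_div f
    have hyy : ((yO k κ₁ (Ok κ₁ Ω) : Ok κ₁ Ω) : Ω) = yO κ₂ F Ω := by
      have h1 : ((yO k κ₁ (Ok κ₁ Ω) : Ok κ₁ Ω) : Ω) = algebraMap κ₁ Ω (algebraMap k[X] κ₁ X) :=
        rfl
      rw [h1, IsScalarTower.algebraMap_apply κ₁ F Ω, hx]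
      rfl
    have h2 : ∀ r : kq[X], (r.map j).eval₂ (algebraMap (KF k κ₂ kΩ) Ω) (yO κ₂ F Ω) =
        ((r.eval₂ (algebraMap kq (Ok κ₁ Ω)) (yO k κ₁ (Ok κ₁ Ω)) : Ok κ₁ Ω) : Ω) := by
      intro r
      have h3 := Polynomial.hom_eval₂ r (algebraMap kq (Ok κ₁ Ω)) (algebraMap (Ok κ₁ Ω) Ω)
        (yO k κ₁ (Ok κ₁ Ω))
      have h4 : algebraMap (Ok κ₁ Ω) Ω (yO k κ₁ (Ok κ₁ Ω)) = yO κ₂ F Ω := hyy
      rw [h4] at h3
      rw [eval₂_map]
      exact h3.symm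
    rw [rmap_div, SecB_div, SecB_div, h2, h2]
    exact (map_div₀ (algebraMap (Ok κ₁ Ω) Ω) _ _).symm
  · intro σ
    apply AlgEquiv.ext
    intro z
    apply j.injective
    have h1 : j ((MulEquiv.ofBijective φ ⟨hφi, hφs⟩ (rk κ₂ F (KF k κ₂ kΩ) σ)) z) =
        rk κ₂ F (KF k κ₂ kΩ) σ (j z) := hφ _ z
    rw [h1]
    apply Subtype.ext
    rw [rk_apply, hj, hj, rk_apply, rk_apply]

/-- c3 on kq, the class pull (inflR c3) is equivalent to inflR c'' in the second fibration with integral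
xiR: then c3 is constant up to coboundary. level2, c3' d d' = rmap j (c3 (phi d) (phi d')),
inflR kappa2 F kq2 c3' = pull (inflR k kappa1 kq c3); xiR_compare; xiR_transport; for P in MI kq take
theta in KK a root of P^(i o j) and gamma from ext_auto; faddeev_of_root. -/
theorem second_const {𝕂 : Type} [Field 𝕂] [Algebra κ₂ 𝕂] [IsAlgClosed 𝕂]
    [Algebra.IsAlgebraic κ₂ 𝕂]
    (hx : algebraMap κ₁ F (algebraMap k[X] κ₁ X) = algebraMap κ₂[X] F X)
    (hy : algebraMap κ₂ F (algebraMap k[X] κ₂ X) = algebraMap κ₁[X] F X)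
    (l : ℕ) (hl : l.Prime) (hlk : (l : k) ≠ 0)
    (kq : IntermediateField k (Ok κ₁ Ω)) [FiniteDimensional k kq] [IsGalois k kq]
    {c₃ : Gal(kq/k) → Gal(kq/k) → (RF kq)ˣ} (hc₃ : IsC2 c₃) (s : ℕ)
    (b : Gal(kq/k) → (RF kq)ˣ) (hb : ∀ g h, c₃ g h ^ l ^ s = dB b g h)
    (kp : IntermediateField κ₂ Ω) [FiniteDimensional κ₂ kp] [IsGalois κ₂ kp]
    {c' : Gal(kp/κ₂) → Gal(kp/κ₂) → (RF kp)ˣ} (hc' : IsC2 c')
    (h : BEq (pull κ₁ F (inflR k κ₁ kq c₃)) (inflR κ₂ F kp c'))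
    (hint : ∀ (i : kp →ₐ[κ₂] 𝕂) (θ : 𝕂) (γ : Gal(𝕂/κ₂)), γ θ = θ → ∀ d : Gal(kp/κ₂),
      (∀ z, i (d z) = γ (i z)) → ∃ n : ℤ, xiR (i : kp →+* 𝕂) θ c' d = n) :
    ∃ (c₀ : Gal(kq/k) → Gal(kq/k) → kqˣ) (b : Gal(kq/k) → (RF kq)ˣ), IsC2 c₀ ∧
      ∀ g h, c₃ g h = Units.map (cF kq : kq →* RF kq) (c₀ g h) * dB b g h := by
  obtain ⟨kq₂, hfin, hgal, j, φ, hj, hφ, hΦ, hrk⟩ := level2 k κ₁ κ₂ F hx hy kq
  let c₃' : Gal(kq₂/κ₂) → Gal(kq₂/κ₂) → (RF kq₂)ˣ := fun d d' =>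
    Units.map (rmap j : RF kq →* RF kq₂) (c₃ (φ d) (φ d'))
  have hsm : ∀ (d : Gal(kq₂/κ₂)) (u : (RF kq)ˣ),
      Units.map (rmap j : RF kq →* RF kq₂) (φ d • u) =
        d • Units.map (rmap j : RF kq →* RF kq₂) u := by
    intro d u
    apply Units.ext
    rw [coe_ratAct]
    change rmap j (rmap ((φ d : Gal(kq/k)) : kq →+* kq) (u : RF kq)) =
      rmap (d : kq₂ →+* kq₂) (rmap j (u : RF kq))
    rw [rmap_comp, rmap_comp]
    have h1 : j.comp ((φ d : Gal(kq/k)) : kq →+* kq) = (d : kq₂ →+* kq₂).comp j := by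
      ext z
      exact congrArg _ (hφ d z)
    rw [h1]
  have hc₃' : IsC2 c₃' := by
    intro d d' d''
    have h1 := congrArg (Units.map (rmap j : RF kq →* RF kq₂)) (hc₃ (φ d) (φ d') (φ d''))
    rw [map_mul, map_mul, hsm, ← map_mul φ, ← map_mul φ] at h1
    exact h1
  have hinfl : inflR κ₂ F kq₂ c₃' = pull κ₁ F (inflR k κ₁ kq c₃) := by
    funext σ τ
    apply Units.ext
    rw [pull_apply]
    change PhiO κ₂ F kq₂ (rmap j (c₃ (φ (rk κ₂ F kq₂ σ)) (φ (rk κ₂ F kq₂ τ)) : RF kq)) =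
      ((PhiO k κ₁ kq (c₃ (rk k κ₁ kq (rk κ₁ F (Ok κ₁ Ω) σ))
        (rk k κ₁ kq (rk κ₁ F (Ok κ₁ Ω) τ)) : RF kq) : Ok κ₁ Ω) : Ω)
    rw [hΦ, hrk, hrk]
  rw [← hinfl] at h
  have hcmp := fun (i : kq₂ →ₐ[κ₂] 𝕂) => xiR_compare κ₂ F hc' hc₃' h.symm hint i
  let i : kq₂ →ₐ[κ₂] 𝕂 := IsAlgClosed.lift
  letI : Algebra k 𝕂 := ((algebraMap κ₂ 𝕂).comp (algebraMap k κ₂)).toAlgebra
  haveI : IsScalarTower k κ₂ 𝕂 := IsScalarTower.of_algebraMap_eq fun a => rfl
  let i' : kq →ₐ[k] 𝕂 :=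
    { ((i : kq₂ →+* 𝕂).comp j) with
      commutes' := by
        intro a
        have h1 : j (algebraMap k kq a) = algebraMap κ₂ kq₂ (algebraMap k κ₂ a) := by
          apply Subtype.ext
          rw [hj]
          exact IsScalarTower.algebraMap_apply k κ₂ Ω a
        change i (j (algebraMap k kq a)) = algebraMap κ₂ 𝕂 (algebraMap k κ₂ a)
        rw [h1]
        exact i.commutes _ }
  have hi' : ∀ z, i' z = i (j z) := fun z => rfl
  have hi'' : (i' : kq →+* 𝕂) = (i : kq₂ →+* 𝕂).comp j := rfl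
  refine faddeev_of_root (i' : kq →+* 𝕂) l hl hlk hc₃ s b hb fun P d hd => ?_
  obtain ⟨θ, hθ⟩ := IsAlgClosed.exists_eval₂_eq_zero (i' : kq →+* 𝕂) P.1
    (degree_pos_of_irreducible P.2.2).ne'
  obtain ⟨γ, hγ, hγi⟩ := ext_auto (κ₂ := κ₂) i' P θ hθ d hd
  obtain ⟨d₂, hd₂⟩ := exists_compat i γ
  have hdd : φ d₂ = d := by
    apply AlgEquiv.ext
    intro z
    apply (i' : kq →+* 𝕂).injective
    change i' (φ d₂ z) = i' (d z)
    rw [hγi, hi', hφ, hd₂, hi']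
  obtain ⟨n, hn⟩ := hcmp i θ γ hγ d₂ hd₂
  refine ⟨θ, hθ, n, ?_⟩
  rw [← hn, ← hdd, hi'']
  exact (xiR_transport j φ (i : kq₂ →+* 𝕂) θ c₃ d₂).symm

end

end W42
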