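import Pool.Agent.W_42fc02_h90.ExpC
import Pool.Agent.W_42fc02_h90.SecB
import Pool.Agent.W_42fc02_h90.FinF

/-!
ExpD: the exponent theorem. k finite, F = k(x,y), two fibrations kappa1 = k(x), kappa2 = k(y).
c split by K = F(pi_s), N = l^e: c^N = 1 in Br(F).

Proof. (1) exp_const for kappa1: c^N ~ inflC kp c2, and exists_pull: inflC kp c2 = pull c2'.
exp_primary: c^(l^s) ~ 1, hence (inflC c2)^(l^s) ~ 1, c2^(l^s) = dB (exists_dB_of_beq_inflC), so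
c2'^(l^s) ~ 1 (third part of exists_pull). (2) tsen for kappa1 = k(x) over k with the separable closure
Ok kappa1 Omega (isSepClosed_Ok): c2' ~ inflR k kappa1 kq c3; c3^(l^s) = dB (exists_dB_of_beq_inflR).
pull_beq: c^N ~ pull (inflR c3). (3) exp_second for kappa2: c^N ~ inflR kappa2 F kr c'', xiR integral.
(4) second_const: c3 = c4 dB b with c4 constant; finite_h2: c4 = dB b4; so inflR c3 ~ 1
(beq_inflR_of_dB), pull_beq, pull_one: c^N ~ 1.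
-/

namespace W42

open Polynomial

section
variable (κ F : Type) {Ω : Type} [Field κ] [Field F] [Field Ω] [Algebra κ F] [Algebra κ[X] F]
  [IsScalarTower κ κ[X] F] [IsFractionRing κ[X] F] [Algebra F Ω] [Algebra κ Ω]
  [IsScalarTower κ F Ω]

theorem ExpD_inflR_one (kp : IntermediateField κ Ω) [Normal κ kp] [Algebra.IsAlgebraic κ kp] :
    inflR κ F kp (fun _ _ => 1) = (c1 : Gal(Ω/F) → Gal(Ω/F) → Ωˣ) := by
  funext σ τ
  unfold c1 inflR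
  rw [map_one]

theorem ExpD_inflR_pow (kp : IntermediateField κ Ω) [Normal κ kp] [Algebra.IsAlgebraic κ kp]
    (c : Gal(kp/κ) → Gal(kp/κ) → (RF kp)ˣ) (n : ℕ) :
    inflR κ F kp (fun g h => c g h ^ n) = fun σ τ => inflR κ F kp c σ τ ^ n := by
  funext σ τ
  unfold inflR
  rw [map_pow]

theorem ExpD_inflC_pow (kp : IntermediateField κ Ω) [Normal κ kp]
    (c : Gal(kp/κ) → Gal(kp/κ) → kpˣ) (n : ℕ) :
    inflC κ F kp (fun g h => c g h ^ n) = fun σ τ => inflC κ F kp c σ τ ^ n := by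
  funext σ τ
  unfold inflC
  rw [map_pow]

end

theorem ExpD_one_pow {F Ω : Type} [Field F] [Field Ω] [Algebra F Ω] (n : ℕ) :
    (fun σ τ => (c1 : Gal(Ω/F) → Gal(Ω/F) → Ωˣ) σ τ ^ n) = c1 := by
  funext σ τ
  unfold c1
  rw [one_pow]

theorem ExpD_const {k K : Type} [Field k] [Field K] [Algebra k K] (b : Gal(K/k) → Kˣ)
    (g h : Gal(K/k)) : Units.map (cF K : K →* RF K) (dB b g h) =
      dB (fun g => Units.map (cF K : K →* RF K) (b g)) g h := by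
  have h1 : ∀ u : Kˣ, g • (Units.map (cF K : K →* RF K) u) =
      Units.map (cF K : K →* RF K) (g • u) := by
    intro u
    apply Units.ext
    exact rmap_C (g : K →+* K) (u : K)
  unfold dB
  rw [_root_.map_div, map_mul, h1]

section
variable (k κ₁ κ₂ F : Type) {Ω : Type} [Field k] [Field κ₁] [Field κ₂] [Field F] [Field Ω]
  [Algebra k κ₁] [Algebra k[X] κ₁] [IsScalarTower k k[X] κ₁] [IsFractionRing k[X] κ₁]
  [Algebra κ₁ F] [Algebra κ₁[X] F] [IsScalarTower κ₁ κ₁[X] F] [IsFractionRing κ₁[X] F]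
  [Algebra k κ₂] [Algebra k[X] κ₂] [IsScalarTower k k[X] κ₂] [IsFractionRing k[X] κ₂]
  [Algebra κ₂ F] [Algebra κ₂[X] F] [IsScalarTower κ₂ κ₂[X] F] [IsFractionRing κ₂[X] F]
  [Algebra F Ω] [Algebra κ₁ Ω] [IsScalarTower κ₁ F Ω] [Algebra κ₂ Ω] [IsScalarTower κ₂ F Ω]
  [Algebra k Ω] [IsScalarTower k κ₁ Ω] [IsScalarTower k κ₂ Ω] [IsGalois F Ω] [IsSepClosed Ω]

theorem exp_zero [Finite k] {𝕂₁ 𝕂₂ : Type} [Field 𝕂₁] [Algebra κ₁ 𝕂₁] [IsAlgClosed 𝕂₁]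
    [Algebra.IsAlgebraic κ₁ 𝕂₁] [Field 𝕂₂] [Algebra κ₂ 𝕂₂] [IsAlgClosed 𝕂₂]
    [Algebra.IsAlgebraic κ₂ 𝕂₂]
    (hx : algebraMap κ₁ F (algebraMap k[X] κ₁ X) = algebraMap κ₂[X] F X)
    (hy : algebraMap κ₂ F (algebraMap k[X] κ₂ X) = algebraMap κ₁[X] F X)
    (l e : ℕ) (hl : l.Prime) (he : 0 < e) (hlk : (l : k) ≠ 0) (ζ : k)
    (hζ : IsPrimitiveRoot ζ (l ^ e))
    (p₁ : ℕ → κ₁[X]) (hp₁ : FibSeq κ₁ 𝕂₁ l (algebraMap k κ₁ ζ) p₁)
    (p₂ : ℕ → κ₂[X]) (hp₂ : FibSeq κ₂ 𝕂₂ l (algebraMap k κ₂ ζ) p₂)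
    (h12 : ∀ s, algebraMap κ₁[X] F (p₁ s) = algebraMap κ₂[X] F (p₂ s)) (pi : ℕ → Ω)
    (hpi : ∀ s, pi s ^ l ^ e = algebraMap F Ω (algebraMap κ₁[X] F (p₁ s)))
    {c : Gal(Ω/F) → Gal(Ω/F) → Ωˣ} (hc : BC c) (hs : Spl (KumL F pi Set.univ) c) :
    BEq (fun σ τ => c σ τ ^ l ^ e) c1 := by
  haveI hfl : Fact l.Prime := ⟨hl⟩
  have hk₁ : ∀ n : ℕ, (n : k) ≠ 0 → (n : κ₁) ≠ 0 := by
    intro n hn h
    apply hn
    apply (algebraMap k κ₁).injective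
    rw [map_natCast, map_zero]
    exact h
  have hk₂ : ∀ n : ℕ, (n : k) ≠ 0 → (n : κ₂) ≠ 0 := by
    intro n hn h
    apply hn
    apply (algebraMap k κ₂).injective
    rw [map_natCast, map_zero]
    exact h
  have hζ₁ : IsPrimitiveRoot (algebraMap k κ₁ ζ) (l ^ e) :=
    hζ.map_of_injective (algebraMap k κ₁).injective
  have hζ₂ : IsPrimitiveRoot (algebraMap k κ₂ ζ) (l ^ e) :=
    hζ.map_of_injective (algebraMap k κ₂).injective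
  -- first fibration
  obtain ⟨kp, hkf, hkg, c₂, hc₂, hcc⟩ := exp_const κ₁ F l e hl he (hk₁ l hlk) _ hζ₁ p₁ hp₁ pi hpi
    hc hs
  obtain ⟨s, hs1⟩ := exp_primary κ₁ F l e hl _ hζ₁ p₁ hp₁.ne_zero pi hpi hc hs
  obtain ⟨c₂', hc₂', hpull, hpb⟩ := exists_pull κ₁ F kp hc₂
  have h1 : BEq (inflC κ₁ F kp (fun g h => c₂ g h ^ l ^ s)) c1 := by
    rw [ExpD_inflC_pow]
    refine (hcc.symm.pow (l ^ s)).trans ?_
    have h2 := hs1.pow (l ^ e)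
    rw [ExpD_one_pow] at h2
    have h3 : (fun σ τ => (fun σ τ => (c σ τ ^ l ^ e)) σ τ ^ l ^ s) =
        fun σ τ => (fun σ τ => c σ τ ^ l ^ s) σ τ ^ l ^ e := by
      funext σ τ
      beta_reduce
      rw [← pow_mul, ← pow_mul, mul_comm]
    rw [h3]
    exact h2
  obtain ⟨b₂, hb₂⟩ := exists_dB_of_beq_inflC κ₁ F kp (hc₂.pow (l ^ s)) h1
  have h4 := hpb (l ^ s) b₂ hb₂
  -- Tsen over k
  haveI : IsSepClosed (Ok κ₁ Ω) := isSepClosed_Ok κ₁ Ω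
  obtain ⟨kq, hqf, hqg, c₃, hc₃, hcc₃⟩ := tsen k κ₁ l hlk hc₂' s h4
  have h5 : BEq (inflR k κ₁ kq (fun g h => c₃ g h ^ l ^ s)) (inflR k κ₁ kq (fun _ _ => 1)) := by
    rw [ExpD_inflR_pow, ExpD_inflR_one]
    exact (hcc₃.symm.pow (l ^ s)).trans h4
  obtain ⟨b₃, hb₃⟩ := exists_dB_of_beq_inflR k κ₁ kq (hc₃.pow (l ^ s)) isC2_one h5
  have h6 : BEq (fun σ τ => c σ τ ^ l ^ e) (pull κ₁ F (inflR k κ₁ kq c₃)) := by
    refine hcc.trans ?_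
    rw [← hpull]
    exact pull_beq κ₁ F hcc₃
  -- second fibration
  obtain ⟨kr, hrf, hrg, c', hc', hcc', hint⟩ := exp_second κ₂ F l e hl he (hk₂ l hlk) _ hζ₂ p₂ hp₂
    pi (fun s => by rw [hpi s, h12 s]) hc hs
  obtain ⟨c₀, b, hc₀, hb⟩ := second_const k κ₁ κ₂ F hx hy l hl hlk kq hc₃ s b₃
    (fun g h => by rw [hb₃ g h, one_mul]) kr hc' (h6.symm.trans hcc') hint
  obtain ⟨b₀, hb₀⟩ := finite_h2 hc₀
  have h7 : BEq (inflR k κ₁ kq c₃) c1 := by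
    rw [← ExpD_inflR_one k κ₁ kq]
    refine beq_inflR_of_dB k κ₁ kq
      (fun g => Units.map (cF kq : kq →* RF kq) (b₀ g) * b g) fun g h => ?_
    rw [dB_mul, ← ExpD_const, ← hb₀, ← hb, one_mul]
  refine h6.trans ?_
  rw [← pull_one κ₁ F]
  exact pull_beq κ₁ F h7

end

end W42
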