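import Pool.Agent.W_42fc02_h90.RDef

/-!
FDef: the rational function field F = kappa(y), Omega a separable closure of F.
Setting: Algebra kappa[X] F, IsFractionRing kappa[X] F; y = image of X.
kp : IntermediateField kappa Omega finite Galois over kappa (kappa'), KF kp = F kp.
PhiO : RatFunc kp -> Omega, X -> y, with range KF kp.
rk kp : Gal(Omega / F) -> Gal(kp / kappa).
inflR kp c: inflation of a 2-cochain of Gal(kp / kappa) with values in RatFunc kp.
inflC kp c: inflation of a 2-cochain with values in kp.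
-/

namespace W42

open Polynomial

section
variable (κ F Ω : Type) [Field κ] [Field F] [Field Ω] [Algebra κ F] [Algebra κ[X] F]
  [IsScalarTower κ κ[X] F] [IsFractionRing κ[X] F] [Algebra F Ω] [Algebra κ Ω]
  [IsScalarTower κ F Ω]

/-- the variable in Omega -/
noncomputable def yO : Ω := algebraMap F Ω (algebraMap κ[X] F X)

variable {Ω}

/-- F times kappa' -/
noncomputable def KF (kp : IntermediateField κ Ω) : IntermediateField F Ω :=
  IntermediateField.adjoin F (kp : Set Ω)

omit [IsFractionRing κ[X] F] in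
/-- values at y of polynomials over kappa -/
theorem FDef_eval (q : κ[X]) :
    q.eval₂ (algebraMap κ Ω) (yO κ F Ω) = algebraMap F Ω (algebraMap κ[X] F q) := by
  have h : eval₂RingHom (algebraMap κ Ω) (yO κ F Ω) =
      (algebraMap F Ω).comp (algebraMap κ[X] F) := by
    apply Polynomial.ringHom_ext
    · intro a
      have h1 : algebraMap κ[X] F (C a) = algebraMap κ F a :=
        (IsScalarTower.algebraMap_apply κ κ[X] F a).symm
      rw [coe_eval₂RingHom, eval₂_C, RingHom.comp_apply, h1,
        ← IsScalarTower.algebraMap_apply κ F Ω]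
    · rw [coe_eval₂RingHom, eval₂_X, RingHom.comp_apply]
      rfl
  exact congrArg (fun g : κ[X] →+* Ω => g q) h

/-- evaluation at y is injective on kappa'[X] for kappa' algebraic over kappa -/
theorem eval_inj (kp : IntermediateField κ Ω) [Algebra.IsAlgebraic κ kp] :
    Function.Injective (eval₂RingHom (algebraMap kp Ω) (yO κ F Ω)) := by
  rw [injective_iff_map_eq_zero]
  intro p hp
  by_contra hne
  rw [coe_eval₂RingHom] at hp
  have h1 : IsAlgebraic kp (yO κ F Ω) := ⟨p, hne, by rw [aeval_def]; exact hp⟩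
  have h2 : IsIntegral κ (yO κ F Ω) := isIntegral_trans (yO κ F Ω) h1.isIntegral
  obtain ⟨q, hq, h3⟩ := h2.isAlgebraic
  rw [aeval_def, FDef_eval] at h3
  apply hq
  have h4 : algebraMap κ[X] F q = 0 := (algebraMap F Ω).injective (by rw [h3, map_zero])
  exact IsFractionRing.injective κ[X] F (by rw [h4, map_zero])

theorem eval_le (kp : IntermediateField κ Ω) [Algebra.IsAlgebraic κ kp] :
    nonZeroDivisors kp[X] ≤
      (nonZeroDivisors Ω).comap (eval₂RingHom (algebraMap kp Ω) (yO κ F Ω)) :=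
  nonZeroDivisors_le_comap_nonZeroDivisors_of_injective _ (eval_inj κ F kp)

noncomputable def PhiO (kp : IntermediateField κ Ω) [Algebra.IsAlgebraic κ kp] :
    RF kp →+* Ω :=
  (RatFunc.liftRingHom (eval₂RingHom (algebraMap kp Ω) (yO κ F Ω)) (eval_le κ F kp) :
    RatFunc kp →+* Ω)

noncomputable def rk (kp : IntermediateField κ Ω) [Normal κ kp] : Gal(Ω/F) →* Gal(kp/κ) :=
  (AlgEquiv.restrictNormalHom kp).comp (AlgEquiv.restrictScalarsHom κ)

noncomputable def inflR (kp : IntermediateField κ Ω) [Normal κ kp] [Algebra.IsAlgebraic κ kp]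
    (c : Gal(kp/κ) → Gal(kp/κ) → (RF kp)ˣ) : Gal(Ω/F) → Gal(Ω/F) → Ωˣ :=
  fun σ τ => Units.map (PhiO κ F kp : RF kp →* Ω) (c (rk κ F kp σ) (rk κ F kp τ))

noncomputable def inflR1 (kp : IntermediateField κ Ω) [Normal κ kp] [Algebra.IsAlgebraic κ kp]
    (b : Gal(kp/κ) → (RF kp)ˣ) : Gal(Ω/F) → Ωˣ :=
  fun σ => Units.map (PhiO κ F kp : RF kp →* Ω) (b (rk κ F kp σ))

noncomputable def inflC (kp : IntermediateField κ Ω) [Normal κ kp]
    (c : Gal(kp/κ) → Gal(kp/κ) → kpˣ) : Gal(Ω/F) → Gal(Ω/F) → Ωˣ :=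
  fun σ τ => Units.map (algebraMap kp Ω : kp →* Ω) (c (rk κ F kp σ) (rk κ F kp τ))

end

end W42
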