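import Pool.Agent.W_42fc02_h90.CochA

/-!
G3 (inflation-restriction in degree 2) and G4 (inflation is injective).

hH : H^1(N, A) = 0 in the form: every 1-cocycle f on N is n -> (n . z) / z.

Proof of G3. In the extension group of G by A with cocycle c one has elements u_g with
u_g u_h = c g h u_{gh}. (1) On N replace u_n so that u_n u_m = u_{nm} (hypothesis).
(2) For a set T of representatives of G / N (1 in T) put for t in T: f_t n defined by
u_n u_t = f_t(n) u_t u_{t^-1 n t}; f_t is a 1-cocycle on N, f_t n = (n . z_t) / z_t; replace u_t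
by z_t^-1 u_t, so that u_n u_t = u_t u_{t^-1 n t}. (3) u_{t n} := u_t u_n. Then u_g u_n = u_{gn} and
u_n u_g = u_{ng} for all g in G, n in N, and the new cocycle c' satisfies
c' (g n) h = c' g h, c' g (h n) = c' g h, n . c' g h = c' g h.
(One can work in the group A x G with product (a, g)(b, h) = (a * g.b * c g h, g h) after
normalising c 1 1 = 1, or directly with cochains.)

Proof of G4. c' n m = c' 1 1 for n, m in N (invariance), so f n = b n / c' 1 1 is a 1-cocycle on N,
f n = (n . z) / z. Put b' g = b g * z / (g . z): the same coboundary, b' n = c' 1 1 on N,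
b' (g n) = b' g (use c' g n = c' g 1 = g . c' 1 1) and n . b' g = b' (n g) = b' (g (g^-1 n g)) = b' g.
-/

namespace W42

variable {G A : Type*} [Group G] [CommGroup A] [MulDistribMulAction G A]

/-- invariance of a 2-cochain under a subgroup N: it comes from G / N with values in A^N. -/
def Inv2 (N : Subgroup G) (c : G → G → A) : Prop :=
  (∀ g h, ∀ n ∈ N, c (g * n) h = c g h) ∧ (∀ g h, ∀ n ∈ N, c g (h * n) = c g h) ∧
    (∀ g h, ∀ n ∈ N, n • c g h = c g h)

/-- the same for 1-cochains. -/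
def Inv1 (N : Subgroup G) (b : G → A) : Prop :=
  (∀ g, ∀ n ∈ N, b (g * n) = b g) ∧ (∀ g, ∀ n ∈ N, n • b g = b g)

/-- H^1(N, A) = 0. -/
def H1z (N : Subgroup G) (A : Type*) [CommGroup A] [MulDistribMulAction G A] : Prop :=
  ∀ f : G → A, (∀ n ∈ N, ∀ m ∈ N, f (n * m) = f n * (n • f m)) →
    ∃ z : A, ∀ n ∈ N, f n = (n • z) / z

private theorem InfRes_add1 {M : Type*} [AddCommGroup M] {p q r s z y u : M}
    (e1 : p + q = r + s) (e3 : p + z = y + u) : s + (-y + r) + (z + (-u + -q)) = 0 := by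
  have : s + (-y + r) + (z + (-u + -q)) = (p + z - (y + u)) - (p + q - (r + s)) := by abel
  rw [this, e1, e3, sub_self, sub_self, sub_self]

private theorem InfRes_mul1 {M : Type*} [CommGroup M] {p q r s z y u : M}
    (e1 : p * q = r * s) (e3 : p * z = y * u) : s * (y⁻¹ * r) * (z * (u⁻¹ * q⁻¹)) = 1 :=
  InfRes_add1 (M := Additive M) e1 e3

private theorem InfRes_mul2 {M : Type*} [CommGroup M] {x y w : M} (e : x = y * x / w) :
    w = y := by
  rw [eq_div_iff_mul_eq', mul_comm y x] at e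
  exact mul_left_cancel e

/-- the 1-cochain `n -> c n t / c t (t⁻¹ n t)` is a 1-cocycle on `N` -/
private theorem InfRes_coc {N : Subgroup G} [hN : N.Normal] {c : G → G → A} (hc : IsC2 c)
    (h1 : ∀ n ∈ N, ∀ m ∈ N, c n m = 1) (t : G) {n m : G} (hn : n ∈ N) (hm : m ∈ N) :
    c (n * m) t / c t (t⁻¹ * (n * m) * t) =
      c n t / c t (t⁻¹ * n * t) * (n • (c m t / c t (t⁻¹ * m * t))) := by
  have hn' : t⁻¹ * n * t ∈ N := by simpa using hN.conj_mem n hn t⁻¹
  have hm' : t⁻¹ * m * t ∈ N := by simpa using hN.conj_mem m hm t⁻¹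
  have e1 := hc n m t
  have e2 := hc n t (t⁻¹ * m * t)
  have e3 := hc t (t⁻¹ * n * t) (t⁻¹ * m * t)
  have i1 : t * (t⁻¹ * m * t) = m * t := by group
  have i2 : t * (t⁻¹ * n * t) = n * t := by group
  have i3 : t⁻¹ * n * t * (t⁻¹ * m * t) = t⁻¹ * (n * m) * t := by group
  rw [h1 n hn m hm, one_mul] at e1
  rw [i1] at e2
  rw [i2, i3, h1 _ hn' _ hm', smul_one, one_mul] at e3
  rw [e1, ← e3, smul_div', div_mul_div_comm, div_eq_div_iff_mul_eq_mul]
  have e4 : c n t * c (n * t) (t⁻¹ * m * t) = n • c t (t⁻¹ * m * t) * c n (m * t) := e2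
  calc n • c m t * c n (m * t) * (c t (t⁻¹ * n * t) * n • c t (t⁻¹ * m * t))
      = n • c m t * c t (t⁻¹ * n * t) * (n • c t (t⁻¹ * m * t) * c n (m * t)) := by
        simp only [mul_comm, mul_left_comm, mul_assoc]
    _ = n • c m t * c t (t⁻¹ * n * t) * (c n t * c (n * t) (t⁻¹ * m * t)) := by rw [e4]
    _ = _ := by simp only [mul_comm, mul_left_comm, mul_assoc]

/-- a cocycle that is trivial when one argument is in `N` comes from the quotient -/
private theorem InfRes_inv {N : Subgroup G} [hN : N.Normal] {c : G → G → A} (hc : IsC2 c)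
    (hr : ∀ g, ∀ n ∈ N, c g n = 1) (hl : ∀ n ∈ N, ∀ g, c n g = 1) : Inv2 N c := by
  have h2 : ∀ g h, ∀ n ∈ N, c g (h * n) = c g h := by
    intro g h n hn
    have e := hc g h n
    rw [hr _ n hn, hr _ n hn, mul_one, smul_one, one_mul] at e
    exact e.symm
  have h1 : ∀ g h, ∀ n ∈ N, c (g * n) h = c g h := by
    intro g h n hn
    have e := hc g n h
    rw [hr _ n hn, hl n hn, one_mul, smul_one, one_mul] at e
    rw [e]
    have i1 : n * h = h * (h⁻¹ * n * h) := by group
    rw [i1]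
    exact h2 g h _ (by simpa using hN.conj_mem n hn h⁻¹)
  refine ⟨h1, h2, ?_⟩
  intro g h n hn
  have e := hc n g h
  rw [hl n hn, hl n hn, one_mul, mul_one] at e
  rw [← e]
  have i1 : n * g = g * (g⁻¹ * n * g) := by group
  rw [i1]
  exact h1 g h _ (by simpa using hN.conj_mem n hn g⁻¹)

private theorem InfRes_rep (N : Subgroup G) : ∃ r : G → G, (∀ g, (r g)⁻¹ * g ∈ N) ∧
    (∀ g, ∀ n ∈ N, r (g * n) = r g) ∧ ∀ n ∈ N, r n = 1 := by
  classical
  refine ⟨fun g => if g ∈ N then 1 else ((g : G ⧸ N)).out, ?_, ?_, ?_⟩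
  · intro g
    by_cases hg : g ∈ N
    · simp [hg]
    · simp only [hg, if_false]
      exact QuotientGroup.eq.1 (QuotientGroup.out_eq' (g : G ⧸ N))
  · intro g n hn
    have h1 : g * n ∈ N ↔ g ∈ N := N.mul_mem_cancel_right hn
    have h2 : ((g * n : G) : G ⧸ N) = (g : G ⧸ N) := by
      rw [eq_comm, QuotientGroup.eq]
      simpa using hn
    simp only [h1, h2]
  · intro n hn
    simp [hn]

theorem infres (N : Subgroup G) [N.Normal] (hH : H1z N A) {c : G → G → A} (hc : IsC2 c)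
    (b : G → A) (hb : ∀ n ∈ N, ∀ m ∈ N, c n m = dB b n m) :
    ∃ (c' : G → G → A) (b' : G → A), IsC2 c' ∧ Inv2 N c' ∧
      ∀ g h, c g h = c' g h * dB b' g h := by
  classical
  have hN : N.Normal := inferInstance
  -- step 1
  obtain ⟨c1, hc1d⟩ : ∃ c1 : G → G → A, c1 = fun g h => c g h * (dB b g h)⁻¹ := ⟨_, rfl⟩
  have hc1 : IsC2 c1 := by
    rw [hc1d]
    exact hc.mul (isC2_dB b).inv
  have h1 : ∀ n ∈ N, ∀ m ∈ N, c1 n m = 1 := by
    intro n hn m hm
    rw [hc1d]
    change c n m * (dB b n m)⁻¹ = 1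
    rw [hb n hn m hm, mul_inv_cancel]
  have hz : ∀ t : G, ∃ z : A, ∀ n ∈ N, c1 n t / c1 t (t⁻¹ * n * t) = (n • z) / z := by
    intro t
    exact hH (fun n => c1 n t / c1 t (t⁻¹ * n * t)) fun n hn m hm => InfRes_coc hc1 h1 t hn hm
  choose z0 hz0 using hz
  obtain ⟨z, hzd⟩ : ∃ z : G → A, z = fun t => if t = 1 then 1 else z0 t := ⟨_, rfl⟩
  have hz1 : z 1 = 1 := by simp [hzd]
  have hz : ∀ t : G, ∀ n ∈ N, c1 n t / c1 t (t⁻¹ * n * t) = (n • z t) / z t := by
    intro t n hn
    by_cases ht : t = 1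
    · subst ht
      rw [hz1, smul_one, div_one, inv_one, one_mul, mul_one, h1 n hn 1 N.one_mem,
        h1 1 N.one_mem n hn, div_one]
    · have : z t = z0 t := by simp [hzd, ht]
      rw [this]
      exact hz0 t n hn
  obtain ⟨r, hr1, hr2, hr3⟩ := InfRes_rep N
  obtain ⟨β, hβ⟩ : ∃ β : G → A, β = fun g => (z (r g))⁻¹ * c1 (r g) ((r g)⁻¹ * g) := ⟨_, rfl⟩
  have hβN : ∀ n ∈ N, β n = 1 := by
    intro n hn
    rw [hβ]
    change (z (r n))⁻¹ * c1 (r n) ((r n)⁻¹ * n) = 1
    rw [hr3 n hn, hz1, inv_one, one_mul, inv_one, one_mul]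
    exact h1 1 N.one_mem n hn
  -- values of β
  have hβt : ∀ t m : G, m ∈ N → r (t * m) = t → β (t * m) = (z t)⁻¹ * c1 t m := by
    intro t m _ ht
    rw [hβ]
    change (z (r (t * m)))⁻¹ * c1 (r (t * m)) ((r (t * m))⁻¹ * (t * m)) = _
    rw [ht, inv_mul_cancel_left]
  have hdec : ∀ g : G, ∃ t m : G, m ∈ N ∧ g = t * m ∧ ∀ m' ∈ N, r (t * m') = t := by
    intro g
    refine ⟨r g, (r g)⁻¹ * g, hr1 g, by group, fun m' hm' => ?_⟩
    have h2 : r g = g * ((r g)⁻¹ * g)⁻¹ := by group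
    have h3 : r g * m' = g * (((r g)⁻¹ * g)⁻¹ * m') := by
      rw [← mul_assoc, ← h2]
    rw [h3]
    exact hr2 g _ (N.mul_mem (N.inv_mem (hr1 g)) hm')
  obtain ⟨c', hc'd⟩ : ∃ c' : G → G → A, c' = fun g h => c1 g h * dB β g h := ⟨_, rfl⟩
  have hc' : IsC2 c' := by
    rw [hc'd]
    exact hc1.mul (isC2_dB β)
  have hA : ∀ g, ∀ n ∈ N, c' g n = 1 := by
    intro g n hn
    obtain ⟨t, m, hm, rfl, ht⟩ := hdec g
    rw [hc'd]
    change c1 (t * m) n * (β (t * m) * ((t * m) • β n) / β (t * m * n)) = 1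
    rw [hβN n hn, smul_one, mul_one, mul_assoc t m n, hβt t m hm (ht m hm),
      hβt t (m * n) (N.mul_mem hm hn) (ht _ (N.mul_mem hm hn))]
    have e := hc1 t m n
    rw [h1 m hm n hn, smul_one, one_mul] at e
    rw [mul_div_mul_left_eq_div, ← e, mul_comm (c1 t m), div_mul_cancel_right]
    exact mul_inv_cancel _
  have hB : ∀ n ∈ N, ∀ g, c' n g = 1 := by
    intro n hn g
    obtain ⟨t, m, hm, rfl, ht⟩ := hdec g
    have hn' : t⁻¹ * n * t ∈ N := by simpa using hN.conj_mem n hn t⁻¹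
    have i1 : n * (t * m) = t * (t⁻¹ * n * t * m) := by group
    have i2 : t * (t⁻¹ * n * t) = n * t := by group
    rw [hc'd]
    change c1 n (t * m) * (β n * (n • β (t * m)) / β (n * (t * m))) = 1
    rw [hβN n hn, one_mul, i1, hβt t m hm (ht m hm),
      hβt t _ (N.mul_mem hn' hm) (ht _ (N.mul_mem hn' hm))]
    have e1 := hc1 n t m
    have e2 := hc1 t (t⁻¹ * n * t) m
    rw [i2, h1 _ hn' m hm, smul_one, one_mul] at e2
    have e3 := hz t n hn
    rw [div_eq_div_iff_mul_eq_mul] at e3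
    rw [smul_mul', smul_inv', ← e2, div_eq_mul_inv, mul_inv, mul_inv, inv_inv, ← mul_assoc]
    exact InfRes_mul1 e1 e3
  refine ⟨c', fun g => b g * (β g)⁻¹, hc', InfRes_inv hc' hA hB, ?_⟩
  intro g h
  rw [dB_mul, dB_inv, hc'd, hc1d]
  change c g h = c g h * (dB b g h)⁻¹ * dB β g h * (dB b g h * (dB β g h)⁻¹)
  rw [mul_assoc, mul_assoc (c g h), mul_comm (dB b g h) (dB β g h)⁻¹, mul_inv_cancel_left,
    inv_mul_cancel, mul_one]

theorem inf_inj (N : Subgroup G) [N.Normal] (hH : H1z N A) {c : G → G → A} (hc : IsC2 c)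
    (hi : Inv2 N c) (b : G → A) (hb : ∀ g h, c g h = dB b g h) :
    ∃ b' : G → A, Inv1 N b' ∧ ∀ g h, c g h = dB b' g h := by
  have hN : N.Normal := inferInstance
  obtain ⟨hi1, hi2, hi3⟩ := hi
  have hnm : ∀ n ∈ N, ∀ g, c n g = c 1 1 := by
    intro n hn g
    have := hi1 1 g n hn
    rw [one_mul] at this
    rw [this, hc.one_left]
  obtain ⟨z, hz⟩ := hH (fun n => b n / c 1 1) (by
    intro n hn m hm
    have e := hb n m
    rw [hnm n hn m] at e
    unfold dB at e
    have e2 : b (n * m) = b n * (n • b m) / c 1 1 := by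
      rw [e, div_div_cancel]
    change b (n * m) / c 1 1 = b n / c 1 1 * (n • (b m / c 1 1))
    rw [e2, smul_div', hi3 1 1 n hn, div_mul_div_comm, div_div])
  have hb' : ∀ n ∈ N, b n * (z / (n • z)) = c 1 1 := by
    intro n hn
    have e := hz n hn
    change b n / c 1 1 = n • z / z at e
    rw [div_eq_iff_eq_mul] at e
    rw [e, mul_comm (n • z / z), mul_assoc, div_mul_div_cancel, div_self', mul_one]
  refine ⟨fun g => b g * (z / (g • z)), ?_, ?_⟩
  · have hdb : ∀ g h, c g h = dB (fun g => b g * (z / (g • z))) g h := by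
      intro g h
      rw [dB_mul, dB_div_smul, mul_one]
      exact hb g h
    have h1 : ∀ g, ∀ n ∈ N, b (g * n) * (z / ((g * n) • z)) = b g * (z / (g • z)) := by
      intro g n hn
      have e := hdb g n
      have e2 := hi2 g 1 n hn
      rw [one_mul, hc.one_right] at e2
      rw [e2] at e
      unfold dB at e
      beta_reduce at e
      rw [hb' n hn] at e
      exact InfRes_mul2 e
    refine ⟨h1, ?_⟩
    intro g n hn
    have e := hdb n g
    rw [hnm n hn g] at e
    unfold dB at e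
    beta_reduce at e
    rw [hb' n hn] at e
    have e3 : n • (b g * (z / (g • z))) = b (n * g) * (z / ((n * g) • z)) := by
      rw [mul_comm] at e
      exact (InfRes_mul2 e).symm
    change n • (b g * (z / (g • z))) = b g * (z / (g • z))
    rw [e3]
    have i1 : n * g = g * (g⁻¹ * n * g) := by group
    rw [i1]
    exact h1 g _ (by simpa using hN.conj_mem n hn g⁻¹)
  · intro g h
    rw [dB_mul, dB_div_smul, mul_one]
    exact hb g h

end W42
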