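import Pool.Agent.W_42fc02_h90.GalB
import Pool.Agent.W_42fc02_h90.InfRes
import Pool.Agent.W_42fc02_h90.Transfer

/-!
GalC: the main tools at the level of Gal(Omega / F): INF, IR, COR, CONT.
Method: pass to a common finite normal level L (GalB), apply the lemmas on finite groups, go back.
-/

namespace W42

variable {F Ω : Type} [Field F] [Field Ω] [Algebra F Ω] [IsGalois F Ω]

/-- elements fixed by the fixing subgroup -/
theorem GalC_mem_of_fixed (E : IntermediateField F Ω) {z : Ω}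
    (h : ∀ σ ∈ E.fixingSubgroup, σ z = z) : z ∈ E := by
  rw [← InfiniteGalois.fixedField_fixingSubgroup E, IntermediateField.mem_fixedField_iff]
  exact h

omit [IsGalois F Ω] in
theorem GalC_mem_fix {E : IntermediateField F Ω} {σ σ' : Gal(Ω/F)} (h : ∀ z ∈ E, σ z = σ' z) :
    σ⁻¹ * σ' ∈ E.fixingSubgroup := by
  rw [IntermediateField.mem_fixingSubgroup_iff]
  intro z hz
  show σ⁻¹ (σ' z) = z
  rw [← h z hz]
  exact σ.symm_apply_apply z

omit [IsGalois F Ω] in
theorem GalC_restrict {L : IntermediateField F Ω} [Normal F L] (σ σ' : Gal(Ω/F)) :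
    AlgEquiv.restrictNormalHom L σ' = AlgEquiv.restrictNormalHom L σ *
      AlgEquiv.restrictNormalHom L (σ⁻¹ * σ') := by
  rw [← map_mul, mul_inv_cancel_left]

omit [IsGalois F Ω] in
theorem GalC_smul {L : IntermediateField F Ω} [Normal F L] (ρ : Gal(Ω/F)) (u : Lˣ) :
    (((AlgEquiv.restrictNormalHom L ρ • u : Lˣ) : L) : Ω) = ρ ((u : L) : Ω) :=
  AlgEquiv.restrictNormalHom_apply L ρ (u : L)

omit [IsGalois F Ω] in
theorem GalC_units_inj (L : IntermediateField F Ω) :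
    Function.Injective (Units.map (algebraMap L Ω : L →* Ω)) :=
  Units.map_injective (algebraMap L Ω).injective

theorem GalC_lev2_of_inv (L E : IntermediateField F Ω) [Normal F L]
    {c : Gal(L/F) → Gal(L/F) → Lˣ} (h : Inv2 (imSub L E) c) : Lev2 E (infl L c) := by
  obtain ⟨h1, h2, h3⟩ := h
  refine ⟨fun σ τ => ?_, fun σ σ' τ τ' hσ hτ => ?_⟩
  · apply GalC_mem_of_fixed E
    intro ρ hρ
    have e := h3 (AlgEquiv.restrictNormalHom L σ) (AlgEquiv.restrictNormalHom L τ)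
      (AlgEquiv.restrictNormalHom L ρ) ⟨ρ, hρ, rfl⟩
    have e2 := congrArg (fun u : Lˣ => ((u : L) : Ω)) e
    exact (GalC_smul ρ _).symm.trans e2
  · show Units.map _ (c (AlgEquiv.restrictNormalHom L σ) (AlgEquiv.restrictNormalHom L τ)) =
      Units.map _ (c (AlgEquiv.restrictNormalHom L σ') (AlgEquiv.restrictNormalHom L τ'))
    rw [GalC_restrict σ σ', GalC_restrict τ τ',
      h1 _ _ _ ⟨_, GalC_mem_fix hσ, rfl⟩, h2 _ _ _ ⟨_, GalC_mem_fix hτ, rfl⟩]

theorem GalC_lev1_of_inv (L E : IntermediateField F Ω) [Normal F L]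
    {b : Gal(L/F) → Lˣ} (h : Inv1 (imSub L E) b) : Lev1 E (infl1 L b) := by
  obtain ⟨h1, h3⟩ := h
  refine ⟨fun σ => ?_, fun σ σ' hσ => ?_⟩
  · apply GalC_mem_of_fixed E
    intro ρ hρ
    have e := h3 (AlgEquiv.restrictNormalHom L σ) (AlgEquiv.restrictNormalHom L ρ) ⟨ρ, hρ, rfl⟩
    have e2 := congrArg (fun u : Lˣ => ((u : L) : Ω)) e
    exact (GalC_smul ρ _).symm.trans e2
  · show Units.map _ (b (AlgEquiv.restrictNormalHom L σ)) =
      Units.map _ (b (AlgEquiv.restrictNormalHom L σ'))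
    rw [GalC_restrict σ σ', h1 _ _ ⟨_, GalC_mem_fix hσ, rfl⟩]

theorem GalC_surj (L : IntermediateField F Ω) [Normal F L] :
    Function.Surjective (AlgEquiv.restrictNormalHom (F := F) (K₁ := Ω) L) :=
  AlgEquiv.restrictNormalHom_surjective Ω

theorem GalC_inv_of_lev2 (L E : IntermediateField F Ω) [Normal F L]
    {c : Gal(L/F) → Gal(L/F) → Lˣ} (h : Lev2 E (infl L c)) : Inv2 (imSub L E) c := by
  obtain ⟨h1, h2⟩ := h
  have hfix : ∀ ρ ∈ E.fixingSubgroup, ∀ z ∈ E, ρ z = z := fun ρ hρ =>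
    (IntermediateField.mem_fixingSubgroup_iff E ρ).1 hρ
  refine ⟨?_, ?_, ?_⟩
  · rintro g h n ⟨ρ, hρ, rfl⟩
    obtain ⟨σ, rfl⟩ := GalC_surj L g
    obtain ⟨τ, rfl⟩ := GalC_surj L h
    apply GalC_units_inj L
    rw [← map_mul]
    refine h2 (σ * ρ) σ τ τ (fun z hz => ?_) fun z _ => rfl
    show σ (ρ z) = σ z
    rw [hfix ρ hρ z hz]
  · rintro g h n ⟨ρ, hρ, rfl⟩
    obtain ⟨σ, rfl⟩ := GalC_surj L g
    obtain ⟨τ, rfl⟩ := GalC_surj L h
    apply GalC_units_inj L
    rw [← map_mul]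
    refine h2 σ σ (τ * ρ) τ (fun z _ => rfl) fun z hz => ?_
    show τ (ρ z) = τ z
    rw [hfix ρ hρ z hz]
  · rintro g h n ⟨ρ, hρ, rfl⟩
    obtain ⟨σ, rfl⟩ := GalC_surj L g
    obtain ⟨τ, rfl⟩ := GalC_surj L h
    apply GalC_units_inj L
    apply Units.ext
    exact (GalC_smul ρ _).trans (hfix ρ hρ _ (h1 σ τ))

theorem GalC_infl_inj (L : IntermediateField F Ω) [Normal F L]
    {c c' : Gal(L/F) → Gal(L/F) → Lˣ} (h : infl L c = infl L c') : c = c' := by
  funext g j
  obtain ⟨σ, rfl⟩ := GalC_surj L g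
  obtain ⟨τ, rfl⟩ := GalC_surj L j
  exact GalC_units_inj L (congrFun (congrFun h σ) τ)

theorem GalC_normal (L E : IntermediateField F Ω) [Normal F L] [Normal F E] :
    (imSub L E).Normal := by
  have h : E.fixingSubgroup.Normal := by
    rw [← IntermediateField.restrictNormalHom_ker E]
    infer_instance
  exact h.map _ (GalC_surj L)

theorem GalC_h1z (L : IntermediateField F Ω) [FiniteDimensional F L] [Normal F L]
    (N : Subgroup Gal(L/F)) : H1z N Lˣ := fun f hf => h1z_units L N f hf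

omit [IsGalois F Ω] in
theorem GalC_infl_mul (L : IntermediateField F Ω) [Normal F L]
    (c c' : Gal(L/F) → Gal(L/F) → Lˣ) (σ τ : Gal(Ω/F)) :
    infl L (fun g h => c g h * c' g h) σ τ = infl L c σ τ * infl L c' σ τ := by
  unfold infl
  exact map_mul _ _ _

/-- IR: if c is split by the finite normal E, it is equivalent to a cocycle of level E. -/
theorem exists_level_of_spl (E : IntermediateField F Ω) [FiniteDimensional F E] [Normal F E]
    {c : Gal(Ω/F) → Gal(Ω/F) → Ωˣ} (hc : BC c) (h : Spl E c) :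
    ∃ c' : Gal(Ω/F) → Gal(Ω/F) → Ωˣ, IsC2 c' ∧ Lev2 E c' ∧ BEq c c' := by
  obtain ⟨L, hL1, hL2, hEL, c0, b, rfl, hb⟩ := Spl.exists_level hc.2 h E
  have hN := GalC_normal L E
  have hc0 : IsC2 c0 := (isC2_infl L c0).1 hc.1
  obtain ⟨c', b', hc', hi, he⟩ := infres (imSub L E) (GalC_h1z L _) hc0 b hb
  refine ⟨infl L c', (isC2_infl L c').2 hc', GalC_lev2_of_inv L E hi, infl1 L b',
    ⟨L, hL1, hL2, lev1_infl1 L b'⟩, fun σ τ => ?_⟩
  rw [dB_infl1, ← GalC_infl_mul]
  have h1 : c0 = fun g h => c' g h * dB b' g h := funext fun g => funext fun h => he g h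
  rw [h1]

/-- INF: two equivalent cocycles of level E differ by the coboundary of a cochain of level E. -/
theorem exists_lev1_of_beq (E : IntermediateField F Ω) [FiniteDimensional F E] [Normal F E]
    {c c' : Gal(Ω/F) → Gal(Ω/F) → Ωˣ} (hc : IsC2 c) (hc' : IsC2 c') (hl : Lev2 E c)
    (hl' : Lev2 E c') (h : BEq c c') :
    ∃ b : Gal(Ω/F) → Ωˣ, Lev1 E b ∧ ∀ σ τ, c σ τ = c' σ τ * dB b σ τ := by
  obtain ⟨b, ⟨L₀, hL₀1, hL₀2, hb⟩, he⟩ := h
  obtain ⟨L, hL1, hL2, hEL, hL₀L⟩ := exists_normal_sup E L₀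
  have hN := GalC_normal L E
  have hd : IsC2 (fun σ τ => c σ τ * (c' σ τ)⁻¹) := hc.mul hc'.inv
  have hdl : Lev2 E (fun σ τ => c σ τ * (c' σ τ)⁻¹) := hl.mul hl'.inv
  have hdb : (fun σ τ => c σ τ * (c' σ τ)⁻¹) = dB b := by
    funext σ τ
    show c σ τ * (c' σ τ)⁻¹ = dB b σ τ
    rw [he σ τ, mul_comm (c' σ τ), mul_inv_cancel_right]
  obtain ⟨d0, hd0⟩ := exists_infl L (hdl.mono hEL)
  obtain ⟨β, hβ⟩ := exists_infl1 L (hb.mono hL₀L)
  rw [hd0] at hd hdl hdb
  rw [hβ, dB_infl1] at hdb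
  have hdβ := GalC_infl_inj L hdb
  obtain ⟨b', hb'1, hb'2⟩ := inf_inj (imSub L E) (GalC_h1z L _) ((isC2_infl L d0).1 hd)
    (GalC_inv_of_lev2 L E hdl) β (fun g h => by rw [hdβ])
  refine ⟨infl1 L b', GalC_lev1_of_inv L E hb'1, fun σ τ => ?_⟩
  have h1 : d0 = dB b' := funext fun g => funext fun h => hb'2 g h
  rw [dB_infl1, ← h1, ← hd0]
  show c σ τ = c' σ τ * (c σ τ * (c' σ τ)⁻¹)
  rw [mul_comm (c σ τ), mul_inv_cancel_left]

/-- a cocycle of level E is split by E. -/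
theorem spl_of_lev2 (E : IntermediateField F Ω) [FiniteDimensional F E] [Normal F E]
    {c : Gal(Ω/F) → Gal(Ω/F) → Ωˣ} (hc : IsC2 c) (hl : Lev2 E c) : Spl E c := by
  have hfix : ∀ ρ ∈ E.fixingSubgroup, ∀ z ∈ E, ρ z = z := fun ρ hρ =>
    (IntermediateField.mem_fixingSubgroup_iff E ρ).1 hρ
  refine ⟨fun _ => c 1 1, ⟨E, inferInstance, inferInstance, fun _ => hl.1 1 1, fun _ _ _ => rfl⟩,
    fun σ hσ τ hτ => ?_⟩
  have h1 : c σ τ = c 1 1 :=
    hl.2 σ 1 τ 1 (fun z hz => hfix σ hσ z hz) (fun z hz => hfix τ hτ z hz)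
  have h2 : σ • c 1 1 = c 1 1 := by
    apply Units.ext
    exact hfix σ hσ _ (hl.1 1 1)
  rw [h1]
  unfold dB
  rw [h2, mul_div_cancel_right]

/-- COR: E ≤ M, M finite over F, index n of the fixing subgroups: if M splits c then E splits
c ^ n. -/
theorem spl_pow_of_spl {E M : IntermediateField F Ω} (hEM : E ≤ M) [FiniteDimensional F M]
    {c : Gal(Ω/F) → Gal(Ω/F) → Ωˣ} (hc : BC c) (h : Spl M c) (n : ℕ)
    (hn : M.fixingSubgroup.relIndex E.fixingSubgroup = n) :
    Spl E (fun σ τ => c σ τ ^ n) := by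
  classical
  have : FiniteDimensional F (IntermediateField.normalClosure F M Ω) := inferInstance
  have : Normal F (IntermediateField.normalClosure F M Ω) := inferInstance
  obtain ⟨L, hL1, hL2, hML, c0, b, rfl, hb⟩ :=
    Spl.exists_level hc.2 h (IntermediateField.normalClosure F M Ω)
  have hML' : M ≤ L := M.le_normalClosure.trans hML
  have hc0 : IsC2 c0 := (isC2_infl L c0).1 hc.1
  -- the subgroup `S` in `T`
  have hST : (imSub L M) ≤ imSub L E :=
    Subgroup.map_mono (IntermediateField.fixingSubgroup_antitone hEM)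
  have hker : (AlgEquiv.restrictNormalHom (F := F) (K₁ := Ω) L).ker ≤ M.fixingSubgroup := by
    rw [IntermediateField.restrictNormalHom_ker]
    exact IntermediateField.fixingSubgroup_antitone hML'
  have hidx : ((imSub L M).subgroupOf (imSub L E)).index = n := by
    show (imSub L M).relIndex (imSub L E) = n
    unfold imSub
    rw [Subgroup.relIndex_map_map, sup_eq_left.2 hker,
      sup_eq_left.2 (hker.trans (IntermediateField.fixingSubgroup_antitone hEM)), hn]
  have : Finite Gal(L/F) := inferInstance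
  obtain ⟨b', hb'⟩ := transfer (G := imSub L E) (A := Lˣ) (c := fun g h => c0 g h)
    (fun g h j => hc0 g h j) ((imSub L M).subgroupOf (imSub L E))
    Subgroup.index_ne_zero_of_finite (fun g => b g) (fun g hg g' hg' =>
      hb g (Subgroup.mem_subgroupOf.1 hg) g' (Subgroup.mem_subgroupOf.1 hg'))
  rw [hidx] at hb'
  have h1 : (fun σ τ => infl L c0 σ τ ^ n) = infl L (fun g h => c0 g h ^ n) := by
    funext σ τ
    unfold infl
    rw [map_pow]
  rw [h1]
  refine spl_of_infl L E _ (fun g => if hg : g ∈ imSub L E then b' ⟨g, hg⟩ else 1) ?_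
  intro g hg g' hg'
  have h2 := hb' ⟨g, hg⟩ ⟨g', hg'⟩
  have h3 : g * g' ∈ imSub L E := mul_mem hg hg'
  have e1 : dB (fun g => if hg : g ∈ imSub L E then b' ⟨g, hg⟩ else 1) g g' =
      dB b' ⟨g, hg⟩ ⟨g', hg'⟩ := by
    show (if hg : g ∈ imSub L E then b' ⟨g, hg⟩ else 1) *
      (g • (if hg : g' ∈ imSub L E then b' ⟨g', hg⟩ else 1)) /
      (if hg : g * g' ∈ imSub L E then b' ⟨g * g', hg⟩ else 1) = _
    rw [dif_pos hg, dif_pos hg', dif_pos h3]
    rfl
  exact h2.trans e1.symm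

/-- every Brauer cocycle is killed by the degree of its level. -/
theorem pow_finrank_beq_one (E : IntermediateField F Ω) [FiniteDimensional F E] [Normal F E]
    {c : Gal(Ω/F) → Gal(Ω/F) → Ωˣ} (hc : IsC2 c) (hl : Lev2 E c) :
    BEq (fun σ τ => c σ τ ^ Module.finrank F E) c1 := by
  classical
  have : IsGalois F E := ⟨⟩
  obtain ⟨c0, rfl⟩ := exists_infl E hl
  have hc0 : IsC2 c0 := (isC2_infl E c0).1 hc
  letI : Fintype Gal(E/F) := Fintype.ofFinite _
  have hcard : Fintype.card Gal(E/F) = Module.finrank F E := by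
    rw [← IsGalois.card_aut_eq_finrank F E, Nat.card_eq_fintype_card]
  refine ⟨infl1 E (fun g => ∏ t, c0 g t), ⟨E, inferInstance, inferInstance, lev1_infl1 E _⟩,
    fun σ τ => ?_⟩
  rw [dB_infl1, ← hcard]
  show Units.map (algebraMap E Ω : E →* Ω) (c0 (AlgEquiv.restrictNormalHom E σ)
    (AlgEquiv.restrictNormalHom E τ)) ^ Fintype.card Gal(E/F) =
    1 * Units.map (algebraMap E Ω : E →* Ω) (dB (fun g => ∏ t, c0 g t)
      (AlgEquiv.restrictNormalHom E σ) (AlgEquiv.restrictNormalHom E τ))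
  rw [one_mul, ← map_pow, pow_card_eq_dB hc0]

/-- two automorphisms: L finite normal, E arbitrary; an automorphism of Omega fixing L ⊓ E
agrees on L with one fixing E. -/
theorem exists_fixing_agree (L E : IntermediateField F Ω) [FiniteDimensional F L] [Normal F L]
    (σ : Gal(Ω/F)) (hσ : σ ∈ (L ⊓ E).fixingSubgroup) :
    ∃ τ ∈ E.fixingSubgroup, ∀ z ∈ L, τ z = σ z := by
  have : IsGalois F L := ⟨⟩
  have h1 : AlgEquiv.restrictNormalHom L σ ∈ imSub L E := by
    rw [← IntermediateField.fixingSubgroup_fixedField (imSub L E),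
      IntermediateField.mem_fixingSubgroup_iff]
    intro z hz
    rw [IntermediateField.mem_fixedField_iff] at hz
    have hzE : (z : Ω) ∈ E := by
      apply GalC_mem_of_fixed E
      intro ρ hρ
      have h2 := hz (AlgEquiv.restrictNormalHom L ρ) ⟨ρ, hρ, rfl⟩
      have h3 := congrArg (fun w : L => (w : Ω)) h2
      exact (AlgEquiv.restrictNormalHom_apply L ρ z).symm.trans h3
    apply Subtype.ext
    rw [AlgEquiv.restrictNormalHom_apply]
    exact (IntermediateField.mem_fixingSubgroup_iff _ σ).1 hσ _ ⟨z.2, hzE⟩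
  obtain ⟨τ, hτ, h2⟩ := h1
  refine ⟨τ, hτ, fun z hz => ?_⟩
  have h3 := AlgEquiv.restrictNormalHom_apply L τ ⟨z, hz⟩
  have h4 := AlgEquiv.restrictNormalHom_apply L σ ⟨z, hz⟩
  rw [h2] at h3
  exact h3.symm.trans h4

/-- CONT: a Brauer cocycle split by E is split by a finite subextension of E. -/
theorem Spl.exists_finite {E : IntermediateField F Ω} {c : Gal(Ω/F) → Gal(Ω/F) → Ωˣ}
    (hc : Fin2 c) (h : Spl E c) :
    ∃ E₀ : IntermediateField F Ω, E₀ ≤ E ∧ FiniteDimensional F E₀ ∧ Spl E₀ c := by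
  obtain ⟨L₁, h11, h12, h13⟩ := hc
  obtain ⟨b, ⟨L₂, h21, h22, h23⟩, hb⟩ := h
  obtain ⟨L, hL1, hL2, hL₁, hL₂⟩ := exists_normal_sup L₁ L₂
  have hcL := h13.mono hL₁
  have hbL := (h23.mono hL₂).dB
  refine ⟨L ⊓ E, inf_le_right, ?_, b, ⟨L₂, h21, h22, h23⟩, ?_⟩
  · exact Module.Finite.of_injective
      (IntermediateField.inclusion (show L ⊓ E ≤ L from inf_le_left)).toLinearMap
      (IntermediateField.inclusion (show L ⊓ E ≤ L from inf_le_left)).injective
  · intro σ hσ τ hτ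
    obtain ⟨σ', hσ', h1⟩ := exists_fixing_agree L E σ hσ
    obtain ⟨τ', hτ', h2⟩ := exists_fixing_agree L E τ hτ
    rw [← hcL.2 σ' σ τ' τ h1 h2, ← hbL.2 σ' σ τ' τ h1 h2]
    exact hb σ' hσ' τ' hτ'

end W42
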