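import Pool.Agent.W_42fc02_h90.RDef
import Pool.Agent.W_42fc02_h90.CochA

/-!
RatA: orders of rational functions at points, leading coefficient. RF K is definitionally RatFunc K, pF K = algebraMap K[X] (RatFunc K).
-/

namespace W42

open Polynomial

theorem RatA_cross {K : Type} [Field K] (p : K[X]) {q : K[X]} (hq : q ≠ 0) :
    (pF K p / pF K q).out.num * q = p * (pF K p / pF K q).out.denom := by
  have h := (RatFunc.num_mul_eq_mul_denom_iff (x := (pF K p / pF K q).out) (p := p) hq).mpr
  exact h rfl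

theorem RatA_num_ne_zero {K : Type} [Field K] {f : RF K} (hf : f ≠ 0) : f.out.num ≠ 0 :=
  RatFunc.num_ne_zero hf

theorem RatA_denom_ne_zero {K : Type} [Field K] (f : RF K) : f.out.denom ≠ 0 :=
  RatFunc.denom_ne_zero _

theorem RatA_pF_ne_zero {K : Type} [Field K] {p : K[X]} (hp : p ≠ 0) : pF K p ≠ 0 := by
  intro h
  apply hp
  apply pF_injective K
  rw [h, map_zero]

theorem RatA_div_ne_zero {K : Type} [Field K] {p q : K[X]} (hp : p ≠ 0) (hq : q ≠ 0) :
    pF K p / pF K q ≠ 0 := div_ne_zero (RatA_pF_ne_zero hp) (RatA_pF_ne_zero hq)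

theorem RatA_exists {K : Type} [Field K] {f : RF K} (hf : f ≠ 0) :
    ∃ p q : K[X], p ≠ 0 ∧ q ≠ 0 ∧ f = pF K p / pF K q := by
  obtain ⟨p, q, hq, h⟩ := exists_pF_div f
  refine ⟨p, q, ?_, hq, h⟩
  rintro rfl
  apply hf
  rw [h, map_zero, zero_div]

theorem rord_div {K : Type} [Field K] (θ : K) {p q : K[X]} (hp : p ≠ 0) (hq : q ≠ 0) :
    rord θ (pF K p / pF K q) = (p.rootMultiplicity θ : ℤ) - (q.rootMultiplicity θ : ℤ) := by
  have h := RatA_cross (K := K) p hq
  have hf : pF K p / pF K q ≠ 0 := RatA_div_ne_zero hp hq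
  have hn := RatA_num_ne_zero hf
  have hd := RatA_denom_ne_zero (pF K p / pF K q)
  have h2 := congrArg (fun r => rootMultiplicity θ r) h
  rw [rootMultiplicity_mul (mul_ne_zero hn hq), rootMultiplicity_mul (mul_ne_zero hp hd)] at h2
  unfold rord
  omega

theorem rord_poly {K : Type} [Field K] (θ : K) (p : K[X]) :
    rord θ (pF K p) = p.rootMultiplicity θ := by
  by_cases hp : p = 0
  · subst hp
    unfold rord
    have h1 : (pF K (0 : K[X])).out = (0 : RatFunc K) := map_zero (algebraMap K[X] (RatFunc K))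
    rw [h1, RatFunc.num_zero, RatFunc.denom_zero]
    simp [rootMultiplicity_zero]
  · have h := rord_div (K := K) θ hp (one_ne_zero)
    rw [map_one, div_one] at h
    rw [h]
    simp

theorem rord_mul {K : Type} [Field K] (θ : K) {f g : RF K} (hf : f ≠ 0) (hg : g ≠ 0) :
    rord θ (f * g) = rord θ f + rord θ g := by
  obtain ⟨p, q, hp, hq, rfl⟩ := RatA_exists hf
  obtain ⟨r, s, hr, hs, rfl⟩ := RatA_exists hg
  have h1 : pF K p / pF K q * (pF K r / pF K s) = pF K (p * r) / pF K (q * s) := by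
    rw [map_mul, map_mul, div_mul_div_comm]
  rw [h1, rord_div θ (mul_ne_zero hp hr) (mul_ne_zero hq hs), rord_div θ hp hq, rord_div θ hr hs,
    rootMultiplicity_mul (mul_ne_zero hp hr), rootMultiplicity_mul (mul_ne_zero hq hs)]
  push_cast
  ring

theorem rord_one {K : Type} [Field K] (θ : K) : rord θ (1 : RF K) = 0 := by
  have h := rord_poly (K := K) θ 1
  rw [map_one] at h
  rw [h]
  simp

theorem RatA_rord_zero {K : Type} [Field K] (θ : K) : rord θ (0 : RF K) = 0 := by
  have h := rord_poly (K := K) θ 0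
  rw [map_zero] at h
  rw [h]
  simp

theorem rord_inv {K : Type} [Field K] (θ : K) (f : RF K) : rord θ f⁻¹ = - rord θ f := by
  by_cases hf : f = 0
  · subst hf
    rw [inv_zero, RatA_rord_zero, neg_zero]
  · have h := rord_mul (K := K) θ hf (inv_ne_zero hf)
    rw [mul_inv_cancel₀ hf, rord_one] at h
    omega

theorem rord_C {K : Type} [Field K] (θ a : K) : rord θ (cF K a) = 0 := by
  have h : cF K a = pF K (Polynomial.C a) := rfl
  rw [h, rord_poly, rootMultiplicity_C]
  rfl

/-- transport by a field embedding -/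
theorem rord_map {K K' : Type} [Field K] [Field K'] (ι : K →+* K') (θ : K) (f : RF K) :
    rord (ι θ) (rmap ι f) = rord θ f := by
  by_cases hf : f = 0
  · subst hf
    rw [map_zero, RatA_rord_zero, RatA_rord_zero]
  · obtain ⟨p, q, hp, hq, rfl⟩ := RatA_exists hf
    have hp' : p.map ι ≠ 0 := (Polynomial.map_ne_zero_iff ι.injective).mpr hp
    have hq' : q.map ι ≠ 0 := (Polynomial.map_ne_zero_iff ι.injective).mpr hq
    rw [rmap_div, rord_div _ hp' hq', rord_div _ hp hq, ← eq_rootMultiplicity_map ι.injective θ,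
      ← eq_rootMultiplicity_map ι.injective θ]

theorem RatA_lc_div {K : Type} [Field K] (p : K[X]) {q : K[X]} (hq : q ≠ 0) :
    lc (pF K p / pF K q) = p.leadingCoeff / q.leadingCoeff := by
  have h := RatA_cross (K := K) p hq
  have hd : (pF K p / pF K q).out.denom.leadingCoeff = 1 := RatFunc.monic_denom _
  have h2 := congrArg Polynomial.leadingCoeff h
  rw [leadingCoeff_mul, leadingCoeff_mul, hd, mul_one] at h2
  have hq' : q.leadingCoeff ≠ 0 := leadingCoeff_ne_zero.mpr hq
  rw [eq_div_iff hq']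
  exact h2

theorem lc_mul {K : Type} [Field K] (f g : RF K) : lc (f * g) = lc f * lc g := by
  obtain ⟨p, q, hq, rfl⟩ := exists_pF_div f
  obtain ⟨r, s, hs, rfl⟩ := exists_pF_div g
  have h1 : pF K p / pF K q * (pF K r / pF K s) = pF K (p * r) / pF K (q * s) := by
    rw [map_mul, map_mul, div_mul_div_comm]
  rw [h1, RatA_lc_div _ (mul_ne_zero hq hs), RatA_lc_div _ hq, RatA_lc_div _ hs, leadingCoeff_mul,
    leadingCoeff_mul, div_mul_div_comm]

theorem lc_C {K : Type} [Field K] (a : K) : lc (cF K a) = a := by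
  have h := RatA_lc_div (K := K) (Polynomial.C a) (one_ne_zero : (1 : K[X]) ≠ 0)
  rw [map_one, div_one, leadingCoeff_one, div_one, leadingCoeff_C] at h
  exact h

theorem lc_ne_zero {K : Type} [Field K] {f : RF K} (hf : f ≠ 0) : lc f ≠ 0 :=
  leadingCoeff_ne_zero.mpr (RatA_num_ne_zero hf)

theorem lc_rmap {K K' : Type} [Field K] [Field K'] (ι : K →+* K') (f : RF K) :
    lc (rmap ι f) = ι (lc f) := by
  obtain ⟨p, q, hq, rfl⟩ := exists_pF_div f
  have hq' : q.map ι ≠ 0 := (Polynomial.map_ne_zero_iff ι.injective).mpr hq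
  rw [rmap_div, RatA_lc_div _ hq', RatA_lc_div _ hq, leadingCoeff_map, leadingCoeff_map, map_div₀]

theorem rmap_C {K K' : Type} [Field K] [Field K'] (ι : K →+* K') (a : K) :
    rmap ι (cF K a) = cF K' (ι a) := by
  have h := rmap_div ι (Polynomial.C a) 1
  rw [Polynomial.map_one, map_one, map_one, div_one, div_one, Polynomial.map_C] at h
  exact h

theorem RatA_lc_one {K : Type} [Field K] : lc (1 : RF K) = 1 := by
  have h := lc_C (K := K) 1
  rwa [map_one] at h

/-- the leading coefficient as a monoid homomorphism on units -/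
noncomputable def RatA_lcu (K : Type) [Field K] : (RF K)ˣ →* Kˣ where
  toFun u := Units.mk0 (lc (u : RF K)) (lc_ne_zero u.ne_zero)
  map_one' := Units.ext (by
    show lc ((1 : (RF K)ˣ) : RF K) = 1
    rw [Units.val_one, RatA_lc_one])
  map_mul' u v := Units.ext (by
    show lc ((u * v : (RF K)ˣ) : RF K) = lc (u : RF K) * lc (v : RF K)
    rw [Units.val_mul, lc_mul])

theorem RatA_lcu_val {K : Type} [Field K] (u : (RF K)ˣ) :
    ((RatA_lcu K u : Kˣ) : K) = lc (u : RF K) := rfl

theorem RatA_lcu_smul {k K : Type} [Field k] [Field K] [Algebra k K] (g : Gal(K/k))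
    (u : (RF K)ˣ) : RatA_lcu K (g • u) = g • RatA_lcu K u := by
  apply Units.ext
  rw [RatA_lcu_val, coe_ratAct, lc_rmap]
  rfl

/-- constants: equality of constant cocycles in RF descends to the constant field
(apply lc). -/
theorem const_coboundary {k K : Type} [Field k] [Field K] [Algebra k K]
    (c₀ : Gal(K/k) → Gal(K/k) → Kˣ) (b : Gal(K/k) → (RF K)ˣ)
    (h : ∀ g j, Units.map (cF K : K →* RF K) (c₀ g j) = dB b g j) :
    ∃ b₀ : Gal(K/k) → Kˣ, ∀ g j, c₀ g j = dB b₀ g j := by
  refine ⟨fun g => RatA_lcu K (b g), fun g j => ?_⟩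
  have h1 := congrArg (RatA_lcu K) (h g j)
  have h2 : RatA_lcu K (Units.map (cF K : K →* RF K) (c₀ g j)) = c₀ g j := by
    apply Units.ext
    rw [RatA_lcu_val]
    exact lc_C _
  rw [h2] at h1
  rw [h1]
  unfold dB
  rw [_root_.map_div, _root_.map_mul, RatA_lcu_smul]

end W42
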