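import Pool.Agent.W_42fc02_h90.FDef
import Pool.Agent.W_42fc02_h90.GalC
import Pool.Agent.W_42fc02_h90.RatA

/-!
FieldA: dictionary between cochains of level KF kp and cochains of Gal(kp / kappa) with values in
RatFunc kp. (F = kappa(y), Omega / F Galois.)
-/

namespace W42

open Polynomial

section
variable (κ F : Type) {Ω : Type} [Field κ] [Field F] [Field Ω] [Algebra κ F] [Algebra κ[X] F]
  [IsScalarTower κ κ[X] F] [IsFractionRing κ[X] F] [Algebra F Ω] [Algebra κ Ω]
  [IsScalarTower κ F Ω] [IsGalois F Ω]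

theorem FieldA_div (kp : IntermediateField κ Ω) [Algebra.IsAlgebraic κ kp] (p q : kp[X]) :
    PhiO κ F kp (pF kp p / pF kp q) =
      p.eval₂ (algebraMap kp Ω) (yO κ F Ω) / q.eval₂ (algebraMap kp Ω) (yO κ F Ω) :=
  RatFunc.liftRingHom_apply_div (eval₂RingHom (algebraMap kp Ω) (yO κ F Ω)) (eval_le κ F kp) p q

theorem FieldA_poly (kp : IntermediateField κ Ω) [Algebra.IsAlgebraic κ kp] (p : kp[X]) :
    PhiO κ F kp (pF kp p) = p.eval₂ (algebraMap kp Ω) (yO κ F Ω) := by
  have h := FieldA_div κ F kp p 1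
  rw [map_one, div_one, eval₂_one, div_one] at h
  exact h

theorem PhiO_C (kp : IntermediateField κ Ω) [Algebra.IsAlgebraic κ kp] (a : kp) :
    PhiO κ F kp (cF kp a) = (a : Ω) := by
  have h : cF kp a = pF kp (C a) := rfl
  rw [h, FieldA_poly, eval₂_C]
  rfl

theorem PhiO_X (kp : IntermediateField κ Ω) [Algebra.IsAlgebraic κ kp] :
    PhiO κ F kp (pF kp X) = yO κ F Ω := by
  rw [FieldA_poly, eval₂_X]

theorem PhiO_poly (kp : IntermediateField κ Ω) [Algebra.IsAlgebraic κ kp] (p : kp[X]) :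
    PhiO κ F kp (pF kp p) = p.eval₂ (algebraMap kp Ω) (yO κ F Ω) := by
  exact FieldA_poly κ F kp p

/-- elements of F are values of rational functions over kappa. -/
theorem PhiO_map (kp : IntermediateField κ Ω) [Algebra.IsAlgebraic κ kp] (p q : κ[X])
    (hq : q ≠ 0) :
    PhiO κ F kp (rmap (algebraMap κ kp)
      (pF κ p / pF κ q)) =
      algebraMap F Ω (algebraMap κ[X] F p / algebraMap κ[X] F q) := by
  rw [rmap_div, FieldA_div, eval₂_map, eval₂_map, map_div₀]
  have h : (algebraMap kp Ω).comp (algebraMap κ kp) = algebraMap κ Ω := rfl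
  rw [h, FDef_eval, FDef_eval]

/-- compatibility for kp ≤ kq. -/
theorem PhiO_incl (kp kq : IntermediateField κ Ω) [Algebra.IsAlgebraic κ kp]
    [Algebra.IsAlgebraic κ kq] (h : kp ≤ kq) (f : RF kp) :
    PhiO κ F kq (rmap (IntermediateField.inclusion h : kp →+* kq) f) = PhiO κ F kp f := by
  obtain ⟨p, q, _, rfl⟩ := exists_pF_div f
  rw [rmap_div, FieldA_div, FieldA_div, eval₂_map, eval₂_map]
  rfl

theorem FieldA_rk (kp : IntermediateField κ Ω) [Normal κ kp] (σ : Gal(Ω/F)) (z : kp) :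
    ((rk κ F kp σ z : kp) : Ω) = σ (z : Ω) :=
  AlgEquiv.restrictNormalHom_apply kp (AlgEquiv.restrictScalarsHom κ σ) z

theorem FieldA_y (σ : Gal(Ω/F)) : σ (yO κ F Ω) = yO κ F Ω := by
  unfold yO
  exact σ.commutes _

theorem smul_PhiO (kp : IntermediateField κ Ω) [Normal κ kp] [Algebra.IsAlgebraic κ kp]
    (σ : Gal(Ω/F)) (f : RF kp) : σ (PhiO κ F kp f) =
      PhiO κ F kp (rmap (rk κ F kp σ : kp →+* kp) f) := by
  obtain ⟨p, q, _, rfl⟩ := exists_pF_div f
  have h : ∀ r : kp[X], σ (r.eval₂ (algebraMap kp Ω) (yO κ F Ω)) =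
      (r.map (rk κ F kp σ : kp →+* kp)).eval₂ (algebraMap kp Ω) (yO κ F Ω) := by
    intro r
    have h1 := Polynomial.hom_eval₂ r (algebraMap kp Ω) (σ : Ω →+* Ω) (yO κ F Ω)
    have h2 : (σ : Ω →+* Ω).comp (algebraMap kp Ω) =
        (algebraMap kp Ω).comp (rk κ F kp σ : kp →+* kp) := by
      ext z
      exact (FieldA_rk κ F kp σ z).symm
    have h3 : (σ : Ω →+* Ω) (yO κ F Ω) = yO κ F Ω := FieldA_y κ F σ
    rw [h2, h3] at h1
    rw [eval₂_map]
    exact h1
  rw [rmap_div, FieldA_div, FieldA_div, map_div₀, h, h]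

theorem rk_apply (kp : IntermediateField κ Ω) [Normal κ kp] (σ : Gal(Ω/F)) (z : kp) :
    ((rk κ F kp σ z : kp) : Ω) = σ (z : Ω) := by
  exact FieldA_rk κ F kp σ z

theorem mem_KF_iff (kp : IntermediateField κ Ω) [Algebra.IsAlgebraic κ kp] (z : Ω) :
    z ∈ KF κ F kp ↔ ∃ f : RF kp, PhiO κ F kp f = z := by
  constructor
  · intro hz
    have hle : KF κ F kp ≤ Subfield.toIntermediateField (PhiO κ F kp).fieldRange (by
        intro x
        obtain ⟨p, q, hq, rfl⟩ := IsFractionRing.div_surjective (A := κ[X]) x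
        exact ⟨_, PhiO_map κ F kp p q (nonZeroDivisors.ne_zero hq)⟩) := by
      unfold KF
      rw [IntermediateField.adjoin_le_iff]
      intro w hw
      exact ⟨cF kp ⟨w, hw⟩, PhiO_C κ F kp ⟨w, hw⟩⟩
    exact hle hz
  · rintro ⟨f, rfl⟩
    have hy : yO κ F Ω ∈ KF κ F kp := (KF κ F kp).algebraMap_mem _
    have hsub : ∀ a : kp, (a : Ω) ∈ KF κ F kp := fun a =>
      IntermediateField.subset_adjoin F (kp : Set Ω) a.2
    have hev : ∀ r : kp[X], r.eval₂ (algebraMap kp Ω) (yO κ F Ω) ∈ KF κ F kp := by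
      intro r
      rw [eval₂_eq_sum]
      exact sum_mem fun n _ => mul_mem (hsub _) (pow_mem hy n)
    obtain ⟨p, q, _, rfl⟩ := exists_pF_div f
    rw [FieldA_div]
    exact div_mem (hev p) (hev q)

theorem KF_finite (kp : IntermediateField κ Ω) [FiniteDimensional κ kp] :
    FiniteDimensional F (KF κ F kp) := by
  let b := Module.finBasis κ kp
  have hS : KF κ F kp = IntermediateField.adjoin F (Set.range fun i => ((b i : kp) : Ω)) := by
    apply le_antisymm
    · unfold KF
      rw [IntermediateField.adjoin_le_iff]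
      intro z hz
      have h1 := b.sum_repr ⟨z, hz⟩
      have h2 := congrArg (fun w : kp => (w : Ω)) h1
      have h3 : z = ∑ i, algebraMap F Ω (algebraMap κ F (b.repr ⟨z, hz⟩ i)) * (b i : kp) := by
        refine Eq.trans h2.symm ?_
        have h4 : ((∑ i, b.repr ⟨z, hz⟩ i • b i : kp) : Ω) =
            ∑ i, ((b.repr ⟨z, hz⟩ i • b i : kp) : Ω) := map_sum (algebraMap kp Ω) _ _
        refine h4.trans ?_
        refine Finset.sum_congr rfl fun i _ => ?_
        rw [← IsScalarTower.algebraMap_apply κ F Ω, ← Algebra.smul_def]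
        rfl
      rw [h3]
      exact sum_mem fun i _ => mul_mem (IntermediateField.algebraMap_mem _ _)
        (IntermediateField.subset_adjoin F _ ⟨i, rfl⟩)
    · rw [IntermediateField.adjoin_le_iff]
      rintro _ ⟨i, rfl⟩
      exact IntermediateField.subset_adjoin F (kp : Set Ω) (b i).2
  rw [hS]
  have : Finite (Set.range fun i => ((b i : kp) : Ω)) := Set.finite_range _
  exact IntermediateField.finiteDimensional_adjoin fun x _ =>
    (Algebra.IsIntegral.isIntegral (R := F) x)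

theorem KF_normal (kp : IntermediateField κ Ω) [FiniteDimensional κ kp] [Normal κ kp] :
    Normal F (KF κ F kp) := by
  rw [IntermediateField.normal_iff_forall_map_le']
  intro σ
  unfold KF
  rw [IntermediateField.adjoin_map, IntermediateField.adjoin_le_iff]
  rintro _ ⟨z, hz, rfl⟩
  have h := FieldA_rk κ F kp σ ⟨z, hz⟩
  apply IntermediateField.subset_adjoin
  show σ z ∈ (kp : Set Ω)
  rw [show σ z = σ ((⟨z, hz⟩ : kp) : Ω) from rfl, ← h]
  exact (rk κ F kp σ ⟨z, hz⟩).2

theorem KF_mono {kp kq : IntermediateField κ Ω} (h : kp ≤ kq) : KF κ F kp ≤ KF κ F kq := by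
  exact IntermediateField.adjoin.mono F _ _ h

theorem rk_eq_iff (kp : IntermediateField κ Ω) [Normal κ kp] (σ τ : Gal(Ω/F)) :
    rk κ F kp σ = rk κ F kp τ ↔ ∀ z ∈ KF κ F kp, σ z = τ z := by
  constructor
  · intro h z hz
    have hle : KF κ F kp ≤ IntermediateField.fixedField (Subgroup.zpowers (σ⁻¹ * τ)) := by
      unfold KF
      rw [IntermediateField.adjoin_le_iff]
      intro w hw
      have h1 := FieldA_rk κ F kp σ ⟨w, hw⟩
      rw [h, FieldA_rk] at h1
      rw [SetLike.mem_coe, IntermediateField.mem_fixedField_iff]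
      have h2 : (σ⁻¹ * τ) w = w := by
        show σ⁻¹ (τ w) = w
        rw [show τ w = σ w from h1]
        exact σ.symm_apply_apply w
      have h3 : σ⁻¹ * τ ∈ MulAction.stabilizer Gal(Ω/F) w := h2
      intro g hg
      obtain ⟨n, rfl⟩ := hg
      exact Subgroup.zpow_mem _ h3 n
    have h4 := (IntermediateField.mem_fixedField_iff _ _).1 (hle hz) _
      (Subgroup.mem_zpowers (σ⁻¹ * τ))
    have h5 : σ⁻¹ (τ z) = z := h4
    have h6 := congrArg σ h5
    have h7 : σ (σ⁻¹ (τ z)) = τ z := σ.apply_symm_apply (τ z)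
    rw [h7] at h6
    exact h6.symm
  · intro h
    apply AlgEquiv.ext
    intro z
    apply Subtype.ext
    rw [FieldA_rk, FieldA_rk]
    exact h z (IntermediateField.subset_adjoin F (kp : Set Ω) z.2)

/-- Gal(Omega / F) -> Gal(kp / kappa) is onto (kp and F are linearly disjoint over kappa: an
automorphism of kp extends to KF kp = Frac kp[y] fixing y, and then to Omega). -/
theorem rk_surjective (kp : IntermediateField κ Ω) [FiniteDimensional κ kp] [Normal κ kp] :
    Function.Surjective (rk κ F kp) := by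
  intro γ
  let e0 : RF kp →+* KF κ F kp :=
    (PhiO κ F kp).codRestrict (KF κ F kp) fun f => (mem_KF_iff κ F kp _).2 ⟨f, rfl⟩
  have he0 : Function.Bijective e0 := by
    refine ⟨e0.injective, ?_⟩
    rintro ⟨z, hz⟩
    obtain ⟨f, hf⟩ := (mem_KF_iff κ F kp z).1 hz
    exact ⟨f, Subtype.ext hf⟩
  let e : RF kp ≃+* KF κ F kp := RingEquiv.ofBijective e0 he0
  have he : ∀ f, ((e f : KF κ F kp) : Ω) = PhiO κ F kp f := fun f => rfl
  have hsymm : ∀ (z : KF κ F kp) (f : RF kp), PhiO κ F kp f = (z : Ω) → e.symm z = f := by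
    intro z f h
    rw [RingEquiv.symm_apply_eq]
    exact Subtype.ext h.symm
  let ρ : KF κ F kp →ₐ[F] Ω :=
    { ((PhiO κ F kp).comp ((rmap (γ : kp →+* kp)).comp (e.symm : KF κ F kp →+* RF kp))) with
      commutes' := by
        intro x
        show PhiO κ F kp (rmap (γ : kp →+* kp) (e.symm (algebraMap F (KF κ F kp) x))) =
          algebraMap F Ω x
        obtain ⟨p, q, hq, rfl⟩ := IsFractionRing.div_surjective (A := κ[X]) x
        have hm := PhiO_map κ F kp p q (nonZeroDivisors.ne_zero hq)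
        rw [hsymm _ _ hm, rmap_comp]
        have h1 : (γ : kp →+* kp).comp (algebraMap κ kp) = algebraMap κ kp := by
          ext a
          exact congrArg _ (γ.commutes a)
        rw [h1, hm] }
  have hρ : ∀ z : kp, ∀ hz : (z : Ω) ∈ KF κ F kp, ρ ⟨z, hz⟩ = (γ z : kp) := by
    intro z hz
    show PhiO κ F kp (rmap (γ : kp →+* kp) (e.symm ⟨z, hz⟩)) = (γ z : kp)
    rw [hsymm _ (cF kp z) (PhiO_C κ F kp z), rmap_C, PhiO_C]
    rfl
  let σ0 : Ω →ₐ[F] Ω := ρ.liftNormal Ω
  have hσ0 : ∀ z : KF κ F kp, σ0 (z : Ω) = ρ z := fun z => AlgHom.liftNormal_commutes ρ Ω z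
  let σ : Gal(Ω/F) := AlgEquiv.ofBijective σ0 (AlgHom.normal_bijective F Ω Ω σ0)
  refine ⟨σ, ?_⟩
  apply AlgEquiv.ext
  intro z
  apply Subtype.ext
  rw [FieldA_rk]
  have hz : (z : Ω) ∈ KF κ F kp := IntermediateField.subset_adjoin F (kp : Set Ω) z.2
  show σ0 (z : Ω) = (γ z : kp)
  rw [← hρ z hz, ← hσ0 ⟨z, hz⟩]

end

end W42
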