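import Mathlib

/-!
Glob: F = F_q(x,y) is infinite, finitely generated and not a global field; Dirichlet.

not_glob: if F is finite over the subfield generated by t, its transcendence degree over ZMod q is at
most 1, but x, y are algebraically independent (transcendence degree API: Algebra.trdeg,
IsTranscendenceBasis.cardinalMk_eq, AlgebraicIndependent).
exists_prime: Dirichlet (Nat.setOf_prime_and_eq_mod_infinite or forall_exists_prime_gt_and_eq_mod) for
q = 1 + n mod n^2 (1 + n is a unit mod n^2): q - 1 = n (1 + n j).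
-/

namespace W42

/-- number fields and global function fields, as in the frozen statement -/
def IsGlob (F : Type) [Field F] : Prop :=
  (CharZero F → ∀ x : F, IsAlgebraic ℤ x) ∧
    ∃ t : F, FiniteDimensional (Subfield.closure ({t} : Set F)) F

theorem glob_infinite (q : ℕ) [Fact q.Prime] : Infinite (RatFunc (RatFunc (ZMod q))) :=
  Infinite.of_injective
    (algebraMap (Polynomial (RatFunc (ZMod q))) (RatFunc (RatFunc (ZMod q))))
    (IsFractionRing.injective _ _)

private theorem Glob_top (K : Type) [Field K] (T : Subfield (RatFunc K))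
    (hC : ∀ a : K, algebraMap K (RatFunc K) a ∈ T)
    (hX : algebraMap (Polynomial K) (RatFunc K) Polynomial.X ∈ T) : T = ⊤ := by
  have h1 : ∀ p : Polynomial K, algebraMap (Polynomial K) (RatFunc K) p ∈ T := by
    intro p
    induction p using Polynomial.induction_on' with
    | add p q hp hq =>
      rw [map_add]
      exact T.add_mem hp hq
    | monomial n a =>
      rw [← Polynomial.C_mul_X_pow_eq_monomial, map_mul, map_pow]
      apply T.mul_mem _ (T.pow_mem hX n)
      have h2 : algebraMap (Polynomial K) (RatFunc K) (Polynomial.C a) =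
          algebraMap K (RatFunc K) a := by
        rw [IsScalarTower.algebraMap_apply K (Polynomial K) (RatFunc K), Polynomial.algebraMap_eq]
      rw [h2]
      exact hC a
  rw [eq_top_iff]
  intro z _
  obtain ⟨a, b, _, h⟩ := IsFractionRing.div_surjective (A := Polynomial K) z
  rw [← h]
  exact T.div_mem (h1 a) (h1 b)

theorem glob_fg (q : ℕ) [Fact q.Prime] :
    ∃ s : Finset (RatFunc (RatFunc (ZMod q))),
      Subfield.closure (s : Set (RatFunc (RatFunc (ZMod q)))) = ⊤ := by
  classical
  obtain ⟨x, hx⟩ : ∃ x : RatFunc (RatFunc (ZMod q)),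
      x = algebraMap (RatFunc (ZMod q)) (RatFunc (RatFunc (ZMod q)))
        (algebraMap (Polynomial (ZMod q)) (RatFunc (ZMod q)) Polynomial.X) := ⟨_, rfl⟩
  obtain ⟨y, hy⟩ : ∃ y : RatFunc (RatFunc (ZMod q)),
      y = algebraMap (Polynomial (RatFunc (ZMod q))) (RatFunc (RatFunc (ZMod q)))
        Polynomial.X := ⟨_, rfl⟩
  refine ⟨{x, y}, ?_⟩
  have h1 : x ∈ Subfield.closure ((({x, y} : Finset (RatFunc (RatFunc (ZMod q)))) :
      Set (RatFunc (RatFunc (ZMod q))))) := Subfield.subset_closure (by simp)
  have h2 : y ∈ Subfield.closure ((({x, y} : Finset (RatFunc (RatFunc (ZMod q)))) :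
      Set (RatFunc (RatFunc (ZMod q))))) := Subfield.subset_closure (by simp)
  obtain ⟨T, hT⟩ : ∃ T : Subfield (RatFunc (RatFunc (ZMod q))),
      T = Subfield.closure ((({x, y} : Finset (RatFunc (RatFunc (ZMod q)))) :
      Set (RatFunc (RatFunc (ZMod q))))) := ⟨_, rfl⟩
  rw [← hT] at h1 h2 ⊢
  have h3 : T.comap (algebraMap (RatFunc (ZMod q)) (RatFunc (RatFunc (ZMod q)))) = ⊤ := by
    apply Glob_top
    · intro a
      rw [Subfield.mem_comap]
      obtain ⟨n, rfl⟩ := ZMod.natCast_zmod_surjective a
      rw [map_natCast, map_natCast]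
      exact natCast_mem T n
    · rw [Subfield.mem_comap, ← hx]
      exact h1
  apply Glob_top
  · intro a
    have h4 : a ∈ T.comap (algebraMap (RatFunc (ZMod q)) (RatFunc (RatFunc (ZMod q)))) := by
      rw [h3]
      exact Subfield.mem_top a
    exact h4
  · rw [← hy]
    exact h2

open Algebra in
private theorem Glob_trdeg_pos (K : Type) [Field K] : 1 ≤ Algebra.trdeg K (RatFunc K) := by
  have h1 : Transcendental K (algebraMap (Polynomial K) (RatFunc K) Polynomial.X) :=
    (transcendental_algebraMap_iff (IsFractionRing.injective _ _)).2 (Polynomial.transcendental_X K)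
  have h2 : Algebra.Transcendental K (RatFunc K) := ⟨_, h1⟩
  exact Cardinal.one_le_iff_pos.2 (trdeg_pos K (RatFunc K))

open scoped IntermediateField.algebraAdjoinAdjoin in
private theorem Glob_trdeg_le (K F : Type) [Field K] [Field F] [Algebra K F] (t : F)
    (h : FiniteDimensional (IntermediateField.adjoin K ({t} : Set F)) F) :
    Algebra.trdeg K F ≤ 1 := by
  have h1 : Algebra.IsAlgebraic (IntermediateField.adjoin K ({t} : Set F)) F := inferInstance
  have h2 : Algebra.IsAlgebraic (Algebra.adjoin K ({t} : Set F)) F :=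
    (IsFractionRing.comap_isAlgebraic_iff (A := Algebra.adjoin K ({t} : Set F))
      (K := IntermediateField.adjoin K ({t} : Set F)) (C := F)).2 h1
  have h3 := Algebra.IsAlgebraic.trdeg_le_cardinalMk K ({t} : Set F)
  rwa [Cardinal.mk_singleton] at h3

theorem not_glob (q : ℕ) [Fact q.Prime] : ¬ IsGlob (RatFunc (RatFunc (ZMod q))) := by
  rintro ⟨-, t, ht⟩
  have h1 : (IntermediateField.adjoin (ZMod q) ({t} : Set (RatFunc (RatFunc (ZMod q))))).toSubfield
      = Subfield.closure ({t} : Set (RatFunc (RatFunc (ZMod q)))) := by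
    apply le_antisymm
    · show Subfield.closure (Set.range (algebraMap (ZMod q) (RatFunc (RatFunc (ZMod q)))) ∪ {t}) ≤ _
      rw [Subfield.closure_le]
      rintro z (⟨a, rfl⟩ | hz)
      · obtain ⟨n, rfl⟩ := ZMod.natCast_zmod_surjective a
        rw [map_natCast]
        exact natCast_mem _ n
      · exact Subfield.subset_closure hz
    · apply Subfield.closure_mono
      exact Set.subset_union_right
  have h2 : ∀ S : Subfield (RatFunc (RatFunc (ZMod q))),
      S = Subfield.closure ({t} : Set (RatFunc (RatFunc (ZMod q)))) →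
      FiniteDimensional S (RatFunc (RatFunc (ZMod q))) := by
    rintro _ rfl
    exact ht
  have h3 := h2 _ h1
  have h4 := Glob_trdeg_le (ZMod q) (RatFunc (RatFunc (ZMod q))) t h3
  have h5 := trdeg_add_eq (ZMod q) (RatFunc (ZMod q)) (A := RatFunc (RatFunc (ZMod q)))
  rw [← h5] at h4
  have h6 := Glob_trdeg_pos (ZMod q)
  have h7 := Glob_trdeg_pos (RatFunc (ZMod q))
  have h8 : (1 : Cardinal) + 1 ≤ 1 := (add_le_add h6 h7).trans h4
  have h9 : ((2 : ℕ) : Cardinal) ≤ ((1 : ℕ) : Cardinal) := by
    push_cast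
    rwa [one_add_one_eq_two] at h8
  have h10 := Nat.cast_le.1 h9
  omega

/-! The same for an arbitrary finite field k. -/

theorem glob_infinite_k (k : Type) [Field k] : Infinite (RatFunc (RatFunc k)) :=
  Infinite.of_injective
    (algebraMap (Polynomial (RatFunc k)) (RatFunc (RatFunc k)))
    (IsFractionRing.injective _ _)

theorem glob_fg_k (k : Type) [Field k] [Finite k] :
    ∃ s : Finset (RatFunc (RatFunc k)),
      Subfield.closure (s : Set (RatFunc (RatFunc k))) = ⊤ := by
  classical
  obtain ⟨x, hx⟩ : ∃ x : RatFunc (RatFunc k),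
      x = algebraMap (RatFunc k) (RatFunc (RatFunc k))
        (algebraMap (Polynomial k) (RatFunc k) Polynomial.X) := ⟨_, rfl⟩
  obtain ⟨y, hy⟩ : ∃ y : RatFunc (RatFunc k),
      y = algebraMap (Polynomial (RatFunc k)) (RatFunc (RatFunc k))
        Polynomial.X := ⟨_, rfl⟩
  have hfin : (Set.range fun a : k => algebraMap (RatFunc k) (RatFunc (RatFunc k))
      (algebraMap k (RatFunc k) a)).Finite := Set.finite_range _
  refine ⟨{x, y} ∪ hfin.toFinset, ?_⟩
  obtain ⟨T, hT⟩ : ∃ T : Subfield (RatFunc (RatFunc k)),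
      T = Subfield.closure ((({x, y} ∪ hfin.toFinset : Finset (RatFunc (RatFunc k))) :
      Set (RatFunc (RatFunc k)))) := ⟨_, rfl⟩
  have h1 : x ∈ T := by
    rw [hT]
    exact Subfield.subset_closure (by simp)
  have h2 : y ∈ T := by
    rw [hT]
    exact Subfield.subset_closure (by simp)
  have h0 : ∀ a : k, algebraMap (RatFunc k) (RatFunc (RatFunc k))
      (algebraMap k (RatFunc k) a) ∈ T := by
    intro a
    rw [hT]
    apply Subfield.subset_closure
    rw [Finset.mem_coe, Finset.mem_union]
    right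
    rw [Set.Finite.mem_toFinset]
    exact ⟨a, rfl⟩
  rw [← hT]
  have h3 : T.comap (algebraMap (RatFunc k) (RatFunc (RatFunc k))) = ⊤ := by
    apply Glob_top
    · intro a
      rw [Subfield.mem_comap]
      exact h0 a
    · rw [Subfield.mem_comap, ← hx]
      exact h1
  apply Glob_top
  · intro a
    have h4 : a ∈ T.comap (algebraMap (RatFunc k) (RatFunc (RatFunc k))) := by
      rw [h3]
      exact Subfield.mem_top a
    exact h4
  · rw [← hy]
    exact h2

theorem not_glob_k (k : Type) [Field k] [Finite k] : ¬ IsGlob (RatFunc (RatFunc k)) := by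
  rintro ⟨-, t, ht⟩
  have h1 : Subfield.closure ({t} : Set (RatFunc (RatFunc k))) ≤
      (IntermediateField.adjoin k ({t} : Set (RatFunc (RatFunc k)))).toSubfield := by
    rw [Subfield.closure_le]
    intro z hz
    exact IntermediateField.subset_adjoin k _ hz
  have h3 : FiniteDimensional (IntermediateField.adjoin k ({t} : Set (RatFunc (RatFunc k))))
      (RatFunc (RatFunc k)) := by
    obtain ⟨S, hS⟩ := ht
    refine ⟨S, ?_⟩
    rw [eq_top_iff]
    intro z _
    have hz : z ∈ Submodule.span (Subfield.closure ({t} : Set (RatFunc (RatFunc k))))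
        (S : Set (RatFunc (RatFunc k))) := by
      rw [hS]
      exact Submodule.mem_top
    induction hz using Submodule.span_induction with
    | mem z hz => exact Submodule.subset_span hz
    | zero => exact Submodule.zero_mem _
    | add z w _ _ hz hw => exact Submodule.add_mem _ (hz trivial) (hw trivial)
    | smul a z _ hz =>
      exact Submodule.smul_mem _ (⟨a.1, h1 a.2⟩ :
        IntermediateField.adjoin k ({t} : Set (RatFunc (RatFunc k)))) (hz trivial)
  have h4 := Glob_trdeg_le k (RatFunc (RatFunc k)) t h3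
  have h5 := trdeg_add_eq k (RatFunc k) (A := RatFunc (RatFunc k))
  rw [← h5] at h4
  have h6 := Glob_trdeg_pos k
  have h7 := Glob_trdeg_pos (RatFunc k)
  have h8 : (1 : Cardinal) + 1 ≤ 1 := (add_le_add h6 h7).trans h4
  have h9 : ((2 : ℕ) : Cardinal) ≤ ((1 : ℕ) : Cardinal) := by
    push_cast
    rwa [one_add_one_eq_two] at h8
  have h10 := Nat.cast_le.1 h9
  omega

theorem exists_prime (n : ℕ) (hn : 0 < n) :
    ∃ q : ℕ, q.Prime ∧ n ∣ q - 1 ∧ Nat.Coprime n ((q - 1) / n) := by
  have hne : NeZero (n ^ 2) := ⟨(pow_pos hn 2).ne'⟩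
  have hu : IsUnit (((1 + n : ℕ)) : ZMod (n ^ 2)) := by
    rw [ZMod.isUnit_iff_coprime]
    apply Nat.Coprime.pow_right
    simp
  obtain ⟨p, hp1, hp2, hp3⟩ := Nat.forall_exists_prime_gt_and_eq_mod hu (1 + n)
  have h1 : p ≡ 1 + n [MOD n ^ 2] := (ZMod.natCast_eq_natCast_iff _ _ _).1 hp3
  have h2 : n ^ 2 ∣ p - (1 + n) := (Nat.modEq_iff_dvd' hp1.le).1 h1.symm
  obtain ⟨j, hj⟩ := h2
  have h3 : p - 1 = n * (1 + n * j) := by
    have h4 : p = 1 + n + n ^ 2 * j := by omega
    have h5 : 1 + n + n ^ 2 * j = 1 + n * (1 + n * j) := by ring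
    omega
  refine ⟨p, hp2, ⟨_, h3⟩, ?_⟩
  rw [h3, Nat.mul_div_cancel_left _ hn]
  simp

end W42
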