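import Pool.Agent.W_42fc02_h90.MainC
import Pool.Agent.W_42fc02_h90.Csa
import Pool.Agent.W_42fc02_h90.Glob

namespace W42

/-- k finite with q elements, n | q - 1 and gcd(n, (q-1)/n) = 1: the n-torsion of Br(k(x,y)) is an
abelian relative Brauer group. -/
theorem final_k (k : Type) [Field k] [Finite k] (n : ℕ) (hn : n ∣ Nat.card k - 1)
    (hc : Nat.Coprime n ((Nat.card k - 1) / n)) : AbRel (RatFunc (RatFunc k)) n := by
  obtain ⟨K, hK⟩ := main_cocycle k n hn hc
  exact abRel_of_abRelC n K hK

/-- for every n >= 1 there is an infinite finitely generated non global field F such that the n-torsion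
of Br(F) is an abelian relative Brauer group. -/
theorem final_n (n : ℕ) (hn : 0 < n) : ∃ (F : Type) (_ : Field F), Infinite F ∧
    (∃ s : Finset F, Subfield.closure (s : Set F) = ⊤) ∧ ¬ IsGlob F ∧ AbRel F n := by
  obtain ⟨q, hq, h1, h2⟩ := exists_prime n hn
  haveI : Fact q.Prime := ⟨hq⟩
  refine ⟨RatFunc (RatFunc (ZMod q)), inferInstance, glob_infinite q, glob_fg q, not_glob q, ?_⟩
  apply final_k (ZMod q) n
  · rwa [Nat.card_zmod]
  · rwa [Nat.card_zmod]

end W42
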