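import Pool.Agent.W_42fc02_h90.Coch

/-!
MP_42fc02_al, helper90: Galois cochains with values in the units of a Galois extension Omega / F
(Omega = separable closure of F later). G = Gal(Omega / F). All cochains are functions on G.

Lev1 L b, Lev2 L c: the cochain comes from Gal(L / F) with values in L.
Fin1, Fin2: of finite level (= locally constant).
BC c: Brauer cocycle. BEq: equality in the Brauer group. Spl E c: c is split by E.
infl: inflation of finite level cochains.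
-/

namespace W42

variable {F Ω : Type} [Field F] [Field Ω] [Algebra F Ω]

def Lev1 (L : IntermediateField F Ω) (b : Gal(Ω/F) → Ωˣ) : Prop :=
  (∀ σ, (b σ : Ω) ∈ L) ∧ ∀ σ τ : Gal(Ω/F), (∀ z ∈ L, σ z = τ z) → b σ = b τ

def Lev2 (L : IntermediateField F Ω) (c : Gal(Ω/F) → Gal(Ω/F) → Ωˣ) : Prop :=
  (∀ σ τ, (c σ τ : Ω) ∈ L) ∧ ∀ σ σ' τ τ' : Gal(Ω/F), (∀ z ∈ L, σ z = σ' z) →
    (∀ z ∈ L, τ z = τ' z) → c σ τ = c σ' τ'

def Fin1 (b : Gal(Ω/F) → Ωˣ) : Prop :=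
  ∃ L : IntermediateField F Ω, FiniteDimensional F L ∧ Normal F L ∧ Lev1 L b

def Fin2 (c : Gal(Ω/F) → Gal(Ω/F) → Ωˣ) : Prop :=
  ∃ L : IntermediateField F Ω, FiniteDimensional F L ∧ Normal F L ∧ Lev2 L c

/-- Brauer cocycle: 2-cocycle of finite level. -/
def BC (c : Gal(Ω/F) → Gal(Ω/F) → Ωˣ) : Prop := IsC2 c ∧ Fin2 c

/-- equality in the Brauer group. -/
def BEq (c c' : Gal(Ω/F) → Gal(Ω/F) → Ωˣ) : Prop :=
  ∃ b : Gal(Ω/F) → Ωˣ, Fin1 b ∧ ∀ σ τ, c σ τ = c' σ τ * dB b σ τ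

/-- c is split by the intermediate field E. -/
def Spl (E : IntermediateField F Ω) (c : Gal(Ω/F) → Gal(Ω/F) → Ωˣ) : Prop :=
  ∃ b : Gal(Ω/F) → Ωˣ, Fin1 b ∧ ∀ σ ∈ E.fixingSubgroup, ∀ τ ∈ E.fixingSubgroup,
    c σ τ = dB b σ τ

/-- product, powers, trivial cochain -/
def c1 : Gal(Ω/F) → Gal(Ω/F) → Ωˣ := fun _ _ => 1

/-- inflation of a 2-cochain of Gal(L / F) with values in the units of L. -/
noncomputable def infl (L : IntermediateField F Ω) [Normal F L]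
    (c : Gal(L/F) → Gal(L/F) → Lˣ) : Gal(Ω/F) → Gal(Ω/F) → Ωˣ :=
  fun σ τ => Units.map (algebraMap L Ω : L →* Ω)
    (c (AlgEquiv.restrictNormalHom L σ) (AlgEquiv.restrictNormalHom L τ))

noncomputable def infl1 (L : IntermediateField F Ω) [Normal F L]
    (b : Gal(L/F) → Lˣ) : Gal(Ω/F) → Ωˣ :=
  fun σ => Units.map (algebraMap L Ω : L →* Ω) (b (AlgEquiv.restrictNormalHom L σ))

end W42
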