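import Pool.Agent.W_42fc02_h90.GDef
import Pool.Agent.W_42fc02_h90.CochA

/-!
GalA: formal properties of levels, BC, BEq, Spl. Omega / F is Galois (possibly infinite).
-/

set_option autoImplicit false

namespace W42

theorem GalA_dB_zpow {G A : Type*} [Group G] [CommGroup A] [MulDistribMulAction G A] (b : G → A)
    (n : ℤ) (g h : G) : dB (fun g => b g ^ n) g h = dB b g h ^ n := by
  unfold dB
  rw [div_zpow, mul_zpow, smul_zpow']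

variable {F Ω : Type} [Field F] [Field Ω] [Algebra F Ω]

theorem GalA_mem {L : IntermediateField F Ω} [Normal F L] (σ : Gal(Ω/F)) {z : Ω} (hz : z ∈ L) :
    σ z ∈ L := by
  have h1 := AlgEquiv.restrictNormal_commutes σ L ⟨z, hz⟩
  have h2 : σ z = ((AlgEquiv.restrictNormal σ L ⟨z, hz⟩ : L) : Ω) := h1.symm
  rw [h2]
  exact Subtype.property _

theorem Lev1.mono {L L' : IntermediateField F Ω} (h : L ≤ L') {b : Gal(Ω/F) → Ωˣ}
    (hb : Lev1 L b) : Lev1 L' b :=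
  ⟨fun σ => h (hb.1 σ), fun σ τ hst => hb.2 σ τ fun z hz => hst z (h hz)⟩

theorem Lev2.mono {L L' : IntermediateField F Ω} (h : L ≤ L') {c : Gal(Ω/F) → Gal(Ω/F) → Ωˣ}
    (hc : Lev2 L c) : Lev2 L' c :=
  ⟨fun σ τ => h (hc.1 σ τ), fun σ σ' τ τ' h1 h2 =>
    hc.2 σ σ' τ τ' (fun z hz => h1 z (h hz)) fun z hz => h2 z (h hz)⟩

/-- coboundary of a level L cochain has level L, if L is normal. -/
theorem Lev1.dB {L : IntermediateField F Ω} [Normal F L] {b : Gal(Ω/F) → Ωˣ}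
    (hb : Lev1 L b) : Lev2 L (dB b) := by
  constructor
  · intro σ τ
    have h1 : ((W42.dB b σ τ : Ωˣ) : Ω) = (b σ : Ω) * σ (b τ : Ω) / (b (σ * τ) : Ω) := by
      unfold W42.dB
      rw [Units.val_div_eq_div_val, Units.val_mul]
      rfl
    rw [h1]
    exact div_mem (mul_mem (hb.1 σ) (GalA_mem σ (hb.1 τ))) (hb.1 _)
  · intro σ σ' τ τ' h1 h2
    have e1 : b σ = b σ' := hb.2 _ _ h1
    have e2 : b τ = b τ' := hb.2 _ _ h2
    have e3 : b (σ * τ) = b (σ' * τ') := by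
      apply hb.2
      intro z hz
      rw [AlgEquiv.mul_apply, AlgEquiv.mul_apply, h2 z hz, h1 _ (GalA_mem τ' hz)]
    have e4 : σ • b τ = σ' • b τ' := by
      rw [e2]
      apply Units.ext
      exact h1 _ (hb.1 τ')
    unfold W42.dB
    rw [e1, e3, e4]

theorem Lev1.mul {L : IntermediateField F Ω} {b b' : Gal(Ω/F) → Ωˣ}
    (hb : Lev1 L b) (hb' : Lev1 L b') : Lev1 L (fun σ => b σ * b' σ) := by
  refine ⟨fun σ => ?_, fun σ τ h => ?_⟩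
  · rw [Units.val_mul]
    exact mul_mem (hb.1 σ) (hb'.1 σ)
  · beta_reduce
    rw [hb.2 σ τ h, hb'.2 σ τ h]

theorem Lev1.inv {L : IntermediateField F Ω} {b : Gal(Ω/F) → Ωˣ}
    (hb : Lev1 L b) : Lev1 L (fun σ => (b σ)⁻¹) := by
  refine ⟨fun σ => ?_, fun σ τ h => ?_⟩
  · rw [Units.val_inv_eq_inv_val]
    exact inv_mem (hb.1 σ)
  · beta_reduce
    rw [hb.2 σ τ h]

theorem Lev1.zpow {L : IntermediateField F Ω} {b : Gal(Ω/F) → Ωˣ}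
    (hb : Lev1 L b) (n : ℤ) : Lev1 L (fun σ => b σ ^ n) := by
  refine ⟨fun σ => ?_, fun σ τ h => ?_⟩
  · rw [Units.val_zpow_eq_zpow_val]
    exact zpow_mem (hb.1 σ) n
  · beta_reduce
    rw [hb.2 σ τ h]

theorem Lev2.mul {L : IntermediateField F Ω} {c c' : Gal(Ω/F) → Gal(Ω/F) → Ωˣ}
    (hc : Lev2 L c) (hc' : Lev2 L c') : Lev2 L (fun σ τ => c σ τ * c' σ τ) := by
  refine ⟨fun σ τ => ?_, fun σ σ' τ τ' h h' => ?_⟩
  · rw [Units.val_mul]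
    exact mul_mem (hc.1 σ τ) (hc'.1 σ τ)
  · beta_reduce
    rw [hc.2 σ σ' τ τ' h h', hc'.2 σ σ' τ τ' h h']

theorem Lev2.inv {L : IntermediateField F Ω} {c : Gal(Ω/F) → Gal(Ω/F) → Ωˣ}
    (hc : Lev2 L c) : Lev2 L (fun σ τ => (c σ τ)⁻¹) := by
  refine ⟨fun σ τ => ?_, fun σ σ' τ τ' h h' => ?_⟩
  · rw [Units.val_inv_eq_inv_val]
    exact inv_mem (hc.1 σ τ)
  · beta_reduce
    rw [hc.2 σ σ' τ τ' h h']

theorem Lev2.pow {L : IntermediateField F Ω} {c : Gal(Ω/F) → Gal(Ω/F) → Ωˣ}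
    (hc : Lev2 L c) (n : ℕ) : Lev2 L (fun σ τ => c σ τ ^ n) := by
  refine ⟨fun σ τ => ?_, fun σ σ' τ τ' h h' => ?_⟩
  · rw [Units.val_pow_eq_pow_val]
    exact pow_mem (hc.1 σ τ) n
  · beta_reduce
    rw [hc.2 σ σ' τ τ' h h']

/-- a common finite normal level for finitely many finite subextensions: any two finite normal
L, L' lie in a finite normal one (the compositum). -/
theorem exists_normal_sup (L L' : IntermediateField F Ω) [FiniteDimensional F L] [Normal F L]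
    [FiniteDimensional F L'] [Normal F L'] :
    ∃ M : IntermediateField F Ω, FiniteDimensional F M ∧ Normal F M ∧ L ≤ M ∧ L' ≤ M :=
  ⟨L ⊔ L', inferInstance, inferInstance, le_sup_left, le_sup_right⟩

/-- every finite set of elements lies in a finite normal subextension. -/
theorem exists_normal_mem [IsGalois F Ω] (S : Finset Ω) :
    ∃ M : IntermediateField F Ω, FiniteDimensional F M ∧ Normal F M ∧ ∀ z ∈ S, z ∈ M := by
  have hfd : FiniteDimensional F (IntermediateField.adjoin F (S : Set Ω)) :=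
    IntermediateField.finiteDimensional_adjoin fun x _ => Algebra.IsIntegral.isIntegral x
  refine ⟨IntermediateField.normalClosure F (IntermediateField.adjoin F (S : Set Ω)) Ω,
    inferInstance, inferInstance, fun z hz => ?_⟩
  exact (IntermediateField.adjoin F (S : Set Ω)).le_normalClosure
    (IntermediateField.subset_adjoin F _ hz)

theorem GalA_bot : FiniteDimensional F (⊥ : IntermediateField F Ω) ∧
    Normal F (⊥ : IntermediateField F Ω) :=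
  ⟨inferInstance, Normal.of_algEquiv (IntermediateField.botEquiv F Ω).symm⟩

theorem Fin1.mul {b b' : Gal(Ω/F) → Ωˣ} (h : Fin1 b) (h' : Fin1 b') :
    Fin1 (fun σ => b σ * b' σ) := by
  obtain ⟨L, hLf, hLn, hL⟩ := h
  obtain ⟨L', hLf', hLn', hL'⟩ := h'
  obtain ⟨M, hMf, hMn, h1, h2⟩ := exists_normal_sup L L'
  exact ⟨M, hMf, hMn, (hL.mono h1).mul (hL'.mono h2)⟩

theorem Fin1.inv {b : Gal(Ω/F) → Ωˣ} (h : Fin1 b) : Fin1 (fun σ => (b σ)⁻¹) := by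
  obtain ⟨L, hLf, hLn, hL⟩ := h
  exact ⟨L, hLf, hLn, hL.inv⟩

theorem Fin1.zpow {b : Gal(Ω/F) → Ωˣ} (h : Fin1 b) (n : ℤ) : Fin1 (fun σ => b σ ^ n) := by
  obtain ⟨L, hLf, hLn, hL⟩ := h
  exact ⟨L, hLf, hLn, hL.zpow n⟩

theorem Fin1.pow {b : Gal(Ω/F) → Ωˣ} (h : Fin1 b) (n : ℕ) : Fin1 (fun σ => b σ ^ n) := by
  have := h.zpow (n : ℤ)
  simpa only [zpow_natCast] using this

theorem fin1_one : Fin1 (fun _ : Gal(Ω/F) => (1 : Ωˣ)) :=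
  ⟨⊥, GalA_bot.1, GalA_bot.2, fun _ => one_mem _, fun _ _ _ => rfl⟩

theorem Fin1.dB {b : Gal(Ω/F) → Ωˣ} (h : Fin1 b) : Fin2 (dB b) := by
  obtain ⟨L, hLf, hLn, hL⟩ := h
  exact ⟨L, hLf, hLn, hL.dB⟩

theorem BC.mul {c c' : Gal(Ω/F) → Gal(Ω/F) → Ωˣ} (h : BC c) (h' : BC c') :
    BC (fun σ τ => c σ τ * c' σ τ) := by
  obtain ⟨hc, L, hLf, hLn, hL⟩ := h
  obtain ⟨hc', L', hLf', hLn', hL'⟩ := h'
  obtain ⟨M, hMf, hMn, h1, h2⟩ := exists_normal_sup L L'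
  exact ⟨hc.mul hc', M, hMf, hMn, (hL.mono h1).mul (hL'.mono h2)⟩

theorem BC.inv {c : Gal(Ω/F) → Gal(Ω/F) → Ωˣ} (h : BC c) :
    BC (fun σ τ => (c σ τ)⁻¹) := by
  obtain ⟨hc, L, hLf, hLn, hL⟩ := h
  exact ⟨hc.inv, L, hLf, hLn, hL.inv⟩

theorem BC.pow {c : Gal(Ω/F) → Gal(Ω/F) → Ωˣ} (h : BC c) (n : ℕ) :
    BC (fun σ τ => c σ τ ^ n) := by
  obtain ⟨hc, L, hLf, hLn, hL⟩ := h
  exact ⟨hc.pow n, L, hLf, hLn, hL.pow n⟩

theorem bc_one : BC (c1 : Gal(Ω/F) → Gal(Ω/F) → Ωˣ) :=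
  ⟨isC2_one, ⊥, GalA_bot.1, GalA_bot.2, fun _ _ => one_mem _, fun _ _ _ _ _ _ => rfl⟩

theorem BEq.refl (c : Gal(Ω/F) → Gal(Ω/F) → Ωˣ) : BEq c c := by
  refine ⟨fun _ => 1, fin1_one, fun σ τ => ?_⟩
  simp [W42.dB]

theorem BEq.symm {c c' : Gal(Ω/F) → Gal(Ω/F) → Ωˣ} (h : BEq c c') : BEq c' c := by
  obtain ⟨b, hb, h⟩ := h
  refine ⟨_, hb.inv, fun σ τ => ?_⟩
  beta_reduce
  rw [dB_inv, h, mul_inv_cancel_right]

theorem BEq.trans {c c' c'' : Gal(Ω/F) → Gal(Ω/F) → Ωˣ} (h : BEq c c') (h' : BEq c' c'') :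
    BEq c c'' := by
  obtain ⟨b, hb, h⟩ := h
  obtain ⟨b', hb', h'⟩ := h'
  refine ⟨_, hb'.mul hb, fun σ τ => ?_⟩
  beta_reduce
  rw [dB_mul, h, h', mul_assoc]

theorem BEq.mul {c c' d d' : Gal(Ω/F) → Gal(Ω/F) → Ωˣ} (h : BEq c c') (h' : BEq d d') :
    BEq (fun σ τ => c σ τ * d σ τ) (fun σ τ => c' σ τ * d' σ τ) := by
  obtain ⟨b, hb, h⟩ := h
  obtain ⟨b', hb', h'⟩ := h'
  refine ⟨_, hb.mul hb', fun σ τ => ?_⟩
  beta_reduce
  rw [dB_mul, h, h', mul_mul_mul_comm]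

theorem BEq.inv {c c' : Gal(Ω/F) → Gal(Ω/F) → Ωˣ} (h : BEq c c') :
    BEq (fun σ τ => (c σ τ)⁻¹) (fun σ τ => (c' σ τ)⁻¹) := by
  obtain ⟨b, hb, h⟩ := h
  refine ⟨_, hb.inv, fun σ τ => ?_⟩
  beta_reduce
  rw [dB_inv, h, mul_inv]

theorem BEq.pow {c c' : Gal(Ω/F) → Gal(Ω/F) → Ωˣ} (h : BEq c c') (n : ℕ) :
    BEq (fun σ τ => c σ τ ^ n) (fun σ τ => c' σ τ ^ n) := by
  obtain ⟨b, hb, h⟩ := h
  refine ⟨_, hb.pow n, fun σ τ => ?_⟩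
  beta_reduce
  rw [dB_pow, h, mul_pow]

/-- gcd trick: c^m and c^n trivial, m and n coprime, then c trivial. -/
theorem beq_one_of_coprime {c : Gal(Ω/F) → Gal(Ω/F) → Ωˣ} {m n : ℕ} (hmn : Nat.Coprime m n)
    (hm : BEq (fun σ τ => c σ τ ^ m) c1) (hn : BEq (fun σ τ => c σ τ ^ n) c1) : BEq c c1 := by
  obtain ⟨b, hb, h⟩ := hm
  obtain ⟨b', hb', h'⟩ := hn
  refine ⟨_, (hb.zpow (Nat.gcdA m n)).mul (hb'.zpow (Nat.gcdB m n)), fun σ τ => ?_⟩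
  beta_reduce
  rw [dB_mul, GalA_dB_zpow, GalA_dB_zpow]
  have h1 : c σ τ ^ m = dB b σ τ := (h σ τ).trans (one_mul _)
  have h2 : c σ τ ^ n = dB b' σ τ := (h' σ τ).trans (one_mul _)
  rw [← h1, ← h2, c1, one_mul, ← zpow_natCast, ← zpow_natCast, ← zpow_mul, ← zpow_mul,
    ← zpow_add, ← Nat.gcd_eq_gcd_ab, hmn.gcd_eq_one, Nat.cast_one, zpow_one]

theorem Spl.mono {E E' : IntermediateField F Ω} (h : E ≤ E') {c : Gal(Ω/F) → Gal(Ω/F) → Ωˣ}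
    (hc : Spl E c) : Spl E' c := by
  obtain ⟨b, hb, h'⟩ := hc
  have hle : E'.fixingSubgroup ≤ E.fixingSubgroup := IntermediateField.fixingSubgroup_le h
  exact ⟨b, hb, fun σ hσ τ hτ => h' σ (hle hσ) τ (hle hτ)⟩

theorem Spl.congr {E : IntermediateField F Ω} {c c' : Gal(Ω/F) → Gal(Ω/F) → Ωˣ}
    (h : BEq c c') (hc : Spl E c) : Spl E c' := by
  obtain ⟨b, hb, h⟩ := h
  obtain ⟨b', hb', h'⟩ := hc
  refine ⟨_, hb'.mul hb.inv, fun σ hσ τ hτ => ?_⟩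
  beta_reduce
  rw [dB_mul, dB_inv, ← h' σ hσ τ hτ, h, mul_inv_cancel_right]

theorem Spl.mul {E : IntermediateField F Ω} {c c' : Gal(Ω/F) → Gal(Ω/F) → Ωˣ}
    (hc : Spl E c) (hc' : Spl E c') : Spl E (fun σ τ => c σ τ * c' σ τ) := by
  obtain ⟨b, hb, h⟩ := hc
  obtain ⟨b', hb', h'⟩ := hc'
  refine ⟨_, hb.mul hb', fun σ hσ τ hτ => ?_⟩
  beta_reduce
  rw [dB_mul, h σ hσ τ hτ, h' σ hσ τ hτ]

theorem Spl.inv {E : IntermediateField F Ω} {c : Gal(Ω/F) → Gal(Ω/F) → Ωˣ}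
    (hc : Spl E c) : Spl E (fun σ τ => (c σ τ)⁻¹) := by
  obtain ⟨b, hb, h⟩ := hc
  refine ⟨_, hb.inv, fun σ hσ τ hτ => ?_⟩
  beta_reduce
  rw [dB_inv, h σ hσ τ hτ]

theorem Spl.pow {E : IntermediateField F Ω} {c : Gal(Ω/F) → Gal(Ω/F) → Ωˣ}
    (hc : Spl E c) (n : ℕ) : Spl E (fun σ τ => c σ τ ^ n) := by
  obtain ⟨b, hb, h⟩ := hc
  refine ⟨_, hb.pow n, fun σ hσ τ hτ => ?_⟩
  beta_reduce
  rw [dB_pow, h σ hσ τ hτ]

/-- the same gcd trick for Spl. -/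
theorem spl_of_coprime {E : IntermediateField F Ω} {c : Gal(Ω/F) → Gal(Ω/F) → Ωˣ} {m n : ℕ}
    (hmn : Nat.Coprime m n) (hm : Spl E (fun σ τ => c σ τ ^ m))
    (hn : Spl E (fun σ τ => c σ τ ^ n)) : Spl E c := by
  obtain ⟨b, hb, h⟩ := hm
  obtain ⟨b', hb', h'⟩ := hn
  refine ⟨_, (hb.zpow (Nat.gcdA m n)).mul (hb'.zpow (Nat.gcdB m n)), fun σ hσ τ hτ => ?_⟩
  beta_reduce
  rw [dB_mul, GalA_dB_zpow, GalA_dB_zpow]
  have h1 : c σ τ ^ m = dB b σ τ := h σ hσ τ hτ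
  have h2 : c σ τ ^ n = dB b' σ τ := h' σ hσ τ hτ
  rw [← h1, ← h2, ← zpow_natCast, ← zpow_natCast, ← zpow_mul, ← zpow_mul, ← zpow_add, ← Nat.gcd_eq_gcd_ab, hmn.gcd_eq_one, Nat.cast_one, zpow_one]

theorem spl_of_beq_one {E : IntermediateField F Ω} {c : Gal(Ω/F) → Gal(Ω/F) → Ωˣ}
    (h : BEq c c1) : Spl E c := by
  obtain ⟨b, hb, h⟩ := h
  exact ⟨b, hb, fun σ _ τ _ => by rw [h, c1, one_mul]⟩

theorem spl_bot_iff {c : Gal(Ω/F) → Gal(Ω/F) → Ωˣ} : Spl ⊥ c ↔ BEq c c1 := by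
  refine ⟨fun h => ?_, spl_of_beq_one⟩
  obtain ⟨b, hb, h⟩ := h
  refine ⟨b, hb, fun σ τ => ?_⟩
  rw [c1, one_mul]
  exact h σ (by rw [IntermediateField.fixingSubgroup_bot]; trivial) τ
    (by rw [IntermediateField.fixingSubgroup_bot]; trivial)

end W42
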