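import Pool.Agent.W_42fc02_h90.Pull

/-!
Sym: symbols (a, b), a, b in F*, mu_N in F. Cocycle a^carry(psi sigma, psi tau), psi the Kummer
character of a root beta of beta^N = b.

carry i j = (i.val + j.val - (i + j).val) / N for i, j in ZMod N (N > 0).
Steinberg: a + b = 1, beta^N = b, z sigma = prod_{i < [psi sigma]} (1 - zeta^i beta);
sigma (1 - zeta^i beta) = 1 - zeta^(i + psi sigma) beta, so dB z = (prod_{i<N} (1 - zeta^i beta))^carry =
(1 - beta^N)^carry = a^carry.
-/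

namespace W42

open Polynomial

section
variable {F Ω : Type} [Field F] [Field Ω] [Algebra F Ω]

/-- Kummer character of beta -/
noncomputable def psi (N : ℕ) (ζ : F) (β : Ω) (σ : Gal(Ω/F)) : ZMod N :=
  open Classical in
  if h : ∃ n : ℕ, σ β = (algebraMap F Ω ζ) ^ n * β then ((Classical.choose h : ℕ) : ZMod N)
  else 0

/-- the symbol cocycle of a and b = beta^N -/
noncomputable def symc (N : ℕ) (ζ : F) (a : Fˣ) (β : Ω) : Gal(Ω/F) → Gal(Ω/F) → Ωˣ :=
  fun σ τ => Units.map (algebraMap F Ω : F →* Ω) a ^ carry (psi N ζ β σ) (psi N ζ β τ)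

/-- beta is an N-th root of a nonzero element of F -/
def IsRt (N : ℕ) (F : Type) {Ω : Type} [Field F] [Field Ω] [Algebra F Ω] (β : Ω) : Prop :=
  ∃ b : F, b ≠ 0 ∧ β ^ N = algebraMap F Ω b

theorem exists_rt [IsSepClosed Ω] (N : ℕ) (hN : (N : F) ≠ 0) (b : F) :
    ∃ β : Ω, β ^ N = algebraMap F Ω b := by
  have : NeZero (N : Ω) := ⟨by
    rw [← map_natCast (algebraMap F Ω), Ne, map_eq_zero_iff _ (algebraMap F Ω).injective]
    exact hN⟩
  exact IsSepClosed.exists_pow_nat_eq (algebraMap F Ω b) N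

/-- the carry cocycle -/
theorem Sym_carry {N : ℕ} (hN : 0 < N) (i j : ZMod N) :
    i.val + j.val = (i + j).val + N * carry i j := by
  have : NeZero N := ⟨hN.ne'⟩
  unfold carry
  rw [ZMod.val_add]
  have hi := ZMod.val_lt i
  have hj := ZMod.val_lt j
  split_ifs with h
  · have h1 : (i.val + j.val) % N = i.val + j.val - N := by
      rw [Nat.mod_eq_sub_mod h, Nat.mod_eq_of_lt (by omega)]
    rw [h1]
    omega
  · rw [Nat.mod_eq_of_lt (by omega)]
    omega

theorem Sym_carry_assoc {N : ℕ} (hN : 0 < N) (i j k : ZMod N) :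
    carry i j + carry (i + j) k = carry j k + carry i (j + k) := by
  have h1 := Sym_carry hN i j
  have h2 := Sym_carry hN (i + j) k
  have h3 := Sym_carry hN j k
  have h4 := Sym_carry hN i (j + k)
  rw [add_assoc] at h2
  have h5 : N * (carry i j + carry (i + j) k) = N * (carry j k + carry i (j + k)) := by
    rw [Nat.mul_add, Nat.mul_add]
    omega
  exact Nat.eq_of_mul_eq_mul_left hN h5

variable {N : ℕ} (hN : 0 < N) {ζ : F} (hζ : IsPrimitiveRoot ζ N)

include hN in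
theorem IsRt.ne_zero {β : Ω} (hβ : IsRt N F β) : β ≠ 0 := by
  obtain ⟨b, hb, h⟩ := hβ
  rintro rfl
  rw [zero_pow hN.ne'] at h
  exact hb ((map_eq_zero_iff _ (algebraMap F Ω).injective).1 h.symm)

theorem IsRt.mul {β β' : Ω} (hβ : IsRt N F β) (hβ' : IsRt N F β') : IsRt N F (β * β') := by
  obtain ⟨b, hb, h⟩ := hβ
  obtain ⟨b', hb', h'⟩ := hβ'
  exact ⟨b * b', mul_ne_zero hb hb', by rw [mul_pow, h, h', map_mul]⟩

include hN hζ in
theorem Sym_exists {β : Ω} (hβ : IsRt N F β) (σ : Gal(Ω/F)) :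
    ∃ n : ℕ, σ β = (algebraMap F Ω ζ) ^ n * β := by
  have : NeZero N := ⟨hN.ne'⟩
  have h0 := hβ.ne_zero hN
  obtain ⟨b, hb, h⟩ := hβ
  have hζ' : IsPrimitiveRoot (algebraMap F Ω ζ) N :=
    hζ.map_of_injective (algebraMap F Ω).injective
  have h1 : (σ β / β) ^ N = 1 := by
    rw [div_pow, ← map_pow, h, AlgEquiv.commutes, div_self]
    rw [← h]
    exact pow_ne_zero _ h0
  obtain ⟨n, -, hn⟩ := hζ'.eq_pow_of_pow_eq_one h1
  exact ⟨n, by rw [hn, div_mul_cancel₀ _ h0]⟩

include hζ in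
theorem Sym_pow_val (n : ℕ) :
    (algebraMap F Ω ζ) ^ ((n : ZMod N)).val = (algebraMap F Ω ζ) ^ n := by
  have hζ' : IsPrimitiveRoot (algebraMap F Ω ζ) N :=
    hζ.map_of_injective (algebraMap F Ω).injective
  rw [ZMod.val_natCast, hζ'.eq_orderOf, pow_mod_orderOf]

include hN hζ in
theorem psi_spec {β : Ω} (hβ : IsRt N F β) (σ : Gal(Ω/F)) :
    σ β = (algebraMap F Ω ζ) ^ (psi N ζ β σ).val * β := by
  have h := Sym_exists hN hζ hβ σ
  unfold psi
  rw [dif_pos h, Sym_pow_val hζ]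
  exact Classical.choose_spec h

include hN hζ in
theorem psi_unique {β : Ω} (hβ : IsRt N F β) (σ : Gal(Ω/F)) (n : ℕ)
    (hn : σ β = (algebraMap F Ω ζ) ^ n * β) : psi N ζ β σ = (n : ZMod N) := by
  have : NeZero N := ⟨hN.ne'⟩
  have hζ' : IsPrimitiveRoot (algebraMap F Ω ζ) N :=
    hζ.map_of_injective (algebraMap F Ω).injective
  have h1 := psi_spec hN hζ hβ σ
  rw [hn] at h1
  have h2 := mul_right_cancel₀ (hβ.ne_zero hN) h1
  rw [← Sym_pow_val hζ n] at h2
  have h3 := hζ'.pow_inj (ZMod.val_lt _) (ZMod.val_lt _) h2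
  exact (ZMod.val_injective N h3).symm

include hN hζ in
theorem psi_mul {β : Ω} (hβ : IsRt N F β) (σ τ : Gal(Ω/F)) :
    psi N ζ β (σ * τ) = psi N ζ β σ + psi N ζ β τ := by
  have : NeZero N := ⟨hN.ne'⟩
  rw [psi_unique hN hζ hβ (σ * τ) ((psi N ζ β σ).val + (psi N ζ β τ).val)]
  · push_cast
    rw [ZMod.natCast_zmod_val, ZMod.natCast_zmod_val]
  · rw [AlgEquiv.mul_apply, psi_spec hN hζ hβ τ, map_mul, map_pow, AlgEquiv.commutes,
      psi_spec hN hζ hβ σ, pow_add]
    ring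

include hN hζ in
theorem psi_mul_root {β β' : Ω} (hβ : IsRt N F β) (hβ' : IsRt N F β') (σ : Gal(Ω/F)) :
    psi N ζ (β * β') σ = psi N ζ β σ + psi N ζ β' σ := by
  have : NeZero N := ⟨hN.ne'⟩
  rw [psi_unique hN hζ (hβ.mul hβ') σ ((psi N ζ β σ).val + (psi N ζ β' σ).val)]
  · push_cast
    rw [ZMod.natCast_zmod_val, ZMod.natCast_zmod_val]
  · rw [map_mul, psi_spec hN hζ hβ, psi_spec hN hζ hβ', pow_add]
    ring

include hN hζ in
/-- the symbol does not depend on the root -/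
theorem symc_root {β β' : Ω} (hβ : IsRt N F β) (h : β ^ N = β' ^ N) (a : Fˣ) :
    symc N ζ a β = symc N ζ a β' := by
  have : NeZero N := ⟨hN.ne'⟩
  have hβ' : IsRt N F β' := by
    obtain ⟨b, hb, hb'⟩ := hβ
    exact ⟨b, hb, by rw [← h, hb']⟩
  have hζ' : IsPrimitiveRoot (algebraMap F Ω ζ) N :=
    hζ.map_of_injective (algebraMap F Ω).injective
  have h0 := hβ.ne_zero hN
  have h1 : (β' / β) ^ N = 1 := by
    rw [div_pow, ← h, div_self (pow_ne_zero _ h0)]
  obtain ⟨m, -, hm⟩ := hζ'.eq_pow_of_pow_eq_one h1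
  have h2 : β' = (algebraMap F Ω ζ) ^ m * β := by rw [hm, div_mul_cancel₀ _ h0]
  have h3 : psi N ζ β = psi N ζ β' := by
    funext σ
    rw [psi_unique hN hζ hβ' σ (psi N ζ β σ).val]
    · rw [ZMod.natCast_zmod_val]
    · rw [h2, map_mul, map_pow, AlgEquiv.commutes, psi_spec hN hζ hβ]
      ring
  unfold symc
  rw [h3]

/-- functions of the Kummer character have finite level -/
theorem Sym_fin1 [IsGalois F Ω] (β : Ω) (S : Finset Ω) (f : ZMod N → Ωˣ)
    (hf : ∀ M : IntermediateField F Ω, (∀ z ∈ S, z ∈ M) → ∀ i, ((f i : Ωˣ) : Ω) ∈ M) :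
    Fin1 (fun σ => f (psi N ζ β σ)) := by
  classical
  obtain ⟨M, hM1, hM2, hM⟩ := exists_normal_mem (F := F) (insert β S)
  refine ⟨M, hM1, hM2, fun σ => hf M (fun z hz => hM z (Finset.mem_insert_of_mem hz)) _, ?_⟩
  intro σ τ h
  have h1 : σ β = τ β := h β (hM β (Finset.mem_insert_self _ _))
  have h2 : psi N ζ β σ = psi N ζ β τ := by
    unfold psi
    rw [h1]
  beta_reduce
  rw [h2]

theorem Sym_smul (σ : Gal(Ω/F)) (a : Fˣ) :
    σ • Units.map (algebraMap F Ω : F →* Ω) a = Units.map (algebraMap F Ω : F →* Ω) a := by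
  apply Units.ext
  exact σ.commutes (a : F)

include hN hζ in
theorem symc_bc [IsGalois F Ω] {β : Ω} (hβ : IsRt N F β) (a : Fˣ) : BC (symc N ζ a β) := by
  classical
  constructor
  · intro σ τ υ
    unfold symc
    rw [smul_pow', Sym_smul, ← pow_add, ← pow_add, psi_mul hN hζ hβ, psi_mul hN hζ hβ,
      Sym_carry_assoc hN]
  · obtain ⟨M, hM1, hM2, hM⟩ := exists_normal_mem (F := F) ({β} : Finset Ω)
    refine ⟨M, hM1, hM2, fun σ τ => ?_, fun σ σ' τ τ' h h' => ?_⟩
    · unfold symc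
      rw [Units.val_pow_eq_pow_val]
      exact pow_mem (M.algebraMap_mem _) _
    · have hβM : β ∈ M := hM β (by simp)
      have h1 : psi N ζ β σ = psi N ζ β σ' := by
        unfold psi
        rw [h β hβM]
      have h2 : psi N ζ β τ = psi N ζ β τ' := by
        unfold psi
        rw [h' β hβM]
      unfold symc
      rw [h1, h2]

theorem symc_mul_left (β : Ω) (a a' : Fˣ) :
    symc N ζ (a * a') β = fun σ τ => symc N ζ a β σ τ * symc N ζ a' β σ τ := by
  funext σ τ
  unfold symc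
  rw [map_mul, mul_pow]

include hN hζ in
/-- bilinearity on the right: coboundary of sigma -> a^eps, eps = ([psi] + [psi'] - [psi + psi'])/N -/
theorem symc_mul_right [IsGalois F Ω] {β β' : Ω} (hβ : IsRt N F β) (hβ' : IsRt N F β')
    (a : Fˣ) : BEq (symc N ζ a (β * β')) (fun σ τ => symc N ζ a β σ τ * symc N ζ a β' σ τ) := by
  classical
  set A : Ωˣ := Units.map (algebraMap F Ω : F →* Ω) a with hA
  refine ⟨fun σ => (A ^ carry (psi N ζ β σ) (psi N ζ β' σ))⁻¹, ?_, ?_⟩
  · apply Fin1.inv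
    obtain ⟨M, hM1, hM2, hM⟩ := exists_normal_mem (F := F) ({β, β'} : Finset Ω)
    refine ⟨M, hM1, hM2, fun σ => ?_, fun σ τ h => ?_⟩
    · rw [Units.val_pow_eq_pow_val]
      exact pow_mem (M.algebraMap_mem _) _
    · have h1 : psi N ζ β σ = psi N ζ β τ := by
        unfold psi
        rw [h β (hM β (by simp))]
      have h2 : psi N ζ β' σ = psi N ζ β' τ := by
        unfold psi
        rw [h β' (hM β' (by simp))]
      beta_reduce
      rw [h1, h2]
  · intro σ τ
    unfold symc dB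
    beta_reduce
    rw [← hA, psi_mul_root hN hζ hβ hβ', psi_mul_root hN hζ hβ hβ', psi_mul hN hζ hβ,
      psi_mul hN hζ hβ', smul_inv', smul_pow', hA, Sym_smul, ← hA]
    set i := psi N ζ β σ
    set j := psi N ζ β τ
    set i' := psi N ζ β' σ
    set j' := psi N ζ β' τ
    have e : carry (i + i') (j + j') + (carry i i' + carry j j') =
        carry i j + carry i' j' + carry (i + j) (i' + j') := by
      have h1 := Sym_carry hN (i + i') (j + j')
      have h2 := Sym_carry hN i i'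
      have h3 := Sym_carry hN j j'
      have h4 := Sym_carry hN i j
      have h5 := Sym_carry hN i' j'
      have h6 := Sym_carry hN (i + j) (i' + j')
      have h7 : i + i' + (j + j') = i + j + (i' + j') := by ring
      rw [h7] at h1
      have h8 : N * (carry (i + i') (j + j') + (carry i i' + carry j j')) =
          N * (carry i j + carry i' j' + carry (i + j) (i' + j')) := by
        simp only [Nat.mul_add]
        omega
      exact Nat.eq_of_mul_eq_mul_left hN h8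
    have e2 := congrArg (fun n => A ^ n) e
    simp only [pow_add] at e2
    rw [div_inv_eq_mul, ← mul_inv, ← mul_assoc, mul_right_comm, eq_comm, mul_inv_eq_iff_eq_mul]
    exact e2.symm

include hN hζ in
/-- N-torsion: a^(N carry) = dB (sigma -> a^[psi sigma]) -/
theorem symc_torsion [IsGalois F Ω] {β : Ω} (hβ : IsRt N F β) (a : Fˣ) :
    BEq (fun σ τ => symc N ζ a β σ τ ^ N) c1 := by
  set A : Ωˣ := Units.map (algebraMap F Ω : F →* Ω) a with hA
  refine ⟨fun σ => A ^ (psi N ζ β σ).val, ?_, ?_⟩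
  · refine Sym_fin1 β ∅ (fun i => A ^ i.val) ?_
    intro M _ i
    rw [Units.val_pow_eq_pow_val]
    exact pow_mem (M.algebraMap_mem _) _
  · intro σ τ
    unfold symc dB c1
    beta_reduce
    rw [← hA, smul_pow', hA, Sym_smul, ← hA, one_mul, ← pow_add, Sym_carry hN,
      psi_mul hN hζ hβ, pow_add, ← pow_mul, Nat.mul_comm, mul_comm (A ^ _) (A ^ _),
      mul_div_assoc, div_self', mul_one]

include hN hζ in
theorem symc_spl_left [IsGalois F Ω] (K : IntermediateField F Ω) {β : Ω} (hβ : IsRt N F β)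
    (a : Fˣ) (α : Ω) (hα : α ∈ K) (haα : α ^ N = algebraMap F Ω a) :
    Spl K (symc N ζ a β) := by
  have hα0 : α ≠ 0 := by
    rintro rfl
    rw [zero_pow hN.ne'] at haα
    exact a.ne_zero ((map_eq_zero_iff _ (algebraMap F Ω).injective).1 haα.symm)
  set A : Ωˣ := Units.mk0 α hα0 with hA
  have hAN : A ^ N = Units.map (algebraMap F Ω : F →* Ω) a := by
    apply Units.ext
    exact haα
  refine ⟨fun σ => A ^ (psi N ζ β σ).val, ?_, ?_⟩
  · refine Sym_fin1 β {α} (fun i => A ^ i.val) ?_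
    intro M hM i
    rw [Units.val_pow_eq_pow_val]
    exact pow_mem (hM α (by simp)) _
  · intro σ hσ τ hτ
    have h1 : σ • A = A := by
      apply Units.ext
      exact (IntermediateField.mem_fixingSubgroup_iff _ _).1 hσ α hα
    unfold symc dB
    beta_reduce
    rw [smul_pow', h1, ← hAN, ← pow_add, Sym_carry hN, psi_mul hN hζ hβ, pow_add, ← pow_mul,
      mul_comm (A ^ _) (A ^ _), mul_div_assoc, div_self', mul_one]

include hN hζ in
theorem symc_spl_right [IsGalois F Ω] (K : IntermediateField F Ω) {β : Ω} (hβ : IsRt N F β)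
    (hβK : β ∈ K) (a : Fˣ) : Spl K (symc N ζ a β) := by
  have : NeZero N := ⟨hN.ne'⟩
  refine ⟨fun _ => 1, fin1_one, fun σ hσ τ hτ => ?_⟩
  have h1 : psi N ζ β σ = 0 := by
    rw [psi_unique hN hζ hβ σ 0, Nat.cast_zero]
    rw [pow_zero, one_mul]
    exact (IntermediateField.mem_fixingSubgroup_iff _ _).1 hσ β hβK
  unfold symc dB
  rw [h1]
  unfold carry
  rw [ZMod.val_zero, Nat.zero_add, if_neg (not_le.2 (ZMod.val_lt _)), pow_zero, smul_one, mul_one,
    div_one]

include hN hζ in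
theorem steinberg [IsGalois F Ω] {β : Ω} (hβ : IsRt N F β) (a : Fˣ)
    (hab : algebraMap F Ω a + β ^ N = 1) : BEq (symc N ζ a β) c1 := by
  classical
  have hNz : NeZero N := ⟨hN.ne'⟩
  have hζ' : IsPrimitiveRoot (algebraMap F Ω ζ) N :=
    hζ.map_of_injective (algebraMap F Ω).injective
  set ω : Ω := algebraMap F Ω ζ with hω
  have hprod : ∏ i ∈ Finset.range N, (1 - ω ^ i * β) = algebraMap F Ω a := by
    have h1 := X_pow_sub_C_eq_prod hζ' hN (rfl : β ^ N = β ^ N)
    have h2 := congrArg (Polynomial.eval 1) h1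
    rw [Polynomial.eval_prod] at h2
    simp only [Polynomial.eval_sub, Polynomial.eval_pow, Polynomial.eval_X, Polynomial.eval_C,
      one_pow] at h2
    rw [← h2, ← hab]
    ring
  have hfac : ∀ i : ℕ, (1 : Ω) - ω ^ i * β ≠ 0 := by
    intro i h
    have h1 : ω ^ i = ω ^ (i % N) := by
      rw [hζ'.eq_orderOf, pow_mod_orderOf]
    rw [h1] at h
    have h2 : ∏ i ∈ Finset.range N, (1 - ω ^ i * β) = 0 :=
      Finset.prod_eq_zero (Finset.mem_range.2 (Nat.mod_lt i hN)) h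
    rw [hprod] at h2
    exact a.ne_zero ((map_eq_zero_iff _ (algebraMap F Ω).injective).1 h2)
  have hZ : ∀ n : ℕ, ∏ i ∈ Finset.range n, ((1 : Ω) - ω ^ i * β) ≠ 0 := fun n =>
    Finset.prod_ne_zero_iff.2 fun i _ => hfac i
  have hper : ∀ n : ℕ, ∏ i ∈ Finset.range (N + n), ((1 : Ω) - ω ^ i * β) =
      algebraMap F Ω a * ∏ i ∈ Finset.range n, ((1 : Ω) - ω ^ i * β) := by
    intro n
    rw [Finset.prod_range_add, hprod]
    congr 1
    refine Finset.prod_congr rfl fun i _ => ?_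
    rw [pow_add, hζ'.pow_eq_one, one_mul]
  refine ⟨fun σ => Units.mk0 _ (hZ (psi N ζ β σ).val), ?_, ?_⟩
  · refine Sym_fin1 β {β} (fun i => Units.mk0 _ (hZ i.val)) ?_
    intro M hM i
    rw [Units.val_mk0]
    refine prod_mem fun k _ => sub_mem (one_mem _) (mul_mem (pow_mem (M.algebraMap_mem _) _) ?_)
    exact hM β (by simp)
  · intro σ τ
    apply Units.ext
    unfold symc dB c1
    beta_reduce
    rw [one_mul, Units.val_pow_eq_pow_val, Units.val_div_eq_div_val, Units.val_mul, Units.val_mk0,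
      Units.val_mk0]
    have h1 : ((σ • Units.mk0 _ (hZ (psi N ζ β τ).val) : Ωˣ) : Ω) =
        ∏ i ∈ Finset.range (psi N ζ β τ).val, ((1 : Ω) - ω ^ ((psi N ζ β σ).val + i) * β) := by
      show σ (∏ i ∈ Finset.range (psi N ζ β τ).val, ((1 : Ω) - ω ^ i * β)) = _
      rw [map_prod]
      refine Finset.prod_congr rfl fun i _ => ?_
      rw [map_sub, map_one, map_mul, map_pow, hω, σ.commutes, psi_spec hN hζ hβ σ, pow_add]
      ring
    rw [h1, ← Finset.prod_range_add (fun i => (1 : Ω) - ω ^ i * β), psi_mul hN hζ hβ,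
      eq_div_iff (hZ _), Sym_carry hN]
    unfold carry
    split_ifs with h
    · rw [Nat.mul_one, Nat.add_comm _ N, hper, pow_one]
      rfl
    · rw [Nat.mul_zero, Nat.add_zero, pow_zero, one_mul]

/-- the subgroup of cochains generated by symbols and trivial classes -/
def SymSub (N : ℕ) (ζ : F) (Ω : Type) [Field Ω] [Algebra F Ω] :
    Subgroup (Gal(Ω/F) → Gal(Ω/F) → Ωˣ) :=
  Subgroup.closure ({c | ∃ (a : Fˣ) (β : Ω), IsRt N F β ∧ c = symc N ζ a β} ∪ {c | BEq c c1})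

theorem symSub_congr {c c' : Gal(Ω/F) → Gal(Ω/F) → Ωˣ} (h : BEq c c')
    (hc : c ∈ SymSub N ζ Ω) : c' ∈ SymSub N ζ Ω := by
  have h1 : c' = c * (c⁻¹ * c') := by rw [mul_inv_cancel_left]
  rw [h1]
  refine Subgroup.mul_mem _ hc (Subgroup.subset_closure (Or.inr ?_))
  obtain ⟨b, hb, h⟩ := h
  refine ⟨fun σ => (b σ)⁻¹, hb.inv, fun σ τ => ?_⟩
  rw [dB_inv]
  show (c σ τ)⁻¹ * c' σ τ = 1 * _
  rw [one_mul, h]
  group

/-- if K splits all symbols it splits SymSub -/
theorem spl_of_symSub (K : IntermediateField F Ω)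
    (hK : ∀ (a : Fˣ) (β : Ω), IsRt N F β → Spl K (symc N ζ a β))
    {c : Gal(Ω/F) → Gal(Ω/F) → Ωˣ} (hc : c ∈ SymSub N ζ Ω) : Spl K c := by
  unfold SymSub at hc
  induction hc using Subgroup.closure_induction with
  | mem x hx =>
    rcases hx with ⟨a, β, hβ, rfl⟩ | hx
    · exact hK a β hβ
    · exact spl_of_beq_one hx
  | one => exact spl_of_beq_one (BEq.refl _)
  | mul x y _ _ hx hy => exact hx.mul hy
  | inv x _ hx => exact hx.inv

end

section
variable (κ F : Type) {Ω : Type} [Field κ] [Field F] [Field Ω] [Algebra κ F] [Algebra κ[X] F]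
  [IsScalarTower κ κ[X] F] [IsFractionRing κ[X] F] [Algebra F Ω] [Algebra κ Ω]
  [IsScalarTower κ F Ω] [IsGalois F Ω] [IsSepClosed Ω]

theorem Sym_rk (σ : Gal(Ω/F)) (z : Ok κ Ω) : ((rk κ F (Ok κ Ω) σ z : Ok κ Ω) : Ω) = σ (z : Ω) :=
  AlgEquiv.restrictNormal_commutes (AlgEquiv.restrictScalarsHom κ σ) (Ok κ Ω) z

/-- pull back of symbols -/
theorem pull_symc {N : ℕ} (hN : 0 < N) {ζ : κ} (hζ : IsPrimitiveRoot ζ N) (a : κˣ)
    {β : Ok κ Ω} (hβ : IsRt N κ β) :
    pull κ F (symc N ζ a β) =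
      symc N (algebraMap κ F ζ) (Units.map (algebraMap κ F : κ →* F) a) (β : Ω) := by
  have hNz : NeZero N := ⟨hN.ne'⟩
  have hζF : IsPrimitiveRoot (algebraMap κ F ζ) N :=
    hζ.map_of_injective (algebraMap κ F).injective
  have hβΩ : IsRt N F (β : Ω) := by
    obtain ⟨b, hb, h⟩ := hβ
    refine ⟨algebraMap κ F b, (_root_.map_ne_zero _).2 hb, ?_⟩
    have h1 := congrArg (fun z : Ok κ Ω => (z : Ω)) h
    beta_reduce at h1
    rw [← IsScalarTower.algebraMap_apply]
    exact h1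
  have hpsi : ∀ σ : Gal(Ω/F), psi N ζ β (rk κ F (Ok κ Ω) σ) =
      psi N (algebraMap κ F ζ) (β : Ω) σ := by
    intro σ
    rw [psi_unique hN hζF hβΩ σ (psi N ζ β (rk κ F (Ok κ Ω) σ)).val, ZMod.natCast_zmod_val]
    have h1 := congrArg (fun z : Ok κ Ω => (z : Ω)) (psi_spec hN hζ hβ (rk κ F (Ok κ Ω) σ))
    beta_reduce at h1
    rw [Sym_rk] at h1
    rw [h1, ← IsScalarTower.algebraMap_apply]
    rfl
  funext σ τ
  apply Units.ext
  rw [pull_apply]
  unfold symc
  rw [hpsi, hpsi, Units.val_pow_eq_pow_val, Units.val_pow_eq_pow_val]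
  show (algebraMap κ Ω (a : κ)) ^ _ = (algebraMap F Ω (algebraMap κ F (a : κ))) ^ _
  rw [← IsScalarTower.algebraMap_apply]

theorem pull_symSub {N : ℕ} (hN : 0 < N) {ζ : κ} (hζ : IsPrimitiveRoot ζ N)
    {c : Gal(Ok κ Ω/κ) → Gal(Ok κ Ω/κ) → (Ok κ Ω)ˣ} (hc : c ∈ SymSub N ζ (Ok κ Ω)) :
    pull κ F c ∈ SymSub N (algebraMap κ F ζ) Ω := by
  unfold SymSub at hc
  induction hc using Subgroup.closure_induction with
  | mem x hx =>
    rcases hx with ⟨a, β, hβ, rfl⟩ | hx
    · refine Subgroup.subset_closure (Or.inl ⟨Units.map (algebraMap κ F : κ →* F) a, (β : Ω), ?_,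
        pull_symc κ F hN hζ a hβ⟩)
      obtain ⟨b, hb, h⟩ := hβ
      refine ⟨algebraMap κ F b, (_root_.map_ne_zero _).2 hb, ?_⟩
      have h1 := congrArg (fun z : Ok κ Ω => (z : Ω)) h
      beta_reduce at h1
      rw [← IsScalarTower.algebraMap_apply]
      exact h1
    · have h1 := pull_beq κ F hx
      rw [pull_one] at h1
      exact Subgroup.subset_closure (Or.inr h1)
  | one =>
    have h1 : pull κ F (1 : Gal(Ok κ Ω/κ) → Gal(Ok κ Ω/κ) → (Ok κ Ω)ˣ) = 1 := pull_one κ F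
    rw [h1]
    exact Subgroup.one_mem _
  | mul x y _ _ hx hy =>
    have h1 : pull κ F (x * y) = pull κ F x * pull κ F y := pull_mul κ F x y
    rw [h1]
    exact Subgroup.mul_mem _ hx hy
  | inv x _ hx =>
    have h1 : pull κ F x⁻¹ = (pull κ F x)⁻¹ := pull_inv κ F x
    rw [h1]
    exact Subgroup.inv_mem _ hx

end

end W42
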