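import Pool.Agent.W_42fc02_h90.ResA
import Pool.Agent.W_42fc02_h90.Sym
import Pool.Agent.W_42fc02_h90.Loc

/-!
GenA: residues of symbols. F = kappa(y), f, g in kappa[X], g(theta) not 0.
The residue of (f, g) at theta at gamma is rord theta f * n / N, gamma gb = zeta^n gb, gb^N = g(theta).

carry_average: H = image of a homomorphism psi : T -> Z/N from a finite group T, i in H:
(1/|T|) sum_{t in T} carry (i, psi t) = i.val / N. (H = multiples of N/h, h = |H|; carry (i, j) = 1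
for exactly i.val h / N elements j of H.)

symb_res: symc is killed by N = l^e, so tsen gives kp, c'; d from exists_compat. loc with m = 1,
a 0 = g, al 0 = beta gives w, abar, g'. L = lvM kp al contains the level F(beta) of symc and KF kp:
xiR c' d - xi L w (symc) g' in Z (xi_beq, xi_mono, xi_inflR; rk g' = d), and
xi L w (symc) g' = rord theta f * (psi g').val / N by carry_average; abar = zeta^j gb, so
gamma abar = zeta^n abar, g' beta = zeta^n beta, psi g' = n.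
-/

namespace W42

open Polynomial

theorem GenA_carry {N : ℕ} (hN : 0 < N) (i j : ZMod N) :
    N * carry i j + (i + j).val = i.val + j.val := by
  have : NeZero N := ⟨hN.ne'⟩
  have hi := ZMod.val_lt i
  have hj := ZMod.val_lt j
  unfold carry
  rw [ZMod.val_add]
  split_ifs with h
  · rw [Nat.mod_eq_sub_mod h, Nat.mod_eq_of_lt (by omega)]
    omega
  · rw [Nat.mod_eq_of_lt (by omega)]
    omega

theorem carry_average {T : Type} [Group T] [Fintype T] (N : ℕ) (hN : 0 < N) (ps : T → ZMod N)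
    (hps : ∀ s t, ps (s * t) = ps s + ps t) (g : T) :
    (∑ t : T, (carry (ps g) (ps t) : ℚ)) / (Fintype.card T : ℚ) = ((ps g).val : ℚ) / (N : ℚ) := by
  have h1 : ∑ t : T, (N * carry (ps g) (ps t) + (ps (g * t)).val) =
      ∑ t : T, ((ps g).val + (ps t).val) := by
    refine Finset.sum_congr rfl fun t _ => ?_
    rw [hps, GenA_carry hN]
  have h2 : ∑ t : T, (ps (g * t)).val = ∑ t : T, (ps t).val :=
    Fintype.sum_equiv (Equiv.mulLeft g) _ _ fun t => rfl
  rw [Finset.sum_add_distrib, Finset.sum_add_distrib, h2, ← Finset.mul_sum, Finset.sum_const,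
    Finset.card_univ, smul_eq_mul] at h1
  have h3 : N * ∑ t : T, carry (ps g) (ps t) = Fintype.card T * (ps g).val :=
    Nat.add_right_cancel h1
  have h4 : (N : ℚ) * ∑ t : T, (carry (ps g) (ps t) : ℚ) = Fintype.card T * ((ps g).val : ℚ) := by
    have h5 := congrArg (fun n : ℕ => (n : ℚ)) h3
    push_cast at h5
    exact h5
  have hN' : (N : ℚ) ≠ 0 := by exact_mod_cast hN.ne'
  have hT : (Fintype.card T : ℚ) ≠ 0 := by exact_mod_cast Fintype.card_ne_zero
  rw [div_eq_div_iff hT hN']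
  linarith

section
variable {F Ω : Type} [Field F] [Field Ω] [Algebra F Ω]

theorem GenA_psi_congr {N : ℕ} (hN : 0 < N) {ζ : F} (hζ : IsPrimitiveRoot ζ N) {β : Ω}
    (hβ : IsRt N F β) {σ τ : Gal(Ω/F)} (h : σ β = τ β) : psi N ζ β σ = psi N ζ β τ := by
  have : NeZero N := ⟨hN.ne'⟩
  have h1 := psi_spec hN hζ hβ τ
  rw [← h] at h1
  rw [psi_unique hN hζ hβ σ _ h1, ZMod.natCast_zmod_val]

theorem GenA_lev2 {N : ℕ} (hN : 0 < N) {ζ : F} (hζ : IsPrimitiveRoot ζ N) {β : Ω}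
    (hβ : IsRt N F β) (a : Fˣ) (L : IntermediateField F Ω) (hL : β ∈ L) :
    Lev2 L (symc N ζ a β) := by
  constructor
  · intro σ τ
    unfold symc
    rw [Units.val_pow_eq_pow_val]
    exact pow_mem (L.algebraMap_mem _) _
  · intro σ σ' τ τ' h h'
    unfold symc
    rw [GenA_psi_congr hN hζ hβ (h β hL), GenA_psi_congr hN hζ hβ (h' β hL)]

theorem GenA_xi [IsGalois F Ω] {N : ℕ} (hN : 0 < N) {ζ : F} (hζ : IsPrimitiveRoot ζ N) {β : Ω}
    (hβ : IsRt N F β) (a : Fˣ) (L : IntermediateField F Ω) [FiniteDimensional F L] [Normal F L]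
    (hL : β ∈ L) {w : Ω → ℤ} (hw : MulOn L w) (g : Gal(Ω/F)) :
    xi L w (symc N ζ a β) g =
      (w (algebraMap F Ω a) : ℚ) * (((psi N ζ β g).val : ℚ) / (N : ℚ)) := by
  have h1 : ∀ t : Gal(L/F), (w (symc N ζ a β g (liftL L t) : Ω) : ℚ) =
      (w (algebraMap F Ω a) : ℚ) *
        (carry (psi N ζ β (liftL L (AlgEquiv.restrictNormalHom L g)))
          (psi N ζ β (liftL L t)) : ℚ) := by
    intro t
    rw [GenA_psi_congr hN hζ hβ (XiA_agree L g hL)]
    unfold symc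
    rw [XiA_w_pow hw _ (L.algebraMap_mem _)]
    push_cast
    rw [mul_comm]
    rfl
  unfold xi
  rw [Finset.sum_congr rfl fun t _ => h1 t, ← Finset.mul_sum, mul_div_assoc]
  have h2 := carry_average N hN (fun t : Gal(L/F) => psi N ζ β (liftL L t)) (by
    intro s t
    rw [← psi_mul hN hζ hβ]
    apply GenA_psi_congr hN hζ hβ
    have h3 := XiA_agree_mul L (liftL L s) t hL
    rw [XiA_lift] at h3
    exact h3.symm) (AlgEquiv.restrictNormalHom L g)
  rw [h2, GenA_psi_congr hN hζ hβ (XiA_agree L g hL)]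

end

section
variable (κ F : Type) {Ω : Type} [Field κ] [Field F] [Field Ω] [Algebra κ F] [Algebra κ[X] F]
  [IsScalarTower κ κ[X] F] [IsFractionRing κ[X] F] [Algebra F Ω] [Algebra κ Ω]
  [IsScalarTower κ F Ω] [IsGalois F Ω] [IsSepClosed Ω]

theorem symb_res {𝕂 : Type} [Field 𝕂] [Algebra κ 𝕂] [IsAlgClosed 𝕂] [Algebra.IsAlgebraic κ 𝕂]
    (io : Ok κ Ω →ₐ[κ] 𝕂) (l e : ℕ) [Fact l.Prime] (hl : (l : κ) ≠ 0) (ζ : κ)
    (hζ : IsPrimitiveRoot ζ (l ^ e)) (f g : κ[X]) (hf : f ≠ 0) (a : Fˣ)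
    (ha : (a : F) = algebraMap κ[X] F f) (θ : 𝕂) (hg : aeval θ g ≠ 0) (β : Ω)
    (hβ : β ^ l ^ e = algebraMap F Ω (algebraMap κ[X] F g)) (gb : 𝕂)
    (hgb : gb ^ l ^ e = aeval θ g) (γ : Gal(𝕂/κ)) (hγ : γ θ = θ) (n : ℕ)
    (hn : γ gb = algebraMap κ 𝕂 ζ ^ n * gb) :
    HasRes κ F io θ (symc (l ^ e) (algebraMap κ F ζ) a β) γ
      ((f.map (algebraMap κ 𝕂)).rootMultiplicity θ * n / ((l ^ e : ℕ) : ℚ)) := by
  obtain ⟨N, hNdef⟩ : ∃ N : ℕ, N = l ^ e := ⟨_, rfl⟩
  have hN0 : 0 < N := by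
    rw [hNdef]
    exact pow_pos (Fact.out : l.Prime).pos e
  have hNκ : (N : κ) ≠ 0 := by
    rw [hNdef, Nat.cast_pow]
    exact pow_ne_zero _ hl
  have hζF : IsPrimitiveRoot (algebraMap κ F ζ) N := by
    rw [hNdef]
    exact hζ.map_of_injective (algebraMap κ F).injective
  have hζ𝕂 : IsPrimitiveRoot (algebraMap κ 𝕂 ζ) N := by
    rw [hNdef]
    exact hζ.map_of_injective (algebraMap κ 𝕂).injective
  have hg0 : g ≠ 0 := by
    rintro rfl
    apply hg
    rw [map_zero]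
  have hrt : IsRt N F β := by
    refine ⟨algebraMap κ[X] F g, ?_, by rw [hNdef]; exact hβ⟩
    intro h
    exact hg0 (IsFractionRing.injective κ[X] F (by rw [h, map_zero]))
  have hbc : BC (symc N (algebraMap κ F ζ) a β) := symc_bc hN0 hζF hrt a
  have htor : BEq (fun σ τ => symc N (algebraMap κ F ζ) a β σ τ ^ N) c1 :=
    symc_torsion hN0 hζF hrt a
  rw [← hNdef] at hζ hβ hgb ⊢
  obtain ⟨kp, hfd, hgal, c', hc', h⟩ := tsen κ F l hl hbc e (by rw [← hNdef]; exact htor)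
  obtain ⟨d, hd⟩ := exists_compat (iR κ io (le_Ok κ kp)) γ
  refine ⟨kp, hfd, hgal, le_Ok κ kp, c', d, hc', h, hd, ?_⟩
  obtain ⟨w, abar, hwM, hw, habar, hloc⟩ := loc κ F θ kp (iR κ io (le_Ok κ kp)) N hNκ ζ hζ
    (m := 1) (fun _ => g) (fun _ => hg) (fun _ => β) (fun _ => hβ)
  obtain ⟨g', hPres, hrk, hiff⟩ := hloc γ hγ
  have hd' : rk κ F kp g' = d := by
    apply AlgEquiv.ext
    intro z
    apply ResA_inj κ io (le_Ok κ kp)
    rw [hrk, hd]
  have hLf : FiniteDimensional F (lvM κ F kp (fun _ : Fin 1 => β)) := lvM_finite κ F kp _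
  have hLn : Normal F (lvM κ F kp (fun _ : Fin 1 => β)) :=
    lvM_normal κ F kp N ζ hζ hN0 _ (fun _ => ⟨_, hβ⟩)
  have hKf : FiniteDimensional F (KF κ F kp) := KF_finite κ F kp
  have hKn : Normal F (KF κ F kp) := KF_normal κ F kp
  have hle : KF κ F kp ≤ lvM κ F kp (fun _ : Fin 1 => β) := le_sup_left
  have hβL : β ∈ lvM κ F kp (fun _ : Fin 1 => β) :=
    (le_sup_right : IntermediateField.adjoin F (Set.range fun _ : Fin 1 => β) ≤
      lvM κ F kp (fun _ : Fin 1 => β)) (IntermediateField.subset_adjoin F _ ⟨0, rfl⟩)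
  -- comparison with xi
  obtain ⟨n1, hn1⟩ := xi_beq (lvM κ F kp (fun _ : Fin 1 => β)) hwM hbc.1
    ((isC2_inflR κ F kp c').2 hc') (GenA_lev2 hN0 hζF hrt a _ hβL)
    ((lev2_inflR κ F kp c').mono hle) h g' hPres
  rw [← xi_mono hle w (lev2_inflR κ F kp c') g',
    xi_inflR κ F kp (iR κ io (le_Ok κ kp) : kp →+* 𝕂) θ w hw c' g', hd',
    GenA_xi hN0 hζF hrt a _ hβL hwM g'] at hn1
  -- the order of a
  have hwa : w (algebraMap F Ω a) = (f.map (algebraMap κ 𝕂)).rootMultiplicity θ := by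
    have h1 := PhiO_map κ F kp f 1 one_ne_zero
    rw [map_one, div_one, map_one, div_one, ← ha] at h1
    rw [← h1, hw, rmap_comp]
    have h2 : ((iR κ io (le_Ok κ kp) : kp →+* 𝕂)).comp (algebraMap κ kp) = algebraMap κ 𝕂 := by
      ext x
      exact (iR κ io (le_Ok κ kp)).commutes x
    rw [h2]
    have h3 := rmap_div (algebraMap κ 𝕂) f 1
    rw [map_one, div_one, Polynomial.map_one, map_one, div_one] at h3
    rw [h3, rord_poly]
  -- psi g' = n
  have hgb0 : gb ≠ 0 := by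
    rintro rfl
    rw [zero_pow hN0.ne'] at hgb
    exact hg hgb.symm
  have hab : ∃ j : ℕ, abar 0 = algebraMap κ 𝕂 ζ ^ j * gb := by
    have : NeZero N := ⟨hN0.ne'⟩
    have h1 : (abar 0 / gb) ^ N = 1 := by
      rw [div_pow, habar, hgb, div_self hg]
    obtain ⟨j, -, hj⟩ := hζ𝕂.eq_pow_of_pow_eq_one h1
    exact ⟨j, by rw [hj, div_mul_cancel₀ _ hgb0]⟩
  obtain ⟨j, hj⟩ := hab
  have hγab : γ (abar 0) = algebraMap κ 𝕂 ζ ^ n * abar 0 := by
    rw [hj, map_mul, map_pow, AlgEquiv.commutes, hn]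
    ring
  have hg'β := (hiff 0 n).1 hγab
  have hpsi : psi N (algebraMap κ F ζ) β g' = (n : ZMod N) := by
    apply psi_unique hN0 hζF hrt
    rw [hg'β, IsScalarTower.algebraMap_apply κ F Ω]
  rw [hpsi, ZMod.val_natCast, hwa] at hn1
  have hNQ : (N : ℚ) ≠ 0 := by exact_mod_cast hN0.ne'
  obtain ⟨q0, hq0⟩ : ∃ q0 : ℕ, n = N * q0 + n % N := ⟨n / N, (Nat.div_add_mod n N).symm⟩
  refine ⟨-n1 - ((f.map (algebraMap κ 𝕂)).rootMultiplicity θ * q0 : ℕ), ?_⟩
  have hdm : (n : ℚ) = N * (q0 : ℚ) + ((n % N : ℕ) : ℚ) := by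
    exact_mod_cast hq0
  push_cast at hn1 ⊢
  rw [← hn1]
  conv_lhs => rw [hdm]
  field_simp
  ring

end

end W42
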