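import Mathlib

/-!
H: over an algebraically closed field K, m homogeneous polynomials of positive degree in n > m
variables have a nontrivial common zero.

Proof: otherwise, by the Nullstellensatz (MvPolynomial.vanishingIdeal_zeroLocus_eq_radical), the
radical of I = (f_1, .., f_m) is the ideal P = (X_1, .., X_n) of the origin, so P is a minimal
prime over I and height P <= m by Krull (Ideal.height_le_card_of_mem_minimalPrimes_span_finset or
..._span). But height P >= n: chain 0 < (X_1) < (X_1, X_2) < ... (spans of variables are prime: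
quotient is a polynomial ring), or ring Krull dimension of MvPolynomial (Fin n) K = n plus
translation; see Mathlib.RingTheory.KrullDimension.Polynomial (height_eq_height_add_one and
induction over MvPolynomial.finSuccEquiv).
-/

set_option autoImplicit false

namespace W42

/-- the substitution `X i ↦ 0` for `i < k` -/
noncomputable def Homog_sub (K : Type) [Field K] (n k : ℕ) :
    MvPolynomial (Fin n) K →ₐ[K] MvPolynomial (Fin n) K :=
  MvPolynomial.aeval fun i : Fin n => if (i : ℕ) < k then 0 else MvPolynomial.X i

theorem Homog_ker_le (K : Type) [Field K] (n k k' : ℕ) (h : k ≤ k') :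
    RingHom.ker (Homog_sub K n k) ≤ RingHom.ker (Homog_sub K n k') := by
  intro x hx
  rw [RingHom.mem_ker] at hx ⊢
  have : Homog_sub K n k' = (Homog_sub K n k').comp (Homog_sub K n k) := by
    apply MvPolynomial.algHom_ext
    intro i
    simp only [Homog_sub, AlgHom.comp_apply, MvPolynomial.aeval_X]
    split_ifs with h1 h2 h2
    · simp
    · simp [h1]
    · omega
    · simp [h1]
  rw [this, AlgHom.comp_apply, hx, map_zero]

theorem height_origin (K : Type) [Field K] (n : ℕ) :
    (n : ℕ∞) ≤ (Ideal.span (Set.range (MvPolynomial.X : Fin n → MvPolynomial (Fin n) K))).height := by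
  have key : ∀ k ≤ n, (k : ℕ∞) ≤ (RingHom.ker (Homog_sub K n k)).height := by
    intro k
    induction k with
    | zero => intro _; simp
    | succ k ih =>
      intro hk
      have h1 := ih (by omega)
      have : (RingHom.ker (Homog_sub K n k)).IsPrime := RingHom.ker_isPrime _
      have : (RingHom.ker (Homog_sub K n (k + 1))).IsPrime := RingHom.ker_isPrime _
      have hlt : RingHom.ker (Homog_sub K n k) < RingHom.ker (Homog_sub K n (k + 1)) := by
        refine lt_of_le_of_ne (Homog_ker_le K n k (k + 1) (by omega)) fun h => ?_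
        have h2 : (MvPolynomial.X ⟨k, by omega⟩ : MvPolynomial (Fin n) K) ∈
            RingHom.ker (Homog_sub K n (k + 1)) := by
          rw [RingHom.mem_ker]
          simp [Homog_sub]
        rw [← h, RingHom.mem_ker] at h2
        simp [Homog_sub] at h2
      have h3 := Ideal.height_strict_mono_of_isPrime_of_isPrime hlt
      calc ((k + 1 : ℕ) : ℕ∞) = (k : ℕ∞) + 1 := by push_cast; rfl
        _ ≤ (RingHom.ker (Homog_sub K n k)).height + 1 := by gcongr
        _ ≤ _ := Order.add_one_le_of_lt h3
  refine (key n le_rfl).trans (Ideal.height_mono ?_)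
  intro x hx
  rw [← Set.image_univ, MvPolynomial.mem_ideal_span_X_image]
  intro m hm
  by_contra hcon
  push Not at hcon
  have hm0 : m = 0 := by
    ext i
    exact hcon i trivial
  rw [RingHom.mem_ker] at hx
  have h1 : Homog_sub K n n x = MvPolynomial.C (MvPolynomial.coeff 0 x) := by
    have h2 : Homog_sub K n n = MvPolynomial.aeval (fun _ : Fin n => (0 : MvPolynomial (Fin n) K)) := by
      apply MvPolynomial.algHom_ext
      intro i
      simp [Homog_sub]
    rw [h2]
    change MvPolynomial.aeval (0 : Fin n → MvPolynomial (Fin n) K) x = _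
    rw [MvPolynomial.aeval_zero]
    rfl
  rw [hx] at h1
  rw [MvPolynomial.mem_support_iff, hm0] at hm
  exact hm (by
    have := MvPolynomial.C_injective (Fin n) K (h1.symm.trans (map_zero _).symm)
    exact this)

/-- the case of variables indexed by `Fin n` -/
theorem Homog_fin {K : Type} [Field K] [IsAlgClosed K] {n m : ℕ}
    (hm : m < n) (f : Fin m → MvPolynomial (Fin n) K) (d : Fin m → ℕ)
    (hd : ∀ i, 0 < d i) (hf : ∀ i, (f i).IsHomogeneous (d i)) :
    ∃ x : Fin n → K, x ≠ 0 ∧ ∀ i, MvPolynomial.eval x (f i) = 0 := by
  by_contra hcon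
  push Not at hcon
  set P : Ideal (MvPolynomial (Fin n) K) :=
    Ideal.span (Set.range (MvPolynomial.X : Fin n → MvPolynomial (Fin n) K)) with hP
  set I : Ideal (MvPolynomial (Fin n) K) := Ideal.span (Set.range f) with hI
  have h0 : ∀ i, MvPolynomial.eval (0 : Fin n → K) (f i) = 0 := by
    intro i
    have h1 : MvPolynomial.eval (0 : Fin n → K) (f i) = MvPolynomial.coeff 0 (f i) := by
      rw [MvPolynomial.eval_zero]
      rfl
    rw [h1]
    by_contra h2
    have := hf i h2
    simp at this
    have := hd i
    omega
  have hPprime : P.IsPrime := by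
    have : P = RingHom.ker (MvPolynomial.constantCoeff : MvPolynomial (Fin n) K →+* K) := by
      ext x
      rw [hP, ← Set.image_univ, MvPolynomial.mem_ideal_span_X_image, RingHom.mem_ker,
        MvPolynomial.constantCoeff_eq]
      constructor
      · intro h
        by_contra h2
        obtain ⟨i, -, hi⟩ := h 0 (MvPolynomial.mem_support_iff.2 h2)
        exact hi rfl
      · intro h m hm
        by_contra h2
        push Not at h2
        have hm0 : m = 0 := by
          ext i
          exact h2 i trivial
        rw [MvPolynomial.mem_support_iff, hm0] at hm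
        exact hm h
    rw [this]
    exact RingHom.ker_isPrime _
  have hPrad : P ≤ I.radical := by
    rw [← MvPolynomial.vanishingIdeal_zeroLocus_eq_radical (K := K) I, hP, Ideal.span_le]
    rintro _ ⟨i, rfl⟩
    rw [SetLike.mem_coe, MvPolynomial.mem_vanishingIdeal_iff]
    intro x hx
    rw [MvPolynomial.mem_zeroLocus_iff] at hx
    have hx0 : x = 0 := by
      by_contra hne
      obtain ⟨j, hj⟩ := hcon x hne
      apply hj
      have := hx (f j) (Ideal.subset_span ⟨j, rfl⟩)
      rwa [MvPolynomial.aeval_eq_eval] at this
    rw [hx0]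
    simp
  have hIP : I ≤ P := by
    rw [hI, Ideal.span_le]
    rintro _ ⟨i, rfl⟩
    rw [SetLike.mem_coe, hP, ← Set.image_univ, MvPolynomial.mem_ideal_span_X_image]
    intro m' hm'
    by_contra h2
    push Not at h2
    have hm0 : m' = 0 := by
      ext j
      exact h2 j trivial
    rw [MvPolynomial.mem_support_iff, hm0] at hm'
    have := hf i hm'
    simp at this
    have := hd i
    omega
  have hmin : P ∈ I.minimalPrimes := by
    refine ⟨⟨hPprime, hIP⟩, ?_⟩
    rintro Q ⟨hQ, hIQ⟩ -
    exact hPrad.trans ((hQ.isRadical.radical_le_iff).2 hIQ)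
  have h1 := Ideal.height_le_card_of_mem_minimalPrimes_span (Set.finite_range f) hmin
  have h2 := height_origin K n
  have h3 : (Set.range f).ncard ≤ m := by
    rw [← Set.image_univ]
    refine (Set.ncard_image_le (Set.toFinite _)).trans ?_
    rw [Set.ncard_univ, Nat.card_eq_fintype_card, Fintype.card_fin]
  have h4 := (h2.trans h1)
  have h5 : n ≤ (Set.range f).ncard := by exact_mod_cast h4
  omega

theorem homog_zero {K : Type} [Field K] [IsAlgClosed K] {ι : Type} [Fintype ι] {m : ℕ}
    (hm : m < Fintype.card ι) (f : Fin m → MvPolynomial ι K) (d : Fin m → ℕ)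
    (hd : ∀ i, 0 < d i) (hf : ∀ i, (f i).IsHomogeneous (d i)) :
    ∃ x : ι → K, x ≠ 0 ∧ ∀ i, MvPolynomial.eval x (f i) = 0 := by
  classical
  let e := Fintype.equivFin ι
  obtain ⟨x, hx, h⟩ := Homog_fin hm (fun i => MvPolynomial.rename e (f i)) d hd
    (fun i => (hf i).rename_isHomogeneous)
  refine ⟨x ∘ e, ?_, fun i => ?_⟩
  · intro h0
    apply hx
    funext i
    have := congrFun h0 (e.symm i)
    simpa using this
  · have := h i
    rwa [MvPolynomial.eval_rename] at this

end W42
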