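import Pool.Agent.W_42fc02_h7.LzA

/-!
LZA: KK algebraically closed, algebraic over kappa; theta in KK;
Gamma = automorphisms gamma of KK / kappa with gamma theta = theta.
chi : Gal(KK / kappa) -> Q, used only on Gamma, where it is a homomorphism mod Z of finite level.
zeta a primitive N-th root of 1 in kappa.
-/

namespace W42

section
variable {κ 𝕂 : Type} [Field κ] [Field 𝕂] [Algebra κ 𝕂]

/-- a homomorphism mod Z on Gamma_theta, of finite level -/
structure ChiHom (κ : Type) {𝕂 : Type} [Field κ] [Field 𝕂] [Algebra κ 𝕂] (θ : 𝕂)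
    (χ : Gal(𝕂/κ) → ℚ) : Prop where
  hom : ∀ γ γ' : Gal(𝕂/κ), γ θ = θ → γ' θ = θ → ∃ n : ℤ, χ (γ * γ') - χ γ - χ γ' = n
  level : ∃ S : Finset 𝕂, ∀ γ : Gal(𝕂/κ), γ θ = θ → (∀ z ∈ S, γ z = z) → ∃ n : ℤ, χ γ = n

theorem fix_adjoin {θ : 𝕂} {γ : Gal(𝕂/κ)} (hγ : γ θ = θ) {x : 𝕂}
    (hx : x ∈ IntermediateField.adjoin κ {θ}) : γ x = x := by
  induction hx using IntermediateField.adjoin_induction with
  | mem y hy =>
    rw [Set.mem_singleton_iff] at hy
    rw [hy, hγ]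
  | algebraMap y => exact γ.commutes y
  | add y z _ _ hy hz => rw [map_add, hy, hz]
  | inv y _ hy => rw [map_inv₀, hy]
  | mul y z _ _ hy hz => rw [map_mul, hy, hz]

/-- a finite normal subextension of KK / kappa(theta) containing a finite set -/
theorem LZA_level [IsAlgClosed 𝕂] [Algebra.IsAlgebraic κ 𝕂] (E : IntermediateField κ 𝕂)
    (T : Finset 𝕂) : ∃ L : IntermediateField E 𝕂, FiniteDimensional E L ∧ Normal E L ∧
      ∀ x ∈ T, x ∈ L := by
  have hclos : IsAlgClosure κ 𝕂 := ⟨inferInstance, inferInstance⟩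
  have hnorm : Normal κ 𝕂 := IsAlgClosure.normal κ 𝕂
  have hnormE : Normal E 𝕂 := Normal.tower_top_of_normal κ _ 𝕂
  let L0 : IntermediateField E 𝕂 := IntermediateField.adjoin E (T : Set 𝕂)
  have hfd0 : FiniteDimensional E L0 := by
    apply IntermediateField.finiteDimensional_adjoin
    intro x _
    exact Algebra.IsIntegral.isIntegral x
  refine ⟨IntermediateField.normalClosure E L0 𝕂, normalClosure.is_finiteDimensional E L0 𝕂,
    normalClosure.normal E L0 𝕂, fun x hx => ?_⟩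
  exact IntermediateField.le_normalClosure L0 (IntermediateField.subset_adjoin E _ hx)

/-- an element fixed by Gamma_theta has a power z^r in kappa(theta), r a power of the characteristic
exponent. -/
theorem fix_pow [IsAlgClosed 𝕂] [Algebra.IsAlgebraic κ 𝕂] (θ z : 𝕂)
    (h : ∀ γ : Gal(𝕂/κ), γ θ = θ → γ z = z) :
    ∃ r : ℕ, 0 < r ∧ (∀ l : ℕ, l.Prime → (l : κ) ≠ 0 → Nat.Coprime l r) ∧
      z ^ r ∈ IntermediateField.adjoin κ {θ} := by
  set E := IntermediateField.adjoin κ {θ} with hE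
  have hclos : IsAlgClosure κ 𝕂 := ⟨inferInstance, inferInstance⟩
  have hnorm : Normal κ 𝕂 := IsAlgClosure.normal κ 𝕂
  have hnormE : Normal E 𝕂 := Normal.tower_top_of_normal κ _ 𝕂
  obtain ⟨L, hL1, hL2, hL3⟩ := LZA_level E ({z} : Finset 𝕂)
  have hz : z ∈ L := hL3 z (by simp)
  obtain ⟨p, hp⟩ := ExpChar.exists κ
  have hpE : ExpChar E p := expChar_of_injective_algebraMap (algebraMap κ E).injective p
  obtain ⟨m, y, hy⟩ := Pool.Agent.W_42fc02_h7.exists_pow_mem_of_fixed (E := E) (L := L) p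
    (x := ⟨z, hz⟩) (by
      intro g
      have h1 : ((g.liftNormal 𝕂).restrictScalars κ) θ = θ :=
        (g.liftNormal 𝕂).commutes ⟨θ, IntermediateField.mem_adjoin_simple_self κ θ⟩
      have h2 := h _ h1
      have h3 := AlgEquiv.liftNormal_commutes g 𝕂 (⟨z, hz⟩ : L)
      apply Subtype.ext
      exact h3.symm.trans h2)
  refine ⟨p ^ m, pow_pos (expChar_pos κ p) _, ?_, ?_⟩
  · intro l hl hlκ
    apply Nat.Coprime.pow_right
    rw [hl.coprime_iff_not_dvd]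
    intro h
    cases hp with
    | zero => exact hl.one_lt.ne' (Nat.dvd_one.1 h)
    | prime hq =>
      rw [Nat.prime_dvd_prime_iff_eq hl hq] at h
      apply hlκ
      rw [h]
      exact CharP.cast_eq_zero κ p
  · have h4 := congrArg (fun x : L => (x : 𝕂)) hy
    have h5 : z ^ p ^ m = (y : 𝕂) := h4
    rw [h5]
    exact y.2

/-- On the gamma in Gamma_theta with gamma beta = beta
N * chi is integral, so gamma -> zeta^(N chi gamma) is a character of finite level. Hilbert 90: there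
is u with gamma u = zeta^(N chi gamma) u. -/
theorem lz_u [IsAlgClosed 𝕂] [Algebra.IsAlgebraic κ 𝕂] (θ : 𝕂) (N : ℕ) (hN : 0 < N) (ζ : κ)
    (hζ : IsPrimitiveRoot ζ N) (χ : Gal(𝕂/κ) → ℚ) (hχ : ChiHom κ θ χ) (β : 𝕂)
    (hint : ∀ γ : Gal(𝕂/κ), γ θ = θ → γ β = β → ∃ n : ℤ, (N : ℚ) * χ γ = n) :
    ∃ u : 𝕂, u ≠ 0 ∧ ∀ γ : Gal(𝕂/κ), γ θ = θ → γ β = β → ∀ a : ℤ, (N : ℚ) * χ γ = a →
      γ u = (algebraMap κ 𝕂 ζ) ^ a * u := by
  classical
  set E := IntermediateField.adjoin κ {θ} with hE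
  have hclos : IsAlgClosure κ 𝕂 := ⟨inferInstance, inferInstance⟩
  have hnorm : Normal κ 𝕂 := IsAlgClosure.normal κ 𝕂
  have hnormE : Normal E 𝕂 := Normal.tower_top_of_normal κ _ 𝕂
  obtain ⟨T, hT⟩ := hχ.level
  obtain ⟨L, hL1, hL2, hL3⟩ := LZA_level E (insert β T)
  have hβL : β ∈ L := hL3 β (by simp)
  have hTL : ∀ x ∈ T, x ∈ L := fun x hx => hL3 x (by simp [hx])
  have hθE : θ ∈ E := IntermediateField.mem_adjoin_simple_self κ θ
  have hlift : ∀ (g : L ≃ₐ[E] L) (x : L), (g.liftNormal 𝕂) (x : 𝕂) = (g x : 𝕂) :=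
    fun g x => AlgEquiv.liftNormal_commutes g 𝕂 x
  let up : (L ≃ₐ[E] L) → Gal(𝕂/κ) := fun g => (g.liftNormal 𝕂).restrictScalars κ
  have hup : ∀ (g : L ≃ₐ[E] L) (x : L), up g (x : 𝕂) = (g x : 𝕂) := hlift
  have hupθ : ∀ g, up g θ = θ := fun g => (g.liftNormal 𝕂).commutes ⟨θ, hθE⟩
  -- two automorphisms which agree on `L` have the same `χ`
  have hagree : ∀ γ γ' : Gal(𝕂/κ), γ θ = θ → γ' θ = θ → (∀ x ∈ L, γ x = γ' x) →
      ∃ n : ℤ, χ γ = χ γ' + n := by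
    intro γ γ' h1 h2 h3
    have h4 : (γ'⁻¹ * γ) θ = θ := by
      rw [AlgEquiv.mul_apply, h1]
      conv_lhs => rw [← h2]
      rw [← AlgEquiv.mul_apply, inv_mul_cancel, AlgEquiv.one_apply]
    obtain ⟨n, hn⟩ := hT (γ'⁻¹ * γ) h4 (by
      intro x hx
      rw [AlgEquiv.mul_apply, h3 x (hTL x hx), ← AlgEquiv.mul_apply, inv_mul_cancel,
        AlgEquiv.one_apply])
    obtain ⟨n', hn'⟩ := hχ.hom γ' (γ'⁻¹ * γ) h2 h4
    rw [mul_inv_cancel_left, hn] at hn'
    refine ⟨n + n', ?_⟩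
    push_cast
    linarith
  let N' : Subgroup (L ≃ₐ[E] L) := MulAction.stabilizer (L ≃ₐ[E] L) (⟨β, hβL⟩ : L)
  have hN' : ∀ g, g ∈ N' ↔ g ⟨β, hβL⟩ = ⟨β, hβL⟩ := fun g => MulAction.mem_stabilizer_iff
  have hupβ : ∀ g ∈ N', up g β = β := by
    intro g hg
    have h1 := hup g ⟨β, hβL⟩
    rw [(hN' g).1 hg] at h1
    exact h1
  let n : (L ≃ₐ[E] L) → ℤ := fun g => ⌊(N : ℚ) * χ (up g)⌋
  have hn : ∀ g ∈ N', (n g : ℚ) = (N : ℚ) * χ (up g) := by
    intro g hg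
    obtain ⟨m, hm⟩ := hint (up g) (hupθ g) (hupβ g hg)
    show ((⌊(N : ℚ) * χ (up g)⌋ : ℤ) : ℚ) = _
    rw [hm, Int.floor_intCast]
  have hζE : IsPrimitiveRoot (algebraMap κ E ζ) N := hζ.map_of_injective (algebraMap κ E).injective
  have hζE0 : algebraMap κ E ζ ≠ 0 := hζE.ne_zero hN.ne'
  have hcong : ∀ {i j : ℤ}, (∃ m : ℤ, (i : ℚ) = j + (N : ℚ) * m) →
      algebraMap κ E ζ ^ i = algebraMap κ E ζ ^ j := by
    rintro i j ⟨m, hm⟩
    have h1 : i = j + (N : ℤ) * m := by exact_mod_cast hm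
    rw [h1, zpow_add₀ hζE0, zpow_mul, zpow_natCast, hζE.pow_eq_one, one_zpow, mul_one]
  obtain ⟨u, hu0, hu⟩ := Pool.Agent.W_42fc02_h7.exists_resolvent N'
    (fun g => algebraMap κ E ζ ^ n g) (fun g _ => zpow_ne_zero _ hζE0) (by
      intro g hg h hh
      show algebraMap κ E ζ ^ n (g * h) = algebraMap κ E ζ ^ n g * algebraMap κ E ζ ^ n h
      rw [← zpow_add₀ hζE0]
      apply hcong
      obtain ⟨m, hm⟩ := hagree (up (g * h)) (up g * up h) (hupθ _) (by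
        rw [AlgEquiv.mul_apply, hupθ, hupθ]) (by
        intro x hx
        have e1 := hup (g * h) ⟨x, hx⟩
        have e2 := hup h ⟨x, hx⟩
        have e3 := hup g (h ⟨x, hx⟩)
        rw [AlgEquiv.mul_apply] at e1
        rw [AlgEquiv.mul_apply, e1, e2, e3])
      obtain ⟨m', hm'⟩ := hχ.hom (up g) (up h) (hupθ g) (hupθ h)
      refine ⟨m + m', ?_⟩
      push_cast
      rw [hn _ (N'.mul_mem hg hh), hn g hg, hn h hh, hm]
      have : χ (up g * up h) = χ (up g) + χ (up h) + m' := by linarith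
      rw [this]
      ring)
  refine ⟨(u : 𝕂), fun h => hu0 (Subtype.ext h), ?_⟩
  intro γ hγθ hγβ a ha
  -- the restriction of `γ`
  let γE : 𝕂 ≃ₐ[E] 𝕂 := AlgEquiv.ofRingEquiv (f := (γ : 𝕂 ≃+* 𝕂))
    (fun x => fix_adjoin hγθ x.2)
  have hγE : ∀ x, γE x = γ x := fun x => rfl
  let g : L ≃ₐ[E] L := AlgEquiv.restrictNormalHom L γE
  have hg : ∀ x : L, ((g x : L) : 𝕂) = γ x := fun x =>
    AlgEquiv.restrictNormal_commutes γE L x
  have hgN : g ∈ N' := by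
    rw [hN']
    apply Subtype.ext
    rw [hg]
    exact hγβ
  have h1 := hu g hgN
  have h2 := congrArg (fun x : L => (x : 𝕂)) h1
  beta_reduce at h2
  rw [hg] at h2
  rw [h2]
  show (algebraMap κ E ζ ^ n g : E) * (u : 𝕂) = _
  have h3 : algebraMap κ E ζ ^ n g = algebraMap κ E ζ ^ a := by
    apply hcong
    obtain ⟨m, hm⟩ := hagree (up g) γ (hupθ g) hγθ (by
      intro x hx
      rw [← hg ⟨x, hx⟩]
      exact hup g ⟨x, hx⟩)
    refine ⟨m, ?_⟩
    rw [hn g hgN, hm, ← ha]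
    ring
  rw [h3]
  have h4 : ((algebraMap κ E ζ ^ a : E) : 𝕂) = (algebraMap κ 𝕂 ζ) ^ a := by
    rw [IsScalarTower.algebraMap_apply κ E 𝕂]
    exact map_zpow₀ (algebraMap E 𝕂) _ a
  rw [h4]

end

end W42
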