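import Mathlib

/-!
LocA: Laurent series over an algebraically closed field KK and the embedding of kappa(y), y -> theta + t.
LaurentSeries KK is a field; HahnSeries.single, PowerSeries.X, HahnSeries.ofPowerSeries; order of a
Laurent series: HahnSeries.order (order 0 = 0).
-/

set_option autoImplicit false

namespace W42

open Polynomial

section
variable {𝕂 : Type} [Field 𝕂]

/-- coefficientwise action of a ring homomorphism on Laurent series -/
noncomputable def lmap (γ : 𝕂 ≃+* 𝕂) : LaurentSeries 𝕂 →+* LaurentSeries 𝕂 :=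
  { toFun := fun f => HahnSeries.map f (γ : 𝕂 →+* 𝕂)
    map_one' := by
      ext n
      rw [HahnSeries.map_coeff, HahnSeries.coeff_one]
      split_ifs <;> simp
    map_mul' := fun x y => by
      have := HahnSeries.map_mul ((γ : 𝕂 →+* 𝕂) : 𝕂 →ₙ+* 𝕂) (x := x) (y := y)
      exact this
    map_zero' := by
      ext n
      rw [HahnSeries.map_coeff, HahnSeries.coeff_zero, map_zero]
    map_add' := fun x y => by
      ext n
      rw [HahnSeries.map_coeff, HahnSeries.coeff_add, HahnSeries.coeff_add, HahnSeries.map_coeff,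
        HahnSeries.map_coeff, map_add] }

theorem lmap_coeff (γ : 𝕂 ≃+* 𝕂) (f : LaurentSeries 𝕂) (n : ℤ) :
    (lmap γ f).coeff n = γ (f.coeff n) := rfl

theorem LocA_order_eq (f : LaurentSeries 𝕂) (n : ℤ) (h : f.coeff n ≠ 0)
    (h' : ∀ m < n, f.coeff m = 0) : f.order = n := by
  refine le_antisymm (HahnSeries.order_le_of_coeff_ne_zero h) ?_
  by_contra hlt
  have hf : f ≠ 0 := by
    rintro rfl
    exact h HahnSeries.coeff_zero
  exact hf (HahnSeries.coeff_order_eq_zero.1 (h' _ (not_le.1 hlt)))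

theorem lmap_order (γ : 𝕂 ≃+* 𝕂) (f : LaurentSeries 𝕂) : (lmap γ f).order = f.order := by
  by_cases hf : f = 0
  · rw [hf, map_zero]
  · refine LocA_order_eq _ _ ?_ ?_
    · rw [lmap_coeff]
      intro h
      exact hf (HahnSeries.coeff_order_eq_zero.1 ((map_eq_zero_iff γ γ.injective).1 h))
    · intro m hm
      rw [lmap_coeff, HahnSeries.coeff_eq_zero_of_lt_order hm, map_zero]

/-- evaluation of a polynomial over KK at theta + t -/
noncomputable def evT (θ : 𝕂) : 𝕂[X] →+* LaurentSeries 𝕂 :=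
  eval₂RingHom (HahnSeries.C : 𝕂 →+* LaurentSeries 𝕂)
    (HahnSeries.C θ + HahnSeries.single (1 : ℤ) (1 : 𝕂))

/-- the same with values in power series -/
noncomputable def LocA_evP (θ : 𝕂) : 𝕂[X] →+* PowerSeries 𝕂 :=
  eval₂RingHom (PowerSeries.C : 𝕂 →+* PowerSeries 𝕂) (PowerSeries.C θ + PowerSeries.X)

theorem LocA_evT_eq (θ : 𝕂) (p : 𝕂[X]) :
    evT θ p = HahnSeries.ofPowerSeries ℤ 𝕂 (LocA_evP θ p) := by
  have : evT θ = (HahnSeries.ofPowerSeries ℤ 𝕂).comp (LocA_evP θ) := by
    apply Polynomial.ringHom_ext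
    · intro a
      simp only [evT, LocA_evP, coe_eval₂RingHom, eval₂_C, RingHom.comp_apply,
        HahnSeries.ofPowerSeries_C]
    · simp only [evT, LocA_evP, coe_eval₂RingHom, eval₂_X, RingHom.comp_apply, map_add,
        HahnSeries.ofPowerSeries_C, HahnSeries.ofPowerSeries_X]
  rw [this]
  rfl

theorem LocA_evP_coeff (θ : 𝕂) (p : 𝕂[X]) :
    PowerSeries.constantCoeff (LocA_evP θ p) = p.eval θ := by
  have : (PowerSeries.constantCoeff (R := 𝕂)).comp (LocA_evP θ) = evalRingHom θ := by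
    apply Polynomial.ringHom_ext
    · intro a
      simp [LocA_evP]
    · simp [LocA_evP]
  exact RingHom.congr_fun this p

theorem LocA_coe_neg (f : PowerSeries 𝕂) (n : ℤ) (hn : n < 0) :
    (HahnSeries.ofPowerSeries ℤ 𝕂 f).coeff n = 0 := by
  rw [HahnSeries.ofPowerSeries_apply]
  apply HahnSeries.embDomain_of_notMem_range
  rintro ⟨m, hm⟩
  have : (m : ℤ) = n := hm
  omega

theorem LocA_coe_zero (f : PowerSeries 𝕂) :
    (HahnSeries.ofPowerSeries ℤ 𝕂 f).coeff 0 = PowerSeries.constantCoeff f := by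
  have := HahnSeries.ofPowerSeries_apply_coeff (Γ := ℤ) f 0
  rw [Nat.cast_zero] at this
  rw [this, PowerSeries.coeff_zero_eq_constantCoeff]

theorem evT_coeff_zero (θ : 𝕂) (p : 𝕂[X]) : (evT θ p).coeff 0 = p.eval θ := by
  rw [LocA_evT_eq, LocA_coe_zero, LocA_evP_coeff]

/-- p(theta + t) has no negative coefficients -/
theorem evT_coeff_neg (θ : 𝕂) (p : 𝕂[X]) (n : ℤ) (hn : n < 0) : (evT θ p).coeff n = 0 := by
  rw [LocA_evT_eq, LocA_coe_neg _ _ hn]

theorem LocA_factor (θ : 𝕂) (p : 𝕂[X]) (hp : p ≠ 0) : ∃ q : 𝕂[X], q.eval θ ≠ 0 ∧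
    evT θ p = (HahnSeries.single (1 : ℤ) (1 : 𝕂)) ^ (p.rootMultiplicity θ) * evT θ q := by
  obtain ⟨q, hq, hq2⟩ := Polynomial.exists_eq_pow_rootMultiplicity_mul_and_not_dvd p hp θ
  refine ⟨q, fun h => hq2 (dvd_iff_isRoot.2 h), ?_⟩
  conv_lhs => rw [hq, map_mul, map_pow]
  congr 2
  simp [evT]

theorem LocA_order_q (θ : 𝕂) (q : 𝕂[X]) (hq : q.eval θ ≠ 0) : (evT θ q).order = 0 := by
  refine LocA_order_eq _ _ ?_ fun m hm => evT_coeff_neg θ q m hm
  rwa [evT_coeff_zero]

theorem LocA_ne (θ : 𝕂) (p : 𝕂[X]) (hp : p ≠ 0) : evT θ p ≠ 0 := by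
  obtain ⟨q, hq, h⟩ := LocA_factor θ p hp
  rw [h]
  refine mul_ne_zero (pow_ne_zero _ ?_) ?_
  · exact HahnSeries.single_ne_zero one_ne_zero
  · intro h0
    apply hq
    rw [← evT_coeff_zero, h0, HahnSeries.coeff_zero]

/-- the order at t = 0 of p(theta + t) is the root multiplicity of theta:
p = (X - theta)^m q, q(theta) not 0. In particular evT is injective. -/
theorem evT_order (θ : 𝕂) (p : 𝕂[X]) :
    (evT θ p).order = (p.rootMultiplicity θ : ℤ) := by
  by_cases hp : p = 0
  · rw [hp, map_zero, HahnSeries.order_zero, rootMultiplicity_zero]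
    rfl
  · obtain ⟨q, hq, h⟩ := LocA_factor θ p hp
    have hq0 : evT θ q ≠ 0 := LocA_ne θ q (by
      rintro rfl
      exact hq (by simp))
    rw [h, HahnSeries.order_mul (pow_ne_zero _ (HahnSeries.single_ne_zero one_ne_zero)) hq0,
      LocA_order_q θ q hq, HahnSeries.order_pow, HahnSeries.order_single one_ne_zero]
    simp

theorem evT_injective (θ : 𝕂) : Function.Injective (evT θ) := by
  rw [injective_iff_map_eq_zero]
  intro p hp
  by_contra h
  exact LocA_ne θ p h hp

/-- lmap fixes p(theta + t) if gamma fixes theta and the coefficients of p -/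
theorem lmap_evT (γ : 𝕂 ≃+* 𝕂) (θ : 𝕂) (hθ : γ θ = θ) (p : 𝕂[X]) :
    lmap γ (evT θ p) = evT θ (p.map (γ : 𝕂 →+* 𝕂)) := by
  have hs : ∀ (n : ℤ) (a : 𝕂), lmap γ (HahnSeries.single n a) = HahnSeries.single n (γ a) := by
    intro n a
    ext m
    rw [lmap_coeff, HahnSeries.coeff_single, HahnSeries.coeff_single]
    split_ifs <;> simp
  have : (lmap γ).comp (evT θ) = (evT θ).comp (mapRingHom (γ : 𝕂 →+* 𝕂)) := by
    apply Polynomial.ringHom_ext
    · intro a
      simp only [RingHom.comp_apply, evT, coe_eval₂RingHom, eval₂_C, coe_mapRingHom, map_C]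
      exact hs 0 a
    · simp only [RingHom.comp_apply, evT, coe_eval₂RingHom, eval₂_X, coe_mapRingHom, map_X,
        map_add]
      congr 1
      · exact (hs 0 θ).trans (by rw [hθ]; rfl)
      · rw [hs, map_one]
  exact RingHom.congr_fun this p

/-- N-th roots of p(theta + t) for p(theta) not 0, N not 0 in KK, KK algebraically closed: write
p(theta + t) = p(theta) (1 + t u); (1 + t u) has an N-th root in KK[[t]]: Hensel's lemma for
PowerSeries (HenselianLocalRing instance / IsAdicComplete), or the recursion, or binomial series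
for N invertible. -/
theorem exists_root_evT [IsAlgClosed 𝕂] (θ : 𝕂) (p : 𝕂[X]) (hp : p.eval θ ≠ 0) (N : ℕ)
    (hN : (N : 𝕂) ≠ 0) : ∃ f : LaurentSeries 𝕂, f ^ N = evT θ p := by
  have hN0 : 0 < N := by
    rcases Nat.eq_zero_or_pos N with h | h
    · rw [h] at hN
      simp at hN
    · exact h
  obtain ⟨s, hs⟩ := IsAlgClosed.exists_pow_nat_eq (p.eval θ) hN0
  have hs0 : s ≠ 0 := by
    rintro rfl
    rw [zero_pow hN0.ne'] at hs
    exact hp hs.symm
  let u := LocA_evP θ p
  let f : (PowerSeries 𝕂)[X] := X ^ N - C u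
  have hmonic : f.Monic := monic_X_pow_sub_C u hN0.ne'
  obtain ⟨a, ha, -⟩ := HenselianRing.is_henselian (R := PowerSeries 𝕂)
    (I := Ideal.span {PowerSeries.X}) f hmonic (PowerSeries.C s) (by
      rw [Ideal.mem_span_singleton, PowerSeries.X_dvd_iff]
      simp only [f, eval_sub, eval_pow, eval_X, eval_C, map_sub, map_pow,
        PowerSeries.constantCoeff_C]
      rw [LocA_evP_coeff, hs, sub_self]) (by
      apply IsUnit.map
      rw [PowerSeries.isUnit_iff_constantCoeff]
      have h1 : (derivative f).eval (PowerSeries.C s) =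
          (N : PowerSeries 𝕂) * (PowerSeries.C s) ^ (N - 1) := by
        simp [f, derivative_X_pow]
      rw [h1, map_mul, map_pow, PowerSeries.constantCoeff_C, map_natCast]
      exact isUnit_iff_ne_zero.2 (mul_ne_zero hN (pow_ne_zero _ hs0)))
  refine ⟨HahnSeries.ofPowerSeries ℤ 𝕂 a, ?_⟩
  rw [← map_pow, LocA_evT_eq]
  congr 1
  have h1 : a ^ N - u = 0 := by
    have : f.eval a = 0 := ha
    simpa [f] using this
  exact sub_eq_zero.1 h1

/-- an N-th root of p(theta + t), p(theta) not 0, has order 0 and its constant coefficient is an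
N-th root of p(theta) (it is a unit of KK[[t]]). -/
theorem root_evT (θ : 𝕂) (p : 𝕂[X]) (hp : p.eval θ ≠ 0) (N : ℕ) (hN : 0 < N)
    (f : LaurentSeries 𝕂) (hf : f ^ N = evT θ p) :
    f.order = 0 ∧ f.coeff 0 ^ N = p.eval θ := by
  have hp0 : p ≠ 0 := by
    rintro rfl
    exact hp (by simp)
  have hf0 : f ≠ 0 := by
    rintro rfl
    rw [zero_pow hN.ne'] at hf
    exact LocA_ne θ p hp0 hf.symm
  have h1 : f.order = 0 := by
    have h2 := congrArg HahnSeries.order hf
    rw [HahnSeries.order_pow, LocA_order_q θ p hp, smul_eq_zero] at h2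
    rcases h2 with h2 | h2
    · omega
    · exact h2
  refine ⟨h1, ?_⟩
  have h3 : ∀ n : ℕ, (f ^ n).coeff 0 = f.coeff 0 ^ n := by
    intro n
    induction n with
    | zero => simp
    | succ n ih =>
      have h4 : (f ^ n).order = 0 := by rw [HahnSeries.order_pow, h1, smul_zero]
      have h5 := HahnSeries.coeff_mul_order_add_order (f ^ n) f
      rw [h4, h1, add_zero] at h5
      rw [pow_succ, h5, pow_succ, ← ih, HahnSeries.leadingCoeff_eq, HahnSeries.leadingCoeff_eq,
        h4, h1]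
  rw [← h3, hf, evT_coeff_zero]

end

end W42
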