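import Pool.Agent.W_42fc02_h90.LZC
import Pool.Agent.W_42fc02_h7.LzE
import Pool.Agent.W_42fc02_h7.Pt1

/-!
Val: the discrete valuation ring at a crossing. R = k[X][Y] (Polynomial (Polynomial k)),
kappa = Frac k[X], theta in KK a root of P_j; ev : R -> KK, X -> X, Y -> theta.
S = local ring of R / P_j at m, a discrete valuation ring with uniformizer P_(i0) by
Pool.Agent.W_42fc02_h7.exists_dvr.
-/

namespace W42

open Polynomial

/-- in an extension of degree prime to l of the finite field k the l-part of the multiplicative group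
does not grow: |k'| - 1 = (q - 1)(1 + q + .. + q^(r-1)), second factor = r mod l. -/
theorem no_root {k k' : Type} [Field k] [Finite k] [Field k'] [Algebra k k']
    (l e : ℕ) (hl : l.Prime) (he : 0 < e)
    (hq : ¬ l ^ (e + 1) ∣ Nat.card k - 1) (ζ : k) (hζ : IsPrimitiveRoot ζ (l ^ e)) (r : ℕ)
    (hr : ¬ l ∣ r) (hcard : Nat.card k' = Nat.card k ^ r) (z : k') (m : ℕ)
    (hm : Nat.Coprime m l) : z ^ l ≠ algebraMap k k' (ζ ^ m) := by
  intro hz
  obtain ⟨e, rfl⟩ : ∃ e', e = e' + 1 := ⟨e - 1, by omega⟩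
  have : Fact l.Prime := ⟨hl⟩
  have hprim : IsPrimitiveRoot (z ^ l) (l ^ (e + 1)) := by
    rw [hz, map_pow]
    exact (hζ.map_of_injective (algebraMap k k').injective).pow_of_coprime _
      (Nat.Coprime.pow_right _ hm)
  have hord : orderOf z = l ^ (e + 2) := by
    apply orderOf_eq_prime_pow
    · rw [pow_succ', pow_mul]
      intro h
      have h1 := hprim.dvd_of_pow_eq_one _ h
      have h2 := (Nat.pow_dvd_pow_iff_le_right hl.one_lt).1 h1
      omega
    · rw [pow_succ', pow_mul]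
      exact hprim.pow_eq_one
  have hz0 : z ≠ 0 := by
    intro h
    rw [h, orderOf_eq_zero_iff'.2] at hord
    · exact (pow_pos hl.pos _).ne hord
    · intro n hn
      rw [zero_pow hn.ne']
      exact zero_ne_one
  have h3 : orderOf (Units.mk0 z hz0) = orderOf z := by
    rw [← orderOf_units, Units.val_mk0]
  have h4 : l ^ (e + 2) ∣ Nat.card k ^ r - 1 := by
    rw [← hord, ← hcard, ← Nat.card_units, ← h3]
    exact orderOf_dvd_natCard _
  have h5 : l ∣ Nat.card k - 1 := by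
    have h6 : orderOf ζ = l ^ (e + 1) := hζ.eq_orderOf.symm
    have hζ0 : ζ ≠ 0 := hζ.ne_zero (pow_pos hl.pos _).ne'
    have h7 : orderOf (Units.mk0 ζ hζ0) = orderOf ζ := by
      rw [← orderOf_units, Units.val_mk0]
    have h8 : orderOf (Units.mk0 ζ hζ0) ∣ Nat.card kˣ := orderOf_dvd_natCard _
    rw [h7, h6, Nat.card_units] at h8
    exact (dvd_pow_self l (Nat.succ_ne_zero e)).trans h8
  have hq1 : 1 ≤ Nat.card k := Nat.card_pos
  apply hq
  -- factorisation
  have h9 : ((Nat.card k ^ r - 1 : ℕ) : ℤ) = (∑ i ∈ Finset.range r, (Nat.card k : ℤ) ^ i) *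
      ((Nat.card k - 1 : ℕ) : ℤ) := by
    rw [Nat.cast_sub (Nat.one_le_pow _ _ hq1), Nat.cast_sub hq1]
    push_cast
    rw [geom_sum_mul]
  have h10 : ((l ^ (e + 2) : ℕ) : ℤ) ∣ (∑ i ∈ Finset.range r, (Nat.card k : ℤ) ^ i) *
      ((Nat.card k - 1 : ℕ) : ℤ) := by
    rw [← h9]
    exact_mod_cast h4
  have h11 : ¬ (l : ℤ) ∣ ∑ i ∈ Finset.range r, (Nat.card k : ℤ) ^ i := by
    intro h
    have h12 : ∑ i ∈ Finset.range r, (Nat.card k : ℤ) ^ i ≡ r [ZMOD l] := by
      have h13 : (Nat.card k : ℤ) ≡ 1 [ZMOD l] := by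
        apply Int.ModEq.symm
        rw [Int.modEq_iff_dvd]
        have h14 : ((l : ℕ) : ℤ) ∣ ((Nat.card k - 1 : ℕ) : ℤ) := by exact_mod_cast h5
        rw [Nat.cast_sub hq1] at h14
        simpa using h14
      have h15 : ∀ n : ℕ, ∑ i ∈ Finset.range n, (Nat.card k : ℤ) ^ i ≡ n [ZMOD l] := by
        intro n
        induction n with
        | zero => simp
        | succ n ih =>
          rw [Finset.sum_range_succ]
          push_cast
          refine Int.ModEq.add ih ?_
          simpa using h13.pow n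
      exact h15 r
    have h16 : (l : ℤ) ∣ r := (Int.ModEq.dvd_iff h12).1 h
    exact hr (by exact_mod_cast h16)
  have h17 : IsCoprime ((l ^ (e + 2) : ℕ) : ℤ) (∑ i ∈ Finset.range r, (Nat.card k : ℤ) ^ i) := by
    push_cast
    apply IsCoprime.pow_left
    exact ((Nat.prime_iff_prime_int.1 hl).coprime_iff_not_dvd).2 h11
  have h18 := h17.dvd_of_dvd_mul_left h10
  have h19 : e + 1 + 1 = e + 2 := rfl
  rw [h19]
  exact_mod_cast h18

/-- the kernel of evaluation at a root theta of the prime P of positive degree in Y is (P). -/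
theorem ker_ev {k κ 𝕂 : Type} [Field k] [Field κ] [Algebra k[X] κ] [IsFractionRing k[X] κ]
    [Field 𝕂] [Algebra κ 𝕂] (P : k[X][X]) (hP : Prime P) (θ : 𝕂)
    (hθ : aeval θ (P.map (algebraMap k[X] κ)) = 0) (f : k[X][X]) :
    aeval θ (f.map (algebraMap k[X] κ)) = 0 ↔ P ∣ f := by
  have hinj : Function.Injective (algebraMap k[X] κ) := IsFractionRing.injective _ _
  have hC : ∀ c : k[X], aeval θ ((C c : k[X][X]).map (algebraMap k[X] κ)) = 0 → c = 0 := by
    intro c hc
    rw [Polynomial.map_C, aeval_C, map_eq_zero_iff _ (algebraMap κ 𝕂).injective,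
      map_eq_zero_iff _ hinj] at hc
    exact hc
  constructor
  · intro hf
    by_contra hPf
    have hd : P.natDegree ≠ 0 := by
      intro h0
      have h1 := eq_C_of_natDegree_eq_zero h0
      rw [h1] at hθ
      have h2 := hC _ hθ
      rw [h2, map_zero] at h1
      exact hP.ne_zero h1
    obtain ⟨a, b, c, hc0, hab⟩ := Pool.Agent.W_42fc02_h7.exists_bezout hP hd hPf
    apply hc0
    apply hC
    rw [← hab, Polynomial.map_add, Polynomial.map_mul, Polynomial.map_mul, map_add, map_mul,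
      map_mul, hθ, hf, mul_zero, mul_zero, add_zero]
  · rintro ⟨g, rfl⟩
    rw [Polynomial.map_mul, map_mul, hθ, zero_mul]

theorem crossVal {k κ 𝕂 : Type} [Field k] [Finite k] [Field κ] [Algebra k[X] κ]
    [IsFractionRing k[X] κ] [Field 𝕂] [Algebra κ 𝕂] (l e : ℕ) (hl : l.Prime) (he : 0 < e)
    (hq : ¬ l ^ (e + 1) ∣ Nat.card k - 1) (ζ₀ : k) (hζ : IsPrimitiveRoot ζ₀ (l ^ e))
    (P : ℕ → k[X][X]) (hP : ∀ s, Prime (P s)) (i₀ j : ℕ) (hna : ¬ P j ∣ P i₀)
    (m : Ideal k[X][X]) (hm : m.IsMaximal) (hsup : Ideal.span {P i₀, P j} ⊔ m ^ 2 = m)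
    (hs : ∀ s < i₀, s ≠ j → P s ∉ m)
    (hr : ∃ r : ℕ, ¬ l ∣ r ∧ Nat.card (k[X][X] ⧸ m) = Nat.card k ^ r) (θ : 𝕂)
    (hθ : aeval θ ((P j).map (algebraMap k[X] κ)) = 0) :
    CrossVal κ l (algebraMap k[X] κ (C ζ₀)) θ
      (fun s => aeval θ ((P s).map (algebraMap k[X] κ))) i₀ j := by
  set E := IntermediateField.adjoin κ {θ} with hE
  let φ : k[X][X] →+* E :=
    ((aeval (IntermediateField.AdjoinSimple.gen κ θ) : κ[X] →ₐ[κ] E) : κ[X] →+* E).comp
      (mapRingHom (algebraMap k[X] κ))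
  have hφ : ∀ f : k[X][X], algebraMap E 𝕂 (φ f) = aeval θ (f.map (algebraMap k[X] κ)) := by
    intro f
    show algebraMap E 𝕂 (aeval (IntermediateField.AdjoinSimple.gen κ θ)
      (f.map (algebraMap k[X] κ))) = _
    rw [← aeval_algebraMap_apply]
    rfl
  have hker : RingHom.ker φ = Ideal.span {P j} := by
    ext f
    rw [RingHom.mem_ker, Ideal.mem_span_singleton, ← ker_ev (P j) (hP j) θ hθ f, ← hφ,
      map_eq_zero_iff _ (algebraMap E 𝕂).injective]
  have hfrac' : ∀ x : 𝕂, x ∈ E → ∃ f g : k[X][X], algebraMap E 𝕂 (φ g) ≠ 0 ∧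
      x = algebraMap E 𝕂 (φ f) / algebraMap E 𝕂 (φ g) := by
    intro x hx
    induction hx using IntermediateField.adjoin_induction with
    | mem y hy =>
      rw [Set.mem_singleton_iff] at hy
      refine ⟨X, 1, by simp, ?_⟩
      rw [hφ, hφ, hy]
      simp
    | algebraMap y =>
      obtain ⟨a, b, hb, rfl⟩ := IsFractionRing.div_surjective (A := k[X]) y
      have hb0 : b ≠ 0 := nonZeroDivisors.ne_zero hb
      refine ⟨C a, C b, ?_, ?_⟩
      · rw [hφ, Polynomial.map_C, aeval_C, Ne, map_eq_zero_iff _ (algebraMap κ 𝕂).injective,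
          map_eq_zero_iff _ (IsFractionRing.injective k[X] κ)]
        exact hb0
      · rw [hφ, hφ, Polynomial.map_C, aeval_C, Polynomial.map_C, aeval_C, map_div₀]
    | add y z _ _ hy hz =>
      obtain ⟨f, g, hg, rfl⟩ := hy
      obtain ⟨f', g', hg', rfl⟩ := hz
      refine ⟨f * g' + f' * g, g * g', ?_, ?_⟩
      · rw [map_mul, map_mul]
        exact mul_ne_zero hg hg'
      · rw [map_add, map_mul, map_mul, map_mul, map_add, map_mul, map_mul, map_mul]
        field_simp
    | inv y _ hy =>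
      obtain ⟨f, g, hg, rfl⟩ := hy
      by_cases hf : algebraMap E 𝕂 (φ f) = 0
      · exact ⟨0, 1, by simp, by rw [hf]; simp⟩
      · exact ⟨g, f, hf, by rw [inv_div]⟩
    | mul y z _ _ hy hz =>
      obtain ⟨f, g, hg, rfl⟩ := hy
      obtain ⟨f', g', hg', rfl⟩ := hz
      refine ⟨f * f', g * g', ?_, ?_⟩
      · rw [map_mul, map_mul]
        exact mul_ne_zero hg hg'
      · rw [map_mul, map_mul, map_mul, map_mul]
        field_simp
  have hfrac : ∀ x : E, ∃ f g, x = φ f / φ g := by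
    intro x
    obtain ⟨f, g, -, hfg⟩ := hfrac' (x : 𝕂) x.2
    refine ⟨f, g, ?_⟩
    apply (algebraMap E 𝕂).injective
    rw [map_div₀]
    exact hfg
  obtain ⟨S, i1, i2, i3, i4, i5, ι, hι, hιu, hιi, ⟨eq⟩⟩ :=
    Pool.Agent.W_42fc02_h7.exists_dvr (P := P i₀) (Q := P j) hm
      ((Ideal.span_singleton_prime (hP j).ne_zero).2 (hP j))
      (fun h => hna (Ideal.mem_span_singleton.1 h)) hsup φ hker hfrac
  refine ⟨S, i1, i2, i3, i4, i5, fun s => ι (P s), ι (C (C ζ₀)), ?_, ?_, hιi,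
    fun s h1 h2 => hιu _ (hs s h1 h2), ?_⟩
  · intro s
    rw [hι, hφ]
  · rw [hι, hφ, Polynomial.map_C, aeval_C]
  · intro v n hn
    by_contra hcon
    let algk : Algebra k (IsLocalRing.ResidueField S) :=
      ((IsLocalRing.residue S).comp (ι.comp ((C : k[X] →+* k[X][X]).comp C))).toAlgebra
    obtain ⟨r, hr1, hr2⟩ := hr
    refine no_root l e hl he hq ζ₀ hζ r hr1 ?_ (IsLocalRing.residue S v) n hn ?_
    · rw [← hr2]
      exact Nat.card_congr eq.symm.toEquiv
    · have h1 : IsLocalRing.residue S (v ^ l - ι (C (C ζ₀)) ^ n) = 0 := by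
        rw [IsLocalRing.residue_eq_zero_iff]
        exact (IsLocalRing.mem_maximalIdeal _).2 hcon
      rw [map_sub, sub_eq_zero, map_pow, map_pow] at h1
      rw [h1, map_pow]
      rfl

end W42
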