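import Pool.Agent.W_42fc02_h90.ExpD
import Pool.Agent.W_42fc02_h90.GenB
import Pool.Agent.W_42fc02_h90.KillB
import Pool.Agent.W_42fc02_h90.Val
import Pool.Agent.W_42fc02_h7.Seq

/-!
MainA: the theorem for a prime power N = l^e exactly dividing q - 1, in the two-fibration setting.

P = the sequence of exists_crossing_sequence k l (R = k[X][Y]); p1 s = (P s).map (algebraMap k[X] k1),
p2 s = (Bivariate.swap (P s)).map (algebraMap k[X] k2).
fibSeq: ne_zero: injectivity of k[X] -> kappa; coprime: ker_ev (a common root would give P s | P t, so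
they are associated); cross: the maximal ideal of the pair {i0, j} (the condition is about
s < max, s not min) and crossVal. For the second fibration apply it to the swapped sequence: all
hypotheses on P are stable under Bivariate.swap (an algebra automorphism of R: map the maximal
ideals; IsPt, Prime, Associated).
-/

namespace W42

open Polynomial

/-- the hypotheses on the sequence used for the exponent -/
structure CrossSeq (k : Type) [Field k] (l : ℕ) (P : ℕ → k[X][X]) : Prop where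
  prime : ∀ i, Prime (P i)
  na : ∀ i j, i ≠ j → ¬ Associated (P i) (P j)
  cross : ∀ i j, i < j → ∃ m : Ideal k[X][X], m.IsMaximal ∧
    (∃ r : ℕ, ¬ l ∣ r ∧ Nat.card (k[X][X] ⧸ m) = Nat.card k ^ r) ∧
    Ideal.span {P i, P j} ⊔ m ^ 2 = m ∧ ∀ s, s < j → s ≠ i → P s ∉ m

theorem CrossSeq.swap {k : Type} [Field k] {l : ℕ} {P : ℕ → k[X][X]} (h : CrossSeq k l P) :
    CrossSeq k l (fun s => Bivariate.swap (P s)) := by
  let f : k[X][X] ≃+* k[X][X] := (Bivariate.swap (R := k)).toRingEquiv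
  have hf : ∀ p, Bivariate.swap p = f p := fun p => rfl
  refine ⟨fun i => ?_, fun i j hij => ?_, fun i j hij => ?_⟩
  · rw [hf]
    exact (MulEquiv.prime_iff f.toMulEquiv).mpr (h.prime i)
  · intro ha
    apply h.na i j hij
    simp only [hf] at ha
    have := ha.map (f.symm : k[X][X] →* k[X][X])
    simpa using this
  · obtain ⟨m, hm, ⟨r, hr, hr'⟩, hsup, hs⟩ := h.cross i j hij
    have hmem : ∀ p, f p ∈ m.map (f : k[X][X] →+* k[X][X]) ↔ p ∈ m := by
      intro p
      rw [Ideal.map_coe, Ideal.mem_map_of_equiv]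
      constructor
      · rintro ⟨x, hx, hxp⟩
        rw [← f.injective hxp]
        exact hx
      · intro hp
        exact ⟨p, hp, rfl⟩
    refine ⟨m.map (f : k[X][X] →+* k[X][X]), ?_, ⟨r, hr, ?_⟩, ?_, ?_⟩
    · haveI := hm
      exact Ideal.map_isMaximal_of_equiv f
    · rw [← hr']
      exact (Nat.card_congr (Ideal.quotientEquiv m _ f rfl).toEquiv).symm
    · conv_rhs => rw [← hsup]
      rw [Ideal.map_sup, Ideal.map_pow, Ideal.map_span]
      congr 2
      simp only [Set.image_pair]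
      rfl
    · intro s hs1 hs2 hs3
      rw [hf, hmem] at hs3
      exact hs s hs1 hs2 hs3

theorem CrossSeq.fibSeq {k κ 𝕂 : Type} [Field k] [Finite k] [Field κ] [Algebra k[X] κ]
    [IsFractionRing k[X] κ] [Field 𝕂] [Algebra κ 𝕂] {l e : ℕ} (hl : l.Prime) (he : 0 < e)
    (hq : ¬ l ^ (e + 1) ∣ Nat.card k - 1) {ζ₀ : k} (hζ : IsPrimitiveRoot ζ₀ (l ^ e))
    {P : ℕ → k[X][X]} (h : CrossSeq k l P) :
    FibSeq κ 𝕂 l (algebraMap k[X] κ (C ζ₀)) (fun s => (P s).map (algebraMap k[X] κ)) := by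
  have hdvd : ∀ i j, i ≠ j → ¬ P i ∣ P j := by
    intro i j hij hd
    exact h.na i j hij ((h.prime i).associated_of_dvd (h.prime j) hd)
  refine ⟨fun s => ?_, fun s t hst θ h1 h2 => ?_, fun j θ hj i₀ hij => ?_⟩
  · rw [Polynomial.map_ne_zero_iff (IsFractionRing.injective k[X] κ)]
    exact (h.prime s).ne_zero
  · exact hdvd s t hst ((ker_ev (P s) (h.prime s) θ h1 (P t)).mp h2)
  · rcases lt_or_gt_of_ne hij with hlt | hlt
    · obtain ⟨m, hm, hr, hsup, hs⟩ := h.cross i₀ j hlt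
      exact crossVal l e hl he hq ζ₀ hζ P h.prime i₀ j (hdvd j i₀ hij.symm) m hm hsup
        (fun s hs1 _ => hs s (hs1.trans hlt) hs1.ne) hr θ hj
    · obtain ⟨m, hm, hr, hsup, hs⟩ := h.cross j i₀ hlt
      rw [Set.pair_comm] at hsup
      exact crossVal l e hl he hq ζ₀ hζ P h.prime i₀ j (hdvd j i₀ hij.symm) m hm hsup
        (fun s hs1 hs2 => hs s hs1 hs2) hr θ hj

section
variable (k κ₁ κ₂ F : Type) {Ω : Type} [Field k] [Field κ₁] [Field κ₂] [Field F] [Field Ω]
  [Algebra k κ₁] [Algebra k[X] κ₁] [IsScalarTower k k[X] κ₁] [IsFractionRing k[X] κ₁]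
  [Algebra κ₁ F] [Algebra κ₁[X] F] [IsScalarTower κ₁ κ₁[X] F] [IsFractionRing κ₁[X] F]
  [Algebra k κ₂] [Algebra k[X] κ₂] [IsScalarTower k k[X] κ₂] [IsFractionRing k[X] κ₂]
  [Algebra κ₂ F] [Algebra κ₂[X] F] [IsScalarTower κ₂ κ₂[X] F] [IsFractionRing κ₂[X] F]
  [Algebra F Ω] [Algebra κ₁ Ω] [IsScalarTower κ₁ F Ω] [Algebra κ₂ Ω] [IsScalarTower κ₂ F Ω]
  [Algebra k Ω] [IsScalarTower k κ₁ Ω] [IsScalarTower k κ₂ Ω] [IsGalois F Ω] [IsSepClosed Ω]

/-- the ring homomorphism k[X][Y] -> F: X -> x, Y -> y; F is its fraction field, and through the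
swap it agrees with the second fibration. -/
noncomputable def evF : k[X][X] →+* F :=
  (algebraMap κ₁[X] F).comp (mapRingHom (algebraMap k[X] κ₁))

omit [Field Ω] [Algebra k κ₁] [IsScalarTower k k[X] κ₁] [IsFractionRing k[X] κ₁]
  [IsFractionRing κ₁[X] F] [Field κ₂] in
theorem MainA_evF_C (f : k[X]) :
    evF k κ₁ F (C f) = algebraMap κ₁ F (algebraMap k[X] κ₁ f) := by
  unfold evF
  rw [RingHom.comp_apply, coe_mapRingHom, Polynomial.map_C,
    IsScalarTower.algebraMap_apply κ₁ κ₁[X] F]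
  rfl

theorem MainA_evF_X : evF k κ₁ F X = algebraMap κ₁[X] F X := by
  unfold evF
  rw [RingHom.comp_apply, coe_mapRingHom, Polynomial.map_X]

theorem evF_swap
    (hx : algebraMap κ₁ F (algebraMap k[X] κ₁ X) = algebraMap κ₂[X] F X)
    (hy : algebraMap κ₂ F (algebraMap k[X] κ₂ X) = algebraMap κ₁[X] F X)
    (hk : (algebraMap κ₁ F).comp (algebraMap k κ₁) = (algebraMap κ₂ F).comp (algebraMap k κ₂))
    (p : k[X][X]) : evF k κ₂ F (Bivariate.swap p) = evF k κ₁ F p := by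
  have e1 : ∀ f : k[X], evF k κ₁ F (C f) = algebraMap κ₁ F (algebraMap k[X] κ₁ f) :=
    MainA_evF_C k κ₁ F
  have e2 : ∀ f : k[X], evF k κ₂ F (C f) = algebraMap κ₂ F (algebraMap k[X] κ₂ f) :=
    MainA_evF_C k κ₂ F
  have h : (evF k κ₂ F).comp ((Bivariate.swap (R := k)).toRingEquiv : k[X][X] →+* k[X][X]) =
      evF k κ₁ F := by
    apply Polynomial.ringHom_ext'
    · apply Polynomial.ringHom_ext'
      · ext a
        change evF k κ₂ F (Bivariate.swap (C (C a))) = evF k κ₁ F (C (C a))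
        rw [Bivariate.swap_C_C, e1, e2]
        have h1 : algebraMap k[X] κ₁ (C a) = algebraMap k κ₁ a := by
          rw [IsScalarTower.algebraMap_apply k k[X] κ₁]; rfl
        have h2 : algebraMap k[X] κ₂ (C a) = algebraMap k κ₂ a := by
          rw [IsScalarTower.algebraMap_apply k k[X] κ₂]; rfl
        rw [h1, h2]
        exact (RingHom.congr_fun hk a).symm
      · change evF k κ₂ F (Bivariate.swap (C X)) = evF k κ₁ F (C X)
        rw [Bivariate.swap_X, e1, hx]
        exact MainA_evF_X k κ₂ F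
    · change evF k κ₂ F (Bivariate.swap X) = evF k κ₁ F X
      rw [Bivariate.swap_Y, e2, hy]
      exact (MainA_evF_X k κ₁ F).symm
  exact RingHom.congr_fun h p

theorem evF_isFractionRing :
    @IsFractionRing k[X][X] _ F _ (evF k κ₁ F).toAlgebra := by
  letI : Algebra k[X][X] F := (evF k κ₁ F).toAlgebra
  have hinj : Function.Injective (evF k κ₁ F) := by
    unfold evF
    exact (IsFractionRing.injective κ₁[X] F).comp
      (Polynomial.map_injective _ (IsFractionRing.injective k[X] κ₁))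
  haveI : FaithfulSMul k[X][X] F := (faithfulSMul_iff_algebraMap_injective _ _).mpr hinj
  have hden : ∀ p : κ₁[X], ∃ (q : k[X][X]) (b : k[X]), b ≠ 0 ∧
      algebraMap κ₁[X] F p = evF k κ₁ F q / evF k κ₁ F (C b) := by
    intro p
    obtain ⟨b, hb⟩ := IsLocalization.integerNormalization_map_to_map (nonZeroDivisors k[X]) p
    have hb0 : (b : k[X]) ≠ 0 := nonZeroDivisors.ne_zero b.2
    refine ⟨IsLocalization.integerNormalization (nonZeroDivisors k[X]) p, b, hb0, ?_⟩
    have hb1 : evF k κ₁ F (C (b : k[X])) ≠ 0 := by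
      rw [Ne, map_eq_zero_iff _ hinj]
      simpa using hb0
    rw [eq_div_iff hb1, MainA_evF_C]
    unfold evF
    rw [RingHom.comp_apply, coe_mapRingHom, hb, IsScalarTower.algebraMap_apply κ₁ κ₁[X] F,
      ← map_mul, mul_comm]
    congr 1
    rw [Algebra.smul_def]
    rfl
  apply IsFractionRing.of_field
  intro z
  obtain ⟨p, q, hq, rfl⟩ := IsFractionRing.div_surjective (A := κ₁[X]) z
  obtain ⟨p', b, hb, hp⟩ := hden p
  obtain ⟨q', b', hb', hq'⟩ := hden q
  refine ⟨p' * C b', q' * C b, ?_⟩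
  change _ = evF k κ₁ F _ / evF k κ₁ F _
  rw [hp, hq', map_mul, map_mul]
  have h1 : evF k κ₁ F (C b) ≠ 0 := by
    rw [Ne, map_eq_zero_iff _ hinj]
    simpa using hb
  have h2 : evF k κ₁ F (C b') ≠ 0 := by
    rw [Ne, map_eq_zero_iff _ hinj]
    simpa using hb'
  field_simp

theorem MainA_root (k : Type) [Field k] [Finite k] (N : ℕ) (hN : N ∣ Nat.card k - 1) :
    ∃ ζ : k, IsPrimitiveRoot ζ N := by
  haveI := Fintype.ofFinite k
  obtain ⟨g, hg⟩ := IsCyclic.exists_ofOrder_eq_natCard (α := kˣ)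
  have h1 : Nat.card kˣ = Nat.card k - 1 := Nat.card_units k
  obtain ⟨a, ha⟩ := hN
  have h2 : IsPrimitiveRoot (g : k) (Nat.card k - 1) := by
    rw [← h1, ← hg]
    exact (IsPrimitiveRoot.orderOf g).map_of_injective (f := Units.coeHom k) Units.val_injective
  have hpos : 0 < Nat.card k - 1 := by
    have : 1 < Nat.card k := Finite.one_lt_card
    omega
  exact ⟨(g : k) ^ a, h2.pow hpos (by rw [ha, mul_comm])⟩

theorem MainA_ne (k : Type) [Field k] [Finite k] (N : ℕ) (hN : N ∣ Nat.card k - 1) :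
    (N : k) ≠ 0 := by
  haveI := Fintype.ofFinite k
  intro h
  obtain ⟨a, ha⟩ := hN
  have h1 : ((Nat.card k - 1 : ℕ) : k) = 0 := by
    rw [ha, Nat.cast_mul, h, zero_mul]
  have h2 : ((Nat.card k : ℕ) : k) = 0 := by
    rw [Nat.card_eq_fintype_card]
    exact FiniteField.cast_card_eq_zero k
  have h3 : 1 ≤ Nat.card k := Nat.card_pos
  rw [Nat.cast_sub h3, h2, Nat.cast_one, zero_sub, neg_eq_zero] at h1
  exact one_ne_zero h1

theorem main_l [Finite k] 
    (hx : algebraMap κ₁ F (algebraMap k[X] κ₁ X) = algebraMap κ₂[X] F X)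
    (hy : algebraMap κ₂ F (algebraMap k[X] κ₂ X) = algebraMap κ₁[X] F X)
    (hk : (algebraMap κ₁ F).comp (algebraMap k κ₁) = (algebraMap κ₂ F).comp (algebraMap k κ₂))
    (l e : ℕ) (hl : l.Prime) (he : 0 < e) (hq : l ^ e ∣ Nat.card k - 1)
    (hq' : ¬ l ^ (e + 1) ∣ Nat.card k - 1) :
    ∃ pi : ℕ → Ω, (∀ s, IsRt (l ^ e) F (pi s)) ∧
      ∀ c : Gal(Ω/F) → Gal(Ω/F) → Ωˣ, BC c →
        (Spl (KumL F pi Set.univ) c ↔ BEq (fun σ τ => c σ τ ^ l ^ e) c1) := by
  haveI : Fact l.Prime := ⟨hl⟩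
  obtain ⟨ζ, hζ⟩ := MainA_root k (l ^ e) hq
  have hlk : (l : k) ≠ 0 := MainA_ne k l ((dvd_pow_self l he.ne').trans hq)
  obtain ⟨P, hP1, hP2, hP3, hP4⟩ := Pool.Agent.W_42fc02_h7.exists_crossing_sequence k l hl
  have hseq : CrossSeq k l P := by
    refine ⟨hP1, hP2, fun i j hij => ?_⟩
    obtain ⟨m, ⟨hm, hr⟩, hs, hs'⟩ := hP3 i j hij
    exact ⟨m, hm, hr, hs, hs'⟩
  let ev : k[X][X] →+* F := evF k κ₁ F
  letI : Algebra k[X][X] F := ev.toAlgebra
  haveI : IsFractionRing k[X][X] F := evF_isFractionRing k κ₁ F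
  have hinj : Function.Injective ev := IsFractionRing.injective k[X][X] F
  let ik : k →+* F := (algebraMap κ₁ F).comp (algebraMap k κ₁)
  have hNF : ((l ^ e : ℕ) : F) ≠ 0 := by
    intro h
    apply hlk
    have h1 : (l : F) = 0 := by
      rw [Nat.cast_pow] at h
      exact pow_eq_zero_iff (he.ne') |>.mp h
    apply ik.injective
    rw [map_natCast, map_zero]
    exact h1
  choose pi hpi using fun s => exists_rt (F := F) (Ω := Ω) (l ^ e) hNF (ev (P s))
  have hrt : ∀ s, IsRt (l ^ e) F (pi s) := by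
    intro s
    refine ⟨ev (P s), ?_, hpi s⟩
    rw [Ne, map_eq_zero_iff _ hinj]
    exact (hP1 s).ne_zero
  refine ⟨pi, hrt, fun c hc => ⟨fun hs => ?_, fun hN => ?_⟩⟩
  · have hC₁ : algebraMap k[X] κ₁ (C ζ) = algebraMap k κ₁ ζ := by
      rw [IsScalarTower.algebraMap_apply k k[X] κ₁]; rfl
    have hC₂ : algebraMap k[X] κ₂ (C ζ) = algebraMap k κ₂ ζ := by
      rw [IsScalarTower.algebraMap_apply k k[X] κ₂]; rfl
    have hf₁ := hseq.fibSeq (κ := κ₁) (𝕂 := AlgebraicClosure κ₁) hl he hq' hζ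
    have hf₂ := hseq.swap.fibSeq (κ := κ₂) (𝕂 := AlgebraicClosure κ₂) hl he hq' hζ
    rw [hC₁] at hf₁
    rw [hC₂] at hf₂
    refine exp_zero k κ₁ κ₂ F hx hy l e hl he hlk ζ hζ _ hf₁ _ hf₂ (fun s => ?_) pi hpi hc hs
    exact (evF_swap k κ₁ κ₂ F hx hy hk (P s)).symm
  · have hmem := gen_two k κ₁ F l e he hlk ζ hζ hc hN
    have hζF : IsPrimitiveRoot (algebraMap κ₁ F (algebraMap k κ₁ ζ)) (l ^ e) :=
      hζ.map_of_injective (f := ik) ik.injective
    refine spl_of_symSub (KumL F pi Set.univ) (fun a β hβ => ?_) hmem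
    refine kill (R := k[X][X]) (l ^ e) hNF _ hζF P hP1 hP4 (KumL F pi Set.univ) pi (fun i => ?_)
      hpi a β hβ
    exact IntermediateField.subset_adjoin F _ ⟨i, Set.mem_univ i, rfl⟩

end

end W42
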