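import Pool.Agent.W_42fc02_h90.NormA
import Pool.Agent.W_42fc02_h90.Ts

/-!
NSc: norms are surjective (degree l prime to the characteristic) over finite separable extensions of
K0(y), K0 separably closed.

Proof of nsprop_frac. E = Frac K0[X], E1 / E finite separable, N1 / E1 Galois of degree l,
A := AlgebraicClosure N1, p = ringExpChar K0. K := algebraic closure of K0 in A (IntermediateField
K0 A: algebraicClosure K0 A, algebraically closed since A is). y := image of X is transcendental
over K (it is over K0). E2 := E1 K and N2 := N1 K inside A (IntermediateField.adjoin E1 K,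
adjoin N1 K, or fieldRange sup). RatFunc K -> E2, X -> y (RatFunc.liftRingHom or the algebra
structure from IsFractionRing); E2 is finite over the image K(y): E1 = E(finitely many algebraic
elements), E = K0(y), so E2 = K(y)(these elements). N2 / E2 finite (generated by a basis of
N1 / E1). norm_surj_of_algClosed applies to N2 / E2.
Every z in K has z^(p^m) in K0 for some m (K0 separably closed, so K / K0 is purely inseparable:
IsSepClosed and algebraic gives IsPurelyInseparable), hence every z in E2 (N2) has
z^(p^m) in E1 (N1): the set of such z is a subfield containing K and E1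
(perfectClosure or isPurelyInseparable_adjoin_iff). Then norm_surj_descent
(l and p are coprime because (l : K0) is not 0; hgen: N2 = sum w_i E2 for a basis w of N1 / E1).
-/

set_option autoImplicit false

namespace W42

open Polynomial

theorem NSc_span {F A : Type} [Field F] [Field A] [Algebra F A] {n : ℕ} (b : Fin n → A)
    (hint : ∀ i, IsIntegral F (b i)) (h1 : (1 : A) ∈ Submodule.span F (Set.range b))
    (hmul : ∀ i j, b i * b j ∈ Submodule.span F (Set.range b)) {z : A}
    (hz : z ∈ IntermediateField.adjoin F (Set.range b)) :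
    z ∈ Submodule.span F (Set.range b) := by
  have hm : ∀ x y, x ∈ Submodule.span F (Set.range b) → y ∈ Submodule.span F (Set.range b) →
      x * y ∈ Submodule.span F (Set.range b) := by
    intro x y hx hy
    have : Submodule.span F (Set.range b) * Submodule.span F (Set.range b) ≤
        Submodule.span F (Set.range b) := by
      rw [Submodule.span_mul_span, Submodule.span_le]
      rintro _ ⟨_, ⟨i, rfl⟩, _, ⟨j, rfl⟩, rfl⟩
      exact hmul i j
    exact this (Submodule.mul_mem_mul hx hy)
  have h2 : z ∈ Algebra.adjoin F (Set.range b) := by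
    rw [← IntermediateField.adjoin_toSubalgebra_of_isAlgebraic (by
      rintro _ ⟨i, rfl⟩
      exact (hint i).isAlgebraic)]
    exact hz
  have h3 : Algebra.adjoin F (Set.range b) ≤
      (Submodule.span F (Set.range b)).toSubalgebra h1 hm :=
    Algebra.adjoin_le Submodule.subset_span
  exact h3 h2

/-- a compositum `M F`, `M / F₀` finite, `F₀ → F ⊆ A` -/
theorem NSc_comp {F₀ M F A : Type} [Field F₀] [Field M] [Field F] [Field A] [Algebra F₀ M]
    [Algebra F₀ A] [Algebra M A] [Algebra F A] [IsScalarTower F₀ M A] {n : ℕ}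
    (b : Module.Basis (Fin n) F₀ M) (h : F₀ →+* F)
    (hh : ∀ x : F₀, algebraMap F A (h x) = algebraMap F₀ A x) :
    (∀ x : M, algebraMap M A x ∈
      Submodule.span F (Set.range fun i => algebraMap M A (b i))) ∧
    (∀ z ∈ IntermediateField.adjoin F (Set.range fun i => algebraMap M A (b i)),
      z ∈ Submodule.span F (Set.range fun i => algebraMap M A (b i))) ∧
    FiniteDimensional F
      (IntermediateField.adjoin F (Set.range fun i => algebraMap M A (b i))) := by
  have key : ∀ x : M, algebraMap M A x ∈
      Submodule.span F (Set.range fun i => algebraMap M A (b i)) := by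
    intro x
    rw [← b.sum_repr x, map_sum]
    refine Submodule.sum_mem _ fun i _ => ?_
    rw [Algebra.smul_def, map_mul, ← IsScalarTower.algebraMap_apply, ← hh, ← Algebra.smul_def]
    exact Submodule.smul_mem _ _ (Submodule.subset_span ⟨i, rfl⟩)
  have hfd : FiniteDimensional F₀ M := Module.Finite.of_basis b
  have hint : ∀ i, IsIntegral F (algebraMap M A (b i)) := by
    intro i
    have h1 : IsIntegral F₀ (b i) := Algebra.IsIntegral.isIntegral _
    obtain ⟨p, hp, hp0⟩ := h1
    refine ⟨p.map h, hp.map h, ?_⟩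
    have hc : (algebraMap F A).comp h = (algebraMap M A).comp (algebraMap F₀ M) := by
      ext x
      rw [RingHom.comp_apply, hh, RingHom.comp_apply, ← IsScalarTower.algebraMap_apply]
    rw [eval₂_map, hc, ← hom_eval₂, hp0, map_zero]
  refine ⟨key, fun z hz => ?_, ?_⟩
  · refine NSc_span _ hint ?_ (fun i j => ?_) hz
    · rw [← map_one (algebraMap M A)]
      exact key 1
    · rw [← map_mul]
      exact key _
  · refine IntermediateField.finiteDimensional_adjoin ?_
    rintro _ ⟨i, rfl⟩
    exact hint i

theorem NSc_aux {E E₁ N₁ A Q : Type} [Field E] [Field E₁] [Field N₁] [Field A] [Field Q]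
    [Algebra E E₁] [Algebra E₁ N₁] [Algebra E A] [Algebra E₁ A] [Algebra N₁ A] [Algebra Q A]
    [IsScalarTower E E₁ A] [IsScalarTower E₁ N₁ A] [FiniteDimensional E E₁]
    [FiniteDimensional E₁ N₁] [IsGalois E₁ N₁] (l p : ℕ) [Fact l.Prime] [ExpChar E p]
    (hlp : Nat.Coprime l p) (hfr : Module.finrank E₁ N₁ = l) (h : E →+* Q)
    (hh : ∀ x : E, algebraMap Q A (h x) = algebraMap E A x)
    (hQ : ∀ q : Q, ∃ n : ℕ, algebraMap Q A q ^ p ^ n ∈ (algebraMap E A).range)
    (hsurj : ∀ (E₂ N₂ : Type) [Field E₂] [Field N₂] [Algebra Q E₂] [FiniteDimensional Q E₂]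
      [Algebra E₂ N₂] [FiniteDimensional E₂ N₂] (a : E₂), ∃ z : N₂, Algebra.norm E₂ z = a)
    (a : E₁) : ∃ z : N₁, Algebra.norm E₁ z = a := by
  have hE₁ : ExpChar E₁ p := expChar_of_injective_algebraMap (algebraMap E E₁).injective p
  have hN₁ : ExpChar N₁ p := expChar_of_injective_algebraMap (algebraMap E₁ N₁).injective p
  let c : Module.Basis (Fin (Module.finrank E E₁)) E E₁ := Module.finBasis E E₁
  let b : Module.Basis (Fin l) E₁ N₁ := Module.finBasisOfFinrankEq E₁ N₁ hfr
  -- the field `E₂`
  let E₂ : IntermediateField Q A :=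
    IntermediateField.adjoin Q (Set.range fun i => algebraMap E₁ A (c i))
  obtain ⟨hc1, hc2, hc3⟩ := NSc_comp (F := Q) (A := A) c h hh
  have hE₁E₂ : ∀ x : E₁, algebraMap E₁ A x ∈ E₂ := by
    intro x
    have hle : Submodule.span Q (Set.range fun i => algebraMap E₁ A (c i)) ≤
        Subalgebra.toSubmodule E₂.toSubalgebra :=
      Submodule.span_le.2 (IntermediateField.subset_adjoin Q _)
    exact hle (hc1 x)
  let f₁ : E₁ →+* E₂ := (algebraMap E₁ A).codRestrict E₂ hE₁E₂
  -- the field `N₂`
  let N₂ : IntermediateField E₂ A :=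
    IntermediateField.adjoin E₂ (Set.range fun i => algebraMap N₁ A (b i))
  obtain ⟨hb1, hb2, hb3⟩ := NSc_comp (F := E₂) (A := A) b f₁ (fun x => rfl)
  have hN₁N₂ : ∀ x : N₁, algebraMap N₁ A x ∈ N₂ := by
    intro x
    have hle : Submodule.span E₂ (Set.range fun i => algebraMap N₁ A (b i)) ≤
        Subalgebra.toSubmodule N₂.toSubalgebra :=
      Submodule.span_le.2 (IntermediateField.subset_adjoin E₂ _)
    exact hle (hb1 x)
  -- algebra structures
  let f₂ : N₁ →+* N₂ := (algebraMap N₁ A).codRestrict N₂ hN₁N₂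
  -- perfect closures
  have hpE : ∀ z : E₂, (z : A) ∈ perfectClosure E₁ A := by
    intro z
    have h1 := hc2 z z.2
    rw [Submodule.mem_span_range_iff_exists_fun] at h1
    obtain ⟨g, hg⟩ := h1
    rw [← hg]
    refine sum_mem fun i _ => ?_
    rw [Algebra.smul_def]
    refine mul_mem ?_ ?_
    · rw [mem_perfectClosure_iff_pow_mem p]
      obtain ⟨n, x, hx⟩ := hQ (g i)
      exact ⟨n, algebraMap E E₁ x, by rw [← IsScalarTower.algebraMap_apply, hx]⟩
    · exact (perfectClosure E₁ A).algebraMap_mem _
  have hpN : ∀ z : N₂, (z : A) ∈ perfectClosure N₁ A := by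
    intro z
    have h1 := hb2 z z.2
    rw [Submodule.mem_span_range_iff_exists_fun] at h1
    obtain ⟨g, hg⟩ := h1
    rw [← hg]
    refine sum_mem fun i _ => ?_
    rw [Algebra.smul_def]
    refine mul_mem ?_ ?_
    · rw [mem_perfectClosure_iff_pow_mem p]
      obtain ⟨n, x, hx⟩ := (mem_perfectClosure_iff_pow_mem p).1 (hpE (g i))
      exact ⟨n, algebraMap E₁ N₁ x, by
        rw [← IsScalarTower.algebraMap_apply, hx]
        rfl⟩
    · exact (perfectClosure N₁ A).algebraMap_mem _
  letI a₁ : Algebra E₁ E₂ := f₁.toAlgebra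
  letI a₂ : Algebra N₁ N₂ := f₂.toAlgebra
  letI a₃ : Algebra E₁ N₂ := ((algebraMap E₂ N₂).comp f₁).toAlgebra
  haveI t₁ : IsScalarTower E₁ E₂ N₂ := IsScalarTower.of_algebraMap_eq fun x => rfl
  haveI t₂ : IsScalarTower E₁ N₁ N₂ := IsScalarTower.of_algebraMap_eq fun x => by
    apply Subtype.ext
    change algebraMap E₁ A x = algebraMap N₁ A (algebraMap E₁ N₁ x)
    rw [← IsScalarTower.algebraMap_apply]
  refine norm_surj_descent (E₂ := E₂) (N₂ := N₂) hlp hfr ?_ ?_ ?_ (hsurj E₂ N₂) a
  · intro z
    obtain ⟨n, x, hx⟩ := (mem_perfectClosure_iff_pow_mem p).1 (hpN z)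
    exact ⟨n, x, Subtype.ext hx⟩
  · intro z
    obtain ⟨n, x, hx⟩ := (mem_perfectClosure_iff_pow_mem p).1 (hpE z)
    exact ⟨n, x, Subtype.ext hx⟩
  · intro z
    have h1 := hb2 z z.2
    rw [Submodule.mem_span_range_iff_exists_fun] at h1
    obtain ⟨g, hg⟩ := h1
    refine ⟨fun i => b i, g, ?_⟩
    apply Subtype.ext
    rw [← hg]
    have h3 : ∀ w : Fin l → N₂, ((∑ i, w i : N₂) : A) = ∑ i, ((w i : N₂) : A) :=
      fun w => map_sum N₂.val w Finset.univ
    rw [h3]
    refine Finset.sum_congr rfl fun i _ => ?_
    rw [Algebra.smul_def, mul_comm]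
    rfl

theorem NSc_coprime {K₀ : Type} [Field K₀] (l p : ℕ) [Fact l.Prime] [hp : ExpChar K₀ p]
    (hl : (l : K₀) ≠ 0) : Nat.Coprime l p := by
  rw [Nat.Prime.coprime_iff_not_dvd Fact.out]
  intro hdvd
  rcases hp with _ | ⟨hprime⟩
  · have := (Nat.Prime.one_lt (Fact.out : l.Prime))
    have h1 := Nat.le_of_dvd one_pos hdvd
    omega
  · rw [Nat.prime_dvd_prime_iff_eq Fact.out hprime] at hdvd
    subst hdvd
    exact hl (CharP.cast_eq_zero K₀ l)

theorem NSc_inj {K₀ E A : Type} [Field K₀] [Field E] [Field A] [Algebra K₀[X] E]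
    [IsFractionRing K₀[X] E] [Algebra E A] [Algebra K₀ A]
    (hK₀ : ∀ x : K₀, algebraMap K₀ A x = algebraMap E A (algebraMap K₀[X] E (C x)))
    (K : IntermediateField K₀ A) [Algebra.IsAlgebraic K₀ K] :
    Function.Injective
      (eval₂RingHom (algebraMap K A) (algebraMap E A (algebraMap K₀[X] E X))) := by
  have h1 : Transcendental K₀ (algebraMap E A (algebraMap K₀[X] E X)) := by
    rw [transcendental_iff_injective]
    have h2 : ∀ q : K₀[X], aeval (algebraMap E A (algebraMap K₀[X] E X)) q =
        algebraMap E A (algebraMap K₀[X] E q) := by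
      intro q
      induction q using Polynomial.induction_on' with
      | add p q hp hq => rw [map_add, map_add, map_add, hp, hq]
      | monomial n a =>
        rw [aeval_monomial, hK₀, ← map_pow, ← map_pow, ← map_mul, ← map_mul,
          C_mul_X_pow_eq_monomial]
    intro p q hpq
    rw [h2, h2] at hpq
    exact IsFractionRing.injective K₀[X] E ((algebraMap E A).injective hpq)
  have h3 : Transcendental K (algebraMap E A (algebraMap K₀[X] E X)) := h1.extendScalars _
  rw [transcendental_iff_injective] at h3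
  exact h3

theorem nsprop_frac {K₀ E : Type} [Field K₀] [IsSepClosed K₀] [Field E] [Algebra K₀[X] E]
    [IsFractionRing K₀[X] E] (l : ℕ) [Fact l.Prime] (hl : (l : K₀) ≠ 0) : NSprop l E := by
  intro E₁ N₁ _ _ _ _ _ _ _ _ hfr a
  let A := AlgebraicClosure N₁
  letI aEA : Algebra E A := ((algebraMap E₁ A).comp (algebraMap E E₁)).toAlgebra
  haveI tE : IsScalarTower E E₁ A := IsScalarTower.of_algebraMap_eq fun x => rfl
  letI aKA : Algebra K₀ A := ((algebraMap E A).comp ((algebraMap K₀[X] E).comp C)).toAlgebra
  have hK₀ : ∀ x : K₀, algebraMap K₀ A x = algebraMap E A (algebraMap K₀[X] E (C x)) :=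
    fun x => rfl
  let K : IntermediateField K₀ A := algebraicClosure K₀ A
  haveI hKc : IsAlgClosed K := IsAlgClosure.isAlgClosed K₀
  haveI hKa : Algebra.IsAlgebraic K₀ K := IsAlgClosure.isAlgebraic
  haveI hKp : IsPurelyInseparable K₀ K := inferInstance
  obtain ⟨p, hp⟩ := ExpChar.exists K₀
  haveI hpE : ExpChar E p := expChar_of_injective_ringHom
    (f := (algebraMap K₀[X] E).comp C)
    ((IsFractionRing.injective K₀[X] E).comp C_injective) p
  have hinj := NSc_inj hK₀ K
  let y : A := algebraMap E A (algebraMap K₀[X] E X)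
  let Φ : RatFunc K →+* A := RatFunc.liftRingHom (eval₂RingHom (algebraMap K A) y)
    (nonZeroDivisors_le_comap_nonZeroDivisors_of_injective _ hinj)
  have hΦ : ∀ q : K[X], Φ (algebraMap K[X] (RatFunc K) q) =
      eval₂RingHom (algebraMap K A) y q := by
    intro q
    have := RatFunc.liftRingHom_apply_div (eval₂RingHom (algebraMap K A) y)
      (nonZeroDivisors_le_comap_nonZeroDivisors_of_injective _ hinj) q 1
    rw [map_one, map_one, div_one, div_one] at this
    exact this
  letI aQA : Algebra (RatFunc K) A := Φ.toAlgebra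
  have hginj : Function.Injective
      ((algebraMap K[X] (RatFunc K)).comp (mapRingHom (algebraMap K₀ K))) := by
    refine (IsFractionRing.injective K[X] (RatFunc K)).comp ?_
    exact Polynomial.map_injective _ (algebraMap K₀ K).injective
  let h : E →+* RatFunc K := IsFractionRing.lift hginj
  have hh : ∀ x : E, algebraMap (RatFunc K) A (h x) = algebraMap E A x := by
    have : (algebraMap (RatFunc K) A).comp h = algebraMap E A := by
      apply IsLocalization.ringHom_ext (nonZeroDivisors K₀[X])
      apply Polynomial.ringHom_ext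
      · intro x
        simp only [RingHom.comp_apply]
        rw [IsFractionRing.lift_algebraMap]
        change Φ _ = _
        rw [RingHom.comp_apply, hΦ]
        simp only [coe_mapRingHom, map_C, coe_eval₂RingHom, eval₂_C]
        rfl
      · simp only [RingHom.comp_apply]
        rw [IsFractionRing.lift_algebraMap]
        change Φ _ = _
        rw [RingHom.comp_apply, hΦ]
        simp only [coe_mapRingHom, map_X, coe_eval₂RingHom, eval₂_X]
        rfl
    exact fun x => RingHom.congr_fun this x
  refine NSc_aux (A := A) (Q := RatFunc K) l p (NSc_coprime l p hl) hfr h hh ?_ ?_ a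
  · intro q
    rw [← mem_perfectClosure_iff_pow_mem p]
    have hpoly : ∀ q : K[X], eval₂RingHom (algebraMap K A) y q ∈ perfectClosure E A := by
      intro q
      rw [coe_eval₂RingHom, eval₂_eq_sum_range]
      refine sum_mem fun i _ => mul_mem ?_ (pow_mem ((perfectClosure E A).algebraMap_mem _) i)
      rw [mem_perfectClosure_iff_pow_mem p]
      obtain ⟨n, x, hx⟩ := IsPurelyInseparable.pow_mem K₀ p (q.coeff i)
      refine ⟨n, algebraMap K₀[X] E (C x), ?_⟩
      rw [← map_pow, ← hx, ← hK₀]
      rfl
    have h1 : algebraMap (RatFunc K) A q = eval₂RingHom (algebraMap K A) y q.num /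
        eval₂RingHom (algebraMap K A) y q.denom := by
      conv_lhs => rw [← RatFunc.num_div_denom q]
      rw [map_div₀]
      change Φ _ / Φ _ = _
      rw [hΦ, hΦ]
    rw [h1]
    exact div_mem (hpoly _) (hpoly _)
  · intro E₂ N₂ _ _ _ _ _ _ a₂
    exact norm_surj_of_algClosed (K := K) a₂

end W42
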