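import Pool.Agent.W_42fc02_h90.C1

/-!
NormA: K algebraically closed, E finite over K(t), N / E finite of degree l > 0: the norm is
surjective. Apply c1_zero to the form N(X_1 w_1 + .. + X_l w_l) - a X_0^l of degree l in l + 1
variables (w a basis of N / E; N(..) is the determinant of the generic multiplication matrix:
a homogeneous polynomial of degree l; e.g. Matrix.det of a matrix of linear forms, or
LinearMap.polyCharpoly). If X_0 = 0 then the norm of a nonzero element would be 0.

NormB (frobenius descent): E1 a field of exponential characteristic p, N1 / E1 finite Galois of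
degree l prime to p, E2 / E1 purely inseparable, N2 a field containing E2 and N1 (compatible
over E1) with N2 / E2 of degree l (so N2 = N1 E2, N2 / N1 purely inseparable). If the norm
N2 -> E2 is surjective so is N1 -> E1.
Proof: a = N(z), z in N2; z^(p^m) = image of z1 in N1; N_{N1/E1}(z1) = a^(p^m)
(the norm of N1 / E1 is the restriction of the norm of N2 / E2: a basis of N1 / E1 is a basis of
N2 / E2); a^l is the norm of a in E1; p^m and l are coprime.
-/

set_option autoImplicit false

namespace W42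

/-- the matrix of the multiplication by the generic element -/
noncomputable def NormA_mat {E N : Type} [Field E] [Field N] [Algebra E N] {l : ℕ}
    (w : Module.Basis (Fin l) E N) : Matrix (Fin l) (Fin l) (MvPolynomial (Fin (l + 1)) E) :=
  fun a b => ∑ i : Fin l, MvPolynomial.C (Algebra.leftMulMatrix w (w i) a b) *
    MvPolynomial.X i.castSucc

theorem NormA_hom {E N : Type} [Field E] [Field N] [Algebra E N] {l : ℕ}
    (w : Module.Basis (Fin l) E N) : (NormA_mat w).det.IsHomogeneous l := by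
  rw [Matrix.det_apply']
  refine MvPolynomial.IsHomogeneous.sum _ _ _ fun σ _ => ?_
  have h1 : (∏ i : Fin l, NormA_mat w (σ i) i).IsHomogeneous (∑ _i : Fin l, 1) := by
    refine MvPolynomial.IsHomogeneous.prod _ _ _ fun i _ => ?_
    refine MvPolynomial.IsHomogeneous.sum _ _ _ fun j _ => ?_
    have := (MvPolynomial.isHomogeneous_C (Fin (l + 1))
      (Algebra.leftMulMatrix w (w j) (σ i) i)).mul
      (MvPolynomial.isHomogeneous_X E (j.castSucc))
    rwa [zero_add] at this
  have h2 : ∑ _i : Fin l, 1 = l := by simp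
  rw [h2] at h1
  have h3 : (((Equiv.Perm.sign σ : ℤˣ) : ℤ) : MvPolynomial (Fin (l + 1)) E) =
      MvPolynomial.C (((Equiv.Perm.sign σ : ℤˣ) : ℤ) : E) := by
    rw [map_intCast]
  rw [h3]
  have := (MvPolynomial.isHomogeneous_C (Fin (l + 1))
    ((((Equiv.Perm.sign σ : ℤˣ) : ℤ) : E))).mul h1
  rwa [zero_add] at this

theorem NormA_eval {E N : Type} [Field E] [Field N] [Algebra E N] {l : ℕ}
    (w : Module.Basis (Fin l) E N) (x : Fin (l + 1) → E) :
    MvPolynomial.eval x (NormA_mat w).det = Algebra.norm E (∑ i : Fin l, x i.castSucc • w i) := by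
  rw [RingHom.map_det, Algebra.norm_eq_matrix_det w]
  congr 1
  ext a b
  simp only [RingHom.mapMatrix_apply, Matrix.map_apply, NormA_mat, map_sum, map_mul,
    MvPolynomial.eval_C, MvPolynomial.eval_X, map_smul]
  rw [Matrix.sum_apply]
  refine Finset.sum_congr rfl fun i _ => ?_
  rw [Matrix.smul_apply, smul_eq_mul, mul_comm]

theorem norm_surj_of_algClosed {K : Type} [Field K] [IsAlgClosed K] {E N : Type} [Field E]
    [Field N] [Algebra (RatFunc K) E] [FiniteDimensional (RatFunc K) E] [Algebra E N]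
    [FiniteDimensional E N] (a : E) : ∃ z : N, Algebra.norm E z = a := by
  classical
  obtain ⟨l, hl⟩ : ∃ l, l = Module.finrank E N := ⟨_, rfl⟩
  have hl0 : 0 < l := by rw [hl]; exact Module.finrank_pos
  let w : Module.Basis (Fin l) E N := Module.finBasisOfFinrankEq E N hl.symm
  let Φ : MvPolynomial (Fin (l + 1)) E :=
    (NormA_mat w).det - MvPolynomial.C a * MvPolynomial.X (Fin.last l) ^ l
  have hΦ : Φ.IsHomogeneous l := by
    refine (NormA_hom w).sub ?_
    have h1 := (MvPolynomial.isHomogeneous_X E (Fin.last l)).pow l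
    have h2 := (MvPolynomial.isHomogeneous_C (Fin (l + 1)) a).mul h1
    rwa [zero_add, one_mul] at h2
  obtain ⟨x, hx, hx0⟩ := c1_zero (K := K) hl0 (Nat.lt_succ_self l) Φ hΦ
  have h1 : Algebra.norm E (∑ i : Fin l, x i.castSucc • w i) = a * x (Fin.last l) ^ l := by
    rw [← NormA_eval]
    have : MvPolynomial.eval x (NormA_mat w).det -
        MvPolynomial.eval x (MvPolynomial.C a * MvPolynomial.X (Fin.last l) ^ l) = 0 := by
      rw [← map_sub]
      exact hx0
    rw [sub_eq_zero] at this
    rw [this]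
    simp
  by_cases hlast : x (Fin.last l) = 0
  · exfalso
    rw [hlast, zero_pow hl0.ne', mul_zero, Algebra.norm_eq_zero_iff] at h1
    have h2 := Fintype.linearIndependent_iff.1 w.linearIndependent _ h1
    apply hx
    funext i
    refine Fin.lastCases ?_ (fun j => ?_) i
    · exact hlast
    · exact h2 j
  · refine ⟨(algebraMap E N (x (Fin.last l))⁻¹) * ∑ i : Fin l, x i.castSucc • w i, ?_⟩
    rw [map_mul, Algebra.norm_algebraMap, h1, ← hl, inv_pow]
    field_simp

theorem norm_surj_descent {l p : ℕ} [Fact l.Prime] {E₁ N₁ E₂ N₂ : Type} [Field E₁] [Field N₁]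
    [Field E₂] [Field N₂] [Algebra E₁ N₁] [Algebra E₁ E₂] [Algebra E₂ N₂] [Algebra N₁ N₂]
    [Algebra E₁ N₂] [IsScalarTower E₁ N₁ N₂] [IsScalarTower E₁ E₂ N₂] [ExpChar E₁ p]
    (hlp : Nat.Coprime l p) [FiniteDimensional E₁ N₁] [IsGalois E₁ N₁]
    (hl : Module.finrank E₁ N₁ = l) (hpi : ∀ z : N₂, ∃ (m : ℕ) (y : N₁),
      algebraMap N₁ N₂ y = z ^ p ^ m) (hpi' : ∀ z : E₂, ∃ (m : ℕ) (y : E₁),
      algebraMap E₁ E₂ y = z ^ p ^ m)
    (hgen : ∀ z : N₂, ∃ (f : Fin l → N₁) (g : Fin l → E₂),
      z = ∑ i, algebraMap N₁ N₂ (f i) * algebraMap E₂ N₂ (g i))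
    (hs : ∀ a : E₂, ∃ z : N₂, Algebra.norm E₂ z = a) (a : E₁) :
    ∃ z : N₁, Algebra.norm E₁ z = a := by
  classical
  have hN₁ : ExpChar N₁ p := expChar_of_injective_algebraMap (algebraMap E₁ N₁).injective p
  have hN₂ : ExpChar N₂ p := expChar_of_injective_algebraMap (algebraMap E₁ N₂).injective p
  let b₁ : Module.Basis (Fin l) E₁ N₁ := Module.finBasisOfFinrankEq E₁ N₁ hl
  -- linear disjointness
  have hli : LinearIndependent E₂ (fun i => algebraMap N₁ N₂ (b₁ i)) := by
    rw [Fintype.linearIndependent_iff]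
    intro g hg
    choose m y hy using fun i => hpi' (g i)
    let M := ∑ i, m i
    have hmM : ∀ i, m i ≤ M := fun i => Finset.single_le_sum (f := m) (fun _ _ => Nat.zero_le _)
      (Finset.mem_univ i)
    have hy2 : ∀ i, algebraMap E₁ E₂ (y i ^ p ^ (M - m i)) = g i ^ p ^ M := by
      intro i
      rw [map_pow, hy, ← pow_mul, ← pow_add]
      congr 2
      have := hmM i
      omega
    have h1 : ∑ i, (y i ^ p ^ (M - m i)) • (b₁ i ^ p ^ M) = 0 := by
      apply (algebraMap N₁ N₂).injective
      rw [map_zero, map_sum]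
      have h2 := congrArg (iterateFrobenius N₂ p M) hg
      rw [map_zero, map_sum] at h2
      rw [← h2]
      refine Finset.sum_congr rfl fun i _ => ?_
      rw [iterateFrobenius_def, Algebra.smul_def, Algebra.smul_def, map_mul, mul_pow,
        ← map_pow (algebraMap E₂ N₂), ← map_pow (algebraMap N₁ N₂), ← hy2, ← IsScalarTower.algebraMap_apply, ← IsScalarTower.algebraMap_apply]
    have h3 := b₁.linearIndependent.map_pow_expChar_pow_of_isSeparable p M
    have h4 := Fintype.linearIndependent_iff.1 h3 _ h1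
    intro i
    have h5 := h4 i
    have h6 : g i ^ p ^ M = 0 := by rw [← hy2, h5, map_zero]
    exact (pow_eq_zero_iff (expChar_pow_pos N₂ p M).ne').1 h6
  have hsp : ⊤ ≤ Submodule.span E₂ (Set.range fun i => algebraMap N₁ N₂ (b₁ i)) := by
    intro z _
    obtain ⟨f, g, rfl⟩ := hgen z
    refine Submodule.sum_mem _ fun i _ => ?_
    rw [mul_comm, ← Algebra.smul_def]
    refine Submodule.smul_mem _ _ ?_
    rw [← b₁.sum_repr (f i), map_sum]
    refine Submodule.sum_mem _ fun j _ => ?_
    rw [Algebra.smul_def, map_mul, ← IsScalarTower.algebraMap_apply,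
      IsScalarTower.algebraMap_apply E₁ E₂ N₂, ← Algebra.smul_def]
    exact Submodule.smul_mem _ _ (Submodule.subset_span ⟨j, rfl⟩)
  let b₂ : Module.Basis (Fin l) E₂ N₂ := Module.Basis.mk hli hsp
  have hb₂ : ∀ i, b₂ i = algebraMap N₁ N₂ (b₁ i) := fun i => Module.Basis.mk_apply hli hsp i
  -- norms of elements of `N₁`
  have hnorm : ∀ z : N₁, Algebra.norm E₂ (algebraMap N₁ N₂ z) =
      algebraMap E₁ E₂ (Algebra.norm E₁ z) := by
    intro z
    rw [Algebra.norm_eq_matrix_det b₁, Algebra.norm_eq_matrix_det b₂, RingHom.map_det]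
    congr 1
    ext i j
    rw [RingHom.mapMatrix_apply, Matrix.map_apply, Algebra.leftMulMatrix_eq_repr_mul,
      Algebra.leftMulMatrix_eq_repr_mul, hb₂, ← map_mul]
    have h1 : algebraMap N₁ N₂ (z * b₁ j) =
        ∑ k, (algebraMap E₁ E₂ (b₁.repr (z * b₁ j) k)) • b₂ k := by
      conv_lhs => rw [← b₁.sum_repr (z * b₁ j), map_sum]
      refine Finset.sum_congr rfl fun k _ => ?_
      rw [hb₂, Algebra.smul_def, Algebra.smul_def, map_mul, ← IsScalarTower.algebraMap_apply,
        ← IsScalarTower.algebraMap_apply]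
    rw [h1, Module.Basis.repr_sum_self]
  by_cases ha : a = 0
  · exact ⟨0, by rw [ha, Algebra.norm_zero]⟩
  obtain ⟨z, hz⟩ := hs (algebraMap E₁ E₂ a)
  obtain ⟨m, z₁, hz₁⟩ := hpi z
  have h1 : Algebra.norm E₁ z₁ = a ^ p ^ m := by
    apply (algebraMap E₁ E₂).injective
    rw [← hnorm, hz₁, map_pow, hz, map_pow]
  have hl1 : 1 < l := (Fact.out : l.Prime).one_lt
  obtain ⟨u, -, hu⟩ := Nat.exists_mul_mod_eq_one_of_coprime
    (Nat.Coprime.pow_left m hlp.symm) hl1
  obtain ⟨v, hv⟩ : ∃ v, v = p ^ m * u / l := ⟨_, rfl⟩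
  have huv : p ^ m * u = l * v + 1 := by
    have := Nat.div_add_mod (p ^ m * u) l
    rw [hu, ← hv] at this
    exact this.symm
  refine ⟨z₁ ^ u * (algebraMap E₁ N₁ a⁻¹) ^ v, ?_⟩
  rw [map_mul, map_pow, map_pow, h1, Algebra.norm_algebraMap, hl, ← pow_mul, huv, ← pow_mul,
    pow_add, pow_one, inv_pow]
  field_simp

end W42
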