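import Pool.Agent.W_42fc02_h90.FieldB

/-!
Pull: inflation from kappa to F = kappa(y). Omega separable closure of F,
Ok kappa Omega = separableClosure kappa Omega (a separable closure of kappa),
pull c = inflC kappa F (Ok kappa Omega) c: inflation along Gal(Omega/F) -> Gal(Ok/kappa).
-/

namespace W42

open Polynomial

/-- the separable closure of kappa in Omega -/
abbrev Ok (κ Ω : Type) [Field κ] [Field Ω] [Algebra κ Ω] : IntermediateField κ Ω :=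
  separableClosure κ Ω

theorem isSepClosed_Ok (κ Ω : Type) [Field κ] [Field Ω] [Algebra κ Ω] [IsSepClosed Ω] :
    IsSepClosed (Ok κ Ω) := by
  exact (separableClosure.isSepClosure κ Ω).sep_closed

theorem Pull_isC2 {G G' A A' : Type*} [Group G] [Group G'] [CommGroup A] [CommGroup A']
    [MulDistribMulAction G A] [MulDistribMulAction G' A'] (ρ : G' →* G) (f : A →* A')
    (hf : ∀ (g : G') (a : A), f (ρ g • a) = g • f a) {c : G → G → A} (hc : IsC2 c) :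
    IsC2 (fun g h => f (c (ρ g) (ρ h))) := by
  intro g h j
  have h1 := hc (ρ g) (ρ h) (ρ j)
  have h2 := congrArg f h1
  rw [map_mul, map_mul, hf, ← map_mul ρ, ← map_mul ρ] at h2
  exact h2

theorem Pull_dB {G G' A A' : Type*} [Group G] [Group G'] [CommGroup A] [CommGroup A']
    [MulDistribMulAction G A] [MulDistribMulAction G' A'] (ρ : G' →* G) (f : A →* A')
    (hf : ∀ (g : G') (a : A), f (ρ g • a) = g • f a) (b : G → A) (g h : G') :
    dB (fun g => f (b (ρ g))) g h = f (dB b (ρ g) (ρ h)) := by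
  unfold dB
  beta_reduce
  rw [_root_.map_div, map_mul f, hf, map_mul ρ]

section
variable (κ F : Type) {Ω : Type} [Field κ] [Field F] [Field Ω] [Algebra κ F] [Algebra κ[X] F]
  [IsScalarTower κ κ[X] F] [IsFractionRing κ[X] F] [Algebra F Ω] [Algebra κ Ω]
  [IsScalarTower κ F Ω] [IsGalois F Ω] [IsSepClosed Ω]

/-- inflation from kappa -/
noncomputable def pull (c : Gal(Ok κ Ω/κ) → Gal(Ok κ Ω/κ) → (Ok κ Ω)ˣ) :
    Gal(Ω/F) → Gal(Ω/F) → Ωˣ := inflC κ F (Ok κ Ω) c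

theorem pull_apply (c : Gal(Ok κ Ω/κ) → Gal(Ok κ Ω/κ) → (Ok κ Ω)ˣ) (σ τ : Gal(Ω/F)) :
    ((pull κ F c σ τ : Ωˣ) : Ω) =
      ((c (rk κ F (Ok κ Ω) σ) (rk κ F (Ok κ Ω) τ) : Ok κ Ω) : Ω) := by
  rfl

theorem pull_mul (c c' : Gal(Ok κ Ω/κ) → Gal(Ok κ Ω/κ) → (Ok κ Ω)ˣ) :
    pull κ F (fun σ τ => c σ τ * c' σ τ) = fun σ τ => pull κ F c σ τ * pull κ F c' σ τ := by
  funext σ τ
  exact map_mul (Units.map (algebraMap (Ok κ Ω) Ω : Ok κ Ω →* Ω)) _ _

theorem pull_pow (c : Gal(Ok κ Ω/κ) → Gal(Ok κ Ω/κ) → (Ok κ Ω)ˣ) (n : ℕ) :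
    pull κ F (fun σ τ => c σ τ ^ n) = fun σ τ => pull κ F c σ τ ^ n := by
  funext σ τ
  exact map_pow (Units.map (algebraMap (Ok κ Ω) Ω : Ok κ Ω →* Ω)) _ _

theorem pull_inv (c : Gal(Ok κ Ω/κ) → Gal(Ok κ Ω/κ) → (Ok κ Ω)ˣ) :
    pull κ F (fun σ τ => (c σ τ)⁻¹) = fun σ τ => (pull κ F c σ τ)⁻¹ := by
  funext σ τ
  exact map_inv (Units.map (algebraMap (Ok κ Ω) Ω : Ok κ Ω →* Ω)) _

theorem pull_one : pull κ F (c1 : Gal(Ok κ Ω/κ) → Gal(Ok κ Ω/κ) → (Ok κ Ω)ˣ) =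
    (c1 : Gal(Ω/F) → Gal(Ω/F) → Ωˣ) := by
  funext σ τ
  exact map_one (Units.map (algebraMap (Ok κ Ω) Ω : Ok κ Ω →* Ω))

omit [IsSepClosed Ω] in
theorem Pull_smul (kp : IntermediateField κ Ω) [Normal κ kp] (σ : Gal(Ω/F)) (u : kpˣ) :
    Units.map (algebraMap kp Ω : kp →* Ω) (rk κ F kp σ • u) =
      σ • Units.map (algebraMap kp Ω : kp →* Ω) u := by
  apply Units.ext
  exact FieldA_rk κ F kp σ (u : kp)

/-- finite levels over kappa give finite levels over F -/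
theorem Pull_level (L : IntermediateField κ (Ok κ Ω)) [FiniteDimensional κ L] [Normal κ L] :
    FiniteDimensional F (KF κ F (IntermediateField.lift L)) ∧
      Normal F (KF κ F (IntermediateField.lift L)) ∧
      (∀ z ∈ L, (z : Ω) ∈ KF κ F (IntermediateField.lift L)) ∧
      ∀ σ σ' : Gal(Ω/F), (∀ z ∈ KF κ F (IntermediateField.lift L), σ z = σ' z) →
        ∀ z ∈ L, rk κ F (Ok κ Ω) σ z = rk κ F (Ok κ Ω) σ' z := by
  have h1 : FiniteDimensional κ (IntermediateField.lift L) :=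
    (IntermediateField.liftAlgEquiv L).toLinearEquiv.finiteDimensional
  have h2 : Normal κ (IntermediateField.lift L) :=
    Normal.of_algEquiv (IntermediateField.liftAlgEquiv L)
  have h3 : ∀ z ∈ L, (z : Ω) ∈ KF κ F (IntermediateField.lift L) := by
    intro z hz
    apply IntermediateField.subset_adjoin
    exact (IntermediateField.mem_lift z).2 hz
  refine ⟨KF_finite κ F _, KF_normal κ F _, h3, fun σ σ' h z hz => ?_⟩
  apply Subtype.ext
  rw [FieldA_rk, FieldA_rk]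
  exact h _ (h3 z hz)

/-- finite level is preserved: if c has level L over kappa, the pull back has level F L. -/
theorem pull_bc {c : Gal(Ok κ Ω/κ) → Gal(Ok κ Ω/κ) → (Ok κ Ω)ˣ} (hc : BC c) :
    BC (pull κ F c) := by
  obtain ⟨hc1, L, hL1, hL2, hL3, hL4⟩ := hc
  refine ⟨Pull_isC2 (rk κ F (Ok κ Ω)) (Units.map (algebraMap (Ok κ Ω) Ω : Ok κ Ω →* Ω))
    (Pull_smul κ F (Ok κ Ω)) hc1, KF κ F (IntermediateField.lift L), ?_⟩
  obtain ⟨h1, h2, h3, h4⟩ := Pull_level κ F L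
  refine ⟨h1, h2, fun σ τ => ?_, fun σ σ' τ τ' hσ hτ => ?_⟩
  · rw [pull_apply]
    exact h3 _ (hL3 _ _)
  · have h5 := hL4 _ _ _ _ (h4 σ σ' hσ) (h4 τ τ' hτ)
    apply Units.ext
    rw [pull_apply, pull_apply, h5]

theorem pull_beq {c c' : Gal(Ok κ Ω/κ) → Gal(Ok κ Ω/κ) → (Ok κ Ω)ˣ} (h : BEq c c') :
    BEq (pull κ F c) (pull κ F c') := by
  obtain ⟨b, ⟨L, hL1, hL2, hL3, hL4⟩, hb⟩ := h
  obtain ⟨h1, h2, h3, h4⟩ := Pull_level κ F L
  refine ⟨fun σ => Units.map (algebraMap (Ok κ Ω) Ω : Ok κ Ω →* Ω) (b (rk κ F (Ok κ Ω) σ)),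
    ⟨KF κ F (IntermediateField.lift L), h1, h2, fun σ => ?_, fun σ τ h => ?_⟩, fun σ τ => ?_⟩
  · exact h3 _ (hL3 _)
  · beta_reduce
    rw [hL4 _ _ (h4 σ τ h)]
  · rw [Pull_dB (rk κ F (Ok κ Ω)) (Units.map (algebraMap (Ok κ Ω) Ω : Ok κ Ω →* Ω))
      (Pull_smul κ F (Ok κ Ω)) b σ τ]
    have h5 := congrArg (Units.map (algebraMap (Ok κ Ω) Ω : Ok κ Ω →* Ω))
      (hb (rk κ F (Ok κ Ω) σ) (rk κ F (Ok κ Ω) τ))
    rw [map_mul] at h5
    exact h5

/-- a cocycle of a finite Galois kp / kappa inside Omega: kp <= Ok; the cocycle inflated to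
Gal(Ok / kappa). -/
theorem exists_pull (kp : IntermediateField κ Ω) [FiniteDimensional κ kp] [IsGalois κ kp]
    {c₂ : Gal(kp/κ) → Gal(kp/κ) → kpˣ} (hc₂ : IsC2 c₂) :
    ∃ c₂' : Gal(Ok κ Ω/κ) → Gal(Ok κ Ω/κ) → (Ok κ Ω)ˣ, BC c₂' ∧
      pull κ F c₂' = inflC κ F kp c₂ ∧
      ∀ (n : ℕ) (b : Gal(kp/κ) → kpˣ), (∀ g h, c₂ g h ^ n = dB b g h) →
        BEq (fun σ τ => c₂' σ τ ^ n) c1 := by
  have hle : kp ≤ Ok κ Ω := le_separableClosure κ Ω kp
  let ia : Algebra kp (Ok κ Ω) := (IntermediateField.inclusion hle).toRingHom.toAlgebra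
  have ist : IsScalarTower κ kp (Ok κ Ω) := IsScalarTower.of_algebraMap_eq fun x => rfl
  have hia : ∀ z : kp, ((algebraMap kp (Ok κ Ω) z : Ok κ Ω) : Ω) = z := fun z => rfl
  obtain ⟨r, hr⟩ : ∃ r : Gal(Ok κ Ω/κ) →* Gal(kp/κ), ∀ (g : Gal(Ok κ Ω/κ)) (z : kp),
      algebraMap kp (Ok κ Ω) (r g z) = g (algebraMap kp (Ok κ Ω) z) :=
    ⟨AlgEquiv.restrictNormalHom kp, fun g z => AlgEquiv.restrictNormal_commutes g kp z⟩
  obtain ⟨f, hf⟩ : ∃ f : kpˣ →* (Ok κ Ω)ˣ, f = Units.map (algebraMap kp (Ok κ Ω) : kp →* Ok κ Ω) :=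
    ⟨_, rfl⟩
  have hfv : ∀ u : kpˣ, ((f u : Ok κ Ω) : Ω) = (u : kp) := by
    intro u
    rw [hf]
    rfl
  have hfs : ∀ (g : Gal(Ok κ Ω/κ)) (a : kpˣ), f (r g • a) = g • f a := by
    intro g a
    rw [hf]
    apply Units.ext
    exact hr g a
  have hrr : ∀ σ : Gal(Ω/F), r (rk κ F (Ok κ Ω) σ) = rk κ F kp σ := by
    intro σ
    apply AlgEquiv.ext
    intro z
    apply Subtype.ext
    rw [FieldA_rk, ← hia, hr, FieldA_rk, hia]
  let kq : IntermediateField κ (Ok κ Ω) := IntermediateField.restrict hle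
  have e : kp ≃ₐ[κ] kq := IntermediateField.restrictAlgEquiv hle
  have hq1 : FiniteDimensional κ kq := e.toLinearEquiv.finiteDimensional
  have hq2 : Normal κ kq := Normal.of_algEquiv e
  have hmem : ∀ u : kpˣ, (f u : Ok κ Ω) ∈ kq := by
    intro u
    rw [IntermediateField.mem_restrict, hfv]
    exact (u : kp).2
  have hres : ∀ g g' : Gal(Ok κ Ω/κ), (∀ z ∈ kq, g z = g' z) → r g = r g' := by
    intro g g' h
    apply AlgEquiv.ext
    intro z
    apply (algebraMap kp (Ok κ Ω)).injective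
    rw [hr, hr]
    apply h
    rw [IntermediateField.mem_restrict, hia]
    exact z.2
  refine ⟨fun g h => f (c₂ (r g) (r h)), ⟨Pull_isC2 r f hfs hc₂, kq, hq1, hq2, fun g h => hmem _,
    fun g g' h h' hg hh => ?_⟩, ?_, fun n b hb => ?_⟩
  · beta_reduce
    rw [hres g g' hg, hres h h' hh]
  · funext σ τ
    apply Units.ext
    rw [pull_apply, hrr, hrr, hfv]
    rfl
  · refine ⟨fun g => f (b (r g)), ⟨kq, hq1, hq2, fun g => hmem _, fun g g' hg => ?_⟩,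
      fun g h => ?_⟩
    · beta_reduce
      rw [hres g g' hg]
    · rw [Pull_dB r f hfs b g h, ← hb, map_pow]
      unfold c1
      rw [one_mul]

end

end W42
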