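import Pool.Agent.W_42fc02_h90.GDef

/-!
RDef: rational functions. RF K is a copy of RatFunc K (a def, so that instance search does not look
through it; RF K and RatFunc K are definitionally equal; use change / show / exact to go between).
Coefficient maps rmap, Galois action, orders rord (at a point), dv (at a monic irreducible
polynomial), leading coefficient lc, constants cF, polynomials pF.
-/

namespace W42

open Polynomial

/-- rational functions over K -/
def RF (K : Type) [Field K] : Type := RatFunc K

noncomputable instance instFieldRF (K : Type) [Field K] : Field (RF K) :=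
  inferInstanceAs (Field (RatFunc K))

/-- a rational function as an element of RatFunc K -/
def RF.out {K : Type} [Field K] (f : RF K) : RatFunc K := f

/-- polynomials -/
noncomputable def pF (K : Type) [Field K] : K[X] →+* RF K := algebraMap K[X] (RatFunc K)

/-- constants -/
noncomputable def cF (K : Type) [Field K] : K →+* RF K := (pF K).comp Polynomial.C

theorem pF_injective (K : Type) [Field K] : Function.Injective (pF K) :=
  RatFunc.algebraMap_injective K

theorem exists_pF_div {K : Type} [Field K] (f : RF K) :
    ∃ p q : K[X], q ≠ 0 ∧ f = pF K p / pF K q :=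
  ⟨f.out.num, f.out.denom, RatFunc.denom_ne_zero _, (RatFunc.num_div_denom f.out).symm⟩

theorem le_comap_map {K K' : Type} [Field K] [Field K'] (ι : K →+* K') :
    nonZeroDivisors K[X] ≤ (nonZeroDivisors K'[X]).comap (mapRingHom ι) := by
  intro p hp
  rw [Submonoid.mem_comap, mem_nonZeroDivisors_iff_ne_zero]
  rw [mem_nonZeroDivisors_iff_ne_zero] at hp
  simpa [Polynomial.map_eq_zero] using hp

/-- coefficient map on rational functions -/
noncomputable def rmap {K K' : Type} [Field K] [Field K'] (ι : K →+* K') : RF K →+* RF K' :=
  (RatFunc.mapRingHom (mapRingHom ι) (le_comap_map ι) : RatFunc K →+* RatFunc K')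

theorem rmap_div {K K' : Type} [Field K] [Field K'] (ι : K →+* K') (p q : K[X]) :
    rmap ι (pF K p / pF K q) = pF K' (p.map ι) / pF K' (q.map ι) := by
  have h := RatFunc.map_apply_div (K := K) (R := K') (mapRingHom ι) (le_comap_map ι) p q
  exact h

theorem rmap_id {K : Type} [Field K] (f : RF K) : rmap (RingHom.id K) f = f := by
  obtain ⟨p, q, _, rfl⟩ := exists_pF_div f
  rw [rmap_div, Polynomial.map_id, Polynomial.map_id]

theorem rmap_comp {K K' K'' : Type} [Field K] [Field K'] [Field K''] (ι : K →+* K')
    (ι' : K' →+* K'') (f : RF K) : rmap ι' (rmap ι f) = rmap (ι'.comp ι) f := by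
  obtain ⟨p, q, _, rfl⟩ := exists_pF_div f
  rw [rmap_div, rmap_div, rmap_div, Polynomial.map_map, Polynomial.map_map]

/-- the Galois group of K / k acts on the units of RF K through the coefficients -/
noncomputable instance ratAct (k K : Type) [Field k] [Field K] [Algebra k K] :
    MulDistribMulAction Gal(K/k) (RF K)ˣ where
  smul γ u := Units.map (rmap (γ : K →+* K) : RF K →* RF K) u
  one_smul u := Units.ext (rmap_id (u : RF K))
  mul_smul γ γ' u := Units.ext (rmap_comp (γ' : K →+* K) (γ : K →+* K) (u : RF K)).symm
  smul_one _ := map_one _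
  smul_mul _ := map_mul _

theorem coe_ratAct {k K : Type} [Field k] [Field K] [Algebra k K] (γ : Gal(K/k))
    (u : (RF K)ˣ) : ((γ • u : (RF K)ˣ) : RF K) = rmap (γ : K →+* K) (u : RF K) := rfl

/-- order of a rational function at a point -/
noncomputable def rord {K : Type} [Field K] (θ : K) (f : RF K) : ℤ :=
  (f.out.num.rootMultiplicity θ : ℤ) - (f.out.denom.rootMultiplicity θ : ℤ)

/-- monic irreducible polynomials -/
def MI (K : Type) [Field K] : Type := {P : K[X] // P.Monic ∧ Irreducible P}

/-- order of a rational function at a monic irreducible polynomial -/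
noncomputable def dv {K : Type} [Field K] (P : MI K) (f : RF K) : ℤ :=
  (multiplicity P.1 f.out.num : ℤ) - (multiplicity P.1 f.out.denom : ℤ)

/-- leading coefficient of a rational function (the denominator is monic) -/
noncomputable def lc {K : Type} [Field K] (f : RF K) : K := f.out.num.leadingCoeff

/-- Galois action on monic irreducible polynomials -/
noncomputable instance miAct (k K : Type) [Field k] [Field K] [Algebra k K] :
    MulAction Gal(K/k) (MI K) where
  smul γ P := ⟨P.1.map (γ : K →+* K), P.2.1.map _, by
    have h := (MulEquiv.irreducible_iff (mapEquiv (γ : K ≃+* K)) (x := P.1)).mpr P.2.2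
    have h2 : mapEquiv (γ : K ≃+* K) P.1 = P.1.map (γ : K →+* K) := rfl
    rwa [h2] at h⟩
  one_smul P := by
    apply Subtype.ext
    change P.1.map ((1 : Gal(K/k)) : K →+* K) = P.1
    have : ((1 : Gal(K/k)) : K →+* K) = RingHom.id K := rfl
    rw [this, Polynomial.map_id]
  mul_smul γ γ' P := by
    apply Subtype.ext
    change P.1.map ((γ * γ' : Gal(K/k)) : K →+* K) = (P.1.map (γ' : K →+* K)).map (γ : K →+* K)
    rw [Polynomial.map_map]
    rfl

theorem miAct_val {k K : Type} [Field k] [Field K] [Algebra k K] (γ : Gal(K/k)) (P : MI K) :
    (γ • P).1 = P.1.map (γ : K →+* K) := rfl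

end W42
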