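import Pool.Agent.W_42fc02_h90.RatA

/-!
RatB: orders of rational functions at monic irreducible polynomials.
RF K is definitionally RatFunc K, pF K = algebraMap K[X] (RatFunc K).
-/

namespace W42

open Polynomial

theorem RatB_mul {K : Type} [Field K] (P : MI K) {p q : K[X]} (hp : p ≠ 0) (hq : q ≠ 0) :
    multiplicity P.1 (p * q) = multiplicity P.1 p + multiplicity P.1 q :=
  multiplicity_mul P.2.2.prime (FiniteMultiplicity.of_prime_left P.2.2.prime (mul_ne_zero hp hq))

theorem dv_div {K : Type} [Field K] (P : MI K) {p q : K[X]} (hp : p ≠ 0) (hq : q ≠ 0) :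
    dv P (pF K p / pF K q) = (multiplicity P.1 p : ℤ) - (multiplicity P.1 q : ℤ) := by
  have h := RatA_cross (K := K) p hq
  have hf : pF K p / pF K q ≠ 0 := RatA_div_ne_zero hp hq
  have hn := RatA_num_ne_zero hf
  have hd := RatA_denom_ne_zero (pF K p / pF K q)
  have h2 := congrArg (fun r => multiplicity P.1 r) h
  have h3 := RatB_mul P hn hq
  have h4 := RatB_mul P hp hd
  have h5 : multiplicity P.1 ((pF K p / pF K q).out.num * q) =
      multiplicity P.1 (p * (pF K p / pF K q).out.denom) := h2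
  rw [h3, h4] at h5
  unfold dv
  omega

theorem RatB_poly {K : Type} [Field K] (P : MI K) {p : K[X]} (hp : p ≠ 0) :
    dv P (pF K p) = (multiplicity P.1 p : ℤ) := by
  have h := dv_div (K := K) P hp (one_ne_zero)
  rw [map_one, div_one, multiplicity_of_one_right P.2.2.not_isUnit] at h
  rw [h]
  simp

theorem dv_mul {K : Type} [Field K] (P : MI K) {f g : RF K} (hf : f ≠ 0) (hg : g ≠ 0) :
    dv P (f * g) = dv P f + dv P g := by
  obtain ⟨p, q, hp, hq, rfl⟩ := RatA_exists hf
  obtain ⟨r, s, hr, hs, rfl⟩ := RatA_exists hg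
  have h1 : pF K p / pF K q * (pF K r / pF K s) = pF K (p * r) / pF K (q * s) := by
    rw [_root_.map_mul, _root_.map_mul, div_mul_div_comm]
  rw [h1, dv_div P (mul_ne_zero hp hr) (mul_ne_zero hq hs), dv_div P hp hq, dv_div P hr hs,
    RatB_mul P hp hr, RatB_mul P hq hs]
  push_cast
  ring

theorem dv_one {K : Type} [Field K] (P : MI K) : dv P (1 : RF K) = 0 := by
  have h := RatB_poly (K := K) P one_ne_zero
  rw [map_one, multiplicity_of_one_right P.2.2.not_isUnit] at h
  rw [h]
  simp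

theorem dv_inv {K : Type} [Field K] (P : MI K) (f : RF K) (hf : f ≠ 0) :
    dv P f⁻¹ = - dv P f := by
  have h := dv_mul (K := K) P hf (inv_ne_zero hf)
  rw [mul_inv_cancel₀ hf, dv_one] at h
  omega

theorem dv_C {K : Type} [Field K] (P : MI K) (a : K) (ha : a ≠ 0) : dv P (cF K a) = 0 := by
  have h : cF K a = pF K (Polynomial.C a) := rfl
  have h2 : Polynomial.C a ≠ 0 := C_ne_zero.mpr ha
  rw [h, RatB_poly P h2, multiplicity_of_isUnit_right P.2.2.not_isUnit
    (isUnit_C.mpr (isUnit_iff_ne_zero.mpr ha))]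
  rfl

theorem dv_self {K : Type} [Field K] (P : MI K) : dv P (pF K P.1) = 1 := by
  rw [RatB_poly P P.2.2.ne_zero, multiplicity_self]
  rfl

theorem dv_other {K : Type} [Field K] {P Q : MI K} (h : P ≠ Q) : dv P (pF K Q.1) = 0 := by
  rw [RatB_poly P Q.2.2.ne_zero, multiplicity_eq_zero.mpr]
  · rfl
  · intro hd
    apply h
    have h2 : Associated P.1 Q.1 := (P.2.2.dvd_irreducible_iff_associated Q.2.2).mp hd
    exact Subtype.ext (eq_of_monic_of_associated P.2.1 Q.2.1 h2)

theorem RatB_fin {K : Type} [Field K] {p : K[X]} (hp : p ≠ 0) :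
    {P : MI K | multiplicity P.1 p ≠ 0}.Finite := by
  classical
  refine ((UniqueFactorizationMonoid.normalizedFactors p).toFinset.finite_toSet.preimage
    (f := fun P : MI K => P.1) (fun _ _ _ _ h => Subtype.ext h)).subset ?_
  intro P hP
  rw [Set.mem_preimage, Finset.mem_coe, Multiset.mem_toFinset,
    Polynomial.mem_normalizedFactors_iff hp]
  exact ⟨P.2.2, P.2.1, multiplicity_ne_zero.mp hP⟩

theorem dv_finite {K : Type} [Field K] {f : RF K} (hf : f ≠ 0) :
    {P : MI K | dv P f ≠ 0}.Finite := by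
  obtain ⟨p, q, hp, hq, rfl⟩ := RatA_exists hf
  refine ((RatB_fin hp).union (RatB_fin hq)).subset ?_
  intro P hP
  rw [Set.mem_setOf_eq, dv_div P hp hq] at hP
  rw [Set.mem_union, Set.mem_setOf_eq, Set.mem_setOf_eq]
  omega

theorem RatB_zero {K : Type} [Field K] (P : MI K) : dv P (0 : RF K) = 1 := by
  unfold dv
  have h1 : (0 : RF K).out = (0 : RatFunc K) := rfl
  rw [h1, RatFunc.num_zero, RatFunc.denom_zero, multiplicity_of_one_right P.2.2.not_isUnit,
    multiplicity_zero]
  rfl

theorem RatB_map {k K : Type} [Field k] [Field K] [Algebra k K] (γ : Gal(K/k)) (P : MI K)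
    (p : K[X]) : multiplicity (γ • P).1 (p.map (γ : K →+* K)) = multiplicity P.1 p :=
  multiplicity_map_eq (mapEquiv (γ : K ≃+* K))

theorem dv_rmap {k K : Type} [Field k] [Field K] [Algebra k K] (γ : Gal(K/k)) (P : MI K)
    (f : RF K) : dv (γ • P) (rmap (γ : K →+* K) f) = dv P f := by
  by_cases hf : f = 0
  · subst hf
    rw [_root_.map_zero, RatB_zero, RatB_zero]
  · obtain ⟨p, q, hp, hq, rfl⟩ := RatA_exists hf
    have hp' : p.map (γ : K →+* K) ≠ 0 :=
      (Polynomial.map_ne_zero_iff (γ : K →+* K).injective).mpr hp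
    have hq' : q.map (γ : K →+* K) ≠ 0 :=
      (Polynomial.map_ne_zero_iff (γ : K →+* K).injective).mpr hq
    rw [rmap_div, dv_div _ hp' hq', dv_div _ hp hq, RatB_map, RatB_map]

theorem RatB_unit {K : Type} [Field K] {p q : K[X]} (hpq : IsCoprime p q)
    (h : ∀ P : MI K, multiplicity P.1 p = multiplicity P.1 q) : IsUnit p := by
  by_contra hu
  obtain ⟨g, hg1, hg2, hg3⟩ := Polynomial.exists_monic_irreducible_factor p hu
  have h1 := h ⟨g, hg1, hg2⟩
  have h2 : multiplicity g p ≠ 0 := multiplicity_ne_zero.mpr hg3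
  have h3 : multiplicity g q ≠ 0 := by
    intro h4
    apply h2
    rw [← h4]
    exact h1
  exact hg2.not_isUnit (hpq.isUnit_of_dvd' hg3 (multiplicity_ne_zero.mp h3))

theorem eq_C_of_dv {K : Type} [Field K] {f : RF K} (hf : f ≠ 0)
    (h : ∀ P : MI K, dv P f = 0) : ∃ a : K, a ≠ 0 ∧ f = cF K a := by
  have hco : IsCoprime f.out.num f.out.denom := RatFunc.isCoprime_num_denom _
  have h1 : ∀ P : MI K, multiplicity P.1 f.out.num = multiplicity P.1 f.out.denom := by
    intro P
    have h2 := h P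
    unfold dv at h2
    omega
  have hn : IsUnit f.out.num := RatB_unit hco h1
  have hd : IsUnit f.out.denom := RatB_unit hco.symm fun P => (h1 P).symm
  have hm : f.out.denom.Monic := RatFunc.monic_denom _
  have hd1 : f.out.denom = 1 := hm.eq_one_of_isUnit hd
  obtain ⟨a, ha, hn1⟩ := isUnit_iff.mp hn
  refine ⟨a, ha.ne_zero, ?_⟩
  have h3 : f = pF K f.out.num / pF K f.out.denom := (RatFunc.num_div_denom f.out).symm
  rw [h3, hd1, map_one, div_one, ← hn1]
  rfl

/-- product of P ^ n(P) -/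
noncomputable def sec {K : Type} [Field K] (n : MI K →₀ ℤ) : RF K :=
  n.prod fun P m => (pF K P.1) ^ m

theorem sec_ne_zero {K : Type} [Field K] (n : MI K →₀ ℤ) : sec n ≠ 0 := by
  unfold sec Finsupp.prod
  exact Finset.prod_ne_zero_iff.mpr fun P _ => zpow_ne_zero _ (RatA_pF_ne_zero P.2.2.ne_zero)

theorem RatB_pow {K : Type} [Field K] (P : MI K) {g : RF K} (hg : g ≠ 0) (m : ℕ) :
    dv P (g ^ m) = m * dv P g := by
  induction m with
  | zero =>
    rw [pow_zero, dv_one]
    simp
  | succ m ih =>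
    rw [pow_succ, dv_mul P (pow_ne_zero m hg) hg, ih]
    push_cast
    ring

theorem RatB_zpow {K : Type} [Field K] (P : MI K) {g : RF K} (hg : g ≠ 0) (m : ℤ) :
    dv P (g ^ m) = m * dv P g := by
  cases m with
  | ofNat m =>
    have h1 : g ^ (Int.ofNat m) = g ^ m := zpow_natCast g m
    rw [h1, RatB_pow P hg]
    rfl
  | negSucc m =>
    rw [zpow_negSucc, dv_inv P _ (pow_ne_zero _ hg), RatB_pow P hg, Int.negSucc_eq]
    push_cast
    ring

theorem RatB_prod {K : Type} [Field K] (P : MI K) {ι : Type} (s : Finset ι) (g : ι → RF K)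
    (hg : ∀ i ∈ s, g i ≠ 0) : dv P (∏ i ∈ s, g i) = ∑ i ∈ s, dv P (g i) := by
  classical
  induction s using Finset.induction_on with
  | empty => rw [Finset.prod_empty, Finset.sum_empty, dv_one]
  | insert a s ha ih =>
    rw [Finset.prod_insert ha, Finset.sum_insert ha, dv_mul P (hg a (Finset.mem_insert_self a s))
      (Finset.prod_ne_zero_iff.mpr fun i hi => hg i (Finset.mem_insert_of_mem hi)),
      ih fun i hi => hg i (Finset.mem_insert_of_mem hi)]

theorem dv_sec {K : Type} [Field K] (n : MI K →₀ ℤ) (P : MI K) : dv P (sec n) = n P := by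
  classical
  unfold sec Finsupp.prod
  rw [RatB_prod P n.support _ fun Q _ => zpow_ne_zero _ (RatA_pF_ne_zero Q.2.2.ne_zero)]
  have h1 : ∀ Q : MI K, dv P (pF K Q.1 ^ n Q) = if Q = P then n P else 0 := by
    intro Q
    rw [RatB_zpow P (RatA_pF_ne_zero Q.2.2.ne_zero)]
    by_cases hQ : Q = P
    · subst hQ
      rw [dv_self, if_pos rfl, mul_one]
    · rw [if_neg hQ, dv_other (fun h => hQ h.symm), mul_zero]
  rw [Finset.sum_congr rfl fun Q _ => h1 Q, Finset.sum_ite_eq']
  by_cases hP : P ∈ n.support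
  · rw [if_pos hP]
  · rw [if_neg hP]
    exact (Finsupp.notMem_support_iff.mp hP).symm

end W42
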