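import Pool.Agent.W_42fc02_h90.RatB

/-!
RatC: the order at a root theta of P in a bigger field is a multiple e of the order at P. For
separable P e = 1; in general e = p^m is the multiplicity of the root theta of P: P = Q(X^(p^m)) with
Q separable (Irreducible.hasSeparableContraction / Polynomial.exists_separable_of_irreducible
or Polynomial.natSepDegree API), so P = prod (X^(p^m) - theta_i^(p^m)) = prod (X - theta_i)^(p^m) in the
algebraic closure (work in an algebraic closure of L if needed, rord_map).
For f prime to P: f(theta) is not 0 (minimal polynomial), so rord = 0.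
-/

namespace W42

open Polynomial

theorem RatC_pow {L : Type} [Field L] (θ : L) {p : L[X]} (hp : p ≠ 0) (n : ℕ) :
    (p ^ n).rootMultiplicity θ = n * p.rootMultiplicity θ := by
  induction n with
  | zero => simp
  | succ n ih =>
    rw [pow_succ, rootMultiplicity_mul (mul_ne_zero (pow_ne_zero n hp) hp), ih]
    ring

theorem RatC_mult {K L : Type} [Field K] [Field L] (ι : K →+* L) (θ : L) (P : MI K)
    (hθ : P.1.eval₂ ι θ = 0) {p : K[X]} (hp : p ≠ 0) :
    (p.map ι).rootMultiplicity θ = (P.1.map ι).rootMultiplicity θ * multiplicity P.1 p := by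
  have hfin : FiniteMultiplicity P.1 p := FiniteMultiplicity.of_prime_left P.2.2.prime hp
  obtain ⟨r, hr, hnd⟩ := hfin.exists_eq_pow_mul_and_not_dvd
  have hr0 : r ≠ 0 := by
    rintro rfl
    exact hnd (dvd_zero _)
  obtain ⟨a, b, hab⟩ := (P.2.2.coprime_iff_not_dvd).2 hnd
  have hroot : (r.map ι).rootMultiplicity θ = 0 := by
    apply rootMultiplicity_eq_zero
    intro h
    have h0 : r.eval₂ ι θ = 0 := by
      rw [eval₂_eq_eval_map]
      exact h
    have h1 := congrArg (fun f => Polynomial.eval₂ ι θ f) hab
    simp only [eval₂_add, eval₂_mul, eval₂_one, hθ, h0, mul_zero, add_zero] at h1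
    exact zero_ne_one h1
  have hP : P.1.map ι ≠ 0 := (Polynomial.map_ne_zero_iff ι.injective).mpr P.2.2.ne_zero
  have hr' : r.map ι ≠ 0 := (Polynomial.map_ne_zero_iff ι.injective).mpr hr0
  have h2 : p.map ι = (P.1.map ι) ^ multiplicity P.1 p * r.map ι := by
    conv_lhs => rw [hr]
    rw [Polynomial.map_mul, Polynomial.map_pow]
  rw [h2, rootMultiplicity_mul (mul_ne_zero (pow_ne_zero _ hP) hr'), RatC_pow θ hP, hroot,
    add_zero, mul_comm]

/-- order at a root theta of P in a bigger field: a multiple of dv P; the factor is a power of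
the characteristic exponent (inseparability degree), in particular prime to l. -/
theorem rord_eq_mul_dv {K L : Type} [Field K] [Field L] (ι : K →+* L) (θ : L) (P : MI K)
    (hθ : P.1.eval₂ ι θ = 0) :
    ∃ e : ℕ, 0 < e ∧ (∀ l : ℕ, l.Prime → (l : K) ≠ 0 → Nat.Coprime l e) ∧
      ∀ f : RF K, f ≠ 0 → rord θ (rmap ι f) = e * dv P f := by
  have hP : P.1.map ι ≠ 0 := (Polynomial.map_ne_zero_iff ι.injective).mpr P.2.2.ne_zero
  have hpos : 0 < (P.1.map ι).rootMultiplicity θ := by
    rw [rootMultiplicity_pos hP]
    show (P.1.map ι).eval θ = 0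
    rw [← eval₂_eq_eval_map]
    exact hθ
  refine ⟨(P.1.map ι).rootMultiplicity θ, hpos, ?_, ?_⟩
  · intro l hl hlK
    obtain ⟨q, hq⟩ := ExpChar.exists K
    haveI : ExpChar L q := expChar_of_injective_ringHom ι.injective q
    obtain ⟨g, hg, m, hm⟩ := P.2.2.hasSeparableContraction q
    have h1 : (P.1.map ι).rootMultiplicity θ =
        q ^ m * (g.map ι).rootMultiplicity (θ ^ q ^ m) := by
      rw [← hm, map_expand, rootMultiplicity_expand_pow]
    have h2 : (g.map ι).rootMultiplicity (θ ^ q ^ m) ≤ 1 :=
      rootMultiplicity_le_one_of_separable (hg.map) _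
    have h3 : (g.map ι).rootMultiplicity (θ ^ q ^ m) = 1 := by
      rcases Nat.eq_zero_or_pos ((g.map ι).rootMultiplicity (θ ^ q ^ m)) with h | h
      · rw [h, mul_zero] at h1
        omega
      · omega
    rw [h1, h3, mul_one]
    apply Nat.Coprime.pow_right
    cases hq with
    | zero => exact Nat.coprime_one_right l
    | prime hprime =>
      rw [Nat.coprime_primes hl hprime]
      rintro rfl
      exact hlK (CharP.cast_eq_zero K l)
  · intro f hf
    obtain ⟨p, q, hp, hq, rfl⟩ := RatA_exists hf
    have hp' : p.map ι ≠ 0 := (Polynomial.map_ne_zero_iff ι.injective).mpr hp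
    have hq' : q.map ι ≠ 0 := (Polynomial.map_ne_zero_iff ι.injective).mpr hq
    rw [rmap_div, rord_div _ hp' hq', dv_div P hp hq, RatC_mult ι θ P hθ hp,
      RatC_mult ι θ P hθ hq]
    push_cast
    ring

end W42
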