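import Pool.Agent.W_42fc02_h90.Sec
import Pool.Agent.W_42fc02_h90.Tsen
import Pool.Agent.W_42fc02_h90.LZA

/-!
ResA: residues of Brauer classes of F = kappa(y) at theta in KK, for a fixed embedding
io : Ok kappa Omega -> KK over kappa.

HasRes io theta c gamma q: the residue of c at theta, evaluated at gamma (gamma theta = theta), is q mod Z.
-/

namespace W42

open Polynomial

section
variable (κ F : Type) {Ω : Type} [Field κ] [Field F] [Field Ω] [Algebra κ F] [Algebra κ[X] F]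
  [IsScalarTower κ κ[X] F] [IsFractionRing κ[X] F] [Algebra F Ω] [Algebra κ Ω]
  [IsScalarTower κ F Ω] [IsGalois F Ω] [IsSepClosed Ω]
variable {𝕂 : Type} [Field 𝕂] [Algebra κ 𝕂]

/-- restriction of io to kp -/
noncomputable def iR (io : Ok κ Ω →ₐ[κ] 𝕂) {kp : IntermediateField κ Ω} (h : kp ≤ Ok κ Ω) :
    kp →ₐ[κ] 𝕂 := io.comp (IntermediateField.inclusion h)

/-- the residue of c at theta at gamma is q mod Z -/
def HasRes (io : Ok κ Ω →ₐ[κ] 𝕂) (θ : 𝕂) (c : Gal(Ω/F) → Gal(Ω/F) → Ωˣ) (γ : Gal(𝕂/κ))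
    (q : ℚ) : Prop :=
  ∃ (kp : IntermediateField κ Ω) (_ : FiniteDimensional κ kp) (_ : IsGalois κ kp)
    (h : kp ≤ Ok κ Ω) (c' : Gal(kp/κ) → Gal(kp/κ) → (RF kp)ˣ) (d : Gal(kp/κ)), IsC2 c' ∧
      BEq c (inflR κ F kp c') ∧ (∀ z, iR κ io h (d z) = γ (iR κ io h z)) ∧
      ∃ n : ℤ, xiR (iR κ io h : kp →+* 𝕂) θ c' d - q = n

/-- finite separable extensions of kappa in Omega lie in Ok -/
theorem le_Ok (kp : IntermediateField κ Ω) [IsGalois κ kp] : kp ≤ Ok κ Ω := by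
  exact le_separableClosure κ Ω kp

theorem ResA_iR (io : Ok κ Ω →ₐ[κ] 𝕂) {kp kq : IntermediateField κ Ω} (hp : kp ≤ Ok κ Ω)
    (hpq : kp ≤ kq) (hq : kq ≤ Ok κ Ω) (z : kp) :
    iR κ io hq (IntermediateField.inclusion hpq z) = iR κ io hp z := rfl

theorem ResA_inj (io : Ok κ Ω →ₐ[κ] 𝕂) {kp : IntermediateField κ Ω} (hp : kp ≤ Ok κ Ω) :
    Function.Injective (iR κ io hp) := (iR κ io hp).injective

/-- going up to a bigger level -/
theorem ResA_up {kp kq : IntermediateField κ Ω} [FiniteDimensional κ kp] [IsGalois κ kp]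
    [FiniteDimensional κ kq] [Normal κ kq]
    {c : Gal(kp/κ) → Gal(kp/κ) → (RF kp)ˣ} (hc : IsC2 c)
    (io : Ok κ Ω →ₐ[κ] 𝕂) (hp : kp ≤ Ok κ Ω) (hpq : kp ≤ kq) (hq : kq ≤ Ok κ Ω) (θ : 𝕂)
    (γ : Gal(𝕂/κ)) (dp : Gal(kp/κ)) (dq : Gal(kq/κ))
    (hdp : ∀ z, iR κ io hp (dp z) = γ (iR κ io hp z))
    (hdq : ∀ z, iR κ io hq (dq z) = γ (iR κ io hq z)) :
    ∃ cq : Gal(kq/κ) → Gal(kq/κ) → (RF kq)ˣ, IsC2 cq ∧ inflR κ F kp c = inflR κ F kq cq ∧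
      xiR (iR κ io hq : kq →+* 𝕂) θ cq dq = xiR (iR κ io hp : kp →+* 𝕂) θ c dp := by
  obtain ⟨cq, hcq⟩ := inflR_mono κ F kp kq hpq c
  refine ⟨cq, ?_, hcq, ?_⟩
  · rw [← isC2_inflR κ F kq cq, ← hcq, isC2_inflR κ F kp c]
    exact hc
  · rw [xiR_mono κ F hpq c cq hcq.symm (iR κ io hq : kq →+* 𝕂) θ dq dp ?_]
    · rfl
    · intro z
      apply ResA_inj κ io hq
      rw [hdq, ResA_iR κ io hp hpq hq, ResA_iR κ io hp hpq hq, hdp]

/-- comparison of two levels: kq = compositum (finite Galois), inflR_mono for both,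
exists_dB_of_beq_inflR, xiR_mul, xiR_dB, xiR_mono; the automorphism of kq induced by gamma
(exists_compat) restricts to dp and dr. -/
theorem xiR_diff {kp kr : IntermediateField κ Ω} [FiniteDimensional κ kp] [IsGalois κ kp]
    [FiniteDimensional κ kr] [IsGalois κ kr]
    {c : Gal(kp/κ) → Gal(kp/κ) → (RF kp)ˣ} {c' : Gal(kr/κ) → Gal(kr/κ) → (RF kr)ˣ}
    (hc : IsC2 c) (hc' : IsC2 c') (h : BEq (inflR κ F kp c) (inflR κ F kr c'))
    (io : Ok κ Ω →ₐ[κ] 𝕂) (hp : kp ≤ Ok κ Ω) (hr : kr ≤ Ok κ Ω) (θ : 𝕂) (γ : Gal(𝕂/κ))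
    (hγ : γ θ = θ) (dp : Gal(kp/κ)) (dr : Gal(kr/κ))
    (hdp : ∀ z, iR κ io hp (dp z) = γ (iR κ io hp z))
    (hdr : ∀ z, iR κ io hr (dr z) = γ (iR κ io hr z)) :
    ∃ n : ℤ, xiR (iR κ io hp : kp →+* 𝕂) θ c dp - xiR (iR κ io hr : kr →+* 𝕂) θ c' dr = n := by
  have hpq : kp ≤ kp ⊔ kr := le_sup_left
  have hrq : kr ≤ kp ⊔ kr := le_sup_right
  have hq : kp ⊔ kr ≤ Ok κ Ω := sup_le hp hr
  haveI : FiniteDimensional κ ↥(kp ⊔ kr) := IntermediateField.finiteDimensional_sup kp kr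
  haveI : Normal κ ↥(kp ⊔ kr) := IntermediateField.normal_sup κ Ω kp kr
  obtain ⟨dq, hdq⟩ := exists_compat (iR κ io hq) γ
  obtain ⟨cq, hcq, e1, e2⟩ := ResA_up κ F hc io hp hpq hq θ γ dp dq hdp hdq
  obtain ⟨cr, hcr, e3, e4⟩ := ResA_up κ F hc' io hr hrq hq θ γ dr dq hdr hdq
  rw [e1, e3] at h
  obtain ⟨b, hb⟩ := exists_dB_of_beq_inflR κ F (kp ⊔ kr) hcq hcr h
  have hb' : cq = fun g j => cr g j * dB b g j := by
    funext g j
    exact hb g j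
  refine ⟨rord θ (rmap (iR κ io hq : ↥(kp ⊔ kr) →+* 𝕂) (b dq : RF ↥(kp ⊔ kr))), ?_⟩
  rw [← e2, ← e4, hb', xiR_mul, xiR_dB (k := κ) (iR κ io hq : ↥(kp ⊔ kr) →+* 𝕂) θ b γ hγ dq hdq]
  ring

variable {κ F}

theorem HasRes.unique {io : Ok κ Ω →ₐ[κ] 𝕂} {θ : 𝕂} {c : Gal(Ω/F) → Gal(Ω/F) → Ωˣ}
    {γ : Gal(𝕂/κ)} (hγ : γ θ = θ) {q q' : ℚ} (h : HasRes κ F io θ c γ q)
    (h' : HasRes κ F io θ c γ q') : ∃ n : ℤ, q - q' = n := by
  obtain ⟨kp, _, _, hp, c', d, hc', hb, hd, n, hn⟩ := h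
  obtain ⟨kr, _, _, hr, c'', d', hc'', hb', hd', m, hm⟩ := h'
  obtain ⟨j, hj⟩ := xiR_diff κ F hc' hc'' (hb.symm.trans hb') io hp hr θ γ hγ d d' hd hd'
  refine ⟨j - n + m, ?_⟩
  push_cast
  rw [← hj, ← hn, ← hm]
  ring

theorem HasRes.congr {io : Ok κ Ω →ₐ[κ] 𝕂} {θ : 𝕂} {c c' : Gal(Ω/F) → Gal(Ω/F) → Ωˣ}
    {γ : Gal(𝕂/κ)} {q : ℚ} (h : HasRes κ F io θ c γ q) (hcc : BEq c c') :
    HasRes κ F io θ c' γ q := by
  obtain ⟨kp, h1, h2, hp, c', d, hc', hb, hd, hn⟩ := h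
  exact ⟨kp, h1, h2, hp, c', d, hc', hcc.symm.trans hb, hd, hn⟩

theorem HasRes.add_int {io : Ok κ Ω →ₐ[κ] 𝕂} {θ : 𝕂} {c : Gal(Ω/F) → Gal(Ω/F) → Ωˣ}
    {γ : Gal(𝕂/κ)} {q q' : ℚ} (h : HasRes κ F io θ c γ q) (hq : ∃ n : ℤ, q - q' = n) :
    HasRes κ F io θ c γ q' := by
  obtain ⟨kp, h1, h2, hp, c', d, hc', hb, hd, n, hn⟩ := h
  obtain ⟨m, hm⟩ := hq
  refine ⟨kp, h1, h2, hp, c', d, hc', hb, hd, n + m, ?_⟩
  push_cast
  rw [← hn, ← hm]
  ring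

theorem HasRes.mul {io : Ok κ Ω →ₐ[κ] 𝕂} {θ : 𝕂} {c c' : Gal(Ω/F) → Gal(Ω/F) → Ωˣ}
    {γ : Gal(𝕂/κ)} (hγ : γ θ = θ) {q q' : ℚ} (h : HasRes κ F io θ c γ q)
    (h' : HasRes κ F io θ c' γ q') : HasRes κ F io θ (fun σ τ => c σ τ * c' σ τ) γ (q + q') := by
  obtain ⟨kp, _, _, hp, c', d, hc', hb, hd, n, hn⟩ := h
  obtain ⟨kr, _, _, hr, c'', d', hc'', hb', hd', m, hm⟩ := h'
  have hpq : kp ≤ kp ⊔ kr := le_sup_left
  have hrq : kr ≤ kp ⊔ kr := le_sup_right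
  have hq : kp ⊔ kr ≤ Ok κ Ω := sup_le hp hr
  haveI : FiniteDimensional κ ↥(kp ⊔ kr) := IntermediateField.finiteDimensional_sup kp kr
  haveI : Normal κ ↥(kp ⊔ kr) := IntermediateField.normal_sup κ Ω kp kr
  haveI : IsGalois κ ↥(kp ⊔ kr) := { }
  obtain ⟨dq, hdq⟩ := exists_compat (iR κ io hq) γ
  obtain ⟨cq, hcq, e1, e2⟩ := ResA_up κ F hc' io hp hpq hq θ γ d dq hd hdq
  obtain ⟨cr, hcr, e3, e4⟩ := ResA_up κ F hc'' io hr hrq hq θ γ d' dq hd' hdq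
  rw [e1] at hb
  rw [e3] at hb'
  have h1 : inflR κ F (kp ⊔ kr) (fun g j => cq g j * cr g j) =
      (fun σ τ => inflR κ F (kp ⊔ kr) cq σ τ * inflR κ F (kp ⊔ kr) cr σ τ :
        Gal(Ω/F) → Gal(Ω/F) → Ωˣ) := by
    funext σ τ
    unfold inflR
    rw [map_mul]
  refine ⟨kp ⊔ kr, inferInstance, inferInstance, hq, fun g j => cq g j * cr g j, dq, hcq.mul hcr,
    ?_, hdq, n + m, ?_⟩
  · rw [h1]
    exact hb.mul hb'
  · rw [xiR_mul, e2, e4]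
    push_cast
    rw [← hn, ← hm]
    ring

theorem ResA_pow (κ F : Type) {Ω : Type} [Field κ] [Field F] [Field Ω] [Algebra κ F] [Algebra κ[X] F]
    [IsScalarTower κ κ[X] F] [IsFractionRing κ[X] F] [Algebra F Ω] [Algebra κ Ω]
    [IsScalarTower κ F Ω] [IsGalois F Ω] (kp : IntermediateField κ Ω) [FiniteDimensional κ kp] [Normal κ kp]
    {c : Gal(Ω/F) → Gal(Ω/F) → Ωˣ} {c' : Gal(kp/κ) → Gal(kp/κ) → (RF kp)ˣ} (n : ℕ)
    (h : BEq c (inflR κ F kp c')) :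
    BEq (fun σ τ => c σ τ ^ n) (inflR κ F kp (fun g j => c' g j ^ n)) := by
  have h1 : inflR κ F kp (fun g j => c' g j ^ n) =
      (fun σ τ => inflR κ F kp c' σ τ ^ n : Gal(Ω/F) → Gal(Ω/F) → Ωˣ) := by
    funext σ τ
    unfold inflR
    rw [map_pow]
  rw [h1]
  exact h.pow n

theorem HasRes.pow {io : Ok κ Ω →ₐ[κ] 𝕂} {θ : 𝕂} {c : Gal(Ω/F) → Gal(Ω/F) → Ωˣ}
    {γ : Gal(𝕂/κ)} {q : ℚ} (h : HasRes κ F io θ c γ q) (n : ℕ) :
    HasRes κ F io θ (fun σ τ => c σ τ ^ n) γ (n * q) := by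
  obtain ⟨kp, h1, h2, hp, c', d, hc', hb, hd, m, hm⟩ := h
  refine ⟨kp, h1, h2, hp, fun g j => c' g j ^ n, d, hc'.pow n, ResA_pow κ F kp n hb, hd,
    n * m, ?_⟩
  rw [xiR_pow]
  push_cast
  rw [← hm]
  ring

/-- killed by N: N q in Z (unique, the trivial class has residue 0). -/
theorem HasRes.torsion {io : Ok κ Ω →ₐ[κ] 𝕂} {θ : 𝕂} {c : Gal(Ω/F) → Gal(Ω/F) → Ωˣ}
    {γ : Gal(𝕂/κ)} (hγ : γ θ = θ) {q : ℚ} (h : HasRes κ F io θ c γ q) (N : ℕ)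
    (hN : BEq (fun σ τ => c σ τ ^ N) c1) : ∃ n : ℤ, (N : ℚ) * q = n := by
  have h0 : HasRes κ F io θ (c1 : Gal(Ω/F) → Gal(Ω/F) → Ωˣ) γ 0 := by
    obtain ⟨kp, h1, h2, hp, c', d, hc', hb, hd, m, hm⟩ := h
    refine ⟨kp, h1, h2, hp, fun _ _ => 1, d, isC2_one, ?_, hd, 0, ?_⟩
    · have h3 : (c1 : Gal(Ω/F) → Gal(Ω/F) → Ωˣ) = inflR κ F kp (fun _ _ => 1) := by
        funext σ τ
        unfold c1 inflR
        rw [map_one]
      rw [h3]
      exact BEq.refl _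
    · unfold xiR
      simp only [Units.val_one, map_one, rord_one, Int.cast_zero, Finset.sum_const_zero, zero_div,
        sub_zero]
  obtain ⟨n, hn⟩ := ((h.pow N).congr hN).unique hγ h0
  exact ⟨n, by rw [← hn, sub_zero]⟩

/-- existence for l-primary classes (tsen, exists_compat). -/
theorem exists_hasRes (io : Ok κ Ω →ₐ[κ] 𝕂) (θ : 𝕂) (l : ℕ) [Fact l.Prime] (hl : (l : κ) ≠ 0)
    {c : Gal(Ω/F) → Gal(Ω/F) → Ωˣ} (hc : BC c) (s : ℕ)
    (hs : BEq (fun σ τ => c σ τ ^ l ^ s) c1) (γ : Gal(𝕂/κ)) :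
    ∃ q : ℚ, HasRes κ F io θ c γ q := by
  obtain ⟨kp, hfd, hgal, c', hc', h⟩ := tsen κ F l hl hc s hs
  obtain ⟨d, hd⟩ := exists_compat (iR κ io (le_Ok κ kp)) γ
  exact ⟨_, kp, hfd, hgal, le_Ok κ kp, c', d, hc', h, hd, 0, by rw [sub_self, Int.cast_zero]⟩

/-- the residue function is a homomorphism mod Z of finite level (xiR_hom, xiR_one). -/
theorem exists_chiHom (io : Ok κ Ω →ₐ[κ] 𝕂) (θ : 𝕂) (l : ℕ) [Fact l.Prime] (hl : (l : κ) ≠ 0)
    {c : Gal(Ω/F) → Gal(Ω/F) → Ωˣ} (hc : BC c) (s : ℕ)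
    (hs : BEq (fun σ τ => c σ τ ^ l ^ s) c1) :
    ∃ χ : Gal(𝕂/κ) → ℚ, ChiHom κ θ χ ∧ ∀ γ : Gal(𝕂/κ), γ θ = θ → HasRes κ F io θ c γ (χ γ) := by
  obtain ⟨kp, hfd, hgal, c', hc', h⟩ := tsen κ F l hl hc s hs
  have hex := fun γ : Gal(𝕂/κ) => exists_compat (iR κ io (le_Ok κ kp)) γ
  choose d hd using hex
  refine ⟨fun γ => xiR (iR κ io (le_Ok κ kp) : kp →+* 𝕂) θ c' (d γ), ⟨?_, ?_⟩, ?_⟩
  · intro γ γ' hγ hγ'
    have e : d (γ * γ') = d γ * d γ' := by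
      apply AlgEquiv.ext
      intro z
      apply ResA_inj κ io (le_Ok κ kp)
      rw [hd]
      show γ (γ' _) = iR κ io (le_Ok κ kp) (d γ (d γ' z))
      rw [hd, hd]
    beta_reduce
    rw [e]
    exact xiR_hom (k := κ) (iR κ io (le_Ok κ kp) : kp →+* 𝕂) θ hc' γ hγ (d γ) (d γ') (hd γ)
  · classical
    refine ⟨Finset.univ.image fun j => iR κ io (le_Ok κ kp) (Module.finBasis κ kp j), ?_⟩
    intro γ hγ hS
    have e : d γ = 1 := by
      apply AlgEquiv.ext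
      intro z
      have h1 : (d γ : kp →ₐ[κ] kp).toLinearMap = LinearMap.id := by
        apply (Module.finBasis κ kp).ext
        intro j
        apply ResA_inj κ io (le_Ok κ kp)
        show iR κ io (le_Ok κ kp) (d γ (Module.finBasis κ kp j)) =
          iR κ io (le_Ok κ kp) (Module.finBasis κ kp j)
        rw [hd]
        exact hS _ (Finset.mem_image_of_mem _ (Finset.mem_univ j))
      exact congrArg (fun f : kp →ₗ[κ] kp => f z) h1
    beta_reduce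
    rw [e]
    exact xiR_one (k := κ) (iR κ io (le_Ok κ kp) : kp →+* 𝕂) θ hc'
  · intro γ hγ
    exact ⟨kp, hfd, hgal, le_Ok κ kp, c', d γ, hc', h, hd γ, 0, by
      rw [sub_self, Int.cast_zero]⟩

theorem ResA_fin {K : Type} [Field K] {f : RF K} (hf : f ≠ 0) : {θ : K | rord θ f ≠ 0}.Finite := by
  classical
  have h1 : ({θ : K | θ ∈ f.out.num.roots.toFinset} ∪ {θ | θ ∈ f.out.denom.roots.toFinset}).Finite :=
    (Finset.finite_toSet _).union (Finset.finite_toSet _)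
  refine h1.subset ?_
  intro θ hθ
  by_contra hne
  apply hθ
  rw [Set.mem_union, not_or, Set.mem_setOf_eq, Set.mem_setOf_eq, Multiset.mem_toFinset,
    Multiset.mem_toFinset] at hne
  unfold rord
  have e1 : f.out.num.rootMultiplicity θ = 0 := by
    apply rootMultiplicity_eq_zero
    intro h
    exact hne.1 ((mem_roots (RatA_num_ne_zero hf)).2 h)
  have e2 : f.out.denom.rootMultiplicity θ = 0 := by
    apply rootMultiplicity_eq_zero
    intro h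
    exact hne.2 ((mem_roots (RatA_denom_ne_zero f)).2 h)
  rw [e1, e2]
  rfl

/-- all but finitely many points theta (up to conjugation) are unramified: for a choice of roots
rho -> th rho of the monic irreducible polynomials over kappa, c is unramified at th rho for almost all
rho (the finitely many values of c' have finitely many zeros and poles). -/
theorem ram_finite (io : Ok κ Ω →ₐ[κ] 𝕂) (th : MI κ → 𝕂) (hth : ∀ ρ : MI κ, aeval (th ρ) ρ.1 = 0)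
    (l : ℕ) [Fact l.Prime] (hl : (l : κ) ≠ 0)
    {c : Gal(Ω/F) → Gal(Ω/F) → Ωˣ} (hc : BC c) (s : ℕ)
    (hs : BEq (fun σ τ => c σ τ ^ l ^ s) c1) :
    {ρ : MI κ | ¬ ∀ γ : Gal(𝕂/κ), γ (th ρ) = th ρ → HasRes κ F io (th ρ) c γ 0}.Finite := by
  classical
  obtain ⟨kp, hfd, hgal, c', hc', h⟩ := tsen κ F l hl hc s hs
  obtain ⟨T, hT⟩ : ∃ T : Set 𝕂, T = ⋃ (g : Gal(kp/κ)) (j : Gal(kp/κ)),
    {θ | rord θ (rmap (iR κ io (le_Ok κ kp) : kp →+* 𝕂) (c' g j : RF kp)) ≠ 0} := ⟨_, rfl⟩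
  have hTf : T.Finite := by
    rw [hT]
    refine Set.finite_iUnion fun g => Set.finite_iUnion fun j => ?_
    exact ResA_fin (f := rmap (iR κ io (le_Ok κ kp) : kp →+* 𝕂) (c' g j : RF kp))
      ((_root_.map_ne_zero _).2 (c' g j).ne_zero)
  have hinj : Function.Injective th := by
    intro ρ ρ' hρ
    have e : ∀ ρ : MI κ, ρ.1 = minpoly κ (th ρ) := fun ρ =>
      minpoly.eq_of_irreducible_of_monic ρ.2.2 (hth ρ) ρ.2.1
    apply Subtype.ext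
    rw [e ρ, e ρ', hρ]
  refine (hTf.preimage hinj.injOn).subset ?_
  intro ρ hρ
  by_contra hρT
  apply hρ
  intro γ hγ
  obtain ⟨d, hd⟩ := exists_compat (iR κ io (le_Ok κ kp)) γ
  refine ⟨kp, hfd, hgal, le_Ok κ kp, c', d, hc', h, hd, 0, ?_⟩
  have h0 : ∀ t : Gal(kp/κ), rord (th ρ) (rmap (iR κ io (le_Ok κ kp) : kp →+* 𝕂)
      (c' d t : RF kp)) = 0 := by
    intro t
    by_contra hne
    apply hρT
    rw [hT]
    exact Set.mem_iUnion.2 ⟨d, Set.mem_iUnion.2 ⟨t, hne⟩⟩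
  unfold xiR
  simp only [h0, Int.cast_zero, Finset.sum_const_zero, zero_div, sub_zero]

/-- some conjugate of P vanishes at th rho -/
theorem ResA_root {k K : Type} [Field k] [Field K] [Algebra k K] [FiniteDimensional k K]
    [Normal k K] {𝕂 : Type} [Field 𝕂] [Algebra k 𝕂] [IsAlgClosed 𝕂] [Algebra.IsAlgebraic k 𝕂]
    (i : K →ₐ[k] 𝕂) (th : MI k → 𝕂) (hth : ∀ ρ : MI k, aeval (th ρ) ρ.1 = 0) (P : MI K) :
    ∃ (s : Gal(K/k)) (ρ : MI k), (s • P).1.eval₂ (i : K →+* 𝕂) (th ρ) = 0 := by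
  obtain ⟨α, hα⟩ := IsAlgClosed.exists_eval₂_eq_zero (i : K →+* 𝕂) P.1
    (degree_pos_of_irreducible P.2.2).ne'
  have hint : IsIntegral k α := Algebra.IsIntegral.isIntegral α
  let ρ : MI k := ⟨minpoly k α, minpoly.monic hint, minpoly.irreducible hint⟩
  have hm : minpoly k (th ρ) = minpoly k α :=
    (minpoly.eq_of_irreducible_of_monic ρ.2.2 (hth ρ) ρ.2.1).symm
  haveI : Normal k 𝕂 := normal_iff.2 fun x => ⟨Algebra.IsIntegral.isIntegral x,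
    IsAlgClosed.splits _⟩
  obtain ⟨τ, hτ⟩ := (Normal.minpoly_eq_iff_mem_orbit (F := k) (E := 𝕂)).1 hm
  obtain ⟨s, hs⟩ := exists_compat i τ
  refine ⟨s, ρ, ?_⟩
  have hτ' : th ρ = τ α := hτ.symm
  rw [miAct_val, eval₂_map]
  have h1 : (i : K →+* 𝕂).comp (s : K →+* K) = (τ : 𝕂 →+* 𝕂).comp (i : K →+* 𝕂) := by
    ext z
    exact hs z
  have h2 := Polynomial.hom_eval₂ P.1 (i : K →+* 𝕂) (τ : 𝕂 →+* 𝕂) α
  rw [hα, map_zero] at h2
  rw [h1, hτ']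
  exact h2.symm

/-- integrality of xiR at a root of P and l-primary: the divisibility needed by faddeev -/
theorem ResA_dvd {k K 𝕂 : Type} [Field k] [Field K] [Field 𝕂] [Algebra k K]
    [FiniteDimensional k K] (i : K →+* 𝕂) {l : ℕ} (hl : l.Prime) (hlk : (l : k) ≠ 0) (θ : 𝕂)
    (P : MI K) (hθ : P.1.eval₂ i θ = 0) {c : Gal(K/k) → Gal(K/k) → (RF K)ˣ} (s : ℕ)
    (b : Gal(K/k) → (RF K)ˣ) (hb : ∀ g h, c g h ^ l ^ s = dB b g h) (d : Gal(K/k))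
    (hd : d • P = P) (hx : ∃ n : ℤ, xiR i θ c d = n) :
    (Fintype.card Gal(K/k) : ℤ) ∣ ∑ t : Gal(K/k), dv P (c d t : RF K) := by
  have hlK : (l : K) ≠ 0 := by
    intro h
    apply hlk
    apply (algebraMap k K).injective
    rw [map_natCast, map_zero]
    exact h
  have hsmul : ∀ u : (RF K)ˣ, dv P ((d • u : (RF K)ˣ) : RF K) = dv P (u : RF K) := by
    intro u
    have h := dv_rmap d P (u : RF K)
    rw [hd] at h
    rw [coe_ratAct]
    exact h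
  have hpow : ∀ (u : (RF K)ˣ) (n : ℕ), dv P ((u ^ n : (RF K)ˣ) : RF K) = n * dv P (u : RF K) := by
    intro u n
    induction n with
    | zero => rw [pow_zero, Units.val_one, dv_one, Nat.cast_zero, zero_mul]
    | succ n ih =>
      rw [pow_succ, Units.val_mul, dv_mul P (u ^ n).ne_zero u.ne_zero, ih]
      push_cast
      ring
  have hdiv : ∀ u v : (RF K)ˣ, dv P ((u / v : (RF K)ˣ) : RF K) =
      dv P (u : RF K) - dv P (v : RF K) := by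
    intro u v
    rw [Units.val_div_eq_div_val, div_eq_mul_inv, dv_mul P u.ne_zero (inv_ne_zero v.ne_zero),
      dv_inv P _ v.ne_zero]
    ring
  have h1 : ((l ^ s : ℕ) : ℤ) * ∑ t : Gal(K/k), dv P (c d t : RF K) =
      (Fintype.card Gal(K/k) : ℤ) * dv P (b d : RF K) := by
    have e1 : ∀ t : Gal(K/k), ((l ^ s : ℕ) : ℤ) * dv P (c d t : RF K) =
        dv P (b d : RF K) + dv P (b t : RF K) - dv P (b (d * t) : RF K) := by
      intro t
      rw [← hpow, hb]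
      unfold dB
      rw [hdiv, Units.val_mul, dv_mul P (b d).ne_zero (d • b t).ne_zero, hsmul]
    rw [Finset.mul_sum, Finset.sum_congr rfl fun t _ => e1 t, Finset.sum_sub_distrib,
      Finset.sum_add_distrib, Finset.sum_const, Finset.card_univ, nsmul_eq_mul]
    have e2 : ∑ t : Gal(K/k), dv P (b (d * t) : RF K) = ∑ t : Gal(K/k), dv P (b t : RF K) :=
      Fintype.sum_equiv (Equiv.mulLeft d) _ _ fun t => rfl
    rw [e2]
    ring
  obtain ⟨e, he0, hecop, he⟩ := rord_eq_mul_dv i θ P hθ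
  have hco := hecop l hl hlK
  obtain ⟨n, hn⟩ := hx
  have hcard : (Fintype.card Gal(K/k) : ℚ) ≠ 0 := by
    exact_mod_cast Fintype.card_ne_zero
  have h2 : (e : ℤ) * ∑ t : Gal(K/k), dv P (c d t : RF K) =
      (Fintype.card Gal(K/k) : ℤ) * n := by
    unfold xiR at hn
    rw [div_eq_iff hcard] at hn
    have h3 : (∑ t : Gal(K/k), (rord θ (rmap i (c d t : RF K)) : ℚ)) =
        ((e : ℤ) * ∑ t : Gal(K/k), dv P (c d t : RF K) : ℤ) := by
      rw [Finset.mul_sum, Int.cast_sum]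
      refine Finset.sum_congr rfl fun t _ => ?_
      rw [he _ (c d t).ne_zero]
    rw [h3] at hn
    have h4 : (((e : ℤ) * ∑ t : Gal(K/k), dv P (c d t : RF K) : ℤ) : ℚ) =
        ((n * (Fintype.card Gal(K/k) : ℤ) : ℤ) : ℚ) := by
      rw [hn]
      push_cast
      ring
    rw [Int.cast_injective h4]
    ring
  have h5 : IsCoprime ((l ^ s : ℕ) : ℤ) (e : ℤ) :=
    Nat.isCoprime_iff_coprime.2 (hco.pow_left s)
  obtain ⟨u, v, huv⟩ := h5
  refine ⟨u * dv P (b d : RF K) + v * n, ?_⟩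
  calc ∑ t : Gal(K/k), dv P (c d t : RF K) =
      u * (((l ^ s : ℕ) : ℤ) * ∑ t : Gal(K/k), dv P (c d t : RF K)) +
        v * ((e : ℤ) * ∑ t : Gal(K/k), dv P (c d t : RF K)) := by
        have e3 : ∀ S : ℤ, S = u * (((l ^ s : ℕ) : ℤ) * S) + v * ((e : ℤ) * S) := by
          intro S
          linear_combination (-S) * huv
        exact e3 _
    _ = _ := by
        rw [h1, h2]
        ring

/-- an everywhere unramified class (one point th rho over every rho is enough) killed by N (l-primary)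
is constant: comes from a class c2 over kappa with c2^N = 1.
tsen: kp, c'. Theorem faddeev: P in MI kp divides a unique rho in MI kappa; th rho is a root of
(s P)^io for some s in Gal(kp/kappa) (kp normal: the conjugates s P of P have product a power of
rho: rho(th rho) = 0, rho^io = product of the (s P)^io). For h fixing s P: exists_gamma gives gamma
fixing th rho inducing h; HasRes 0 and unique: xiR integral; rord_eq_mul_dv, l-primary as in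
faddeev_of_root: card divides sum of dv (s P) (c h t). Then c' = const * dB, exists_pull. -/
theorem const_of_unram [IsAlgClosed 𝕂] [Algebra.IsAlgebraic κ 𝕂] (io : Ok κ Ω →ₐ[κ] 𝕂)
    (th : MI κ → 𝕂) (hth : ∀ ρ : MI κ, aeval (th ρ) ρ.1 = 0) (l e : ℕ) [Fact l.Prime]
    (hl : (l : κ) ≠ 0) {c : Gal(Ω/F) → Gal(Ω/F) → Ωˣ} (hc : BC c)
    (hN : BEq (fun σ τ => c σ τ ^ l ^ e) c1)
    (hun : ∀ (ρ : MI κ) (γ : Gal(𝕂/κ)), γ (th ρ) = th ρ → HasRes κ F io (th ρ) c γ 0) :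
    ∃ c₂ : Gal(Ok κ Ω/κ) → Gal(Ok κ Ω/κ) → (Ok κ Ω)ˣ, BC c₂ ∧
      BEq (fun σ τ => c₂ σ τ ^ l ^ e) c1 ∧ BEq c (pull κ F c₂) := by
  obtain ⟨kp, hfd, hgal, c', hc', h⟩ := tsen κ F l hl hc e hN
  have hex : ∀ P : MI kp, ∃ (s : Gal(kp/κ)) (ρ : MI κ),
      (s • P).1.eval₂ (iR κ io (le_Ok κ kp) : kp →+* 𝕂) (th ρ) = 0 :=
    fun P => ResA_root (iR κ io (le_Ok κ kp)) th hth P
  obtain ⟨b, hb⟩ := exists_dB_of_beq_inflR κ F kp (hc'.pow (l ^ e)) isC2_one (by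
    have h1 : (c1 : Gal(Ω/F) → Gal(Ω/F) → Ωˣ) = inflR κ F kp (fun _ _ => 1) := by
      funext σ τ
      unfold c1 inflR
      rw [map_one]
    rw [← h1]
    exact (ResA_pow κ F kp (l ^ e) h).symm.trans hN)
  obtain ⟨c₀, b', hc₀, hb'⟩ := faddeev hc' (by
    intro P
    obtain ⟨s, ρ, hρ⟩ := hex P
    refine ⟨s, fun j hj => ?_⟩
    obtain ⟨γ, hγ, hγj⟩ := exists_gamma (iR κ io (le_Ok κ kp)) (s • P) (th ρ) hρ j hj
    have h2 : HasRes κ F io (th ρ) c γ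
        (xiR (iR κ io (le_Ok κ kp) : kp →+* 𝕂) (th ρ) c' j) :=
      ⟨kp, hfd, hgal, le_Ok κ kp, c', j, hc', h, hγj, 0, by rw [sub_self, Int.cast_zero]⟩
    obtain ⟨n, hn⟩ := h2.unique hγ (hun ρ γ hγ)
    exact ResA_dvd (iR κ io (le_Ok κ kp) : kp →+* 𝕂) (Fact.out : l.Prime) hl (th ρ) (s • P) hρ e b
      (fun g t => (hb g t).trans (one_mul _)) j hj ⟨n, by rw [← hn, sub_zero]⟩)
  obtain ⟨c₂, h3, h4, h5⟩ := exists_pull κ F kp hc₀
  have h6 : BEq (inflR κ F kp c') (inflC κ F kp c₀) := by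
    rw [inflC_eq_inflR]
    exact beq_inflR_of_dB κ F kp b' hb'
  have h7 : BEq c (inflC κ F kp c₀) := h.trans h6
  obtain ⟨b'', hb''⟩ := exists_dB_of_beq_inflC κ F kp (hc₀.pow (l ^ e)) (by
    have h8 : inflC κ F kp (fun g j => c₀ g j ^ l ^ e) =
        (fun σ τ => inflC κ F kp c₀ σ τ ^ l ^ e : Gal(Ω/F) → Gal(Ω/F) → Ωˣ) := by
      funext σ τ
      unfold inflC
      rw [map_pow]
    rw [h8]
    exact (h7.pow (l ^ e)).symm.trans hN)
  exact ⟨c₂, h3, h5 (l ^ e) b'' hb'', by rw [h4]; exact h7⟩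

end

end W42
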