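import Pool.Agent.W_42fc02_h90.Pull
import Pool.Agent.W_42fc02_h90.XiR

/-!
Sec: tools for the second fibration.

xiR_transport, xiR_mono: the residue xiR does not change under inflation to a bigger level.
ext_auto: kappa2 = k(y) = Frac k[X], KK algebraically closed and algebraic over kappa2, K / k finite,
i : K -> KK over k, theta in KK a root of P^i, d in Gal(K/k) fixing P: there is gamma in Gal(KK/kappa2)
with gamma theta = theta and i o d = gamma o i. Proof: kbar = algebraicClosure k KK is algebraically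
closed, theta in kbar; exists_gamma gives gamma0 in Gal(kbar/k). y is transcendental over k, hence over
kbar: gamma0 extends to kbar(y) = Frac kbar[X] by y -> y (injective evaluation at y, as in PhiO), and
then to KK (IsAlgClosed.lift; KK algebraic over kbar(y)).
-/

namespace W42

open Polynomial

section
variable {k K k' K' 𝕂 : Type} [Field k] [Field K] [Field k'] [Field K'] [Field 𝕂]
  [Algebra k K] [FiniteDimensional k K] [Algebra k' K'] [FiniteDimensional k' K']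

/-- transport along an isomorphism of Galois groups: reindex the sum; rmap_comp. -/
theorem xiR_transport (j : K →+* K') (φ : Gal(K'/k') ≃* Gal(K/k))
    (i : K' →+* 𝕂) (θ : 𝕂) (c : Gal(K/k) → Gal(K/k) → (RF K)ˣ) (d : Gal(K'/k')) :
    xiR i θ (fun d d' => Units.map (rmap j : RF K →* RF K') (c (φ d) (φ d'))) d =
      xiR (i.comp j) θ c (φ d) := by
  unfold xiR
  have h1 : (Fintype.card Gal(K'/k') : ℚ) = (Fintype.card Gal(K/k) : ℚ) := by
    rw [Fintype.card_congr φ.toEquiv]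
  rw [h1]
  congr 1
  rw [← Equiv.sum_comp φ.toEquiv
    (fun t => (rord θ (rmap (i.comp j) (c (φ d) t : RF K)) : ℚ))]
  refine Finset.sum_congr rfl fun t _ => ?_
  have h2 : rmap i ((Units.map (rmap j : RF K →* RF K') (c (φ d) (φ t)) : (RF K')ˣ) : RF K') =
      rmap (i.comp j) (c (φ d) (φ t) : RF K) := rmap_comp j i _
  rw [h2]
  rfl

end

/-- extension of embeddings -/
private theorem Sec_ext {κ A B 𝕂 : Type} [Field κ] [Field A] [Field B] [Field 𝕂] [Algebra κ A]
    [Algebra κ B] [Algebra κ 𝕂] [IsAlgClosed 𝕂] [Algebra.IsAlgebraic κ B] (j : A →ₐ[κ] B)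
    (i : A →ₐ[κ] 𝕂) : ∃ iq : B →ₐ[κ] 𝕂, ∀ z : A, iq (j z) = i z := by
  let a1 : Algebra A B := (j : A →+* B).toAlgebra
  let a2 : Algebra A 𝕂 := (i : A →+* 𝕂).toAlgebra
  have t1 : IsScalarTower κ A B := IsScalarTower.of_algebraMap_eq fun x => (j.commutes x).symm
  have t2 : IsScalarTower κ A 𝕂 := IsScalarTower.of_algebraMap_eq fun x => (i.commutes x).symm
  have t3 : Algebra.IsAlgebraic A B := Algebra.IsAlgebraic.tower_top (K := κ) A
  let iq : B →ₐ[A] 𝕂 := IsAlgClosed.lift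
  exact ⟨iq.restrictScalars κ, fun z => iq.commutes z⟩

section
variable (κ F : Type) {Ω : Type} [Field κ] [Field F] [Field Ω] [Algebra κ F] [Algebra κ[X] F]
  [IsScalarTower κ κ[X] F] [IsFractionRing κ[X] F] [Algebra F Ω] [Algebra κ Ω]
  [IsScalarTower κ F Ω] [IsGalois F Ω]

/-- sums over the fibres of a surjective homomorphism -/
private theorem Sec_sum {G H : Type} [Group G] [Group H] [Fintype G] [Fintype H] (φ : G →* H)
    (hφ : Function.Surjective φ) (f : H → ℚ) :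
    (∑ g, f (φ g)) / (Fintype.card G : ℚ) = (∑ x, f x) / (Fintype.card H : ℚ) := by
  classical
  obtain ⟨n, hn⟩ : ∃ n : ℕ, n = (Finset.univ.filter (fun g => φ g = 1)).card := ⟨_, rfl⟩
  have h1 : ∀ x : H, (Finset.univ.filter (fun g => φ g = x)).card = n := by
    intro x
    rw [hn]
    exact MonoidHom.card_fiber_eq_of_mem_range φ (hφ x) (hφ 1)
  have h2 : ∀ f : H → ℚ, ∑ g, f (φ g) = n * ∑ x, f x := by
    intro f
    rw [Finset.mul_sum, ← Finset.sum_fiberwise (Finset.univ) (φ : G → H)]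
    refine Finset.sum_congr rfl fun x _ => ?_
    rw [← h1 x]
    rw [Finset.sum_congr rfl (g := fun _ => f x) (fun g hg => by
      rw [(Finset.mem_filter.1 hg).2]), Finset.sum_const, nsmul_eq_mul]
  have h3 := h2 (fun _ => 1)
  rw [Finset.sum_const, Finset.sum_const, Finset.card_univ, Finset.card_univ, nsmul_eq_mul,
    nsmul_eq_mul, mul_one, mul_one] at h3
  have hG : (Fintype.card G : ℚ) ≠ 0 := Nat.cast_ne_zero.2 Fintype.card_ne_zero
  have hH : (Fintype.card H : ℚ) ≠ 0 := Nat.cast_ne_zero.2 Fintype.card_ne_zero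
  have hn0 : (n : ℚ) ≠ 0 := by
    intro h
    rw [h, zero_mul] at h3
    exact hG h3
  rw [h2 f, h3, mul_div_mul_left _ _ hn0]

/-- restriction of automorphisms from a bigger level -/
private theorem Sec_restrict {kp kq : IntermediateField κ Ω} [FiniteDimensional κ kp]
    [Normal κ kp] [FiniteDimensional κ kq] [Normal κ kq] (h : kp ≤ kq) :
    ∃ φ : Gal(kq/κ) →* Gal(kp/κ), Function.Surjective φ ∧
      (∀ (dq : Gal(kq/κ)) (z : kp),
        dq (IntermediateField.inclusion h z) = IntermediateField.inclusion h (φ dq z)) ∧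
      ∀ σ : Gal(Ω/F), φ (rk κ F kq σ) = rk κ F kp σ := by
  have hex : ∀ dq : Gal(kq/κ), ∃ d : Gal(kp/κ), ∀ z : kp,
      dq (IntermediateField.inclusion h z) = IntermediateField.inclusion h (d z) := by
    intro dq
    obtain ⟨σ, rfl⟩ := rk_surjective κ F kq dq
    refine ⟨rk κ F kp σ, fun z => ?_⟩
    apply Subtype.ext
    rw [rk_apply]
    show σ (z : Ω) = ((rk κ F kp σ z : kp) : Ω)
    rw [rk_apply]
  choose φ hφ using hex
  have hinj : Function.Injective (IntermediateField.inclusion h) :=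
    (IntermediateField.inclusion h).injective
  have huniq : ∀ (dq : Gal(kq/κ)) (d : Gal(kp/κ)), (∀ z : kp,
      dq (IntermediateField.inclusion h z) = IntermediateField.inclusion h (d z)) → φ dq = d := by
    intro dq d hd
    apply AlgEquiv.ext
    intro z
    apply hinj
    rw [← hφ, hd]
  have hrk : ∀ σ : Gal(Ω/F), φ (rk κ F kq σ) = rk κ F kp σ := by
    intro σ
    apply huniq
    intro z
    apply Subtype.ext
    rw [rk_apply]
    show σ (z : Ω) = ((rk κ F kp σ z : kp) : Ω)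
    rw [rk_apply]
  refine ⟨MonoidHom.mk' φ ?_, ?_, hφ, hrk⟩
  · intro a b
    apply huniq
    intro z
    show a (b _) = _
    rw [hφ b z, hφ a]
    rfl
  · intro d
    obtain ⟨σ, rfl⟩ := rk_surjective κ F kp d
    exact ⟨rk κ F kq σ, hrk σ⟩

/-- change of level: kp <= kq; c on kp, cq on kq with the same inflation to Omega. Then
cq d d' = rmap incl (c (d|kp) (d'|kp)) (rk_surjective, PhiO_incl, PhiO injective), and the fibres of
Gal(kq/kappa) -> Gal(kp/kappa) have the same number of elements. -/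
theorem xiR_mono {kp kq : IntermediateField κ Ω} [FiniteDimensional κ kp] [Normal κ kp]
    [FiniteDimensional κ kq] [Normal κ kq] (h : kp ≤ kq)
    (c : Gal(kp/κ) → Gal(kp/κ) → (RF kp)ˣ) (cq : Gal(kq/κ) → Gal(kq/κ) → (RF kq)ˣ)
    (hcq : inflR κ F kq cq = inflR κ F kp c) {𝕂 : Type} [Field 𝕂] (i : kq →+* 𝕂) (θ : 𝕂)
    (dq : Gal(kq/κ)) (d : Gal(kp/κ))
    (hd : ∀ z : kp, dq (IntermediateField.inclusion h z) = IntermediateField.inclusion h (d z)) :
    xiR i θ cq dq = xiR (i.comp (IntermediateField.inclusion h : kp →+* kq)) θ c d := by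
  obtain ⟨φ, hφs, hφ, hrk⟩ := Sec_restrict κ F h
  have hinj : Function.Injective (IntermediateField.inclusion h) :=
    (IntermediateField.inclusion h).injective
  have hdφ : φ dq = d := by
    apply AlgEquiv.ext
    intro z
    apply hinj
    rw [← hφ, hd]
  have hval : ∀ t : Gal(kq/κ), (cq dq t : RF kq) =
      rmap (IntermediateField.inclusion h : kp →+* kq) (c (φ dq) (φ t) : RF kp) := by
    intro t
    obtain ⟨σ, rfl⟩ := rk_surjective κ F kq dq
    obtain ⟨τ, rfl⟩ := rk_surjective κ F kq t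
    rw [hrk, hrk]
    apply (PhiO κ F kq).injective
    rw [PhiO_incl]
    have h1 := congrFun (congrFun hcq σ) τ
    exact congrArg (fun u : Ωˣ => (u : Ω)) h1
  unfold xiR
  rw [← hdφ, ← Sec_sum φ hφs]
  congr 1
  refine Finset.sum_congr rfl fun t _ => ?_
  rw [hval t, rmap_comp]

omit [IsGalois F Ω] [Algebra F Ω] [IsScalarTower κ F Ω] [Field F] [Algebra κ F]
  [Algebra κ[X] F] [IsScalarTower κ κ[X] F] [IsFractionRing κ[X] F] in
/-- extension of an embedding to a bigger level -/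
private theorem Sec_extend {kr kq : IntermediateField κ Ω} [FiniteDimensional κ kq]
    (h : kr ≤ kq) {𝕂 : Type} [Field 𝕂] [Algebra κ 𝕂] [IsAlgClosed 𝕂] (i : kr →ₐ[κ] 𝕂) :
    ∃ iq : kq →ₐ[κ] 𝕂, ∀ z : kr, iq (IntermediateField.inclusion h z) = i z :=
  Sec_ext (IntermediateField.inclusion h) i

/-- two levels kp, kr of equivalent classes: if all xiR of c on kp are integral, so are those of
c' on kr. kq = a finite Galois level containing both; inflR_mono, exists_dB_of_beq_inflR at level kq,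
xiR_mul, xiR_dB, xiR_mono; i extends from kr to kq (IsAlgClosed.lift), gamma is compatible with an
automorphism of kq (exists_compat) restricting to the given one of kr. -/
theorem xiR_compare {kp kr : IntermediateField κ Ω} [FiniteDimensional κ kp] [Normal κ kp]
    [FiniteDimensional κ kr] [Normal κ kr]
    {c : Gal(kp/κ) → Gal(kp/κ) → (RF kp)ˣ} {c' : Gal(kr/κ) → Gal(kr/κ) → (RF kr)ˣ}
    (hc : IsC2 c) (hc' : IsC2 c') (h : BEq (inflR κ F kp c) (inflR κ F kr c')) {𝕂 : Type}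
    [Field 𝕂] [Algebra κ 𝕂] [IsAlgClosed 𝕂] [Algebra.IsAlgebraic κ 𝕂]
    (hx : ∀ (i : kp →ₐ[κ] 𝕂) (θ : 𝕂) (γ : Gal(𝕂/κ)), γ θ = θ → ∀ d : Gal(kp/κ),
      (∀ z, i (d z) = γ (i z)) → ∃ n : ℤ, xiR (i : kp →+* 𝕂) θ c d = n)
    (i : kr →ₐ[κ] 𝕂) (θ : 𝕂) (γ : Gal(𝕂/κ)) (hγ : γ θ = θ) (d : Gal(kr/κ))
    (hd : ∀ z, i (d z) = γ (i z)) : ∃ n : ℤ, xiR (i : kr →+* 𝕂) θ c' d = n := by
  obtain ⟨kq, hkq⟩ : ∃ kq : IntermediateField κ Ω, kq = kp ⊔ kr := ⟨_, rfl⟩
  have hq1 : FiniteDimensional κ kq := by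
    rw [hkq]
    infer_instance
  have hq2 : Normal κ kq := by
    rw [hkq]
    infer_instance
  have hpq : kp ≤ kq := by
    rw [hkq]
    exact le_sup_left
  have hrq : kr ≤ kq := by
    rw [hkq]
    exact le_sup_right
  obtain ⟨cq, hcq⟩ := inflR_mono κ F kp kq hpq c
  obtain ⟨cr, hcr⟩ := inflR_mono κ F kr kq hrq c'
  have hC : IsC2 cq := by
    rw [← isC2_inflR κ F kq, ← hcq, isC2_inflR]
    exact hc
  have hC' : IsC2 cr := by
    rw [← isC2_inflR κ F kq, ← hcr, isC2_inflR]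
    exact hc'
  obtain ⟨b, hb⟩ := exists_dB_of_beq_inflR κ F kq hC hC' (by
    rw [← hcq, ← hcr]
    exact h)
  obtain ⟨iq, hiq⟩ := Sec_extend κ hrq i
  obtain ⟨dq, hdq⟩ := exists_compat iq γ
  obtain ⟨φ, -, hφ, -⟩ := Sec_restrict κ F hpq
  obtain ⟨n, hn⟩ := hx (iq.comp (IntermediateField.inclusion hpq)) θ γ hγ (φ dq) (by
    intro z
    show iq (IntermediateField.inclusion hpq (φ dq z)) = γ (iq (IntermediateField.inclusion hpq z))
    rw [← hφ, hdq])
  have e1 : xiR (iq : kq →+* 𝕂) θ cq dq = n := by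
    rw [xiR_mono κ F hpq c cq hcq.symm (iq : kq →+* 𝕂) θ dq (φ dq) (hφ dq), ← hn]
    rfl
  have e2 : xiR (iq : kq →+* 𝕂) θ cr dq = xiR (i : kr →+* 𝕂) θ c' d := by
    rw [xiR_mono κ F hrq c' cr hcr.symm (iq : kq →+* 𝕂) θ dq d (by
      intro z
      apply iq.injective
      show iq (dq (IntermediateField.inclusion hrq z)) = iq (IntermediateField.inclusion hrq (d z))
      rw [hdq, hiq, hiq, hd])]
    congr 1
    ext z
    exact hiq z
  have e3 : cq = fun g j => cr g j * dB b g j := by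
    funext g j
    exact hb g j
  rw [e3, xiR_mul, e2, xiR_dB (iq : kq →+* 𝕂) θ b γ hγ dq hdq] at e1
  refine ⟨n - rord θ (rmap (iq : kq →+* 𝕂) (b dq : RF kq)), ?_⟩
  push_cast
  linarith

end

section
variable (κ F : Type) {Ω : Type} [Field κ] [Field F] [Field Ω] [Algebra κ F] [Algebra κ[X] F]
  [IsScalarTower κ κ[X] F] [IsFractionRing κ[X] F] [Algebra F Ω] [Algebra κ Ω]
  [IsScalarTower κ F Ω]

private theorem Sec_div (kp : IntermediateField κ Ω) [Algebra.IsAlgebraic κ kp] (p q : kp[X]) :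
    PhiO κ F kp (pF kp p / pF kp q) =
      p.eval₂ (algebraMap kp Ω) (yO κ F Ω) / q.eval₂ (algebraMap kp Ω) (yO κ F Ω) :=
  RatFunc.liftRingHom_apply_div (eval₂RingHom (algebraMap kp Ω) (yO κ F Ω)) (eval_le κ F kp) p q

private theorem Sec_PhiO_C (kp : IntermediateField κ Ω) [Algebra.IsAlgebraic κ kp] (a : kp) :
    PhiO κ F kp (cF kp a) = (a : Ω) := by
  have h := Sec_div κ F kp (C a) 1
  rw [map_one, div_one, eval₂_one, div_one, eval₂_C] at h
  exact h

private theorem Sec_PhiO_map (kp : IntermediateField κ Ω) [Algebra.IsAlgebraic κ kp]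
    (p q : κ[X]) :
    PhiO κ F kp (rmap (algebraMap κ kp) (pF κ p / pF κ q)) =
      algebraMap F Ω (algebraMap κ[X] F p / algebraMap κ[X] F q) := by
  rw [rmap_div, Sec_div, eval₂_map, eval₂_map, map_div₀]
  have h : (algebraMap kp Ω).comp (algebraMap κ kp) = algebraMap κ Ω := rfl
  rw [h, FDef_eval, FDef_eval]

/-- an automorphism of kp extends to an automorphism of Omega over F -/
private theorem Sec_lift [Normal F Ω] (kp : IntermediateField κ Ω) [Algebra.IsAlgebraic κ kp]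
    (γ : Gal(kp/κ)) : ∃ σ : Gal(Ω/F), ∀ z : kp, σ (z : Ω) = ((γ z : kp) : Ω) := by
  have hmem : ∀ x : F, algebraMap F Ω x ∈ (PhiO κ F kp).fieldRange := by
    intro x
    obtain ⟨p, q, _, rfl⟩ := IsFractionRing.div_surjective (A := κ[X]) x
    exact ⟨_, Sec_PhiO_map κ F kp p q⟩
  obtain ⟨E, hE⟩ : ∃ E : IntermediateField F Ω, ∀ z, z ∈ E ↔ ∃ f : RF kp, PhiO κ F kp f = z :=
    ⟨(PhiO κ F kp).fieldRange.toIntermediateField hmem, fun z => Iff.rfl⟩
  let e0 : RF kp →+* E :=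
    (PhiO κ F kp).codRestrict E fun f => (hE _).2 ⟨f, rfl⟩
  have he0 : Function.Bijective e0 := by
    refine ⟨e0.injective, ?_⟩
    rintro ⟨z, hz⟩
    obtain ⟨f, hf⟩ := (hE z).1 hz
    exact ⟨f, Subtype.ext hf⟩
  let e : RF kp ≃+* E := RingEquiv.ofBijective e0 he0
  have hsymm : ∀ (z : E) (f : RF kp), PhiO κ F kp f = (z : Ω) → e.symm z = f := by
    intro z f h
    rw [RingEquiv.symm_apply_eq]
    exact Subtype.ext h.symm
  let ρ : E →ₐ[F] Ω :=
    { ((PhiO κ F kp).comp ((rmap (γ : kp →+* kp)).comp (e.symm : E →+* RF kp))) with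
      commutes' := by
        intro x
        show PhiO κ F kp (rmap (γ : kp →+* kp) (e.symm (algebraMap F E x))) =
          algebraMap F Ω x
        obtain ⟨p, q, _, rfl⟩ := IsFractionRing.div_surjective (A := κ[X]) x
        have hm := Sec_PhiO_map κ F kp p q
        rw [hsymm _ _ hm, rmap_comp]
        have h1 : (γ : kp →+* kp).comp (algebraMap κ kp) = algebraMap κ kp := by
          ext a
          exact congrArg _ (γ.commutes a)
        rw [h1, hm] }
  have hρ : ∀ z : kp, ∀ hz : (z : Ω) ∈ E, ρ ⟨z, hz⟩ = (γ z : kp) := by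
    intro z hz
    show PhiO κ F kp (rmap (γ : kp →+* kp) (e.symm ⟨z, hz⟩)) = (γ z : kp)
    rw [hsymm _ (cF kp z) (Sec_PhiO_C κ F kp z), rmap_C, Sec_PhiO_C]
    rfl
  let σ0 : Ω →ₐ[F] Ω := ρ.liftNormal Ω
  have hσ0 : ∀ z : E, σ0 (z : Ω) = ρ z := fun z => AlgHom.liftNormal_commutes ρ Ω z
  let σ : Gal(Ω/F) := AlgEquiv.ofBijective σ0 (AlgHom.normal_bijective F Ω Ω σ0)
  refine ⟨σ, fun z => ?_⟩
  have hz : (z : Ω) ∈ E := (hE _).2 ⟨cF kp z, Sec_PhiO_C κ F kp z⟩
  show σ0 (z : Ω) = (γ z : kp)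
  rw [← hρ z hz, ← hσ0 ⟨z, hz⟩]

end

theorem ext_auto {k K κ₂ 𝕂 : Type} [Field k] [Field K] [Field κ₂] [Field 𝕂] [Algebra k K]
    [FiniteDimensional k K] [Algebra k κ₂] [Algebra k[X] κ₂] [IsScalarTower k k[X] κ₂]
    [IsFractionRing k[X] κ₂] [Algebra κ₂ 𝕂] [Algebra k 𝕂] [IsScalarTower k κ₂ 𝕂]
    [IsAlgClosed 𝕂] [Algebra.IsAlgebraic κ₂ 𝕂] (i : K →ₐ[k] 𝕂) (P : MI K) (θ : 𝕂)
    (hθ : P.1.eval₂ (i : K →+* 𝕂) θ = 0) (d : Gal(K/k)) (hd : d • P = P) :
    ∃ γ : Gal(𝕂/κ₂), γ θ = θ ∧ ∀ z : K, i (d z) = γ (i z) := by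
  have hn0 : IsAlgClosure κ₂ 𝕂 := ⟨inferInstance, inferInstance⟩
  have hn : Normal κ₂ 𝕂 := inferInstance
  have hmem : ∀ z : K, i z ∈ algebraicClosure k 𝕂 := by
    intro z
    rw [mem_algebraicClosure_iff]
    exact (Algebra.IsAlgebraic.isAlgebraic (R := k) z).algHom i
  have hcl : IsAlgClosed (algebraicClosure k 𝕂) :=
    (inferInstance : IsAlgClosure k (algebraicClosure k 𝕂)).isAlgClosed
  let i' : K →ₐ[k] algebraicClosure k 𝕂 :=
    i.codRestrict (algebraicClosure k 𝕂).toSubalgebra hmem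
  have hi' : ∀ z, ((i' z : algebraicClosure k 𝕂) : 𝕂) = i z := fun z => rfl
  have hcomp : (algebraMap (algebraicClosure k 𝕂) 𝕂).comp (i' : K →+* algebraicClosure k 𝕂) =
      (i : K →+* 𝕂) := by
    ext z
    exact hi' z
  have hθ1 : IsAlgebraic (algebraicClosure k 𝕂) θ := by
    refine ⟨P.1.map (i' : K →+* algebraicClosure k 𝕂), ?_, ?_⟩
    · rw [Ne, Polynomial.map_eq_zero]
      exact P.2.1.ne_zero
    · rw [aeval_def, eval₂_map, hcomp]
      exact hθ
  have hθ2 : θ ∈ algebraicClosure k 𝕂 := by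
    rw [mem_algebraicClosure_iff]
    exact hθ1.restrictScalars k
  have hθ3 : P.1.eval₂ (i' : K →+* algebraicClosure k 𝕂) ⟨θ, hθ2⟩ = 0 := by
    apply (algebraMap (algebraicClosure k 𝕂) 𝕂).injective
    rw [hom_eval₂, hcomp, map_zero]
    exact hθ
  obtain ⟨γ₀, h1, h2⟩ := exists_gamma i' P ⟨θ, hθ2⟩ hθ3 d hd
  obtain ⟨σ, hσ⟩ := Sec_lift k κ₂ (algebraicClosure k 𝕂) γ₀
  refine ⟨σ, ?_, fun z => ?_⟩
  · have h3 := hσ ⟨θ, hθ2⟩
    rw [h1] at h3
    exact h3
  · have h3 := hσ (i' z)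
    rw [← h2, hi', hi'] at h3
    exact h3.symm

end W42
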